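import Mathlib

open PowerSeries Finset

namespace Pool.Agent.H25.Dis

noncomputable section

def y : ℤ⟦X⟧ := PowerSeries.mk 1

lemma y_mul : y * (1 - X) = 1 := mk_one_mul_one_sub_eq_one ℤ

abbrev ex : ℤ⟦X⟧ →ₐ[ℤ] ℤ⟦X⟧ := expand 2 two_ne_zero

def U (b : ℕ) : ℤ⟦X⟧ →+ ℤ⟦X⟧ :=
  AddMonoidHom.mk' (fun A => PowerSeries.mk fun n => coeff (2 * n + b) A) fun A B => by
    ext; simp

lemma coeff_U (b n : ℕ) (A : ℤ⟦X⟧) : coeff n (U b A) = coeff (2 * n + b) A := by simp [U]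

lemma split (A : ℤ⟦X⟧) : A = ex (U 0 A) + X * ex (U 1 A) := by
  ext n
  obtain ⟨k, rfl | rfl⟩ := n.even_or_odd'
  · cases k with
    | zero => rw [map_add, coeff_expand, if_pos (by omega), coeff_U]; simp
    | succ k =>
      rw [map_add, show 2 * (k + 1) = 2 * k + 1 + 1 by ring, coeff_succ_X_mul, coeff_expand,
        coeff_expand, if_pos (by omega), if_neg (by omega), coeff_U, add_zero]
      congr 2; omega
  · rw [map_add, coeff_succ_X_mul, coeff_expand, coeff_expand, if_neg (by omega),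
      if_pos (by omega), coeff_U, zero_add]
    congr 2; omega

lemma U0 (P Q : ℤ⟦X⟧) : U 0 (ex P + X * ex Q) = P := by
  ext n
  cases n with
  | zero => rw [coeff_U]; simp
  | succ k =>
    rw [coeff_U, map_add, show 2 * (k + 1) + 0 = 2 * k + 1 + 1 by ring, coeff_succ_X_mul,
      coeff_expand, coeff_expand, if_pos (by omega), if_neg (by omega), add_zero]
    congr 2; omega

lemma U1 (P Q : ℤ⟦X⟧) : U 1 (ex P + X * ex Q) = Q := by
  ext n
  rw [coeff_U, map_add, coeff_succ_X_mul, coeff_expand, coeff_expand, if_neg (by omega),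
    if_pos (by omega), zero_add]
  congr 2; omega

lemma U_mul {b : ℕ} (hb : b < 2) (A B : ℤ⟦X⟧) : U b (A * ex B) = U b A * B := by
  have : A * ex B = ex (U 0 A * B) + X * ex (U 1 A * B) := by
    conv_lhs => rw [split A]
    simp only [map_mul]; ring
  interval_cases b
  · rw [this, U0]
  · rw [this, U1]

lemma hY : ex y * (1 - X ^ 2) = 1 := by simpa using congrArg ex y_mul

lemma y_eq : y = ex y + X * ex y := by linear_combination (1 + X) * ex y * y_mul - y * hY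

lemma U_y (A : ℤ⟦X⟧) : U 0 (y * A) = y * (U 0 A + U 1 A) - U 1 A ∧
    U 1 (y * A) = y * (U 0 A + U 1 A) := by
  have : y * A = ex (y * (U 0 A + U 1 A) - U 1 A) + X * ex (y * (U 0 A + U 1 A)) := by
    simp only [map_mul, map_sub, map_add]
    linear_combination y * split A + (ex (U 0 A) + X * ex (U 1 A)) * y_eq - ex (U 1 A) * hY
  exact ⟨by rw [this, U0], by rw [this, U1]⟩

lemma U_C (a : ℤ) : U 0 (C a) = C a ∧ U 1 (C a) = 0 := by
  have : (C a : ℤ⟦X⟧) = ex (C a) + X * ex 0 := by simp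
  exact ⟨by rw [this, U0, ← this], by rw [this, U1]⟩

def Sp (φ : ℕ → ℕ → Prop) : AddSubgroup ℤ⟦X⟧ :=
  AddSubgroup.closure {A | ∃ k e, φ k e ∧ A = 2 ^ e * y ^ k}

variable {φ ψ χ : ℕ → ℕ → Prop} {A B : ℤ⟦X⟧}

lemma gen {k e : ℕ} (h : φ k e) : 2 ^ e * y ^ k ∈ Sp φ :=
  AddSubgroup.subset_closure ⟨k, e, h, rfl⟩

lemma ind {S : AddSubgroup ℤ⟦X⟧} (f : ℤ⟦X⟧ →+ ℤ⟦X⟧) (hA : A ∈ Sp φ)
    (h : ∀ k e, φ k e → f (2 ^ e * y ^ k) ∈ S) : f A ∈ S :=
  (AddSubgroup.closure_le (S.comap f)).2 (by rintro _ ⟨k, e, h1, rfl⟩; exact h k e h1) hA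

lemma mono (hA : A ∈ Sp φ) (h : ∀ k e, φ k e → ψ k e) : A ∈ Sp ψ :=
  ind (.id _) hA fun k e h1 => gen (h k e h1)

lemma mul (hA : A ∈ Sp φ) (hB : B ∈ Sp ψ)
    (h : ∀ i e j f, φ i e → ψ j f → χ (i + j) (e + f)) : A * B ∈ Sp χ :=
  ind (.mulRight B) hA fun i e h1 => ind (.mulLeft _) hB fun j f h2 => by
    have := gen (h i e j f h1 h2)
    rwa [pow_add, pow_add, mul_mul_mul_comm] at this

lemma int_mul (a : ℤ) (hA : A ∈ Sp φ) : C a * A ∈ Sp φ := by
  simpa using (Sp φ).zsmul_mem hA a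

lemma U_pow {b : ℕ} (hb : b < 2) (i : ℕ) :
    U b (y ^ i) ∈ Sp fun k f => k ≤ i ∧ i + b ≤ 2 * k ∧ 2 * k ≤ f + i + 1 := by
  induction i using Nat.twoStepInduction with
  | zero =>
    interval_cases b
    · simpa [show U 0 1 = 1 from (U_C 1).1] using gen (k := 0) (e := 0) (by omega)
    · simp [show U 1 1 = 0 from (U_C 1).2]
  | one =>
    have : U b (y ^ 1) = 2 ^ 0 * y ^ 1 := by
      ext; simp [coeff_U, y]
    exact this ▸ gen (by omega)
  | more i h0 h1 =>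
    have : y ^ (i + 2) = y ^ (i + 1) * ex (2 ^ 1 * y ^ 1) - y ^ i * ex (2 ^ 0 * y ^ 1) := by
      simp only [map_mul, map_pow, map_ofNat]
      linear_combination y ^ i * (y + X * ex y - ex y) * y_eq - y ^ i * ex y * hY
    rw [this, map_sub, U_mul hb, U_mul hb]
    exact sub_mem (mul h1 (gen (φ := fun k e => k = 1 ∧ e = 1) ⟨rfl, rfl⟩) (by omega))
      (mul h0 (gen (φ := fun k e => k = 1 ∧ e = 0) ⟨rfl, rfl⟩) (by omega))

lemma U_mem {b : ℕ} (hb : b < 2) (hA : A ∈ Sp φ) (h : ∀ i e k f, φ i e → k ≤ i → i ≤ 2 * k →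
    2 * k ≤ f + i + 1 → ψ k (e + f)) : U b A ∈ Sp ψ :=
  ind _ hA fun i e h1 => by
    have : 2 ^ e * y ^ i = y ^ i * ex (2 ^ e * y ^ 0) := by simp [mul_comm, map_ofNat]
    rw [this, U_mul hb]
    refine mul (U_pow hb i) (gen (φ := fun k f => k = 0 ∧ f = e) ⟨rfl, rfl⟩) ?_
    rintro k f _ _ ⟨h2, h3, h4⟩ ⟨rfl, rfl⟩
    exact add_comm f _ ▸ h _ _ _ _ h1 h2 (by omega) h4

lemma dvd_of_mem {d : ℕ} (hA : A ∈ Sp φ) (h : ∀ k e, φ k e → d ≤ e) : 2 ^ d ∣ A :=
  Ideal.mem_span_singleton.1 (ind (S := (Ideal.span {2 ^ d}).toAddSubgroup) (.id _) hA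
    fun k e h1 => Ideal.mem_span_singleton.2 ((pow_dvd_pow 2 (h k e h1)).mul_right _))

def ev : List ℤ → ℤ⟦X⟧
  | [] => 0
  | a :: l => C a + y * ev l

end

def ad : List ℤ → List ℤ → List ℤ
  | [], q => q
  | p, [] => p
  | a :: p, b :: q => (a + b) :: ad p q

def ml : List ℤ → List ℤ → List ℤ
  | [], _ => []
  | a :: p, q => ad (q.map (a * ·)) (0 :: ml p q)

def ul : List ℤ → List ℤ × List ℤ
  | [] => ([], [])
  | a :: l => (ad (a :: ad (ul l).1 (ul l).2) ((ul l).2.map (-1 * ·)), 0 :: ad (ul l).1 (ul l).2)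

def ub (b : ℕ) (l : List ℤ) : List ℤ := if b = 0 then (ul l).1 else (ul l).2

lemma ev_ad (p q : List ℤ) : ev (ad p q) = ev p + ev q := by
  fun_induction ad p q <;> simp [ev, *]; ring

lemma ev_map (a : ℤ) (q : List ℤ) : ev (q.map (a * ·)) = C a * ev q := by
  induction q <;> simp only [ev, List.map, map_mul, mul_zero, *]; ring

lemma ev_ml (p q : List ℤ) : ev (ml p q) = ev p * ev q := by
  induction p <;> simp only [ev, ml, ev_ad, ev_map, zero_mul, map_zero, *]; ring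

lemma ev_ul (l : List ℤ) : ev (ul l).1 = U 0 (ev l) ∧ ev (ul l).2 = U 1 (ev l) := by
  induction l with
  | nil => simp [ul, ev]
  | cons a l ih =>
    simp only [ul, ev, ev_ad, ev_map, ih, map_add, U_C, U_y, map_neg, map_one, map_zero]
    exact ⟨by ring, trivial⟩

lemma ev_ub {b : ℕ} (hb : b < 2) (l : List ℤ) : ev (ub b l) = U b (ev l) := by
  interval_cases b
  exacts [(ev_ul l).1, (ev_ul l).2]

def chk (φ : ℕ → ℕ → Prop) [DecidableRel φ] : ℕ → List ℤ → Bool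
  | _, [] => true
  | k, a :: l => (a = 0 ∨ ∃ e < 40, φ k e ∧ 2 ^ e ∣ a) && chk φ (k + 1) l

lemma chk_mem {φ : ℕ → ℕ → Prop} [DecidableRel φ] (l : List ℤ) (k : ℕ) (h : chk φ k l) :
    y ^ k * ev l ∈ Sp φ := by
  induction l generalizing k with
  | nil => simp [ev]
  | cons a l ih =>
    simp only [chk, Bool.and_eq_true, decide_eq_true_eq] at h
    rw [ev, mul_add, ← mul_assoc, ← pow_succ]
    refine add_mem ?_ (ih _ h.2)
    rcases h.1 with rfl | ⟨e, -, h1, c, rfl⟩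
    · simp
    · have := int_mul c (gen h1)
      rwa [show C c * (2 ^ e * y ^ k) = y ^ k * C (2 ^ e * c) by simp; ring] at this

lemma ev_mem {φ : ℕ → ℕ → Prop} [DecidableRel φ] (l : List ℤ) (h : chk φ 0 l) : ev l ∈ Sp φ := by
  simpa using chk_mem l 0 h

end Pool.Agent.H25.Dis
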