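import Mathlib
import Pool.Agent.H25.Dis

open PowerSeries Finset Pool.Agent.H25.Dis

namespace Pool.Agent.H25.Bin

noncomputable section

def geom (d : ℕ) : ℤ⟦X⟧ := PowerSeries.mk fun j => if d ∣ j then 1 else 0

def cc (a m n : ℕ) : ℤ := coeff n (geom 1 ^ a * ∏ i ∈ range (n + 1), geom (2 ^ i) ^ m)

def H (a m N : ℕ) : ℤ⟦X⟧ := geom 1 ^ a * ∏ i ∈ range N, geom (2 ^ i) ^ m

def F (a m : ℕ) : ℤ⟦X⟧ := PowerSeries.mk (cc a m)

lemma ex_geom (d : ℕ) : ex (geom d) = geom (2 * d) := by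
  ext j
  rw [coeff_expand, geom, geom, coeff_mk, coeff_mk]
  by_cases h : 2 ∣ j
  · simp [h, Nat.dvd_div_iff_mul_dvd h]
  · rw [if_neg h, if_neg fun h' => h (dvd_of_mul_right_dvd h')]

lemma geom_one : geom 1 = y := by ext; simp [geom, y]

lemma H_succ (a m N : ℕ) :
    H a m (N + 1) = ((1 - X ^ 2) ^ a * y ^ (a + m)) * ex (H a m N) := by
  have h4 := congrArg (· ^ a) hY
  simp only [H, map_mul, map_pow, map_prod, ex_geom, mul_pow, one_pow, mul_one,
    ← geom_one, ← pow_succ'] at h4 ⊢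
  rw [prod_range_succ', pow_zero]
  generalize ∏ i ∈ range N, geom (2 ^ (i + 1)) ^ m = P
  linear_combination -geom 1 ^ (a + m) * P * h4

lemma H_stab (a m n b : ℕ) : coeff n (H a m (n + 1 + b)) = coeff n (H a m (n + 1)) := by
  induction b with
  | zero => rfl
  | succ b ih =>
    have h0 : n < 2 ^ (n + 1 + b) := by
      have : n + 1 + b < 2 ^ (n + 1 + b) := Nat.lt_two_pow_self
      omega
    have h : X ^ 2 ^ (n + 1 + b) ∣ geom (2 ^ (n + 1 + b)) ^ m - 1 := by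
      refine Dvd.dvd.trans (X_pow_dvd_iff.2 fun j hj => ?_) (sub_one_dvd_pow_sub_one _ _)
      rw [map_sub, geom, coeff_mk, coeff_one]
      rcases j.eq_zero_or_pos with rfl | h1
      · simp
      · rw [if_neg fun h => by have := Nat.le_of_dvd h1 h; omega, if_neg h1.ne', sub_zero]
    have := X_pow_dvd_iff.1 (h.mul_left (H a m (n + 1 + b))) n h0
    rw [mul_sub, map_sub, sub_eq_zero, mul_one, ih] at this
    rw [← this, ← add_assoc, H, prod_range_succ, ← mul_assoc, H]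

lemma dvd_ex {k : ℕ} {D : ℤ⟦X⟧} (h : X ^ k ∣ D) : X ^ (2 * k) ∣ ex D := by
  simpa [← pow_mul] using map_dvd ex h

lemma F_eq (a m : ℕ) : F a m = ((1 - X ^ 2) ^ a * y ^ (a + m)) * ex (F a m) := by
  ext n
  have h : X ^ (n + 1) ∣ F a m - H a m (n + 1) := X_pow_dvd_iff.2 fun j hj => by
    obtain ⟨b, rfl⟩ := Nat.exists_eq_add_of_le (Nat.le_of_lt_succ hj)
    rw [map_sub, Nat.add_right_comm, H_stab, F, coeff_mk]
    exact sub_self _
  have := X_pow_dvd_iff.1 (((pow_dvd_pow _ (by omega)).trans (dvd_ex h)).mul_left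
    ((1 - X ^ 2) ^ a * y ^ (a + m))) n n.lt_succ_self
  rw [map_sub, mul_sub, map_sub, sub_eq_zero, ← H_succ, H_stab] at this
  rw [this, F, coeff_mk]
  rfl

lemma F_zero (a m : ℕ) : constantCoeff (F a m) = 1 := by
  simp [F, cc, geom_one, y]

lemma F_eq' (m : ℕ) : F m m = (2 * y - 1) ^ m * ex (F m m) := by
  have : (1 - X ^ 2) * y ^ 2 = 2 * y - 1 := by linear_combination (y - 1 + X * y) * y_mul
  rw [← this, mul_pow, ← pow_mul, two_mul, ← F_eq]

lemma uniq {A B T : ℤ⟦X⟧} (hA : A = T * ex A) (hB : B = T * ex B)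
    (h : constantCoeff A = constantCoeff B) : A = B := by
  have (k : ℕ) : X ^ (k + 1) ∣ A - B := by
    induction k with
    | zero => simpa [X_dvd_iff, sub_eq_zero]
    | succ k ih =>
      rw [hA, hB, ← mul_sub, ← map_sub]
      exact ((pow_dvd_pow _ (by omega)).trans (dvd_ex ih)).mul_left _
  ext n
  simpa [sub_eq_zero] using X_pow_dvd_iff.1 (this n) n n.lt_succ_self

def z : ℤ⟦X⟧ := y ^ 2 - y

lemma y_sq : y ^ 2 = y * ex (2 ^ 1 * y ^ 1) - ex (2 ^ 0 * y ^ 1) := by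
  simp only [map_mul, map_pow, map_ofNat]
  linear_combination (y + X * ex y - ex y) * y_eq - ex y * hY

lemma one_mem {φ : ℕ → ℕ → Prop} (h : φ 0 0) : (1 : ℤ⟦X⟧) ∈ Sp φ := by simpa using gen h

lemma Uz_pow (i : ℕ) : ∃ W ∈ Sp fun k f => k ≤ i ∧ i ≤ 2 * k + 1 ∧ 2 * k + 1 ≤ f + i,
    U 0 (z * y ^ i) = z * W := by
  induction i using Nat.twoStepInduction with
  | zero =>
    refine ⟨_, gen (k := 0) (e := 1) (by omega), ?_⟩
    have := ev_ub two_pos [0, -1, 1]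
    rw [show ub 0 [0, -1, 1] = [0, -2, 2] by decide] at this
    convert this.symm using 1
    · congr 1; simp [ev, z]; ring
    · simp [ev, z]; ring
  | one =>
    refine ⟨_, sub_mem (gen (k := 1) (e := 2) (by omega)) (one_mem (by omega)), ?_⟩
    have := ev_ub two_pos [0, 0, -1, 1]
    rw [show ub 0 [0, 0, -1, 1] = [0, 1, -5, 4] by decide] at this
    convert this.symm using 1
    · congr 1; simp [ev, z]; ring
    · simp [ev, z]; ring
  | more i h0 h1 =>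
    obtain ⟨V, h2, h3⟩ := h0
    obtain ⟨W, h4, h5⟩ := h1
    refine ⟨_, sub_mem (mul h4 (gen (φ := fun k e => k = 1 ∧ e = 1) ⟨rfl, rfl⟩) (by omega))
      (mul h2 (gen (φ := fun k e => k = 1 ∧ e = 0) ⟨rfl, rfl⟩) (by omega)), ?_⟩
    rw [pow_add, y_sq, mul_sub, mul_sub, ← mul_assoc (y ^ i), ← pow_succ, ← mul_assoc, ← mul_assoc,
      map_sub, U_mul two_pos, U_mul two_pos, h3, h5]
    ring

lemma Uz {φ ψ : ℕ → ℕ → Prop} {B : ℤ⟦X⟧} (hB : B ∈ Sp φ) (h : ∀ i e k f, φ i e → k ≤ i →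
    i ≤ 2 * k + 1 → 2 * k + 1 ≤ f + i → ψ k (e + f)) : ∃ W ∈ Sp ψ, U 0 (z * B) = z * W := by
  obtain ⟨W, h1, h2⟩ := ind (S := (Sp ψ).map (.mulLeft z)) ((U 0).comp (.mulLeft z)) hB
    fun i e h1 => by
      obtain ⟨W, h2, h3⟩ := Uz_pow i
      refine ⟨_, mul h2 (gen (φ := fun k f => k = 0 ∧ f = e) ⟨rfl, rfl⟩) ?_, ?_⟩
      · rintro k f _ _ ⟨h2, h3, h4⟩ ⟨rfl, rfl⟩
        exact add_comm f _ ▸ h _ _ _ _ h1 h2 h3 h4
      · have : z * (2 ^ e * y ^ i) = z * y ^ i * ex (2 ^ e * y ^ 0) := by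
          simp [map_ofNat]; ring
        simp only [AddMonoidHom.coe_mulLeft, AddMonoidHom.comp_apply]
        rw [this, U_mul two_pos, h3, mul_assoc]
  exact ⟨W, h1, h2.symm⟩

lemma coeff_z (n : ℕ) : coeff n z = n := by
  simp [z, y, sq, coeff_mul]

end

end Pool.Agent.H25.Bin
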