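import Mathlib

set_option autoImplicit false

namespace Pool.Agent.H25.BinLie

open MvPolynomial

abbrev FF : Type := AlgebraicClosure (ZMod 2)

lemma exists_omega : ∃ ω : FF, ω * ω * ω = 1 ∧ ω ≠ 1 ∧ ω * ω ≠ 1 := by
  obtain ⟨ω, hω⟩ := IsAlgClosed.exists_root (Polynomial.X ^ 2 + Polynomial.X + 1 : Polynomial FF)
    (by
      have : (Polynomial.X ^ 2 + Polynomial.X + 1 : Polynomial FF).degree = 2 := by
        compute_degree!
      rw [this]; norm_num)
  have h : ω * ω + ω + 1 = 0 := by simpa [pow_two] using hω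
  have h2 : (2 : FF) = 0 := CharTwo.two_eq_zero
  refine ⟨ω, by linear_combination (ω - 1) * h, fun e => ?_, fun e => ?_⟩
  · rw [e] at h
    exact one_ne_zero (α := FF) (by linear_combination h - h2)
  · have h3 : ω = 0 := by linear_combination h - e - h2
    rw [h3] at e
    simp at e

noncomputable def JJ : Ideal (MvPolynomial ℕ FF) :=
  Ideal.span ((fun s => monomial s (1 : FF)) '' Set.range (fun i : ℕ => Finsupp.single i 2))

def RR : Type := MvPolynomial ℕ FF ⧸ JJ

noncomputable instance : CommRing RR := inferInstanceAs (CommRing (MvPolynomial ℕ FF ⧸ JJ))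
noncomputable instance : Algebra FF RR := inferInstanceAs (Algebra FF (MvPolynomial ℕ FF ⧸ JJ))

noncomputable def mkR : MvPolynomial ℕ FF →+* RR := Ideal.Quotient.mk JJ

lemma mkR_zero (f : MvPolynomial ℕ FF) : mkR f = 0 ↔ f ∈ JJ := Ideal.Quotient.eq_zero_iff_mem

lemma two_zero : (2 : RR) = 0 := by
  have h2 : (2 : FF) = 0 := CharTwo.two_eq_zero
  have := congrArg (algebraMap FF RR) h2
  rwa [map_ofNat, map_zero] at this

def II : Submodule FF RR where
  carrier := {r | r * r = 0}
  zero_mem' := by simp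
  add_mem' := fun {a b} ha hb => by
    have h1 : a * a = 0 := ha
    have h2 : b * b = 0 := hb
    show (a + b) * (a + b) = 0
    linear_combination h1 + h2 + a * b * two_zero
  smul_mem' := fun c a ha => by
    have h1 : a * a = 0 := ha
    show (c • a) * (c • a) = 0
    rw [smul_mul_smul_comm, h1, smul_zero]

lemma sq (a : II) : (a : RR) * a = 0 := a.2

noncomputable def mm (a b : II) : II := ⟨a * b, by
  show ((a : RR) * b) * (a * b) = 0
  linear_combination ((b : RR) * b) * sq a⟩

def AA : Type := II × II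

noncomputable instance : AddCommGroup AA := inferInstanceAs (AddCommGroup (II × II))
noncomputable instance : Module FF AA := inferInstanceAs (Module FF (II × II))
noncomputable instance : Mul AA := ⟨fun x y => (mm x.2 y.2, mm x.1 y.1)⟩

def p1 (x : AA) : RR := x.1
def p2 (x : AA) : RR := x.2

lemma ext' {x y : AA} (h1 : p1 x = p1 y) (h2 : p2 x = p2 y) : x = y :=
  Prod.ext (Subtype.ext h1) (Subtype.ext h2)

@[simp] lemma p1_mul (x y : AA) : p1 (x * y) = p2 x * p2 y := rfl
@[simp] lemma p2_mul (x y : AA) : p2 (x * y) = p1 x * p1 y := rfl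
@[simp] lemma p1_add (x y : AA) : p1 (x + y) = p1 x + p1 y := rfl
@[simp] lemma p2_add (x y : AA) : p2 (x + y) = p2 x + p2 y := rfl
@[simp] lemma p1_zero : p1 0 = 0 := rfl
@[simp] lemma p2_zero : p2 0 = 0 := rfl
@[simp] lemma p1_smul (c : FF) (x : AA) : p1 (c • x) = c • p1 x := rfl
@[simp] lemma p2_smul (c : FF) (x : AA) : p2 (c • x) = c • p2 x := rfl
lemma p1_sq (x : AA) : p1 x * p1 x = 0 := sq x.1
lemma p2_sq (x : AA) : p2 x * p2 x = 0 := sq x.2

noncomputable instance : NonUnitalNonAssocRing AA :=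
  { (inferInstance : AddCommGroup AA), (inferInstance : Mul AA) with
    left_distrib := fun a b c => ext' (by simp [mul_add]) (by simp [mul_add])
    right_distrib := fun a b c => ext' (by simp [add_mul]) (by simp [add_mul])
    zero_mul := fun a => ext' (by simp) (by simp)
    mul_zero := fun a => ext' (by simp) (by simp) }

instance : IsScalarTower FF AA AA :=
  ⟨fun c x y => ext' (by simp) (by simp)⟩

instance : SMulCommClass FF AA AA :=
  ⟨fun c x y => ext' (by simp) (by simp)⟩

lemma mul_self (u : AA) : u * u = 0 := ext' (p2_sq u) (p1_sq u)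

def SS (x y : AA) : NonUnitalSubalgebra FF AA where
  carrier := {u | ∃ α β γ : RR, p1 u = α * p1 x + β * p1 y + γ * (p2 x * p2 y) ∧
    p2 u = α * p2 x + β * p2 y + γ * (p1 x * p1 y)}
  zero_mem' := ⟨0, 0, 0, by simp, by simp⟩
  add_mem' := by
    rintro u v ⟨a, b, c, h1, h2⟩ ⟨a', b', c', h3, h4⟩
    exact ⟨a + a', b + b', c + c', by rw [p1_add, h1, h3]; ring, by rw [p2_add, h2, h4]; ring⟩
  smul_mem' := by
    rintro t u ⟨a, b, c, h1, h2⟩
    refine ⟨algebraMap FF RR t * a, algebraMap FF RR t * b, algebraMap FF RR t * c, ?_, ?_⟩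
    · rw [p1_smul, h1, Algebra.smul_def]; ring
    · rw [p2_smul, h2, Algebra.smul_def]; ring
  mul_mem' := by
    rintro u v ⟨a, b, c, h1, h2⟩ ⟨a', b', c', h3, h4⟩
    refine ⟨(b * c' + c * b') * (p1 y * p2 y), (a * c' + c * a') * (p1 x * p2 x),
      a * b' + b * a', ?_, ?_⟩
    · rw [p1_mul, h2, h4]
      linear_combination (a * a') * p2_sq x + (b * b') * p2_sq y +
        (c * c' * p1 y * p1 y) * p1_sq x
    · rw [p2_mul, h1, h3]
      linear_combination (a * a') * p1_sq x + (b * b') * p1_sq y +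
        (c * c' * p2 y * p2 y) * p2_sq x

lemma jac (x y : AA) (u v w : AA) (hu : u ∈ SS x y) (hv : v ∈ SS x y) (hw : w ∈ SS x y) :
    u * (v * w) + v * (w * u) + w * (u * v) = 0 := by
  obtain ⟨a, b, c, h1, h2⟩ := hu
  obtain ⟨a', b', c', h3, h4⟩ := hv
  obtain ⟨a'', b'', c'', h5, h6⟩ := hw
  have e1 := p1_sq x
  have e2 := p2_sq x
  have e3 := p1_sq y
  have e4 := p2_sq y
  have e5 := two_zero
  apply ext'
  · simp only [p1_add, p1_mul, p2_mul, p1_zero, h1, h2, h3, h4, h5, h6]
    generalize p1 x = s at *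
    generalize p2 x = t at *
    generalize p1 y = r at *
    generalize p2 y = q at *
    grind
  · simp only [p2_add, p1_mul, p2_mul, p2_zero, h1, h2, h3, h4, h5, h6]
    generalize p1 x = s at *
    generalize p2 x = t at *
    generalize p1 y = r at *
    generalize p2 y = q at *
    grind

lemma adj_le (x y : AA) : NonUnitalAlgebra.adjoin FF ({x, y} : Set AA) ≤ SS x y := by
  apply NonUnitalAlgebra.adjoin_le
  rintro u (rfl | rfl)
  · exact ⟨1, 0, 0, by simp, by simp⟩
  · exact ⟨0, 1, 0, by simp, by simp⟩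

noncomputable def phi (ω : FF) (h : ω * ω * ω = 1) : AA →ₙₐ[FF] AA where
  toFun x := (ω • x.1, (ω * ω) • x.2)
  map_smul' c x := ext' (smul_comm ω c (p1 x)) (smul_comm (ω * ω) c (p2 x))
  map_zero' := ext' (smul_zero ω) (smul_zero (ω * ω))
  map_add' x y := ext' (smul_add ω (p1 x) (p1 y)) (smul_add (ω * ω) (p2 x) (p2 y))
  map_mul' x y := ext'
    (by
      show ω • (p2 x * p2 y) = ((ω * ω) • p2 x) * ((ω * ω) • p2 y)
      rw [smul_mul_smul_comm, show ω * ω * (ω * ω) = ω by linear_combination ω * h])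
    (by
      show (ω * ω) • (p1 x * p1 y) = (ω • p1 x) * (ω • p1 y)
      rw [smul_mul_smul_comm])

lemma p1_phi (ω : FF) (h : ω * ω * ω = 1) (x : AA) : p1 (phi ω h x) = ω • p1 x := rfl
lemma p2_phi (ω : FF) (h : ω * ω * ω = 1) (x : AA) : p2 (phi ω h x) = (ω * ω) • p2 x := rfl

noncomputable def ff : ℕ → ℕ → (ℕ →₀ ℕ)
  | 0, s => Finsupp.single s 1
  | k + 1, s => ff k s + ff k (s + 2 ^ k)

lemma ff_apply (k : ℕ) : ∀ s i, ff k s i = if s ≤ i ∧ i < s + 2 ^ k then 1 else 0 := by
  induction k with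
  | zero =>
    intro s i
    simp only [ff, Finsupp.single_apply, pow_zero]
    split_ifs <;> omega
  | succ k ih =>
    intro s i
    simp only [ff, Finsupp.add_apply, ih, pow_succ]
    split_ifs <;> omega

noncomputable def EE : ℕ → ℕ → II
  | 0, s => ⟨mkR (monomial (Finsupp.single s 1) 1), by
      show mkR _ * mkR _ = 0
      rw [← map_mul, monomial_mul, mkR_zero, ← Finsupp.single_add, mul_one]
      exact Ideal.subset_span ⟨_, ⟨s, rfl⟩, rfl⟩⟩
  | k + 1, s => mm (EE k s) (EE k (s + 2 ^ k))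

lemma EE_val (k : ℕ) : ∀ s, (EE k s : RR) = mkR (monomial (ff k s) 1) := by
  induction k with
  | zero => intro s; rfl
  | succ k ih =>
    intro s
    show (EE k s : RR) * EE k (s + 2 ^ k) = _
    rw [ih, ih, ← map_mul, monomial_mul, mul_one]
    rfl

lemma EE_ne (k s : ℕ) : (EE k s : RR) ≠ 0 := by
  rw [EE_val, Ne, mkR_zero, JJ, mem_ideal_span_monomial_image]
  intro h
  obtain ⟨_, ⟨i, rfl⟩, hi⟩ := h (ff k s) (by simp)
  have := hi i
  rw [ff_apply] at this
  simp only [Finsupp.single_eq_same] at this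
  split_ifs at this <;> omega

noncomputable def DD : ℕ → Submodule FF AA
  | 0 => ⊤
  | i + 1 => Submodule.span FF {z : AA | ∃ x ∈ DD i, ∃ y ∈ DD i, x * y = z}

lemma DD_mem (k : ℕ) : ∀ s, ((EE k s, 0) : AA) ∈ DD k ∧ ((0, EE k s) : AA) ∈ DD k := by
  induction k with
  | zero => intro s; exact ⟨trivial, trivial⟩
  | succ k ih =>
    intro s
    constructor
    · refine Submodule.subset_span ⟨_, (ih s).2, _, (ih (s + 2 ^ k)).2, ext' rfl ?_⟩
      exact zero_mul (0 : RR)
    · refine Submodule.subset_span ⟨_, (ih s).1, _, (ih (s + 2 ^ k)).1, ext' ?_ rfl⟩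
      exact zero_mul (0 : RR)

lemma DD_ne (k : ℕ) : DD k ≠ ⊥ := by
  intro h
  have := (DD_mem k 0).1
  rw [h] at this
  exact EE_ne k 0 (congrArg p1 ((Submodule.mem_bot FF).1 this))

end Pool.Agent.H25.BinLie
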