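import Mathlib

set_option autoImplicit false

namespace Pool.Agent.H25.Cantorval

def E (z : ℕ → ℝ) : Set ℝ := {s : ℝ | ∃ A : Set ℕ, s = ∑' n, A.indicator z n}

lemma E_closed (z : ℕ → ℝ) (hz : Summable z) : IsClosed (E z) := by
  classical
  have : E z = Set.range (fun a : ℕ → Bool => ∑' n, if a n then z n else 0) := by
    ext s
    constructor
    · rintro ⟨A, rfl⟩
      exact ⟨fun n => decide (n ∈ A), by simp [Set.indicator_apply]⟩
    · rintro ⟨a, rfl⟩
      exact ⟨{n | a n}, by simp [Set.indicator_apply]⟩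
  rw [this]
  refine (isCompact_range (continuous_tsum (u := fun n => ‖z n‖) (fun n => ?_) hz.norm ?_)).isClosed
  · exact (continuous_of_discreteTopology (f := fun b : Bool => if b then z n else 0)).comp
      (continuous_apply n)
  · intro n a
    split_ifs <;> simp

lemma E_bd (z : ℕ → ℝ) (hz : Summable z) : ∃ M, ∀ s ∈ E z, |s| ≤ M := by
  refine ⟨∑' n, ‖z n‖, ?_⟩
  rintro s ⟨A, rfl⟩
  exact tsum_of_norm_bounded (f := fun n => A.indicator z n) hz.norm.hasSum fun n =>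
    norm_indicator_le_norm_self _ _

lemma E_zero (z : ℕ → ℝ) : (0 : ℝ) ∈ E z := ⟨∅, by simp⟩

lemma E_succ (z : ℕ → ℝ) (hz : Summable z) (s : ℝ) :
    s ∈ E z ↔ ∃ t ∈ E (fun n => z (n + 1)), s = t ∨ s = z 0 + t := by
  classical
  constructor
  · rintro ⟨A, rfl⟩
    refine ⟨_, ⟨{n | n + 1 ∈ A}, rfl⟩, ?_⟩
    rw [(hz.indicator A).tsum_eq_zero_add]
    by_cases h : 0 ∈ A
    · right; simp [Set.indicator_apply, h]
    · left; simp [Set.indicator_apply, h]
  · rintro ⟨t, ⟨A, rfl⟩, rfl | rfl⟩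
    · refine ⟨{n | n ≠ 0 ∧ n - 1 ∈ A}, ?_⟩
      rw [(hz.indicator _).tsum_eq_zero_add]
      simp [Set.indicator_apply]
    · refine ⟨{n | n = 0 ∨ n - 1 ∈ A}, ?_⟩
      rw [(hz.indicator _).tsum_eq_zero_add]
      simp [Set.indicator_apply]

lemma E_scale (z : ℕ → ℝ) (s : ℝ) : s ∈ E (fun n => z n / 9) ↔ ∃ t ∈ E z, s = t / 9 := by
  classical
  have : ∀ A : Set ℕ, ∑' n, A.indicator (fun n => z n / 9) n = (∑' n, A.indicator z n) / 9 := by
    intro A
    rw [← tsum_div_const]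
    congr 1
    funext n
    by_cases h : n ∈ A <;> simp [h]
  constructor
  · rintro ⟨A, rfl⟩
    exact ⟨_, ⟨A, rfl⟩, this A⟩
  · rintro ⟨_, ⟨A, rfl⟩, rfl⟩
    exact ⟨A, (this A).symm⟩

lemma attr (F K L : Set ℝ) (hK : ∃ M, ∀ s ∈ K, |s| ≤ M) (hL : IsClosed L) (h0 : (0 : ℝ) ∈ L)
    (h1 : ∀ s ∈ K, ∃ f ∈ F, ∃ k ∈ K, s = f + k / 9)
    (h2 : ∀ f ∈ F, ∀ l ∈ L, f + l / 9 ∈ L) : K ⊆ L := by
  obtain ⟨M, hM⟩ := hK
  have key : ∀ n : ℕ, ∀ s ∈ K, ∃ l ∈ L, |s - l| ≤ M * (1 / 9) ^ n := by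
    intro n
    induction n with
    | zero => exact fun s hs => ⟨0, h0, by simpa using hM s hs⟩
    | succ n ih =>
      intro s hs
      obtain ⟨f, hf, k, hk, rfl⟩ := h1 s hs
      obtain ⟨l, hl, e⟩ := ih k hk
      refine ⟨_, h2 f hf l hl, ?_⟩
      rw [show f + k / 9 - (f + l / 9) = (k - l) / 9 by ring, abs_div, pow_succ]
      norm_num at e ⊢
      linarith
  intro s hs
  choose l hl using fun n => key n s hs
  refine hL.mem_of_tendsto (f := l) (b := Filter.atTop) ?_ (Filter.Eventually.of_forall fun n => (hl n).1)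
  rw [tendsto_iff_dist_tendsto_zero]
  refine squeeze_zero (fun n => dist_nonneg) (fun n => ?_) (g := fun n => M * (1 / 9) ^ n) ?_
  · rw [dist_comm]; exact (hl n).2
  · simpa using (tendsto_pow_atTop_nhds_zero_of_lt_one (r := (1 / 9 : ℝ)) (by norm_num)
      (by norm_num)).const_mul M

noncomputable def x (n : ℕ) : ℝ := (if n % 2 = 0 then 18 else 3) / 9 ^ (n / 2)

noncomputable def y (n : ℕ) : ℝ :=
  (if n % 4 = 0 then 7 else if n % 4 = 1 then 6 else if n % 4 = 2 then 5 else 3) / 9 ^ (n / 4)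

lemma x_pos (n : ℕ) : 0 < x n := by unfold x; split_ifs <;> positivity
lemma y_pos (n : ℕ) : 0 < y n := by unfold y; split_ifs <;> positivity

lemma x_add (n : ℕ) : x (n + 2) = x n / 9 := by
  unfold x
  rw [Nat.add_mod_right, Nat.add_div_right _ (by norm_num), pow_succ, div_div]

lemma y_add (n : ℕ) : y (n + 4) = y n / 9 := by
  unfold y
  rw [Nat.add_mod_right, Nat.add_div_right _ (by norm_num), pow_succ, div_div]

lemma summ (z : ℕ → ℝ) (p : ℕ) (hp : 0 < p) (h0 : ∀ n, 0 < z n) (h : ∀ n, z (n + p) = z n / 9) :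
    Summable z := by
  refine summable_of_sum_range_le (c := 2 * ∑ i ∈ Finset.range p, z i) (fun n => (h0 n).le) ?_
  intro n
  have h1 : ∑ i ∈ Finset.range (n + p), z i =
      ∑ i ∈ Finset.range p, z i + (∑ i ∈ Finset.range n, z i) / 9 := by
    rw [add_comm n p, Finset.sum_range_add, Finset.sum_div]
    congr 1
    exact Finset.sum_congr rfl fun i _ => by rw [add_comm, h]
  have h2 : ∑ i ∈ Finset.range n, z i ≤ ∑ i ∈ Finset.range (n + p), z i :=
    Finset.sum_le_sum_of_subset_of_nonneg (Finset.range_mono (by omega)) fun i _ _ => (h0 i).le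
  have h3 : 0 ≤ ∑ i ∈ Finset.range p, z i := Finset.sum_nonneg fun i _ => (h0 i).le
  linarith

lemma x_sum : Summable x := summ x 2 (by norm_num) x_pos x_add
lemma y_sum : Summable y := summ y 4 (by norm_num) y_pos y_add

noncomputable def R (n : ℕ) : ℝ := ∑' k, x (n + k)

lemma R_succ (n : ℕ) : R n = x n + R (n + 1) := by
  unfold R
  have : Summable fun k => x (n + k) := x_sum.comp_injective (add_right_injective n)
  rw [this.tsum_eq_zero_add]
  congr 2
  funext k; congr 1; omega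

lemma R_add (n : ℕ) : R (n + 2) = R n / 9 := by
  unfold R
  rw [← tsum_div_const]
  congr 1
  funext k
  rw [← x_add]; congr 1; omega

lemma x0 : x 0 = 18 := by norm_num [x]
lemma x1 : x 1 = 3 := by norm_num [x]

lemma R1 : R 1 = 45 / 8 := by
  have h0 := R_succ 0
  have h1 := R_succ 1
  have h2 := R_add 0
  rw [x0] at h0; rw [x1] at h1
  norm_num at *
  linarith

lemma R2 : R 2 = 21 / 8 := by
  have h1 := R_succ 1
  rw [x1, R1] at h1
  norm_num at *
  linarith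

lemma fast (n : ℕ) : R (n + 1) < x n := by
  induction n using Nat.twoStepInduction with
  | zero => rw [x0, R1]; norm_num
  | one => rw [x1, R2]; norm_num
  | more n ih _ => rw [x_add, show n + 2 + 1 = n + 1 + 2 by ring, R_add]; linarith

def D : Set ℝ := {d | d = 0 ∨ d = 3 ∨ d = 18 ∨ d = 21}

def F : Set ℝ := {d | d = 0 ∨ d = 3 ∨ d = 18 ∨ d = 21 ∨ d = 5 ∨ d = 6 ∨ d = 7 ∨ d = 8 ∨ d = 9 ∨
  d = 10 ∨ d = 11 ∨ d = 12 ∨ d = 13 ∨ d = 14 ∨ d = 15 ∨ d = 16}

lemma Ex (s : ℝ) : s ∈ E x ↔ ∃ f ∈ D, ∃ k ∈ E x, s = f + k / 9 := by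
  have h1 : Summable fun n => x (n + 1) := (summable_nat_add_iff 1).2 x_sum
  have e : (fun n => x (n + 1 + 1)) = fun n => x n / 9 := funext x_add
  simp only [E_succ x x_sum s, E_succ _ h1, e, E_scale, x0, zero_add, x1, D, Set.mem_ofPred_eq]
  constructor
  · rintro ⟨_, ⟨_, ⟨k, hk, rfl⟩, h⟩, h'⟩
    refine ⟨s - k / 9, ?_, k, hk, by ring⟩
    rcases h with rfl | rfl <;> rcases h' with rfl | rfl <;> norm_num
    ring_nf; simp
  · rintro ⟨f, hf, k, hk, rfl⟩
    rcases hf with rfl | rfl | rfl | rfl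
    · exact ⟨_, ⟨_, ⟨k, hk, rfl⟩, .inl rfl⟩, .inl (by ring)⟩
    · exact ⟨_, ⟨_, ⟨k, hk, rfl⟩, .inr rfl⟩, .inl (by ring)⟩
    · exact ⟨_, ⟨_, ⟨k, hk, rfl⟩, .inl rfl⟩, .inr (by ring)⟩
    · exact ⟨_, ⟨_, ⟨k, hk, rfl⟩, .inr rfl⟩, .inr (by ring)⟩

lemma Ey (s : ℝ) : s ∈ E y ↔ ∃ f ∈ F, ∃ k ∈ E y, s = f + k / 9 := by
  have h1 : Summable fun n => y (n + 1) := (summable_nat_add_iff 1).2 y_sum
  have h2 : Summable fun n => y (n + 1 + 1) := (summable_nat_add_iff 2).2 y_sum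
  have h3 : Summable fun n => y (n + 1 + 1 + 1) := (summable_nat_add_iff 3).2 y_sum
  have e : (fun n => y (n + 1 + 1 + 1 + 1)) = fun n => y n / 9 := funext y_add
  have y0 : y 0 = 7 := by norm_num [y]
  have y1 : y (0 + 1) = 6 := by norm_num [y]
  have y2 : y (0 + 1 + 1) = 5 := by norm_num [y]
  have y3 : y (0 + 1 + 1 + 1) = 3 := by norm_num [y]
  simp only [E_succ y y_sum s, E_succ _ h1, E_succ _ h2, E_succ _ h3, e, E_scale, y0, y1, y2, y3,
    F, Set.mem_ofPred_eq]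
  constructor
  · rintro ⟨t1, ⟨t2, ⟨t3, ⟨_, ⟨k, hk, rfl⟩, h4⟩, h3⟩, h2⟩, h1⟩
    refine ⟨s - k / 9, ?_, k, hk, by ring⟩
    grind
  · rintro ⟨f, hf, k, hk, rfl⟩
    have : ∃ a b c d : ℝ, (a = 0 ∨ a = 7) ∧ (b = 0 ∨ b = 6) ∧ (c = 0 ∨ c = 5) ∧ (d = 0 ∨ d = 3) ∧
        f = a + b + c + d := by
      simp only [or_and_right, exists_or, exists_and_left, exists_eq_left]
      rcases hf with rfl | rfl | rfl | rfl | rfl | rfl | rfl | rfl | rfl | rfl | rfl | rfl | rfl |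
        rfl | rfl | rfl <;> norm_num
    obtain ⟨a, b, c, d, ha, hb, hc, hd, rfl⟩ := this
    refine ⟨b + c + d + k / 9, ⟨c + d + k / 9, ⟨d + k / 9, ⟨_, ⟨k, hk, rfl⟩, ?_⟩, ?_⟩, ?_⟩, ?_⟩
    · rcases hd with rfl | rfl <;> simp
    · rcases hc with rfl | rfl <;> simp [add_assoc]
    · rcases hb with rfl | rfl <;> simp [add_assoc]
    · rcases ha with rfl | rfl <;> simp [add_assoc]

inductive Gp : ℝ → Prop
  | a (s : ℝ) : 21 / 8 < s → s < 3 → Gp s
  | b (s : ℝ) : 18 + 21 / 8 < s → s < 21 → Gp s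
  | c (s d g : ℝ) : d ∈ D → Gp g → s = d + g / 9 → Gp s

lemma Gp_bd {s : ℝ} (h : Gp s) : 0 < s ∧ s < 189 / 8 := by
  induction h with
  | a s h1 h2 => constructor <;> linarith
  | b s h1 h2 => constructor <;> linarith
  | c s d g hd _ e ih => rcases hd with rfl | rfl | rfl | rfl <;> constructor <;> linarith [ih.1, ih.2]

lemma Gp_open : IsOpen {s | Gp s} := by
  rw [isOpen_iff_mem_nhds]
  intro s hs
  induction hs with
  | a s h1 h2 => exact Filter.mem_of_superset (Ioo_mem_nhds h1 h2) fun t ht => .a t ht.1 ht.2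
  | b s h1 h2 => exact Filter.mem_of_superset (Ioo_mem_nhds h1 h2) fun t ht => .b t ht.1 ht.2
  | c s d g hd _ e ih =>
    have hc : Continuous fun t : ℝ => 9 * (t - d) := by fun_prop
    have := hc.continuousAt (x := s) (by rwa [show 9 * (s - d) = g by rw [e]; ring])
    exact Filter.mem_of_superset this fun t ht => .c t d _ hd ht (by ring)

lemma Gp_sub {g : ℝ} (h : Gp g) (h1 : 18 ≤ g) : Gp (g - 18) := by
  cases h with
  | a _ h1 h2 => linarith
  | b _ h1 h2 => exact .a _ (by linarith) (by linarith)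
  | c _ d g' hd hg e =>
    have := Gp_bd hg
    rcases hd with rfl | rfl | rfl | rfl
    · linarith
    · linarith
    · exact .c _ 0 g' (by simp [D]) hg (by linarith)
    · exact .c _ 3 g' (by simp [D]) hg (by linarith)

lemma Gp_add {g : ℝ} (h : Gp g) (h1 : g ≤ 45 / 8) : Gp (g + 18) := by
  cases h with
  | a _ h1 h2 => exact .b _ (by linarith) (by linarith)
  | b _ h1 h2 => linarith
  | c _ d g' hd hg e =>
    have := Gp_bd hg
    rcases hd with rfl | rfl | rfl | rfl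
    · exact .c _ 18 g' (by simp [D]) hg (by linarith)
    · exact .c _ 21 g' (by simp [D]) hg (by linarith)
    · linarith
    · linarith

def Kp : Set ℝ := Set.Icc 0 (189 / 8) ∩ {s | Gp s}ᶜ

lemma Ey_Kp : E y ⊆ Kp := by
  refine attr F _ _ (E_bd y y_sum) (isClosed_Icc.inter Gp_open.isClosed_compl)
    ⟨⟨le_rfl, by norm_num⟩, fun h => (Gp_bd h).1.false⟩ (fun s => (Ey s).1) ?_
  rintro f hf k ⟨⟨k0, k1⟩, hk⟩
  have hf' : f = 0 ∨ f = 3 ∨ f = 5 ∨ (6 ≤ f ∧ f ≤ 15) ∨ f = 16 ∨ f = 18 ∨ f = 21 := by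
    rcases hf with rfl | rfl | rfl | rfl | rfl | rfl | rfl | rfl | rfl | rfl | rfl | rfl | rfl |
        rfl | rfl | rfl <;> norm_num
  refine ⟨⟨by grind, by grind⟩, fun h => ?_⟩
  have h' : Gp (f + k / 9) := h
  have hk' : ¬ Gp k := hk
  generalize hs : f + k / 9 = s at h'
  cases h' with
  | a _ h1 h2 => grind
  | b _ h1 h2 => grind
  | c _ d g hd hg e =>
    have := Gp_bd hg
    by_cases h1 : g = k
    · exact hk' (h1 ▸ hg)
    by_cases h2 : g = k + 18
    · exact hk' (by simpa [h2] using Gp_sub hg (by linarith))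
    by_cases h3 : k = g + 18
    · exact hk' (h3 ▸ Gp_add hg (by linarith))
    simp only [D, Set.mem_ofPred_eq] at hd
    grind

def G : Set ℝ := {t : ℝ | ∃ n : ℕ, Even n ∧ ∃ F : Finset ℕ, F ⊆ Finset.range n ∧
  (∑ i ∈ F, x i) + R (n + 1) < t ∧ t < (∑ i ∈ F, x i) + x n}

lemma G_base (t : ℝ) (h1 : 45 / 8 < t) (h2 : t < 18) : t ∈ G :=
  ⟨0, by simp, ∅, by simp, by simpa [R1] using h1, by simpa [x0] using h2⟩

lemma G_step (d g : ℝ) (hd : d ∈ D) (hg : g ∈ G) : d + g / 9 ∈ G := by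
  obtain ⟨n, hn, S, hS, h1, h2⟩ := hg
  obtain ⟨T, hT, e⟩ : ∃ T : Finset ℕ, T ⊆ Finset.range 2 ∧ ∑ i ∈ T, x i = d := by
    rcases hd with rfl | rfl | rfl | rfl
    · exact ⟨∅, by simp, by simp⟩
    · exact ⟨{1}, by simp, by simp [x1]⟩
    · exact ⟨{0}, by simp, by simp [x0]⟩
    · exact ⟨{0, 1}, by decide, by simp [x0, x1]; norm_num⟩
  have e2 : ∑ i ∈ T ∪ S.image (· + 2), x i = d + (∑ i ∈ S, x i) / 9 := by
    rw [Finset.sum_union, e, Finset.sum_image (fun a _ b _ h => by simpa using h), Finset.sum_div]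
    · simp only [x_add]
    · rw [Finset.disjoint_left]
      intro a ha hb
      obtain ⟨b, -, rfl⟩ := Finset.mem_image.1 hb
      have := Finset.mem_range.1 (hT ha)
      omega
  refine ⟨n + 2, hn.add even_two, T ∪ S.image (· + 2), ?_, ?_, ?_⟩
  · intro a ha
    rcases Finset.mem_union.1 ha with h | h
    · have := Finset.mem_range.1 (hT h)
      exact Finset.mem_range.2 (by omega)
    · obtain ⟨b, hb, rfl⟩ := Finset.mem_image.1 h
      have := Finset.mem_range.1 (hS hb)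
      exact Finset.mem_range.2 (by omega)
  · rw [e2, show n + 2 + 1 = n + 1 + 2 by ring, R_add]; linarith
  · rw [e2, x_add]; linarith

lemma Kp_sub : Kp ∩ Gᶜ ⊆ E x := by
  refine attr D _ _ ⟨189 / 8, fun s hs => ?_⟩ (E_closed x x_sum) (E_zero x) ?_
    (fun f hf l hl => (Ex _).2 ⟨f, hf, l, hl, rfl⟩)
  · rw [abs_of_nonneg hs.1.1.1]; exact hs.1.1.2
  rintro s ⟨⟨⟨s0, s1⟩, h1⟩, h2⟩
  have a1 : ¬ (21 / 8 < s ∧ s < 3) := fun h => h1 (Gp.a s h.1 h.2)
  have a2 : ¬ (18 + 21 / 8 < s ∧ s < 21) := fun h => h1 (Gp.b s h.1 h.2)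
  have a3 : ¬ (45 / 8 < s ∧ s < 18) := fun h => h2 (G_base s h.1 h.2)
  obtain ⟨d, hd, b1, b2⟩ : ∃ d ∈ D, d ≤ s ∧ s ≤ d + 21 / 8 := by
    simp only [D, Set.mem_ofPred_eq, or_and_right, exists_or, exists_eq_left]
    grind
  refine ⟨d, hd, 9 * (s - d), ⟨⟨⟨by linarith, by linarith⟩, fun h => h1 ?_⟩, fun h => h2 ?_⟩,
    by ring⟩
  · exact Gp.c s d _ hd h (by ring)
  · have := G_step d _ hd h
    rwa [show d + 9 * (s - d) / 9 = s by ring] at this

lemma D_F {d : ℝ} (h : d ∈ D) : d ∈ F := by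
  rcases h with rfl | rfl | rfl | rfl <;> simp [F]

lemma Ex_Ey : E x ⊆ E y :=
  attr D _ _ (E_bd x x_sum) (E_closed y y_sum) (E_zero y) (fun s => (Ex s).1)
    (fun f hf l hl => (Ey _).2 ⟨f, D_F hf, l, hl, rfl⟩)

lemma I_Ey : Set.Icc (45 / 8 : ℝ) 18 ⊆ E y := by
  refine attr F _ _ ⟨18, fun s hs => ?_⟩ (E_closed y y_sum) (E_zero y) ?_
    (fun f hf l hl => (Ey _).2 ⟨f, hf, l, hl, rfl⟩)
  · rw [abs_of_nonneg (by linarith [hs.1])]; exact hs.2
  rintro s ⟨s0, s1⟩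
  obtain ⟨d, hd, b1, b2⟩ : ∃ d ∈ F, d + 5 / 8 ≤ s ∧ s ≤ d + 2 := by
    simp only [F, Set.mem_ofPred_eq, or_and_right, exists_or, exists_eq_left]
    grind
  exact ⟨d, hd, 9 * (s - d), ⟨by linarith, by linarith⟩, by ring⟩

lemma G_Ey : G ⊆ E y := by
  classical
  have key : ∀ m : ℕ, ∀ A : Set ℕ, ∀ t, ∑ i ∈ Finset.range (m + m), A.indicator x i + R (m + m + 1) < t →
      t < ∑ i ∈ Finset.range (m + m), A.indicator x i + x (m + m) → t ∈ E y := by
    intro m
    induction m with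
    | zero =>
      intro A t h1 h2
      simp only [add_zero, Finset.range_zero, Finset.sum_empty, zero_add, R1, x0] at h1 h2
      exact I_Ey ⟨h1.le, h2.le⟩
    | succ m ih =>
      intro A t h1 h2
      have e : ∑ i ∈ Finset.range (m + 1 + (m + 1)), A.indicator x i =
          (A.indicator x 0 + A.indicator x 1) +
            (∑ i ∈ Finset.range (m + m), Set.indicator {n | n + 2 ∈ A} x i) / 9 := by
        rw [show m + 1 + (m + 1) = m + m + 1 + 1 by ring, Finset.sum_range_succ',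
          Finset.sum_range_succ', Finset.sum_div, add_assoc, add_comm, add_comm (A.indicator x 0)]
        congr 1
        refine Finset.sum_congr rfl fun i _ => ?_
        by_cases h : i + 2 ∈ A <;> simp [Set.indicator_apply, h, x_add, add_assoc]
      have hd : A.indicator x 0 + A.indicator x 1 ∈ D := by
        by_cases h0 : 0 ∈ A <;> by_cases h1 : 1 ∈ A <;> simp [h0, h1, D, x0, x1]
        norm_num
      rw [e, show m + 1 + (m + 1) + 1 = m + m + 1 + 2 by ring, R_add] at h1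
      rw [e, show m + 1 + (m + 1) = m + m + 2 by ring, x_add] at h2
      refine (Ey t).2 ⟨_, D_F hd, 9 * (t - (A.indicator x 0 + A.indicator x 1)),
        ih {n | n + 2 ∈ A} _ (by linarith) (by linarith), by ring⟩
  rintro t ⟨_, ⟨m, rfl⟩, S, hS, h1, h2⟩
  have e : ∑ i ∈ Finset.range (m + m), Set.indicator (↑S) x i = ∑ i ∈ S, x i :=
    Finset.sum_indicator_subset x hS
  exact key m S t (by rwa [e]) (by rwa [e])

theorem main : E y = E x ∪ G := by
  apply Set.Subset.antisymm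
  · intro s hs
    by_cases h : s ∈ G
    · exact .inr h
    · exact .inl (Kp_sub ⟨Ey_Kp hs, h⟩)
  · exact Set.union_subset Ex_Ey G_Ey

end Pool.Agent.H25.Cantorval
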