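import Mathlib

set_option autoImplicit false

namespace Pool.Agent.H25.Comb

open scoped ENNReal

section Defs

variable {V : Type}

/-- `(G, ν)` is a connected, locally finite weighted graph. -/
def IsWeighted (G : SimpleGraph V) (ν : V → V → ℝ) : Prop :=
  G.Connected ∧ (∀ v, (G.neighborSet v).Finite) ∧ (∀ v w, ν v w = ν w v) ∧
    (∀ v w, G.Adj v w → 0 < ν v w) ∧ ∀ v w, ¬ G.Adj v w → ν v w = 0

/-- The transition kernel. -/
noncomputable def kern (ν : V → V → ℝ) (v w : V) : ℝ := ν v w / ∑' x, ν v x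

/-- The root `ρ ∼ π` and the first step `X₁` give the same mass to every set of vertices that is
invariant under all automorphisms of the Markov chain. -/
def IsStationary (ν : V → V → ℝ) (π : PMF V) : Prop :=
  ∀ A : Set V, (∀ φ : V ≃ V, (∀ x y, kern ν (φ x) (φ y) = kern ν x y) → ∀ x ∈ A, φ x ∈ A) →
    ∑' x, A.indicator π x = ∑' x, π x * ∑' y, A.indicator (fun y => ENNReal.ofReal (kern ν x y)) y

/-- Expected ball sizes grow polynomially. -/
def PolyGrowth (G : SimpleGraph V) (π : PMF V) : Prop :=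
  ∃ C d : ℕ, ∀ n : ℕ, 1 ≤ n → ∑' x, π x * ({y | G.dist x y ≤ n}.encard : ℝ≥0∞) ≤ C * n ^ d

/-- Harmonic functions of growth at most `(1 + d(ρ, x)) ^ k`. -/
def Harm (G : SimpleGraph V) (ν : V → V → ℝ) (ρ : V) (k : ℕ) : Set (V → ℝ) :=
  {h | (∀ x, h x = ∑' y, kern ν x y * h y) ∧ ∃ c : ℝ, ∀ x, |h x| ≤ c * (1 + G.dist ρ x) ^ k}

end Defs

def G : SimpleGraph (ℤ × ℕ) where
  Adj p q := (p.1 = q.1 ∧ (q.2 = p.2 + 1 ∨ p.2 = q.2 + 1)) ∨
    (p.2 = 0 ∧ q.2 = 0 ∧ (q.1 = p.1 + 1 ∨ p.1 = q.1 + 1))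
  symm := ⟨fun p q h => by omega⟩
  loopless := ⟨fun p h => by omega⟩

noncomputable def w (n : ℕ) : ℝ := 1 / ((n + 1) * (n + 2))

lemma w_pos (n : ℕ) : 0 < w n := by unfold w; positivity

noncomputable def nu (p q : ℤ × ℕ) : ℝ :=
  if p.1 = q.1 ∧ q.2 = p.2 + 1 then w p.2 else if p.1 = q.1 ∧ p.2 = q.2 + 1 then w q.2
  else if p.2 = 0 ∧ q.2 = 0 ∧ (q.1 = p.1 + 1 ∨ p.1 = q.1 + 1) then 1 else 0

lemma nu_zero {p q : ℤ × ℕ} (h : ¬ G.Adj p q) : nu p q = 0 := by
  simp only [G] at h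
  unfold nu
  rw [if_neg (by omega), if_neg (by omega), if_neg (by omega)]

lemma tsum0 {M : Type} [AddCommMonoid M] [TopologicalSpace M] (x : ℤ) (g : ℤ × ℕ → M)
    (hg : ∀ y, ¬ G.Adj (x, 0) y → g y = 0) :
    ∑' y, g y = g (x, 1) + (g (x + 1, 0) + g (x - 1, 0)) := by
  rw [tsum_eq_sum (s := {(x, 1), (x + 1, 0), (x - 1, 0)}) fun y hy => hg y (by
    obtain ⟨a, b⟩ := y
    simp only [Finset.mem_insert, Prod.mk.injEq, Finset.mem_singleton] at hy
    simp only [G]; omega)]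
  rw [Finset.sum_insert (by simp), Finset.sum_pair (by simp; omega)]

lemma tsum1 {M : Type} [AddCommMonoid M] [TopologicalSpace M] (x : ℤ) (k : ℕ) (g : ℤ × ℕ → M)
    (hg : ∀ y, ¬ G.Adj (x, k + 1) y → g y = 0) :
    ∑' y, g y = g (x, k + 2) + g (x, k) := by
  rw [tsum_eq_sum (s := {(x, k + 2), (x, k)}) fun y hy => hg y (by
    obtain ⟨a, b⟩ := y
    simp only [Finset.mem_insert, Prod.mk.injEq, Finset.mem_singleton] at hy
    simp only [G]; omega)]
  rw [Finset.sum_pair (by simp)]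

lemma nu_up (x : ℤ) (k : ℕ) : nu (x, k) (x, k + 1) = w k := by simp [nu]
lemma nu_down (x : ℤ) (k : ℕ) : nu (x, k + 1) (x, k) = w k := by
  unfold nu; rw [if_neg (by simp; omega), if_pos (by simp)]
lemma nu_r (x : ℤ) : nu (x, 0) (x + 1, 0) = 1 := by simp [nu]
lemma nu_l (x : ℤ) : nu (x, 0) (x - 1, 0) = 1 := by simp [nu]

noncomputable def deg : ℕ → ℝ
  | 0 => w 0 + 2
  | k + 1 => w (k + 1) + w k

lemma deg_pos (n : ℕ) : 0 < deg n := by
  cases n with
  | zero => have := w_pos 0; simp only [deg]; linarith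
  | succ k => exact add_pos (w_pos _) (w_pos _)

lemma deg_eq (x : ℤ) (n : ℕ) : ∑' y, nu (x, n) y = deg n := by
  cases n with
  | zero => rw [tsum0 x _ fun y => nu_zero, nu_up, nu_r, nu_l, deg]; norm_num
  | succ k => rw [tsum1 x k _ fun y => nu_zero, nu_up, nu_down, deg]

lemma kern_eq (x : ℤ) (n : ℕ) (y : ℤ × ℕ) : kern nu (x, n) y = nu (x, n) y / deg n := by
  rw [kern, deg_eq]

lemma conn : G.Connected := by
  rw [SimpleGraph.connected_iff_exists_forall_reachable]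
  refine ⟨(0, 0), fun ⟨x, n⟩ => ?_⟩
  induction n with
  | zero =>
    induction x with
    | zero => rfl
    | succ i ih => exact ih.trans (SimpleGraph.Adj.reachable (by simp [G]))
    | pred i ih => exact ih.trans (SimpleGraph.Adj.reachable (by simp [G]))
  | succ k ih => exact ih.trans (SimpleGraph.Adj.reachable (by simp [G]))

lemma weighted : IsWeighted G nu := by
  refine ⟨conn, fun ⟨x, n⟩ => ?_, fun p q => ?_, fun p q h => ?_, fun p q => nu_zero⟩
  · refine ((Set.finite_Icc (x - 1) (x + 1)).prod (Set.finite_Iic (n + 1))).subset fun q hq => ?_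
    simp only [SimpleGraph.mem_neighborSet, G] at hq
    simp only [Set.mem_prod, Set.mem_Icc, Set.mem_Iic]
    omega
  · unfold nu
    split_ifs <;> first | rfl | omega
  · simp only [G] at h
    unfold nu
    split_ifs
    · exact w_pos _
    · exact w_pos _
    · exact one_pos
    · omega

lemma walk_bd {p q : ℤ × ℕ} (c : G.Walk p q) : p.1 - c.length ≤ q.1 ∧ q.1 ≤ p.1 + c.length ∧
    q.2 ≤ p.2 + c.length ∧ p.2 ≤ q.2 + c.length := by
  induction c with
  | nil => simp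
  | cons h c ih => simp only [G] at h; simp only [SimpleGraph.Walk.length_cons]; omega

lemma dist_bd (p q : ℤ × ℕ) : p.1 - G.dist p q ≤ q.1 ∧ q.1 ≤ p.1 + G.dist p q ∧
    q.2 ≤ p.2 + G.dist p q ∧ p.2 ≤ q.2 + G.dist p q := by
  obtain ⟨c, hc⟩ := conn.exists_walk_length_eq_dist p q
  exact hc ▸ walk_bd c

lemma ball (p : ℤ × ℕ) (n : ℕ) (hn : 1 ≤ n) : {y | G.dist p y ≤ n}.encard ≤ (9 * n ^ 2 : ℕ) := by
  have h : {y | G.dist p y ≤ n} ⊆
      (Finset.Icc (p.1 - n) (p.1 + n) ×ˢ Finset.Icc (p.2 - n) (p.2 + n) : Finset (ℤ × ℕ)) := by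
    intro y hy
    have := dist_bd p y
    simp only [Set.mem_ofPred_eq] at hy
    simp only [Finset.coe_product, Finset.coe_Icc, Set.mem_prod, Set.mem_Icc]
    omega
  refine (Set.encard_le_encard h).trans ?_
  rw [Set.encard_coe_eq_coe_finsetCard, Finset.card_product, Int.card_Icc, Nat.card_Icc]
  have h1 : (p.1 + n + 1 - (p.1 - n)).toNat ≤ 3 * n := by omega
  have h2 : p.2 + n + 1 - (p.2 - n) ≤ 3 * n := by omega
  exact_mod_cast (Nat.mul_le_mul h1 h2).trans (by nlinarith)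

lemma growth (π : PMF (ℤ × ℕ)) : PolyGrowth G π := by
  refine ⟨9, 2, fun n hn => ?_⟩
  refine (ENNReal.tsum_le_tsum fun x => mul_le_mul_right
    (ENat.toENNReal_le.2 (ball x n hn)) (π x)).trans ?_
  rw [ENNReal.tsum_mul_right, π.tsum_coe]
  simp

lemma sum_w : ∑' n, ENNReal.ofReal (w n) = 1 := by
  have h : HasSum w 1 := by
    rw [hasSum_iff_tendsto_nat_of_nonneg fun n => (w_pos n).le]
    have h1 : ∀ N : ℕ, ∑ i ∈ Finset.range N, w i = 1 - 1 / ((N : ℝ) + 1) := by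
      intro N
      induction N with
      | zero => simp
      | succ N ih => rw [Finset.sum_range_succ, ih, w]; push_cast; field_simp; ring
    simp only [h1]
    simpa using tendsto_one_div_add_atTop_nhds_zero_nat.const_sub (1 : ℝ)
  rw [← ENNReal.ofReal_tsum_of_nonneg (fun n => (w_pos n).le) h.summable, h.tsum_eq]
  simp

lemma tz (f : ℕ → ℝ≥0∞) : ∑' n, f n = f 0 + ∑' n, f (n + 1) :=
  tsum_eq_zero_add' ENNReal.summable

lemma sum_deg (a : ℕ → ℝ≥0∞) : ∑' n, ENNReal.ofReal (deg n) * a n =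
    2 * a 0 + (∑' n, ENNReal.ofReal (w n) * a n + ∑' n, ENNReal.ofReal (w n) * a (n + 1)) := by
  rw [tz, tz fun n => ENNReal.ofReal (w n) * a n]
  simp only [deg, ENNReal.ofReal_add (w_pos _).le (w_pos _).le, add_mul, ENNReal.tsum_add,
    ENNReal.ofReal_add (w_pos 0).le zero_le_two, ENNReal.ofReal_ofNat]
  ring

noncomputable def p0 (q : ℤ × ℕ) : ℝ≥0∞ := if q.1 = 0 then ENNReal.ofReal (deg q.2) / 4 else 0

lemma sum_p0 (F : ℤ × ℕ → ℝ≥0∞) :
    ∑' q, p0 q * F q = (∑' n, ENNReal.ofReal (deg n) * F (0, n)) / 4 := by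
  rw [ENNReal.tsum_prod', tsum_eq_single 0 fun x hx => by simp [p0, hx]]
  simp only [p0, if_true, div_eq_mul_inv]
  rw [← ENNReal.tsum_mul_right]
  exact tsum_congr fun n => by ring

noncomputable def π0 : PMF (ℤ × ℕ) := ⟨p0, by
  rw [ENNReal.summable.hasSum_iff]
  have := sum_p0 fun _ => 1
  rw [sum_deg] at this
  simp only [mul_one, sum_w] at this
  rw [this, show (2 : ℝ≥0∞) + (1 + 1) = 4 by norm_num]
  exact ENNReal.div_self (by simp) (by simp)⟩

lemma stat : IsStationary nu π0 := by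
  classical
  intro A hA
  have htr : ∀ (t : ℤ) x, x ∈ A → (x.1 + t, x.2) ∈ A := fun t =>
    hA ((Equiv.addRight t).prodCongr (Equiv.refl ℕ)) fun ⟨x, n⟩ ⟨y, m⟩ => by
      simp only [Equiv.prodCongr_apply, Equiv.coe_addRight, Equiv.coe_refl, Prod.map_apply, id_eq,
        kern_eq, nu, add_left_inj]
      congr 1
      split_ifs <;> first | rfl | omega
  let a : ℤ × ℕ → ℝ≥0∞ := fun q => if q ∈ A then 1 else 0
  have ha : ∀ t : ℤ, a (t, 0) = a (0, 0) := fun t => by
    have : (t, 0) ∈ A ↔ ((0 : ℤ), 0) ∈ A :=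
      ⟨fun h => by simpa using htr (-t) _ h, fun h => by simpa using htr t _ h⟩
    simp only [a, this]
  have h1 : ∀ (f : ℤ × ℕ → ℝ≥0∞) y, A.indicator f y = f y * a y := fun f y => by
    by_cases h : y ∈ A <;> simp [a, h]
  simp only [h1]
  change ∑' x, p0 x * a x = ∑' x, p0 x * _
  rw [sum_p0, sum_p0, sum_deg]
  congr 1
  have h2 : ∀ n y, ENNReal.ofReal (deg n) * (ENNReal.ofReal (kern nu (0, n) y) * a y) =
      ENNReal.ofReal (nu (0, n) y) * a y := fun n y => by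
    rw [← mul_assoc, ← ENNReal.ofReal_mul (deg_pos n).le, kern_eq,
      mul_div_cancel₀ _ (deg_pos n).ne']
  simp only [← ENNReal.tsum_mul_left, h2]
  rw [tz fun n => ∑' y, ENNReal.ofReal (nu (0, n) y) * a y,
    tsum0 0 _ fun y hy => by simp [nu_zero hy], tsum_congr fun k =>
      tsum1 0 k _ fun y hy => by simp [nu_zero hy],
    tz fun n => ENNReal.ofReal (w n) * a (0, n + 1)]
  simp only [nu_up, nu_down, nu_r, nu_l, ha, ENNReal.tsum_add, ENNReal.ofReal_one]
  ring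

noncomputable def T (n : ℕ) : ℝ := n * (n + 1) * (n + 2) / 3

noncomputable def hh (j : ℕ) (q : ℤ × ℕ) : ℝ :=
  (if q.1 = j then 1 else 0) + (2 * (if q.1 = j then 1 else 0) - (if q.1 + 1 = j then 1 else 0) -
    (if q.1 - 1 = j then 1 else 0)) * T q.2

lemma hh_mem (ρ : ℤ × ℕ) (j : ℕ) : hh j ∈ Harm G nu ρ 3 := by
  refine ⟨fun ⟨x, n⟩ => ?_, 3 * (ρ.2 + 1) ^ 3, fun q => ?_⟩
  · simp only [kern_eq]
    cases n with
    | zero =>
      rw [tsum0 x _ fun y hy => by simp [nu_zero hy], nu_up, nu_r, nu_l]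
      simp only [hh, T, deg, w]
      generalize (if x = j then (1 : ℝ) else 0) = a, (if x + 1 = j then (1 : ℝ) else 0) = b,
        (if x - 1 = j then (1 : ℝ) else 0) = c
      norm_num
      ring
    | succ k =>
      rw [tsum1 x k _ fun y hy => by simp [nu_zero hy], nu_up, nu_down]
      simp only [hh, T, deg, w]
      generalize (if x = j then (1 : ℝ) else 0) = a, (if x + 1 = j then (1 : ℝ) else 0) = b,
        (if x - 1 = j then (1 : ℝ) else 0) = c
      push_cast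
      field_simp
      ring
  · have h1 : (q.2 : ℝ) ≤ ρ.2 + G.dist ρ q := by exact_mod_cast (dist_bd ρ q).2.2.1
    have h2 : (q.2 : ℝ) + 1 ≤ (ρ.2 + 1) * (1 + G.dist ρ q) := by
      nlinarith [Nat.cast_nonneg (α := ℝ) ρ.2, Nat.cast_nonneg (α := ℝ) (G.dist ρ q)]
    have h0 : (0 : ℝ) ≤ q.2 := Nat.cast_nonneg _
    have h3 := pow_le_pow_left₀ (by positivity) h2 3
    have h4 : 0 ≤ T q.2 := by unfold T; positivity
    have h5 : 1 + 2 * T q.2 ≤ 3 * ((q.2 : ℝ) + 1) ^ 3 := by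
      unfold T; nlinarith [mul_nonneg h0 h0, mul_nonneg h0 (mul_nonneg h0 h0)]
    rw [mul_pow] at h3
    have h6 : |hh j q| ≤ 1 + 2 * T q.2 := by
      rw [abs_le]
      unfold hh
      generalize T q.2 = t at h4
      clear h1 h2 h3 h5
      constructor <;> split_ifs <;> linarith
    linarith

lemma hh_li : LinearIndependent ℝ hh := by
  rw [linearIndependent_iff']
  intro s g h i hi
  have := congrFun h (i, 0)
  simp only [Finset.sum_apply, Pi.smul_apply, hh, T] at this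
  simpa [hi] using this

end Pool.Agent.H25.Comb
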