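import Mathlib

open PowerSeries Finset

namespace Pool.Agent.H25.DL1

/-- the real function `(1 - √(1-4x))/2`. -/
noncomputable def Bf (x : ℝ) : ℝ := (1 - Real.sqrt (1 - 4 * x)) / 2

lemma Bf_le (x : ℝ) : Bf x ≤ 1 / 2 := by
  unfold Bf; have := Real.sqrt_nonneg (1 - 4 * x); linarith

lemma Bf_nonneg {x : ℝ} (hx : 0 ≤ x) : 0 ≤ Bf x := by
  unfold Bf
  have : Real.sqrt (1 - 4 * x) ≤ 1 := Real.sqrt_le_one.2 (by linarith)
  linarith

lemma Bf_eq {x : ℝ} (hx : x ≤ 1 / 4) : Bf x = x + Bf x ^ 2 := by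
  unfold Bf
  have := Real.sq_sqrt (show 0 ≤ 1 - 4 * x by linarith)
  nlinarith

lemma Bf_mono {x y : ℝ} (h : x ≤ y) : Bf x ≤ Bf y := by
  unfold Bf
  have := Real.sqrt_le_sqrt (show 1 - 4 * y ≤ 1 - 4 * x by linarith)
  linarith

lemma Bf_lt {x y : ℝ} (h : x < y) (hx : x < 1 / 4) : Bf x < Bf y := by
  unfold Bf
  have h1 : 0 < Real.sqrt (1 - 4 * x) := Real.sqrt_pos.2 (by linarith)
  have : Real.sqrt (1 - 4 * y) < Real.sqrt (1 - 4 * x) := by
    rw [Real.sqrt_lt' h1, Real.sq_sqrt (by linarith)]; linarith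
  linarith

lemma Bf_big {x : ℝ} (hx : 1 / 4 < x) : Bf x = 1 / 2 := by
  unfold Bf
  rw [Real.sqrt_eq_zero_of_nonpos (by linarith)]; norm_num

lemma Bf_cont : Continuous Bf := by unfold Bf; fun_prop

lemma Bf_le_root {x g y : ℝ} (hx : x ≤ g) (hy : y = g + y ^ 2) : Bf x ≤ y := by
  unfold Bf
  have : 1 - 2 * y ≤ Real.sqrt (1 - 4 * x) := Real.le_sqrt_of_sq_le (by nlinarith)
  linarith

/-- nonnegative coefficients -/
def NN (f : ℝ⟦X⟧) : Prop := ∀ n, 0 ≤ coeff n f

def Sm (f : ℝ⟦X⟧) (z : ℝ) : Prop := Summable fun n => coeff n f * z ^ n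

noncomputable def ev (f : ℝ⟦X⟧) (z : ℝ) : ℝ := ∑' n, coeff n f * z ^ n

lemma NN.add {f g : ℝ⟦X⟧} (hf : NN f) (hg : NN g) : NN (f + g) := fun n => by
  rw [map_add]; exact add_nonneg (hf n) (hg n)

lemma NN.mul {f g : ℝ⟦X⟧} (hf : NN f) (hg : NN g) : NN (f * g) := fun n => by
  rw [coeff_mul]; exact Finset.sum_nonneg fun p _ => mul_nonneg (hf _) (hg _)

lemma ev_nonneg {f : ℝ⟦X⟧} (hf : NN f) {z : ℝ} (hz : 0 ≤ z) : 0 ≤ ev f z :=
  tsum_nonneg fun n => mul_nonneg (hf n) (pow_nonneg hz n)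

lemma Sm.add {f g : ℝ⟦X⟧} {z : ℝ} (hf : Sm f z) (hg : Sm g z) :
    Sm (f + g) z ∧ ev (f + g) z = ev f z + ev g z := by
  unfold Sm ev at *
  simp only [map_add, add_mul]
  exact ⟨hf.add hg, hf.tsum_add hg⟩

lemma Sm.mul {f g : ℝ⟦X⟧} {z : ℝ} (hf : Sm f z) (hg : Sm g z) :
    Sm (f * g) z ∧ ev (f * g) z = ev f z * ev g z := by
  unfold Sm ev at *
  have e : ∀ n, coeff n (f * g) * z ^ n = ∑ p ∈ antidiagonal n,
      (coeff p.1 f * z ^ p.1) * (coeff p.2 g * z ^ p.2) := by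
    intro n
    rw [coeff_mul, Finset.sum_mul]
    refine Finset.sum_congr rfl fun p hp => ?_
    rw [← mem_antidiagonal.1 hp, pow_add]; ring
  simp only [e]
  exact ⟨(summable_norm_sum_mul_antidiagonal_of_summable_norm hf.norm hg.norm).of_norm,
    (tsum_mul_tsum_eq_tsum_sum_antidiagonal_of_summable_norm hf.norm hg.norm).symm⟩

lemma Sm.of_add {f g : ℝ⟦X⟧} {z : ℝ} (hz : 0 ≤ z) (hf : NN f) (hg : NN g) (h : Sm (f + g) z) :
    Sm f z := by
  refine Summable.of_nonneg_of_le (fun n => mul_nonneg (hf n) (pow_nonneg hz n)) (fun n => ?_) h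
  rw [map_add, add_mul]
  have := mul_nonneg (hg n) (pow_nonneg hz n)
  linarith

lemma Sm_X (z : ℝ) : Sm X z ∧ ev X z = z := by
  have : HasSum (fun n => coeff n (X : ℝ⟦X⟧) * z ^ n) z := by
    have := hasSum_single (f := fun n => coeff n (X : ℝ⟦X⟧) * z ^ n) 1 (fun n hn => by
      simp [coeff_X, hn])
    simpa using this
  exact ⟨this.summable, this.tsum_eq⟩

lemma NN_X : NN X := fun n => by rw [coeff_X]; split_ifs <;> norm_num

section
variable {G H : ℝ⟦X⟧} (hH : H = G + H * H) (h0 : coeff 0 H = 0) (hG : NN G)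
include hH h0 hG

lemma NN_of : NN H := by
  intro n
  induction n using Nat.strong_induction_on with
  | _ n ih =>
    rw [hH, map_add, coeff_mul]
    refine add_nonneg (hG n) (Finset.sum_nonneg fun p hp => ?_)
    have := mem_antidiagonal.1 hp
    by_cases h1 : p.1 = 0
    · rw [h1, h0, zero_mul]
    by_cases h2 : p.2 = 0
    · rw [h2, h0, mul_zero]
    exact mul_nonneg (ih _ (by omega)) (ih _ (by omega))

lemma supermul (a b : ℕ) : coeff a H * coeff b H ≤ coeff (a + b) H := by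
  have hn := NN_of hH h0 hG
  conv_rhs => rw [hH, map_add, coeff_mul]
  have := Finset.single_le_sum (f := fun p : ℕ × ℕ => coeff p.1 H * coeff p.2 H)
    (fun p _ => mul_nonneg (hn _) (hn _)) (mem_antidiagonal.2 (rfl : (a, b).1 + (a, b).2 = a + b))
  have := hG (a + b)
  linarith

lemma up {z x : ℝ} (hz : 0 ≤ z) (hs : Sm G z) (hx : ev G z ≤ x) (hx4 : x ≤ 1 / 4) :
    Sm H z ∧ ev H z ≤ Bf x := by
  have hn := NN_of hH h0 hG
  have hx0 : 0 ≤ x := (ev_nonneg hG hz).trans hx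
  have hnn : ∀ n, 0 ≤ coeff n H * z ^ n := fun n => mul_nonneg (hn n) (pow_nonneg hz n)
  have key : ∀ N, ∑ n ∈ range N, coeff n H * z ^ n ≤ Bf x := by
    intro N
    induction N with
    | zero => simpa using Bf_nonneg hx0
    | succ N ih =>
      have e : ∀ n, coeff n H * z ^ n = coeff n G * z ^ n + ∑ p ∈ antidiagonal n,
          (coeff p.1 H * z ^ p.1) * (coeff p.2 H * z ^ p.2) := by
        intro n
        conv_lhs => rw [hH, map_add, add_mul, coeff_mul, Finset.sum_mul]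
        congr 1
        refine Finset.sum_congr rfl fun p hp => ?_
        rw [← mem_antidiagonal.1 hp, pow_add]; ring
      rw [Finset.sum_congr rfl fun n _ => e n, Finset.sum_add_distrib]
      have h1 : ∑ n ∈ range (N + 1), coeff n G * z ^ n ≤ x :=
        (hs.sum_le_tsum _ fun n _ => mul_nonneg (hG n) (pow_nonneg hz n)).trans hx
      have h2 : ∑ n ∈ range (N + 1), ∑ p ∈ antidiagonal n,
          (coeff p.1 H * z ^ p.1) * (coeff p.2 H * z ^ p.2)
          ≤ (∑ n ∈ range N, coeff n H * z ^ n) * ∑ n ∈ range N, coeff n H * z ^ n := by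
        rw [Finset.sum_mul_sum, ← Finset.sum_product', ← Finset.sum_biUnion,
          ← Finset.sum_filter_ne_zero]
        · refine Finset.sum_le_sum_of_subset_of_nonneg (fun p hp => ?_)
            fun p _ _ => mul_nonneg (hnn _) (hnn _)
          simp only [mem_filter, mem_biUnion, mem_range, HasAntidiagonal.mem_antidiagonal] at hp
          obtain ⟨⟨n, hn1, hn2⟩, hne⟩ := hp
          have a1 : p.1 ≠ 0 := fun h => hne (by rw [h, h0]; simp)
          have a2 : p.2 ≠ 0 := fun h => hne (by rw [h, h0]; simp)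
          simp only [mem_product, mem_range]
          omega
        · intro a _ b _ hab
          refine Finset.disjoint_left.2 fun p h1 h2 => hab ?_
          rw [← mem_antidiagonal.1 h1, ← mem_antidiagonal.1 h2]
      have h3 : 0 ≤ ∑ n ∈ range N, coeff n H * z ^ n := Finset.sum_nonneg fun n _ => hnn n
      have h4 := Bf_eq hx4
      nlinarith
  exact ⟨summable_of_sum_range_le hnn key, Real.tsum_le_of_sum_range_le hnn key⟩

lemma down {z : ℝ} (hz : 0 ≤ z) (hs : Sm H z) :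
    Sm G z ∧ ev H z = ev G z + ev H z ^ 2 := by
  have hn := NN_of hH h0 hG
  have h1 : Sm G z := Sm.of_add hz hG (hn.mul hn) (hH ▸ hs)
  refine ⟨h1, ?_⟩
  have h2 := hs.mul hs
  have h3 := (h1.add h2.1).2
  rw [← hH, h2.2] at h3
  rw [sq]; exact h3

lemma dominate {K : ℝ⟦X⟧} (h1 : 1 ≤ coeff 1 H) {z0 z1 : ℝ} (hz0 : 0 < z0) (hz : z0 < z1)
    (hd : ¬ Sm H z0) (hK : Sm K z1) : ∃ N, ∀ n ≥ N, coeff n K ≤ coeff n H := by
  have hn := NN_of hH h0 hG
  have hone : ∀ r, 1 ≤ coeff (r + 1) H := by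
    intro r
    induction r with
    | zero => exact h1
    | succ r ih =>
      have := supermul hH h0 hG (r + 1) 1
      nlinarith
  obtain ⟨w, hw1, hw2⟩ := exists_between hz
  have hw0 : 0 < w := by linarith
  obtain ⟨m, hm⟩ : ∃ m, 1 < coeff m H * w ^ m := by
    by_contra hc
    push Not at hc
    apply hd
    refine Summable.of_nonneg_of_le (fun n => mul_nonneg (hn n) (pow_nonneg hz0.le n))
      (fun n => ?_) (summable_geometric_of_lt_one (r := z0 / w) (by positivity)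
        ((div_lt_one hw0).2 hw1))
    have : coeff n H * z0 ^ n = (coeff n H * w ^ n) * (z0 / w) ^ n := by
      rw [div_pow]; field_simp
    rw [this]
    exact mul_le_of_le_one_left (by positivity) (hc n)
  have hm0 : 0 < m := by
    rcases Nat.eq_zero_or_pos m with rfl | h
    · rw [h0] at hm; norm_num at hm
    · exact h
  set c := min 1 w ^ m with hc
  have hc0 : 0 < c := by positivity
  have hlow : ∀ n, c ≤ coeff (n + 1) H * w ^ (n + 1) := by
    intro n
    induction n using Nat.strong_induction_on with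
    | _ n ih =>
      by_cases hnm : n < m
      · have a1 : c ≤ min 1 w ^ (n + 1) :=
          pow_le_pow_of_le_one (by positivity) (min_le_left _ _) (by omega)
        have a2 : min 1 w ^ (n + 1) ≤ w ^ (n + 1) :=
          pow_le_pow_left₀ (by positivity) (min_le_right _ _) _
        have a3 := hone n
        have a4 : 0 < w ^ (n + 1) := by positivity
        nlinarith
      · obtain ⟨j, rfl⟩ : ∃ j, n = j + m := ⟨n - m, by omega⟩
        have a1 := ih j (by omega)
        have a2 := supermul hH h0 hG (j + 1) m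
        have e : j + m + 1 = j + 1 + m := by ring
        rw [e, pow_add]
        have a3 : 0 < w ^ (j + 1) * w ^ m := by positivity
        calc c ≤ coeff (j + 1) H * w ^ (j + 1) * 1 := by linarith
          _ ≤ coeff (j + 1) H * w ^ (j + 1) * (coeff m H * w ^ m) :=
              mul_le_mul_of_nonneg_left hm.le (hc0.le.trans a1)
          _ = (coeff (j + 1) H * coeff m H) * (w ^ (j + 1) * w ^ m) := by ring
          _ ≤ _ := mul_le_mul_of_nonneg_right a2 a3.le
  have ht := hK.tendsto_atTop_zero.eventually (gt_mem_nhds hc0)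
  obtain ⟨N, hN⟩ := Filter.eventually_atTop.1 ht
  refine ⟨N + 1, fun n hn1 => ?_⟩
  obtain ⟨j, rfl⟩ : ∃ j, n = j + 1 := ⟨n - 1, by omega⟩
  have a1 := hN (j + 1) (by omega)
  have a2 := hlow j
  have a3 : w ^ (j + 1) ≤ z1 ^ (j + 1) := pow_le_pow_left₀ hw0.le hw2.le _
  have a4 : 0 < w ^ (j + 1) := by positivity
  have a5 := mul_le_mul_of_nonneg_left a3 (hn (j + 1))
  have a6 : 0 < z1 ^ (j + 1) := pow_pos (by linarith) _
  by_contra hcon
  push Not at hcon
  have := mul_lt_mul_of_pos_right hcon a6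
  linarith

end

lemma step (W : ℕ → ℝ) (K : ℕ) (pos : ∀ j, 0 < W j)
    (cv : ∀ j, 1 ≤ j → j + 2 ≤ K → W (j + 1) ^ 2 < W j * W (j + 2)) (a : ℕ) (ha : 1 ≤ a) :
    ∀ d, a + 1 ≤ d → d + 1 ≤ K → W (a + 1) * W d < W a * W (d + 1) := by
  intro d hd
  induction d, hd using Nat.le_induction with
  | base => intro h; have := cv a ha h; nlinarith
  | succ d hd ih =>
    intro h
    have h1 := ih (by omega)
    have h2 := cv d (by omega) h
    have h3 := mul_lt_mul_of_pos_right h1 (pos (d + 1))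
    have h4 := mul_lt_mul_of_pos_left h2 (pos a)
    have h5 : W d * (W (a + 1) * W (d + 1)) < W d * (W a * W (d + 1 + 1)) := by nlinarith
    exact lt_of_mul_lt_mul_left h5 (pos d).le

lemma spread (W : ℕ → ℝ) (K : ℕ) (pos : ∀ j, 0 < W j)
    (cv : ∀ j, 1 ≤ j → j + 2 ≤ K → W (j + 1) ^ 2 < W j * W (j + 2)) (t : ℕ) :
    ∀ a c, 1 ≤ a → a + t + 1 ≤ c → c + t + 1 ≤ K →
      W (a + t + 1) * W c < W a * W (c + t + 1) := by
  induction t with
  | zero => intro a c ha h1 h2; exact step W K pos cv a ha c h1 h2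
  | succ t ih =>
    intro a c ha h1 h2
    have a1 := ih (a + 1) c (by omega) (by omega) (by omega)
    have a2 := step W K pos cv a ha (c + t + 1) (by omega) (by omega)
    have e : a + (t + 1) + 1 = a + 1 + t + 1 := by ring
    rw [e]
    exact a1.trans a2

/-- slope bigger than one. -/
lemma C1 {x y : ℝ} (hx : 0 < x) (hxy : x < y) (hy : y ≤ 1 / 4) :
    (1 + y) * (1 + Bf x) < (1 + x) * (1 + Bf y) := by
  have h1 := Bf_eq hy
  have h2 := Bf_eq (show x ≤ 1 / 4 by linarith)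
  have h3 := Bf_lt hxy (by linarith)
  have h4 : 0 < Bf x := by nlinarith [sq_nonneg (Bf x)]
  set a := Bf x
  set b := Bf y
  have e1 : x = a - a ^ 2 := by linarith
  have e2 : y = b - b ^ 2 := by linarith
  have : 0 < (b - a) * (a + b + a * b) := mul_pos (by linarith) (by nlinarith)
  rw [e1, e2]
  nlinarith

lemma C2' {a c w : ℝ} (a1 : 1 ≤ a) (ac : a < c) (c1 : c ≤ 3 / 2) (w1 : w ≤ 3 / 2) (w0 : 1 ≤ w)
    (hc : a * c ≤ w ^ 2) :
    (3 * a - a ^ 2 - 1) * (3 * c - c ^ 2 - 1) < (3 * w - w ^ 2 - 1) ^ 2 := by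
  have hac : 1 ≤ a * c := by nlinarith
  obtain ⟨t, t0, t2⟩ : ∃ t : ℝ, 0 ≤ t ∧ t ^ 2 = a * c :=
    ⟨Real.sqrt (a * c), Real.sqrt_nonneg _, Real.sq_sqrt (by linarith)⟩
  have t1 : 1 ≤ t := by
    by_contra hh
    push Not at hh
    nlinarith
  have tw : t ≤ w := by
    by_contra hh
    push Not at hh
    nlinarith
  have s1 : 2 * t < a + c := by
    by_contra hh
    push Not at hh
    have h1 : (a + c) ^ 2 ≤ (2 * t) ^ 2 := pow_le_pow_left₀ (by linarith) hh 2
    have h2 : 0 < (c - a) ^ 2 := pow_pos (by linarith) 2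
    nlinarith
  have p1 : 3 * t - t ^ 2 - 1 ≤ 3 * w - w ^ 2 - 1 := by
    have := mul_nonneg (sub_nonneg.2 tw) (show 0 ≤ 3 - t - w by linarith)
    nlinarith
  have p0 : 0 ≤ 3 * t - t ^ 2 - 1 := by
    have := mul_nonneg (sub_nonneg.2 t1) (show 0 ≤ 2 - t by linarith)
    nlinarith
  have p2 : (3 * t - t ^ 2 - 1) ^ 2 ≤ (3 * w - w ^ 2 - 1) ^ 2 := pow_le_pow_left₀ p0 p1 2
  have p3 : (3 * t - t ^ 2 - 1) ^ 2 - (3 * a - a ^ 2 - 1) * (3 * c - c ^ 2 - 1)
      = (a + c - 2 * t) * (3 * (t ^ 2 + 1) - (a + c) - 2 * t) := by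
    linear_combination (t ^ 2 + a * c + 7 - 3 * (a + c)) * t2
  have p5 : 0 < 3 * (t ^ 2 + 1) - (a + c) - 2 * t := by
    have := mul_nonneg (sub_nonneg.2 t1) t0
    nlinarith
  have p4 : 0 < (a + c - 2 * t) * (3 * (t ^ 2 + 1) - (a + c) - 2 * t) :=
    mul_pos (by linarith) p5
  linarith

/-- log-convexity. -/
lemma C2 {x y u : ℝ} (hx : 0 ≤ x) (hxy : x < y) (hy : y ≤ 1 / 4) (hu0 : 0 ≤ u) (hu : u ≤ 1 / 4)
    (h : (1 + u) ^ 2 ≤ (1 + x) * (1 + y)) : (1 + Bf u) ^ 2 < (1 + Bf x) * (1 + Bf y) := by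
  have h1 := Bf_eq hy
  have h2 := Bf_eq (show x ≤ 1 / 4 by linarith)
  have h3 := Bf_lt hxy (by linarith)
  have h4 := Bf_nonneg hx
  have h5 := Bf_eq hu
  have h6 := Bf_le u
  have h7 := Bf_le y
  have h8 := Bf_nonneg hu0
  by_contra hc
  push Not at hc
  have e1 : 1 + x = 3 * (1 + Bf x) - (1 + Bf x) ^ 2 - 1 := by linear_combination -h2
  have e2 : 1 + y = 3 * (1 + Bf y) - (1 + Bf y) ^ 2 - 1 := by linear_combination -h1
  have e3 : 1 + u = 3 * (1 + Bf u) - (1 + Bf u) ^ 2 - 1 := by linear_combination -h5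
  have := C2' (a := 1 + Bf x) (c := 1 + Bf y) (w := 1 + Bf u) (by linarith) (by linarith)
    (by linarith) (by linarith) (by linarith) hc
  rw [← e1, ← e2, ← e3] at this
  linarith

end Pool.Agent.H25.DL1
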