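import Mathlib
import Pool.Agent.Results.MP_53b42b_nt.Unb
import Pool.Agent.Results.MP_c5dce0_nt.Val

open PowerSeries Finset Pool.Agent.H25.Dis Pool.Agent.Results.MP_53b42b_nt.Unb

namespace Pool.Agent.H25.Four

noncomputable def F (m : ℕ) : ℤ⟦X⟧ := PowerSeries.mk (S 4 m)

lemma dvd_ex {k : ℕ} {D : ℤ⟦X⟧} (h : X ^ k ∣ D) : X ^ (4 * k) ∣ ex (ex D) := by
  simpa [← pow_mul, ← mul_assoc] using map_dvd ex (map_dvd ex h)

lemma F_eq (m : ℕ) : F m = R m * ex (ex (F m)) := by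
  ext n
  have h : X ^ (n + 1) ∣ F m - H m (n + 1) := X_pow_dvd_iff.2 fun j hj => by
    obtain ⟨a, rfl⟩ := Nat.exists_eq_add_of_le (Nat.le_of_lt_succ hj)
    rw [map_sub, Nat.add_right_comm, H_stab, F, coeff_mk]
    exact sub_self _
  have := X_pow_dvd_iff.1 ((dvd_ex h).mul_left (R m)) n (by omega)
  rw [map_sub, map_sub, mul_sub, map_sub, sub_eq_zero, ← H_succ, H_stab] at this
  rw [this, F, coeff_mk]
  rfl

lemma F_zero (m : ℕ) : constantCoeff (F m) = 1 := by
  simp [F, S, geom_one, y]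

lemma uniq {A B T : ℤ⟦X⟧} (hA : A = T * ex (ex A)) (hB : B = T * ex (ex B))
    (h : constantCoeff A = constantCoeff B) : A = B := by
  have (k : ℕ) : X ^ (k + 1) ∣ A - B := by
    induction k with
    | zero => simpa [X_dvd_iff, sub_eq_zero]
    | succ k ih =>
      rw [hA, hB, ← mul_sub, ← map_sub, ← map_sub]
      exact ((pow_dvd_pow _ (by omega)).trans (dvd_ex ih)).mul_left _
  ext n
  simpa [sub_eq_zero] using X_pow_dvd_iff.1 (this n) n n.lt_succ_self

lemma dvd_ev {M : ℤ} (l : List ℤ) (h : ∀ a ∈ l, M ∣ a) : C M ∣ ev l := by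
  induction l with
  | nil => exact dvd_zero _
  | cons a l ih =>
    exact dvd_add (map_dvd _ (h a (by simp))) ((ih fun b hb => h b (by simp [hb])).mul_left _)

lemma ev_zero (l : List ℤ) : constantCoeff (ev l) = l.sum := by
  induction l <;> simp [ev, y, *]

lemma coeff_F {m b c : ℕ} (hb : b < 2) (hc : c < 2) (A : ℤ⟦X⟧) (t : ℕ) :
    coeff (4 * t + (2 * c + b)) (A * F m) = coeff t (U c (U b (A * R m)) * F m) := by
  rw [← U_mul hc, ← U_mul hb, coeff_U, coeff_U, mul_assoc A, ← F_eq]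
  congr 2; ring

lemma auto {M : ℤ} {m : ℕ} (r : List ℤ) (L : List (List ℤ)) (hT : C M ∣ R m - ev r)
    (h : ∀ l ∈ L, ¬ M ∣ l.sum ∧ ∀ b < 2, ∀ c < 2, ∃ l' ∈ L, ∀ a ∈
      ad (ub c (ub b (ml l r))) (l'.map (-1 * ·)), M ∣ a) (h1 : [1] ∈ L) (n : ℕ) :
    ¬ M ∣ S 4 m n := by
  suffices ∀ l ∈ L, ¬ M ∣ coeff n (ev l * F m) by simpa [ev, F] using this _ h1
  induction n using Nat.strong_induction_on with
  | _ n ih =>
    intro l hl
    rcases n.eq_zero_or_pos with rfl | hn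
    · simpa [ev_zero, F_zero] using (h l hl).1
    have hb := Nat.mod_lt n two_pos
    have hc := Nat.mod_lt (n / 2) two_pos
    obtain ⟨l', h1, h2⟩ := (h l hl).2 _ hb _ hc
    obtain ⟨D, hD⟩ := dvd_ev _ h2
    obtain ⟨E, hE⟩ := hT
    rw [ev_ad, ev_map, ev_ub hc, ev_ub hb, ev_ml, map_neg, neg_mul, map_one, one_mul,
      add_neg_eq_iff_eq_add] at hD
    rw [show n = 4 * (n / 4) + (2 * (n / 2 % 2) + n % 2) by omega, coeff_F hb hc,
      eq_add_of_sub_eq hE, mul_add, mul_left_comm, map_add, map_add, Uc, Uc, hD, ← add_assoc,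
      ← mul_add, add_mul, map_add, mul_assoc, coeff_C_mul, dvd_add_right (dvd_mul_right _ _)]
    exact ih _ (by omega) l' h1

def rl : List ℤ := [-1, 4, -6, 4]

lemma R_one : (1 - X ^ 4) * y ^ 4 = ev rl := by
  simp only [rl, ev, map_neg, map_one, map_ofNat]
  linear_combination ((y - 1) ^ 3 + (y - 1) ^ 2 * (X * y) + (y - 1) * (X * y) ^ 2 +
    (X * y) ^ 3) * y_mul

lemma R_mod (r q j : ℕ) : C (2 ^ (r + 3)) ∣ R (2 ^ (r + 2) * q + j) - ev rl ^ j := by
  obtain ⟨t, ht⟩ := Results.MP_c5dce0_nt.Val.rho r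
  rw [show Results.MP_c5dce0_nt.Val.geom 1 = y from geom_one] at ht
  rw [R, pow_add _ _ j, pow_mul, ht, R_one, ← sub_one_mul]
  exact (Dvd.dvd.trans (by simp) (sub_one_dvd_pow_sub_one _ _)).mul_right _

def c4 (d : ℕ) : ℤ := [1, -3, 3, -1].getD d 0

def τ (n : ℕ) : ℤ := if n = 0 then 1 else c4 (n % 4) * τ (n / 4)

lemma τ_eq (t : ℕ) {d : ℕ} (h : d < 4) : τ (4 * t + d) = c4 d * τ t := by
  rw [τ]
  split_ifs with h0
  · obtain rfl : t = 0 := by omega
    obtain rfl : d = 0 := by omega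
    simp [τ, c4]
  · rw [show (4 * t + d) % 4 = d by omega, show (4 * t + d) / 4 = t by omega]

lemma τ_odd (n : ℕ) : τ n % 2 = 1 := by
  induction n using Nat.strong_induction_on with
  | _ n ih =>
    rw [τ]
    split_ifs with h
    · rfl
    · have := ih (n / 4) (by omega)
      have h4 := Nat.mod_lt n four_pos
      generalize n % 4 = d at *
      interval_cases d <;> simp [c4] <;> omega

lemma τ_key (n : ℕ) : ∀ s : ℤ, s = 1 ∨ s = -1 → (τ (n + 1) + s * τ n) % 8 ≠ 0 ∨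
    (τ (n + 1) + s * τ n = 0 ∧ padicValNat 2 (n + 1) % 2 = 1) := by
  induction n using Nat.strong_induction_on with
  | _ n ih =>
    obtain ⟨t, d, hd, rfl⟩ : ∃ t d, d < 4 ∧ n = 4 * t + d := ⟨n / 4, n % 4, by omega, by omega⟩
    have h := τ_odd t
    intro s hs
    rw [τ_eq t hd]
    interval_cases d
    · rw [τ_eq t (d := 1) (by omega)]
      simp only [c4, List.getD_cons_succ, List.getD_cons_zero]
      rcases hs with rfl | rfl <;> omega
    · rw [add_assoc, τ_eq t (d := 1 + 1) (by omega), show 4 * t + (1 + 1) = 2 * (2 * t + 1) by ring,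
        padicValNat.mul two_ne_zero (by omega), padicValNat_self,
        padicValNat.eq_zero_of_not_dvd (n := 2 * t + 1) (by omega)]
      simp only [c4, List.getD_cons_succ, List.getD_cons_zero, and_true]
      rcases hs with rfl | rfl <;> omega
    · rw [add_assoc, τ_eq t (d := 2 + 1) (by omega)]
      simp only [c4, List.getD_cons_succ, List.getD_cons_zero]
      rcases hs with rfl | rfl <;> omega
    · have := ih t (by omega) (-s) (by omega)
      rw [show 4 * t + 3 + 1 = 4 * (t + 1) + 0 by ring, τ_eq _ four_pos, add_zero,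
        padicValNat.mul four_ne_zero (by omega), show 4 = 2 ^ 2 from rfl, padicValNat.prime_pow]
      simp only [c4, List.getD_cons_succ, List.getD_cons_zero]
      rcases hs with rfl | rfl <;> omega

noncomputable def g : ℤ⟦X⟧ := (1 - X) * PowerSeries.mk τ

lemma g_eq : ev rl * g = ex (ex g) := by
  have h : PowerSeries.mk τ = (1 - X) ^ 3 * ex (ex (PowerSeries.mk τ)) := by
    ext n
    obtain ⟨t, c, b, hc, hb, rfl⟩ : ∃ t c b, c < 2 ∧ b < 2 ∧ n = 2 * (2 * t + c) + b :=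
      ⟨n / 4, n / 2 % 2, n % 2, by omega, by omega, by omega⟩
    have e : (1 - X : ℤ⟦X⟧) ^ 3 = ex (ex (C 1) + X * ex (C 3)) +
        X * ex (ex (C (-3)) + X * ex (C (-1))) := by simp [map_ofNat]; ring
    rw [← coeff_U, ← coeff_U, ← coeff_U b, ← coeff_U c, U_mul hb, U_mul hc, e, coeff_U, coeff_U,
      coeff_mk, show 2 * (2 * t + c) + b = 4 * t + (2 * c + b) by ring, τ_eq _ (by omega)]
    interval_cases b <;> interval_cases c <;> simp only [U0, U1, coeff_C_mul, coeff_mk] <;> rfl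
  have h4 := congrArg (· ^ 4) y_mul
  rw [← R_one, g, h]
  simp only [map_mul, map_sub, map_one, map_pow, expand_X, ← h, mul_pow] at h4 ⊢
  linear_combination (1 - X ^ 4) * y ^ 4 * (1 - X) * h +
    (1 - X ^ 4) * ex (ex (PowerSeries.mk τ)) * h4

lemma F_four {s o : ℕ} (ho : Odd o) : ∃ W : ℤ⟦X⟧, F (2 ^ (s + 2) * o) = 1 + C (2 ^ (s + 3)) * W ∧
    ∀ n, coeff (n + 1) W % 4 ≠ 0 ∧ (padicValNat 2 (n + 1) % 2 = 1 → coeff (n + 1) W % 2 = 1) := by
  have h (n : ℕ) := emultiplicity_eq_coe.1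
    (Results.MP_c5dce0_nt.Val.result (s + 2) (n + 1) (by omega) (by omega))
  have h1 (n) : 2 ^ (s + 3) ∣ S 4 (2 ^ (s + 2)) (n + 1) :=
    (pow_dvd_pow _ (by omega)).trans (h n).1
  choose a ha using h1
  set V : ℤ⟦X⟧ := X * PowerSeries.mk a
  have h2 : F (2 ^ (s + 2)) = 1 + C (2 ^ (s + 3)) * V := by
    ext n
    cases n with
    | zero => simp [V, F_zero]
    | succ n => rw [map_add, coeff_C_mul, coeff_succ_X_mul, F, coeff_mk, ha]; simp [coeff_one]
  have h3 : F (2 ^ (s + 2) * o) = F (2 ^ (s + 2)) ^ o := uniq (F_eq _) (by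
    rw [map_pow, map_pow, R, pow_mul, ← mul_pow, ← R, ← F_eq]) (by simp [F_zero])
  obtain ⟨T, hT⟩ : ∃ T, (1 + C (2 ^ (s + 3)) * V) ^ o =
      1 + C (2 ^ (s + 3)) * (C (o : ℤ) * V + C 4 * T) := by
    clear h3 ho
    induction o with
    | zero => exact ⟨0, by simp⟩
    | succ o ih =>
      obtain ⟨T, hT⟩ := ih
      refine ⟨T + 2 ^ (s + 1) * V * (o * V + 4 * T), ?_⟩
      rw [pow_succ _ o, hT]; simp [map_ofNat]; ring
  refine ⟨_, by rw [h3, h2, hT], fun n => ?_⟩
  have h4 := (h n).2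
  rw [show Results.MP_c5dce0_nt.Val.S 4 _ _ = _ from ha n, add_assoc (s + 2 + 1),
    pow_add _ (s + 2 + 1), mul_dvd_mul_iff_left (by positivity),
    padicValNat.mul two_ne_zero (by omega), padicValNat_self] at h4
  obtain ⟨o, rfl⟩ := ho
  rw [map_add, coeff_C_mul, coeff_C_mul, coeff_succ_X_mul, coeff_mk]
  have e : ((2 * o + 1 : ℕ) : ℤ) * a n = 2 * (o * a n) + a n := by push_cast; ring
  have e2 : a n % 2 = 0 → o * a n % 2 = 0 := fun h => by simp [Int.mul_emod, h]
  rcases Nat.mod_two_eq_zero_or_one (padicValNat 2 (n + 1)) with h | h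
  · rw [show (1 + padicValNat 2 (n + 1)) % 2 = 1 by omega] at h4; omega
  · rw [show (1 + padicValNat 2 (n + 1)) % 2 = 0 by omega] at h4; omega

lemma bdd {m : ℕ} (h0 : m ≠ 0) (hm : m % 8 ≠ 6) : ∃ E, ∀ n, ¬ 2 ^ E ∣ S 4 m n := by
  have z : S 4 m 0 = 1 := by simpa [F] using F_zero m
  have four (k : ℕ) (hk : k ≠ 0) (h4 : k % 4 = 0) : ∃ s o, Odd o ∧ k = 2 ^ (s + 2) * o := by
    obtain ⟨s, o, ho, h⟩ := Nat.exists_eq_two_pow_mul_odd (by omega : k / 4 ≠ 0)
    exact ⟨s, o, ho, by rw [pow_add, mul_right_comm, ← h]; omega⟩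
  rcases (by omega : m % 4 = 0 ∨ m % 4 = 1 ∨ m % 16 = 2 ∨ m % 16 = 10 ∨ m % 4 = 3) with
    h | h | h | h | h
  · obtain ⟨s, o, ho, rfl⟩ := four m h0 h
    obtain ⟨W, h1, h2⟩ := F_four (s := s) ho
    refine ⟨s + 3 + 2, fun n => ?_⟩
    cases n with
    | zero => rw [z, pow_succ]; exact fun h => by have := dvd_of_mul_left_dvd h; omega
    | succ n =>
      have := congrArg (coeff (n + 1)) h1
      rw [F, coeff_mk, map_add, coeff_C_mul, coeff_one, if_neg (by omega), zero_add] at this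
      rw [this, pow_add, mul_dvd_mul_iff_left (by positivity)]
      have := (h2 n).1
      omega
  · refine ⟨3, auto rl [[0, 2], [0, 4], [0, 6], [1], [7, 2]] ?_ (by decide +kernel) (by simp)⟩
    simpa [show 4 * (m / 4) + 1 = m by omega] using R_mod 0 (m / 4) 1
  · refine ⟨5, auto (ml rl rl) [[0, 4, 16], [0, 8], [0, 12, 8], [0, 12, 16], [0, 16], [0, 20, 16],
      [0, 24], [0, 28, 8], [0, 28, 16], [1], [1, 24, 8]] ?_ (by decide +kernel) (by simp)⟩
    simpa [show 16 * (m / 16) + 2 = m by omega, ev_ml, sq] using R_mod 2 (m / 16) 2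
  · refine ⟨5, auto ((ml rl)^[10] [1]) [[0, 4, 16], [0, 8], [0, 12, 8], [0, 12, 16], [0, 16],
      [0, 20, 16], [0, 24], [0, 28, 8], [0, 28, 16], [1], [1, 24, 8]] ?_ (by decide +kernel)
      (by simp)⟩
    have := R_mod 2 (m / 16) 10
    rwa [show 2 ^ (2 + 2) * (m / 16) + 10 = m by omega,
      show ev rl ^ 10 = ev ((ml rl)^[10] [1]) by simp [ev_ml, ev]; ring] at this
  · obtain ⟨s, o, ho, h3⟩ := four (m + 1) (by omega) (by omega)
    obtain ⟨W, h1, h2⟩ := F_four (s := s) ho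
    have h4 : F m = F (m + 1) * g := uniq (F_eq _) (by
      have := F_eq (m + 1)
      rw [R, pow_succ, ← R] at this
      rw [map_mul, map_mul, ← g_eq, ← R_one]
      linear_combination g * this) (by simp [F_zero, g, τ])
    obtain ⟨D, hD⟩ : C 2 ∣ g - 1 := by
      refine ⟨PowerSeries.mk fun n => coeff n (g - 1) / 2, PowerSeries.ext fun n => ?_⟩
      rw [coeff_C_mul, coeff_mk, Int.mul_ediv_cancel']
      cases n with
      | zero => simp [g, τ]
      | succ n =>
        have := τ_odd n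
        have := τ_odd (n + 1)
        simp only [g, sub_mul, map_sub, coeff_succ_X_mul, one_mul, coeff_mk, coeff_one]
        omega
    refine ⟨s + 3 + 1, fun n => ?_⟩
    cases n with
    | zero => rw [z, pow_succ]; exact fun h => by have := dvd_of_mul_left_dvd h; omega
    | succ n =>
      have e : F m = g + C (2 ^ (s + 3)) * (W + C 2 * (D * W)) := by
        rw [h4, h3, h1]; linear_combination C (2 ^ (s + 3)) * W * hD
      have := congrArg (coeff (n + 1)) e
      rw [F, coeff_mk, map_add, coeff_C_mul, map_add, coeff_C_mul, g, sub_mul, map_sub,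
        coeff_succ_X_mul, one_mul, coeff_mk, coeff_mk] at this
      rcases τ_key n (-1) (Or.inr rfl) with h5 | ⟨h5, h6⟩
      · intro h6
        have := (show (8 : ℤ) ∣ 2 ^ (s + 3 + 1) from ⟨2 ^ (s + 1), by ring⟩).trans h6
        rw [pow_add, mul_comm (2 ^ s), mul_assoc] at *
        omega
      · rw [this, show τ (n + 1) - τ n = 0 by omega, zero_add, pow_succ,
          mul_dvd_mul_iff_left (by positivity)]
        have := (h2 n).2 h6
        omega

lemma ker_mem (m E i : ℕ) : ∀ j < 4 ^ i, ∃ A ∈ Sp fun k e => k ≤ E + 3 * m ∨ E ≤ e,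
    ∀ t, S 4 m (4 ^ i * t + j) = coeff t (A * F m) := by
  have h1 {φ : ℕ → ℕ → Prop} (h : φ 0 0) : (1 : ℤ⟦X⟧) ∈ Sp φ := by simpa using gen h
  have hR : R m ∈ Sp fun k _ => k ≤ 3 * m := by
    rw [R, R_one]
    induction m with
    | zero => exact h1 le_rfl
    | succ m ih => exact mul ih (ev_mem (φ := fun k _ => k ≤ 3) rl (by decide)) (by omega)
  induction i with
  | zero => exact fun j hj => ⟨1, h1 (by omega), fun t => by simp [F, show j = 0 by omega]⟩
  | succ i ih =>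
    intro j hj
    have hp : 0 < 4 ^ i := by positivity
    obtain ⟨A, hA, h⟩ := ih _ (Nat.mod_lt j hp)
    have hd : j / 4 ^ i < 4 := by rwa [Nat.div_lt_iff_lt_mul hp, ← pow_succ']
    have hb := Nat.mod_lt (j / 4 ^ i) two_pos
    have hc : j / 4 ^ i / 2 < 2 := by omega
    refine ⟨_, U_mem hc (U_mem (ψ := fun k e => k ≤ E + 3 * m ∨ E ≤ e) hb (mul (χ := fun k e =>
      k ≤ E + 6 * m ∨ E ≤ e) hA hR (by omega)) (by omega)) (by omega), fun t => ?_⟩
    rw [← coeff_F hb hc, ← h, Nat.div_add_mod, mul_add, add_assoc, Nat.div_add_mod, pow_succ,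
      mul_assoc]

lemma ker_fin {m : ℕ} (h0 : m ≠ 0) (hm : m % 8 ≠ 6) (a : ℕ) : {f : ℕ → ℕ∞ | ∃ i, ∃ j < 4 ^ i,
    f = fun n => emultiplicity (2 ^ (a + 1)) (S 4 m (4 ^ i * n + j))}.Finite := by
  obtain ⟨E, hE⟩ := bdd h0 hm
  set q := 2 ^ ((a + 1) * E)
  let π := PowerSeries.map (Int.castRingHom (ZMod q))
  let V := Submodule.span (ZMod q) ((fun k => π y ^ k) '' Set.Iic ((a + 1) * E + 3 * m))
  have : Module.Finite (ZMod q) V := .span_of_finite _ ((Set.finite_Iic _).image _)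
  have hV : Set.Finite (V : Set (ZMod q)⟦X⟧) := Module.finite_of_finite (ZMod q) (M := V)
  refine (hV.image fun B n => emultiplicity (2 ^ (a + 1))
    (ZMod.cast (coeff n (B * π (F m))) : ℤ)).subset ?_
  rintro _ ⟨i, j, hj, rfl⟩
  obtain ⟨A, hA, h⟩ := ker_mem m ((a + 1) * E) i j hj
  refine ⟨π A, ind (S := V.toAddSubgroup.comap π.toAddMonoidHom) (.id _) hA fun k e h =>
    (?_ : π _ ∈ V), funext fun n => ?_⟩
  · rcases h with h | h
    · simpa [map_ofNat] using nsmul_mem (S := V) (Submodule.subset_span ⟨k, h, rfl⟩) (2 ^ e)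
    · have : (2 : (ZMod q)⟦X⟧) ^ e = 0 := by
        rw [show (2 : (ZMod q)⟦X⟧) = C 2 from rfl, ← map_pow, show (2 : ZMod q) ^ e = 0 by
          exact_mod_cast (ZMod.natCast_eq_zero_iff _ q).2 (pow_dvd_pow 2 h), map_zero]
      simp [this, map_ofNat]
  · simp only [← map_mul, π, coeff_map, ← h, eq_intCast, ZMod.coe_intCast]
    rw [Int.emod_def, ← neg_add_eq_sub, emultiplicity_add_of_gt]
    refine (emultiplicity_lt_iff_not_dvd.2 fun h => hE _ (Dvd.dvd.trans ?_ h)).trans_le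
      (le_emultiplicity_of_pow_dvd (k := E) (by simp [q, pow_mul]))
    rw [← pow_mul]
    exact pow_dvd_pow _ (Nat.le_mul_of_pos_left _ a.succ_pos)

end Pool.Agent.H25.Four
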