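import Mathlib

set_option autoImplicit false

namespace Pool.Agent.H25.Gab

open scoped InnerProductSpace

/-! ### The combinatorial part -/

lemma comb (F : ℤ × ℤ → ℝ) (σ : ℤ ≃ ℤ × ℤ) (hfin : ∀ d : ℝ, 0 < d → {l | d ≤ F l}.Finite)
    (hs : ∀ k l : ℤ, F (σ (k + 1) - σ (l + 1)) = F (σ k - σ l)) (l0 : ℤ × ℤ) (h0 : l0 ≠ 0) :
    F l0 ≤ 0 := by
  by_contra hpos
  push Not at hpos
  have hsh : ∀ t k l : ℤ, F (σ (k + t) - σ (l + t)) = F (σ k - σ l) := by
    intro t
    induction t with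
    | zero => simp
    | succ t ih => intro k l; rw [← add_assoc, ← add_assoc, hs, ih]
    | pred t ih =>
      intro k l
      rw [← hs, ← ih k l]
      congr 3 <;> ring
  have hG : ∀ k l : ℤ, F (σ k - σ l) = F (σ (k - l) - σ 0) := fun k l => by
    rw [← hsh (-l) k l]; congr 3 <;> ring
  have hS : {d : ℤ | F l0 ≤ F (σ d - σ 0)}.Finite :=
    (hfin _ hpos).preimage (f := fun d : ℤ => σ d - σ 0) fun a _ b _ h =>
      σ.injective (sub_left_injective h)
  obtain ⟨K, hK⟩ := (hS.image fun d => |d|).bddAbove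
  have hK' : ∀ l, F l0 ≤ F l → ∀ m, |σ.symm (m + l) - σ.symm m| ≤ K := by
    intro l hl m
    refine hK ⟨_, ?_, rfl⟩
    simp only [Set.mem_ofPred_eq]
    rw [← hG]; simpa using hl
  let φ : ℤ × ℤ → ℤ := fun m => l0.1 * m.2 - l0.2 * m.1
  by_cases hA : ∃ l1, F l0 ≤ F l1 ∧ φ l1 ≠ 0
  · obtain ⟨l1, h1, h2⟩ := hA
    have hK0 : 0 ≤ K := (abs_nonneg _).trans (hK' l0 le_rfl 0)
    have step : ∀ l, F l0 ≤ F l → ∀ (m : ℤ × ℤ) (a : ℕ),
        |σ.symm (m + a • l) - σ.symm m| ≤ K * a := by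
      intro l hl m a
      induction a with
      | zero => simp
      | succ a ih =>
        have := hK' l hl (m + a • l)
        rw [succ_nsmul, ← add_assoc]
        push_cast
        rw [abs_le] at *
        constructor <;> linarith
    obtain ⟨k, rfl⟩ := Int.eq_ofNat_of_zero_le hK0
    set n := 4 * k + 2 with hn
    have hc := Finset.card_le_card_of_injOn (s := Finset.range n ×ˢ Finset.range n)
      (t := Finset.Icc (σ.symm 0 - 2 * k * n) (σ.symm 0 + 2 * k * n))
      (fun p => σ.symm (p.1 • l0 + p.2 • l1)) (by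
        rintro ⟨a, b⟩ hp
        simp only [Finset.coe_product, Finset.coe_range, Set.mem_prod, Set.mem_Iio] at hp
        have e1 := step l0 le_rfl 0 a
        have e2 := step l1 h1 (a • l0) b
        rw [zero_add] at e1
        have e3 : (k : ℤ) * a ≤ k * n := by exact_mod_cast Nat.mul_le_mul_left k hp.1.le
        have e4 : (k : ℤ) * b ≤ k * n := by exact_mod_cast Nat.mul_le_mul_left k hp.2.le
        simp only [Finset.coe_Icc, Set.mem_Icc]
        rw [abs_le] at *
        constructor <;> linarith) (by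
        rintro ⟨a, b⟩ - ⟨a', b'⟩ - h
        have e := σ.symm.injective h
        simp only [Prod.ext_iff, Prod.fst_add, Prod.smul_fst, Prod.snd_add, Prod.smul_snd] at e ⊢
        simp only [nsmul_eq_mul] at e
        have e1 : ((b : ℤ) - b') * φ l1 = 0 := by
          simp only [φ]; linear_combination l0.1 * e.2 - l0.2 * e.1
        have e2 : (b : ℤ) = b' := by
          rcases mul_eq_zero.1 e1 with h | h
          · linarith
          · exact absurd h h2
        refine ⟨?_, by exact_mod_cast e2⟩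
        by_contra h3
        have h4 : (a : ℤ) - a' ≠ 0 := fun h => h3 (by omega)
        apply h0
        ext
        · exact (mul_eq_zero.1 (by rw [e2] at e; linear_combination e.1 :
            ((a : ℤ) - a') * l0.1 = 0)).resolve_left h4
        · exact (mul_eq_zero.1 (by rw [e2] at e; linear_combination e.2 :
            ((a : ℤ) - a') * l0.2 = 0)).resolve_left h4)
    rw [Finset.card_product, Finset.card_range, Int.card_Icc] at hc
    have e : σ.symm 0 + 2 * k * n + 1 - (σ.symm 0 - 2 * k * n) = ((4 * k * n + 1 : ℕ) : ℤ) := by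
      push_cast; ring
    rw [e, Int.toNat_natCast] at hc
    nlinarith
  · push Not at hA
    set j := σ.symm (σ 0 + l0) with hj
    have hj0 : j ≠ 0 := fun h => h0 (by
      have := congrArg σ h
      rw [hj, Equiv.apply_symm_apply] at this
      simpa using this)
    have hper : Function.Periodic (fun k => φ (σ k)) j := by
      intro k
      have := hA (σ (k + j) - σ k) (by rw [hG]; simp [hj])
      simp only [φ, Prod.fst_sub, Prod.snd_sub] at this ⊢
      linarith
    have hfin2 : (Set.range φ).Finite := by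
      refine ((Set.finite_Ico 0 |j|).image fun k => φ (σ k)).subset ?_
      rintro _ ⟨m, rfl⟩
      refine ⟨σ.symm m % j, ⟨Int.emod_nonneg _ hj0, Int.emod_lt_abs _ hj0⟩, ?_⟩
      have := hper.int_mul (σ.symm m / j) (σ.symm m % j)
      simp only [Int.cast_id] at this
      rw [Int.emod_add_ediv_mul] at this
      simpa using this.symm
    refine Set.infinite_range_of_injective (f := fun t : ℤ => φ (-t * l0.2, t * l0.1)) ?_
      (hfin2.subset (by rintro _ ⟨t, rfl⟩; exact ⟨_, rfl⟩))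
    intro s t h
    simp only [φ] at h
    have e : (s - t) * (l0.1 ^ 2 + l0.2 ^ 2) = 0 := by linear_combination h
    rcases mul_eq_zero.1 e with h | h
    · linarith
    · have e1 : l0.1 = 0 := by nlinarith [sq_nonneg l0.1, sq_nonneg l0.2]
      have e2 : l0.2 = 0 := by nlinarith [sq_nonneg l0.1, sq_nonneg l0.2]
      exact absurd (Prod.ext e1 e2) h0

/-! ### Projections and isometries -/

lemma iso_proj {E : Type} [NormedAddCommGroup E] [InnerProductSpace ℂ E] (N : Submodule ℂ E)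
    [N.HasOrthogonalProjection] (V : E →ₗᵢ[ℂ] E) (hV : ∀ x ∈ N, V x ∈ N) (x : E) :
    ‖V x - N.starProjection (V x)‖ ≤ ‖x - N.starProjection x‖ ∧
      (‖x - N.starProjection x‖ ≤ ‖V x - N.starProjection (V x)‖ →
        N.starProjection (V x) = V (N.starProjection x)) := by
  have h1 : ⟪V x - N.starProjection (V x), N.starProjection (V x) - V (N.starProjection x)⟫_ℂ = 0 :=
    N.starProjection_inner_eq_zero _ _
      (N.sub_mem (N.starProjection_apply_mem _) (hV _ (N.starProjection_apply_mem _)))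
  have h2 := norm_add_sq_eq_norm_sq_add_norm_sq_of_inner_eq_zero _ _ h1
  rw [sub_add_sub_cancel, ← map_sub, V.norm_map] at h2
  have h3 := norm_nonneg (V x - N.starProjection (V x))
  have h4 := norm_nonneg (x - N.starProjection x)
  have h5 := norm_nonneg (N.starProjection (V x) - V (N.starProjection x))
  refine ⟨by nlinarith, fun h => ?_⟩
  rw [← sub_eq_zero, ← norm_eq_zero]
  nlinarith

variable {ι : Type} [DecidableEq ι]

noncomputable abbrev L2 (ι : Type) := lp (fun _ : ι => ℂ) 2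

noncomputable def dl (i : ι) : L2 ι := lp.single 2 i 1

lemma inner_dl (i : ι) (x : L2 ι) : ⟪dl i, x⟫_ℂ = x i := by
  simp [dl, lp.inner_single_left]

lemma hasSum_dl (x : L2 ι) : HasSum (fun i => x i • dl i) x := by
  have := lp.hasSum_single (p := 2) (by simp) x
  simpa [dl, ← lp.single_smul] using this

lemma exists_iso (ρ : ι → ι) (hρ : Function.Injective ρ) (u : ι → ℂ) (hu : ∀ i, ‖u i‖ = 1) :
    ∃ V : L2 ι →ₗᵢ[ℂ] L2 ι, ∀ i, V (dl i) = u i • dl (ρ i) := by
  have h : Orthonormal ℂ fun i => u i • dl (ρ i) := by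
    rw [orthonormal_iff_ite]
    intro i j
    rw [inner_smul_left, inner_smul_right, inner_dl]
    by_cases h : i = j
    · subst h
      simp [dl, Complex.conj_mul', hu]
    · simp [dl, h, lp.single_apply, hρ.ne h]
  refine ⟨h.orthogonalFamily.linearIsometry, fun i => ?_⟩
  rw [dl, OrthogonalFamily.linearIsometry_apply_single]
  simp

variable {H : Type} [NormedAddCommGroup H] [InnerProductSpace ℂ H]

lemma ker_inv (U : L2 ι →L[ℂ] H) (V : L2 ι →ₗᵢ[ℂ] L2 ι) (C : ℝ)
    (h : ∀ (s : Finset ι) (c : ι → ℂ),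
      ‖∑ i ∈ s, c i • U (V (dl i))‖ ≤ C * ‖∑ i ∈ s, c i • U (dl i)‖) (x : L2 ι) (hx : U x = 0) :
    U (V x) = 0 := by
  have h1 : HasSum (fun i => x i • U (dl i)) (U x) := by
    simpa using (hasSum_dl x).mapL U
  have h2 : HasSum (fun i => x i • U (V (dl i))) (U (V x)) := by
    simpa using ((hasSum_dl x).mapL V.toContinuousLinearMap).mapL U
  have h3 := le_of_tendsto_of_tendsto' h2.norm (h1.norm.const_mul C) fun s => h s x
  rw [hx, norm_zero, mul_zero] at h3
  exact norm_le_zero_iff.1 h3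

lemma norm_of_gram (f g : ι → H) (h : ∀ i j, ⟪g i, g j⟫_ℂ = ⟪f i, f j⟫_ℂ) (s : Finset ι)
    (c : ι → ℂ) : ‖∑ i ∈ s, c i • g i‖ = ‖∑ i ∈ s, c i • f i‖ := by
  rw [norm_eq_sqrt_re_inner (𝕜 := ℂ), norm_eq_sqrt_re_inner (𝕜 := ℂ)]
  simp only [sum_inner, inner_sum, inner_smul_left, inner_smul_right, h]

/-- The abstract theorem: `hcomb` is the combinatorial input about the shift `ρ`. -/
lemma ker_bot (U : L2 (ℤ × ℤ) →L[ℂ] H) (hf : ∀ i, U (dl i) ≠ 0)
    (hG : ∀ m : ℤ × ℤ, ∃ u : ℤ × ℤ → ℂ, (∀ i, ‖u i‖ = 1) ∧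
      ∀ i j, ⟪u i • U (dl (i + m)), u j • U (dl (j + m))⟫_ℂ = ⟪U (dl i), U (dl j)⟫_ℂ)
    (ρ : ℤ × ℤ → ℤ × ℤ) (hρ : Function.Injective ρ) (C : ℝ)
    (hT : ∀ (s : Finset (ℤ × ℤ)) (c : ℤ × ℤ → ℂ),
      ‖∑ i ∈ s, c i • U (dl (ρ i))‖ ≤ C * ‖∑ i ∈ s, c i • U (dl i)‖)
    (hcomb : ∀ F : ℤ × ℤ → ℝ, (∀ d : ℝ, 0 < d → {l | d ≤ F l}.Finite) →
      (∀ i j, F (ρ i - ρ j) = F (i - j)) → (∀ i j, i ∉ Set.range ρ → F (i - ρ j) = 0) →
      ∀ l, l ≠ 0 → F l ≤ 0) : U.ker = ⊥ := by
  set N := U.ker with hN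
  have hmem : ∀ x, x ∈ N ↔ U x = 0 := fun x => Iff.rfl
  haveI : CompleteSpace N := U.isClosed_ker.completeSpace_coe
  have tr : ∀ m : ℤ × ℤ, ∃ (u : ℤ × ℤ → ℂ) (V : L2 (ℤ × ℤ) →ₗᵢ[ℂ] L2 (ℤ × ℤ)),
      (∀ i, ‖u i‖ = 1) ∧ (∀ i, V (dl i) = u i • dl (i + m)) ∧ ∀ x ∈ N, V x ∈ N := by
    intro m
    obtain ⟨u, h1, h2⟩ := hG m
    obtain ⟨V, hV⟩ := exists_iso (· + m) (add_left_injective m) u h1
    refine ⟨u, V, h1, hV, fun x hx => ker_inv U V 1 (fun s c => ?_) x hx⟩
    rw [one_mul]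
    exact (norm_of_gram _ _ (by simpa only [hV, map_smul] using h2) s c).le
  have dle : ∀ i m : ℤ × ℤ, ‖dl (i + m) - N.starProjection (dl (i + m))‖ ≤
      ‖dl i - N.starProjection (dl i)‖ := by
    intro i m
    obtain ⟨u, V, h1, h2, h3⟩ := tr m
    have := (iso_proj N V h3 (dl i)).1
    rwa [h2, map_smul, ← smul_sub, norm_smul, h1, one_mul] at this
  have dle' : ∀ i j : ℤ × ℤ, ‖dl i - N.starProjection (dl i)‖ ≤
      ‖dl j - N.starProjection (dl j)‖ := fun i j => by simpa using dle j (i - j)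
  have comm : ∀ (τ : ℤ × ℤ → ℤ × ℤ) (u : ℤ × ℤ → ℂ) (V : L2 (ℤ × ℤ) →ₗᵢ[ℂ] L2 (ℤ × ℤ)),
      (∀ i, ‖u i‖ = 1) → (∀ i, V (dl i) = u i • dl (τ i)) → (∀ x ∈ N, V x ∈ N) → ∀ j,
      u j • N.starProjection (dl (τ j)) = V (N.starProjection (dl j)) := by
    intro τ u V h1 h2 h3 j
    rw [← (iso_proj N V h3 (dl j)).2, h2, map_smul]
    rw [h2, map_smul, ← smul_sub, norm_smul, h1, one_mul]
    exact dle' _ _
  have inv : ∀ (τ : ℤ × ℤ → ℤ × ℤ) (u : ℤ × ℤ → ℂ) (V : L2 (ℤ × ℤ) →ₗᵢ[ℂ] L2 (ℤ × ℤ)),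
      (∀ i, ‖u i‖ = 1) → (∀ i, V (dl i) = u i • dl (τ i)) → (∀ x ∈ N, V x ∈ N) → ∀ i j,
      ‖N.starProjection (dl (τ j)) (τ i)‖ = ‖N.starProjection (dl j) i‖ := by
    intro τ u V h1 h2 h3 i j
    rw [← inner_dl i, ← V.inner_map_map, ← comm τ u V h1 h2 h3, h2, inner_smul_left,
      inner_smul_right, inner_dl]
    simp [h1]
  let F : ℤ × ℤ → ℝ := fun l => ‖N.starProjection (dl 0) l‖
  have hF : ∀ i j, ‖N.starProjection (dl j) i‖ = F (i - j) := by
    intro i j
    obtain ⟨u, V, h1, h2, h3⟩ := tr j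
    simpa using inv (· + j) u V h1 h2 h3 (i - j) 0
  obtain ⟨R, hR⟩ := exists_iso ρ hρ (fun _ => 1) (by simp)
  have hRN : ∀ x ∈ N, R x ∈ N := fun x hx => ker_inv U R C (by simpa [hR] using hT) x hx
  have key := hcomb F (fun d hd => by
      have h1 := ((lp.memℓp (N.starProjection (dl (0 : ℤ × ℤ)))).summable
        (by simp)).tendsto_cofinite_zero.eventually_lt_const (show (0 : ℝ) < d ^ 2 by positivity)
      refine (Filter.eventually_cofinite.1 h1).subset fun l hl h2 => ?_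
      simp only [ENNReal.toReal_ofNat, Real.rpow_ofNat] at h2
      exact (pow_le_pow_left₀ hd.le hl 2).not_gt h2)
    (fun i j => by rw [← hF, ← hF, inv ρ _ R (by simp) hR hRN])
    (fun i j hi => by
      have h1 := comm ρ _ R (by simp) hR hRN j
      rw [one_smul] at h1
      rw [← hF, h1, norm_eq_zero, ← inner_dl]
      have h2 := ((hasSum_dl (N.starProjection (dl j))).mapL R.toContinuousLinearMap).mapL
        (innerSL ℂ (dl i))
      refine h2.unique ?_
      convert hasSum_zero with k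
      have : i ≠ ρ k := fun h => hi ⟨k, h.symm⟩
      rw [map_smul, LinearIsometry.coe_toContinuousLinearMap, hR, innerSL_apply_apply, inner_dl]
      simp [dl, lp.single_apply, this])
  have h0 : ∀ j, N.starProjection (dl j) = 0 := by
    intro j
    have h1 : N.starProjection (dl j) = N.starProjection (dl j) j • dl j := by
      refine lp.ext (funext fun i => ?_)
      by_cases h : i = j
      · subst h; simp [dl]
      · have := key (i - j) (sub_ne_zero.2 h)
        rw [← hF, norm_le_zero_iff] at this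
        rw [this]
        simp [dl, lp.single_apply, h]
    have h2 := (hmem _).1 (N.starProjection_apply_mem (dl j))
    rw [h1, map_smul, smul_eq_zero] at h2
    rw [h1, h2.resolve_right (hf j), zero_smul]
  rw [eq_bot_iff]
  intro x hx
  have h1 := (hasSum_dl x).mapL N.starProjection
  simp only [map_smul, h0, smul_zero] at h1
  rw [Submodule.starProjection_eq_self_iff.2 hx] at h1
  exact h1.unique hasSum_zero

end Pool.Agent.H25.Gab
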