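import Pool.Agent.H25.Gab1

set_option autoImplicit false

namespace Pool.Agent.H25.Gab

open scoped InnerProductSpace
open MeasureTheory

section Defs

variable {ι H : Type} [NormedAddCommGroup H] [InnerProductSpace ℂ H]

/-- Frames. -/
def IsFrame (f : ι → H) : Prop :=
  ∃ A B : ℝ, 0 < A ∧ 0 < B ∧ ∀ h : H, Summable (fun k => ‖⟪f k, h⟫_ℂ‖ ^ 2) ∧
    A * ‖h‖ ^ 2 ≤ ∑' k, ‖⟪f k, h⟫_ℂ‖ ^ 2 ∧ ∑' k, ‖⟪f k, h⟫_ℂ‖ ^ 2 ≤ B * ‖h‖ ^ 2

/-- Riesz bases: images of orthonormal bases under bounded bijective operators. -/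
def IsRieszBasis (f : ι → H) : Prop :=
  ∃ (K : Type) (_ : NormedAddCommGroup K) (_ : InnerProductSpace ℂ K) (e : HilbertBasis ι ℂ K)
    (U : K ≃L[ℂ] H), ∀ k, U (e k) = f k

/-- The space `L²(ℝ)`. -/
noncomputable abbrev L2R : Type := Lp ℂ 2 (volume : Measure ℝ)

/-- `f (m, n) = E_{mb} T_{na} g`. -/
def IsGabor (a b : ℝ) (g : L2R) (f : ℤ × ℤ → L2R) : Prop :=
  ∀ m n : ℤ, f (m, n) =ᵐ[volume] fun x =>
    Complex.exp (2 * Real.pi * Complex.I * ((m * b * x : ℝ) : ℂ)) * g (x - n * a)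

/-- A linear operator `T` with `T (F k) = F (k + 1)` that is bounded on the span of the `F k`. -/
def HasBoundedRep {I : Type} [Add I] [One I] (F : I → H) : Prop :=
  ∃ T : H →ₗ[ℂ] H, (∀ k, T (F k) = F (k + 1)) ∧
    ∃ C : ℝ, ∀ x ∈ Submodule.span ℂ (Set.range F), ‖T x‖ ≤ C * ‖x‖

end Defs

variable {ι : Type} [DecidableEq ι] {H : Type} [NormedAddCommGroup H] [InnerProductSpace ℂ H]

lemma synth [CompleteSpace H] (f : ι → H) (hf : IsFrame f) :
    ∃ U : L2 ι →L[ℂ] H, (∀ i, U (dl i) = f i) ∧ (U.ker = ⊥ → IsRieszBasis f) := by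
  obtain ⟨A, B, hA, hB, h⟩ := hf
  let C0 : H →ₗ[ℂ] L2 ι :=
    { toFun := fun x => ⟨fun i => ⟪f i, x⟫_ℂ, memℓp_gen (by simpa using (h x).1)⟩
      map_add' := fun x y => lp.ext (funext fun i => by simp [inner_add_right])
      map_smul' := fun c x => lp.ext (funext fun i => by simp [inner_smul_right]) }
  have hn : ∀ x, ‖C0 x‖ ^ 2 = ∑' k, ‖⟪f k, x⟫_ℂ‖ ^ 2 := fun x => by
    have := lp.norm_rpow_eq_tsum (p := 2) (by simp) (C0 x)
    simp only [ENNReal.toReal_ofNat, Real.rpow_ofNat] at this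
    exact this
  let C : H →L[ℂ] L2 ι := C0.mkContinuous (√B) fun x => by
    refine abs_le_of_sq_le_sq' ?_ (by positivity) |>.2
    rw [hn, mul_pow, Real.sq_sqrt hB.le]
    exact (h x).2.2
  have hU : ∀ i, ContinuousLinearMap.adjoint C (dl i) = f i := fun i =>
    ext_inner_right ℂ fun x => by
      rw [ContinuousLinearMap.adjoint_inner_left, inner_dl]; rfl
  refine ⟨ContinuousLinearMap.adjoint C, hU, fun hk => ?_⟩
  have hlow : ∀ x, ‖x‖ ≤ (√A)⁻¹ * ‖C x‖ := fun x => by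
    rw [inv_mul_eq_div, le_div_iff₀ (Real.sqrt_pos.2 hA)]
    refine abs_le_of_sq_le_sq' ?_ (by positivity) |>.2
    rw [mul_pow, Real.sq_sqrt hA.le, mul_comm]
    exact (h x).2.1.trans (hn x).ge
  have hanti : AntilipschitzWith ⟨(√A)⁻¹, by positivity⟩ C := C.antilipschitz_of_bound hlow
  have hclosed : IsClosed (C.range : Set (L2 ι)) := hanti.isClosed_range C.uniformContinuous
  haveI : CompleteSpace C.range := hclosed.completeSpace_coe
  have hr : C.range = ⊤ := by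
    rw [← Submodule.orthogonal_eq_bot_iff, eq_bot_iff, ← hk]
    intro x hx
    refine ext_inner_right ℂ fun y => ?_
    rw [ContinuousLinearMap.coe_coe, ContinuousLinearMap.adjoint_inner_left, inner_zero_left]
    exact (Submodule.mem_orthogonal' _ _).1 hx _ ⟨y, rfl⟩
  let e := ContinuousLinearEquiv.ofBijective C (LinearMap.ker_eq_bot.2 hanti.injective) hr
  have hsurj : (ContinuousLinearMap.adjoint C).range = ⊤ := by
    rw [eq_top_iff]
    intro y _
    refine ⟨ContinuousLinearMap.adjoint (e.symm : L2 ι →L[ℂ] H) y, ext_inner_right ℂ fun x => ?_⟩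
    rw [ContinuousLinearMap.coe_coe, ContinuousLinearMap.adjoint_inner_left,
      ContinuousLinearMap.adjoint_inner_left]
    exact congrArg _ (e.symm_apply_apply x)
  refine ⟨L2 ι, inferInstance, inferInstance, HilbertBasis.ofRepr (LinearIsometryEquiv.refl ℂ _),
    ContinuousLinearEquiv.ofBijective _ hk hsurj, fun k => ?_⟩
  rw [← HilbertBasis.repr_symm_single]
  exact hU k

noncomputable def ee (t : ℝ) : ℂ := Complex.exp (2 * Real.pi * Complex.I * (t : ℂ))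

lemma ee_add (s t : ℝ) : ee (s + t) = ee s * ee t := by
  simp only [ee, ← Complex.exp_add]; push_cast; ring_nf

lemma ee_conj (s : ℝ) : (starRingEnd ℂ) (ee s) = ee (-s) := by
  simp only [ee, ← Complex.exp_conj, map_mul, Complex.conj_ofReal, Complex.conj_I, map_ofNat]
  push_cast; ring_nf

lemma ee_norm (s : ℝ) : ‖ee s‖ = 1 := by
  have : 2 * Real.pi * Complex.I * (s : ℂ) = ((2 * Real.pi * s : ℝ) : ℂ) * Complex.I := by
    push_cast; ring
  rw [ee, this, Complex.norm_exp_ofReal_mul_I]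

lemma gram {a b : ℝ} {g : Lp ℂ 2 (volume : Measure ℝ)} {f : ℤ × ℤ → Lp ℂ 2 (volume : Measure ℝ)}
    (hf : IsGabor a b g f) (m : ℤ × ℤ) : ∃ u : ℤ × ℤ → ℂ, (∀ i, ‖u i‖ = 1) ∧
      ∀ i j, ⟪u i • f (i + m), u j • f (j + m)⟫_ℂ = ⟪f i, f j⟫_ℂ := by
  have key : ∀ i j : ℤ × ℤ, ⟪f i, f j⟫_ℂ = ∫ x : ℝ, ee ((j.1 - i.1) * b * x) *
      ((starRingEnd ℂ) (g (x - i.2 * a)) * g (x - j.2 * a)) := by
    intro i j
    rw [L2.inner_def]
    refine integral_congr_ae ?_
    filter_upwards [hf i.1 i.2, hf j.1 j.2] with x h1 h2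
    rw [h1, h2, RCLike.inner_apply, map_mul]
    change ee _ * _ * ((starRingEnd ℂ) (ee _) * _) = _
    rw [ee_conj, show ((j.1 : ℝ) - i.1) * b * x = j.1 * b * x + -(i.1 * b * x) by ring, ee_add]
    ring
  refine ⟨fun i => ee (-(i.1 * b * (m.2 * a))), fun i => ee_norm _, fun i j => ?_⟩
  rw [inner_smul_left, inner_smul_right, key, key, ← integral_add_right_eq_self _ (m.2 * a),
    ← integral_const_mul, ← integral_const_mul]
  congr 1
  funext x
  simp only [Prod.fst_add, Prod.snd_add, ee_conj]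
  push_cast
  rw [show x + m.2 * a - (i.2 + m.2) * a = x - i.2 * a by ring,
    show x + m.2 * a - (j.2 + m.2) * a = x - j.2 * a by ring, ← mul_assoc (ee _) (ee _),
    ← ee_add, ← mul_assoc (ee _) (ee _), ← ee_add]
  congr 2
  ring

lemma rep_bound {I : Type} [Add I] [One I] (f : ι → H) (σ : I ≃ ι)
    (h : HasBoundedRep fun k => f (σ k)) : ∃ C : ℝ, ∀ (s : Finset ι) (c : ι → ℂ),
      ‖∑ i ∈ s, c i • f (σ (σ.symm i + 1))‖ ≤ C * ‖∑ i ∈ s, c i • f i‖ := by
  obtain ⟨T, hT, C, hC⟩ := h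
  refine ⟨C, fun s c => ?_⟩
  have := hC (∑ i ∈ s, c i • f (σ (σ.symm i))) (Submodule.sum_mem _ fun i _ =>
    Submodule.smul_mem _ _ (Submodule.subset_span ⟨σ.symm i, rfl⟩))
  simp only [map_sum, map_smul, hT] at this
  simpa using this

lemma ne_zero {a b : ℝ} {g : Lp ℂ 2 (volume : Measure ℝ)}
    {f : ℤ × ℤ → Lp ℂ 2 (volume : Measure ℝ)} (hf : IsGabor a b g f) (hF : IsFrame f) (i : ℤ × ℤ) :
    f i ≠ 0 := by
  intro hi
  have h0 : ∀ j, f j = 0 := fun j => by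
    obtain ⟨u, -, h⟩ := gram hf (i - j)
    have := h j j
    rw [add_sub_cancel, hi, smul_zero, inner_zero_left] at this
    exact inner_self_eq_zero.1 this.symm
  obtain ⟨A, B, hA, -, h⟩ := hF
  have h1 := (h (indicatorConstLp 2 (measurableSet_Icc (a := (0 : ℝ)) (b := 1))
    (by simp) (1 : ℂ))).2.1
  rw [norm_indicatorConstLp (by simp) (by simp)] at h1
  simp [h0] at h1
  linarith

lemma main (a b : ℝ) (g : Lp ℂ 2 (volume : Measure ℝ))
    (f : ℤ × ℤ → Lp ℂ 2 (volume : Measure ℝ)) (hf : IsGabor a b g f) (hF : IsFrame f)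
    (h : (∃ σ : ℕ ≃ ℤ × ℤ, HasBoundedRep fun k => f (σ k)) ∨
      ∃ σ : ℤ ≃ ℤ × ℤ, HasBoundedRep fun k => f (σ k)) : IsRieszBasis f := by
  obtain ⟨U, hU, hR⟩ := synth f hF
  apply hR
  rcases h with ⟨σ, h⟩ | ⟨σ, h⟩
  · obtain ⟨C, hC⟩ := rep_bound f σ h
    refine ker_bot U (fun i => hU i ▸ ne_zero hf hF i) (by simpa only [hU] using gram hf)
      (fun i => σ (σ.symm i + 1)) (fun i j h => by simpa using h) C (by simpa only [hU] using hC)
      fun F _ _ h3 l hl => ?_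
    have h4 : σ.symm (σ 0 - l) ≠ 0 := fun h => hl (by
      have := congrArg σ h
      simpa using this)
    obtain ⟨k, hk⟩ := Nat.exists_eq_succ_of_ne_zero h4
    have := h3 (σ 0) (σ k) (by rintro ⟨i, hi⟩; simpa using hi)
    rw [Equiv.symm_apply_apply, ← Nat.succ_eq_add_one, ← hk] at this
    simpa using this.le
  · obtain ⟨C, hC⟩ := rep_bound f σ h
    refine ker_bot U (fun i => hU i ▸ ne_zero hf hF i) (by simpa only [hU] using gram hf)
      (fun i => σ (σ.symm i + 1)) (fun i j h => by simpa using h) C (by simpa only [hU] using hC)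
      fun F h1 h2 _ l hl => comb F σ h1 (fun k l => by simpa using h2 (σ k) (σ l)) l hl

end Pool.Agent.H25.Gab
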