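import Mathlib

namespace Pool.Agent.H25.GaussA

open Finset Complex Real
open scoped NumberTheorySymbols

noncomputable def E (N x : ℕ) : ℂ := Complex.exp (2 * π * I * x / N)

lemma E_add (N x y : ℕ) : E N (x + y) = E N x * E N y := by
  unfold E; rw [← Complex.exp_add]; congr 1; push_cast; ring

lemma E_mul {p : ℕ} (hp : p ≠ 0) (M x : ℕ) : E (p * M) (p * x) = E M x := by
  have : (p : ℂ) ≠ 0 := by exact_mod_cast hp
  unfold E; congr 1; push_cast
  by_cases h : (M : ℂ) = 0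
  · simp [h]
  · field_simp

lemma E_per {N : ℕ} (hN : N ≠ 0) (k : ℕ) : E N (N * k) = 1 := by
  have : (N : ℂ) ≠ 0 := by exact_mod_cast hN
  unfold E
  rw [← Complex.exp_nat_mul_two_pi_mul_I k]; congr 1; push_cast; field_simp

lemma E_mod {N : ℕ} (hN : N ≠ 0) {x y : ℕ} (h : x ≡ y [MOD N]) : E N x = E N y := by
  rw [← Nat.mod_add_div x N, ← Nat.mod_add_div y N, E_add, E_add, E_per hN, E_per hN, h]

noncomputable def tau (N c : ℕ) : ℂ := ∑ m ∈ range N, (J(m | N) : ℂ) * E N (c * m)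
noncomputable def G (N c : ℕ) : ℂ := ∑ x ∈ range N, E N (c * x ^ 2)

lemma crt {p M : ℕ} (hp : p ≠ 0) (hM : M ≠ 0) (h : Nat.Coprime p M) (f : ℕ → ℂ)
    (hf : ∀ x, f (x % (p * M)) = f x) (k : ℕ) :
    ∑ x ∈ range (p * M), f x =
      ∑ u ∈ range M, ∑ v ∈ range p, f (p ^ (k + 1) * u + M ^ (k + 1) * v) := by
  rw [← sum_product']
  have hpos : 0 < p * M := by positivity
  have maps : ∀ z ∈ range M ×ˢ range p,
      (p ^ (k + 1) * z.1 + M ^ (k + 1) * z.2) % (p * M) ∈ range (p * M) :=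
    fun z _ => mem_range.2 (Nat.mod_lt _ hpos)
  have key : ∀ {a b u v u' v' : ℕ}, Nat.Coprime a b → u < b → u' < b →
      a ^ (k + 1) * u + b ^ (k + 1) * v ≡ a ^ (k + 1) * u' + b ^ (k + 1) * v' [MOD b] → u = u' := by
    intro a b u v u' v' hab h1 h2 h3
    have e : ∀ s w, s + b ^ (k + 1) * w ≡ s [MOD b] := fun s w => by
      rw [pow_succ', mul_assoc]; exact Nat.add_mul_mod_self_left s b _
    have h4 := ((e _ v).symm.trans h3).trans (e _ v')
    exact Nat.ModEq.eq_of_lt_of_lt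
      (Nat.ModEq.cancel_left_of_coprime (Nat.Coprime.pow_right _ hab.symm) h4) h1 h2
  have inj : ∀ z ∈ range M ×ˢ range p, ∀ z' ∈ range M ×ˢ range p,
      (p ^ (k + 1) * z.1 + M ^ (k + 1) * z.2) % (p * M) =
      (p ^ (k + 1) * z'.1 + M ^ (k + 1) * z'.2) % (p * M) → z = z' := by
    intro z hz z' hz' e
    simp only [mem_product, mem_range] at hz hz'
    refine Prod.ext (key h hz.1 hz'.1 (Nat.ModEq.of_mul_left p e)) (key (v := z.1) (v' := z'.1) h.symm hz.2 hz'.2 ?_)
    rw [add_comm, add_comm (M ^ (k + 1) * z'.2)]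
    exact Nat.ModEq.of_mul_right M e
  symm
  refine sum_bij (fun z _ => (p ^ (k + 1) * z.1 + M ^ (k + 1) * z.2) % (p * M)) maps
    (fun a ha b hb => inj a ha b hb) ?_ (fun z _ => (hf _).symm)
  intro b hb
  obtain ⟨a, ha, e⟩ := surj_on_of_inj_on_of_card_le
    (fun z _ => (p ^ (k + 1) * z.1 + M ^ (k + 1) * z.2) % (p * M)) maps
    (fun a b ha hb => inj a ha b hb) (by simp [mul_comm]) b hb
  exact ⟨a, ha, e.symm⟩

lemma J_mod {N a b : ℕ} (h : a ≡ b [MOD N]) : J(a | N) = J(b | N) :=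
  jacobiSym.mod_left' (by exact_mod_cast h)

lemma G_mul {p M : ℕ} (hp : p ≠ 0) (hM : M ≠ 0) (h : Nat.Coprime p M) (c : ℕ) :
    G (p * M) c = G M (c * p) * G p (c * M) := by
  have hN : p * M ≠ 0 := mul_ne_zero hp hM
  rw [G, crt hp hM h (fun x => E (p * M) (c * x ^ 2)) (fun x => E_mod hN (((Nat.mod_modEq x _).pow 2).mul_left c)) 0, G, G,
    sum_mul_sum]
  refine sum_congr rfl (fun u _ => sum_congr rfl (fun v _ => ?_))
  rw [show c * (p ^ (0 + 1) * u + M ^ (0 + 1) * v) ^ 2 =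
    p * (c * p * u ^ 2) + M * (c * M * v ^ 2) + p * M * (2 * c * u * v) by ring,
    E_add, E_add, E_per hN, E_mul hp, mul_comm p M, E_mul hM, mul_one]

lemma tau_mul {p M : ℕ} (hp : p ≠ 0) (hM : M ≠ 0) (h : Nat.Coprime p M) (c : ℕ) :
    tau (p * M) c = tau M (c * p) * tau p (c * M) := by
  have hN : p * M ≠ 0 := mul_ne_zero hp hM
  rw [tau, crt hp hM h _ (fun x => by
    rw [E_mod hN ((Nat.mod_modEq x _).mul_left c), J_mod (Nat.mod_modEq x _)]) 1, tau, tau,
    sum_mul_sum]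
  refine sum_congr rfl (fun u _ => sum_congr rfl (fun v _ => ?_))
  have j : ∀ {a b : ℕ} (s w : ℕ), Nat.Coprime a b →
      J((a ^ (1 + 1) * s + b ^ (1 + 1) * w : ℕ) | b) = J(s | b) := by
    intro a b s w hab
    have e : a ^ (1 + 1) * s + b ^ (1 + 1) * w ≡ a ^ 2 * s [MOD b] := by
      rw [pow_succ' b, mul_assoc]; exact Nat.add_mul_mod_self_left _ b _
    rw [J_mod e]; push_cast
    rw [jacobiSym.mul_left, jacobiSym.sq_one' (by exact_mod_cast hab), one_mul]
  rw [jacobiSym.mul_right' _ hp hM, j u v h, add_comm, j v u h.symm,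
    show c * (M ^ (1 + 1) * v + p ^ (1 + 1) * u) =
    p * (c * p * u) + M * (c * M * v) by ring,
    E_add, E_mul hp, mul_comm p M, E_mul hM]
  push_cast; ring

lemma sum_zmod (p : ℕ) [NeZero p] (f : ZMod p → ℂ) : ∑ m ∈ range p, f m = ∑ a, f a := by
  refine sum_nbij' (fun m => (m : ZMod p)) (fun a => a.val) (by simp) (fun a _ => mem_range.2 (ZMod.val_lt a))
    (fun m hm => ZMod.val_cast_of_lt (mem_range.1 hm)) (by simp) (fun _ _ => rfl)

def P (N : ℕ) : Prop := (∀ c : ℕ, tau N c = J(c | N) * tau N 1) ∧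
  (∀ c : ℕ, Nat.Coprime c N → G N c = tau N c) ∧ tau N 1 ^ 2 = J(-1 | N) * N

lemma P_prime (p : ℕ) (hp : p.Prime) (h2 : p ≠ 2) : P p := by
  have := Fact.mk hp
  have hF : ringChar (ZMod p) ≠ 2 := by rw [ZMod.ringChar_zmod_n]; exact h2
  set ψ := ZMod.stdAddChar (N := p)
  have hψ := ZMod.isPrimitive_stdAddChar p
  have eE : ∀ x : ℕ, E p x = ψ x := fun x => by
    have := ZMod.stdAddChar_coe (N := p) (x : ℤ)
    rw [Int.cast_natCast, Int.cast_natCast] at this
    exact this.symm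
  have eJ : ∀ x : ℤ, J(x | p) = quadraticChar (ZMod p) x := fun x => by
    rw [← jacobiSym.legendreSym.to_jacobiSym]; rfl
  have et : ∀ c : ℕ, tau p c = ∑ a : ZMod p, (quadraticChar (ZMod p) a : ℂ) * ψ (c * a) := fun c => by
    rw [tau, ← sum_zmod]
    exact sum_congr rfl (fun m _ => by rw [eE, eJ]; push_cast; rfl)
  refine ⟨fun c => ?_, fun c hc => ?_, ?_⟩
  · rw [et, et, eJ, Int.cast_natCast]
    by_cases h : (c : ZMod p) = 0
    · have := quadraticChar_sum_zero hF
      simp only [h, zero_mul, AddChar.map_zero_eq_one, mul_one, quadraticChar_zero, Int.cast_zero]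
      exact_mod_cast this
    · rw [← Equiv.sum_comp (Equiv.mulLeft₀ _ h) (fun a => (quadraticChar (ZMod p) a : ℂ) * ψ ((1 : ℕ) * a)),
        mul_sum]
      refine sum_congr rfl (fun a _ => ?_)
      have := quadraticChar_sq_one h
      simp only [Equiv.mulLeft₀_apply, map_mul, Nat.cast_one, one_mul]
      rw [← mul_assoc, ← Int.cast_mul, ← mul_assoc, ← sq, this, one_mul]
  · have h : (c : ZMod p) ≠ 0 := by
      rw [Ne, ZMod.natCast_eq_zero_iff]; exact (hp.coprime_iff_not_dvd.1 hc.symm)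
    have e1 : G p c = ∑ x : ZMod p, ψ (c * x ^ 2) := by
      rw [G, ← sum_zmod]
      exact sum_congr rfl (fun m _ => by rw [eE]; push_cast; rfl)
    rw [e1, et, ← sum_fiberwise (s := univ) (g := fun x : ZMod p => x ^ 2)]
    have e2 := AddChar.sum_mulShift (c : ZMod p) hψ
    rw [if_neg h, Nat.cast_zero] at e2
    rw [← add_zero (∑ a : ZMod p, _ * _), ← e2, ← sum_add_distrib]
    refine sum_congr rfl (fun a _ => ?_)
    rw [sum_congr rfl (g := fun _ => ψ (c * a)) (fun x hx => by rw [(mem_filter.1 hx).2]), sum_const,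
      nsmul_eq_mul]
    have e3 := quadraticChar_card_sqrts hF a
    rw [Set.toFinset_ofPred] at e3
    have e4 : ((#{x : ZMod p | x ^ 2 = a} : ℕ) : ℂ) = (quadraticChar (ZMod p) a : ℂ) + 1 := by
      exact_mod_cast e3
    rw [e4, mul_comm a]; ring
  · have := gaussSum_sq ((MulChar.ringHomComp_ne_one_iff (f := Int.castRingHom ℂ)
      (RingHom.injective_int _)).mpr (quadraticChar_ne_one hF))
      ((quadraticChar_isQuadratic (ZMod p)).comp _) hψ
    rw [et, eJ]
    simpa [gaussSum] using this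

lemma P_sqfree (N : ℕ) : Squarefree N → Odd N → P N := by
  induction N using Nat.recOnMul with
  | zero => intro h; exact absurd h not_squarefree_zero
  | one =>
    intro _ _
    refine ⟨fun c => ?_, fun c _ => ?_, ?_⟩ <;> simp [tau, G, E]
  | prime p hp => intro _ ho; exact P_prime p hp (by rintro rfl; exact absurd ho (by decide))
  | mul p M ih1 ih2 =>
    intro hs ho
    obtain ⟨h, s1, s2⟩ := Nat.squarefree_mul_iff.1 hs
    obtain ⟨a1, a2, a3⟩ := ih1 s1 (Nat.odd_mul.1 ho).1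
    obtain ⟨b1, b2, b3⟩ := ih2 s2 (Nat.odd_mul.1 ho).2
    have hp := s1.ne_zero
    have hM := s2.ne_zero
    refine ⟨fun c => ?_, fun c hc => ?_, ?_⟩
    · rw [tau_mul hp hM h, tau_mul hp hM h, a1, b1, a1 (1 * M), b1 (1 * p),
        jacobiSym.mul_right' _ hp hM]
      push_cast
      simp only [jacobiSym.mul_left, jacobiSym.one_left]
      push_cast; ring
    · rw [tau_mul hp hM h, G_mul hp hM h,
        a2 _ (Nat.Coprime.mul_left (Nat.Coprime.coprime_mul_right_right hc) h.symm),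
        b2 _ (Nat.Coprime.mul_left (Nat.Coprime.coprime_mul_left_right hc) h)]
    · rw [tau_mul hp hM h, a1, b1, jacobiSym.mul_right' _ hp hM, one_mul, one_mul]
      have c1 : ((J(M | p) : ℤ) : ℂ) ^ 2 = 1 := by
        exact_mod_cast jacobiSym.sq_one (a := M) (b := p) (by exact_mod_cast h.symm)
      have c2 : ((J(p | M) : ℤ) : ℂ) ^ 2 = 1 := by
        exact_mod_cast jacobiSym.sq_one (a := p) (b := M) (by exact_mod_cast h)
      rw [mul_pow, mul_pow, mul_pow, c1, c2, a3, b3]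
      push_cast; ring

end Pool.Agent.H25.GaussA
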