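import Mathlib
import Pool.Agent.H25.GaussA

namespace Pool.Agent.H25.GaussB

open Finset Real Pool.Agent.H25.GaussA
open scoped NumberTheorySymbols

noncomputable def c (N m : ℕ) : ℝ := cos (π * m ^ 2 / (2 * N))
noncomputable def s (N m : ℕ) : ℝ := sin (π * (m * (m + 1)) / (2 * N))
noncomputable def u (N m : ℕ) : ℝ := 1 / sin (π * m / (2 * N))

lemma ang {N m : ℕ} (h1 : 1 ≤ m) (h2 : m ≤ N) :
    0 < π * m / (2 * N) ∧ π * m / (2 * N) ≤ π / 2 := by
  have a1 : (0 : ℝ) < m := by exact_mod_cast h1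
  have a2 : (m : ℝ) ≤ N := by exact_mod_cast h2
  have := pi_pos
  refine ⟨by have : (0 : ℝ) < N := by linarith
             positivity, ?_⟩
  rw [div_le_div_iff₀ (by linarith) (by norm_num)]
  nlinarith

lemma sin_pos' {N m : ℕ} (h1 : 1 ≤ m) (h2 : m ≤ N) : 0 < sin (π * m / (2 * N)) :=
  sin_pos_of_pos_of_lt_pi (ang h1 h2).1 (by linarith [(ang h1 h2).2, pi_pos])

lemma u_anti {N m : ℕ} (h1 : 1 ≤ m) (h2 : m + 1 ≤ N) : u N (m + 1) ≤ u N m := by
  refine one_div_le_one_div_of_le (sin_pos' h1 (by omega)) ?_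
  have a := ang (N := N) h1 (by omega)
  refine sin_le_sin_of_le_of_le_pi_div_two (by linarith [a.1, pi_pos]) (ang (by omega) h2).2 ?_
  have := pi_pos
  push_cast
  gcongr
  linarith

lemma step {N m : ℕ} (h2 : m + 1 ≤ N) :
    2 * c N (m + 1) = (s N (m + 1) - s N m) * u N (m + 1) := by
  have h := sin_pos' (N := N) (m := m + 1) (by omega) h2
  rw [u, mul_one_div, eq_div_iff h.ne', s, s, sin_sub_sin, c]
  have e1 : (π * (((m + 1 : ℕ) : ℝ) * (((m + 1 : ℕ) : ℝ) + 1)) / (2 * N) - π * (m * (m + 1)) / (2 * N)) / 2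
      = π * ((m + 1 : ℕ) : ℝ) / (2 * N) := by push_cast; ring
  have e2 : (π * (((m + 1 : ℕ) : ℝ) * (((m + 1 : ℕ) : ℝ) + 1)) / (2 * N) + π * (m * (m + 1)) / (2 * N)) / 2
      = π * ((m + 1 : ℕ) : ℝ) ^ 2 / (2 * N) := by push_cast; ring
  rw [e1, e2]; ring

lemma lower (N a : ℕ) (ha : 1 ≤ a) (h1 : a + 1 ≤ N) (h2 : (a - 1) * a ≤ 2 * N) :
    -(N / a : ℝ) ≤ 2 * ∑ m ∈ range (N - 1), c N (m + 1) := by
  have i1 : ∀ n, 1 ≤ n → n ≤ a → s N n * u N n ≤ 2 * ∑ m ∈ range n, c N (m + 1) := by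
    intro n hn
    induction n, hn using Nat.le_induction with
    | base => intro _; rw [sum_range_one, step (by omega)]; simp [s]
    | succ n hn ih =>
      intro h
      have p1 := ih (by omega)
      have p2 := u_anti (N := N) hn (by omega)
      have p3 : 0 ≤ s N n := by
        have hN : (0 : ℝ) < N := by exact_mod_cast (by omega : 0 < N)
        have q : n * (n + 1) ≤ 2 * N := (Nat.mul_le_mul (by omega) h).trans h2
        have q' : (n : ℝ) * (n + 1) ≤ 2 * N := by exact_mod_cast q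
        have := pi_pos
        refine sin_nonneg_of_nonneg_of_le_pi (by positivity) ?_
        rw [div_le_iff₀ (by positivity)]
        nlinarith
      rw [sum_range_succ, mul_add, step (by omega)]
      nlinarith
  have i2 : ∀ n, a ≤ n → n ≤ N →
      s N n * u N n - (u N a - u N n) ≤ 2 * ∑ m ∈ range n, c N (m + 1) := by
    intro n hn
    induction n, hn using Nat.le_induction with
    | base => intro _; simpa using i1 a ha le_rfl
    | succ n hn ih =>
      intro h
      have p1 := ih (by omega)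
      have p2 := u_anti (N := N) (m := n) (by omega) h
      have p3 : -1 ≤ s N n := neg_one_le_sin _
      rw [sum_range_succ, mul_add, step h]
      nlinarith
  have f1 := i2 (N - 1) (by omega) (by omega)
  have f2 : -1 ≤ s N (N - 1) := neg_one_le_sin _
  have f3 : 0 ≤ u N (N - 1) := (one_div_pos.2 (sin_pos' (by omega) (by omega))).le
  have f4 : u N a ≤ N / a := by
    have a1 := ang (N := N) ha (by omega)
    have a2 := mul_le_sin a1.1.le a1.2
    have hN : (0 : ℝ) < N := by exact_mod_cast (by omega : 0 < N)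
    have ha' : (0 : ℝ) < a := by exact_mod_cast ha
    have := pi_pos
    rw [show 2 / π * (π * a / (2 * N)) = (a / N : ℝ) by field_simp] at a2
    rw [u, ← one_div_div (a : ℝ) N]
    exact one_div_le_one_div_of_le (by positivity) a2
  nlinarith

lemma sum_two (f : ℕ → ℝ) (K : ℕ) :
    ∑ m ∈ range (2 * K), f m = ∑ i ∈ range K, f (2 * i) + ∑ i ∈ range K, f (2 * i + 1) := by
  induction K with
  | zero => simp
  | succ K ih => rw [show 2 * (K + 1) = 2 * K + 1 + 1 by ring, sum_range_succ, sum_range_succ, ih,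
      sum_range_succ, sum_range_succ]; ring

lemma sum_half (f : ℕ → ℝ) (K : ℕ) : ∑ m ∈ range (2 * K + 1), f m =
    f 0 + ∑ i ∈ range K, (f (i + 1) + f (2 * K - i)) := by
  rw [sum_range_succ', two_mul, sum_range_add, sum_add_distrib,
    ← sum_range_reflect (fun x => f (K + x + 1)), add_comm]
  congr 2
  exact sum_congr rfl (fun i hi => by congr 1; have := mem_range.1 hi; omega)

lemma E_re (N x : ℕ) : (E N x).re = cos (2 * π * x / N) := by
  rw [E, show 2 * (π : ℂ) * Complex.I * x / N = ((2 * π * x / N : ℝ) : ℂ) * Complex.I by push_cast; ring,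
    Complex.exp_ofReal_mul_I_re]

lemma E_im (N x : ℕ) : (E N x).im = sin (2 * π * x / N) := by
  rw [E, show 2 * (π : ℂ) * Complex.I * x / N = ((2 * π * x / N : ℝ) : ℂ) * Complex.I by push_cast; ring,
    Complex.exp_ofReal_mul_I_im]

lemma G_eq (L : ℕ) : (G (4 * L + 3) 1).re + (G (4 * L + 3) 1).im =
    1 + 2 * ∑ m ∈ range (4 * L + 3 - 1), c (4 * L + 3) (m + 1) := by
  obtain ⟨N, hN⟩ : ∃ N, N = 4 * L + 3 := ⟨_, rfl⟩
  obtain ⟨K, hK⟩ : ∃ K, K = 2 * L + 1 := ⟨_, rfl⟩
  have h0 : (N : ℝ) ≠ 0 := by exact_mod_cast (by omega : N ≠ 0)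
  have hN' : (N : ℝ) = 4 * L + 3 := by exact_mod_cast hN
  rw [← hN, G, Complex.re_sum, Complex.im_sum, ← sum_add_distrib]
  have e := sum_half (fun x => (E N (1 * x ^ 2)).re + (E N (1 * x ^ 2)).im) K
  rw [show 2 * K + 1 = N by omega] at e
  rw [e, show N - 1 = 2 * K by omega, sum_two, ← sum_range_reflect (fun i => c N (2 * i + 1)),
    ← sum_add_distrib, mul_sum]
  congr 1
  · simp [E]
  refine sum_congr rfl (fun i hi => ?_)
  obtain ⟨t, ht⟩ : ∃ t, K = i + 1 + t := ⟨K - (i + 1), by have := mem_range.1 hi; omega⟩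
  have m1 : 1 * (2 * K - i) ^ 2 ≡ 1 * (i + 1) ^ 2 [MOD N] := by
    rw [show 2 * K - i = i + 2 + 2 * t by omega,
      show 1 * (i + 2 + 2 * t) ^ 2 = 1 * (i + 1) ^ 2 + (2 * (i + 1 + t) + 1) * (2 * t + 1) by ring,
      show 2 * (i + 1 + t) + 1 = N by omega]
    exact Nat.add_mul_mod_self_left _ _ _
  have t1 : ((2 * t + 1 : ℕ) : ℝ) = N - 2 * (i + 1) := by
    have : N = 2 * t + 1 + 2 * (i + 1) := by omega
    rw [this]; push_cast; ring
  rw [E_mod (by omega) m1, E_re, E_im, show 2 * (K - 1 - i) + 1 = 2 * t + 1 by omega, c, c, t1]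
  have r1 : π * ((N : ℝ) - 2 * (i + 1)) ^ 2 / (2 * N) =
      (2 * π * ((1 * (i + 1) ^ 2 : ℕ) : ℝ) / N - π / 2) + ((L - i : ℤ) : ℝ) * (2 * π) := by
    push_cast; field_simp; rw [hN']; ring
  have r2 : π * ((2 * i + 1 + 1 : ℕ) : ℝ) ^ 2 / (2 * N) = 2 * π * ((1 * (i + 1) ^ 2 : ℕ) : ℝ) / N := by
    push_cast; field_simp; ring
  rw [r1, r2, cos_add_int_mul_two_pi, cos_sub_pi_div_two]
  ring

theorem gauss (N : ℕ) (h4 : N % 4 = 3) (hs : Squarefree N) : ∃ g : ℝ, 0 < g ∧ ∀ n : ℕ,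
    ∑ m ∈ range N, (J(m | N) : ℝ) * sin (2 * π * (n * m : ℕ) / N) = J(n | N) * g := by
  have ho : Odd N := Nat.odd_iff.2 (by omega)
  obtain ⟨p1, p2, p3⟩ := P_sqfree N hs ho
  refine ⟨(tau N 1).im, ?_, fun n => ?_⟩
  · rw [jacobiSym.at_neg_one ho, ZMod.χ₄_nat_three_mod_four h4] at p3
    have q1 := congrArg Complex.re p3
    have q2 := congrArg Complex.im p3
    simp [sq] at q1 q2
    have hN : (3 : ℝ) ≤ N := by exact_mod_cast (by omega : 3 ≤ N)
    have q3 : (tau N 1).re = 0 := by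
      by_contra h
      have : (tau N 1).im = 0 := by
        have : (tau N 1).re * (tau N 1).im = 0 := by linarith
        exact (mul_eq_zero.1 this).resolve_left h
      rw [this] at q1
      nlinarith [mul_self_nonneg (tau N 1).re]
    obtain ⟨L, hL⟩ : ∃ L, N = 4 * L + 3 := ⟨N / 4, by omega⟩
    have g1 := G_eq L
    rw [← hL, p2 1 (by simp), q3] at g1
    have s1 := Nat.sqrt_le N
    have s2 := Nat.lt_succ_sqrt N
    have g2 := lower N (N.sqrt + 1) (by omega) (by
      by_contra h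
      have : N - 1 ≤ N.sqrt := by omega
      have := Nat.mul_le_mul this this
      obtain ⟨k, rfl⟩ : ∃ k, N = k + 3 := ⟨N - 3, by omega⟩
      rw [show k + 3 - 1 = k + 2 by omega] at this
      nlinarith) (by
      have := Nat.sqrt_le_self N
      rw [Nat.add_sub_cancel]; nlinarith)
    have s3 : (N : ℝ) < ((N.sqrt + 1 : ℕ) : ℝ) * ((N.sqrt + 1 : ℕ) : ℝ) := by exact_mod_cast s2
    have a0 : (0 : ℝ) < ((N.sqrt + 1 : ℕ) : ℝ) := by positivity
    generalize ((N.sqrt + 1 : ℕ) : ℝ) = a at *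
    generalize (tau N 1).im = y at *
    by_contra hy
    have g3 : -y ≤ N / a := by linarith
    rw [le_div_iff₀ a0] at g3
    rw [q3] at q1
    have g4 : y * y = N := by linarith
    have g5 : -y < a := by nlinarith
    nlinarith
  · have := congrArg Complex.im (p1 n)
    rw [tau, Complex.im_sum] at this
    simpa [E_im] using this

end Pool.Agent.H25.GaussB
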