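import Mathlib
import Pool.Agent.H25.GaussB

namespace Pool.Agent.H25.GaussC

open Finset Real Pool.Agent.H25.GaussA Pool.Agent.H25.GaussB
open scoped NumberTheorySymbols

lemma r_nonneg (b m : ℕ) : 0 ≤ ∑ d ∈ m.divisors, J(d | b) := by
  induction m using Nat.recOnPosPrimePosCoprime with
  | zero => simp
  | one => simp
  | prime_pow p k hp hk =>
    rw [Nat.sum_divisors_prime_pow hp]
    push_cast
    simp only [jacobiSym.pow_left]
    rcases jacobiSym.trichotomy p b with h | h | h <;> rw [h]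
    · exact sum_nonneg (fun i _ => by positivity)
    · exact sum_nonneg (fun i _ => by positivity)
    · rw [neg_one_geom_sum]; split_ifs <;> norm_num
  | coprime x y hx hy h ih1 ih2 =>
    rw [Nat.divisors_mul, Finset.mul_def, sum_image h.mul_injOn_divisors, sum_product]
    push_cast
    simp only [jacobiSym.mul_left]
    rw [← sum_mul_sum]
    exact mul_nonneg ih1 ih2

noncomputable def t (b : ℕ) (ε : ℝ) (n : ℕ) : ℝ := 1 / (n : ℝ) ^ 3 * (J(n | b) * (1 - cos (2 * π * n * ε)))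

noncomputable def V (b : ℕ) (ε : ℝ) : ℝ := ∑' n, t b ε n

lemma s3 : Summable (fun n : ℕ => 1 / (n : ℝ) ^ 3) := summable_one_div_nat_pow.2 (by norm_num)

lemma t_le (b : ℕ) (ε : ℝ) (n : ℕ) : ‖t b ε n‖ ≤ 1 / (n : ℝ) ^ 3 * 2 := by
  have h0 : (0 : ℝ) ≤ 1 / (n : ℝ) ^ 3 := by positivity
  rw [t, norm_mul, Real.norm_of_nonneg h0]
  refine mul_le_mul_of_nonneg_left ?_ h0
  have h1 := cos_le_one (2 * π * n * ε)
  have h2 := neg_one_le_cos (2 * π * n * ε)
  rw [Real.norm_eq_abs, abs_le]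
  rcases jacobiSym.trichotomy n b with h | h | h <;> rw [h] <;> push_cast <;> constructor <;> linarith

lemma V_le (b : ℕ) (ε : ℝ) : V b ε ≤ ∑' n : ℕ, 1 / (n : ℝ) ^ 3 * 2 :=
  (le_abs_self _).trans (tsum_of_norm_bounded (s3.mul_right 2).hasSum (t_le b ε))

lemma conv (b : ℕ) (ε : ℝ) : Summable (fun k : ℕ => 1 / (k : ℝ) ^ 3 * V b (k * ε)) ∧
    0 ≤ ∑' k : ℕ, 1 / (k : ℝ) ^ 3 * V b (k * ε) := by
  have hs : Summable (fun z : ℕ × ℕ => 1 / (z.1 : ℝ) ^ 3 * t b (z.1 * ε) z.2) := by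
    refine Summable.of_norm_bounded (s3.mul_of_nonneg (s3.mul_right 2) (fun n => by positivity)
      (fun n => by positivity)) (fun z => ?_)
    have h0 : (0 : ℝ) ≤ 1 / (z.1 : ℝ) ^ 3 := by positivity
    rw [norm_mul, Real.norm_of_nonneg h0]
    exact mul_le_mul_of_nonneg_left (t_le _ _ _) h0
  have e : ∀ k : ℕ, ∑' n, 1 / (k : ℝ) ^ 3 * t b (k * ε) n = 1 / (k : ℝ) ^ 3 * V b (k * ε) :=
    fun k => tsum_mul_left
  refine ⟨hs.prod.congr e, ?_⟩
  rw [← tsum_congr e, ← hs.tsum_prod]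
  refine (hs.hasSum.tsum_fiberwise (fun z => z.1 * z.2)).nonneg (fun m => ?_)
  rcases eq_or_ne m 0 with rfl | hm
  · refine tsum_nonneg (fun z => le_of_eq ?_)
    rcases mul_eq_zero.1 (show z.1.1 * z.1.2 = 0 from z.2) with h | h <;> simp [h, t]
  · rw [show (fun z : ℕ × ℕ => z.1 * z.2) ⁻¹' {m} = m.divisorsAntidiagonal by ext; simp [hm],
      Finset.tsum_subtype' m.divisorsAntidiagonal
        (fun z : ℕ × ℕ => 1 / (z.1 : ℝ) ^ 3 * t b (z.1 * ε) z.2),
      sum_congr rfl (g := fun z => (J(z.2 | b) : ℝ) * (1 / (m : ℝ) ^ 3 * (1 - cos (2 * π * m * ε))))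
        (fun z hz => by
          rw [← (Nat.mem_divisorsAntidiagonal.1 hz).1, t]
          push_cast
          rw [show 2 * π * z.2 * (z.1 * ε) = 2 * π * (z.1 * z.2) * ε by ring, mul_pow, ← one_div_mul_one_div]
          ring), ← sum_mul, Nat.sum_divisorsAntidiagonal' (fun _ y => (J(y | b) : ℝ))]
    refine mul_nonneg (by exact_mod_cast r_nonneg b m) (mul_nonneg (by positivity) ?_)
    linarith [cos_le_one (2 * π * m * ε)]

lemma pos (b : ℕ) (δ a : ℝ) (hδ : 0 < δ) (h : ∀ ε, 0 ≤ ε → ε ≤ δ → V b ε = a * ε ^ 2) : 0 ≤ a := by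
  obtain ⟨B, hB⟩ : ∃ B, ∀ ε, V b ε ≤ B := ⟨_, V_le b⟩
  have B0 : 0 ≤ B := by simpa [h 0 le_rfl hδ.le] using hB 0
  have key : ∀ R : ℕ, 1 ≤ R → 0 ≤ a * δ ^ 2 * ∑ i ∈ range R, (1 / (i + 1) : ℝ) + B := by
    intro R hR
    have R0 : (0 : ℝ) < R := by exact_mod_cast hR
    obtain ⟨c1, c2⟩ := conv b (δ / R)
    rw [← c1.sum_add_tsum_nat_add (R + 1), sum_range_succ'] at c2
    have e1 : ∑ k ∈ range R, 1 / ((k + 1 : ℕ) : ℝ) ^ 3 * V b ((k + 1 : ℕ) * (δ / R)) =
        (a * δ ^ 2 * ∑ i ∈ range R, (1 / (i + 1) : ℝ)) / R ^ 2 := by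
      rw [mul_sum, sum_div]
      refine sum_congr rfl (fun k hk => ?_)
      have k1 : ((k + 1 : ℕ) : ℝ) ≤ R := by exact_mod_cast mem_range.1 hk
      rw [h _ (by positivity) (by
        rw [← mul_div_assoc, div_le_iff₀ R0]; nlinarith)]
      push_cast; field_simp
    have e2 : ∑' i : ℕ, 1 / ((i + (R + 1) : ℕ) : ℝ) ^ 3 * V b ((i + (R + 1) : ℕ) * (δ / R)) ≤ B / R ^ 2 := by
      refine ((summable_nat_add_iff (R + 1)).2 c1).tsum_le_of_sum_range_le (fun n => ?_)
      have : ∑ i ∈ range n, 1 / ((i + (R + 1) : ℕ) : ℝ) ^ 3 * V b ((i + (R + 1) : ℕ) * (δ / R)) ≤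
          B / R ^ 2 - B / (n + R) ^ 2 := by
        induction n with
        | zero => simp
        | succ n ih =>
          rw [sum_range_succ]
          have n0 : (0 : ℝ) ≤ n := Nat.cast_nonneg n
          have f1 := mul_le_mul_of_nonneg_left (hB (((n + (R + 1) : ℕ) : ℝ) * (δ / R)))
            (by positivity : (0 : ℝ) ≤ 1 / ((n + (R + 1) : ℕ) : ℝ) ^ 3)
          have f2 : 1 / ((n + (R + 1) : ℕ) : ℝ) ^ 3 ≤ 1 / (n + R : ℝ) ^ 2 - 1 / (n + 1 + R : ℝ) ^ 2 := by
            push_cast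
            obtain ⟨y, hy⟩ : ∃ y : ℝ, y = n + R := ⟨_, rfl⟩
            have y0 : 0 < y := by linarith
            rw [show (n + (R + 1) : ℝ) = y + 1 by linarith, show (n + 1 + R : ℝ) = y + 1 by linarith, ← hy,
              div_sub_div _ _ (by positivity) (by positivity), div_le_div_iff₀ (by positivity) (by positivity)]
            have : 0 ≤ y ^ 2 := by positivity
            have : 0 ≤ y ^ 3 := by positivity
            have : 0 ≤ y ^ 4 := by positivity
            nlinarith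
          have f3 := mul_le_mul_of_nonneg_right f2 B0
          push_cast at *
          simp only [div_eq_mul_inv] at *
          linarith
      have : 0 ≤ B / (n + R : ℝ) ^ 2 := by positivity
      linarith
    rw [e1] at c2
    have e3 : 0 ≤ (a * δ ^ 2 * ∑ i ∈ range R, (1 / (i + 1) : ℝ) + B) / R ^ 2 := by
      rw [add_div]; simp at c2 ⊢ e2; linarith
    exact (div_nonneg_iff.1 e3).elim (fun h => h.1) (fun h => by nlinarith [h.2])
  by_contra ha
  have d0 : 0 < -(a * δ ^ 2) := by nlinarith [sq_pos_of_pos hδ]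
  obtain ⟨R, h1, h2⟩ := ((tendsto_sum_range_one_div_nat_succ_atTop.eventually_gt_atTop
    (B / -(a * δ ^ 2))).and (Filter.eventually_ge_atTop 1)).exists
  rw [div_lt_iff₀ d0] at h1
  nlinarith [key R h2]

noncomputable def F (x : ℝ) : ℝ := (2 * π) ^ 3 / 12 * (x ^ 3 - 3 / 2 * x ^ 2 + x / 2)

lemma hs_congr {f g : ℕ → ℝ} {a b : ℝ} (h : HasSum f a) (e1 : ∀ n, g n = f n) (e2 : b = a) :
    HasSum g b := by rw [e2, funext e1]; exact h

lemma hF {x : ℝ} (h0 : 0 ≤ x) (h1 : x ≤ 1) :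
    HasSum (fun n : ℕ => 1 / (n : ℝ) ^ 3 * sin (2 * π * n * x)) (F x) := by
  refine hs_congr (hasSum_one_div_nat_pow_mul_sin one_ne_zero ⟨h0, h1⟩) (fun n => rfl) ?_
  rw [show 2 * 1 + 1 = 3 from rfl]
  simp_rw [Polynomial.bernoulli, Finset.sum_range_succ]
  rw [bernoulli_one, bernoulli_eq_bernoulli'_of_ne_one zero_ne_one, bernoulli'_zero,
    bernoulli_eq_bernoulli'_of_ne_one (by decide : 2 ≠ 1), bernoulli'_two,
    bernoulli_eq_bernoulli'_of_ne_one (by decide : 3 ≠ 1), bernoulli'_three]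
  simp [F, Nat.factorial, Nat.choose]
  ring

lemma hD {x ε : ℝ} (h0 : 0 ≤ ε) (h1 : ε ≤ x) (h2 : x + ε ≤ 1 / 2) :
    HasSum (fun n : ℕ => 1 / (n : ℝ) ^ 3 * ((1 - (-1) ^ n) * (1 - cos (2 * π * n * ε))) *
      sin (2 * π * n * x)) (π ^ 3 * ε ^ 2) := by
  have a1 := hF (x := x + ε) (by linarith) (by linarith)
  have a2 := hF (x := x - ε) (by linarith) (by linarith)
  have a3 := hF (x := x) (by linarith) (by linarith)
  have b1 := hF (x := x + ε + 1 / 2) (by linarith) (by linarith)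
  have b2 := hF (x := x - ε + 1 / 2) (by linarith) (by linarith)
  have b3 := hF (x := x + 1 / 2) (by linarith) (by linarith)
  have e : ∀ (n : ℕ) (y : ℝ), sin (2 * π * n * (y + 1 / 2)) = (-1) ^ n * sin (2 * π * n * y) := by
    intro n y
    rw [show 2 * π * n * (y + 1 / 2) = 2 * π * n * y + n * π by ring, sin_add_nat_mul_pi]
  refine hs_congr ((((b1.add b2).sub (b3.mul_left 2)).sub
    ((a1.add a2).sub (a3.mul_left 2))).mul_left (1 / 2)) (fun n => ?_) ?_
  · rw [e, e, e, mul_add (2 * π * n), mul_sub (2 * π * n), sin_add, sin_sub]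
    ring
  · simp only [F]; ring

def S (N : ℕ) : ℤ := ∑ i ∈ range (N / 2), J((i + 1 : ℕ) | N)

lemma J_refl {N : ℕ} (h4 : N % 4 = 3) {x y : ℕ} (h : x + y = N) : J(x | N) = -J(y | N) := by
  have ho : Odd N := Nat.odd_iff.2 (by omega)
  have e : J(x | N) = J(-y | N) := jacobiSym.mod_left' (by
    rw [show (x : ℤ) = -y + N by rw [← h]; push_cast; ring, Int.add_emod_right])
  rw [e, jacobiSym.neg _ ho, ZMod.χ₄_nat_three_mod_four h4]; ring

theorem S_sqfree (N : ℕ) (h4 : N % 4 = 3) (hs : Squarefree N) : 0 ≤ S N := by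
  obtain ⟨g, g0, hg⟩ := gauss N h4 hs
  obtain ⟨K, hK⟩ : ∃ K, N = 2 * K + 1 := ⟨N / 2, by omega⟩
  have hK2 : N / 2 = K := by omega
  have N0 : (0 : ℝ) < N := by exact_mod_cast (by omega : 0 < N)
  have hK' : (N : ℝ) = 2 * K + 1 := by exact_mod_cast hK
  have half : ∀ n : ℕ, 2 * ∑ i ∈ range K, (J((i + 1 : ℕ) | N) : ℝ) *
      sin (2 * π * n * (((i + 1 : ℕ) : ℝ) / N)) = J(n | N) * g := by
    intro n
    have e := sum_half (fun m => (J(m | N) : ℝ) * sin (2 * π * (n * m : ℕ) / N)) K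
    rw [← hK, hg] at e
    rw [e, mul_sum]
    simp only [mul_zero, Nat.cast_zero, zero_div, sin_zero, zero_add]
    refine sum_congr rfl (fun i hi => ?_)
    have hi' := mem_range.1 hi
    have e2 : ((2 * K - i : ℕ) : ℝ) = N - (i + 1) := by
      rw [Nat.cast_sub (by omega), hK']; push_cast; ring
    rw [J_refl h4 (x := 2 * K - i) (y := i + 1) (by omega), Nat.cast_mul n (2 * K - i), e2,
      show 2 * π * (n * ((N : ℝ) - (i + 1))) / N = n * (2 * π) - 2 * π * n * ((i + 1) / N) by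
        field_simp, sin_nat_mul_two_pi_sub]
    push_cast
    rw [show 2 * π * (n * ((i : ℝ) + 1)) / N = 2 * π * n * ((i + 1) / N) by ring]
    ring
  have key := pos (2 * N) (1 / (2 * N)) (π ^ 3 * S N / g) (by positivity) (fun ε e0 e1 => by
    have h1 := hasSum_sum (s := range K) (fun i hi => (hD (x := ((i + 1 : ℕ) : ℝ) / N) e0 (by
      refine e1.trans ?_
      rw [div_le_div_iff₀ (by positivity) N0]
      have : (0 : ℝ) ≤ i := Nat.cast_nonneg i
      push_cast; nlinarith) (by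
      have : ((i + 1 : ℕ) : ℝ) ≤ K := by exact_mod_cast mem_range.1 hi
      have h3 : ((i + 1 : ℕ) : ℝ) / N + 1 / (2 * N) ≤ 1 / 2 := by
        rw [div_add_div _ _ N0.ne' (by positivity), div_le_div_iff₀ (by positivity) (by norm_num)]
        nlinarith
      linarith)).mul_left (J((i + 1 : ℕ) | N) : ℝ))
    refine HasSum.tsum_eq (hs_congr (h1.mul_left (1 / g)) (fun n => ?_) ?_)
    · have e3 : ((J(n | 2) : ℤ) : ℝ) * 2 = 1 - (-1) ^ n := by
        rcases Nat.even_or_odd' n with ⟨k, rfl | rfl⟩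
        · rw [jacobiSym.eq_zero_iff.2 ⟨by norm_num, by
            push_cast; rw [Int.gcd_mul_right_left]; decide⟩]
          simp
        · rw [J_mod (b := 1) (by unfold Nat.ModEq; omega)]
          simp [pow_succ]; norm_num
      rw [t, jacobiSym.mul_right' _ (by norm_num) (by omega), ← e3,
        sum_congr rfl (g := fun i => (1 / (n : ℝ) ^ 3 * (J(n | 2) * (1 - cos (2 * π * n * ε)))) *
          (2 * ((J((i + 1 : ℕ) | N) : ℝ) * sin (2 * π * n * (((i + 1 : ℕ) : ℝ) / N)))))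
          (fun i _ => by ring), ← mul_sum, ← mul_sum, half]
      push_cast; field_simp
    · rw [← sum_mul, S, hK2]; push_cast; ring)
  have p3 : 0 < π ^ 3 := by have := pi_pos; positivity
  have := (mul_nonneg_iff_of_pos_left p3).1 ((div_nonneg_iff.1 key).elim (fun h => h.1)
    (fun h => by linarith [h.2]))
  exact_mod_cast this

def H (M L : ℕ) : ℤ := ∑ i ∈ range L, J(i | M)

lemma S_eq {N : ℕ} (h4 : N % 4 = 3) : S N = H N (N / 2 + 1) := by
  rw [S, H, sum_range_succ', Nat.cast_zero, jacobiSym.zero_left (by omega), add_zero]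

lemma H_per {M : ℕ} (h4 : M % 4 = 3) (k r : ℕ) : H M (M * k + r) = H M r := by
  have h0 : H M M = 0 := by
    obtain ⟨K, hK⟩ : ∃ K, M = K + 1 := ⟨M - 1, by omega⟩
    have e := sum_range_reflect (fun i => J((i + 1 : ℕ) | M)) K
    rw [sum_congr rfl (g := fun i => -J((i + 1 : ℕ) | M)) (fun i hi =>
      J_refl h4 (by have := mem_range.1 hi; omega)), sum_neg_distrib] at e
    rw [H]
    nth_rewrite 1 [hK]
    rw [sum_range_succ', Nat.cast_zero, jacobiSym.zero_left (by omega)]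
    omega
  induction k with
  | zero => simp
  | succ k ih =>
    rw [show M * (k + 1) + r = M + (M * k + r) by ring, H, sum_range_add, ← H, h0, zero_add, ← ih, H]
    exact sum_congr rfl (fun i _ => J_mod (Nat.add_mod_left _ _))

theorem S_nonneg (N : ℕ) : N % 4 = 3 → 0 ≤ S N := by
  induction N using Nat.strong_induction_on with
  | _ N ih =>
  intro h4
  by_cases hs : Squarefree N
  · exact S_sqfree N h4 hs
  rw [Nat.squarefree_iff_prime_squarefree] at hs
  push Not at hs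
  obtain ⟨q, hq, M, hM⟩ := hs
  have ho : Odd (q * q * M) := hM ▸ Nat.odd_iff.2 (by omega)
  obtain ⟨a, ha⟩ := (Nat.odd_mul.1 (Nat.odd_mul.1 ho).1).1
  obtain ⟨b, hb⟩ := (Nat.odd_mul.1 ho).2
  have q2 := hq.two_le
  have e1 : N = 4 * ((a * a + a) * M) + M := by rw [hM, ha]; ring
  have m4 : M % 4 = 3 := by omega
  have i1 := ih M (by
    have : 1 * M ≤ (a * a + a) * M := Nat.mul_le_mul_right _ (by omega)
    omega) m4
  have e2 : N / 2 + 1 = M * (2 * (a * a + a)) + (M / 2 + 1) := by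
    rw [show M * (2 * (a * a + a)) = 2 * ((a * a + a) * M) by ring]; omega
  have e3 : ∑ i ∈ (range (N / 2 + 1)).filter (q ∣ ·), J(i | M) =
      ∑ j ∈ range (M * a + (M / 2 + 1)), J(q | M) * J(j | M) := by
    have f : ∀ j, q * j < N / 2 + 1 ↔ j < M * a + (M / 2 + 1) := by
      intro j
      have f1 : q * (2 * j) ≤ q * (q * M) ↔ 2 * j ≤ q * M := Nat.mul_le_mul_left_iff (by omega)
      have f2 : q * M = 2 * (M * a) + M := by rw [ha]; ring
      rw [show q * (2 * j) = 2 * (q * j) by ring, ← mul_assoc q q, ← hM] at f1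
      omega
    symm
    refine sum_nbij' (fun j => q * j) (fun i => i / q) (fun j hj => ?_) (fun i hi => ?_)
      (fun j _ => Nat.mul_div_cancel_left _ (by omega))
      (fun i hi => Nat.mul_div_cancel' (mem_filter.1 hi).2) (fun j _ => ?_)
    · exact mem_filter.2 ⟨mem_range.2 ((f j).2 (mem_range.1 hj)), Dvd.intro _ rfl⟩
    · refine mem_range.2 ((f _).1 ?_)
      rw [Nat.mul_div_cancel' (mem_filter.1 hi).2]
      exact mem_range.1 (mem_filter.1 hi).1
    · push_cast; rw [jacobiSym.mul_left]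
  have e4 : S N = H M (N / 2 + 1) - ∑ i ∈ (range (N / 2 + 1)).filter (q ∣ ·), J(i | M) := by
    rw [S_eq h4, H, H, sum_filter, ← sum_sub_distrib]
    refine sum_congr rfl (fun i _ => ?_)
    rw [hM, jacobiSym.mul_right' _ (by positivity) (by omega), jacobiSym.mul_right' _ (by omega) (by omega)]
    split_ifs with h
    · rw [jacobiSym.eq_zero_iff.2 ⟨by omega, by
        rw [Int.gcd_natCast_natCast, Nat.gcd_eq_right h]; omega⟩]
      simp
    · rw [← sq, jacobiSym.sq_one (by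
        rw [Int.gcd_natCast_natCast]; exact (hq.coprime_iff_not_dvd.2 h).symm)]
      simp
  rw [e4, e3, ← mul_sum, ← H, e2, H_per m4, H_per m4, ← S_eq m4]
  rcases jacobiSym.trichotomy q M with h | h | h <;> rw [h] <;> omega

end Pool.Agent.H25.GaussC
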