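import Mathlib

set_option autoImplicit false

namespace Pool.Agent.H25.H7

def L : Finset (Fin 8 × Fin 8 × Fin 8) :=
  {(1, 2, 4), (2, 3, 5), (3, 4, 6), (0, 4, 5), (1, 5, 6), (0, 2, 6), (0, 2, 3), (1, 3, 4),
    (2, 4, 5), (3, 5, 6), (0, 4, 6), (0, 1, 5), (1, 2, 6)}

def poly (a b c d e f g : ℕ) : ℕ :=
  b * c * e + c * d * f + d * e * g + a * e * f + b * f * g + a * c * g + a * c * d + b * d * e +
    c * e * f + d * f * g + a * e * g + a * b * f + b * c * g

lemma chk : ∀ a ∈ List.range 10, ∀ b ∈ List.range (10 - a), ∀ c ∈ List.range (10 - a - b),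
    ∀ d ∈ List.range (10 - a - b - c), ∀ e ∈ List.range (10 - a - b - c - d),
    ∀ f ∈ List.range (10 - a - b - c - d - e), ∀ g ∈ List.range (10 - a - b - c - d - e - f),
    poly a b c d e f g ≤ 27 := by decide +kernel

lemma sumL (w : Fin 8 → ℕ) : ∑ t ∈ L, w t.1 * w t.2.1 * w t.2.2 =
    poly (w 0) (w 1) (w 2) (w 3) (w 4) (w 5) (w 6) := by
  simp [L, poly]
  ring

lemma L_lt : ∀ t ∈ L, t.1 < t.2.1 ∧ t.2.1 < t.2.2 := by decide +kernel

variable {V : Type} [DecidableEq V] (c : V → Fin 8)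

def P (S : Finset V) : Finset (V × V × V) :=
  (S ×ˢ S ×ˢ S).filter fun p => (c p.1, c p.2.1, c p.2.2) ∈ L

def wt (S : Finset V) (i : Fin 8) : ℕ := (S.filter fun x => c x = i).card

lemma card_P (S : Finset V) :
    (P c S).card = ∑ t ∈ L, wt c S t.1 * wt c S t.2.1 * wt c S t.2.2 := by
  rw [Finset.card_eq_sum_card_fiberwise (f := fun p : V × V × V => (c p.1, c p.2.1, c p.2.2))
    (s := P c S) (t := L) (fun p hp => (Finset.mem_filter.1 hp).2)]
  refine Finset.sum_congr rfl fun t ht => ?_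
  rw [wt, wt, wt, mul_assoc, ← Finset.card_product, ← Finset.card_product]
  congr 1
  ext p
  simp only [P, Finset.mem_filter, Finset.mem_product, Prod.ext_iff]
  constructor
  · rintro ⟨⟨⟨h1, h2, h3⟩, -⟩, h4, h5, h6⟩
    exact ⟨⟨h1, h4⟩, ⟨h2, h5⟩, h3, h6⟩
  · rintro ⟨⟨h1, h4⟩, ⟨h2, h5⟩, h3, h6⟩
    exact ⟨⟨⟨h1, h2, h3⟩, by rw [h4, h5, h6]; exact ht⟩, h4, h5, h6⟩

def f (p : V × V × V) : Finset V := {p.1, p.2.1, p.2.2}

lemma P_lt {S : Finset V} {p : V × V × V} (hp : p ∈ P c S) :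
    c p.1 < c p.2.1 ∧ c p.2.1 < c p.2.2 := L_lt _ (Finset.mem_filter.1 hp).2

lemma f_inj (S : Finset V) : Set.InjOn f (P c S : Set (V × V × V)) := by
  rintro ⟨x, y, z⟩ hp ⟨x', y', z'⟩ hq h
  have h1 := P_lt c hp
  have h2 := P_lt c hq
  simp only [f] at h h1 h2
  have a1 : x ∈ ({x', y', z'} : Finset V) := h ▸ by simp
  have a2 : y ∈ ({x', y', z'} : Finset V) := h ▸ by simp
  have a3 : z ∈ ({x', y', z'} : Finset V) := h ▸ by simp
  simp only [Finset.mem_insert, Finset.mem_singleton] at a1 a2 a3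
  rcases a1 with rfl | rfl | rfl <;> rcases a2 with rfl | rfl | rfl <;>
    rcases a3 with rfl | rfl | rfl <;> first | rfl | omega

lemma f_card {S : Finset V} {p : V × V × V} (hp : p ∈ P c S) : (f p).card = 3 := by
  have h := P_lt c hp
  rw [Finset.card_eq_three]
  refine ⟨_, _, _, ?_, ?_, ?_, rfl⟩ <;> intro e <;> rw [e] at h <;> omega

lemma upper [Fintype V] (S : Finset V) (hS : S.card = 9) :
    (((P c Finset.univ).image f).filter (· ⊆ S)).card ≤ 27 := by
  have h1 : ((P c Finset.univ).image f).filter (· ⊆ S) ⊆ (P c S).image f := by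
    intro e he
    obtain ⟨he1, he2⟩ := Finset.mem_filter.1 he
    obtain ⟨p, hp, rfl⟩ := Finset.mem_image.1 he1
    refine Finset.mem_image_of_mem _ (Finset.mem_filter.2 ⟨?_, (Finset.mem_filter.1 hp).2⟩)
    simp only [Finset.mem_product]
    exact ⟨he2 (by simp [f]), he2 (by simp [f]), he2 (by simp [f])⟩
  refine (Finset.card_le_card h1).trans (Finset.card_image_le.trans ?_)
  rw [card_P, sumL]
  have h2 : S.card = ∑ i, wt c S i :=
    Finset.card_eq_sum_card_fiberwise (f := c) (t := Finset.univ) fun _ _ => Finset.mem_univ _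
  rw [Fin.sum_univ_eight, hS] at h2
  apply chk <;> rw [List.mem_range] <;> omega

end Pool.Agent.H25.H7
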