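import Mathlib

namespace Pool.Agent.H25.Icube1

open Finset

lemma blich {ι : Type} [DecidableEq ι] {n : ℕ} (F : Finset ι) (z : ι → Fin n → ℚ) (D : ℚ) (hD : 0 ≤ D)
    (h : ∀ i ∈ F, ∀ j ∈ F, i ≠ j → 2 * D ≤ ∑ t, (z i t - z j t) ^ 2) :
    ∑ i ∈ F, (D - ∑ t, z i t ^ 2) ≤ D := by
  rcases F.eq_empty_or_nonempty with rfl | hF
  · simpa using hD
  have s0 : (0 : ℚ) < #F := by exact_mod_cast hF.card_pos
  have a1 : ∀ i ∈ F, (#F - 1) * (2 * D) ≤ ∑ j ∈ F, ∑ t, (z i t - z j t) ^ 2 := by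
    intro i hi
    rw [← add_sum_erase F _ hi]
    have := card_nsmul_le_sum (F.erase i) (fun j => ∑ t, (z i t - z j t) ^ 2) (2 * D)
      (fun j hj => h i hi j (mem_of_mem_erase hj) (ne_of_mem_erase hj).symm)
    rw [card_erase_of_mem hi, nsmul_eq_mul, Nat.cast_sub hF.card_pos, Nat.cast_one] at this
    simpa using this
  have a2 := card_nsmul_le_sum F _ _ a1
  have a3 : ∑ i ∈ F, ∑ j ∈ F, ∑ t, (z i t - z j t) ^ 2 ≤ 2 * #F * ∑ i ∈ F, ∑ t, z i t ^ 2 := by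
    rw [sum_congr rfl (fun i _ => sum_comm), sum_comm, sum_comm (s := F), mul_sum]
    refine sum_le_sum (fun t _ => ?_)
    have e : ∑ i ∈ F, ∑ j ∈ F, (z i t - z j t) ^ 2 =
        2 * #F * ∑ i ∈ F, z i t ^ 2 - 2 * (∑ i ∈ F, z i t) ^ 2 := by
      simp only [sub_sq, sum_add_distrib, sum_sub_distrib, sum_const, nsmul_eq_mul, ← mul_sum, ← sum_mul]
      ring
    rw [e]; nlinarith [sq_nonneg (∑ i ∈ F, z i t)]
  rw [nsmul_eq_mul] at a2
  rw [sum_sub_distrib, sum_const, nsmul_eq_mul]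
  have a4 : (#F : ℚ) * ((#F - 1) * D) ≤ #F * ∑ i ∈ F, ∑ t, z i t ^ 2 := by linarith
  have := le_of_mul_le_mul_left a4 s0
  linarith

def G (c : ℤ) : ℕ → ℤ → ℤ
  | 0, s => max 0 (c - 12 * s)
  | n + 1, s => G c n s + 2 * G c n (s + 1) + 2 * G c n (s + 4)

lemma G_eq (c : ℤ) (n : ℕ) : ∀ s : ℤ,
    ∑ a : Fin n → Fin 5, max 0 (c - 12 * (s + ∑ t, ((a t : ℤ) - 2) ^ 2)) = G c n s := by
  induction n with
  | zero => intro s; simp [G]
  | succ n ih =>
    intro s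
    rw [← (Fin.consEquiv (fun _ => Fin 5)).sum_comp, Fintype.sum_prod_type, G]
    simp only [Fin.consEquiv, Equiv.coe_fn_mk, Fin.sum_univ_succ (n := n), Fin.cons_zero, Fin.cons_succ,
      ← add_assoc, ih]
    simp [Fin.sum_univ_succ]
    ring

lemma G_big (n : ℕ) (h1 : 1 ≤ n) (h6 : n ≤ 6) : 108 * 3 ^ n < G (108 - n) n 0 := by
  interval_cases n <;> decide +kernel

lemma avg {n : ℕ} (p : ℕ) (t : Fin n) (h : Fin p → ℚ) (κ : ℚ) (e : ∑ ρ, h ρ = p * κ) :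
    ∑ r : Fin n → Fin p, h (r t) = p ^ n * κ := by
  have := prod_univ_sum (fun _ : Fin n => (univ : Finset (Fin p))) (fun i j => if i = t then h j else 1)
  rw [prod_congr rfl (g := fun i => (p : ℚ) * if i = t then κ else 1) (fun i _ => by
    split_ifs <;> simp [e]), prod_mul_distrib] at this
  simpa using this.symm

lemma sq_sum (p : ℕ) (b : ℚ) : ∑ ρ : Fin p, (b + 2 * (ρ : ℕ)) ^ 2 =
    p * ((b + p - 1) ^ 2 + (p ^ 2 - 1) / 3) := by
  rw [Fin.sum_univ_eq_sum_range (fun ρ => (b + 2 * (ρ : ℚ)) ^ 2) p]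
  induction p with
  | zero => simp
  | succ p ih => rw [sum_range_succ, ih]; push_cast; ring

theorem pigeon (n p : ℕ) [NeZero p] (h1 : 1 ≤ n) (h6 : n ≤ 6)
    (c : (Fin n → ℤ) → Fin n → ZMod p) :
    ∃ y y' : Fin n → ℤ, y ≠ y' ∧ c y = c y' ∧ ∑ t, (y t - y' t) ^ 2 < 2 * p ^ 2 := by
  by_contra hc
  push Not at hc
  have p0 : (0 : ℤ) < p := by exact_mod_cast NeZero.pos p
  have p0' : (0 : ℚ) < p := by exact_mod_cast p0
  let I := (Fin n → Fin 5) × (Fin n → Fin p)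
  let y : I → Fin n → ℤ := fun i t => p * ((i.1 t : ℤ) - 2) + i.2 t
  let S : Finset (Fin n → Fin 5) := univ.filter (fun a => (0 : ℤ) ≤ 108 - n - 12 * (0 + ∑ t, ((a t : ℤ) - 2) ^ 2))
  let cl : I → (Fin n → ZMod 3) × (Fin n → ZMod p) :=
    fun i => (fun t => (y i t : ZMod 3), c (fun t => y i t / 3))
  let z : I → Fin n → ℚ := fun i t => 2 * y i t - p + 1
  have yinj : ∀ i j, y i = y j → i = j := by
    intro i j e
    have f : ∀ t, i.1 t = j.1 t ∧ i.2 t = j.2 t := by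
      intro t
      have e1 := congrFun e t
      simp only [y] at e1
      have a1 : ((i.2 t : ℕ) : ℤ) < p := by exact_mod_cast (i.2 t).2
      have a2 : ((j.2 t : ℕ) : ℤ) < p := by exact_mod_cast (j.2 t).2
      have a3 : (0 : ℤ) ≤ (i.2 t : ℕ) := by positivity
      have a4 : (0 : ℤ) ≤ (j.2 t : ℕ) := by positivity
      have a5 : ((i.1 t : ℕ) : ℤ) = (j.1 t : ℕ) := by
        by_contra hne
        rcases lt_or_gt_of_ne hne with h | h <;> nlinarith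
      rw [a5] at e1
      exact ⟨Fin.ext (by exact_mod_cast a5), Fin.ext (by omega)⟩
    exact Prod.ext (funext fun t => (f t).1) (funext fun t => (f t).2)
  have fib : ∀ b, ∑ i ∈ (S ×ˢ univ).filter (fun i => cl i = b), (36 * p ^ 2 - ∑ t, z i t ^ 2) ≤
      (36 * p ^ 2 : ℚ) := by
    intro b
    refine blich _ z _ (by positivity) (fun i hi j hj hij => ?_)
    have e := (mem_filter.1 hi).2.trans (mem_filter.1 hj).2.symm
    have e1 : ∀ t, y i t % 3 = y j t % 3 := fun t =>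
      (ZMod.intCast_eq_intCast_iff' _ _ 3).1 (congrFun (congrArg Prod.fst e) t)
    have e2 := hc (fun t => y i t / 3) (fun t => y j t / 3) (fun h => hij (yinj _ _ (funext fun t => by
      have : y i t / 3 = y j t / 3 := congrFun h t
      have := e1 t
      omega))) (congrArg Prod.snd e)
    have e3 : (2 * p ^ 2 : ℚ) ≤ ∑ t, (((y i t / 3 : ℤ) : ℚ) - ((y j t / 3 : ℤ) : ℚ)) ^ 2 := by
      exact_mod_cast e2
    rw [sum_congr rfl (g := fun t => 36 * (((y i t / 3 : ℤ) : ℚ) - ((y j t / 3 : ℤ) : ℚ)) ^ 2) (fun t _ => by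
      have : y i t - y j t = 3 * (y i t / 3 - y j t / 3) := by have := e1 t; omega
      have : (y i t : ℚ) - y j t = 3 * (((y i t / 3 : ℤ) : ℚ) - ((y j t / 3 : ℤ) : ℚ)) := by
        exact_mod_cast this
      simp only [z]
      rw [show (2 * y i t - p + 1 - (2 * y j t - p + 1) : ℚ) = 2 * (y i t - y j t) by ring, this]
      ring), ← mul_sum]
    linarith
  have tot := sum_le_card_nsmul univ _ _ (fun b _ => fib b)
  rw [sum_fiberwise, sum_product] at tot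
  have low : ∀ a ∈ S, (p : ℚ) ^ n * p ^ 2 / 3 * ((108 - n - 12 * (0 + ∑ t, ((a t : ℤ) - 2) ^ 2) : ℤ) : ℚ) ≤
      ∑ r : Fin n → Fin p, (36 * p ^ 2 - ∑ t, z (a, r) t ^ 2) := by
    intro a _
    have k : ∀ t, ∑ r : Fin n → Fin p, z (a, r) t ^ 2 = (p : ℚ) ^ n *
        (4 * p ^ 2 * ((a t : ℕ) - 2) ^ 2 + (p ^ 2 - 1) / 3) := fun t => by
      rw [← avg p t (fun ρ => (2 * p * ((a t : ℕ) - 2) - p + 1 + 2 * (ρ : ℕ) : ℚ) ^ 2) _
        (by rw [sq_sum]; ring)]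
      refine sum_congr rfl (fun r _ => ?_)
      simp only [z, y]; push_cast; ring
    rw [sum_sub_distrib, sum_comm]
    simp only [k, sum_const, card_univ, Fintype.card_fun, Fintype.card_fin, nsmul_eq_mul]
    rw [← mul_sum, sum_add_distrib, ← mul_sum]
    simp only [sum_const, card_univ, Fintype.card_fin, nsmul_eq_mul]
    push_cast
    have : (0 : ℚ) ≤ p ^ n * n := by positivity
    nlinarith
  have l2 := (sum_le_sum low).trans tot
  rw [← mul_sum, ← Int.cast_sum] at l2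
  have l3 : ∑ a ∈ S, (108 - n - 12 * (0 + ∑ t, ((a t : ℤ) - 2) ^ 2) : ℤ) = G (108 - n) n 0 := by
    rw [← G_eq, sum_filter]
    exact sum_congr rfl (fun a _ => by split_ifs <;> omega)
  have l4 : (108 * 3 ^ n : ℚ) < (G (108 - n) n 0 : ℤ) := by exact_mod_cast G_big n h1 h6
  rw [l3] at l2
  simp only [card_univ, Fintype.card_prod, Fintype.card_fun, Fintype.card_fin, ZMod.card,
    nsmul_eq_mul] at l2
  push_cast at l2
  have l5 : (0 : ℚ) < p ^ n * p ^ 2 / 3 := by positivity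
  nlinarith [mul_lt_mul_of_pos_left l4 l5]

theorem short (n p : ℕ) (hp : p.Prime) (h6 : n ≤ 6) (x : Fin n → ℤ) (i0 : Fin n)
    (hx : (p : ℤ) ^ 2 ∣ x ⬝ᵥ x) (h0 : ¬ (p : ℤ) ∣ x i0) :
    ∃ (c : ℤ) (m : Fin n → ℤ), (p : ℤ) ∣ m ⬝ᵥ x ∧
      (c • x + (p : ℤ) • m) ⬝ᵥ (c • x + (p : ℤ) • m) = p ^ 2 := by
  have := Fact.mk hp
  have p0 : (0 : ℤ) < p := by exact_mod_cast hp.pos
  obtain ⟨y, y', h1, h2, h3⟩ := pigeon n p (Fin.pos i0) h6 (fun y t =>
    if t = i0 then ((y ⬝ᵥ x / p : ℤ) : ZMod p) else ((y t * x i0 - y i0 * x t : ℤ) : ZMod p))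
  obtain ⟨a, b, hab⟩ : IsCoprime (x i0) p :=
    ((Int.prime_iff_natAbs_prime.2 (by simpa using hp)).coprime_iff_not_dvd.2 h0).symm
  have d : ∀ t, (p : ℤ) ∣ (y t - y' t) - (y i0 - y' i0) * a * x t := by
    intro t
    have e : (p : ℤ) ∣ (y t * x i0 - y i0 * x t) - (y' t * x i0 - y' i0 * x t) := by
      by_cases h : t = i0
      · subst h; simp
      · have := congrFun h2 t
        simp only [if_neg h] at this
        exact (ZMod.intCast_eq_intCast_iff_dvd_sub _ _ _).1 this.symm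
    obtain ⟨k, hk⟩ := e
    exact ⟨(y t - y' t) * b + a * k, by linear_combination a * hk - (y t - y' t) * hab⟩
  choose m hm using d
  obtain ⟨c, hc⟩ : ∃ c, c = (y i0 - y' i0) * a := ⟨_, rfl⟩
  have e : y - y' = c • x + (p : ℤ) • m := funext fun t => by
    simp only [Pi.sub_apply, Pi.add_apply, Pi.smul_apply, smul_eq_mul]
    linear_combination hm t - x t * hc
  obtain ⟨q, hq⟩ := hx
  have e1 : y ⬝ᵥ x - y' ⬝ᵥ x = c * (p ^ 2 * q) + p * (m ⬝ᵥ x) := by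
    rw [← sub_dotProduct, e, add_dotProduct, smul_dotProduct, smul_dotProduct, hq]; rfl
  have e2 : (p : ℤ) ∣ y ⬝ᵥ x / p - y' ⬝ᵥ x / p := by
    have := congrFun h2 i0
    simp only [if_true] at this
    exact (ZMod.intCast_eq_intCast_iff_dvd_sub _ _ _).1 this.symm
  have e3 : y ⬝ᵥ x / p = y' ⬝ᵥ x / p + (c * p * q + m ⬝ᵥ x) := by
    rw [show y ⬝ᵥ x = y' ⬝ᵥ x + p * (c * p * q + m ⬝ᵥ x) by linear_combination e1,
      Int.add_mul_ediv_left _ _ p0.ne']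
  have e4 : (p : ℤ) ∣ m ⬝ᵥ x := by
    obtain ⟨k, hk⟩ := e2
    exact ⟨k - c * q, by linear_combination hk - e3⟩
  refine ⟨c, m, e4, ?_⟩
  obtain ⟨k, hk⟩ := e4
  have e5 : (c • x + (p : ℤ) • m) ⬝ᵥ (c • x + (p : ℤ) • m) = p ^ 2 * (c * c * q + 2 * c * k + m ⬝ᵥ m) := by
    simp only [add_dotProduct, dotProduct_add, smul_dotProduct, dotProduct_smul, smul_eq_mul,
      dotProduct_comm x m, hq, hk]
    ring
  have e6 : (y - y') ⬝ᵥ (y - y') < 2 * p ^ 2 := by simpa [dotProduct, sq] using h3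
  have e7 : (y - y') ⬝ᵥ (y - y') ≠ 0 := fun h => h1 (sub_eq_zero.1 (dotProduct_self_eq_zero.1 h))
  have e8 : 0 ≤ (y - y') ⬝ᵥ (y - y') := sum_nonneg (fun t _ => mul_self_nonneg _)
  rw [e, e5] at e6 e7 e8
  rw [e5]
  generalize c * c * q + 2 * c * k + m ⬝ᵥ m = w at *
  have p2 : (0 : ℤ) < p ^ 2 := by positivity
  have w1 : w < 2 := by nlinarith
  have w2 : 0 ≤ w := by nlinarith
  have w3 : w ≠ 0 := by rintro rfl; simp at e7
  rw [show w = 1 by omega, mul_one]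

end Pool.Agent.H25.Icube1
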