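import Mathlib
import Pool.Agent.H25.Icube1

namespace Pool.Agent.H25.Icube2

open Finset Matrix Pool.Agent.H25.Icube1

abbrev V (n : ℕ) := Fin n → ℚ

def Zs : Subring ℚ := (Int.castRingHom ℚ).range

lemma memZ {q : ℚ} : q ∈ Zs ↔ ∃ z : ℤ, (z : ℚ) = q := Iff.rfl

lemma intZ (z : ℤ) : (z : ℚ) ∈ Zs := ⟨z, rfl⟩

def Zn (n : ℕ) : Submodule ℤ (V n) where
  carrier := {m | ∀ i, m i ∈ Zs}
  add_mem' := fun ha hb i => add_mem (ha i) (hb i)
  zero_mem' := fun _ => zero_mem _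
  smul_mem' := fun c _ h i => zsmul_mem (h i) c

lemma Zn_fg (n : ℕ) : (Zn n).FG := by
  let f : (Fin n → ℤ) →ₗ[ℤ] V n :=
    { toFun := fun x i => (x i : ℚ)
      map_add' := by intros; ext; simp
      map_smul' := by intros; ext; simp }
  refine (Module.Finite.fg_top.map f).of_le (fun m hm => ?_)
  choose z hz using hm
  exact ⟨z, trivial, funext hz⟩

lemma dotZ {n : ℕ} {x y : V n} (hx : x ∈ Zn n) (hy : y ∈ Zn n) : x ⬝ᵥ y ∈ Zs :=
  sum_mem (fun i _ => mul_mem (hx i) (hy i))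

def Integ {n : ℕ} (L : Submodule ℤ (V n)) : Prop := ∀ v ∈ L, ∀ w ∈ L, v ⬝ᵥ w ∈ Zs

def Good {n : ℕ} (L : Submodule ℤ (V n)) : Prop :=
  ∃ U : Matrix (Fin n) (Fin n) ℚ, U * Uᵀ = 1 ∧ ∀ v ∈ L, U *ᵥ v ∈ Zn n

lemma iso {n : ℕ} {U : Matrix (Fin n) (Fin n) ℚ} (h : U * Uᵀ = 1) (x y : V n) :
    (U *ᵥ x) ⬝ᵥ (U *ᵥ y) = x ⬝ᵥ y := by
  rw [dotProduct_mulVec, ← mulVec_transpose, mulVec_mulVec, mul_eq_one_comm.1 h, one_mulVec]

lemma refl {n : ℕ} (u e : V n) (h : u ⬝ᵥ u = e ⬝ᵥ e) : ∃ R : V n →ₗ[ℚ] V n,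
    (∀ x y, R x ⬝ᵥ y = x ⬝ᵥ R y) ∧ (∀ x, R (R x) = x) ∧ R u = e := by
  by_cases h0 : u = e
  · exact ⟨LinearMap.id, fun _ _ => rfl, fun _ => rfl, h0⟩
  obtain ⟨d, hd⟩ : ∃ d, d = u - e := ⟨_, rfl⟩
  have d0 : d ⬝ᵥ d ≠ 0 := fun h => h0 (sub_eq_zero.1 (hd ▸ dotProduct_self_eq_zero.1 h))
  refine ⟨{ toFun := fun x => x - (2 * (d ⬝ᵥ x) / (d ⬝ᵥ d)) • d
            map_add' := fun x y => by rw [dotProduct_add, mul_add, add_div, add_smul]; abel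
            map_smul' := fun c x => by
              rw [dotProduct_smul, smul_eq_mul, RingHom.id_apply, smul_sub, smul_smul]
              congr 2; ring }, fun x y => ?_, fun x => ?_, ?_⟩
  · simp only [LinearMap.coe_mk, AddHom.coe_mk, sub_dotProduct, dotProduct_sub, smul_dotProduct,
      dotProduct_smul, smul_eq_mul, dotProduct_comm x d]
    ring
  · simp only [LinearMap.coe_mk, AddHom.coe_mk, dotProduct_sub, dotProduct_smul, smul_eq_mul]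
    rw [sub_sub, ← add_smul, show 2 * d ⬝ᵥ x / d ⬝ᵥ d + 2 * (d ⬝ᵥ x - 2 * d ⬝ᵥ x / d ⬝ᵥ d * d ⬝ᵥ d) / d ⬝ᵥ d = 0 by
      field_simp; ring, zero_smul, sub_zero]
  · simp only [LinearMap.coe_mk, AddHom.coe_mk]
    have : 2 * (d ⬝ᵥ u) = d ⬝ᵥ d := by
      simp only [hd, sub_dotProduct, dotProduct_sub, dotProduct_comm e u]
      linarith
    rw [this, div_self d0, one_smul, hd, sub_sub_cancel]

lemma drop {n : ℕ} (L : Submodule ℤ (V (n + 1))) (hfg : L.FG) (hi : Integ L) (u : V (n + 1))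
    (hu : u ∈ L) (h1 : u ⬝ᵥ u = 1) : ∃ L' : Submodule ℤ (V n), L'.FG ∧ Integ L' ∧ (Good L' → Good L) ∧
      ∀ u' ∈ L, u' ⬝ᵥ u' = 1 → u' ⬝ᵥ u = 0 → ∃ u'' ∈ L', u'' ⬝ᵥ u'' = 1 := by
  obtain ⟨R, r1, r2, r3⟩ := refl u (Pi.single 0 1) (by simp [h1])
  have r4 : R (Pi.single 0 1) = u := by rw [← r3, r2]
  have r5 : ∀ z, R z 0 = z ⬝ᵥ u := fun z => by rw [← r4, ← r1]; simp
  let T : V (n + 1) →ₗ[ℤ] V n := ((LinearMap.funLeft ℚ ℚ Fin.succ).comp R).restrictScalars ℤ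
  have hT : ∀ z i, T z i = R z i.succ := fun _ _ => rfl
  have key : ∀ z z', T z ⬝ᵥ T z' = z ⬝ᵥ z' - (z ⬝ᵥ u) * (z' ⬝ᵥ u) := fun z z' => by
    have e : R z ⬝ᵥ R z' = z ⬝ᵥ z' := by rw [r1, r2]
    rw [← e, ← r5, ← r5, dotProduct, dotProduct, Fin.sum_univ_succ]
    simp only [hT]; ring
  refine ⟨L.map T, hfg.map T, ?_, ?_, fun u' h2 h3 h4 => ⟨T u', ⟨u', h2, rfl⟩, by rw [key, h3, h4]; simp⟩⟩
  · rintro _ ⟨z, hz, rfl⟩ _ ⟨z', hz', rfl⟩
    rw [key]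
    exact sub_mem (hi _ hz _ hz') (mul_mem (hi _ hz _ hu) (hi _ hz' _ hu))
  · rintro ⟨U, hU, hL⟩
    let g : Fin (n + 1) → V (n + 1) := Fin.cons (Pi.single 0 1) (fun i => Fin.cons 0 (U i))
    refine ⟨Matrix.of (fun i => R (g i)), ?_, fun v hv i => ?_⟩
    · ext i j
      have e : (Matrix.of (fun i => R (g i)) * (Matrix.of (fun i => R (g i)))ᵀ) i j = R (g i) ⬝ᵥ R (g j) := rfl
      rw [e, r1, r2]
      refine Fin.cases ?_ (fun i => ?_) i <;> refine Fin.cases ?_ (fun j => ?_) j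
      · simp [g]
      · simp [g, one_apply, (Fin.succ_ne_zero j).symm]
      · simp [g, one_apply]
      · have := congrFun (congrFun hU i) j
        simpa [g, dotProduct, Fin.sum_univ_succ, mul_apply, one_apply] using this
    · have e : (Matrix.of (fun i => R (g i)) *ᵥ v) i = R (g i) ⬝ᵥ v := rfl
      rw [e, r1]
      refine Fin.cases ?_ (fun i => ?_) i
      · simpa [g, r5] using hi _ hv _ hu
      · have := hL _ ⟨v, hv, rfl⟩ i
        simpa [g, dotProduct, Fin.sum_univ_succ, mulVec, hT] using this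

lemma nbr {n : ℕ} (h6 : n + 1 ≤ 6) (hP : ∀ L : Submodule ℤ (V n), L.FG → Integ L → Good L)
    (p : ℕ) (hp : p.Prime) (w : V (n + 1)) (hw : (p : ℤ) • w ∈ Zn _) (hww : w ⬝ᵥ w ∈ Zs)
    (hn : w ∉ Zn _) : ∃ U : Matrix (Fin (n + 1)) (Fin (n + 1)) ℚ, U * Uᵀ = 1 ∧ U *ᵥ w ∈ Zn _ ∧
      ∀ m ∈ Zn (n + 1), m ⬝ᵥ w ∈ Zs → U *ᵥ m ∈ Zn _ := by
  have p0 : (p : ℚ) ≠ 0 := by exact_mod_cast hp.ne_zero
  choose x hx using hw
  have hx' : ∀ i, w i = x i / p := fun i => by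
    have := hx i
    simp at this
    rw [this]; field_simp
  let M : Submodule ℤ (V (n + 1)) :=
    { carrier := {m | m ∈ Zn _ ∧ m ⬝ᵥ w ∈ Zs}
      add_mem' := fun ha hb => ⟨add_mem ha.1 hb.1, by rw [add_dotProduct]; exact add_mem ha.2 hb.2⟩
      zero_mem' := ⟨zero_mem _, by simp⟩
      smul_mem' := fun c _ h => ⟨Submodule.smul_mem _ c h.1, by
        rw [smul_dotProduct]; exact zsmul_mem h.2 c⟩ }
  obtain ⟨i0, hi0⟩ : ∃ i0, ¬ (p : ℤ) ∣ x i0 := by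
    by_contra h
    push Not at h
    refine hn (fun i => ?_)
    obtain ⟨k, hk⟩ := h i
    exact ⟨k, by rw [hx', hk]; simp [p0]⟩
  obtain ⟨q, hq⟩ := hww
  have hxx : (p : ℤ) ^ 2 ∣ x ⬝ᵥ x := ⟨q, by
    have : ((x ⬝ᵥ x : ℤ) : ℚ) = p ^ 2 * q := by
      rw [show (q : ℚ) = w ⬝ᵥ w from hq, dotProduct, dotProduct, mul_sum]
      push_cast
      exact sum_congr rfl (fun i _ => by rw [hx']; field_simp)
    exact_mod_cast this⟩
  obtain ⟨c, m, ⟨k, h1⟩, h2⟩ := short (n + 1) p hp h6 x i0 hxx hi0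
  have hm : (fun i => (m i : ℚ)) ∈ M := ⟨fun i => intZ _, k, by
    have : ((m ⬝ᵥ x : ℤ) : ℚ) = p * k := by exact_mod_cast h1
    rw [eq_intCast, ← mul_right_inj' p0, ← this, dotProduct, dotProduct, mul_sum]
    push_cast
    exact sum_congr rfl (fun i _ => by rw [hx']; field_simp)⟩
  have hwN : w ∈ Submodule.span ℤ {w} ⊔ M := Submodule.mem_sup_left (Submodule.mem_span_singleton_self w)
  obtain ⟨L', l1, l2, l3, -⟩ := drop (Submodule.span ℤ {w} ⊔ M)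
    ((Submodule.fg_span_singleton w).sup ((Zn_fg _).of_le (fun m hm => hm.1))) (by
      intro a ha b hb
      obtain ⟨a1, ha1, a2, ha2, rfl⟩ := Submodule.mem_sup.1 ha
      obtain ⟨b1, hb1, b2, hb2, rfl⟩ := Submodule.mem_sup.1 hb
      obtain ⟨s, rfl⟩ := Submodule.mem_span_singleton.1 ha1
      obtain ⟨t, rfl⟩ := Submodule.mem_span_singleton.1 hb1
      simp only [add_dotProduct, dotProduct_add, smul_dotProduct, dotProduct_smul, dotProduct_comm w b2]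
      exact add_mem (zsmul_mem (add_mem (zsmul_mem (memZ.2 ⟨q, hq⟩) _) ha2.2) _)
        (add_mem (zsmul_mem hb2.2 _) (dotZ ha2.1 hb2.1)))
    (c • w + fun i => (m i : ℚ)) (add_mem (Submodule.smul_mem _ c hwN) (Submodule.mem_sup_right hm)) (by
      have : (((c • x + (p : ℤ) • m) ⬝ᵥ (c • x + (p : ℤ) • m) : ℤ) : ℚ) = p ^ 2 := by exact_mod_cast h2
      rw [← mul_right_inj' (pow_ne_zero 2 p0), mul_one]
      refine Eq.trans ?_ this
      rw [dotProduct, dotProduct, mul_sum]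
      push_cast
      refine sum_congr rfl (fun i _ => ?_)
      have e : (c • w + fun i => (m i : ℚ)) i = c * (x i / p) + m i := by
        rw [Pi.add_apply, Pi.smul_apply, zsmul_eq_mul, hx']
      rw [e]
      simp only [Pi.add_apply, Pi.smul_apply, smul_eq_mul]
      push_cast
      field_simp)
  obtain ⟨U, u1, u2⟩ := l3 (hP L' l1 l2)
  exact ⟨U, u1, u2 _ hwN, fun m a b => u2 _ (Submodule.mem_sup_right ⟨a, b⟩)⟩

theorem allgood (n : ℕ) : n ≤ 6 → ∀ L : Submodule ℤ (V n), L.FG → Integ L → Good L := by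
  induction n with
  | zero => intro _ L _ _; exact ⟨1, by simp, fun v _ i => i.elim0⟩
  | succ n ih =>
    intro h6 L hfg hi
    have := isNoetherian_of_fg_of_noetherian L hfg
    let I : Matrix (Fin (n + 1)) (Fin (n + 1)) ℚ → Submodule ℤ L := fun U =>
      (Zn _).comap ((U.mulVecLin.restrictScalars ℤ).comp L.subtype)
    have hI : ∀ U (v : L), v ∈ I U ↔ U *ᵥ v.1 ∈ Zn _ := fun _ _ => Iff.rfl
    obtain ⟨_, ⟨U, hU, rfl⟩, hmax⟩ := set_has_maximal_iff_noetherian.2 this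
      {J | ∃ U, U * Uᵀ = 1 ∧ I U = J} ⟨I 1, 1, by simp, rfl⟩
    refine ⟨U, hU, fun v hv => ?_⟩
    by_contra hn
    have ex : ∃ t : ℕ, 0 < t ∧ (t : ℤ) • U *ᵥ v ∈ Zn _ := by
      refine ⟨∏ i, ((U *ᵥ v) i).den, prod_pos (fun i _ => Rat.den_pos _), fun i => ?_⟩
      obtain ⟨k, hk⟩ := dvd_prod_of_mem (fun i => ((U *ᵥ v) i).den) (mem_univ i)
      refine ⟨k * ((U *ᵥ v) i).num, ?_⟩
      rw [hk, eq_intCast, Pi.smul_apply, zsmul_eq_mul]
      push_cast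
      rw [← Rat.den_mul_eq_num]; ring
    classical
    obtain ⟨t0, t1⟩ := Nat.find_spec ex
    have t2 : Nat.find ex ≠ 1 := fun h => hn (by simpa [h] using t1)
    obtain ⟨s, hs⟩ := Nat.minFac_dvd (Nat.find ex)
    have hp := Nat.minFac_prime t2
    have s0 : 0 < s := Nat.pos_of_ne_zero (by rintro rfl; omega)
    have s1 : U *ᵥ ((s : ℤ) • v) ∉ Zn _ := fun h => Nat.find_min ex (m := s) (by
      have := hp.two_le; nlinarith) ⟨s0, by rwa [mulVec_smul] at h⟩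
    have sv : (s : ℤ) • v ∈ L := L.smul_mem _ hv
    obtain ⟨W, w1, w2, w3⟩ := nbr h6 (ih (by omega)) _ hp (U *ᵥ ((s : ℤ) • v))
      (by rw [mulVec_smul, smul_smul, ← Nat.cast_mul, ← hs]; exact t1)
      (by rw [iso hU]; exact hi _ sv _ sv) s1
    refine hmax (I (W * U)) ⟨W * U, by
      rw [transpose_mul, Matrix.mul_assoc, ← Matrix.mul_assoc U, hU, Matrix.one_mul, w1], rfl⟩
      (lt_of_le_of_ne (fun z hz => ?_) (fun h => s1 ?_))
    · rw [hI, ← mulVec_mulVec]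
      exact w3 _ hz (by rw [iso hU]; exact hi _ z.2 _ sv)
    · refine (hI U ⟨_, sv⟩).1 ?_
      rw [h, hI, ← mulVec_mulVec]
      exact w2

theorem good8 (L : Submodule ℤ (V 8)) (hfg : L.FG) (hi : Integ L) (u u' : V 8) (hu : u ∈ L)
    (hu' : u' ∈ L) (h1 : u ⬝ᵥ u = 1) (h2 : u' ⬝ᵥ u' = 1) (h3 : u' ⬝ᵥ u = 0) : Good L := by
  obtain ⟨L1, a1, a2, a3, a4⟩ := drop L hfg hi u hu h1
  obtain ⟨w, w1, w2⟩ := a4 u' hu' h2 h3
  obtain ⟨L2, b1, b2, b3, -⟩ := drop L1 a1 a2 w w1 w2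
  exact a3 (b3 (allgood 6 le_rfl L2 b1 b2))

end Pool.Agent.H25.Icube2
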