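import Mathlib

set_option autoImplicit false

namespace Pool.Agent.H25.Kap

open Set Filter

/-! ### From a family of subsets of `ℕ` to a non-meagre set of reals -/

lemma univ_seq (I : Type) [Countable I] : ∃ σ : ℕ → I → I, ∀ (R : Set I), R.Finite →
    ∀ (τ : I → I) (l : ℕ), ∃ a, l ≤ a ∧ ∀ J ∈ R, σ a J = τ J := by
  classical
  obtain ⟨e, he⟩ := exists_surjective_nat (Finset (I × I))
  refine ⟨fun a J => if h : ∃ K, (J, K) ∈ e (Nat.unpair a).1 then h.choose else J,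
    fun R hR τ l => ?_⟩
  obtain ⟨i, hi⟩ := he (hR.toFinset.image fun J => (J, τ J))
  refine ⟨Nat.pair i l, Nat.right_le_pair _ _, fun J hJ => ?_⟩
  have h : ∃ K, (J, K) ∈ e (Nat.unpair (Nat.pair i l)).1 := ⟨τ J, by simp [hi, hJ]⟩
  simp only [dif_pos h]
  have := h.choose_spec
  generalize h.choose = K at this
  simp only [Nat.unpair_pair, hi, Finset.mem_image, Prod.mk.injEq] at this
  obtain ⟨a, -, rfl, h2⟩ := this
  exact h2.symm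

def good (J K : ℚ × ℚ) : Prop := K.1 < K.2 ∧ J.1 ≤ K.1 ∧ K.2 ≤ J.2

open Classical in
noncomputable def sq (σ : ℕ → ℚ × ℚ → ℚ × ℚ) (D : Set ℕ) : ℕ → ℚ × ℚ
  | 0 => (0, 1)
  | n + 1 => if n ∈ D ∧ good (sq σ D n) (σ n (sq σ D n)) then σ n (sq σ D n) else sq σ D n

lemma sq_good (σ : ℕ → ℚ × ℚ → ℚ × ℚ) (D : Set ℕ) (n : ℕ) :
    (sq σ D n).1 < (sq σ D n).2 ∧ good (sq σ D n) (sq σ D (n + 1)) := by
  have h : ∀ n, (sq σ D n).1 < (sq σ D n).2 → good (sq σ D n) (sq σ D (n + 1)) := by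
    intro n hn
    rw [sq]
    split_ifs with h
    · exact h.2
    · exact ⟨hn, le_rfl, le_rfl⟩
  induction n with
  | zero => exact ⟨by simp [sq], h 0 (by simp [sq])⟩
  | succ n ih => exact ⟨ih.2.1, h _ ih.2.1⟩

lemma sq_fin (σ : ℕ → ℚ × ℚ → ℚ × ℚ) (n : ℕ) : (range fun D => sq σ D n).Finite := by
  induction n with
  | zero => exact (finite_singleton (0, 1)).subset (by rintro _ ⟨D, rfl⟩; rfl)
  | succ n ih =>
    refine (ih.union (ih.image (σ n))).subset ?_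
    rintro _ ⟨D, rfl⟩
    simp only [sq]
    split_ifs
    · exact Or.inr ⟨_, ⟨D, rfl⟩, rfl⟩
    · exact Or.inl ⟨D, rfl⟩

lemma sq_const (σ : ℕ → ℚ × ℚ → ℚ × ℚ) (D : Set ℕ) (l m : ℕ) (hm : l ≤ m)
    (h : ∀ b ∈ D, l ≤ b → m ≤ b) : sq σ D m = sq σ D l := by
  induction m, hm using Nat.le_induction with
  | base => rfl
  | succ m hm ih =>
    rw [sq, if_neg fun h1 => absurd (h m h1.1 hm) (by omega)]
    exact ih fun b hb h1 => (h b hb h1).trans' (by omega)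

lemma shrink {V : Set ℝ} (ho : IsOpen V) (hd : Dense V) (J : ℚ × ℚ) :
    ∃ K, J.1 < J.2 → good J K ∧ Icc (K.1 : ℝ) K.2 ⊆ V := by
  by_cases hJ : J.1 < J.2
  · obtain ⟨x, hx1, hx2⟩ := hd.inter_open_nonempty (Ioo (J.1 : ℝ) J.2) isOpen_Ioo
      (nonempty_Ioo.2 (by exact_mod_cast hJ))
    obtain ⟨a, b, ⟨ha, hb⟩, h⟩ := mem_nhds_iff_exists_Ioo_subset.1
      ((isOpen_Ioo.inter ho).mem_nhds ⟨hx1, hx2⟩)
    obtain ⟨p, hp1, hp2⟩ := exists_rat_btwn ha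
    obtain ⟨q, hq1, hq2⟩ := exists_rat_btwn hb
    refine ⟨(p, q), fun _ => ⟨⟨by exact_mod_cast hp2.trans hq1, ?_, ?_⟩, fun y hy =>
      (h ⟨hp1.trans_le hy.1, hy.2.trans_lt hq2⟩).2⟩⟩
    · exact_mod_cast (h ⟨hp1, hp2.trans hb⟩).1.1.le
    · exact_mod_cast (h ⟨ha.trans hq1, hq2⟩).1.2.le
  · exact ⟨J, fun h => absurd h hJ⟩

lemma partA : ∃ y : Set ℕ → ℝ, ∀ 𝓓 : Set (Set ℕ),
    (∀ a : ℕ → ℕ, (∀ l, l ≤ a l) → ∃ D ∈ 𝓓, ∀ N, ∃ l, N ≤ l ∧ a l ∈ D ∧ ∀ b ∈ D, l ≤ b → a l ≤ b) →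
    ¬ IsMeagre (y '' 𝓓) := by
  obtain ⟨σ, hσ⟩ := univ_seq (ℚ × ℚ)
  have hy : ∀ D, ∃ y : ℝ, ∀ n, y ∈ Icc ((sq σ D n).1 : ℝ) (sq σ D n).2 := fun D => by
    refine ⟨_, mem_iInter.1 (ciSup_mem_iInter_Icc_of_antitone_Icc (antitone_nat_of_succ_le
      fun n => Icc_subset_Icc ?_ ?_) fun n => ?_)⟩
    · exact_mod_cast (sq_good σ D n).2.2.1
    · exact_mod_cast (sq_good σ D n).2.2.2
    · exact_mod_cast (sq_good σ D n).1.le
  choose y hy using hy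
  refine ⟨y, fun 𝓓 h hm => ?_⟩
  obtain ⟨S, h1, h2, h3, h4⟩ := mem_residual_iff.1 hm
  obtain ⟨U, hU⟩ := (h3.insert univ).exists_eq_range (insert_nonempty _ _)
  have hU1 : ∀ n, IsOpen (U n) ∧ Dense (U n) := fun n => by
    rcases (hU ▸ mem_range_self n : U n ∈ insert univ S) with h | h
    · rw [h]; exact ⟨isOpen_univ, dense_univ⟩
    · exact ⟨h1 _ h, h2 _ h⟩
  have hV : ∀ l : ℕ, IsOpen (⋂ n ∈ Iic l, U n) ∧ Dense (⋂ n ∈ Iic l, U n) := fun l =>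
    ⟨(finite_Iic l).isOpen_biInter fun n _ => (hU1 n).1,
      dense_biInter_of_isOpen (fun n _ => (hU1 n).1) (to_countable _) fun n _ => (hU1 n).2⟩
  choose τ hτ using fun l => shrink (hV l).1 (hV l).2
  choose a ha1 ha2 using fun l => hσ _ (sq_fin σ l) (τ l) l
  obtain ⟨D, hD, h5⟩ := h a ha1
  refine h4 (fun t ht => ?_) (mem_image_of_mem y hD)
  obtain ⟨n, rfl⟩ : t ∈ range U := hU ▸ mem_insert_of_mem _ ht
  obtain ⟨l, h6, h7, h8⟩ := h5 n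
  have e1 := sq_const σ D l (a l) (ha1 l) h8
  have e2 := ha2 l _ ⟨D, rfl⟩
  have e3 := hτ l (sq σ D l) (sq_good σ D l).1
  have e4 := hy D (a l + 1)
  simp only at e2
  rw [sq, e1, e2, if_pos ⟨h7, e3.1⟩] at e4
  exact mem_iInter₂.1 (e3.2 e4) n h6

/-! ### Property `(κ)` -/

lemma exists_pos_le {α : Type} (s : Finset α) (f : α → ℝ) (h : ∀ a ∈ s, 0 < f a) :
    ∃ d, 0 < d ∧ ∀ a ∈ s, d ≤ f a := by
  rcases s.eq_empty_or_nonempty with rfl | hs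
  · exact ⟨1, one_pos, by simp⟩
  · obtain ⟨a, h1, h2⟩ := s.exists_min_image f hs
    exact ⟨f a, h a h1, h2⟩

lemma partB (X : Set ℝ) (hX : ∀ y : X × X → ℝ, IsMeagre (range y)) (F : ℕ → Finset ℝ)
    (hF : ∀ i j, i ≠ j → ∀ p ∈ F i, p ∉ F j) :
    ∃ (A : Set ℕ) (ε : ℕ → ℝ), A.Infinite ∧ (∀ n, 0 < ε n) ∧
      ∀ x ∈ X, {n ∈ A | ∃ p ∈ F n, |x - p| < ε n}.Finite := by
  classical
  by_contra hc
  push Not at hc
  have hr : ∀ m : ℕ, ∃ r : ℝ, 0 < r ∧ ∀ n < m, ∀ p ∈ F n, ∀ q ∈ F m, 3 * r ≤ |p - q| := by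
    intro m
    obtain ⟨d, h1, h2⟩ := exists_pos_le (((Finset.range m).biUnion F) ×ˢ F m)
      (fun z => |z.1 - z.2|) (by
        rintro ⟨p, q⟩ hz
        simp only [Finset.mem_product, Finset.mem_biUnion, Finset.mem_range] at hz
        obtain ⟨⟨n, h1, h2⟩, h3⟩ := hz
        exact abs_pos.2 (sub_ne_zero.2 fun h => hF n m h1.ne p h2 ((show p = q from h) ▸ h3)))
    refine ⟨d / 3, by positivity, fun n hn p hp q hq => ?_⟩
    have := h2 (p, q) (by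
      simp only [Finset.mem_product, Finset.mem_biUnion, Finset.mem_range]
      exact ⟨⟨n, hn, hp⟩, hq⟩)
    linarith
  choose r hr0 hr using hr
  let B : ℝ → Set ℕ := fun x => {n | ∃ p ∈ F n, |x - p| < r n}
  have P : ∀ (A : Set ℕ), A.Infinite → ∀ G : ℕ → ℕ, (∀ n, n ≤ G n) → ∃ x ∈ X,
      {n ∈ A | n ∈ B x ∧ ∀ m ∈ B x, n < m → G n < m}.Infinite := by
    intro A hA G hG
    choose ε h1 h2 using fun n => exists_pos_le (Finset.Iic (G n)) r fun m _ => hr0 m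
    obtain ⟨x, hx, h3⟩ := hc A ε hA h1
    refine ⟨x, hx, h3.mono ?_⟩
    rintro n ⟨hn, p, hp, h4⟩
    refine ⟨hn, ⟨p, hp, h4.trans_le (h2 n n (Finset.mem_Iic.2 (hG n)))⟩, ?_⟩
    rintro m ⟨q, hq, h5⟩ hm
    by_contra h6
    have e1 := h2 n m (Finset.mem_Iic.2 (not_lt.1 h6))
    have e2 := hr m n hm p hp q hq
    have e3 := abs_sub_le p x q
    rw [abs_sub_comm p x] at e3
    linarith [hr0 m]
  obtain ⟨y, hy⟩ := partA
  let D : X × X → Set ℕ := fun z =>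
    {b ∈ B z.1 | ∀ m ∈ B z.1, b < m → ∃ m' ∈ B z.2, b < m' ∧ m' < m}
  refine hy (range D) (fun a ha => ?_) (by rw [← range_comp]; exact hX _)
  obtain ⟨x', hx', h1⟩ := P univ infinite_univ a ha
  set L := {n ∈ univ | n ∈ B x' ∧ ∀ m ∈ B x', n < m → a n < m} with hL
  choose h h2 h3 using fun n => h1.exists_gt n
  have hA : (a '' L).Infinite := infinite_of_forall_exists_gt fun n =>
    ⟨_, mem_image_of_mem a (h2 n), (h3 n).trans_le (ha _)⟩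
  obtain ⟨x, hx, h4⟩ := P _ hA h fun n => (h3 n).le
  refine ⟨_, ⟨(⟨x, hx⟩, ⟨x', hx'⟩), rfl⟩, fun N => ?_⟩
  obtain ⟨b, ⟨⟨l, hl, rfl⟩, h5, h6⟩, h7⟩ := h4.exists_gt ((Finset.range N).sup a)
  refine ⟨l, ?_, ⟨h5, fun m hm h8 => ⟨h (a l), (h2 _).2.1, h3 _, h6 m hm h8⟩⟩, fun b hb h8 => ?_⟩
  · by_contra h8
    exact h7.not_ge (Finset.le_sup (f := a) (Finset.mem_range.2 (not_le.1 h8)))
  · by_contra h9
    obtain ⟨m', e1, e2, e3⟩ := hb.2 _ h5 (not_le.1 h9)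
    exact (hl.2.2 m' e1 (h8.trans_lt e2)).not_gt e3

end Pool.Agent.H25.Kap
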