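import Pool.Agent.H25.Kap1

set_option autoImplicit false

namespace Pool.Agent.H25.Kap

open Set Filter Topology Cardinal

/-- `C_p(X)`: continuous real functions on `X`, as a subspace of the product `ℝ^X`. -/
abbrev Cp (X : Set ℝ) : Type := {f : X → ℝ // Continuous f}

/-- `κ`-Fréchet spaces. -/
def KappaFrechet (Y : Type) [TopologicalSpace Y] : Prop :=
  ∀ (x : Y) (A : Set Y), IsOpen A → x ∈ closure A → x ∉ A →
    ∃ B ⊆ A, B.Countable ∧ B.Infinite ∧ x ∉ B ∧ ∀ U ∈ 𝓝 x, (B \ U).Finite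

/-- `non(M)`: the least cardinality of a non-meagre set of reals. -/
noncomputable def nonM : Cardinal := sInf {c | ∃ Y : Set ℝ, ¬ IsMeagre Y ∧ #Y = c}

lemma ev (X : Set ℝ) (x : X) : Continuous fun h : Cp X => h.1 x :=
  (continuous_apply x).comp continuous_subtype_val

lemma partC (X : Set ℝ) (hX : ∀ y : X × X → ℝ, IsMeagre (range y)) : KappaFrechet (Cp X) := by
  classical
  intro f U hU hf hfU
  have step : ∀ (E : Finset X) (n : ℕ), ∃ (g : Cp X) (E' : Finset X), E ⊆ E' ∧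
      (∀ x ∈ E, |g.1 x - f.1 x| < 1 / ((n : ℝ) + 1)) ∧
      ∀ h : Cp X, (∀ x ∈ E', h.1 x = g.1 x) → h ∈ U := by
    intro E n
    have hW : IsOpen {h : Cp X | ∀ x ∈ E, |h.1 x - f.1 x| < 1 / ((n : ℝ) + 1)} := by
      simp only [ofPred_forall]
      exact isOpen_biInter_finset fun x _ => isOpen_lt ((ev X x).sub continuous_const).abs continuous_const
    obtain ⟨g, hg1, hg2⟩ := mem_closure_iff.1 hf _ hW fun x _ => by simp; positivity
    obtain ⟨U', h1, rfl⟩ := isOpen_induced_iff.1 hU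
    obtain ⟨I, u, h2, h3⟩ := isOpen_pi_iff.1 h1 _ hg2
    exact ⟨g, E ∪ I, Finset.subset_union_left, hg1, fun h hh => h3 fun x hx => by
      rw [hh x (Finset.mem_union_right _ hx)]; exact (h2 x hx).2⟩
  choose g E' s1 s2 s3 using step
  let E : ℕ → Finset X := fun n => Nat.rec ∅ (fun n E => E' E n) n
  have hE : Monotone E := monotone_nat_of_le_succ fun n => s1 (E n) n
  obtain ⟨A, ε, hA, hε, h1⟩ := partB X hX (fun n => (E (n + 1) \ E n).image (↑)) (by
    intro i j hij p hp hq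
    simp only [Finset.mem_image, Finset.mem_sdiff] at hp hq
    obtain ⟨x, hx, rfl⟩ := hp
    obtain ⟨y, hy, h⟩ := hq
    rw [Subtype.val_injective h] at hy
    rcases lt_or_gt_of_ne hij with h | h
    · exact hy.2 (hE h hx.1)
    · exact hx.2 (hE h hy.1))
  have hφ : ∀ n, ∃ φ : C(ℝ, ℝ), (∀ x : ℝ, (∀ p ∈ E (n + 1) \ E n, ε n ≤ |x - p.1|) → φ x = 0) ∧
      ∀ p ∈ E (n + 1) \ E n, φ p.1 = 1 := by
    intro n
    obtain ⟨φ, h1, h2, -⟩ := exists_continuous_zero_one_of_isClosed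
      (s := {x : ℝ | ∀ p ∈ E (n + 1) \ E n, ε n ≤ |x - p.1|})
      (t := Subtype.val '' ((E (n + 1) \ E n : Finset X) : Set X))
      (by simp only [ofPred_forall]
          exact isClosed_biInter fun p _ => isClosed_le continuous_const (by fun_prop))
      ((Finset.finite_toSet _).image _).isClosed (by
        rw [disjoint_left]
        rintro _ h ⟨p, hp, rfl⟩
        exact (hε n).not_ge (by simpa using h p hp))
    exact ⟨φ, fun x hx => h1 hx, fun p hp => h2 ⟨p, hp, rfl⟩⟩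
  choose φ φ0 φ1 using hφ
  let c : ℕ → ℝ → ℝ := fun n t => max (-(1 / ((n : ℝ) + 1))) (min (1 / ((n : ℝ) + 1)) t)
  let h : ℕ → Cp X := fun n => ⟨fun x => f.1 x + φ n x * ((g (E n) n).1 x - f.1 x) +
    (1 - φ n x) * c n ((g (E n) n).1 x - f.1 x), by
      have := f.2
      have := (g (E n) n).2
      fun_prop⟩
  have hU' : ∀ n, h n ∈ U := fun n => s3 (E n) n _ fun x hx => by
    by_cases h2 : x ∈ E n
    · have := abs_lt.1 (s2 _ n x h2)
      simp only [h, c]
      rw [min_eq_right this.2.le, max_eq_right this.1.le]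
      ring
    · simp only [h]
      rw [φ1 n x (Finset.mem_sdiff.2 ⟨hx, h2⟩)]
      ring
  have hT : Tendsto h (cofinite ⊓ 𝓟 A) (𝓝 f) := by
    rw [tendsto_subtype_rng, tendsto_pi_nhds]
    intro x
    rw [tendsto_iff_dist_tendsto_zero]
    refine squeeze_zero' (Eventually.of_forall fun _ => dist_nonneg) ?_
      ((Nat.cofinite_eq_atTop ▸ tendsto_one_div_add_atTop_nhds_zero_nat).mono_left inf_le_left)
    rw [eventually_inf_principal, eventually_cofinite]
    refine (h1 x x.2).subset fun n hn => ?_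
    simp only [mem_ofPred_eq, Classical.not_imp] at hn
    refine ⟨hn.1, ?_⟩
    by_contra h2
    push Not at h2
    apply hn.2
    simp only [h, c, Real.dist_eq]
    rw [φ0 n x fun p hp => h2 p (Finset.mem_image_of_mem _ hp)]
    have : (0 : ℝ) < 1 / ((n : ℝ) + 1) := by positivity
    rw [abs_le]
    constructor
    · linarith [le_max_left (-(1 / ((n : ℝ) + 1))) (min (1 / ((n : ℝ) + 1)) ((g (E n) n).1 x - f.1 x))]
    · have := max_le (show -(1 / ((n : ℝ) + 1)) ≤ 1 / ((n : ℝ) + 1) by linarith)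
        (min_le_left (1 / ((n : ℝ) + 1)) ((g (E n) n).1 x - f.1 x))
      linarith
  have hfin : ∀ W ∈ 𝓝 f, {n ∈ A | h n ∉ W}.Finite := fun W hW => by
    have : ∀ᶠ n in cofinite ⊓ 𝓟 A, h n ∈ W := hT hW
    rw [eventually_inf_principal, eventually_cofinite] at this
    exact this.subset fun n hn h2 => hn.2 (h2 hn.1)
  have hB : f ∉ h '' A := fun ⟨n, _, e⟩ => hfU (e ▸ hU' n)
  refine ⟨h '' A, by rintro _ ⟨n, -, rfl⟩; exact hU' n, (to_countable A).image h, fun hc => ?_, hB,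
    fun W hW => ((hfin W hW).image h).subset ?_⟩
  · exact hA ((hfin _ (hc.isClosed.isOpen_compl.mem_nhds hB)).subset fun n hn =>
      ⟨hn, fun h2 => h2 (mem_image_of_mem h hn)⟩)
  · rintro _ ⟨⟨n, h2, rfl⟩, h3⟩
    exact ⟨n, ⟨h2, h3⟩, rfl⟩

lemma partD (q : ℕ → ℚ) (hq : Function.Surjective q) (X : Set ℝ) (hX : ¬ IsMeagre X)
    (hp : ∀ i n : ℕ, (q i : ℝ) + √2 / (n + 1) ∈ X) : ¬ KappaFrechet (Cp X) := by
  classical
  intro hK
  let pt : ℕ → ℕ → X := fun i n => ⟨_, hp i n⟩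
  have inj : ∀ i n j m, pt i n = pt j m → n = m := by
    intro i n j m h
    have h1 : (q i : ℝ) + √2 / (n + 1) = q j + √2 / (m + 1) := congrArg Subtype.val h
    by_contra h2
    have h3 : (m : ℝ) - n ≠ 0 := sub_ne_zero.2 fun h => h2 (by exact_mod_cast h.symm)
    refine irrational_sqrt_two ⟨(q j - q i) * (n + 1) * (m + 1) / (m - n), ?_⟩
    push_cast
    field_simp at h1 ⊢
    linarith
  let U : ℕ → Set (Cp X) := fun n => {f | ∀ i ∈ Finset.Iic n, 1 / 2 < f.1 (pt i n)}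
  have hU : ∀ n, IsOpen (U n) := fun n => by
    simp only [U, ofPred_forall]
    exact isOpen_biInter_finset fun x _ => isOpen_lt continuous_const (ev X _)
  have hN : ∀ x : X, {f : Cp X | f.1 x < 1 / 2} ∈ 𝓝 (⟨0, continuous_zero⟩ : Cp X) := fun x =>
    (isOpen_lt (ev X x) continuous_const).mem_nhds (by simp)
  obtain ⟨B, hB, -, hB1, -, hB2⟩ := hK ⟨0, continuous_zero⟩ (⋃ n, U n) (isOpen_iUnion hU) (by
    rw [mem_closure_iff]
    intro W hW h0
    obtain ⟨W', h1, rfl⟩ := isOpen_induced_iff.1 hW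
    obtain ⟨I, u, h2, h3⟩ := isOpen_pi_iff.1 h1 _ h0
    have h4 : {n | ∃ i, pt i n ∈ I}.Finite := by
      refine (I.finite_toSet.biUnion (t := fun x => {n | ∃ i, pt i n = x}) fun x _ =>
        Subsingleton.finite ?_).subset ?_
      · rintro n ⟨i, h⟩ m ⟨j, h'⟩
        exact inj _ _ _ _ (h.trans h'.symm)
      · rintro n ⟨i, h⟩
        exact mem_biUnion h ⟨i, rfl⟩
    obtain ⟨n, hn⟩ := h4.infinite_compl.nonempty
    obtain ⟨φ, h5, h6, -⟩ := exists_continuous_zero_one_of_isClosed (s := (I : Set X))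
      (t := (fun i => pt i n) '' Iic n) I.finite_toSet.isClosed ((finite_Iic n).image _).isClosed
      (by rw [disjoint_left]; rintro _ h ⟨i, -, rfl⟩; exact hn ⟨i, h⟩)
    refine ⟨⟨φ, φ.continuous⟩, h3 fun x hx => ?_, mem_iUnion.2 ⟨n, fun i hi => ?_⟩⟩
    · have := (h2 x hx).2
      simp only [h5 hx]
      exact this
    · simp only [h6 ⟨i, Finset.mem_Iic.1 hi, rfl⟩]
      norm_num) (by
    simp only [mem_iUnion, not_exists]
    intro n h
    have := h 0 (by simp)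
    norm_num at this)
  choose! n hn using fun b (hb : b ∈ B) => mem_iUnion.1 (hB hb)
  have big : ∀ m, ∃ b ∈ B, m ≤ n b := by
    intro m
    by_contra hc
    push Not at hc
    refine hB1 (((finite_Iio m).biUnion fun k _ => hB2 _ (hN (pt 0 k))).subset fun b hb => ?_)
    exact mem_biUnion (hc b hb) ⟨hb, (hn b hb 0 (by simp)).not_gt⟩
  have hW : ∀ b : Cp X, ∃ W : Set ℝ, IsOpen W ∧ (↑) ⁻¹' W = {x : X | 1 / 2 < b.1 x} := fun b =>
    isOpen_induced_iff.1 (isOpen_lt continuous_const b.2)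
  choose W hW1 hW2 using hW
  have hG : ∀ m, ⋃ b ∈ {b ∈ B | m ≤ n b}, W b ∈ residual ℝ := by
    intro m
    refine residual_of_dense_open (isOpen_biUnion fun b _ => hW1 b) ?_
    rw [dense_iff_inter_open]
    intro O hO hne
    obtain ⟨r, hr⟩ := Rat.denseRange_cast.exists_mem_open hO hne
    obtain ⟨i, rfl⟩ := hq r
    have h1 : Tendsto (fun k : ℕ => (q i : ℝ) + √2 / (k + 1)) atTop (𝓝 (q i)) := by
      simpa [div_eq_mul_inv] using
        (tendsto_one_div_add_atTop_nhds_zero_nat.const_mul (√2)).const_add (q i : ℝ)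
    obtain ⟨N, h2⟩ := eventually_atTop.1 (h1.eventually (hO.mem_nhds hr))
    obtain ⟨b, hb, h3⟩ := big (max m (max i N))
    simp only [max_le_iff] at h3
    refine ⟨_, h2 _ h3.2.2, mem_biUnion (show b ∈ {b ∈ B | m ≤ n b} from ⟨hb, h3.1⟩) ?_⟩
    exact (Set.ext_iff.1 (hW2 b) (pt i (n b))).2 (hn b hb i (Finset.mem_Iic.2 h3.2.1))
  refine hX (mem_of_superset (countable_iInter_mem.2 hG) fun y hy hyX => ?_)
  obtain ⟨M, hM⟩ := ((hB2 _ (hN ⟨y, hyX⟩)).image n).bddAbove
  obtain ⟨b, hb, h1⟩ := mem_iUnion₂.1 (mem_iInter.1 hy (M + 1))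
  have h2 : 1 / 2 < b.1 ⟨y, hyX⟩ := (Set.ext_iff.1 (hW2 b) ⟨y, hyX⟩).1 h1
  have := hM ⟨b, ⟨hb.1, h2.not_gt⟩, rfl⟩
  have := hb.2
  omega

lemma ctbl_meagre {Y : Set ℝ} (h : Y.Countable) : IsMeagre Y := by
  rw [← biUnion_of_singleton Y]
  exact isMeagre_biUnion h fun y _ => IsNowhereDense.isMeagre (by
    rw [isClosed_singleton.isNowhereDense_iff, interior_singleton])

lemma main : IsLeast {c | ∃ X : Set ℝ, ¬ KappaFrechet (Cp X) ∧ #X = c} nonM := by
  obtain ⟨Y, hY, hc⟩ : nonM ∈ {c | ∃ Y : Set ℝ, ¬ IsMeagre Y ∧ #Y = c} :=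
    csInf_mem ⟨_, univ, not_isMeagre_of_isOpen isOpen_univ univ_nonempty, rfl⟩
  have h0 : ℵ₀ ≤ nonM := by
    by_contra h
    exact hY (ctbl_meagre (le_aleph0_iff_set_countable.1 (hc ▸ (not_le.1 h).le)))
  obtain ⟨q, hq⟩ := exists_surjective_nat ℚ
  constructor
  · refine ⟨Y ∪ range fun z : ℕ × ℕ => (q z.1 : ℝ) + √2 / (z.2 + 1), partD q hq _
      (fun h => hY (h.mono subset_union_left)) fun i n => Or.inr ⟨(i, n), rfl⟩, ?_⟩
    refine le_antisymm ((mk_union_le _ _).trans ?_) (hc ▸ mk_le_mk_of_subset subset_union_left)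
    rw [hc]
    exact add_le_of_le h0 le_rfl ((le_aleph0_iff_set_countable.2 (countable_range _)).trans h0)
  · rintro _ ⟨X, hX, rfl⟩
    by_contra h
    refine hX (partC X fun y => ?_)
    by_contra h1
    have h2 : nonM ≤ #(range y) := csInf_le' ⟨_, h1, rfl⟩
    have h3 : #(X × X) < nonM := by
      simpa using mul_lt_of_lt h0 (not_le.1 h) (not_le.1 h)
    exact (h2.trans mk_range_le).not_gt h3

end Pool.Agent.H25.Kap
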