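import Mathlib

set_option autoImplicit false

namespace Pool.Agent.H25.MatTor

/-- The matchings of `G`: finite sets of pairwise non-adjacent edges (the empty set included). -/
def Matching {V : Type} (G : SimpleGraph V) : Type :=
  {M : Finset (Sym2 V) // (∀ e ∈ M, e ∈ G.edgeSet) ∧
    ∀ e ∈ M, ∀ f ∈ M, e ≠ f → ∀ v : V, v ∈ e → v ∉ f}

/-- The toric map `x_M ↦ s * ∏_{e ∈ M} t_e`, with `s = X none` and `t_e = X (some e)`. -/
noncomputable def toricMap {V : Type} (G : SimpleGraph V) (K : Type) [Field K] :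
    MvPolynomial (Matching G) K →ₐ[K] MvPolynomial (Option (Sym2 V)) K :=
  MvPolynomial.aeval fun M => MvPolynomial.X none * ∏ e ∈ M.1, MvPolynomial.X (some e)

end Pool.Agent.H25.MatTor
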