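import Mathlib

namespace Pool.Agent.H25.MatPow1

open Finset Matrix

lemma comm_unital (U : Type) [Ring U] [Finite U] (h : ∀ x : U, x * x = 0 → x = 0) (x y : U) :
    x * y = y * x := by
  have hr : IsReduced U := (isReduced_iff_pow_one_lt 2 (by norm_num)).2 (fun x hx => h x (by rwa [sq] at hx))
  have : IsSemisimpleRing U := IsArtinianRing.isSemisimpleRing_iff_jacobson.2 (by
    obtain ⟨n, hn⟩ := IsSemiprimaryRing.isNilpotent (R := U)
    refine eq_bot_iff.2 (fun z hz => ?_)
    have := Ideal.pow_mem_pow hz n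
    rw [hn] at this
    exact hr.eq_zero z ⟨n, this⟩)
  obtain ⟨n, D, d, _, hd, ⟨e⟩⟩ := IsSemisimpleRing.exists_ringEquiv_pi_matrix_divisionRing U
  have : Finite (Π i, Matrix (Fin (d i)) (Fin (d i)) (D i)) := Finite.of_equiv _ e.toEquiv
  have sub : ∀ i (a b : Fin (d i)), a = b := fun i a b => by
    by_contra hab
    have := h (e.symm (Pi.single i (Matrix.single a b 1))) (by
      rw [← map_mul, ← Pi.single_mul, single_mul_single_of_ne _ _ _ _ (Ne.symm hab), Pi.single_zero, map_zero])
    have := congrFun (congrFun (congrFun (e.symm.map_eq_zero_iff.1 this) i) a) b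
    simp at this
  apply e.injective
  rw [map_mul, map_mul]
  ext i a b
  have : Finite (D i) := Finite.of_surjective
    (fun X : Π i, Matrix (Fin (d i)) (Fin (d i)) (D i) => X i a a)
    (fun c => ⟨Pi.single i (Matrix.of fun _ _ => c), by simp⟩)
  have : Subsingleton (Fin (d i)) := ⟨sub i⟩
  rw [Pi.mul_apply, Pi.mul_apply, mul_apply, mul_apply, Fintype.sum_subsingleton _ a,
    Fintype.sum_subsingleton _ a, sub i b a]
  exact (Finite.isDomain_to_isField (D i)).mul_comm _ _

lemma comm_red (R : Type) [NonUnitalRing R] [Finite R] (h2 : ∀ x : R, 2 • x = 0)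
    (h : ∀ x : R, x * x = 0 → x = 0) (x y : R) : x * y = y * x := by
  let _ : Module (ZMod 2) R := AddCommGroup.zmodModule h2
  have c : ∀ c : ZMod 2, c = 0 ∨ c = 1 := by decide
  have : IsScalarTower (ZMod 2) R R := ⟨fun a b d => by rcases c a with rfl | rfl <;> simp⟩
  have : SMulCommClass (ZMod 2) R R := ⟨fun a b d => by rcases c a with rfl | rfl <;> simp⟩
  have : Finite (Unitization (ZMod 2) R) :=
    Finite.of_injective (fun z => (z.fst, z.snd)) (fun a b e =>
      Unitization.ext (congrArg Prod.fst e) (congrArg Prod.snd e))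
  have := comm_unital (Unitization (ZMod 2) R) (fun z hz => by
    have a := congrArg (fun z : Unitization (ZMod 2) R => z.fst) hz
    have b := congrArg (fun z : Unitization (ZMod 2) R => z.snd) hz
    simp only [Unitization.fst_mul, Unitization.fst_zero, mul_self_eq_zero] at a
    simp only [Unitization.snd_mul, a, zero_smul, zero_add, Unitization.snd_zero] at b
    exact Unitization.ext a (h _ b)) x y
  exact Unitization.inr_injective (R := ZMod 2) (by simpa using this)

lemma orbit {α β : Type} [Fintype α] [DecidableEq α] [AddCommGroup β] {p : ℕ} (hp : p.Prime)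
    (X : Finset α) (f : α → β) (σ : α → α) (h1 : ∀ a ∈ X, σ a ∈ X) (h2 : ∀ a ∈ X, σ^[p] a = a)
    (h3 : ∀ a ∈ X, f (σ a) = f a) (h4 : ∀ b : β, p • b = 0) :
    ∑ a ∈ X, f a = ∑ a ∈ X.filter (fun a => σ a = a), f a := by
  classical
  have := Fact.mk hp
  rw [← sum_fiberwise_of_maps_to (g := f) (t := X.image f) (fun a ha => mem_image_of_mem f ha),
    ← sum_fiberwise_of_maps_to (s := X.filter (fun a => σ a = a)) (g := f) (t := X.image f)
      (fun a ha => mem_image_of_mem f (mem_filter.1 ha).1)]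
  refine sum_congr rfl (fun b _ => ?_)
  rw [sum_congr rfl (g := fun _ => b) (fun a ha => (mem_filter.1 ha).2),
    sum_congr rfl (g := fun _ => b) (fun a ha => (mem_filter.1 ha).2), sum_const, sum_const]
  let τ : Function.End (X.filter (fun a => f a = b)) := fun a =>
    ⟨σ a, mem_filter.2 ⟨h1 _ (mem_filter.1 a.2).1, (h3 _ (mem_filter.1 a.2).1).trans (mem_filter.1 a.2).2⟩⟩
  have e : ∀ n a, ((τ ^ n) a).1 = σ^[n] a := fun n => by
    induction n with
    | zero => intro a; rfl
    | succ n ih => intro a; rw [pow_succ, Function.iterate_succ_apply]; exact ih (τ a)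
  have k := Equiv.Perm.card_fixedPoints_modEq (f := τ) (p := p) (n := 1) (funext fun a =>
    Subtype.ext (by rw [pow_one, e]; exact h2 _ (mem_filter.1 a.2).1))
  have k2 : Fintype.card τ.fixedPoints = #((X.filter (fun a => σ a = a)).filter (fun a => f a = b)) := by
    rw [← Fintype.card_coe]
    refine Fintype.card_congr ⟨fun a => ⟨a.1.1, mem_filter.2 ⟨mem_filter.2 ⟨(mem_filter.1 a.1.2).1,
      congrArg Subtype.val a.2⟩, (mem_filter.1 a.1.2).2⟩⟩, fun a => ⟨⟨a.1, mem_filter.2
      ⟨(mem_filter.1 (mem_filter.1 a.2).1).1, (mem_filter.1 a.2).2⟩⟩,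
      Subtype.ext (mem_filter.1 (mem_filter.1 a.2).1).2⟩, fun _ => rfl, fun _ => rfl⟩
  rw [Fintype.card_coe, k2] at k
  rw [← Nat.mod_add_div (#(X.filter _)) p, ← Nat.mod_add_div (#((X.filter _).filter _)) p, add_smul,
    add_smul, mul_smul, mul_smul, h4, h4, k]

lemma transl {α β : Type} [Fintype α] [DecidableEq α] [AddCommGroup α] [AddCommGroup β] {p : ℕ}
    (hp : p.Prime) (X : Finset α) (f : α → β) (t : α) (t0 : t ≠ 0) (tp : p • t = 0)
    (h1 : ∀ a ∈ X, a + t ∈ X) (h3 : ∀ a ∈ X, f (a + t) = f a) (h4 : ∀ b : β, p • b = 0) :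
    ∑ a ∈ X, f a = 0 := by
  rw [orbit hp X f (· + t) h1 (fun a _ => by rw [add_right_iterate_apply, tp, add_zero]) h3 h4,
    filter_false_of_mem (fun a _ h => t0 (by simpa using h)), sum_empty]

lemma coset {G H β : Type} [Fintype G] [AddCommGroup G] [Fintype H] [AddCommGroup H] [AddCommGroup β]
    (φ : H →+ G) (hφ : Function.Injective φ) (f : G → β) (h : ∀ a, ∑ n, f (a + φ n) = 0) :
    ∑ a, f a = 0 := by
  classical
  let _ := Fintype.ofFinite (G ⧸ φ.range)
  rw [← sum_fiberwise (s := univ) (g := fun a => (QuotientAddGroup.mk a : G ⧸ φ.range))]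
  refine sum_eq_zero (fun q _ => ?_)
  obtain ⟨a, rfl⟩ := QuotientAddGroup.mk_surjective q
  rw [← h a]
  symm
  refine sum_bij (fun n _ => a + φ n) (fun n _ => by simp) (fun n _ m _ e => hφ (add_left_cancel e))
    (fun b hb => ?_) (fun _ _ => rfl)
  obtain ⟨n, hn⟩ := QuotientAddGroup.eq.1 (mem_filter.1 hb).2.symm
  exact ⟨n, mem_univ _, by rw [hn]; abel⟩

lemma fiber {G H β : Type} [Fintype G] [AddCommGroup G] [Fintype H] [AddCommGroup H] [AddCommGroup β]
    (φ : G →+ H) (hφ : Function.Surjective φ) : ∃ κ : ℕ, κ * Fintype.card H = Fintype.card G ∧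
      ∀ f : H → β, ∑ a, f (φ a) = κ • ∑ b, f b := by
  classical
  have e : ∀ b, #{g | φ g = b} = #{g | φ g = 0} := fun b =>
    AddMonoidHom.card_fiber_eq_of_mem_range φ (hφ b) (hφ 0)
  refine ⟨#{g | φ g = 0}, ?_, fun f => ?_⟩
  · rw [← card_univ (α := G), card_eq_sum_card_fiberwise (f := φ) (s := univ) (t := univ) (fun _ _ => mem_univ _)]
    simp [e, mul_comm]
  · rw [← sum_fiberwise (s := univ) (g := φ), smul_sum]
    refine sum_congr rfl (fun b _ => ?_)
    rw [sum_congr rfl (g := fun _ => f b) (fun a ha => by rw [(mem_filter.1 ha).2]), sum_const, e]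

end Pool.Agent.H25.MatPow1
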