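import Mathlib
import Pool.Agent.H25.MatPow1

namespace Pool.Agent.H25.MatPow2

open Finset Matrix Pool.Agent.H25.MatPow1

variable {R : Type} {d : ℕ}

abbrev M (d : ℕ) (R : Type) := Matrix (Fin d) (Fin d) R

/-- `npw A k` is the product of `k + 1` copies of `A`. -/
def npw [NonUnitalRing R] (A : M d R) : ℕ → M d R
  | 0 => A
  | k + 1 => npw A k * A

/-- `T d R k` is the sum of the `(k+1)`-th powers of all matrices. -/
def T (d : ℕ) (R : Type) [NonUnitalRing R] [Fintype R] (k : ℕ) : M d R := ∑ A : M d R, npw A k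

section
variable {Q : Type} [Ring Q] {x : Q} (hx : x * x = 0)
include hx

lemma i1 : (1 - x) * (1 + x) = 1 := by noncomm_ring; simp [hx]
lemma i2 : (1 + x) * (1 - x) = 1 := by noncomm_ring; simp [hx]
lemma g1 (y : Q) : (1 - x) * ((1 + x) * y * (1 - x)) * (1 + x) = y := by
  rw [← mul_assoc, ← mul_assoc, i1 hx, one_mul, mul_assoc, i1 hx, mul_one]
lemma g2 (y z : Q) : (1 + x) * y * (1 - x) * ((1 + x) * z * (1 - x)) = (1 + x) * (y * z) * (1 - x) := by
  simp only [mul_assoc]
  rw [← mul_assoc (1 - x), i1 hx, one_mul]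
lemma g3 (y : Q) (h : y = (1 + x) * y * (1 - x)) : x * y = y * x := by
  have := congrArg (· * (1 + x)) h
  simp only [mul_assoc, i1 hx, mul_one] at this
  rw [mul_add, add_mul, mul_one, one_mul] at this
  exact (add_left_cancel this).symm
lemma g4 (y : Q) (h : x * y = y * x) : (1 + x) * y * (1 - x) = y := by
  rw [add_mul, one_mul, h, ← mul_one_add, mul_assoc, i2 hx, mul_one]
lemma g5 (n : ℕ) (y : Q) : (1 + x) * ((1 + n • x) * y * (1 - n • x)) * (1 - x) =
    (1 + (n + 1) • x) * y * (1 - (n + 1) • x) := by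
  have a : (1 + x) * (1 + n • x) = 1 + (n + 1) • x := by
    simp only [mul_add, add_mul, mul_smul_comm, hx, succ_nsmul]; simp; abel
  have b : (1 - n • x) * (1 - x) = 1 - (n + 1) • x := by
    simp only [mul_sub, sub_mul, smul_mul_assoc, hx, succ_nsmul]; simp; abel
  rw [← a, ← b]
  simp only [mul_assoc]
omit hx in
lemma g6 (p : ℕ) (y : Q) (z : p • y = 0) : (1 + p • x) * y * (1 - p • x) = y := by
  rw [add_mul, smul_mul_assoc, ← mul_smul_comm, z, mul_zero, add_zero, one_mul, mul_sub,
    mul_smul_comm, ← smul_mul_assoc, z, zero_mul, sub_zero, mul_one]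
end

section
variable [NonUnitalRing R]

def j (A : M d R) : M d (Unitization ℤ R) := A.map (Unitization.inrNonUnitalAlgHom ℤ R)

lemma j_apply (A : M d R) (a b) : j A a b = (A a b : Unitization ℤ R) := rfl
lemma j_mul (A B : M d R) : j (A * B) = j A * j B := Matrix.map_mul
lemma j_add (A B : M d R) : j (A + B) = j A + j B :=
  Matrix.ext (fun a b => by simp [j_apply])
lemma j_inj {A B : M d R} (h : j A = j B) : A = B := by
  ext a b; exact Unitization.inr_injective (R := ℤ) (congrFun (congrFun h a) b)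
lemma j_single (a b : Fin d) (r : R) : j (single a b r) = single a b (r : Unitization ℤ R) := by
  refine Matrix.ext (fun x y => ?_); simp only [j_apply, single_apply]; split_ifs <;> simp

lemma conj (x : M d (Unitization ℤ R)) (hx : x * x = 0) : ∃ σ : M d R →+ M d R,
    (∀ A, j (σ A) = (1 + x) * j A * (1 - x)) ∧ (∀ A k, npw (σ A) k = σ (npw A k)) ∧
    (∀ A, σ A = A ↔ x * j A = j A * x) ∧ Function.Injective σ ∧
    ∀ p : ℕ, (∀ r : R, p • r = 0) → ∀ A, σ^[p] A = A := by
  have h1 : ∀ A : M d R, j (((1 + x) * j A * (1 - x)).map (fun z => z.snd)) = (1 + x) * j A * (1 - x) := by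
    intro A
    refine Matrix.ext (fun a b => Unitization.ext ?_ (by simp [j_apply]))
    have : ∀ f : Fin d → Unitization ℤ R, (∑ i, f i).fst = ∑ i, (f i).fst :=
      fun f => map_sum (Unitization.fstHom ℤ R) f univ
    simp [j_apply, mul_apply, this]
  let σ : M d R →+ M d R := AddMonoidHom.mk' (fun A => ((1 + x) * j A * (1 - x)).map (fun z => z.snd))
    (fun A B => j_inj (by rw [h1, j_add, j_add, h1, h1, Matrix.mul_add, Matrix.add_mul]))
  have h2 : ∀ A, j (σ A) = (1 + x) * j A * (1 - x) := h1
  have h3 : ∀ A, (1 - x) * j (σ A) * (1 + x) = j A := fun A => by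
    rw [h2]; exact g1 (Q := M d (Unitization ℤ R)) hx _
  refine ⟨σ, h2, fun A k => ?_, fun A => ⟨fun h => ?_, fun h => j_inj ?_⟩,
    fun A B h => j_inj (by rw [← h3, h, h3]), fun p hp A => j_inj ?_⟩
  · induction k with
    | zero => rfl
    | succ k ih =>
      refine j_inj ?_
      rw [npw, npw, ih, j_mul, h2, h2, h2, j_mul]
      exact g2 (Q := M d (Unitization ℤ R)) hx _ _
  · have := h2 A
    rw [h] at this
    exact g3 (Q := M d (Unitization ℤ R)) hx _ this
  · rw [h2]; exact g4 (Q := M d (Unitization ℤ R)) hx _ h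
  · have e : ∀ n : ℕ, j (σ^[n] A) = (1 + n • x) * j A * (1 - n • x) := fun n => by
      induction n with
      | zero => simp
      | succ n ih =>
        rw [Function.iterate_succ_apply', h2, ih]
        exact g5 (Q := M d (Unitization ℤ R)) hx _ _
    have z : p • j A = 0 := by
      refine Matrix.ext (fun a b => ?_)
      rw [Matrix.smul_apply, j_apply, ← Unitization.inr_smul, hp]; rfl
    rw [e]; exact g6 (Q := M d (Unitization ℤ R)) _ _ z

lemma row (A : M (d + 2) R) (r : R) (h : ∀ k, npw A k 0 1 * r = 0) (k : ℕ) :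
    ∀ l, npw (A + single 1 0 r) k 0 l = npw A k 0 l := by
  induction k with
  | zero => intro l; simp [npw]
  | succ k ih =>
    intro l
    rw [npw, npw, mul_apply]
    simp only [ih]
    rw [← mul_apply, Matrix.mul_add, Matrix.add_apply]
    by_cases hl : l = 0
    · rw [hl, mul_single_apply_same, h, add_zero]
    · rw [mul_single_apply_of_ne _ _ _ _ _ hl, add_zero]

variable [Fintype R]

lemma scalar (k : ℕ) {a b : Fin d} (h : a ≠ b) : T d R k b a = 0 ∧ T d R k a a = T d R k b b := by
  obtain ⟨σ, -, s2, s3, s4, -⟩ := conj (R := R) (single a b 1) (single_mul_single_of_ne _ _ _ _ h.symm _)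
  have e := (s3 (T d R k)).1 (by
    rw [T, map_sum]
    simp only [← s2]
    exact (Finite.injective_iff_bijective.1 s4).sum_comp (fun A => npw A k))
  have e1 := congrFun (congrFun e a) a
  have e2 := congrFun (congrFun e a) b
  rw [single_mul_apply_same, mul_single_apply_of_ne _ _ _ _ _ h, one_mul, j_apply] at e1
  rw [single_mul_apply_same, mul_single_apply_same, one_mul, mul_one, j_apply, j_apply] at e2
  exact ⟨Unitization.inr_injective (R := ℤ) e1, (Unitization.inr_injective (R := ℤ) e2).symm⟩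

lemma T_eq (k : ℕ) : T (d + 1) R k = diagonal (fun _ => T (d + 1) R k 0 0) := by
  ext a b
  by_cases h : a = b
  · subst h
    by_cases h0 : a = 0
    · simp [h0]
    · simp [(scalar k h0).2]
  · rw [diagonal_apply_ne _ h, (scalar k (Ne.symm h)).1]

lemma big {p : ℕ} (hp : p.Prime) (hR : ∀ r : R, p • r = 0) (r : R) (hr : r ≠ 0) (k : ℕ) :
    T (d + 3) R k 0 0 = 0 := by
  classical
  have n12 : (2 : Fin (d + 3)) ≠ 1 := Fin.ne_of_val_ne (by rw [Fin.val_two]; simp)
  have n02 : (0 : Fin (d + 3)) ≠ 2 := Fin.ne_of_val_ne (by rw [Fin.val_two]; simp)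
  obtain ⟨σ, s1, s2, s3, -, s5⟩ := conj (R := R) (single (1 : Fin (d + 3)) 2 1)
    (single_mul_single_of_ne _ _ _ _ n12 _)
  rw [T, Matrix.sum_apply, orbit hp univ _ σ (by simp) (fun A _ => s5 p hR A) (fun A _ => by
    apply Unitization.inr_injective (R := ℤ)
    rw [s2, ← j_apply, s1, ← j_apply]
    simp [mul_sub, add_mul, mul_single_apply_of_ne _ _ _ _ _ n02]) hR]
  refine transl hp _ _ (single 1 0 r) (fun h => hr (by simpa using congrFun (congrFun h 1) 0)) (by ext; simp [hR]) (fun A hA => ?_)
    (fun A hA => row A r (fun k => ?_) k 0) hR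
  · refine mem_filter.2 ⟨mem_univ _, ?_⟩
    rw [map_add, (mem_filter.1 hA).2, (s3 _).2]
    rw [j_single, single_mul_single_of_ne _ _ _ _ n12, single_mul_single_of_ne _ _ _ _ (by simp)]
  · have c : ∀ i, i ≠ 1 → A i 1 = 0 := fun i hi => by
      have := congrFun (congrFun ((s3 A).1 (mem_filter.1 hA).2) i) 2
      rw [single_mul_apply_of_ne _ _ _ _ _ hi, mul_single_apply_same, mul_one, j_apply] at this
      exact Unitization.inr_injective (R := ℤ) this.symm
    have : npw A k 0 1 = 0 := by
      induction k with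
      | zero => exact c 0 (by simp)
      | succ k ih =>
        rw [npw, mul_apply]
        exact sum_eq_zero (fun i _ => by
          by_cases hi : i = 1
          · rw [hi, ih, zero_mul]
          · rw [c i hi, mul_zero])
    rw [this, zero_mul]

lemma oddp {p : ℕ} (hp : p.Prime) (h2 : p ≠ 2) (hR : ∀ r : R, p • r = 0) (r : R) (hr : r ≠ 0) (k : ℕ) :
    T 2 R k 0 0 = 0 := by
  classical
  obtain ⟨σ, s1, s2, s3, -, s5⟩ := conj (R := R) (single (0 : Fin 2) 1 1)
    (single_mul_single_of_ne _ _ _ _ (by simp) _)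
  have e : T 2 R k 0 0 + T 2 R k 1 1 = 0 := by
    rw [T, Matrix.sum_apply, Matrix.sum_apply, ← sum_add_distrib,
      orbit hp univ _ σ (by simp) (fun A _ => s5 p hR A) (fun A _ => by
        apply Unitization.inr_injective (R := ℤ)
        rw [s2, Unitization.inr_add, Unitization.inr_add, ← j_apply, ← j_apply, s1, ← j_apply, ← j_apply]
        simp [mul_sub, add_mul]) hR]
    refine transl hp _ _ (single 0 1 r) (fun h => hr (by simpa using congrFun (congrFun h 0) 1)) (by ext; simp [hR]) (fun A hA => ?_)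
      (fun A hA => ?_) hR
    · refine mem_filter.2 ⟨mem_univ _, ?_⟩
      rw [map_add, (mem_filter.1 hA).2, (s3 _).2]
      rw [j_single, single_mul_single_of_ne _ _ _ _ (by simp), single_mul_single_of_ne _ _ _ _ (by simp)]
    · have c : A 1 0 = 0 := by
        have := congrFun (congrFun ((s3 A).1 (mem_filter.1 hA).2) 0) 0
        rw [single_mul_apply_same, mul_single_apply_of_ne _ _ _ _ _ (by simp), one_mul, j_apply] at this
        exact Unitization.inr_injective (R := ℤ) this
      have : npw A k 1 0 = 0 ∧ npw (A + single 0 1 r) k 1 0 = 0 ∧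
          npw (A + single 0 1 r) k 0 0 = npw A k 0 0 ∧ npw (A + single 0 1 r) k 1 1 = npw A k 1 1 := by
        induction k with
        | zero => simp [npw, c]
        | succ k ih => simp [npw, mul_apply, c, ih]
      rw [this.2.2.1, this.2.2.2]
  rw [← (scalar k (show (0 : Fin 2) ≠ 1 by simp)).2] at e
  obtain ⟨q, rfl⟩ := hp.odd_of_ne_two h2
  have := hR (T 2 R k 0 0)
  rwa [succ_nsmul, mul_comm, mul_nsmul', two_nsmul, e, smul_zero, zero_add] at this

lemma nil (hR : ∀ r : R, 2 • r = 0) (r : R) (hr : r ≠ 0) (h : r * r = 0) (k : ℕ) :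
    T 2 R k 0 0 = 0 := by
  classical
  have z : (r : Unitization ℤ R) * r = 0 := by rw [← Unitization.inr_mul, h]; rfl
  obtain ⟨σ, s1, s2, s3, -, s5⟩ := conj (R := R) (single (1 : Fin 2) 1 r)
    (by rw [single_mul_single_same, z, single_zero])
  rw [T, Matrix.sum_apply, orbit Nat.prime_two univ _ σ (by simp) (fun A _ => s5 2 hR A) (fun A _ => by
    apply Unitization.inr_injective (R := ℤ)
    rw [s2, ← j_apply, s1, ← j_apply]
    simp [mul_sub, add_mul]) hR]
  refine transl Nat.prime_two _ _ (single 1 0 r) (fun h => hr (by simpa using congrFun (congrFun h 1) 0)) (by ext; simp [hR]) (fun A hA => ?_)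
    (fun A hA => row A r (fun k => ?_) k 0) hR
  · refine mem_filter.2 ⟨mem_univ _, ?_⟩
    rw [map_add, (mem_filter.1 hA).2, (s3 _).2]
    rw [j_single, single_mul_single_same, z, single_zero, single_mul_single_of_ne _ _ _ _ (by simp)]
  · have c1 : A 0 1 * r = 0 := by
      have := congrFun (congrFun ((s3 A).1 (mem_filter.1 hA).2) 0) 1
      rw [single_mul_apply_of_ne _ _ _ _ _ (by simp), mul_single_apply_same, j_apply,
        ← Unitization.inr_mul] at this
      exact Unitization.inr_injective (R := ℤ) this.symm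
    have c2 : A 1 1 * r = r * A 1 1 := by
      have := congrFun (congrFun ((s3 A).1 (mem_filter.1 hA).2) 1) 1
      rw [single_mul_apply_same, mul_single_apply_same, j_apply,
        ← Unitization.inr_mul, ← Unitization.inr_mul] at this
      exact Unitization.inr_injective (R := ℤ) this.symm
    induction k with
    | zero => exact c1
    | succ k ih =>
      rw [npw, mul_apply, Fin.sum_univ_two, add_mul, mul_assoc, c1, mul_assoc, c2, ← mul_assoc, ih]
      simp

lemma sum_all (hR : ∀ r : R, 2 • r = 0) (a b : R) (ha : a ≠ 0) (hb : b ≠ 0) (hab : a ≠ b) :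
    ∑ x : R, x = 0 := by
  classical
  have key : ∀ a : R, a ≠ 0 → ∑ x : R, x = 0 ∨ ∑ x : R, x = a := fun a ha => by
    have := transl Nat.prime_two univ (QuotientAddGroup.mk' (AddSubgroup.zmultiples a)) a ha (hR a)
      (by simp) (by simp) (fun q => by
        obtain ⟨y, rfl⟩ := QuotientAddGroup.mk'_surjective _ q
        rw [← map_nsmul, hR, map_zero])
    rw [← map_sum, QuotientAddGroup.mk'_apply, QuotientAddGroup.eq_zero_iff] at this
    obtain ⟨n, hn⟩ := AddSubgroup.mem_zmultiples_iff.1 this
    have h2 : (2 : ℤ) • a = 0 := by rw [two_zsmul, ← two_nsmul, hR]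
    rcases Int.even_or_odd' n with ⟨m, rfl | rfl⟩
    · left; rw [← hn, mul_comm, mul_smul, h2, smul_zero]
    · right; rw [← hn, add_smul, mul_comm, mul_smul, h2, smul_zero, zero_add, one_smul]
  rcases key a ha with h | h
  · exact h
  · rcases key b hb with h' | h'
    · exact h'
    · exact absurd (h.symm.trans h') hab

def W (τ δ x y : R) : ℕ → R
  | 0 => x
  | 1 => y
  | k + 2 => τ * W τ δ x y (k + 1) + δ * W τ δ x y k

end

lemma red [NonUnitalCommRing R] [Fintype R] (hR : ∀ r : R, 2 • r = 0) (r0 : R) (hr0 : r0 ≠ 0)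
    (h : ∀ r : R, r * r = 0 → r = 0) (k : ℕ) :
    T 2 R k 0 0 = ∑ τ : R, ∑ δ : R, W τ δ (∑ x : R, x) (τ * ∑ x : R, x) k := by
  classical
  have u : ∀ r : R, (2 : Unitization ℤ R) * r = 0 := fun r => by
    rw [two_mul, ← Unitization.inr_add, ← two_nsmul, hR]; rfl
  have aa : ∀ r : R, r + r = 0 := fun r => by rw [← two_nsmul, hR]
  have e : ∀ (A : M 2 R) k, npw A k 0 0 = W (A 0 0 + A 1 1) (A 0 0 * A 1 1 + A 0 1 * A 1 0) (A 0 0)
      ((A 0 0 + A 1 1) * A 0 0 + (A 0 0 * A 1 1 + A 0 1 * A 1 0)) k := by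
    intro A k
    induction k using Nat.twoStepInduction with
    | zero => rfl
    | one =>
      apply Unitization.inr_injective (R := ℤ)
      simp only [npw, W, mul_apply, Fin.sum_univ_two, Unitization.inr_add, Unitization.inr_mul]
      linear_combination (-(A 0 0 : Unitization ℤ R)) * u (A 1 1)
    | more k i1 i2 =>
      rw [W, ← i1, ← i2]
      apply Unitization.inr_injective (R := ℤ)
      simp only [npw, mul_apply, Fin.sum_univ_two, Unitization.inr_add, Unitization.inr_mul]
      linear_combination (-(A 0 0 : Unitization ℤ R) * ((npw A k 0 0 : R) : Unitization ℤ R)) * u (A 1 1)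
  have inj : Function.Injective (fun b : R => b * b) := fun b c hbc => by
    have : b + c = 0 := h _ (by
      rw [add_mul, mul_add, mul_add, show b * b = c * c from hbc, mul_comm c b, add_assoc,
        ← add_assoc (b * c), aa, zero_add, aa])
    rw [← add_zero b, ← aa c, ← add_assoc, this, zero_add]
  rw [T, Matrix.sum_apply, orbit Nat.prime_two univ _ transpose (by simp) (fun A _ => rfl) (fun A _ => by
    rw [e, e]; simp [mul_comm]) hR]
  have f : ∀ τ δ k, W τ δ (∑ x : R, x) (τ * ∑ x : R, x) k = ∑ x : R, W τ δ x (τ * x + δ) k := by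
    intro τ δ k
    induction k using Nat.twoStepInduction with
    | zero => rfl
    | one =>
      simp only [W]
      rw [sum_add_distrib, ← mul_sum, transl Nat.prime_two univ (fun _ : R => δ) r0 hr0 (hR _) (by simp)
        (by simp) hR, add_zero]
    | more k i1 i2 => simp only [W]; rw [i1, i2, sum_add_distrib, mul_sum, mul_sum]
  simp only [f]
  rw [← Fintype.sum_prod_type', ← Fintype.sum_prod_type']
  refine sum_bij (fun A _ => ((A 0 0 + A 1 1, A 0 0 * A 1 1 + A 0 1 * A 1 0), A 0 0)) (by simp)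
    (fun A hA B hB e => ?_) (fun z _ => ?_) (fun A _ => e A k)
  · have a : A 1 0 = A 0 1 := congrFun (congrFun (mem_filter.1 hA).2 0) 1
    have b : B 1 0 = B 0 1 := congrFun (congrFun (mem_filter.1 hB).2 0) 1
    simp only [Prod.mk.injEq] at e
    obtain ⟨⟨e1, e2⟩, e3⟩ := e
    rw [e3] at e1
    have e4 := add_left_cancel e1
    rw [e3, e4, a, b] at e2
    have e5 := inj (add_left_cancel e2)
    ext i l
    fin_cases i <;> fin_cases l <;> simp [e3, e4, e5, a, b]
  · obtain ⟨b, hb⟩ := Finite.injective_iff_surjective.1 inj (z.2 * (z.2 + z.1.1) + z.1.2)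
    refine ⟨!![z.2, b; b, z.2 + z.1.1], mem_filter.2 ⟨mem_univ _, ?_⟩, ?_⟩
    · ext i l
      fin_cases i <;> fin_cases l <;> rfl
    · simp only at hb
      simp [hb, ← add_assoc, aa]

end Pool.Agent.H25.MatPow2
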