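import Pool.Agent.H25.MatDef

set_option autoImplicit false

namespace Pool.Agent.H25.MatTor

open MvPolynomial

section gen
variable {V : Type} (G : SimpleGraph V) (K : Type) [Field K]

noncomputable def deg1 (M : Matching G) : Option (Sym2 V) →₀ ℕ :=
  Finsupp.single none 1 + ∑ e ∈ M.1, Finsupp.single (some e) 1

noncomputable def deg : (Matching G →₀ ℕ) →+ (Option (Sym2 V) →₀ ℕ) :=
  Finsupp.liftAddHom fun M => multiplesHom _ (deg1 G M)

lemma deg_single (M : Matching G) (n : ℕ) : deg G (Finsupp.single M n) = n • deg1 G M := by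
  simp [deg]

lemma toric_X (M : Matching G) : toricMap G K (X M) = monomial (deg1 G M) 1 := by
  rw [toricMap, aeval_X, deg1, ← one_mul (1 : K), ← monomial_mul, monomial_sum_one]
  rfl

lemma toric_mono (v : Matching G →₀ ℕ) (c : K) :
    toricMap G K (monomial v c) = monomial (deg G v) c := by
  induction v using Finsupp.induction_linear generalizing c with
  | zero => simp [← C_apply]
  | add a b ha hb => rw [← mul_one c, ← monomial_mul, map_mul, ha, hb, monomial_mul, map_add]
  | single M n =>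
    rw [← C_mul_X_pow_eq_monomial, map_mul, map_pow, toric_X, deg_single, monomial_pow]
    simp [C_mul_monomial]

theorem crit (D1 D2 : Matching G →₀ ℕ) (h12 : D1 ≠ D2) (hd : deg G D1 = deg G D2)
    (hu : ∀ D, deg G D = deg G D1 → ∀ M, D M ≠ 0 → D1 M ≠ 0 → D = D1)
    (S : Set (MvPolynomial (Matching G) K)) (hS : Ideal.span S = RingHom.ker (toricMap G K)) :
    ∃ f ∈ S, (D1.sum fun _ n => n) ≤ f.totalDegree := by
  classical
  by_contra h
  push Not at h
  have key : ∀ f ∈ Ideal.span S, ∀ g, coeff D1 (g * f) = 0 := by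
    intro f hf
    induction hf using Submodule.span_induction with
    | zero => simp
    | add a b _ _ ha hb => intro g; rw [mul_add, coeff_add, ha, hb, add_zero]
    | smul a b _ hb => intro g; rw [smul_eq_mul, ← mul_assoc, hb]
    | mem f hf =>
      intro g
      rw [coeff_mul]
      refine Finset.sum_eq_zero fun p hp => ?_
      have e : p.1 + p.2 = D1 := by simpa using hp
      by_contra hne
      have hv : coeff p.2 f ≠ 0 := fun h0 => hne (by rw [h0, mul_zero])
      have hu0 : p.1 ≠ 0 := by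
        intro h0
        rw [h0, zero_add] at e
        have := le_totalDegree (mem_support_iff.2 hv)
        rw [e] at this
        exact absurd (h f hf) (not_lt.2 this)
      obtain ⟨M, hM⟩ := Finsupp.ne_iff.1 hu0
      have hM' : p.1 M ≠ 0 := hM
      have hk : toricMap G K f = 0 := by
        have : f ∈ RingHom.ker (toricMap G K) := hS ▸ Ideal.subset_span hf
        exact this
      apply hv
      have h2 := congrArg (coeff (deg G p.2)) hk
      rw [f.as_sum, map_sum, coeff_sum, Finset.sum_eq_single p.2] at h2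
      · simpa [toric_mono] using h2
      · intro v _ hvp
        rw [toric_mono, coeff_monomial, if_neg]
        intro hdeg
        apply hvp
        have := hu (p.1 + v) (by rw [← e, map_add, map_add, hdeg]) M (by simp [hM'])
          (by rw [← e]; simp [hM'])
        exact add_left_cancel (this.trans e.symm)
      · intro hn
        exact absurd (mem_support_iff.2 hv) hn
  have := key (monomial D1 1 - monomial D2 1) (by
    rw [hS, RingHom.mem_ker, map_sub, toric_mono, toric_mono, hd, sub_self]) 1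
  simp [coeff_monomial, h12.symm] at this

lemma deg_none (D : Matching G →₀ ℕ) : deg G D none = D.sum fun _ n => n := by
  simp [deg, Finsupp.sum, deg1, Finset.sum_apply']

lemma deg_some [DecidableEq V] (D : Matching G →₀ ℕ) (e : Sym2 V) :
    deg G D (some e) = D.sum fun M n => if e ∈ M.1 then n else 0 := by
  simp [deg, Finsupp.sum, deg1, Finset.sum_apply', Finsupp.single_apply]

end gen

def ed : Fin 16 → Sym2 (Fin 10) :=
  ![s(0, 1), s(0, 3), s(0, 7), s(1, 2), s(1, 4), s(2, 5), s(2, 8), s(3, 5), s(3, 6), s(3, 8),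
    s(4, 6), s(4, 9), s(5, 6), s(5, 7), s(7, 9), s(8, 9)]

def G : SimpleGraph (Fin 10) := SimpleGraph.fromEdgeSet (Set.range ed)

lemma ed_inj : Function.Injective ed := by decide +kernel

lemma ed_mem (i : Fin 16) : ed i ∈ G.edgeSet := by
  rw [G, SimpleGraph.edgeSet_fromEdgeSet]
  refine ⟨⟨i, rfl⟩, ?_⟩
  have : ∀ i, ¬ (ed i).IsDiag := by decide +kernel
  simpa using this i

def T : Fin 8 → Finset (Fin 16) :=
  ![{0, 5, 9, 10, 14}, {0, 6, 7, 10, 14}, {0, 6, 8, 11, 13}, {1, 3, 10, 13, 15}, {1, 4, 6, 12, 14},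
    {2, 3, 7, 10, 15}, {2, 3, 9, 11, 12}, {2, 4, 5, 8, 15}]

lemma T_ok : ∀ j, ∀ a ∈ T j, ∀ b ∈ T j, a ≠ b → ∀ v, v ∈ ed a → v ∉ ed b := by decide +kernel

def P (j : Fin 8) : Matching G :=
  ⟨(T j).image ed, by
    constructor
    · intro e he
      obtain ⟨a, -, rfl⟩ := Finset.mem_image.1 he
      exact ed_mem a
    · intro e he f hf hef
      obtain ⟨a, ha, rfl⟩ := Finset.mem_image.1 he
      obtain ⟨b, hb, rfl⟩ := Finset.mem_image.1 hf
      exact T_ok j a ha b hb fun h => hef (h ▸ rfl)⟩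

lemma mem_P (j : Fin 8) (i : Fin 16) : ed i ∈ (P j).1 ↔ i ∈ T j :=
  ed_inj.mem_finset_image

lemma P_inj : Function.Injective P := by
  intro a b h
  have : T a = T b := by ext i; rw [← mem_P, ← mem_P, h]
  have h2 : ∀ a b, T a = T b → a = b := by decide +kernel
  exact h2 a b this

def ind (M : Matching G) (i : Fin 16) : ℕ := if ed i ∈ M.1 then 1 else 0

lemma conf (M : Matching G) (i j : Fin 16) (hij : i ≠ j) (v : Fin 10) (hi : v ∈ ed i)
    (hj : v ∈ ed j) : ind M i + ind M j ≤ 1 := by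
  unfold ind
  split_ifs with h1 h2
  · exact absurd hj (M.2.2 _ h1 _ h2 (fun h => hij (ed_inj h)) v hi)
  all_goals omega

lemma eq_P (M : Matching G) (j : Fin 8) (h : ∀ i, ind M i = if i ∈ T j then 1 else 0) :
    M = P j := by
  apply Subtype.ext
  ext e
  constructor
  · intro he
    have h1 := M.2.1 e he
    rw [G, SimpleGraph.edgeSet_fromEdgeSet] at h1
    obtain ⟨i, rfl⟩ := h1.1
    have := h i
    rw [ind, if_pos he] at this
    rw [mem_P]
    by_contra hn
    simp [hn] at this
  · intro he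
    obtain ⟨i, hi, rfl⟩ := Finset.mem_image.1 he
    have := h i
    rw [ind, if_pos hi] at this
    by_contra hn
    simp [hn] at this

def good (x0 x1 x2 x3 x4 x5 x6 x7 x8 x9 x10 x11 x12 x13 x14 x15 : ℕ) : Bool := decide (
    x0 + x1 + x2 ≤ 1 → x0 + x3 + x4 ≤ 1 → x3 + x5 + x6 ≤ 1 → x1 + x7 + x8 + x9 ≤ 1 →
    x4 + x10 + x11 ≤ 1 → x5 + x7 + x12 + x13 ≤ 1 → x8 + x10 + x12 ≤ 1 → x2 + x13 + x14 ≤ 1 →
    x6 + x9 + x15 ≤ 1 → x11 + x14 + x15 ≤ 1 →
    x0 + x1 + x2 + x3 + x4 + x5 + x6 + x7 + x8 + x9 + x10 + x11 + x12 + x13 + x14 + x15 < 5 ∨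
    ∃ j, ∀ i : Fin 16, (![x0, x1, x2, x3, x4, x5, x6, x7, x8, x9, x10, x11, x12, x13, x14, x15] i : ℕ)
      = if i ∈ T j then 1 else 0)

set_option synthInstance.maxSize 100000 in
set_option maxRecDepth 100000 in
lemma chk : ∀ x0 ∈ List.range 2, ∀ x1 ∈ List.range 2, ∀ x2 ∈ List.range 2, ∀ x3 ∈ List.range 2, ∀ x4 ∈ List.range 2, ∀ x5 ∈ List.range 2, ∀ x6 ∈ List.range 2, ∀ x7 ∈ List.range 2, ∀ x8 ∈ List.range 2, ∀ x9 ∈ List.range 2, ∀ x10 ∈ List.range 2, ∀ x11 ∈ List.range 2, ∀ x12 ∈ List.range 2, ∀ x13 ∈ List.range 2, ∀ x14 ∈ List.range 2, ∀ x15 ∈ List.range 2,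
    good x0 x1 x2 x3 x4 x5 x6 x7 x8 x9 x10 x11 x12 x13 x14 x15 = true := by decide +kernel

lemma classify (M : Matching G) : ∑ i, ind M i < 5 ∨ ∃ j, M = P j := by
  have h1 : ∀ i, ind M i ≤ 1 := fun i => by unfold ind; split_ifs <;> omega
  have c := conf M
  have tri : ∀ (i j k : Fin 16) (v : Fin 10), i ≠ j → i ≠ k → j ≠ k → v ∈ ed i → v ∈ ed j →
      v ∈ ed k → ind M i + ind M j + ind M k ≤ 1 := by
    intro i j k v a b d e f g
    have := c i j a v e f
    have := c i k b v e g
    have := c j k d v f g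
    have := h1 i
    have := h1 j
    have := h1 k
    omega
  have quad : ∀ (i j k l : Fin 16) (v : Fin 10), i ≠ j → i ≠ k → j ≠ k → i ≠ l → j ≠ l → k ≠ l →
      v ∈ ed i → v ∈ ed j → v ∈ ed k → v ∈ ed l → ind M i + ind M j + ind M k + ind M l ≤ 1 := by
    intro i j k l v a b d a' b' d' e f g g'
    have := tri i j k v a b d e f g
    have := c i l a' v e g'
    have := c j l b' v f g'
    have := c k l d' v g g'
    have := h1 l
    omega
  have h2 : ∀ i, ind M i ∈ List.range 2 := fun i => List.mem_range.2 (Nat.lt_succ_of_le (h1 i))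
  rcases of_decide_eq_true (chk _ (h2 0) _ (h2 1) _ (h2 2) _ (h2 3) _ (h2 4) _ (h2 5) _ (h2 6) _ (h2 7) _ (h2 8)
    _ (h2 9) _ (h2 10) _ (h2 11) _ (h2 12) _ (h2 13) _ (h2 14) _ (h2 15))
    (by apply tri _ _ _ 0 <;> decide) (by apply tri _ _ _ 1 <;> decide)
    (by apply tri _ _ _ 2 <;> decide) (by apply quad _ _ _ _ 3 <;> decide)
    (by apply tri _ _ _ 4 <;> decide) (by apply quad _ _ _ _ 5 <;> decide)
    (by apply tri _ _ _ 6 <;> decide) (by apply tri _ _ _ 7 <;> decide)
    (by apply tri _ _ _ 8 <;> decide) (by apply tri _ _ _ 9 <;> decide) with h | ⟨j, hj⟩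
  · left
    simp only [Fin.sum_univ_succ, Fin.sum_univ_zero]
    simp only [Fin.succ_zero_eq_one, Fin.reduceSucc]
    omega
  · right
    refine ⟨j, eq_P M j fun i => ?_⟩
    rw [← hj i]
    fin_cases i <;> rfl

noncomputable def DD (c : Fin 8 → ℕ) : Matching G →₀ ℕ := ∑ j, Finsupp.single (P j) (c j)

lemma DD_P (c : Fin 8 → ℕ) (j : Fin 8) : DD c (P j) = c j := by
  classical
  simp [DD, Finset.sum_apply', Finsupp.single_apply, P_inj.eq_iff]

lemma DD_none (c : Fin 8 → ℕ) : deg G (DD c) none = ∑ j, c j := by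
  simp [DD, deg_single, deg1, Finset.sum_apply']

lemma DD_some (c : Fin 8 → ℕ) (e : Sym2 (Fin 10)) :
    deg G (DD c) (some e) = ∑ j, if e ∈ (P j).1 then c j else 0 := by
  simp [DD, deg_single, deg1, Finset.sum_apply', Finsupp.single_apply]

def c1 : Fin 8 → ℕ := ![1, 0, 1, 0, 1, 2, 0, 0]
def c2 : Fin 8 → ℕ := ![0, 2, 0, 1, 0, 0, 1, 1]

lemma deg12 : deg G (DD c1) = deg G (DD c2) := by
  ext e
  cases e with
  | none => rw [DD_none, DD_none]; decide
  | some e =>
    rw [DD_some, DD_some]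
    by_cases h : ∃ i, ed i = e
    · obtain ⟨i, rfl⟩ := h
      simp only [mem_P]
      revert i
      decide +kernel
    · have : ∀ j, e ∉ (P j).1 := by
        intro j hj
        obtain ⟨i, -, hi⟩ := Finset.mem_image.1 hj
        exact h ⟨i, hi⟩
      simp [this]

lemma uniq (D : Matching G →₀ ℕ) (hD : deg G D = deg G (DD c1)) (M : Matching G) (h1 : D M ≠ 0)
    (h2 : DD c1 M ≠ 0) : D = DD c1 := by
  classical
  have ind5 : ∀ j, ∑ i, ind (P j) i = 5 := by
    simp only [ind, mem_P]
    decide +kernel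
  have s5 : ∑ N ∈ D.support, D N = 5 := by
    have := deg_none G D
    rw [hD, DD_none] at this
    exact this.symm
  have s25 : ∑ N ∈ D.support, D N * ∑ i, ind N i = 25 := by
    have : ∑ i, deg G D (some (ed i)) = 25 := by
      simp only [hD, DD_some, mem_P]
      decide +kernel
    rw [← this]
    simp only [deg_some, Finsupp.sum, Finset.mul_sum, ind, mul_ite, mul_one, mul_zero]
    exact Finset.sum_comm
  have hall : ∀ N ∈ D.support, ∃ j, N = P j := by
    by_contra hn
    push Not at hn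
    obtain ⟨N, hN, hN2⟩ := hn
    have : ∑ N ∈ D.support, D N * ∑ i, ind N i < ∑ N ∈ D.support, D N * 5 := by
      refine Finset.sum_lt_sum (fun N _ => Nat.mul_le_mul_left _ ?_) ⟨N, hN, ?_⟩
      · rcases classify N with h | ⟨j, rfl⟩
        · exact h.le
        · exact (ind5 j).le
      · rcases classify N with h | ⟨j, rfl⟩
        · exact Nat.mul_lt_mul_of_pos_left h (Nat.pos_of_ne_zero (Finsupp.mem_support_iff.1 hN))
        · exact absurd rfl (hN2 j)
    rw [← Finset.sum_mul, s5, s25] at this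
    omega
  obtain ⟨c, rfl⟩ : ∃ c, D = DD c := by
    refine ⟨fun j => D (P j), ?_⟩
    ext N
    by_cases h : ∃ j, N = P j
    · obtain ⟨j, rfl⟩ := h
      rw [DD_P]
    · rw [Finsupp.notMem_support_iff.1 fun hN => h (hall N hN)]
      push Not at h
      simp [DD, Finset.sum_apply', Finsupp.single_apply, fun j => (h j).symm]
  obtain ⟨j, rfl⟩ := hall M (Finsupp.mem_support_iff.2 h1)
  rw [DD_P] at h1 h2
  have e : ∀ i, (∑ j, if i ∈ T j then c j else 0) = ∑ j, if i ∈ T j then c1 j else 0 := by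
    intro i
    have := DFunLike.congr_fun hD (some (ed i))
    simpa only [DD_some, mem_P] using this
  have e0 := e 0
  have e1 := e 1
  have e2 := e 2
  have e3 := e 3
  have e4 := e 4
  have e5 := e 5
  have e7 := e 7
  have e8 := e 8
  have e9 := e 9
  have e13 := e 13
  simp [Fin.sum_univ_eight, T, c1] at e0 e1 e2 e3 e4 e5 e7 e8 e9 e13
  have : c 0 = 1 := by
    fin_cases j <;> simp [c1] at h1 h2 <;> omega
  congr 1
  funext k
  fin_cases k <;> simp [c1] <;> omega

theorem main (K : Type) [Field K] (S : Set (MvPolynomial (Matching G) K))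
    (hS : Ideal.span S = RingHom.ker (toricMap G K)) : ∃ f ∈ S, 5 ≤ f.totalDegree := by
  have := crit G K (DD c1) (DD c2) (fun h => by
    have := DFunLike.congr_fun h (P 0)
    rw [DD_P, DD_P] at this
    exact absurd this (by decide)) deg12 uniq S hS
  rwa [← deg_none, DD_none] at this

end Pool.Agent.H25.MatTor
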