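import Mathlib

open Finset Filter Topology

namespace Pool.Agent.H25.Multi

/-- The number of distinct multinomial coefficients with upper entry `n`. -/
def M (n : ℕ) : ℕ :=
  #(univ.image fun l : n.Partition => n.factorial / (l.parts.map Nat.factorial).prod)

lemma rankin {α : Type*} (S : Finset α) (N B : ℕ) (d : α → ℕ → ℕ)
    (inj : ∀ a ∈ S, ∀ b ∈ S, (∀ i < N, d a i = d b i) → a = b) (hB : ∀ a ∈ S, ∀ i, d a i < B)
    (y : ℕ → ℝ) (hy : ∀ i, 0 ≤ y i ∧ y i < 1) (W : ℝ)
    (hW : ∀ a ∈ S, W ≤ ∏ i ∈ range N, y i ^ d a i) :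
    #S * W ≤ ∏ i ∈ range N, (1 - y i)⁻¹ := by
  classical
  calc _ = ∑ a ∈ S, W := by simp
    _ ≤ ∑ a ∈ S, ∏ i : Fin N, y i ^ d a i := sum_le_sum fun a ha => by
        rw [← prod_range fun i => y i ^ d a i]; exact hW a ha
    _ = ∑ f ∈ S.image fun a (i : Fin N) => d a i, ∏ i : Fin N, y i ^ f i := by
        rw [sum_image fun a ha b hb h => inj a ha b hb fun i hi => congrFun h ⟨i, hi⟩]
    _ ≤ ∑ f ∈ Fintype.piFinset fun _ : Fin N => range B, ∏ i : Fin N, y i ^ f i := by
        refine sum_le_sum_of_subset_of_nonneg (fun f hf => ?_) fun f _ _ =>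
          prod_nonneg fun i _ => pow_nonneg (hy i).1 _
        obtain ⟨a, ha, rfl⟩ := mem_image.1 hf
        simpa using fun i : Fin N => hB a ha i
    _ = ∏ i : Fin N, ∑ j ∈ range B, y i ^ j := (prod_univ_sum _ _).symm
    _ ≤ ∏ i : Fin N, (1 - y i)⁻¹ := prod_le_prod
        (fun i _ => sum_nonneg fun j _ => pow_nonneg (hy i).1 _) fun i _ =>
        sum_le_hasSum _ (fun j _ => pow_nonneg (hy i).1 _)
          (hasSum_geometric_of_lt_one (hy i).1 (hy i).2)
    _ = _ := (prod_range fun i => (1 - y i)⁻¹).symm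

lemma head (U N : ℕ) (hU : 0 < U) :
    ∏ i ∈ range N, (1 + (U : ℝ) ^ 2 / (i + 1) ^ 2) ≤ Real.exp (4 * U) := by
  have U1 : (1 : ℝ) ≤ U := by exact_mod_cast hU
  have h1 : ∏ i ∈ range U, (1 + (U : ℝ) ^ 2 / (i + 1) ^ 2) ≤ Real.exp (3 * U) := by
    calc _ ≤ ∏ i ∈ range U, 2 * ((U : ℝ) / ((i + 1 : ℕ) : ℝ)) ^ 2 := by
          refine prod_le_prod (fun i _ => by positivity) fun i hi => ?_
          have : (i + 1 : ℝ) ≤ U := by exact_mod_cast mem_range.1 hi
          have : (1 : ℝ) ≤ U ^ 2 / (i + 1) ^ 2 := by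
            rw [le_div_iff₀ (by positivity), one_mul]; gcongr
          push_cast; rw [div_pow]; linarith
      _ = 2 ^ U * ((U : ℝ) ^ U / U.factorial) ^ 2 := by
          rw [prod_mul_distrib, prod_pow, prod_div_distrib, ← Nat.cast_prod fun x => x + 1,
            prod_range_add_one_eq_factorial]
          simp
      _ ≤ Real.exp 1 ^ U * Real.exp U ^ 2 := by
          gcongr
          · linarith [Real.add_one_le_exp 1]
          · exact Real.pow_div_factorial_le_exp _ (by positivity) _
      _ = _ := by rw [← Real.exp_nat_mul, ← Real.exp_nat_mul, ← Real.exp_add]; congr 1; push_cast; ring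
  have h2 : ∀ k, ∏ i ∈ range (U + k), (1 + (U : ℝ) ^ 2 / (i + 1) ^ 2) ≤
      Real.exp (4 * U - U ^ 2 / (U + k)) := fun k => by
    induction k with
    | zero => refine h1.trans (le_of_eq ?_); congr 1; push_cast; field_simp; ring
    | succ k ih =>
      rw [← add_assoc, prod_range_succ]
      refine (mul_le_mul ih ((add_comm _ _).trans_le (Real.add_one_le_exp _)) (by positivity)
        (by positivity)).trans ?_
      rw [← Real.exp_add, Real.exp_le_exp]
      push_cast
      have : (U : ℝ) ^ 2 / (U + k + 1) ^ 2 ≤ U ^ 2 / (U + k) - U ^ 2 / (U + (k + 1)) := by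
        rw [div_sub_div _ _ (by positivity) (by positivity), div_le_div_iff₀ (by positivity)
          (by positivity)]
        have : (0 : ℝ) ≤ U ^ 2 * (U + k + 1) := by positivity
        nlinarith
      linarith
  refine le_trans (prod_le_prod_of_subset_of_one_le (range_mono (Nat.le_add_left N U))
    (fun i _ => by positivity) fun i _ _ => le_add_of_nonneg_right (by positivity))
    ((h2 N).trans (Real.exp_le_exp.2 (sub_le_self _ (by positivity))))

lemma abel (v : ℕ → ℝ) (L : ℕ → ℝ) (N : ℕ) :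
    ∑ i ∈ range N, (v i - v (i + 1)) * L (i + 1) + v N * L N =
      ∑ i ∈ range N, v i * (L (i + 1) - L i) + v 0 * L 0 := by
  induction N with
  | zero => simp
  | succ N ih => rw [sum_range_succ, sum_range_succ]; linarith

lemma tail (U N : ℕ) (hU : 0 < U) :
    ∑ i ∈ range N, 1 / ((U : ℝ) ^ 2 + (i : ℝ) ^ 2) ≤ 4 / (U : ℝ) - 4 / ((U : ℝ) + N) := by
  have U1 : (1 : ℝ) ≤ U := by exact_mod_cast hU
  induction N with
  | zero => simp
  | succ N ih =>
    rw [sum_range_succ]
    have : 1 / ((U : ℝ) ^ 2 + N ^ 2) ≤ 4 / (U + N) - 4 / (U + (N + 1)) := by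
      rw [div_sub_div _ _ (by positivity) (by positivity), div_le_div_iff₀ (by positivity)
          (by positivity)]
      have : (0 : ℝ) ≤ N := by positivity
      nlinarith [sq_nonneg (U - N : ℝ)]
    push_cast; linarith

lemma weight {n U K J : ℕ} (hU : 0 < U) (hK : 0 < K) (v : ℕ → ℕ) (h0 : ∀ i, v (i + 1) ≤ v i)
    (h1 : ∀ i, (i + 1) * v i ≤ n) (h2 : ∀ i, J ≤ i → K * (i + 1) * v i ≤ n) :
    Real.exp (-(2 * n * J / U ^ 2 + 8 * n / (K * U))) ≤
      ∏ i ∈ range n, ((U : ℝ) ^ 2 / (U ^ 2 + (i + 1) ^ 2)) ^ (v i - v (i + 1)) := by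
  have U1 : (0 : ℝ) < U := by exact_mod_cast hU
  have K1 : (0 : ℝ) < K := by exact_mod_cast hK
  let L : ℕ → ℝ := fun i => Real.log ((U ^ 2 + i ^ 2) / U ^ 2)
  have e : ∏ i ∈ range n, ((U : ℝ) ^ 2 / (U ^ 2 + (i + 1) ^ 2)) ^ (v i - v (i + 1)) =
      Real.exp (-∑ i ∈ range n, (v i - v (i + 1) : ℝ) * L (i + 1)) := by
    rw [← sum_neg_distrib, Real.exp_sum]
    refine prod_congr rfl fun i _ => ?_
    rw [← Nat.cast_sub (h0 i), ← mul_neg, Real.exp_nat_mul, Real.exp_neg,
      Real.exp_log (by positivity), inv_div]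
    push_cast; rfl
  have a := abel (fun i => v i) L n
  have vn : v n = 0 := by
    by_contra c
    have := h1 n
    nlinarith [Nat.pos_of_ne_zero c]
  have L0 : L 0 = 0 := by simp [L, U1.ne']
  simp only [vn, L0, Nat.cast_zero, zero_mul, mul_zero, add_zero] at a
  rw [e, a, Real.exp_le_exp, neg_le_neg_iff]
  have t := tail U n hU
  calc _ ≤ ∑ i ∈ range n, ((if i < J then 2 * n / (U : ℝ) ^ 2 else (0 : ℝ)) +
        2 * (n : ℝ) / (K : ℝ) * (1 / ((U : ℝ) ^ 2 + (i : ℝ) ^ 2))) := by
        refine sum_le_sum fun i _ => ?_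
        have l : L (i + 1) - L i ≤ 2 * (i + 1) / (U ^ 2 + i ^ 2) := by
          simp only [L]
          rw [← Real.log_div (by positivity) (by positivity)]
          refine (Real.log_le_sub_one_of_pos (by positivity)).trans ?_
          push_cast
          rw [div_div_div_cancel_right₀ (by positivity), div_sub_one (by positivity)]
          gcongr; nlinarith
        refine (mul_le_mul_of_nonneg_left l (by positivity)).trans ?_
        split_ifs with c
        · refine le_add_of_le_of_nonneg ?_ (by positivity)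
          have : ((i + 1) * v i : ℝ) ≤ n := by exact_mod_cast h1 i
          rw [← mul_div_assoc]
          exact div_le_div₀ (by positivity) (by linarith) (by positivity)
            (le_add_of_nonneg_right (by positivity))
        · have : (K * (i + 1) * v i : ℝ) ≤ n := by exact_mod_cast h2 i (by omega)
          rw [zero_add, ← mul_div_assoc, mul_one_div]
          refine div_le_div_of_nonneg_right ?_ (by positivity)
          rw [le_div_iff₀ K1]; linarith
    _ ≤ _ := by
        rw [sum_add_distrib, ← mul_sum, ← sum_filter, sum_const, nsmul_eq_mul]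
        have : (#{i ∈ range n | i < J} : ℝ) ≤ J := by
          exact_mod_cast (card_le_card (t := range J) fun i hi => by
            simpa using (mem_filter.1 hi).2).trans_eq (card_range J)
        have t' : ∑ i ∈ range n, 1 / ((U : ℝ) ^ 2 + (i : ℝ) ^ 2) ≤ 4 / (U : ℝ) :=
          t.trans (sub_le_self _ (by positivity))
        calc _ ≤ J * (2 * n / (U : ℝ) ^ 2) + 2 * n / K * (4 / U) := by gcongr
          _ = _ := by field_simp; ring

lemma fac (s : Multiset ℕ) : (s.map Nat.factorial).prod ≠ 0 ∧ ∀ p, p.Prime →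
    (p - 1) * (s.map Nat.factorial).prod.factorization p ≤ s.sum ∧ ∀ q, q.Prime → p ≤ q →
      (s.map Nat.factorial).prod.factorization q ≤ (s.map Nat.factorial).prod.factorization p := by
  induction s using Multiset.induction_on with
  | empty => simp
  | cons a s ih =>
    rw [Multiset.map_cons, Multiset.prod_cons, Multiset.sum_cons,
      Nat.factorization_mul a.factorial_ne_zero ih.1]
    refine ⟨mul_ne_zero a.factorial_ne_zero ih.1, fun p hp => ⟨?_, fun q hq h => ?_⟩⟩
    · rw [Finsupp.add_apply, mul_add]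
      exact add_le_add ((Nat.mul_le_mul_left _ (Nat.factorization_factorial_le_div_pred hp a)).trans
        (Nat.mul_div_le _ _)) (ih.2 p hp).1
    · rw [Finsupp.add_apply, Finsupp.add_apply]
      refine add_le_add ?_ ((ih.2 p hp).2 q hq h)
      rw [Nat.factorization_factorial hp (b := a + 1) (Nat.lt_succ_of_le (Nat.log_le_self _ _)),
        Nat.factorization_factorial hq (b := a + 1) (Nat.lt_succ_of_le (Nat.log_le_self _ _))]
      exact sum_le_sum fun i _ => Nat.div_le_div_left (Nat.pow_le_pow_left h i)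
        (pow_pos hp.pos i)

lemma sparse (K : ℕ) : ∃ J, ∀ i, J ≤ i → K * (i + 1) ≤ Nat.nth Nat.Prime i - 1 := by
  have t : Tendsto (fun i => (Nat.nth Nat.Prime i : ℝ)) atTop atTop :=
    tendsto_natCast_atTop_atTop.comp
      (Nat.nth_strictMono Nat.infinite_setOfPred_prime).tendsto_atTop
  have := (t.eventually (Chebyshev.eventually_primeCounting_le one_pos)).and
    ((Real.tendsto_log_atTop.comp t).eventually_ge_atTop ((K + 1) * (Real.log 4 + 1)))
  obtain ⟨J, hJ⟩ := eventually_atTop.1 this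
  refine ⟨J, fun i hi => ?_⟩
  obtain ⟨h1, h2⟩ := hJ i hi
  have e : Nat.primeCounting (Nat.nth Nat.Prime i) = i + 1 := by
    rw [Nat.primeCounting, Nat.primeCounting', Nat.count_nth_succ_of_infinite
      Nat.infinite_setOfPred_prime]
  have l : 0 < Real.log 4 + 1 := by positivity
  have l' : 0 < (K + 1) * (Real.log 4 + 1) := by positivity
  simp only [Function.comp] at h2
  rw [Nat.floor_natCast, e, le_div_iff₀ (l'.trans_le h2)] at h1
  have : (((K + 1) * (i + 1) : ℕ) : ℝ) ≤ Nat.nth Nat.Prime i := by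
    refine le_of_mul_le_mul_left (le_trans ?_ h1) l
    push_cast
    nlinarith [show (0 : ℝ) < i + 1 by positivity]
  have : (K + 1) * (i + 1) ≤ Nat.nth Nat.Prime i := by exact_mod_cast this
  rw [add_mul] at this
  omega

lemma bound {K : ℕ} (hK : 0 < K) : ∃ J : ℕ, ∀ n U : ℕ, 0 < U →
    (M n : ℝ) ≤ Real.exp (4 * U + (2 * n * J / U ^ 2 + 8 * n / (K * U))) := by
  obtain ⟨J, hJ⟩ := sparse K
  refine ⟨J, fun n U hU => ?_⟩
  have U1 : (0 : ℝ) < U := by exact_mod_cast hU
  let S := univ.image fun l : n.Partition => (l.parts.map Nat.factorial).prod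
  have hM : M n ≤ #S := by
    rw [M, show (fun l : n.Partition => n.factorial / (l.parts.map Nat.factorial).prod) =
      (fun P => n.factorial / P) ∘ fun l : n.Partition => (l.parts.map Nat.factorial).prod from rfl,
      ← image_image]
    exact card_image_le
  let v : ℕ → ℕ → ℕ := fun P i => P.factorization (Nat.nth Nat.Prime i)
  have hv : ∀ P ∈ S, P ≠ 0 ∧ (∀ i, v P (i + 1) ≤ v P i) ∧ (∀ i, (i + 1) * v P i ≤ n) ∧
      ∀ i, J ≤ i → K * (i + 1) * v P i ≤ n := fun P hP => by
    obtain ⟨l, -, rfl⟩ := mem_image.1 hP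
    obtain ⟨a, b⟩ := fac l.parts
    rw [l.parts_sum] at b
    refine ⟨a, fun i => (b _ (Nat.prime_nth_prime i)).2 _ (Nat.prime_nth_prime _)
      (Nat.nth_monotone Nat.infinite_setOfPred_prime i.le_succ), fun i => ?_, fun i hi => ?_⟩
    · refine (Nat.mul_le_mul_right _ ?_).trans (b _ (Nat.prime_nth_prime i)).1
      have := Nat.add_two_le_nth_prime i
      omega
    · exact (Nat.mul_le_mul_right _ (hJ i hi)).trans (b _ (Nat.prime_nth_prime i)).1
  have z : ∀ P ∈ S, ∀ i, n ≤ i → v P i = 0 := fun P hP i hi => by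
    by_contra c
    have := (hv P hP).2.2.1 i
    nlinarith [Nat.pos_of_ne_zero c]
  have r := rankin S n (n + 1) (fun P i => v P i - v P (i + 1)) (fun P hP Q hQ h => ?_)
    (fun P hP i => by
      have := (hv P hP).2.2.1 i
      have : v P i ≤ n := by nlinarith
      omega)
    (fun i => (U : ℝ) ^ 2 / (U ^ 2 + (i + 1) ^ 2))
    (fun i => ⟨by positivity, by
      rw [div_lt_one (by positivity)]; exact lt_add_of_pos_right _ (by positivity)⟩) _
    fun P hP => weight hU hK (v P) (hv P hP).2.1 (hv P hP).2.2.1 (hv P hP).2.2.2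
  · rw [Real.exp_neg, ← div_eq_mul_inv, div_le_iff₀ (Real.exp_pos _)] at r
    rw [Real.exp_add]
    refine (Nat.cast_le.2 hM).trans (r.trans ?_)
    gcongr
    refine le_trans (le_of_eq (prod_congr rfl fun i _ => ?_)) (head U n hU)
    field_simp; ring
  · have : ∀ k i, n ≤ i + k → v P i = v Q i := fun k => by
      induction k with
      | zero => exact fun i hi => by rw [z P hP i hi, z Q hQ i hi]
      | succ k ih =>
        intro i hi
        rcases le_or_gt n i with c | c
        · rw [z P hP i c, z Q hQ i c]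
        · have := ih (i + 1) (by omega)
          have := h i c
          have := (hv P hP).2.1 i
          have := (hv Q hQ).2.1 i
          omega
    refine Nat.eq_of_factorization_eq (hv P hP).1 (hv Q hQ).1 fun p => ?_
    by_cases hp : p.Prime
    · rw [← Nat.nth_count hp]; exact this n _ (by omega)
    · simp [Nat.factorization_eq_zero_of_not_prime _ hp]

lemma small {ε : ℝ} (hε : 0 < ε) : ∀ᶠ n : ℕ in atTop, (M n : ℝ) ≤ Real.exp (ε * √n) := by
  obtain ⟨δ, hδ, rfl⟩ : ∃ δ : ℝ, 0 < δ ∧ ε = 13 * δ := ⟨ε / 13, by positivity, by ring⟩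
  obtain ⟨K, hK⟩ := exists_nat_gt (1 / δ ^ 2)
  have K0 : (0 : ℝ) < K := lt_trans (by positivity) hK
  obtain ⟨J, hJ⟩ := bound (show 0 < K by exact_mod_cast K0)
  have t : Tendsto (fun n : ℕ => δ * √n) atTop atTop :=
    (Real.tendsto_sqrt_atTop.comp tendsto_natCast_atTop_atTop).const_mul_atTop hδ
  filter_upwards [t.eventually_ge_atTop (4 + 2 * J / δ ^ 2)] with n hn
  have p : 0 < δ * √n := lt_of_lt_of_le (by positivity) hn
  have s : √n ^ 2 = (n : ℝ) := Real.sq_sqrt (by positivity)
  have s0 : 0 < √n := (mul_pos_iff_of_pos_left hδ).1 p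
  refine (hJ n ⌈δ * √n⌉₊ (Nat.ceil_pos.2 p)).trans (Real.exp_le_exp.2 ?_)
  have u1 := Nat.le_ceil (δ * √n)
  have u2 := Nat.ceil_lt_add_one p.le
  generalize (⌈δ * √n⌉₊ : ℝ) = U at *
  have a : 2 * n * J / U ^ 2 ≤ 2 * J / δ ^ 2 := by
    calc _ ≤ 2 * n * J / (δ * √n) ^ 2 := by gcongr
      _ = _ := by rw [mul_pow, s]; rw [← s]; field_simp
  have b : 8 * n / (K * U) ≤ 8 * (δ * √n) := by
    calc _ ≤ 8 * n / (1 / δ ^ 2 * (δ * √n)) := by gcongr
      _ = _ := by rw [← s, Real.sqrt_sq s0.le]; field_simp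
  linarith

lemma lower (Q : ℕ → Prop) [DecidablePred Q] (h1 : Q 1) (h3 : ∀ a, Q (3 * a)) {n k : ℕ}
    (h : 3 * k ^ 2 ≤ n) : 2 ^ k ≤ #{l : n.Partition | ∀ a ∈ l.parts, Q a} := by
  have b : ∀ A ∈ (Icc 1 k).powerset, (A.val.map (3 * ·)).sum ≤ n := fun A hA => by
    have hA := mem_powerset.1 hA
    refine le_trans ?_ h
    have := sum_le_card_nsmul A (3 * ·) (3 * k) fun a ha => by
      have := mem_Icc.1 (hA ha); omega
    have c := card_le_card hA
    rw [Nat.card_Icc] at c
    exact this.trans (by rw [smul_eq_mul]; nlinarith [show #A ≤ k by omega])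
  have := card_le_card_of_injOn (s := (Icc 1 k).powerset.attach)
    (t := {l : n.Partition | ∀ a ∈ l.parts, Q a})
    (fun A => ⟨A.1.val.map (3 * ·) + Multiset.replicate (n - (A.1.val.map (3 * ·)).sum) 1,
      fun {i} hi => ?_, by
        rw [Multiset.sum_add, Multiset.sum_replicate, smul_eq_mul, mul_one,
          Nat.add_sub_cancel' (b A.1 A.2)]⟩) (fun A _ => ?_) fun A _ B _ e => ?_
  · simpa using this
  · rcases Multiset.mem_add.1 hi with c | c
    · obtain ⟨a, ha, rfl⟩ := Multiset.mem_map.1 c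
      have := mem_Icc.1 (mem_powerset.1 A.2 ha)
      omega
    · rw [Multiset.eq_of_mem_replicate c]; exact one_pos
  · simp only [coe_filter, mem_univ, true_and, Set.mem_ofPred_eq]
    intro i hi
    rcases Multiset.mem_add.1 hi with c | c
    · obtain ⟨a, ha, rfl⟩ := Multiset.mem_map.1 c
      exact h3 a
    · rw [Multiset.eq_of_mem_replicate c]; exact h1
  · ext a
    have e := congrArg (fun l : n.Partition => 3 * a ∈ l.parts) e
    simpa [Multiset.mem_replicate, show 3 * a ≠ 1 by omega] using e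

lemma lt_count (Q : ℕ → Prop) [DecidablePred Q] (h1 : Q 1) (h3 : ∀ a, Q (3 * a)) :
    ∀ᶠ n : ℕ in atTop, M n < #{l : n.Partition | ∀ a ∈ l.parts, Q a} := by
  filter_upwards [small (ε := 1 / 10) (by norm_num), eventually_ge_atTop 3] with n h hn
  have k1 : 1 ≤ (n / 3).sqrt := Nat.le_sqrt.2 (by omega)
  have a := Nat.sqrt_le' (n / 3)
  have b := Nat.lt_succ_sqrt' (n / 3)
  generalize (n / 3).sqrt = k at *
  refine lt_of_lt_of_le ?_ (lower Q h1 h3 (k := k) (by omega))
  have c : √n ≤ 4 * k := by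
    rw [Real.sqrt_le_iff]
    refine ⟨by positivity, ?_⟩
    have : n ≤ (4 * k) ^ 2 := by
      have : n < 3 * (n / 3 + 1) := by omega
      simp only [Nat.succ_eq_add_one] at b
      nlinarith
    exact_mod_cast this
  have k0 : (1 : ℝ) ≤ k := by exact_mod_cast k1
  have : (M n : ℝ) < 2 ^ k := by
    refine h.trans_lt ?_
    rw [← Real.exp_log two_pos, ← Real.exp_nat_mul, Real.exp_lt_exp]
    nlinarith [Real.log_two_gt_d9]
  exact_mod_cast this

end Pool.Agent.H25.Multi
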