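import Mathlib

namespace Pool.Agent.H25.OrdComp

def force {α : Type} (n : ℕ) (f : ℕ → α) : α :=
  match n with
  | 0 => f 0
  | k + 1 => f (k + 1)

@[simp] lemma force_eq {α : Type} (n : ℕ) (f : ℕ → α) : force n f = f n := by
  cases n <;> rfl

def small : List ℕ :=
  [2, 3, 5, 7, 11, 13, 17, 19, 23, 29, 31, 37, 41, 43, 47, 53, 59, 61, 67, 71, 73, 79, 83, 89]

def W : ℕ := 1485715964481761497309522733620825737885569961284688766942216863704985393094065876545992131370884059645617234469978112000000000000000000000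

def test (k : ℕ) : Bool := if k ≤ 90 then small.elem k else Nat.gcd k W == 1

def pw (F p : ℕ) : ℕ → ℕ → ℕ
  | 0, _ => 0
  | f + 1, q => if q ≤ 8191 then (F <<< (136 * q)) + pw F p f (q * p) else 0

def build : ℕ → ℕ → ℕ
  | 0, F => F
  | k + 1, F =>
    if test k then force ((F + pw F k 13 k) &&& (2 ^ (136 * 8192) - 1)) (fun G => build k G)
    else build k F

def adv : ℕ → ℕ → ℕ → ℕ → ℕ × ℕ
  | 0, _, k, T => (k, T)
  | f + 1, j, k, T =>
    if (k + 1) ^ 2 ≤ 1024 * j then
      force (T * 10317433 / 10000000) fun T' => force (k + 1) fun k' => adv f j k' T'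
    else (k, T)

def chk (cont : ℕ → ℕ → ℕ → Bool) : ℕ → ℕ → ℕ → ℕ → ℕ → ℕ → Bool
  | 0, _, _, acc, k, T => cont acc k T
  | f + 1, j, F, acc, k, T =>
    force (acc + (F &&& (2 ^ 136 - 1))) fun acc' =>
      match adv 32 j k T with
      | (k', T') => decide (acc' * 2 ^ 64 ≤ T') &&
          force (F >>> 136) fun F' => force (j + 1) fun j' => chk cont f j' F' acc' k' T'

def out : ℕ → ℕ → ℕ → ℕ → ℕ → ℕ → Bool
  | 0, _, _, _, _, _ => true
  | g + 1, j, F, acc, k, T =>
    force (F &&& (2 ^ (136 * 64) - 1)) fun c =>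
      chk (fun acc' k' T' => force (F >>> (136 * 64)) fun F' => force (j + 64) fun j' =>
        out g j' F' acc' k' T') 64 j c acc k T

theorem comp : force (build 8192 1) (fun F => out 128 0 F 0 0 (2 ^ 64)) = true := by
  decide +kernel

end Pool.Agent.H25.OrdComp
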