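import Mathlib
import Pool.Agent.Results.MP_674d90_lc.Safety

set_option autoImplicit false

namespace Pool.Agent.H25.PI

open Pool.Agent.Results.MP_674d90_lc.Safety

abbrev C := Option (Fin 5)

noncomputable def st (q : Q) : C → Q
  | none => .lv 0 0
  | some c => step q c

noncomputable def R (q : Q) (x : ℕ → C) : ℕ → Q
  | 0 => q
  | n + 1 => st (R q x n) (x n)

def bad (q : Q) (c : C) : Prop := c = none ∧ q = .dead

def W' : Set (ℕ → C) := {x | ∃ N, ∀ n ≥ N, ¬bad (R (.lv 0 0) x n) (x n)}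

lemma R_congr {q : Q} {x y : ℕ → C} {n : ℕ} (h : ∀ i < n, x i = y i) : R q x n = R q y n := by
  induction n with
  | zero => rfl
  | succ n ih => rw [R, R, ih fun i hi => h i (by omega), h n (by omega)]

lemma R_add (q : Q) (x : ℕ → C) (k n : ℕ) : R q x (n + k) = R (R q x k) (fun i => x (i + k)) n := by
  induction n with
  | zero => simp [R]
  | succ n ih => rw [Nat.add_right_comm, R, R, ih]

lemma R_sync {q q' : Q} {x : ℕ → C} {m n : ℕ} (h : x m = none) (hn : m < n) :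
    R q x n = R q' x n := by
  induction hn with
  | refl => simp [R, h, st]
  | step _ ih => rw [R, R, ih]

theorem indep (x : ℕ → C) (k : ℕ) : (fun n => x (n + k)) ∈ W' ↔ x ∈ W' := by
  have key : ∀ q q' (x : ℕ → C), (∃ N, ∀ n ≥ N, ¬bad (R q x n) (x n)) →
      ∃ N, ∀ n ≥ N, ¬bad (R q' x n) (x n) := fun q q' x ⟨N, h⟩ => by
    by_cases c : ∃ m, x m = none
    · obtain ⟨m, c⟩ := c
      exact ⟨N + m + 1, fun n hn => R_sync c (by omega : m < n) ▸ h n (by omega)⟩
    · exact ⟨0, fun n _ b => c ⟨n, b.1⟩⟩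
  constructor
  · intro h
    obtain ⟨N, h⟩ := key _ (R (.lv 0 0) x k) _ h
    refine ⟨N + k, fun n hn => ?_⟩
    obtain ⟨j, rfl⟩ : ∃ j, n = j + k := ⟨n - k, by omega⟩
    rw [R_add]; exact h j (by omega)
  · rintro ⟨N, h⟩
    exact key (R (.lv 0 0) x k) _ _ ⟨N, fun n hn => R_add _ x k n ▸ h (n + k) (by omega)⟩

lemma st_mono {p q : Q} (h : le p q) (c : C) : le (st p c) (st q c) := by
  cases c
  · exact le_rfl' _
  · exact step_mono h _

lemma le_dead {p : Q} (h : le p .dead) : p = .dead := by cases p <;> simp [le] at h ⊢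

variable {V : Type} (P : Set V) (E : Set (V × C × V))

def ok (A : V → Prop) (Y : V → Q → Prop) (e : V × C × V) (q : Q) : Prop :=
  (bad q e.2.1 → A e.2.2) ∧ (¬bad q e.2.1 → Y e.2.2 (st q e.2.1))

def Inv (A : V → Prop) (Y : V → Q → Prop) : Prop :=
  ∀ v q, Y v q → (v ∈ P → ∃ e ∈ E, e.1 = v ∧ ok A Y e q) ∧ (v ∉ P → ∀ e ∈ E, e.1 = v → ok A Y e q)

def G (A : V → Prop) (v : V) (q : Q) : Prop := ∃ Y, Inv P E A Y ∧ Y v q

def A : ℕ → V → Prop
  | 0 => fun _ => False
  | k + 1 => fun v => G P E (A k) v (.lv 0 0)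

def Z (k : ℕ) : V → Q → Prop := G P E (A P E k)

variable {P E}

lemma lift {A A' : V → Prop} {Y Y' : V → Q → Prop} {v : V} {q q' : Q}
    (h : ∀ e, ok A Y e q → ok A' Y' e q')
    (k : (v ∈ P → ∃ e ∈ E, e.1 = v ∧ ok A Y e q) ∧ (v ∉ P → ∀ e ∈ E, e.1 = v → ok A Y e q)) :
    (v ∈ P → ∃ e ∈ E, e.1 = v ∧ ok A' Y' e q') ∧ (v ∉ P → ∀ e ∈ E, e.1 = v → ok A' Y' e q') :=
  ⟨fun a => (k.1 a).imp fun e b => ⟨b.1, b.2.1, h e b.2.2⟩, fun a e b c => h e (k.2 a e b c)⟩

lemma G_inv (A : V → Prop) : Inv P E A (G P E A) := fun v q ⟨Y, hY, h⟩ =>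
  lift (fun _ k => ⟨k.1, fun b => ⟨Y, hY, k.2 b⟩⟩) (hY v q h)

lemma G_mono {A A' : V → Prop} (h : ∀ v, A v → A' v) {v : V} {q : Q} :
    G P E A v q → G P E A' v q := fun ⟨Y, hY, k⟩ =>
  ⟨Y, fun v q a => lift (fun _ k => ⟨fun b => h _ (k.1 b), k.2⟩) (hY v q a), k⟩

lemma A_mono : Monotone (A P E) := monotone_nat_of_le_succ fun k => by
  induction k with
  | zero => exact fun _ h => h.elim
  | succ k ih => exact fun v => G_mono ih

lemma Z_mono {k l : ℕ} (h : k ≤ l) {v : V} {q : Q} : Z P E k v q → Z P E l v q :=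
  G_mono (A_mono h)

lemma A_Z {k : ℕ} {v : V} (h : A P E k v) : ∃ j, k = j + 1 ∧ Z P E j v (.lv 0 0) := by
  cases k
  · exact h.elim
  · exact ⟨_, rfl, h⟩

lemma Z_up {k : ℕ} {v : V} {q q' : Q} (h : Z P E k v q) (l : le q q') : Z P E k v q' := by
  refine ⟨fun v q' => ∃ q, le q q' ∧ Z P E k v q, ?_, q, l, h⟩
  rintro v q' ⟨q, l, h⟩
  refine lift (fun e o => ⟨fun b => o.1 ⟨b.1, le_dead (b.2 ▸ l)⟩, fun _ => ?_⟩) (G_inv _ v q h)
  by_cases b : bad q e.2.1
  · obtain ⟨j, rfl, c⟩ := A_Z (o.1 b)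
    exact ⟨_, by rw [b.1]; exact le_rfl' _, Z_mono (Nat.le_succ _) c⟩
  · exact ⟨_, st_mono l _, o.2 b⟩

lemma le_top' (q : Q) : le q .top := by cases q <;> trivial

lemma Z_dead {k : ℕ} {v : V} (h : Z P E k v .top) : Z P E (k + 1) v .dead := by
  refine ⟨fun v q => q = .dead ∧ Z P E k v .top, ?_, rfl, h⟩
  rintro v _ ⟨rfl, h⟩
  refine lift (fun e o => ?_) (G_inv _ v _ h)
  have := o.2 fun b => by cases b.2
  obtain ⟨a, _ | c, b⟩ := e
  · exact ⟨fun _ => this, fun b => absurd ⟨rfl, rfl⟩ b⟩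
  · exact ⟨fun b => absurd b.1 (by simp), fun _ => ⟨rfl, this⟩⟩

lemma opt [Finite V] (hE : ∀ v, ∃ e ∈ E, e.1 = v) {S : V → List (V × C × V) → V × C × V}
    (hS : Strat P E S) {u : V} (hw : Wins W' P E S u) : ∃ k, Z P E k u .dead := by
  classical
  obtain ⟨K, hK⟩ := WellFoundedGT.monotone_chain_condition (⟨A P E, A_mono⟩ : ℕ →o (V → Prop))
  have hA : ∀ v, Z P E K v (.lv 0 0) → A P E K v := fun v h =>
    (congrFun (hK (K + 1) (Nat.le_succ _)) v).ge h
  by_contra hc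
  let Good : (ℕ → V × C × V) × ℕ → Prop := fun p => Play P E S u p.1 ∧
    ¬Z P E K (p.1 p.2).1 (R (.lv 0 0) (fun i => (p.1 i).2.1) p.2)
  have stp : ∀ p : Subtype Good, ∃ p' : Subtype Good, (∀ i < p.1.2, p'.1.1 i = p.1.1 i) ∧
      ∃ m, p.1.2 ≤ m ∧ p'.1.2 = m + 1 ∧
        bad (R (.lv 0 0) (fun i => (p'.1.1 i).2.1) m) (p'.1.1 m).2.1 := by
    rintro ⟨⟨e, n⟩, he, hz⟩
    by_contra c
    refine hz ⟨fun v q => ∃ e' m, Play P E S u e' ∧ (∀ i < n, e' i = e i) ∧ n ≤ m ∧ (e' m).1 = v ∧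
      R (.lv 0 0) (fun i => (e' i).2.1) m = q, ?_, e, n, he, fun _ _ => rfl, le_rfl, rfl, rfl⟩
    have key : ∀ e' m, Play P E S u e' → (∀ i < n, e' i = e i) → n ≤ m → ok (A P E K)
        (fun v q => ∃ e' m, Play P E S u e' ∧ (∀ i < n, e' i = e i) ∧ n ≤ m ∧ (e' m).1 = v ∧
          R (.lv 0 0) (fun i => (e' i).2.1) m = q) (e' m) (R (.lv 0 0) (fun i => (e' i).2.1) m) :=
      fun e' m h1 h2 h3 => by
        refine ⟨fun b => hA _ ?_, fun _ => ⟨e', m + 1, h1, h2, by omega, (h1.2 m).2.1.symm, rfl⟩⟩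
        by_contra z
        refine c ⟨⟨(e', m + 1), h1, ?_⟩, h2, m, h3, rfl, b⟩
        simp only [R, b.1, st, ← (h1.2 m).2.1]
        exact z
    rintro _ _ ⟨e', m, h, h2, h3, rfl, rfl⟩
    refine ⟨fun _ => ⟨e' m, (h.2 m).1, rfl, key e' m h h2 h3⟩, fun k x x1 x2 => ?_⟩
    have hm : ∀ i ≤ m, (List.range i).map (Function.update e' m x) = (List.range i).map e' :=
      fun i hi => List.map_congr_left fun j hj =>
        Function.update_of_ne (by have := List.mem_range.1 hj; omega) _ _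
    obtain ⟨f, p, q⟩ := extend hE hS u (m + 1) (Function.update e' m x) fun i hi => by
      rw [hm i (by omega)]
      by_cases c : i = m
      · subst c
        rw [Function.update_self, x2]
        exact ⟨x1, h.path i, fun a => absurd a k⟩
      · rw [Function.update_of_ne c]
        exact ⟨(h.2 i).1, h.path i, (h.2 i).2.2⟩
    have qn : f m = x := (q m (by omega)).trans (Function.update_self ..)
    have ql : ∀ i < m, f i = e' i := fun i hi =>
      (q i (by omega)).trans (Function.update_of_ne hi.ne _ _)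
    have := key f m p (fun i hi => (ql i (by omega)).trans (h2 i hi)) h3
    rwa [qn, R_congr (y := fun i => (e' i).2.1) fun i hi => by rw [ql i hi]] at this
  choose nx n1 m m1 m2 m3 using stp
  obtain ⟨e0, p0, -⟩ := extend hE hS u 0 (fun _ => S u []) (by simp)
  let s : ℕ → Subtype Good := fun j => nx^[j] ⟨(e0, 0), p0, fun z =>
    hc ⟨_, Z_dead (Z_up (p0.1 ▸ z) (le_top' _))⟩⟩
  have hs : ∀ j, s (j + 1) = nx (s j) := fun j => Function.iterate_succ_apply' _ _ _
  have lt : StrictMono fun j => (s j).1.2 := strictMono_nat_of_lt_succ fun j => by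
    have := m1 (s j); have := m2 (s j); simp only [hs]; omega
  have ag : ∀ j j', j ≤ j' → ∀ i < (s j).1.2, (s j').1.1 i = (s j).1.1 i := fun j j' h i hi => by
    induction h with
    | refl => rfl
    | step h ih => rw [hs, n1 _ i (hi.trans_le (lt.monotone h)), ih]
  have lim : ∀ j, ∀ i < (s j).1.2, (s (i + 1)).1.1 i = (s j).1.1 i := fun j i hi => by
    rw [← ag j (j + i + 1) (by omega) i hi, ag (i + 1) (j + i + 1) (by omega) i lt.le_apply]
  obtain ⟨N, hN⟩ := hw (fun i => (s (i + 1)).1.1 i) ⟨(s 1).2.1.1, fun i => by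
    have a : i + 2 ≤ (s (i + 2)).1.2 := lt.le_apply
    have := (s (i + 2)).2.1.2 i
    rw [List.map_congr_left fun j hj => lim (i + 2) j (by have := List.mem_range.1 hj; omega)]
    simp only [lim (i + 2) i (by omega), lim (i + 2) (i + 1) (by omega)]
    exact this⟩
  have a : N ≤ (s N).1.2 := lt.le_apply
  have b := m1 (s N)
  have c := m2 (s N)
  refine hN (m (s N)) (by omega) ?_
  have := m3 (s N)
  rw [← hs] at this c
  simp only
  rwa [lim (N + 1) _ (by omega), R_congr (y := fun i => ((s (N + 1)).1.1 i).2.1) fun i hi => by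
    rw [lim (N + 1) _ (by omega)]]

theorem gen3 : Mem W' 3 False := by
  classical
  intro V _ _ P E hE
  obtain ⟨μ, μ0, μ1⟩ : ∃ μ : V → Fin 3 → Q, (∀ v, μ v 0 = .dead) ∧
      ∀ v z, ∃ m, le (μ v m) z ∧ ∀ r, Z P E r v z → Z P E r v (μ v m) := by
    let k := fun v => sInf {k | Z P E k v .top}
    refine ⟨fun v => Fin.cons .dead fun m => if h : ∃ n b, Z P E (k v) v (.lv n b) then
      .lv (Nat.find h) m else .top, fun _ => rfl, fun v z => ?_⟩
    have hk : ∀ r, Z P E r v z → k v ≤ r := fun r h => Nat.sInf_le (Z_up h (le_top' _))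
    by_cases c : Z P E (k v) v z
    · by_cases h : ∃ n b, Z P E (k v) v (.lv n b)
      · obtain ⟨b, hb⟩ := Nat.find_spec h
        rcases z with _ | _ | ⟨n, d⟩
        · exact ⟨0, trivial, fun _ a => a⟩
        · exact ⟨b.succ, le_top' _, fun r a => by
            simpa only [Fin.cons_succ, dif_pos h] using Z_mono (hk r a) hb⟩
        · by_cases e : Nat.find h = n
          · refine ⟨d.succ, ?_⟩
            simp only [Fin.cons_succ, dif_pos h, e]
            exact ⟨le_rfl' _, fun _ a => a⟩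
          · refine ⟨b.succ, ?_⟩
            simp only [Fin.cons_succ, dif_pos h]
            exact ⟨.inl (lt_of_le_of_ne (Nat.find_min' h ⟨d, c⟩) e), fun r a => Z_mono (hk r a) hb⟩
      · rcases z with _ | _ | ⟨n, d⟩
        · exact ⟨0, trivial, fun _ a => a⟩
        · exact ⟨(0 : Fin 2).succ, le_top' _, fun r a => by simpa only [Fin.cons_succ, dif_neg h]⟩
        · exact absurd ⟨n, d, c⟩ h
    · exact ⟨0, trivial, fun r a => Z_mono (lt_of_le_of_ne (hk r a) fun e => c (e ▸ a))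
        (Z_dead (Nat.sInf_mem (s := {k | Z P E k v .top}) ⟨r, Z_up a (le_top' _)⟩))⟩
  choose d d1 d2 using μ1
  have : ∀ v q, ∃ e, e ∈ E ∧ e.1 = v ∧ (v ∈ P → ∀ r, Z P E r v q →
      ok (A P E r) (Z P E r) e q) := fun v q => by
    by_cases k : v ∈ P ∧ ∃ r, Z P E r v q
    · obtain ⟨e, a, b, c⟩ := (G_inv _ v q (Nat.find_spec k.2)).1 k.1
      exact ⟨e, a, b, fun _ r x => ⟨fun y => A_mono (Nat.find_min' k.2 x) _ (c.1 y),
        fun y => Z_mono (Nat.find_min' k.2 x) (c.2 y)⟩⟩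
    · obtain ⟨e, a, b⟩ := hE v
      exact ⟨e, a, b, fun x r y => absurd ⟨x, r, y⟩ k⟩
  choose σ σ1 σ2 σ3 using this
  let δ : Fin 3 → V × C × V → Fin 3 := fun m e => d e.2.2 (st (μ e.1 m) e.2.1)
  refine ⟨fun u l => σ (last u l) (μ (last u l) (l.foldl δ 0)), 0, δ,
    fun u l v h _ => ⟨σ1 _ _, (σ2 _ _).trans h.last⟩, False.elim,
    fun u l u' l' v h h' _ c => by simp only [h.last, h'.last, c], ?_⟩
  rintro u ⟨S, hS, hw⟩ e he
  obtain ⟨K, hK⟩ := opt hE hS hw
  let y := fun n => μ (e n).1 (((List.range n).map e).foldl δ 0)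
  have hy : ∀ n, y (n + 1) = μ (e n).2.2 (d (e n).2.2 (st (y n) (e n).2.1)) := fun n => by
    simp only [y]
    rw [List.range_succ, List.map_append, List.foldl_append, ← (he.2 n).2.1]; rfl
  have l : ∀ n, le (y n) (R (.lv 0 0) (fun i => (e i).2.1) n) := fun n => by
    induction n with
    | zero => simp [y, μ0, le]
    | succ n ih => rw [hy]; exact le_tr (d1 _ _) (st_mono ih _)
  have stp : ∀ n r, Z P E r (e n).1 (y n) → Z P E r (e (n + 1)).1 (y (n + 1)) ∧
      (bad (y n) (e n).2.1 → ∃ j, r = j + 1 ∧ Z P E j (e (n + 1)).1 (y (n + 1))) := fun n r h => by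
    have k : ok (A P E r) (Z P E r) (e n) (y n) := by
      by_cases c : (e n).1 ∈ P
      · have := (he.2 n).2.2 c
        simp only [(he.path n).last] at this
        have a := σ3 _ _ c r h
        rwa [← this] at a
      · exact (G_inv _ _ _ h).2 c _ (he.2 n).1 rfl
    rw [hy, ← (he.2 n).2.1]
    have k2 : bad (y n) (e n).2.1 → ∃ j, r = j + 1 ∧ Z P E j (e n).2.2 (μ (e n).2.2
        (d (e n).2.2 (st (y n) (e n).2.1))) := fun b => by
      obtain ⟨j, a, c⟩ := A_Z (k.1 b)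
      exact ⟨j, a, d2 _ _ _ (by rw [b.1]; exact c)⟩
    refine ⟨?_, k2⟩
    by_cases b : bad (y n) (e n).2.1
    · obtain ⟨j, rfl, c⟩ := k2 b
      exact Z_mono (Nat.le_succ _) c
    · exact d2 _ _ _ (k.2 b)
  have fin : ∀ r i, Z P E r (e i).1 (y i) → (fun i => (e i).2.1) ∈ W' := fun r => by
    induction r using Nat.strong_induction_on with
    | _ r ih =>
      intro i h
      by_cases c : ∃ n ≥ i, bad (y n) (e n).2.1
      · obtain ⟨n, hn, b⟩ := c
        have : Z P E r (e n).1 (y n) := by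
          clear b
          induction hn with
          | refl => exact h
          | step _ ih => exact (stp _ _ ih).1
        obtain ⟨j, rfl, z⟩ := (stp n r this).2 b
        exact ih j (by omega) _ z
      · exact ⟨i, fun n hn b => c ⟨n, hn, b.1, le_dead (b.2 ▸ l n)⟩⟩
  exact fin K 0 (by simpa [y, μ0, he.1] using hK)

end Pool.Agent.H25.PI
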