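import Mathlib

namespace Pool.Agent.H25.PL0

open Finset NumberTheorySymbols

def F (a b : ℤ) : ℕ → ℤ
  | 0 => a
  | 1 => b
  | n + 2 => F a b (n + 1) + F a b n

noncomputable def per (a b : ℤ) (p : ℕ) : ℕ :=
  sInf {n : ℕ | 0 < n ∧ ∀ i : ℕ, F a b (i + n) ≡ F a b i [ZMOD p]}

noncomputable def cnt (a b : ℤ) (p : ℕ) (e : ℤ) : ℕ :=
  ((range (per a b p)).filter (fun i => jacobiSym (F a b i) p = e)).card

lemma norm_eq (a b : ℤ) (n : ℕ) :
    F a b (n + 1) ^ 2 - F a b n * F a b (n + 1) - F a b n ^ 2 = (-1) ^ n * (b ^ 2 - a * b - a ^ 2) := by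
  induction n with
  | zero => simp [F]
  | succ n ih => rw [show F a b (n + 1 + 1) = F a b (n + 1) + F a b n from rfl, pow_succ (-1 : ℤ)]; linear_combination -ih

lemma shift (a b : ℤ) (n k : ℕ) :
    F a b (n + (k + 1)) = (Nat.fib (k + 1) : ℤ) * F a b (n + 1) + (Nat.fib k : ℤ) * F a b n := by
  induction k generalizing n with
  | zero => simp
  | succ k ih =>
    have := ih (n + 1)
    rw [show n + (k + 1 + 1) = n + 1 + (k + 1) by ring, this,
      show F a b (n + 1 + 1) = F a b (n + 1) + F a b n from rfl, Nat.fib_add_two]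
    push_cast; ring

lemma pow_root {K : Type*} [CommRing K] (x : K) (hx : x ^ 2 = x + 1) (k : ℕ) :
    x ^ (k + 1) = (Nat.fib (k + 1) : K) * x + (Nat.fib k : K) := by
  induction k with
  | zero => simp
  | succ k ih =>
    rw [pow_succ, ih, Nat.fib_add_two]; push_cast; linear_combination (Nat.fib (k + 1) : K) * hx

lemma fib_zero (p s : ℕ) [hp : Fact p.Prime] (hs : p = 8 * s + 5) (h5 : jacobiSym 5 p = -1) :
    ((Nat.fib (4 * s + 2 + 1) : ℕ) : ZMod p) = 0 ∧ ((Nat.fib (4 * s + 2) : ℕ) : ZMod p) ^ 2 = -1 := by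
  let K := AlgebraicClosure (ZMod p)
  have h2 : (2 : K) ≠ 0 := by
    intro h
    have : ((2 : ℕ) : K) = 0 := by exact_mod_cast h
    rw [CharP.cast_eq_zero_iff K p] at this
    have := Nat.le_of_dvd (by norm_num) this
    omega
  obtain ⟨r, hr⟩ := IsAlgClosed.exists_pow_nat_eq (5 : K) (n := 2) (by norm_num)
  have e5 : (5 : ZMod p) ^ (p / 2) = -1 := by
    have h := legendreSym.eq_pow p 5
    rw [jacobiSym.legendreSym.to_jacobiSym, h5] at h
    push_cast at h
    exact h.symm
  have e5K : (5 : K) ^ (4 * s + 2) = -1 := by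
    have h := congrArg (algebraMap (ZMod p) K) e5
    rw [show p / 2 = 4 * s + 2 by omega] at h
    simpa [map_ofNat] using h
  have hrp : r ^ p = -r := by
    rw [show r ^ p = (r ^ 2) ^ (4 * s + 2) * r by
      rw [show r ^ p = r ^ (8 * s + 5) from congrArg (fun n => r ^ n) hs]; ring, hr, e5K]; ring
  have hr0 : r ≠ 0 := by
    intro h
    rw [h] at hr
    rw [← hr] at e5K
    simp at e5K
  obtain ⟨x, hx⟩ : ∃ x : K, 2 * x = 1 + r := ⟨(1 + r) / 2, mul_div_cancel₀ _ h2⟩
  have hx2 : x ^ 2 = x + 1 := by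
    have : (2 : K) ^ 2 * (x ^ 2 - (x + 1)) = 0 := by linear_combination (2 * x + r - 1) * hx + hr
    rcases mul_eq_zero.1 this with h | h
    · exact absurd h (pow_ne_zero _ h2)
    · linear_combination h
  have hy2 : (1 - x) ^ 2 = (1 - x) + 1 := by linear_combination hx2
  have hxp : x ^ p = 1 - x := by
    have h := congrArg (fun z => z ^ p) hx
    simp only [mul_pow, add_pow_char, one_pow, hrp] at h
    have h2p : (2 : K) ^ p = 2 := by
      rw [show (2 : K) = 1 + 1 by norm_num, add_pow_char, one_pow]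
    rw [h2p] at h
    apply mul_left_cancel₀ h2
    linear_combination h + hx
  have hg : (x ^ (4 * s + 2 + 1)) ^ 2 = -1 := by
    rw [show (x ^ (4 * s + 2 + 1)) ^ 2 = x ^ p * x by
      rw [show x ^ p = x ^ (8 * s + 5) from congrArg (fun n => x ^ n) hs]; ring, hxp]
    linear_combination -hx2
  have hgy : x ^ (4 * s + 2 + 1) * (1 - x) ^ (4 * s + 2 + 1) = -1 := by
    rw [← mul_pow, show x * (1 - x) = -1 by linear_combination -hx2]
    exact Odd.neg_one_pow ⟨2 * s + 1, by ring⟩
  have heq : x ^ (4 * s + 2 + 1) = (1 - x) ^ (4 * s + 2 + 1) := by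
    linear_combination (x ^ (4 * s + 2 + 1)) * hgy - (1 - x) ^ (4 * s + 2 + 1) * hg
  have e1 := pow_root x hx2 (4 * s + 2)
  have e2 := pow_root (1 - x) hy2 (4 * s + 2)
  have hf : ((Nat.fib (4 * s + 2 + 1) : ℕ) : K) = 0 := by
    have : ((Nat.fib (4 * s + 2 + 1) : ℕ) : K) * r = 0 := by
      linear_combination heq - e1 + e2 - ((Nat.fib (4 * s + 2 + 1) : ℕ) : K) * hx
    exact (mul_eq_zero.1 this).resolve_right hr0
  have hc : ((Nat.fib (4 * s + 2) : ℕ) : K) ^ 2 = -1 := by
    rw [e1, hf] at hg; simpa using hg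
  constructor
  · apply (algebraMap (ZMod p) K).injective; simpa using hf
  · apply (algebraMap (ZMod p) K).injective; simpa using hc

theorem main (a b : ℤ) (p : ℕ) (hp : p.Prime) (h40 : p % 40 = 13)
    (hD : jacobiSym (b ^ 2 - a * b - a ^ 2) p = -1) :
    (cnt a b p 1 : ℤ) - cnt a b p (-1) - cnt a b p 0 = 0 := by
  haveI := Fact.mk hp
  have hodd : Odd p := Nat.odd_iff.2 (by omega)
  have h5 : jacobiSym 5 p = -1 := by
    rw [jacobiSym.mod_right 5 hodd, show p % (4 * (5 : ℤ).natAbs) = 13 by simp; omega]; norm_num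
  have hm1 : jacobiSym (-1) p = 1 := by
    rw [jacobiSym.at_neg_one hodd, ZMod.χ₄_nat_one_mod_four (by omega)]
  obtain ⟨s, hs⟩ : ∃ s, p = 8 * s + 5 := ⟨p / 8, by omega⟩
  obtain ⟨hf, hc⟩ := fib_zero p s hs h5
  set t := 4 * s + 2 + 1 with ht
  set c : ℤ := (Nat.fib (4 * s + 2) : ℤ) with hcdef
  have hcz : (c : ZMod p) ^ 2 = -1 := by rw [hcdef]; exact_mod_cast hc
  have hsh : ∀ n, (F a b (n + t) : ZMod p) = (c : ZMod p) * F a b n := by
    intro n
    rw [ht, shift]; push_cast; rw [hf, hcdef]; push_cast; ring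
  have hJc : jacobiSym c p = -1 := by
    have h := legendreSym.eq_pow p c
    rw [show p / 2 = 2 * (2 * s + 1) by omega, pow_mul, hcz, Odd.neg_one_pow ⟨s, rfl⟩,
      jacobiSym.legendreSym.to_jacobiSym] at h
    have hne : (2 : ZMod p) ≠ 0 := by
      intro h2
      have : ((2 : ℕ) : ZMod p) = 0 := by exact_mod_cast h2
      rw [ZMod.natCast_eq_zero_iff] at this
      have := Nat.le_of_dvd (by norm_num) this
      omega
    rcases jacobiSym.trichotomy c p with h0 | h0 | h0
    · rw [h0] at h; simp at h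
    · rw [h0] at h; exfalso; apply hne; push_cast at h; linear_combination h
    · exact h0
  have hJ : ∀ x y : ℤ, (x : ZMod p) = y → jacobiSym x p = jacobiSym y p := fun x y h =>
    jacobiSym.mod_left' ((ZMod.intCast_eq_intCast_iff x y p).1 h)
  have hneg : ∀ n, jacobiSym (F a b (n + t)) p = - jacobiSym (F a b n) p := by
    intro n
    rw [hJ _ (c * F a b n) (by rw [hsh]; push_cast; ring), jacobiSym.mul_left, hJc]; ring
  have hnz : ∀ n, jacobiSym (F a b n) p ≠ 0 := by
    intro n h0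
    have hz : (F a b n : ZMod p) = 0 := by
      rw [← jacobiSym.legendreSym.to_jacobiSym, legendreSym.eq_zero_iff] at h0; exact h0
    have e : jacobiSym (F a b (n + 1) ^ 2) p = -1 := by
      rw [hJ _ ((-1) ^ n * (b ^ 2 - a * b - a ^ 2)) (by rw [← norm_eq]; push_cast; rw [hz]; ring),
        jacobiSym.mul_left, jacobiSym.pow_left, hm1, hD]; simp
    rw [jacobiSym.pow_left] at e
    nlinarith [sq_nonneg (jacobiSym (F a b (n + 1)) p)]
  have hmem : per a b p ∈ {n : ℕ | 0 < n ∧ ∀ i : ℕ, F a b (i + n) ≡ F a b i [ZMOD p]} := by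
    apply Nat.sInf_mem
    refine ⟨t + t + t + t, by omega, fun i => ?_⟩
    rw [← ZMod.intCast_eq_intCast_iff, show i + (t + t + t + t) = i + t + t + t + t by ring,
      hsh, hsh, hsh, hsh]
    linear_combination ((c : ZMod p) ^ 2 - 1) * (F a b i : ZMod p) * hcz
  have hper : ∀ i, jacobiSym (F a b (i + per a b p)) p = jacobiSym (F a b i) p := fun i =>
    jacobiSym.mod_left' (hmem.2 i)
  have hsum : ∀ k, ∑ i ∈ range (per a b p), jacobiSym (F a b (i + k)) p =
      ∑ i ∈ range (per a b p), jacobiSym (F a b i) p := by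
    intro k
    induction k with
    | zero => simp
    | succ k ih =>
      have e1 := sum_range_succ (fun i => jacobiSym (F a b (i + k)) p) (per a b p)
      have e2 := sum_range_succ' (fun i => jacobiSym (F a b (i + k)) p) (per a b p)
      have e3 := hper k
      rw [add_comm k] at e3
      simp only [zero_add] at e2
      have e4 : ∑ i ∈ range (per a b p), jacobiSym (F a b (i + (k + 1))) p =
          ∑ i ∈ range (per a b p), jacobiSym (F a b (i + 1 + k)) p :=
        sum_congr rfl fun i _ => by rw [show i + (k + 1) = i + 1 + k by ring]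
      linarith
  have hS : ∑ i ∈ range (per a b p), jacobiSym (F a b i) p = 0 := by
    have e := hsum t
    rw [sum_congr rfl fun i _ => hneg i, sum_neg_distrib] at e
    linarith
  unfold cnt
  simp only [card_filter]
  push_cast
  rw [← sum_sub_distrib, ← sum_sub_distrib]
  refine Eq.trans (sum_congr rfl fun i _ => ?_) hS
  rcases jacobiSym.trichotomy (F a b i) p with h0 | h0 | h0
  · exact absurd h0 (hnz i)
  · rw [h0]; simp
  · rw [h0]; simp

end Pool.Agent.H25.PL0
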