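import Mathlib

set_option autoImplicit false

namespace Pool.Agent.H25.PowSg

open Multiplicative

section one
variable {G M C : Type} [AddCommGroup G] [CommMonoid M] [AddCommGroup C]

lemma one_step (Q : Submonoid (Multiplicative G × M)) (ev : G →+ C) (x h : G) (s t : M) (n : ℕ)
    (hx : n • x = 0) (hh0 : n • h = 0) (hord : ∀ k : ℕ, k • ev x = 0 → n ∣ k)
    (hQ : ∀ q ∈ Q, ev (toAdd q.1) = 0) (hh : (ofAdd h, s * t) ∈ Q)
    (hs : (1, s ^ n) ∈ Q) (ht : (1, t ^ n) ∈ Q) (y : Multiplicative G × M)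
    (hy : y ∈ Q ⊔ Submonoid.closure {(ofAdd x, s), (ofAdd (h - x), t)})
    (h0 : ev (toAdd y.1) = 0) : y ∈ Q := by
  obtain ⟨q, hq, z, hz, rfl⟩ := Submonoid.mem_sup.1 hy
  obtain ⟨a, b, rfl⟩ := (Submonoid.mem_closure_pair _ _ _).1 hz
  have eh : ev h = 0 := hQ _ hh
  have e12 : ((ofAdd x, s) : Multiplicative G × M) * (ofAdd (h - x), t) = (ofAdd h, s * t) := by
    simp [← ofAdd_add]
  have e1 : ((ofAdd x, s) : Multiplicative G × M) ^ n = (1, s ^ n) := by
    simp [← ofAdd_nsmul, hx]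
  have e2 : ((ofAdd (h - x), t) : Multiplicative G × M) ^ n = (1, t ^ n) := by
    rw [Prod.pow_mk, ← ofAdd_nsmul, smul_sub, hx, hh0, sub_zero]; rfl
  simp only [Prod.fst_mul, toAdd_mul, map_add, hQ q hq, zero_add, Prod.pow_mk, toAdd_pow,
    toAdd_ofAdd, map_nsmul, map_sub, eh, zero_sub, smul_neg] at h0
  refine mul_mem hq ?_
  rcases le_total a b with hab | hab
  · obtain ⟨c, rfl⟩ := Nat.exists_eq_add_of_le hab
    obtain ⟨k, rfl⟩ := hord c (by
      rw [add_smul] at h0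
      have : -(c • ev x) = 0 := by rw [← h0]; abel
      exact neg_eq_zero.1 this)
    rw [pow_add, ← mul_assoc, ← mul_pow, e12, pow_mul, e2]
    exact mul_mem (pow_mem hh _) (pow_mem ht _)
  · obtain ⟨c, rfl⟩ := Nat.exists_eq_add_of_le hab
    obtain ⟨k, rfl⟩ := hord c (by
      rw [add_smul] at h0
      rw [← h0]; abel)
    rw [pow_add, mul_right_comm, ← mul_pow, e12, pow_mul, e1]
    exact mul_mem (pow_mem hh _) (pow_mem hs _)

end one

abbrev CC : Type := AddCircle (1 : ℚ)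

abbrev GG (J : Type) : Type := (ℕ × J) →₀ CC

lemma CC_fin (a : CC) : IsOfFinAddOrder a := by
  induction a using QuotientAddGroup.induction_on with
  | H q => exact AddCircle.isOfFinAddOrder_iff_exists_rat_eq_div.2 ⟨q, by simp⟩

lemma GG_fin {J : Type} (g : GG J) : IsOfFinAddOrder g := by
  induction g using Finsupp.induction_linear with
  | zero => exact IsOfFinAddOrder.zero
  | add f g hf hg => exact hf.add hg
  | single a b => exact (Finsupp.singleAddHom a).isOfFinAddOrder (CC_fin b)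

lemma exists_code (M : Type) : ∃ c : GG (M ⊕ ℕ) × M × M → M ⊕ ℕ, Function.Injective c := by
  have : Nontrivial CC := by
    refine ⟨0, ((1 / (2 : ℕ) : ℚ) : CC), fun h => ?_⟩
    have := AddCircle.addOrderOf_period_div (p := (1 : ℚ)) (n := 2) (by norm_num)
    rw [← h] at this
    simp at this
  have hJ : Cardinal.aleph0 ≤ Cardinal.mk (M ⊕ ℕ) := Cardinal.aleph0_le_mk _
  have hM : Cardinal.mk M ≤ Cardinal.mk (M ⊕ ℕ) := Cardinal.mk_le_of_injective Sum.inl_injective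
  have mul_le : ∀ a b : Cardinal, a ≤ Cardinal.mk (M ⊕ ℕ) → b ≤ Cardinal.mk (M ⊕ ℕ) →
      a * b ≤ Cardinal.mk (M ⊕ ℕ) := fun a b ha hb =>
    (mul_le_mul' ha hb).trans (Cardinal.mul_eq_self hJ).le
  have hC : Cardinal.mk CC ≤ Cardinal.mk (M ⊕ ℕ) := by
    refine le_trans (Cardinal.mk_le_of_surjective (f := fun q : ℚ => (q : CC))
      QuotientAddGroup.mk_surjective) ?_
    rw [Cardinal.mkRat]; exact hJ
  have hG : Cardinal.mk (GG (M ⊕ ℕ)) ≤ Cardinal.mk (M ⊕ ℕ) := by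
    rw [Cardinal.mk_finsupp_of_infinite]
    refine max_le ?_ hC
    rw [Cardinal.mk_prod, Cardinal.lift_id, Cardinal.lift_id]
    exact mul_le _ _ (by rw [Cardinal.mk_nat]; exact hJ) le_rfl
  have : Cardinal.mk (GG (M ⊕ ℕ) × M × M) ≤ Cardinal.mk (M ⊕ ℕ) := by
    rw [Cardinal.mk_prod, Cardinal.mk_prod]
    simp only [Cardinal.lift_id]
    exact mul_le _ _ hG (mul_le _ _ hM hM)
  obtain ⟨e⟩ := Cardinal.le_def _ _ |>.1 this
  exact ⟨e, e.injective⟩

structure Dat (M J : Type) [CommMonoid M] where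
  N : M → ℕ
  hN : ∀ s, 2 ≤ N s
  idem : ∀ s, s ^ N s * s ^ N s = s ^ N s
  c : GG J × M × M → J
  hc : Function.Injective c

variable {M J : Type} [CommMonoid M] (d : Dat M J)

noncomputable def nn (τ : GG J × M × M) : ℕ := d.N τ.2.1 * d.N τ.2.2 * addOrderOf τ.1

lemma nn_pos (τ : GG J × M × M) : 0 < nn d τ := by
  have := d.hN τ.2.1
  have := d.hN τ.2.2
  have := (GG_fin τ.1).addOrderOf_pos
  unfold nn
  positivity

noncomputable def xx (l : ℕ) (τ : GG J × M × M) : GG J :=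
  Finsupp.single (l, d.c τ) ((1 / (nn d τ : ℚ) : ℚ) : CC)

def DD (l : ℕ) (T : Set (GG J × M × M)) : Set (Multiplicative (GG J) × M) :=
  {y | ∃ τ ∈ T, y = (ofAdd (xx d l τ), τ.2.1) ∨ y = (ofAdd (τ.1 - xx d l τ), τ.2.2)}

def R0 (M J : Type) [CommMonoid M] : Submonoid (Multiplicative (GG J) × M) where
  carrier := {y | y.1 = 1 ∧ y.2 * y.2 = y.2}
  one_mem' := ⟨rfl, mul_one _⟩
  mul_mem' := by
    rintro a b ⟨h1, h2⟩ ⟨h3, h4⟩
    refine ⟨by simp [h1, h3], ?_⟩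
    rw [Prod.snd_mul, mul_mul_mul_comm, h2, h4]

lemma idem_pow (s : M) (k : ℕ) : s ^ (d.N s * k) * s ^ (d.N s * k) = s ^ (d.N s * k) := by
  rw [pow_mul, ← mul_pow, d.idem]

def ZZ (M : Type) {J : Type} [CommMonoid M] (i : ℕ × J) : Submonoid (Multiplicative (GG J) × M) where
  carrier := {y | toAdd y.1 i = 0}
  one_mem' := rfl
  mul_mem' := by
    intro a b ha hb
    have h1 : toAdd a.1 i = 0 := ha
    have h2 : toAdd b.1 i = 0 := hb
    show toAdd (a * b).1 i = 0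
    simp [h1, h2]

lemma xx_ord (l : ℕ) (τ : GG J × M × M) :
    addOrderOf (xx d l τ (l, d.c τ)) = nn d τ := by
  simp only [xx, Finsupp.single_eq_same]
  exact AddCircle.addOrderOf_period_div (nn_pos d τ)

lemma step1 (Q : Submonoid (Multiplicative (GG J) × M)) (l : ℕ) (τ : GG J × M × M)
    (h0 : R0 M J ≤ Q) (hv : (ofAdd τ.1, τ.2.1 * τ.2.2) ∈ Q) (hz : Q ≤ ZZ M (l, d.c τ))
    (y : Multiplicative (GG J) × M) (hy : y ∈ Q ⊔ Submonoid.closure (DD d l {τ}))
    (hy0 : y ∈ ZZ M (l, d.c τ)) : y ∈ Q := by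
  refine one_step Q (Finsupp.applyAddHom (l, d.c τ)) (xx d l τ) τ.1 τ.2.1 τ.2.2 (nn d τ)
    ?_ ?_ ?_ hz hv (h0 ⟨rfl, ?_⟩) (h0 ⟨rfl, ?_⟩) y ?_ hy0
  · have := addOrderOf_nsmul_eq_zero (xx d l τ (l, d.c τ))
    rw [xx_ord] at this
    simp only [xx, Finsupp.single_eq_same] at this
    rw [xx, Finsupp.smul_single, this, Finsupp.single_zero]
  · exact addOrderOf_dvd_iff_nsmul_eq_zero.1 (Dvd.intro_left _ rfl)
  · intro k hk
    rw [← xx_ord d l τ]
    exact addOrderOf_dvd_iff_nsmul_eq_zero.2 hk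
  · have := idem_pow d τ.2.1 (d.N τ.2.2 * addOrderOf τ.1)
    rwa [← mul_assoc] at this
  · have := idem_pow d τ.2.2 (d.N τ.2.1 * addOrderOf τ.1)
    rwa [← mul_assoc, mul_comm (d.N τ.2.2)] at this
  · convert hy using 3
    ext z
    simp [DD]

lemma DD_mono (l : ℕ) {T T' : Set (GG J × M × M)} (h : T ⊆ T') : DD d l T ⊆ DD d l T' := by
  rintro y ⟨τ, h1, h2⟩
  exact ⟨τ, h h1, h2⟩

lemma DD_zero (l : ℕ) (T : Set (GG J × M × M)) (i : ℕ × J) (h1 : ∀ τ ∈ T, τ.1 i = 0)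
    (h2 : ∀ τ ∈ T, (l, d.c τ) ≠ i) : Submonoid.closure (DD d l T) ≤ ZZ M i := by
  rw [Submonoid.closure_le]
  rintro y ⟨τ, hτ, rfl | rfl⟩
  · show xx d l τ i = 0
    exact Finsupp.single_eq_of_ne (h2 τ hτ).symm
  · show (τ.1 - xx d l τ) i = 0
    rw [Finsupp.sub_apply, h1 τ hτ, xx, Finsupp.single_eq_of_ne (h2 τ hτ).symm, sub_zero]

lemma many (Q : Submonoid (Multiplicative (GG J) × M)) (l : ℕ) (T : Set (GG J × M × M))
    (h0 : R0 M J ≤ Q) (hv : ∀ τ ∈ T, (ofAdd τ.1, τ.2.1 * τ.2.2) ∈ Q)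
    (hz : ∀ τ ∈ T, Q ≤ ZZ M (l, d.c τ))
    (y : Multiplicative (GG J) × M) (hy : y ∈ Q ⊔ Submonoid.closure (DD d l T))
    (hy0 : ∀ τ ∈ T, y ∈ ZZ M (l, d.c τ)) : y ∈ Q := by
  classical
  have hfin : ∃ F : Finset (GG J × M × M), (F : Set _) ⊆ T ∧
      y ∈ Q ⊔ Submonoid.closure (DD d l F) := by
    clear hy0
    obtain ⟨q, hq, z, hz, rfl⟩ := Submonoid.mem_sup.1 hy
    have : ∃ F : Finset (GG J × M × M), (F : Set _) ⊆ T ∧ z ∈ Submonoid.closure (DD d l F) := by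
      clear hy
      induction hz using Submonoid.closure_induction with
      | mem w hw =>
        obtain ⟨τ, h1, h2⟩ := hw
        exact ⟨{τ}, by simpa using h1, Submonoid.subset_closure ⟨τ, by simp, h2⟩⟩
      | one => exact ⟨∅, by simp, one_mem _⟩
      | mul a b _ _ ha hb =>
        obtain ⟨F, h1, h2⟩ := ha
        obtain ⟨F', h3, h4⟩ := hb
        refine ⟨F ∪ F', by simp [h1, h3], mul_mem ?_ ?_⟩
        · exact Submonoid.closure_mono (DD_mono d l (by simp)) h2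
        · exact Submonoid.closure_mono (DD_mono d l (by simp)) h4
    obtain ⟨F, h1, h2⟩ := this
    exact ⟨F, h1, Submonoid.mul_mem_sup hq h2⟩
  obtain ⟨F, hF, hyF⟩ := hfin
  clear hy
  induction F using Finset.induction_on with
  | empty =>
    have : DD d l ((∅ : Finset (GG J × M × M)) : Set _) = ∅ := by ext z; simp [DD]
    rwa [this, Submonoid.closure_empty, sup_bot_eq] at hyF
  | insert τ F hτ ih =>
    have hτT : τ ∈ T := hF (by simp)
    have hFT : (F : Set _) ⊆ T := fun a ha => hF (by simp [Finset.mem_coe.1 ha])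
    apply ih hFT
    refine step1 d _ l τ (le_trans h0 le_sup_left) (Submonoid.mem_sup_left (hv τ hτT))
      (sup_le (hz τ hτT) (DD_zero d l _ _ (fun σ hσ => hz τ hτT (hv σ (hFT hσ))) ?_)) y ?_
      (hy0 τ hτT)
    · intro σ hσ e
      have := d.hc (Prod.ext_iff.1 e).2
      exact hτ (this ▸ hσ)
    · have : DD d l ((insert τ F : Finset (GG J × M × M)) : Set _) = DD d l F ∪ DD d l {τ} := by
        ext z
        simp only [DD, Finset.coe_insert, Set.mem_insert_iff, exists_eq_or_imp, Set.mem_union,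
          Set.mem_ofPred_eq, Set.mem_singleton_iff, exists_eq_left]
        exact or_comm
      rwa [this, Submonoid.closure_union, ← sup_assoc] at hyF

noncomputable def RR : ℕ → Submonoid (Multiplicative (GG J) × M)
  | 0 => R0 M J
  | l + 1 => RR l ⊔ Submonoid.closure (DD d l {τ | (ofAdd τ.1, τ.2.1 * τ.2.2) ∈ RR l})

lemma RR_mono : Monotone (RR d) := monotone_nat_of_le_succ fun _ => le_sup_left

lemma RR_zero (l : ℕ) : ∀ i : ℕ × J, l ≤ i.1 → RR d l ≤ ZZ M i := by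
  induction l with
  | zero =>
    rintro i _ y ⟨h, _⟩
    show toAdd y.1 i = 0
    rw [h]; rfl
  | succ l ih =>
    intro i hi
    refine sup_le (ih i (by omega)) (DD_zero d l _ i (fun τ hτ => ih i (by omega) hτ) ?_)
    rintro τ _ rfl
    simp at hi

lemma RR_down (y : Multiplicative (GG J) × M) (hy : ∀ i : ℕ × J, 1 ≤ i.1 → y ∈ ZZ M i) (l : ℕ)
    (h : y ∈ RR d (l + 1)) : y ∈ RR d 1 := by
  induction l with
  | zero => exact h
  | succ l ih =>
    apply ih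
    exact many d _ (l + 1) _ (RR_mono d (Nat.zero_le _)) (fun τ hτ => hτ)
      (fun τ _ => RR_zero d _ _ le_rfl) y h (fun τ _ => hy _ (by simp))

def ff (s : M) : Set (Multiplicative (GG J)) := {g | ∃ l, (g, s) ∈ RR d l}

open scoped Pointwise in
lemma ff_mul (s t : M) : ff d (s * t) = ff d s * ff d t := by
  ext g
  constructor
  · rintro ⟨l, h⟩
    refine ⟨ofAdd (xx d l (toAdd g, s, t)), ⟨l + 1, ?_⟩,
      ofAdd (toAdd g - xx d l (toAdd g, s, t)), ⟨l + 1, ?_⟩, ?_⟩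
    · exact Submonoid.mem_sup_right (Submonoid.subset_closure ⟨(toAdd g, s, t), h, Or.inl rfl⟩)
    · exact Submonoid.mem_sup_right (Submonoid.subset_closure ⟨(toAdd g, s, t), h, Or.inr rfl⟩)
    · simp
  · rintro ⟨a, ⟨l, ha⟩, b, ⟨m, hb⟩, rfl⟩
    exact ⟨max l m, mul_mem (RR_mono d (le_max_left l m) ha) (RR_mono d (le_max_right l m) hb)⟩

lemma key (s : M) : ∃ x ∈ ff d s, ∀ u, x ∈ ff d u → ∃ e, e * e = e ∧ u = s * e := by
  obtain ⟨k, hk⟩ : ∃ k, d.N s = k + 1 := ⟨d.N s - 1, by have := d.hN s; omega⟩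
  let τ : GG J × M × M := (0, s, s ^ k)
  have hv : (ofAdd τ.1, τ.2.1 * τ.2.2) ∈ R0 M J := by
    refine ⟨rfl, ?_⟩
    have := d.idem s
    rwa [hk, pow_succ'] at this
  refine ⟨ofAdd (xx d 0 τ), ⟨1, Submonoid.mem_sup_right
    (Submonoid.subset_closure ⟨τ, hv, Or.inl rfl⟩)⟩, ?_⟩
  rintro u ⟨l, h⟩
  have h1 := RR_down d _ (fun i hi => by
    show xx d 0 τ i = 0
    refine Finsupp.single_eq_of_ne ?_
    rintro rfl
    simp at hi) l (RR_mono d (Nat.le_succ l) h)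
  have hne : ∀ σ : GG J × M × M, σ ≠ τ → (0, d.c τ) ≠ (0, d.c σ) := fun σ h e =>
    h (d.hc (Prod.ext_iff.1 e).2).symm
  have h2 : (ofAdd (xx d 0 τ), u) ∈ R0 M J ⊔ Submonoid.closure (DD d 0 {τ}) := by
    refine many d _ 0 ({σ | (ofAdd σ.1, σ.2.1 * σ.2.2) ∈ R0 M J} \ {τ}) le_sup_left
      (fun σ hσ => Submonoid.mem_sup_left hσ.1) (fun σ hσ => ?_) _ ?_ (fun σ hσ => ?_)
    · refine sup_le (RR_zero d 0 _ le_rfl) (DD_zero d 0 _ _ ?_ ?_)
      · rintro _ rfl; rfl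
      · rintro _ rfl; exact hne σ hσ.2
    · have : RR d 1 ≤ (R0 M J ⊔ Submonoid.closure (DD d 0 {τ})) ⊔ Submonoid.closure
          (DD d 0 ({σ | (ofAdd σ.1, σ.2.1 * σ.2.2) ∈ R0 M J} \ {τ})) := by
        refine sup_le (le_trans le_sup_left le_sup_left) ?_
        rw [Submonoid.closure_le]
        rintro y ⟨σ, h3, h4⟩
        by_cases e : σ = τ
        · exact Submonoid.mem_sup_left (Submonoid.mem_sup_right
            (Submonoid.subset_closure ⟨σ, e, h4⟩))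
        · exact Submonoid.mem_sup_right (Submonoid.subset_closure ⟨σ, ⟨h3, e⟩, h4⟩)
      exact this h1
    · show xx d 0 τ _ = 0
      exact Finsupp.single_eq_of_ne (hne σ hσ.2).symm
  obtain ⟨q, ⟨q1, q2⟩, z, hz, e⟩ := Submonoid.mem_sup.1 h2
  have : DD d 0 {τ} = {(ofAdd (xx d 0 τ), s), (ofAdd (0 - xx d 0 τ), s ^ k)} := by
    ext z; simp [DD, τ]
  rw [this] at hz
  obtain ⟨a, b, rfl⟩ := (Submonoid.mem_closure_pair _ _ _).1 hz
  have e1 := congrArg (fun y : Multiplicative (GG J) × M => toAdd y.1 (0, d.c τ)) e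
  have e2 := congrArg Prod.snd e
  simp only [Prod.fst_mul, q1, one_mul, Prod.pow_mk, toAdd_mul, toAdd_pow, toAdd_ofAdd, zero_sub,
    Finsupp.add_apply, Finsupp.smul_apply, Finsupp.neg_apply, smul_neg] at e1
  simp only [Prod.snd_mul, Prod.pow_mk] at e2
  have e3 : a • xx d 0 τ (0, d.c τ) = (b + 1) • xx d 0 τ (0, d.c τ) := by
    rw [add_smul, one_smul, add_comm]
    exact add_neg_eq_iff_eq_add.1 e1
  rw [nsmul_eq_nsmul_iff_modEq, xx_ord] at e3
  have e4 : a ≡ b + 1 [MOD d.N s] := e3.of_dvd ⟨d.N (s ^ k) * addOrderOf τ.1, by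
    simp [nn, τ, mul_assoc]⟩
  have e5 : a + k * b ≡ 1 [MOD d.N s] := by
    have : b + 1 + k * b = 1 + d.N s * b := by rw [hk]; ring
    have h3 := e4.add_right (k * b)
    rw [this] at h3
    exact h3.trans (by simp [Nat.ModEq])
  have e6 : a + k * b = 1 + d.N s * ((a + k * b) / d.N s) := by
    have h3 := Nat.mod_add_div (a + k * b) (d.N s)
    have h4 : 1 % d.N s = 1 := Nat.mod_eq_of_lt (d.hN s)
    unfold Nat.ModEq at e5
    omega
  refine ⟨q.2 * s ^ (d.N s * ((a + k * b) / d.N s)), ?_, ?_⟩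
  · rw [mul_mul_mul_comm, q2, idem_pow]
  · rw [← e2, ← pow_mul, ← pow_add, e6, pow_add, pow_one, ← e6, mul_left_comm]

lemma ff_inj : Function.Injective (ff d) := by
  intro s t h
  obtain ⟨x, hx, h1⟩ := key d s
  obtain ⟨y, hy, h2⟩ := key d t
  obtain ⟨e, he, e1⟩ := h1 t (h ▸ hx)
  obtain ⟨f, hf, e2⟩ := h2 s (h ▸ hy)
  have a1 : t * e = t := by rw [e1, mul_assoc, he]
  calc s = t * f := e2
    _ = t * e * f := by rw [a1]
    _ = t * f * e := mul_right_comm _ _ _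
    _ = t := by rw [← e2, ← e1]

lemma exists_N (s : M) (h : (Set.range fun n : ℕ => s ^ n).Finite) :
    ∃ N, 2 ≤ N ∧ s ^ N * s ^ N = s ^ N := by
  have : ¬ Function.Injective fun n : ℕ => s ^ n := fun hi => Set.infinite_range_of_injective hi h
  obtain ⟨a, b, hab, hlt⟩ : ∃ a b : ℕ, s ^ a = s ^ b ∧ a < b := by
    unfold Function.Injective at this
    push Not at this
    obtain ⟨a, b, h1, h2⟩ := this
    rcases lt_or_gt_of_ne h2 with h3 | h3
    · exact ⟨a, b, h1, h3⟩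
    · exact ⟨b, a, h1.symm, h3⟩
  obtain ⟨p, rfl⟩ := Nat.exists_eq_add_of_lt hlt
  have hk : ∀ k, s ^ (a + (p + 1) * k) = s ^ a := by
    intro k
    induction k with
    | zero => simp
    | succ k ih =>
      rw [show a + (p + 1) * (k + 1) = (a + p + 1) + (p + 1) * k by ring, pow_add, ← hab, ← pow_add,
        ih]
  refine ⟨(p + 1) * (a + 2), by nlinarith, ?_⟩
  have e : (p + 1) * (a + 2) = a + (p * (a + 2) + 2) := by ring
  calc s ^ ((p + 1) * (a + 2)) * s ^ ((p + 1) * (a + 2))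
      = s ^ (a + (p + 1) * (a + 2)) * s ^ (p * (a + 2) + 2) := by
        rw [← pow_add, ← pow_add]; congr 1; ring
    _ = _ := by rw [hk, ← pow_add, ← e]

end Pool.Agent.H25.PowSg
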