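import Mathlib

set_option autoImplicit false

namespace Pool.Agent.H25.Prim

open Quaternion

/-- The maximal order of discriminant 3. -/
abbrev O : Type := ℍ[ℤ, -1, 1, -1]

instance instDecEqO : DecidableEq O := fun x y =>
  decidable_of_iff (x.re = y.re ∧ x.imI = y.imI ∧ x.imJ = y.imJ ∧ x.imK = y.imK)
    ⟨fun h => QuaternionAlgebra.ext h.1 h.2.1 h.2.2.1 h.2.2.2, fun h => by subst h; simp⟩

def nrm (x : O) : ℤ :=
  x.re * x.re + x.re * x.imI + x.imI * x.imI + x.imJ * x.imJ + x.imJ * x.imK + x.imK * x.imK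

lemma nrm_mul (x y : O) : nrm (x * y) = nrm x * nrm y := by
  simp only [nrm, QuaternionAlgebra.re_mul, QuaternionAlgebra.imI_mul, QuaternionAlgebra.imJ_mul,
    QuaternionAlgebra.imK_mul]
  ring

lemma nrm_nonneg (x : O) : 0 ≤ nrm x := by
  unfold nrm
  nlinarith [sq_nonneg (x.re + x.imI), sq_nonneg (x.imJ + x.imK), sq_nonneg x.re, sq_nonneg x.imI,
    sq_nonneg x.imJ, sq_nonneg x.imK]

def L : List O :=
  [⟨-1, 0, 0, 0⟩, ⟨-1, 1, 0, 0⟩, ⟨0, -1, 0, 0⟩, ⟨0, 0, -1, 0⟩, ⟨0, 0, -1, 1⟩, ⟨0, 0, 0, -1⟩,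
   ⟨0, 0, 0, 1⟩, ⟨0, 0, 1, -1⟩, ⟨0, 0, 1, 0⟩, ⟨0, 1, 0, 0⟩, ⟨1, -1, 0, 0⟩, ⟨1, 0, 0, 0⟩]

lemma mem_L_of_nrm (x : O) (h : nrm x = 1) : x ∈ L := by
  obtain ⟨a, b, c, d⟩ := x
  simp only [nrm] at h
  have ha1 : a ≤ 1 := by nlinarith [sq_nonneg (a + 2 * b), sq_nonneg (c + d), sq_nonneg c, sq_nonneg d]
  have ha2 : -1 ≤ a := by nlinarith [sq_nonneg (a + 2 * b), sq_nonneg (c + d), sq_nonneg c, sq_nonneg d]
  have hb1 : b ≤ 1 := by nlinarith [sq_nonneg (b + 2 * a), sq_nonneg (c + d), sq_nonneg c, sq_nonneg d]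
  have hb2 : -1 ≤ b := by nlinarith [sq_nonneg (b + 2 * a), sq_nonneg (c + d), sq_nonneg c, sq_nonneg d]
  have hc1 : c ≤ 1 := by nlinarith [sq_nonneg (c + 2 * d), sq_nonneg (a + b), sq_nonneg a, sq_nonneg b]
  have hc2 : -1 ≤ c := by nlinarith [sq_nonneg (c + 2 * d), sq_nonneg (a + b), sq_nonneg a, sq_nonneg b]
  have hd1 : d ≤ 1 := by nlinarith [sq_nonneg (d + 2 * c), sq_nonneg (a + b), sq_nonneg a, sq_nonneg b]
  have hd2 : -1 ≤ d := by nlinarith [sq_nonneg (d + 2 * c), sq_nonneg (a + b), sq_nonneg a, sq_nonneg b]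
  interval_cases a <;> interval_cases b <;> interval_cases c <;> interval_cases d <;>
    first | (exfalso; revert h; decide) | decide

lemma mem_L_of_mul (y x : O) (h : y * x = 1) : x ∈ L := by
  apply mem_L_of_nrm
  have h1 : nrm y * nrm x = 1 := by
    rw [← nrm_mul, h]; decide
  have h2 := nrm_nonneg x
  have h3 := nrm_nonneg y
  rcases Int.eq_one_or_neg_one_of_mul_eq_one' h1 with h4 | h4
  · exact h4.2
  · omega

lemma unit_mem (u : Oˣ) : (u : O) ∈ L := mem_L_of_mul (u⁻¹ : Oˣ) u (by simp)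

def chi (x y : O) : O := if x * x = -1 ∧ y * y = y - 1 then 1 else 0

lemma d_sq : ∀ x ∈ L, ∀ y ∈ L, x * x * (y * y) = y * y * (x * x) := by decide +kernel

lemma d_base : ∀ x ∈ L, ∀ y ∈ L,
    y * ((1 - y * y * y) * (1 + y * y) * (y * x - x * y)) *
      ((1 - y * y) * (1 + x) - (1 - y * y) * (1 + x * y)) = 6 * chi x y ∧
    y * ((1 - y * y * y) * (1 + y * y) * (y * x - x * y)) *
      ((x * x - 1) * (1 + y) - (1 - y * y) * (1 + x * y) * x - (x * y * (x * y) - 1) * (1 + y))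
      = 6 * chi x y * ((x - 1) * y) := by decide +kernel

lemma d_three : ∀ x ∈ L, ∀ y ∈ L, ∀ z ∈ L,
    x * (2 * y - 1) * (y * x - x * y) * (6 * chi z y) -
      x * (x * (2 * y - 1) * (y * x - x * y)) * (6 * chi (x * z) y) * x = 18 * chi x y ∧
    x * (2 * y - 1) * (y * x - x * y) * (6 * chi (x * z) y) =
      x * z * (2 * y - 1) * (y * (x * z) - x * z * y) * (6 * chi x y) := by decide +kernel

lemma d_g : ∀ x ∈ L, ∀ y ∈ L, chi x y = 0 ∨ (chi x y = 1 ∧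
    (x - 1) * y * ((1 - y) * (-x - 1) * y * (1 + 9 * y) * 18) =
      (1 + y * 18) * (1 + y * 18) - 1) := by decide +kernel

def sg : O := ⟨0, 1, 0, 0⟩
def tt : O := ⟨0, 0, 1, 0⟩
def k2 : O := ⟨10, -10, -9, -9⟩

def c2 (x y : O) : Prop :=
  (x - y).re % 2 = 0 ∧ (x - y).imI % 2 = 0 ∧ (x - y).imJ % 2 = 0 ∧ (x - y).imK % 2 = 0

def c3 (x y : O) : Prop := nrm (x - y) % 3 = 0

instance (x y : O) : Decidable (c2 x y) := by unfold c2; infer_instance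
instance (x y : O) : Decidable (c3 x y) := by unfold c3; infer_instance

lemma d_final : ∀ e1 ∈ L, ∀ e2 ∈ L, c3 e1 e2 → ∀ e3 ∈ L, c2 e1 e3 → ∀ e4 ∈ L,
    c2 (k2 * e4) e2 → ¬ c3 (k2 * e4) e3 := by decide +kernel

/-- The affine group of `O`. -/
@[ext] structure B where
  m : O
  u : Oˣ

instance : Mul B := ⟨fun a b => ⟨a.m + a.u * b.m, a.u * b.u⟩⟩
instance : One B := ⟨⟨0, 1⟩⟩
instance : Inv B := ⟨fun a => ⟨-((a.u⁻¹ : Oˣ) * a.m), a.u⁻¹⟩⟩

@[simp] lemma mul_m (a b : B) : (a * b).m = a.m + a.u * b.m := rfl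
@[simp] lemma mul_u (a b : B) : (a * b).u = a.u * b.u := rfl
@[simp] lemma one_m : (1 : B).m = 0 := rfl
@[simp] lemma one_u : (1 : B).u = 1 := rfl
@[simp] lemma inv_m (a : B) : (a⁻¹).m = -((a.u⁻¹ : Oˣ) * a.m) := rfl
@[simp] lemma inv_u (a : B) : (a⁻¹).u = a.u⁻¹ := rfl

instance : Group B := Group.ofLeftAxioms
  (fun a b c => by
    ext1
    · simp only [mul_m, mul_u, Units.val_mul]; noncomm_ring
    · simp only [mul_u, mul_assoc])
  (fun a => by ext1 <;> simp)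
  (fun a => by ext1 <;> simp)

def uHom : B →* Oˣ where
  toFun := B.u
  map_one' := rfl
  map_mul' := fun _ _ => rfl

end Pool.Agent.H25.Prim
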