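import Pool.Agent.H25.Prim

set_option autoImplicit false

namespace Pool.Agent.H25.Prim

section gen
variable {ι : Type}

/-- translation functions realised by words. -/
def NN (ι : Type) : AddSubgroup ((ι → B) → O) where
  carrier := {ν | ∃ ρ : FreeGroup ι, ∀ f : ι → B, FreeGroup.lift f ρ = ⟨ν f, 1⟩}
  zero_mem' := ⟨1, fun f => by rw [map_one]; rfl⟩
  add_mem' := by
    rintro ν ν' ⟨ρ, h⟩ ⟨ρ', h'⟩
    refine ⟨ρ * ρ', fun f => ?_⟩
    rw [map_mul, h, h']
    ext1 <;> simp
  neg_mem' := by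
    rintro ν ⟨ρ, h⟩
    refine ⟨ρ⁻¹, fun f => ?_⟩
    rw [map_inv, h]
    ext1 <;> simp

def RR (ι : Type) : Subring ((ι → B) → O) where
  carrier := {r | ∀ ν ∈ NN ι, r * ν ∈ NN ι}
  zero_mem' := fun ν _ => by rw [zero_mul]; exact (NN ι).zero_mem
  one_mem' := fun ν h => by rw [one_mul]; exact h
  add_mem' := fun {a b} ha hb ν h => by rw [add_mul]; exact (NN ι).add_mem (ha ν h) (hb ν h)
  neg_mem' := fun {a} ha ν h => by rw [neg_mul]; exact (NN ι).neg_mem (ha ν h)
  mul_mem' := fun {a b} ha hb ν h => by rw [mul_assoc]; exact ha _ (hb ν h)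

def UU (g : FreeGroup ι) : (ι → B) → O := fun f => ((FreeGroup.lift f g).u : O)
def TT (g : FreeGroup ι) : (ι → B) → O := fun f => (FreeGroup.lift f g).m

lemma UU_mem (g : FreeGroup ι) : UU g ∈ RR ι := by
  rintro ν ⟨ρ, h⟩
  refine ⟨g * ρ * g⁻¹, fun f => ?_⟩
  rw [map_mul, map_mul, map_inv, h]
  ext1
  · simp [UU]
  · simp

lemma smul_mem_NN {r ν : (ι → B) → O} (hr : r ∈ RR ι) (hν : ν ∈ NN ι) : r * ν ∈ NN ι := hr ν hν

lemma comm_mem (g h : FreeGroup ι) (hc : ∀ f, UU g f * UU h f = UU h f * UU g f) :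
    (1 - UU h) * TT g + (UU g - 1) * TT h ∈ NN ι := by
  refine ⟨g * h * g⁻¹ * h⁻¹, fun f => ?_⟩
  have hc' : (FreeGroup.lift f g).u * (FreeGroup.lift f h).u =
      (FreeGroup.lift f h).u * (FreeGroup.lift f g).u := by
    ext1; simpa [UU] using hc f
  have e1 : (FreeGroup.lift f g).u * (FreeGroup.lift f h).u * (FreeGroup.lift f g).u⁻¹ =
      (FreeGroup.lift f h).u := by rw [hc']; simp
  have e2 : ((FreeGroup.lift f g).u : O) * (FreeGroup.lift f h).u *
      ((FreeGroup.lift f g).u⁻¹ : Oˣ) = (FreeGroup.lift f h).u := by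
    have := congrArg Units.val e1
    simpa using this
  rw [map_mul, map_mul, map_mul, map_inv, map_inv]
  ext1
  · simp only [mul_m, mul_u, inv_m, inv_u, e1, Pi.add_apply, Pi.mul_apply, Pi.sub_apply,
      Pi.one_apply, UU, TT, Units.val_mul, mul_neg]
    rw [← mul_assoc, e2, ← mul_assoc, Units.mul_inv, one_mul]
    noncomm_ring
  · simp only [mul_u, inv_u, e1]; simp

/-- the basic syzygy. -/
def EE (b1 b2 : B) : O := b1.m + ((b1.u : O) - 1) * b2.u * b2.m

lemma base_mem (y z : FreeGroup ι) :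
    (fun f => 6 * chi (UU y f) (UU z f) * EE (FreeGroup.lift f y) (FreeGroup.lift f z)) ∈ NN ι := by
  have h1 := comm_mem (y * y) (z * z) (fun f => by
    simp only [UU, map_mul, mul_u, Units.val_mul]
    exact d_sq _ (unit_mem _) _ (unit_mem _))
  have h2 := comm_mem (y * z * (y * z)) (z * z) (fun f => by
    have := d_sq _ (unit_mem ((FreeGroup.lift f y).u * (FreeGroup.lift f z).u)) _
      (unit_mem (FreeGroup.lift f z).u)
    simpa only [UU, map_mul, mul_u, Units.val_mul] using this)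
  have hr : UU z * ((1 - UU z * UU z * UU z) * (1 + UU z * UU z) * (UU z * UU y - UU y * UU z))
      ∈ RR ι := by
    have hy := UU_mem y
    have hz := UU_mem z
    exact mul_mem hz (mul_mem (mul_mem (sub_mem (one_mem _) (mul_mem (mul_mem hz hz) hz))
      (add_mem (one_mem _) (mul_mem hz hz))) (sub_mem (mul_mem hz hy) (mul_mem hy hz)))
  have h3 := smul_mem_NN hr (sub_mem h1 h2)
  convert h3 using 1
  funext f
  obtain ⟨d1, d2⟩ := d_base _ (unit_mem (FreeGroup.lift f y).u) _ (unit_mem (FreeGroup.lift f z).u)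
  simp only [UU, TT, EE, Pi.add_apply, Pi.mul_apply, Pi.sub_apply, Pi.one_apply, map_mul, mul_u,
    mul_m, Units.val_mul]
  linear_combination (norm := noncomm_ring) -(d1 * (FreeGroup.lift f y).m) -
    d2 * (FreeGroup.lift f z).m

lemma E1_mem (i j : ι) :
    (fun f : ι → B => 18 * chi (f i).u (f j).u * EE (f i) (f j)) ∈ NN ι := by
  have h := base_mem (FreeGroup.of i) (FreeGroup.of j)
  have h3 : (3 : (ι → B) → O) ∈ RR ι := ofNat_mem _ 3
  convert smul_mem_NN h3 h using 1
  funext f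
  simp only [UU, FreeGroup.lift_apply_of, Pi.mul_apply, Pi.ofNat_apply]
  noncomm_ring

lemma E3_mem (i j k : ι) :
    (fun f : ι → B => 18 * chi (f i).u (f j).u * EE (f k) (f j)) ∈ NN ι := by
  have hA := base_mem (FreeGroup.of k) (FreeGroup.of j)
  have hB := base_mem (FreeGroup.of i * FreeGroup.of k) (FreeGroup.of j)
  have hC := base_mem (FreeGroup.of i) (FreeGroup.of j)
  have hx := UU_mem (FreeGroup.of i)
  have hy := UU_mem (FreeGroup.of j)
  have hz := UU_mem (FreeGroup.of k)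
  have h2 : (2 : (ι → B) → O) ∈ RR ι := ofNat_mem _ 2
  set x := UU (FreeGroup.of i) with hxd
  set y := UU (FreeGroup.of j) with hyd
  set z := UU (FreeGroup.of k) with hzd
  have r1 : x * (2 * y - 1) * (y * x - x * y) ∈ RR ι :=
    mul_mem (mul_mem hx (sub_mem (mul_mem h2 hy) (one_mem _)))
      (sub_mem (mul_mem hy hx) (mul_mem hx hy))
  have r2 : x * z * (2 * y - 1) * (y * (x * z) - x * z * y) ∈ RR ι :=
    mul_mem (mul_mem (mul_mem hx hz) (sub_mem (mul_mem h2 hy) (one_mem _)))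
      (sub_mem (mul_mem hy (mul_mem hx hz)) (mul_mem (mul_mem hx hz) hy))
  have h := sub_mem (smul_mem_NN r1 hA)
    (smul_mem_NN hx (sub_mem (smul_mem_NN r1 hB) (smul_mem_NN r2 hC)))
  convert h using 1
  funext f
  obtain ⟨d1, d2⟩ := d_three _ (unit_mem (f i).u) _ (unit_mem (f j).u) _ (unit_mem (f k).u)
  simp only [hxd, hyd, hzd, UU, EE, Pi.mul_apply, Pi.sub_apply, Pi.one_apply, map_mul, mul_u,
    mul_m, Units.val_mul, FreeGroup.lift_apply_of, Pi.ofNat_apply]
  linear_combination (norm := noncomm_ring)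
    -(d1 * ((f k).m + (((f k).u : O) - 1) * (f j).u * (f j).m)) +
    ((f i).u : O) * d2 * ((f i).m + (((f i).u : O) - 1) * (f j).u * (f j).m)

lemma word_exists (i j k l : ι) (r1 r3 : (ι → B) → O) (h1 : r1 ∈ RR ι) (h3 : r3 ∈ RR ι) :
    ∃ α : FreeGroup ι, ∀ f : ι → B, FreeGroup.lift f α =
      ⟨(f l).m + (r1 f * (18 * chi (f i).u (f j).u * EE (f i) (f j)) +
        r3 f * (18 * chi (f i).u (f j).u * EE (f k) (f j))), (f l).u⟩ := by
  obtain ⟨ρ, hρ⟩ := add_mem (smul_mem_NN h1 (E1_mem i j)) (smul_mem_NN h3 (E3_mem i j k))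
  refine ⟨ρ * FreeGroup.of l, fun f => ?_⟩
  rw [map_mul, hρ, FreeGroup.lift_apply_of]
  ext1
  · simp [add_comm]
  · simp

end gen

def WW : Set (FreeGroup ℕ) := {u | ∀ f : ℕ → B, FreeGroup.lift f u = 1}

abbrev VV (n : ℕ) : Subgroup (FreeGroup (Fin n)) := Subgroup.normalClosure
  {x : FreeGroup (Fin n) | ∃ u ∈ WW, ∃ g : ℕ → FreeGroup (Fin n), FreeGroup.lift g u = x}

lemma lift_lift {α β : Type} (f : β → B) (g : α → FreeGroup β) (u : FreeGroup α) :
    FreeGroup.lift f (FreeGroup.lift g u) = FreeGroup.lift (fun a => FreeGroup.lift f (g a)) u := by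
  have : (FreeGroup.lift f).comp (FreeGroup.lift g) =
      FreeGroup.lift (fun a => FreeGroup.lift f (g a)) := by
    ext a : 1; simp
  exact DFunLike.congr_fun this u

lemma lift_map {α β : Type} {G : Type} [Group G] (f : β → G) (g : α → β) (u : FreeGroup α) :
    FreeGroup.lift f (FreeGroup.map g u) = FreeGroup.lift (fun a => f (g a)) u := by
  have : (FreeGroup.lift f).comp (FreeGroup.map g) = FreeGroup.lift (fun a => f (g a)) := by
    ext a : 1; simp
  exact DFunLike.congr_fun this u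

lemma mem_VV (n : ℕ) (x : FreeGroup (Fin n)) :
    x ∈ VV n ↔ ∀ f : Fin n → B, FreeGroup.lift f x = 1 := by
  constructor
  · intro hx f
    have : VV n ≤ (FreeGroup.lift f).ker := by
      apply Subgroup.normalClosure_le_normal
      rintro y ⟨u, hu, g, rfl⟩
      show FreeGroup.lift f (FreeGroup.lift g u) = 1
      rw [lift_lift]
      exact hu _
    exact this hx
  · intro hx
    apply Subgroup.subset_normalClosure
    refine ⟨FreeGroup.map Fin.val x, fun f => ?_,
      fun i => if h : i < n then FreeGroup.of ⟨i, h⟩ else 1, ?_⟩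
    · rw [lift_map]; exact hx _
    · rw [lift_map]
      have : (fun a : Fin n => if h : (a : ℕ) < n then FreeGroup.of (⟨a, h⟩ : Fin n) else 1) =
          FreeGroup.of := by
        funext a; simp [a.2]
      rw [this, FreeGroup.lift_of_eq_id]; rfl

abbrev QQ (n : ℕ) : Type := FreeGroup (Fin n) ⧸ VV n

lemma mk_eq (n : ℕ) (x y : FreeGroup (Fin n)) :
    (QuotientGroup.mk x : QQ n) = QuotientGroup.mk y ↔
      ∀ f : Fin n → B, FreeGroup.lift f x = FreeGroup.lift f y := by
  rw [QuotientGroup.eq, mem_VV]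
  simp only [map_mul, map_inv, inv_mul_eq_one]

def endo (n : ℕ) (α : Fin n → FreeGroup (Fin n)) : QQ n →* QQ n :=
  QuotientGroup.map (VV n) (VV n) (FreeGroup.lift α) (fun x hx => by
    rw [Subgroup.mem_comap, mem_VV]
    intro f
    rw [lift_lift]
    exact (mem_VV n x).1 hx _)

lemma endo_mk (n : ℕ) (α : Fin n → FreeGroup (Fin n)) (x : FreeGroup (Fin n)) :
    endo n α (QuotientGroup.mk x) = QuotientGroup.mk (FreeGroup.lift α x) := rfl

lemma endo_comp (n : ℕ) (α β : Fin n → FreeGroup (Fin n))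
    (h : ∀ (f : Fin n → B) (j : Fin n),
      FreeGroup.lift (fun a => FreeGroup.lift f (α a)) (β j) = f j) :
    (endo n α).comp (endo n β) = MonoidHom.id _ := by
  apply QuotientGroup.monoidHom_ext
  ext j : 1
  show endo n α (endo n β (QuotientGroup.mk (FreeGroup.of j))) = QuotientGroup.mk (FreeGroup.of j)
  rw [endo_mk, endo_mk, mk_eq]
  intro f
  rw [FreeGroup.lift_apply_of, lift_lift, h, FreeGroup.lift_apply_of]

lemma aut_exists (n : ℕ) (α β : Fin n → FreeGroup (Fin n))
    (h : ∀ (f : Fin n → B) (j : Fin n),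
      FreeGroup.lift (fun a => FreeGroup.lift f (α a)) (β j) = f j)
    (h' : ∀ (f : Fin n → B) (j : Fin n),
      FreeGroup.lift (fun a => FreeGroup.lift f (β a)) (α j) = f j) :
    ∃ ψ : QQ n ≃* QQ n, ∀ j, ψ (QuotientGroup.mk (FreeGroup.of j)) = QuotientGroup.mk (α j) := by
  refine ⟨MonoidHom.toMulEquiv (endo n α) (endo n β) (endo_comp n β α h') (endo_comp n α β h),
    fun j => ?_⟩
  show endo n α (QuotientGroup.mk (FreeGroup.of j)) = _
  rw [endo_mk, FreeGroup.lift_apply_of]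

def LL (n : ℕ) (f : Fin n → B) : QQ n →* B :=
  QuotientGroup.lift (VV n) (FreeGroup.lift f) (fun x hx => (mem_VV n x).1 hx f)

lemma LL_mk (n : ℕ) (f : Fin n → B) (x : FreeGroup (Fin n)) :
    LL n f (QuotientGroup.mk x) = FreeGroup.lift f x := rfl

end Pool.Agent.H25.Prim
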