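import Pool.Agent.H25.Prim2

set_option autoImplicit false

namespace Pool.Agent.H25.Prim

section ringlem
variable {R : Type} [Ring R]

def aa (y : R) : R := 1 + y * 18
def rr (x y : R) : R := (1 - y) * (-x - 1) * y * (1 + 9 * y)

def p1 (x y z : R) : Fin 3 → R :=
  ![y, -(rr x y * aa y), -(y * (2 + y * 18)) + (z - 1) * y * (rr x y * aa y)]
def p3 (x y z : R) : Fin 3 → R := ![0, rr x y, y - (z - 1) * y * rr x y]
def q1 (x y z : R) (j : Fin 3) : R :=
  -(p1 x y z j * aa y + p3 x y z j * (aa y * aa y - 1))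
def q3 (x y z : R) (j : Fin 3) : R :=
  -(p1 x y z j * (1 - aa y * aa y) + p3 x y z j * (aa y * (2 - aa y * aa y)))

lemma inc1 (x y z e1 e3 : R) (hr : (x - 1) * y * (rr x y * 18) = aa y * aa y - 1) :
    p1 x y z 0 * (18 * e1) + p3 x y z 0 * (18 * e3) +
      (x - 1) * y * (p1 x y z 1 * (18 * e1) + p3 x y z 1 * (18 * e3)) =
      (aa y * (2 - aa y * aa y) - 1) * e1 + (aa y * aa y - 1) * e3 := by
  have ha : aa y = 1 + y * 18 := rfl
  simp only [p1, p3, Matrix.cons_val_zero, Matrix.cons_val_one]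
  generalize rr x y = r at *
  generalize aa y = a at *
  linear_combination (norm := noncomm_ring) hr * e3 - hr * a * e1 - ha * e1

lemma inc3 (x y z e1 e3 : R) :
    p1 x y z 2 * (18 * e1) + p3 x y z 2 * (18 * e3) +
      (z - 1) * y * (p1 x y z 1 * (18 * e1) + p3 x y z 1 * (18 * e3)) =
      (1 - aa y * aa y) * e1 + (aa y - 1) * e3 := by
  simp only [p1, p3, Matrix.cons_val_one, Matrix.cons_val_zero, Matrix.cons_val_two,
    Matrix.tail_cons, Matrix.head_cons]
  generalize rr x y = r at *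
  unfold aa
  noncomm_ring

lemma qform (x y z e1 e3 : R) (j : Fin 3) :
    q1 x y z j * (18 * e1) + q3 x y z j * (18 * e3) =
      -(p1 x y z j * (18 * (aa y * e1 + (1 - aa y * aa y) * e3)) +
        p3 x y z j * (18 * ((aa y * aa y - 1) * e1 + aa y * (2 - aa y * aa y) * e3))) := by
  unfold q1 q3
  generalize p1 x y z j = s
  generalize p3 x y z j = t
  generalize aa y = a
  noncomm_ring

lemma dir1 (x y z m0 m1 m2 : R) (hr : (x - 1) * y * (rr x y * 18) = aa y * aa y - 1)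
    (e1 e3 : R) (h1 : e1 = m0 + (x - 1) * y * m1) (h3 : e3 = m2 + (z - 1) * y * m1) (j : Fin 3) :
    (p1 x y z j * (18 * e1) + p3 x y z j * (18 * e3)) +
      (q1 x y z j * (18 * ((m0 + (p1 x y z 0 * (18 * e1) + p3 x y z 0 * (18 * e3))) +
          (x - 1) * y * (m1 + (p1 x y z 1 * (18 * e1) + p3 x y z 1 * (18 * e3))))) +
       q3 x y z j * (18 * ((m2 + (p1 x y z 2 * (18 * e1) + p3 x y z 2 * (18 * e3))) +
          (z - 1) * y * (m1 + (p1 x y z 1 * (18 * e1) + p3 x y z 1 * (18 * e3)))))) = 0 := by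
  have i1 := inc1 x y z e1 e3 hr
  have i3 := inc3 x y z e1 e3
  have j1 : (m0 + (p1 x y z 0 * (18 * e1) + p3 x y z 0 * (18 * e3))) +
          (x - 1) * y * (m1 + (p1 x y z 1 * (18 * e1) + p3 x y z 1 * (18 * e3))) =
      aa y * (2 - aa y * aa y) * e1 + (aa y * aa y - 1) * e3 := by
    linear_combination (norm := noncomm_ring) i1 - h1
  have j3 : (m2 + (p1 x y z 2 * (18 * e1) + p3 x y z 2 * (18 * e3))) +
          (z - 1) * y * (m1 + (p1 x y z 1 * (18 * e1) + p3 x y z 1 * (18 * e3))) =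
      (1 - aa y * aa y) * e1 + aa y * e3 := by
    linear_combination (norm := noncomm_ring) i3 - h3
  rw [j1, j3, qform]
  generalize p1 x y z j = s
  generalize p3 x y z j = t
  generalize aa y = a
  noncomm_ring

lemma dir2 (x y z m0 m1 m2 : R) (hr : (x - 1) * y * (rr x y * 18) = aa y * aa y - 1)
    (e1 e3 : R) (h1 : e1 = m0 + (x - 1) * y * m1) (h3 : e3 = m2 + (z - 1) * y * m1) (j : Fin 3) :
    (q1 x y z j * (18 * e1) + q3 x y z j * (18 * e3)) +
      (p1 x y z j * (18 * ((m0 + (q1 x y z 0 * (18 * e1) + q3 x y z 0 * (18 * e3))) +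
          (x - 1) * y * (m1 + (q1 x y z 1 * (18 * e1) + q3 x y z 1 * (18 * e3))))) +
       p3 x y z j * (18 * ((m2 + (q1 x y z 2 * (18 * e1) + q3 x y z 2 * (18 * e3))) +
          (z - 1) * y * (m1 + (q1 x y z 1 * (18 * e1) + q3 x y z 1 * (18 * e3)))))) = 0 := by
  have i1 := inc1 x y z (aa y * e1 + (1 - aa y * aa y) * e3)
    ((aa y * aa y - 1) * e1 + aa y * (2 - aa y * aa y) * e3) hr
  have i3 := inc3 x y z (aa y * e1 + (1 - aa y * aa y) * e3)
    ((aa y * aa y - 1) * e1 + aa y * (2 - aa y * aa y) * e3)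
  simp only [qform]
  generalize aa y = a at *
  have j1 : (m0 + -(p1 x y z 0 * (18 * (a * e1 + (1 - a * a) * e3)) +
        p3 x y z 0 * (18 * ((a * a - 1) * e1 + a * (2 - a * a) * e3)))) +
      (x - 1) * y * (m1 + -(p1 x y z 1 * (18 * (a * e1 + (1 - a * a) * e3)) +
        p3 x y z 1 * (18 * ((a * a - 1) * e1 + a * (2 - a * a) * e3)))) =
      a * e1 + (1 - a * a) * e3 := by
    linear_combination (norm := noncomm_ring) -i1 - h1
  have j3 : (m2 + -(p1 x y z 2 * (18 * (a * e1 + (1 - a * a) * e3)) +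
        p3 x y z 2 * (18 * ((a * a - 1) * e1 + a * (2 - a * a) * e3)))) +
      (z - 1) * y * (m1 + -(p1 x y z 1 * (18 * (a * e1 + (1 - a * a) * e3)) +
        p3 x y z 1 * (18 * ((a * a - 1) * e1 + a * (2 - a * a) * e3)))) =
      (a * a - 1) * e1 + a * (2 - a * a) * e3 := by
    linear_combination (norm := noncomm_ring) -i3 - h3
  rw [j1, j3]
  simp

lemma mem_all (S : Subring R) (x y z : R) (hx : x ∈ S) (hy : y ∈ S) (hz : z ∈ S) (j : Fin 3) :
    p1 x y z j ∈ S ∧ p3 x y z j ∈ S ∧ q1 x y z j ∈ S ∧ q3 x y z j ∈ S := by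
  have h18 : (18 : R) ∈ S := ofNat_mem _ 18
  have h9 : (9 : R) ∈ S := ofNat_mem _ 9
  have h2 : (2 : R) ∈ S := ofNat_mem _ 2
  have h1 : (1 : R) ∈ S := one_mem _
  have ha : aa y ∈ S := add_mem h1 (mul_mem hy h18)
  have hr : rr x y ∈ S := mul_mem (mul_mem (mul_mem (sub_mem h1 hy) (sub_mem (neg_mem hx) h1)) hy)
    (add_mem h1 (mul_mem h9 hy))
  have hp1 : p1 x y z j ∈ S := by
    fin_cases j
    · exact hy
    · exact neg_mem (mul_mem hr ha)
    · exact add_mem (neg_mem (mul_mem hy (add_mem h2 (mul_mem hy h18))))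
        (mul_mem (mul_mem (sub_mem hz h1) hy) (mul_mem hr ha))
  have hp3 : p3 x y z j ∈ S := by
    fin_cases j
    · exact zero_mem _
    · exact hr
    · exact sub_mem hy (mul_mem (mul_mem (sub_mem hz h1) hy) hr)
  have haa := mul_mem ha ha
  exact ⟨hp1, hp3, neg_mem (add_mem (mul_mem hp1 ha) (mul_mem hp3 (sub_mem haa h1))),
    neg_mem (add_mem (mul_mem hp1 (sub_mem h1 haa)) (mul_mem hp3 (mul_mem ha (sub_mem h2 haa))))⟩

lemma pi_all {A : Type} (x y z : A → R) (f : A) (j : Fin 3) :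
    p1 x y z j f = p1 (x f) (y f) (z f) j ∧ p3 x y z j f = p3 (x f) (y f) (z f) j ∧
    q1 x y z j f = q1 (x f) (y f) (z f) j ∧ q3 x y z j f = q3 (x f) (y f) (z f) j := by
  fin_cases j <;> exact ⟨rfl, rfl, rfl, rfl⟩

end ringlem

lemma rank3 (w : FreeGroup (Fin 3))
    (hw : ∀ f : Fin 3 → B, FreeGroup.lift f w =
      ⟨(f 0).m + (f 1).u * (18 * chi (f 0).u (f 1).u * EE (f 0) (f 1)), (f 0).u⟩) :
    ∃ ψ : QQ 3 ≃* QQ 3, ψ (QuotientGroup.mk (FreeGroup.of 0)) = QuotientGroup.mk w := by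
  have hmem := mem_all (RR (Fin 3)) _ _ _ (UU_mem (FreeGroup.of 0)) (UU_mem (FreeGroup.of 1))
    (UU_mem (FreeGroup.of 2))
  have hα := fun j => word_exists (0 : Fin 3) 1 2 j _ _ (hmem j).1 (hmem j).2.1
  have hβ := fun j => word_exists (0 : Fin 3) 1 2 j _ _ (hmem j).2.2.1 (hmem j).2.2.2
  choose α hα using hα
  choose β hβ using hβ
  simp only [(pi_all _ _ _ _ _).1, (pi_all _ _ _ _ _).2.1, UU, FreeGroup.lift_apply_of] at hα
  simp only [(pi_all _ _ _ _ _).2.2.1, (pi_all _ _ _ _ _).2.2.2, UU, FreeGroup.lift_apply_of] at hβ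
  obtain ⟨ψ, hψ⟩ := aut_exists 3 α β
    (fun f j => by
      rw [hβ]
      simp only [hα]
      ext1
      · rcases d_g _ (unit_mem (f 0).u) _ (unit_mem (f 1).u) with h | ⟨h, hr⟩
        · simp [h]
        · have := dir1 ((f 0).u : O) (f 1).u (f 2).u (f 0).m (f 1).m (f 2).m hr _ _ rfl rfl j
          simp only [h, mul_one, EE]
          rw [add_assoc, this, add_zero]
      · rfl)
    (fun f j => by
      rw [hα]
      simp only [hβ]
      ext1
      · rcases d_g _ (unit_mem (f 0).u) _ (unit_mem (f 1).u) with h | ⟨h, hr⟩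
        · simp [h]
        · have := dir2 ((f 0).u : O) (f 1).u (f 2).u (f 0).m (f 1).m (f 2).m hr _ _ rfl rfl j
          simp only [h, mul_one, EE]
          rw [add_assoc, this, add_zero]
      · rfl)
  refine ⟨ψ, ?_⟩
  rw [hψ, mk_eq]
  intro f
  rw [hα, hw]
  simp [p1, p3]

end Pool.Agent.H25.Prim
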