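import Pool.Agent.H25.Prim3

set_option autoImplicit false

namespace Pool.Agent.H25.Prim

/-- congruence modulo a normal element. -/
def Cg (p : O) (hp : ∀ z : O, ∃ z', z * p = p * z') : Subgroup (B × B) where
  carrier := {b | (∃ z, b.1.m - b.2.m = p * z) ∧ ∃ z, (b.1.u : O) - b.2.u = p * z}
  one_mem' := ⟨⟨0, by simp⟩, ⟨0, by simp⟩⟩
  mul_mem' := by
    rintro ⟨a, a'⟩ ⟨b, b'⟩ ⟨⟨z1, h1⟩, ⟨z2, h2⟩⟩ ⟨⟨z3, h3⟩, ⟨z4, h4⟩⟩
    obtain ⟨s, hs⟩ := hp a.u
    simp only at h1 h2 h3 h4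
    refine ⟨⟨z1 + s * z3 + z2 * b'.m, ?_⟩, ⟨s * z4 + z2 * b'.u, ?_⟩⟩
    · simp only [Prod.mk_mul_mk, mul_m]
      linear_combination (norm := noncomm_ring) h1 + (a.u : O) * h3 + hs * z3 + h2 * b'.m
    · simp only [Prod.mk_mul_mk, mul_u, Units.val_mul]
      linear_combination (norm := noncomm_ring) (a.u : O) * h4 + hs * z4 + h2 * (b'.u : O)
  inv_mem' := by
    rintro ⟨a, a'⟩ ⟨⟨z1, h1⟩, ⟨z2, h2⟩⟩
    obtain ⟨s, hs⟩ := hp (a.u⁻¹ : Oˣ)
    simp only at h1 h2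
    have e1 : ((a.u⁻¹ : Oˣ) : O) * a.u = 1 := by simp
    have e2 : (a'.u : O) * (a'.u⁻¹ : Oˣ) = 1 := by simp
    have hu : ((a.u⁻¹ : Oˣ) : O) - (a'.u⁻¹ : Oˣ) = p * (-(s * z2 * (a'.u⁻¹ : Oˣ))) := by
      linear_combination (norm := noncomm_ring)
        -(((a.u⁻¹ : Oˣ) : O) * h2 * ((a'.u⁻¹ : Oˣ) : O)) - hs * z2 * ((a'.u⁻¹ : Oˣ) : O)
          + e1 * ((a'.u⁻¹ : Oˣ) : O) - ((a.u⁻¹ : Oˣ) : O) * e2
    refine ⟨⟨-(s * z1) + s * z2 * (a'.u⁻¹ : Oˣ) * a'.m, ?_⟩, ⟨_, hu⟩⟩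
    simp only [Prod.inv_mk, inv_m]
    linear_combination (norm := noncomm_ring)
      -(((a.u⁻¹ : Oˣ) : O) * h1) - hs * z1 - hu * a'.m

lemma lift_cg {ι : Type} (S : Subgroup (B × B)) (f f' : ι → B) (h : ∀ j, (f j, f' j) ∈ S)
    (w : FreeGroup ι) : (FreeGroup.lift f w, FreeGroup.lift f' w) ∈ S := by
  induction w using FreeGroup.induction_on with
  | C1 => rw [map_one, map_one]; exact S.one_mem
  | of j => simpa using h j
  | inv_of j hj => simpa using S.inv_mem hj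
  | mul a b ha hb => simpa using S.mul_mem ha hb

lemma lift_span (f : Fin 2 → B) (w : FreeGroup (Fin 2)) :
    ∃ c d : O, (FreeGroup.lift f w).m = c * (f 0).m + d * (f 1).m := by
  induction w using FreeGroup.induction_on with
  | C1 => exact ⟨0, 0, by simp⟩
  | of j =>
    fin_cases j
    · exact ⟨1, 0, by simp⟩
    · exact ⟨0, 1, by simp⟩
  | inv_of j hj =>
    obtain ⟨c, d, h⟩ := hj
    refine ⟨-(((FreeGroup.lift f (FreeGroup.of j)).u⁻¹ : Oˣ) * c),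
      -(((FreeGroup.lift f (FreeGroup.of j)).u⁻¹ : Oˣ) * d), ?_⟩
    rw [map_inv, inv_m, h]
    noncomm_ring
  | mul a b ha hb =>
    obtain ⟨c, d, h⟩ := ha
    obtain ⟨c', d', h'⟩ := hb
    refine ⟨c + (FreeGroup.lift f a).u * c', d + (FreeGroup.lift f a).u * d', ?_⟩
    rw [map_mul, mul_m, h, h']
    noncomm_ring

def th : O := ⟨1, -2, 0, 0⟩

lemma normal2 : ∀ z : O, ∃ z', z * 2 = 2 * z' := fun z => ⟨z, by noncomm_ring⟩

lemma normal3 : ∀ z : O, ∃ z', z * th = th * z' := fun z =>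
  ⟨⟨z.re, z.imI, -z.imJ, -z.imK⟩, by
    ext <;> simp [th] <;> ring⟩

lemma two_eq : (2 : O) = ⟨2, 0, 0, 0⟩ := by decide +kernel

lemma c2_of (x y z : O) (h : x - y = 2 * z) : c2 x y := by
  unfold c2
  rw [h, two_eq]
  refine ⟨?_, ?_, ?_, ?_⟩ <;> simp

lemma c3_of (x y z : O) (h : x - y = th * z) : c3 x y := by
  unfold c3
  rw [h, nrm_mul]
  have : nrm th = 3 := by decide
  rw [this]
  omega

def uT : Oˣ := ⟨tt, -tt, by decide +kernel, by decide +kernel⟩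
def uS : Oˣ := ⟨sg, 1 - sg, by decide +kernel, by decide +kernel⟩

lemma solve4 (y0 y1 c d : O)
    (h : y0 + sg * (18 * (y0 + (tt - 1) * sg * y1)) = 0) (h1 : 1 = c * y0 + d * y1) :
    ∃ e ∈ L, y1 = k2 * e := by
  have f1 : (tt - 1) * (-tt - 1) = 2 := by decide +kernel
  have f2 : (-tt - 1) * (tt - 1) = 2 := by decide +kernel
  have f3 : (1 + sg * 18) * (tt - 1) = (tt - 1) * (sg * k2) := by decide +kernel
  have f4 : (1 - sg) * sg = 1 := by decide +kernel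
  set x' := y0 + (tt - 1) * sg * y1 with hx'
  set e := sg * y1 - (-tt - 1) * (sg * 9) * x' with he
  have g1 : x' = (tt - 1) * e := by
    rw [he]
    linear_combination (norm := noncomm_ring) h + hx' + f1 * (sg * 9) * x'
  have g2 : (tt - 1) * (sg * y1) = (tt - 1) * (sg * k2 * e) := by
    linear_combination (norm := noncomm_ring) -h - hx' + (1 + sg * 18) * g1 + f3 * e
  have g3 : (2 : O) * (sg * y1) = 2 * (sg * k2 * e) := by
    linear_combination (norm := noncomm_ring) (-tt - 1) * g2 - f2 * (sg * y1 - sg * k2 * e)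
  have g4 : sg * y1 = sg * k2 * e := by
    rw [two_eq] at g3
    have a1 := congrArg QuaternionAlgebra.re g3
    have a2 := congrArg QuaternionAlgebra.imI g3
    have a3 := congrArg QuaternionAlgebra.imJ g3
    have a4 := congrArg QuaternionAlgebra.imK g3
    generalize sg * y1 = s at *
    generalize sg * k2 * e = t at *
    simp at a1 a2 a3 a4
    exact QuaternionAlgebra.ext a1 a2 a3 a4
  have g5 : y1 = k2 * e := by
    linear_combination (norm := noncomm_ring) (1 - sg) * g4 - f4 * (y1 - k2 * e)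
  refine ⟨e, mem_L_of_mul (c * ((tt - 1) - (tt - 1) * sg * k2) + d * k2) e ?_, g5⟩
  linear_combination (norm := noncomm_ring) -h1 - c * g1 + c * hx' +
    c * (tt - 1) * sg * g5 - d * g5

lemma solve0 (y0 y1 c d : O) (h : y0 = 0) (h1 : 1 = c * y0 + d * y1) : y1 ∈ L := by
  apply mem_L_of_mul d
  rw [h1, h]; simp

lemma rank2 (w : FreeGroup (Fin 2))
    (hw : ∀ f : Fin 2 → B, FreeGroup.lift f w =
      ⟨(f 0).m + (f 1).u * (18 * chi (f 0).u (f 1).u * EE (f 0) (f 1)), (f 0).u⟩)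
    (φ : QQ 2 ≃* QQ 2) (i : Fin 2)
    (hφ : φ (QuotientGroup.mk (FreeGroup.of i)) = QuotientGroup.mk w) : False := by
  have hb := fun j : Fin 2 =>
    QuotientGroup.mk_surjective (φ.symm (QuotientGroup.mk (FreeGroup.of j)))
  choose β hβ using hb
  have hv := fun j : Fin 2 => QuotientGroup.mk_surjective (φ (QuotientGroup.mk (FreeGroup.of j)))
  choose v hv using hv
  let f0 : (Fin 2 → Oˣ) → Fin 2 → B := fun q j => ⟨0, q j⟩
  let σ : (Fin 2 → Oˣ) → Fin 2 → B := fun q j =>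
    ⟨if j = i then 0 else 1, (FreeGroup.lift (f0 q) (v j)).u⟩
  let y : (Fin 2 → Oˣ) → Fin 2 → B := fun q j => FreeGroup.lift (σ q) (β j)
  have hy : ∀ q, LL 2 (y q) = (LL 2 (σ q)).comp φ.symm.toMonoidHom := by
    intro q
    apply QuotientGroup.monoidHom_ext
    ext j : 1
    show LL 2 (y q) (QuotientGroup.mk (FreeGroup.of j)) =
      LL 2 (σ q) (φ.symm (QuotientGroup.mk (FreeGroup.of j)))
    rw [← hβ, LL_mk, LL_mk, FreeGroup.lift_apply_of]
  have hyv : ∀ q j, FreeGroup.lift (y q) (v j) = σ q j := by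
    intro q j
    rw [← LL_mk, hy, hv]
    show LL 2 (σ q) (φ.symm (φ _)) = _
    rw [MulEquiv.symm_apply_apply, LL_mk, FreeGroup.lift_apply_of]
  have hyw : ∀ q, FreeGroup.lift (y q) w = σ q i := by
    intro q
    rw [← hyv, ← LL_mk, ← LL_mk, hv, hφ]
  have hu : ∀ q, uHom.comp (LL 2 (σ q)) = (uHom.comp (LL 2 (f0 q))).comp φ.toMonoidHom := by
    intro q
    apply QuotientGroup.monoidHom_ext
    ext j : 1
    show uHom (LL 2 (σ q) (QuotientGroup.mk (FreeGroup.of j))) =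
      uHom (LL 2 (f0 q) (φ (QuotientGroup.mk (FreeGroup.of j))))
    rw [← hv, LL_mk, LL_mk, FreeGroup.lift_apply_of]
    rfl
  have hyu : ∀ q j, (y q j).u = q j := by
    intro q j
    have := DFunLike.congr_fun (hu q) (QuotientGroup.mk (β j))
    have e : φ (QuotientGroup.mk (β j)) = QuotientGroup.mk (FreeGroup.of j) := by
      rw [hβ, MulEquiv.apply_symm_apply]
    change uHom (LL 2 (σ q) (QuotientGroup.mk (β j))) =
      uHom (LL 2 (f0 q) (φ (QuotientGroup.mk (β j)))) at this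
    rw [e, LL_mk, LL_mk, FreeGroup.lift_apply_of] at this
    exact this
  have hcg : ∀ (p : O) (hp : ∀ z : O, ∃ z', z * p = p * z') (q q' : Fin 2 → Oˣ),
      (∀ j, ∃ z, (q j : O) - q' j = p * z) → ∃ z, (y q 1).m - (y q' 1).m = p * z := by
    intro p hp q q' h
    have h0 : ∀ j, (f0 q j, f0 q' j) ∈ Cg p hp := fun j => ⟨⟨0, by simp [f0]⟩, h j⟩
    have h1 : ∀ j, (σ q j, σ q' j) ∈ Cg p hp := fun j =>
      ⟨⟨0, by simp [σ]⟩, (lift_cg _ _ _ h0 (v j)).2⟩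
    exact (lift_cg _ _ _ h1 (β 1)).1
  have hone : ∀ q, ∃ c d : O, 1 = c * (y q 0).m + d * (y q 1).m := by
    intro q
    obtain ⟨j, hj⟩ : ∃ j : Fin 2, j ≠ i := exists_ne i
    obtain ⟨c, d, h⟩ := lift_span (y q) (v j)
    refine ⟨c, d, ?_⟩
    rw [← h, hyv]
    simp [σ, hj]
  have hzero : ∀ q, (y q 0).m + (q 1 : O) * (18 * chi (q 0) (q 1) *
      ((y q 0).m + ((q 0 : O) - 1) * q 1 * (y q 1).m)) = 0 := by
    intro q
    have := congrArg B.m (hyw q)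
    rw [hw] at this
    simpa [σ, EE, hyu] using this
  have hL : ∀ q : Fin 2 → Oˣ, chi (q 0) (q 1) = 0 → (y q 1).m ∈ L := by
    intro q hq
    obtain ⟨c, d, h⟩ := hone q
    have := hzero q
    rw [hq] at this
    exact solve0 _ _ c d (by simpa using this) h
  have e1 := hL ![uT, 1] (by decide +kernel)
  have e2 := hL ![uT, -uS] (by decide +kernel)
  have e3 := hL ![uT, -1] (by decide +kernel)
  obtain ⟨c, d, h4⟩ := hone ![uT, uS]
  have h5 := hzero ![uT, uS]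
  have hc : chi ((![uT, uS] : Fin 2 → Oˣ) 0 : O) ((![uT, uS] : Fin 2 → Oˣ) 1 : O) = 1 := by
    decide +kernel
  rw [hc, mul_one] at h5
  obtain ⟨e, he, h6⟩ := solve4 _ _ c d h5 h4
  obtain ⟨z12, h12⟩ := hcg th normal3 ![uT, 1] ![uT, -uS] (fun j => by
    fin_cases j
    · exact ⟨0, by decide +kernel⟩
    · exact ⟨⟨-1, 1, 0, 0⟩, by decide +kernel⟩)
  obtain ⟨z13, h13⟩ := hcg 2 normal2 ![uT, 1] ![uT, -1] (fun j => by
    fin_cases j
    · exact ⟨0, by decide +kernel⟩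
    · exact ⟨1, by decide +kernel⟩)
  obtain ⟨z42, h42⟩ := hcg 2 normal2 ![uT, uS] ![uT, -uS] (fun j => by
    fin_cases j
    · exact ⟨0, by decide +kernel⟩
    · exact ⟨sg, by decide +kernel⟩)
  obtain ⟨z43, h43⟩ := hcg th normal3 ![uT, uS] ![uT, -1] (fun j => by
    fin_cases j
    · exact ⟨0, by decide +kernel⟩
    · exact ⟨⟨-1, 1, 0, 0⟩, by decide +kernel⟩)
  rw [h6] at h42 h43
  exact d_final _ e1 _ e2 (c3_of _ _ _ h12) _ e3 (c2_of _ _ _ h13) e he (c2_of _ _ _ h42)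
    (c3_of _ _ _ h43)

lemma w_exists : ∃ w : FreeGroup (Fin 2), ∀ f : Fin 2 → B, FreeGroup.lift f w =
      ⟨(f 0).m + (f 1).u * (18 * chi (f 0).u (f 1).u * EE (f 0) (f 1)), (f 0).u⟩ := by
  obtain ⟨w, hw⟩ := word_exists (0 : Fin 2) 1 0 0 _ _ (UU_mem (FreeGroup.of 1)) (zero_mem _)
  refine ⟨w, fun f => ?_⟩
  rw [hw]
  simp [UU]

end Pool.Agent.H25.Prim
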