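import Mathlib

namespace Pool.Agent.H25.QSum

open Finset Polynomial

section
variable {R : Type*} [CommRing R]

/-- The coefficient of `x ^ j` in `∏ i ∈ Icc 1 k, (1 - q ^ i x)`. -/
def e (q : R) : ℕ → ℕ → R
  | _, 0 => 1
  | 0, _ + 1 => 0
  | k + 1, j + 1 => e q k (j + 1) - q ^ (k + 1) * e q k j

@[simp] lemma e_zero (q : R) (k : ℕ) : e q k 0 = 1 := by cases k <;> rfl
@[simp] lemma e_zero' (q : R) (j : ℕ) : e q 0 (j + 1) = 0 := rfl
lemma R1 (q : R) (k j : ℕ) : e q (k + 1) (j + 1) = e q k (j + 1) - q ^ (k + 1) * e q k j := rfl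

lemma e_lt (q : R) : ∀ k j, k < j → e q k j = 0
  | _, 0, h => by omega
  | 0, _ + 1, _ => rfl
  | k + 1, j + 1, h => by rw [R1, e_lt q k _ (by omega), e_lt q k _ (by omega)]; simp

lemma R2 (q : R) : ∀ k j, e q (k + 1) (j + 1) = q ^ (j + 1) * (e q k (j + 1) - e q k j)
  | 0, 0 => by simp [R1]
  | 0, j + 1 => by simp [R1]
  | k + 1, 0 => by
    rw [R1]
    nth_rewrite 1 [R2 q k 0]
    rw [R1]; simp only [e_zero]; ring
  | k + 1, j + 1 => by
    rw [R1]
    nth_rewrite 1 [R2 q k (j + 1), R2 q k j]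
    rw [R1, R1]; ring

lemma e_map {S : Type*} [CommRing S] (f : R →+* S) (q : R) : ∀ k j, f (e q k j) = e (f q) k j
  | _, 0 => by simp
  | 0, _ + 1 => by simp
  | k + 1, j + 1 => by rw [R1, R1, map_sub, map_mul, map_pow, e_map f q k, e_map f q k]

lemma e_one : ∀ k j, e (1 : ℤ) k j = (-1) ^ j * k.choose j
  | _, 0 => by simp
  | 0, _ + 1 => by simp
  | k + 1, j + 1 => by rw [R1, e_one k, e_one k, Nat.choose_succ_succ]; push_cast; ring

/-- The `q`-analogue of the weighted sum. -/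
def P (q : R) (n M r : ℕ) (w : ℤ → ℤ) : R :=
  ∑ k ∈ range n, ∑ j ∈ range n, (w (k - j) : R) * ((q ^ k - q ^ (M - 1 - j)) * e q k j ^ r)

lemma P_map {S : Type*} [CommRing S] (f : R →+* S) (q : R) (n M r : ℕ) (w : ℤ → ℤ) :
    f (P q n M r w) = P (f q) n M r w := by
  simp [P, e_map]

lemma sum_block (f : ℕ → R) (m d : ℕ) :
    ∑ k ∈ range (m * d), f k = ∑ a ∈ range m, ∑ b ∈ range d, f (a * d + b) := by
  induction m with
  | zero => simp
  | succ m ih => rw [Nat.succ_mul, sum_range_add, ih, sum_range_succ]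

end

section
variable {z : ℂ} {d : ℕ}

lemma e_top (h : IsPrimitiveRoot z (d + 1)) : ∀ j ≤ d, e z d j = 1
  | 0, _ => by simp
  | j + 1, hj => by
    have h1 := (R1 z d j).symm.trans (R2 z d j)
    rw [h.pow_eq_one, e_top h j (by omega)] at h1
    have h2 : 1 - z ^ (j + 1) ≠ 0 :=
      sub_ne_zero.2 (h.pow_ne_one_of_pos_of_lt (by omega) (by omega)).symm
    apply mul_left_cancel₀ h2
    linear_combination h1

lemma e_symm (h : IsPrimitiveRoot z (d + 1)) : ∀ k j k' j', k + j' = d → j + k' = d →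
    e z k j = e z k' j'
  | k, 0, k', j', h1, h2 => by
    obtain rfl : k' = d := by omega
    rw [e_zero, e_top h _ (by omega)]
  | 0, j + 1, k', j', h1, h2 => by rw [e_zero', e_lt _ _ _ (by omega)]
  | k + 1, j + 1, k', j', h1, h2 => by
    rw [R1, e_symm h k (j + 1) k' (j' + 1) (by omega) h2,
      e_symm h k j (k' + 1) (j' + 1) (by omega) (by omega), R2, ← mul_assoc, ← pow_add,
      show k + 1 + (j' + 1) = d + 1 by omega, h.pow_eq_one]
    ring

lemma per1 (h : IsPrimitiveRoot z (d + 1)) : ∀ k j, j ≤ d → e z (k + (d + 1)) j = e z k j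
  | _, 0, _ => by simp
  | 0, j + 1, hj => by
    rw [zero_add, R1, h.pow_eq_one, e_top h _ hj, e_top h _ (by omega)]; simp
  | k + 1, j + 1, hj => by
    rw [add_right_comm, R1, R1, per1 h k _ hj, per1 h k _ (by omega), add_right_comm, pow_add z _ (d + 1),
      h.pow_eq_one, mul_one]

lemma per2 (h : IsPrimitiveRoot z (d + 1)) : ∀ k j,
    e z (k + (d + 1)) (j + (d + 1)) = e z k (j + (d + 1)) - e z k j
  | 0, 0 => by
    rw [zero_add, R1, h.pow_eq_one, e_top h _ le_rfl, e_lt _ _ _ (by omega)]; simp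
  | 0, j + 1 => by
    rw [e_lt _ _ _ (by omega), e_lt _ _ _ (by omega), e_lt _ _ _ (by omega)]; simp
  | k + 1, 0 => by
    have := per2 h k 0
    rw [zero_add] at this ⊢
    rw [add_right_comm, R1, R1, this, per1 h k _ le_rfl, add_right_comm, pow_add z _ (d + 1),
      h.pow_eq_one, mul_one, e_zero, e_zero]
    ring
  | k + 1, j + 1 => by
    have := per2 h k (j + 1)
    rw [add_right_comm j] at this ⊢
    rw [add_right_comm, R1, R1, R1, this, per2 h k j, add_right_comm k, pow_add z _ (d + 1),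
      h.pow_eq_one, mul_one]
    ring

lemma lucas (h : IsPrimitiveRoot z (d + 1)) : ∀ a b, ∃ c, ∀ k ≤ d, ∀ j ≤ d,
    e z (a * (d + 1) + k) (b * (d + 1) + j) = c * e z k j
  | 0, 0 => ⟨1, by simp⟩
  | 0, b + 1 => ⟨0, fun k hk j _ => by rw [e_lt _ _ _ (by nlinarith), zero_mul]⟩
  | a + 1, 0 => by
    obtain ⟨c, hc⟩ := lucas h a 0
    refine ⟨c, fun k hk j hj => ?_⟩
    rw [← hc k hk j hj, Nat.succ_mul, add_right_comm, zero_mul, zero_add, per1 h _ _ hj]
  | a + 1, b + 1 => by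
    obtain ⟨c, hc⟩ := lucas h a (b + 1)
    obtain ⟨c', hc'⟩ := lucas h a b
    refine ⟨c - c', fun k hk j hj => ?_⟩
    rw [sub_mul, ← hc k hk j hj, ← hc' k hk j hj, Nat.succ_mul a, Nat.succ_mul b, add_right_comm,
      add_right_comm (b * _), per2 h]

lemma P_root (h : IsPrimitiveRoot z (d + 1)) (m t r : ℕ) (w : ℤ → ℤ) (ht : m ≤ t) :
    P z (m * (d + 1)) (t * (d + 1)) r w = 0 := by
  simp only [P, sum_block]
  refine sum_eq_zero fun a _ => ?_
  rw [sum_comm]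
  refine sum_eq_zero fun b hb => ?_
  obtain ⟨c, hc⟩ := lucas h a b
  obtain ⟨s, rfl⟩ := Nat.exists_eq_add_of_lt ((mem_range.1 hb).trans_le ht)
  have key : ∀ k ∈ range (d + 1), ∀ j ∈ range (d + 1),
      (w ((a * (d + 1) + k : ℕ) - (b * (d + 1) + j : ℕ)) : ℂ) * ((z ^ (a * (d + 1) + k) -
        z ^ ((b + s + 1) * (d + 1) - 1 - (b * (d + 1) + j))) *
        e z (a * (d + 1) + k) (b * (d + 1) + j) ^ r) =
      (w ((a - b) * (d + 1) + k - j) : ℂ) * z ^ k * (c * e z k j) ^ r -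
      (w ((a - b) * (d + 1) + (d - j : ℕ) - (d - k : ℕ)) : ℂ) * z ^ (d - j) *
        (c * e z (d - j) (d - k)) ^ r := by
    intro k hk j hj
    have hk := Nat.lt_succ_iff.1 (mem_range.1 hk)
    have hj := Nat.lt_succ_iff.1 (mem_range.1 hj)
    have e1 : (b + s + 1) * (d + 1) - 1 - (b * (d + 1) + j) = (d + 1) * s + (d - j) := by
      have : (b + s + 1) * (d + 1) = b * (d + 1) + (d + 1) * s + (d + 1) := by ring
      omega
    rw [hc k hk j hj, ← e_symm h k j (d - j) (d - k) (by omega) (by omega), e1, pow_add, pow_add,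
      mul_comm a, pow_mul, pow_mul, h.pow_eq_one]
    push_cast [hk, hj]
    ring_nf
  rw [sum_congr rfl fun k hk => sum_congr rfl fun j hj => key k hk j hj]
  simp only [sum_sub_distrib]
  rw [sub_eq_zero, sum_comm, ← sum_range_reflect]
  refine sum_comm.trans (sum_comm.trans (sum_congr rfl fun k _ => ?_))
  rw [← sum_range_reflect]
  rfl

end

theorem P_dvd (n t r : ℕ) (hn : 0 < n) (ht : 0 < t) (w : ℤ → ℤ) :
    (X ^ n - 1 : ℤ[X]) ∣ P X n (t * n) r w := by
  rw [← C_1, ← map_dvd_map (Int.castRingHom ℂ) Int.cast_injective (monic_X_pow_sub_C 1 hn.ne')]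
  rw [Polynomial.map_sub, Polynomial.map_pow, map_X, map_C, map_one, map_one,
    X_pow_sub_one_eq_prod hn (Complex.isPrimitiveRoot_exp n hn.ne')]
  refine prod_dvd_of_coprime (fun a _ b _ h => pairwise_coprime_X_sub_C Function.injective_id h)
    fun z hz => ?_
  rw [mem_nthRootsFinset hn] at hz
  have h := IsPrimitiveRoot.orderOf z
  obtain ⟨m, hm⟩ := orderOf_dvd_of_pow_eq_one hz
  obtain ⟨d, hd⟩ : ∃ d, orderOf z = d + 1 := Nat.exists_eq_succ_of_ne_zero fun h0 => by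
    rw [h0] at hm; omega
  rw [hd] at h hm
  rw [dvd_iff_isRoot, IsRoot, eval_map, ← coe_eval₂RingHom, P_map, coe_eval₂RingHom, eval₂_X, hm,
    mul_comm (d + 1), ← mul_assoc]
  exact P_root h _ _ _ _ (Nat.le_mul_of_pos_left _ ht)

lemma ev (x : ℤ) (k j : ℕ) : eval x (e X k j) = e x k j := by
  rw [← coe_evalRingHom, e_map, coe_evalRingHom, eval_X]

lemma at_one (n t r : ℕ) (ht : 0 < t) (w : ℤ → ℤ) (Q : ℤ[X])
    (h : P X n (t * n) r w = (X ^ n - 1) * Q) :
    ∑ k ∈ range n, ∑ j ∈ range n, w (k - j) * ((k + j + 1) * e 1 k j ^ r) =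
      n * (Q.eval 1 + t * ∑ k ∈ range n, ∑ j ∈ range n, w (k - j) * e 1 k j ^ r) := by
  have := congrArg (fun p => eval 1 (derivative p)) h
  simp only [P, derivative_sum, derivative_mul, derivative_intCast, derivative_sub,
    derivative_X_pow, eval_finsetSum, eval_add, eval_mul, eval_sub, eval_pow, eval_X, one_pow, ev,
    eval_intCast, eval_C, derivative_one, eval_zero, eval_one, sub_self, zero_mul, add_zero,
    zero_add, mul_one, sub_zero, Int.cast_id] at this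
  rw [mul_add, ← this, ← mul_assoc, mul_sum, ← sum_add_distrib]
  refine sum_congr rfl fun k _ => ?_
  rw [mul_sum, ← sum_add_distrib]
  refine sum_congr rfl fun j hj => ?_
  have h1 := mem_range.1 hj
  have h2 := Nat.le_mul_of_pos_left n ht
  rw [Nat.sub_sub, Nat.cast_sub (by omega)]
  push_cast
  ring

theorem thmA (n r : ℕ) (w : ℤ → ℤ) :
    (n : ℤ) ∣ ∑ k ∈ range n, ∑ j ∈ range n, w (k - j) * ((k + j + 1) * e 1 k j ^ r) := by
  rcases n.eq_zero_or_pos with rfl | hn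
  · simp
  obtain ⟨Q, h⟩ := P_dvd n 1 r hn one_pos w
  exact ⟨_, at_one n 1 r one_pos w Q h⟩

/-- The derivative of `e` at `q = -1`. -/
noncomputable def u (k j : ℕ) : ℤ := eval (-1) (derivative (e X k j))

lemma dX (k : ℕ) : eval (-1) (derivative (X ^ k : ℤ[X])) = -k * (-1) ^ k := by
  cases k with
  | zero => simp
  | succ k => rw [derivative_X_pow_succ]; simp [pow_succ]; ring

lemma u_zero (k : ℕ) : u k 0 = 0 := by simp [u]

lemma u_succ (k j : ℕ) : u (k + 1) (j + 1) =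
    u k (j + 1) + (k + 1) * (-1) ^ (k + 1) * e (-1) k j - (-1) ^ (k + 1) * u k j := by
  simp only [u, R1, derivative_sub, derivative_mul, eval_sub, eval_add, eval_mul, dX, ev, eval_pow,
    eval_X]
  push_cast
  ring

lemma absorb (K J : ℕ) : (J + 1) * e (1 : ℤ) K (J + 1) = -(K - J) * e 1 K J := by
  rcases lt_or_ge K J with h | h
  · rw [e_lt _ _ _ h, e_lt _ _ _ (by omega)]; simp
  · have := congrArg (Nat.cast : ℕ → ℤ) (Nat.choose_succ_right_eq K J)
    push_cast [h] at this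
    rw [e_one, e_one]
    linear_combination (-1) ^ (J + 1) * this

def Ev (K : ℕ) : Prop := ∀ J, e (-1 : ℤ) (K * 2) (J * 2) = e 1 K J ∧
  e (-1 : ℤ) (K * 2) (J * 2 + 1) = 0 ∧ u (K * 2) (J * 2) = -(2 * K + 1) * J * e 1 K J ∧
  u (K * 2) (J * 2 + 1) = (K - J) * e 1 K J

def Od (K : ℕ) : Prop := ∀ J, e (-1 : ℤ) (K * 2 + 1) (J * 2) = e 1 K J ∧
  e (-1 : ℤ) (K * 2 + 1) (J * 2 + 1) = e 1 K J ∧
  u (K * 2 + 1) (J * 2) = -(2 * K + 2) * J * e 1 K J ∧
  u (K * 2 + 1) (J * 2 + 1) = -((2 * K + 1) * (J + 1) - K + J) * e 1 K J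

lemma sg (K : ℕ) : (-1 : ℤ) ^ (K * 2) = 1 := by rw [pow_mul']; simp

lemma od_of {K : ℕ} (h : Ev K) : Od K := fun J => by
  have s : (-1 : ℤ) ^ (K * 2 + 1) = -1 := by rw [pow_succ, sg]; simp
  obtain ⟨h1, h2, h3, h4⟩ := h J
  refine ⟨?_, by rw [R1, s, h1, h2]; ring, ?_, by rw [u_succ, s, h1, h3, h4]; push_cast; ring⟩
  · cases J with
    | zero => simp
    | succ J => rw [← h1, show (J + 1) * 2 = J * 2 + 1 + 1 by ring, R1, (h J).2.1]; simp
  · cases J with
    | zero => simp [u_zero]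
    | succ J =>
      rw [show (J + 1) * 2 = J * 2 + 1 + 1 by ring] at h3 ⊢
      rw [u_succ, s, h3, (h J).2.1, (h J).2.2.2]
      push_cast
      linear_combination absorb K J

lemma ev_of {K : ℕ} (h : Od K) : Ev (K + 1) := fun J => by
  have s : (-1 : ℤ) ^ (K * 2 + 1 + 1) = 1 := by rw [pow_succ, pow_succ, sg]; simp
  obtain ⟨h1, h2, h3, h4⟩ := h J
  rw [show (K + 1) * 2 = K * 2 + 1 + 1 by ring]
  refine ⟨?_, by rw [R1, s, h1, h2]; ring, ?_, ?_⟩
  · cases J with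
    | zero => simp
    | succ J =>
      rw [show (J + 1) * 2 = J * 2 + 1 + 1 by ring] at h1 ⊢
      rw [R1, R1 (1 : ℤ), s, h1, (h J).2.1]; simp
  · cases J with
    | zero => simp [u_zero]
    | succ J =>
      rw [show (J + 1) * 2 = J * 2 + 1 + 1 by ring] at h3 ⊢
      rw [u_succ, s, h3, (h J).2.1, (h J).2.2.2, R1 (1 : ℤ)]
      push_cast
      linear_combination absorb K J
  · rw [u_succ, s, h1, h3, h4]
    cases J with
    | zero => simp; ring
    | succ J =>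
      rw [R1 (1 : ℤ)]
      push_cast
      linear_combination absorb K J

lemma ev_all : ∀ K, Ev K
  | 0 => fun J => by cases J <;> simp [u, e_lt]
  | K + 1 => ev_of (od_of (ev_all K))

theorem thmB (m s : ℕ) : 2 * ((m * 2 : ℕ) : ℤ) ∣ ∑ k ∈ range (m * 2), ∑ j ∈ range (m * 2),
    ((k - j : ℤ).negOnePow : ℤ) * ((k + j + 1) * e 1 k j ^ (2 * s + 1)) := by
  rcases m.eq_zero_or_pos with rfl | hm
  · simp
  obtain ⟨Q, h⟩ := P_dvd (m * 2) 2 (2 * s + 1) (by omega) two_pos fun b => b.negOnePow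
  rw [at_one _ 2 _ two_pos _ Q h, mul_comm]
  refine mul_dvd_mul_left _ (dvd_add ?_ (Dvd.intro _ rfl))
  have h1 : (2 : ℤ) ∣ Q.eval 1 - Q.eval (-1) := sub_dvd_eval_sub 1 (-1) Q
  suffices (2 : ℤ) ∣ Q.eval (-1) by simpa using dvd_add h1 this
  obtain ⟨T, hT⟩ := thmA m (2 * s + 1) fun _ => 1
  have := congrArg (fun p => eval (-1) (derivative p)) h
  simp only [P, derivative_sum, derivative_mul, derivative_intCast, derivative_sub, dX, derivative_add,
    derivative_pow (e _ _ _), eval_finsetSum, eval_add, eval_mul, eval_sub, eval_pow, eval_X, ev,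
    eval_intCast, eval_C, derivative_one, eval_zero, eval_one, zero_mul,
    zero_add, sub_zero, Int.cast_id, sg, sub_self, add_zero, ← u.eq_1, sum_block,
    sum_range_succ _ 1, sum_range_one, ← sum_add_distrib] at this
  rw [sum_congr rfl (g := fun K => ∑ J ∈ range m, (4 * (s : ℤ) *
    (1 * ((K + J + 1) * e (1 : ℤ) K J ^ (2 * s + 1))) + 4 * (m : ℤ) * e (1 : ℤ) K J ^ (2 * s + 1)))] at this
  · simp only [sum_add_distrib, ← mul_sum (a := 4 * (s : ℤ)), ← mul_sum (a := 4 * (m : ℤ)),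
      hT] at this
    refine ⟨-(s * T + ∑ K ∈ range m, ∑ J ∈ range m, e 1 K J ^ (2 * s + 1)), ?_⟩
    apply mul_left_cancel₀ (by positivity : (2 * m : ℤ) ≠ 0)
    push_cast at this
    linear_combination this
  refine fun K _ => sum_congr rfl fun J hJ => ?_
  have hJ := mem_range.1 hJ
  obtain ⟨a1, a2, a3, -⟩ := ev_all K J
  obtain ⟨b1, b2, -, b4⟩ := od_of (ev_all K) J
  obtain ⟨l, hl⟩ : ∃ l, m * 2 = l + J + 1 := ⟨m * 2 - J - 1, by omega⟩
  have hl' : (l : ℤ) = 2 * m - J - 1 := by omega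
  rw [show 2 * (m * 2) - 1 - J * 2 = l * 2 + 1 by omega,
    show 2 * (m * 2) - 1 - (J * 2 + 1) = l * 2 by omega, a1, a2, a3, b1, b2, b4,
    Int.negOnePow_even _ ⟨K - J, by push_cast; ring⟩,
    Int.negOnePow_odd _ ⟨K - J - 1, by push_cast; ring⟩,
    Int.negOnePow_odd _ ⟨K - J, by push_cast; ring⟩,
    Int.negOnePow_even _ ⟨K - J, by push_cast; ring⟩]
  simp only [pow_succ (-1 : ℤ), sg, Nat.add_sub_cancel]
  push_cast
  rw [hl']
  ring

lemma row (n k r : ℕ) (hk : k < n) (hr : r ≠ 0) (v : ℕ → ℤ) :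
    ∑ j ∈ range n, (((k - j : ℤ).negOnePow : ℤ) ^ r * v (k - j : ℤ).toNat) *
      ((k + j + 1) * e 1 k j ^ r) =
    (-1) ^ (r * k) * ∑ j ∈ range (k + 1), (k + j + 1) * (k.choose j : ℤ) ^ r * v (k - j) := by
  rw [← sum_subset (range_subset_range.2 (Nat.succ_le_of_lt hk)), mul_sum]
  · refine sum_congr rfl fun j hj => ?_
    have hj := Nat.lt_succ_iff.1 (mem_range.1 hj)
    obtain ⟨b, rfl⟩ := Nat.exists_eq_add_of_le hj
    rw [e_one, Nat.cast_add, add_sub_cancel_left, Int.toNat_natCast, Nat.add_sub_cancel_left,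
      Int.coe_negOnePow_natCast]
    ring
  · intro j _ hj
    rw [e_lt _ _ _ (by simpa using hj), zero_pow hr]; simp

lemma refl (k r : ℕ) : (3 * k + 2) * ∑ j ∈ range (k + 1), (k.choose j : ℤ) ^ r =
    2 * ∑ j ∈ range (k + 1), (k + j + 1) * (k.choose j : ℤ) ^ r * 1 := by
  rw [two_mul]
  nth_rewrite 2 [← sum_range_reflect]
  rw [← sum_add_distrib, mul_sum]
  refine sum_congr rfl fun j hj => ?_
  have hj := Nat.lt_succ_iff.1 (mem_range.1 hj)
  rw [Nat.add_sub_cancel, Nat.choose_symm hj]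
  push_cast [hj]
  ring

lemma bridge (n r : ℕ) (hr : r ≠ 0) :
    ∑ k ∈ range n, (-1) ^ (r * k) * (3 * k + 2) * ∑ j ∈ range (k + 1), (k.choose j : ℤ) ^ r =
    2 * ∑ k ∈ range n, ∑ j ∈ range n,
      ((k - j : ℤ).negOnePow : ℤ) ^ r * ((k + j + 1) * e 1 k j ^ r) := by
  rw [mul_sum]
  refine sum_congr rfl fun k hk => ?_
  have := row n k r (mem_range.1 hk) hr fun _ => 1
  simp only [mul_one] at this
  rw [this, mul_assoc, refl]
  simp only [mul_one]
  ring

theorem two_n (n r : ℕ) (hr : r ≠ 0) : 2 * (n : ℤ) ∣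
    ∑ k ∈ range n, (-1) ^ (r * k) * (3 * k + 2) * ∑ j ∈ range (k + 1), (k.choose j : ℤ) ^ r := by
  rw [bridge n r hr]
  exact mul_dvd_mul_left _ (thmA n r fun b => (b.negOnePow : ℤ) ^ r)

theorem four_n (m s : ℕ) : 4 * ((m * 2 : ℕ) : ℤ) ∣ ∑ k ∈ range (m * 2),
    (-1) ^ ((2 * s + 1) * k) * (3 * k + 2) *
      ∑ j ∈ range (k + 1), (k.choose j : ℤ) ^ (2 * s + 1) := by
  rw [bridge _ _ (by omega), show (4 : ℤ) = 2 * 2 from rfl, mul_assoc]
  refine mul_dvd_mul_left _ ((thmB m s).trans (dvd_of_eq ?_))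
  refine sum_congr rfl fun k _ => sum_congr rfl fun j _ => ?_
  rw [pow_succ (_ : ℤ) (2 * s) , pow_succ (_ : ℤ) (2 * s), pow_mul ((_ : ℤˣ) : ℤ),
    ← Units.val_pow_eq_pow_val, Int.units_sq]
  simp

end Pool.Agent.H25.QSum
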