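import Mathlib

set_option autoImplicit false

namespace Pool.Agent.H25.RAlt

def A : Type := Fin 8 → ℤ

instance : AddCommGroup A := inferInstanceAs (AddCommGroup (Fin 8 → ℤ))

def mu (x y : Fin 8 → ℤ) : Fin 8 → ℤ :=
  ![-x 1 * y 7 + x 3 * y 5 - x 5 * y 3 + x 7 * y 1, -x 3 * y 6, -x 1 * y 0 + x 4 * y 6, 0,
    -x 3 * y 0, x 1 * y 3 + x 7 * y 6, -x 1 * y 4 - x 2 * y 3 + x 3 * y 2 + x 4 * y 1, x 3 * y 3]

lemma mu_add (x y z : Fin 8 → ℤ) : mu x (y + z) = mu x y + mu x z := by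
  funext i; fin_cases i <;> simp [mu] <;> ring

lemma add_mu (x y z : Fin 8 → ℤ) : mu (x + y) z = mu x z + mu y z := by
  funext i; fin_cases i <;> simp [mu] <;> ring

instance : NonUnitalNonAssocRing A where
  mul := mu
  left_distrib := mu_add
  right_distrib := add_mu
  zero_mul x := by
    show mu (0 : Fin 8 → ℤ) x = (0 : Fin 8 → ℤ)
    funext i; fin_cases i <;> simp [mu]
  mul_zero x := by
    show mu x (0 : Fin 8 → ℤ) = (0 : Fin 8 → ℤ)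
    funext i; fin_cases i <;> simp [mu]

lemma ralt' (x y : Fin 8 → ℤ) : mu (mu x y) y = mu x (mu y y) := by
  funext i; fin_cases i <;> simp [mu] <;> ring_nf <;> simp

lemma ralt (x y : A) : x * y * y = x * (y * y) := ralt' x y

def e (i : Fin 8) : A := (Pi.single i 1 : Fin 8 → ℤ)

lemma tf' (n : ℕ) (hn : n ≠ 0) (x : Fin 8 → ℤ) (h : n • x = 0) : x = 0 :=
  (smul_eq_zero.1 h).resolve_left hn

lemma tf (n : ℕ) (hn : n ≠ 0) (x : A) (h : n • x = 0) : x = 0 := tf' n hn x h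

lemma p7 : e 3 * e 3 = e 7 := by show mu _ _ = _; decide
lemma p5 : e 1 * e 3 = e 5 := by show mu _ _ = _; decide
lemma p0 : e 3 * e 5 = e 0 := by show mu _ _ = _; decide
lemma p2 : -(e 1 * e 0) = e 2 := by show -(mu _ _) = (e 2 : Fin 8 → ℤ); decide
lemma p4 : -(e 3 * e 0) = e 4 := by show -(mu _ _) = (e 4 : Fin 8 → ℤ); decide
lemma p6 : e 3 * e 2 = e 6 := by show mu _ _ = _; decide
lemma p1 : -(e 3 * e 6) = e 1 := by show -(mu _ _) = (e 1 : Fin 8 → ℤ); decide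
lemma pa : -(e 4 * e 4 * e 1 - e 4 * (e 4 * e 1)) = e 2 := by
  show -(mu (mu _ _) _ - mu _ (mu _ _)) = (e 2 : Fin 8 → ℤ); decide
lemma e2 : e 2 ≠ 0 := by
  show (Pi.single 2 1 : Fin 8 → ℤ) ≠ (0 : Fin 8 → ℤ); decide

lemma gen : NonUnitalSubring.closure ({e 1, e 3} : Set A) = ⊤ := by
  set S := NonUnitalSubring.closure ({e 1, e 3} : Set A)
  have h1 : e 1 ∈ S := NonUnitalSubring.subset_closure (by simp)
  have h3 : e 3 ∈ S := NonUnitalSubring.subset_closure (by simp)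
  have h7 : e 7 ∈ S := p7 ▸ S.mul_mem h3 h3
  have h5 : e 5 ∈ S := p5 ▸ S.mul_mem h1 h3
  have h0 : e 0 ∈ S := p0 ▸ S.mul_mem h3 h5
  have h2 : e 2 ∈ S := p2 ▸ S.neg_mem (S.mul_mem h1 h0)
  have h4 : e 4 ∈ S := p4 ▸ S.neg_mem (S.mul_mem h3 h0)
  have h6 : e 6 ∈ S := p6 ▸ S.mul_mem h3 h2
  have hi : ∀ i, e i ∈ S := by
    intro i; fin_cases i <;> assumption
  rw [eq_top_iff]
  intro x _
  have : x = ∑ i, (x i : ℤ) • e i := by
    show (x : Fin 8 → ℤ) = ∑ i, (x i : ℤ) • (Pi.single i 1 : Fin 8 → ℤ)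
    funext j
    simp [Finset.sum_apply, Pi.single_apply]
  rw [this]
  exact sum_mem fun i _ => zsmul_mem (hi i) _

lemma step (I J : TwoSidedIdeal A)
    (h : ∀ x ∈ J, ∀ y ∈ J, ∀ z ∈ J, x * y * z - x * (y * z) ∈ I) (h2 : e 2 ∈ J) : e 2 ∈ I := by
  have h6 : e 6 ∈ J := p6 ▸ J.mul_mem_left _ _ h2
  have h1 : e 1 ∈ J := p1 ▸ J.neg_mem (J.mul_mem_left _ _ h6)
  have h5 : e 5 ∈ J := p5 ▸ J.mul_mem_right _ _ h1
  have h0 : e 0 ∈ J := p0 ▸ J.mul_mem_left _ _ h5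
  have h4 : e 4 ∈ J := p4 ▸ J.neg_mem (J.mul_mem_left _ _ h0)
  exact pa ▸ I.neg_mem (h _ h4 _ h4 _ h1)

end Pool.Agent.H25.RAlt
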