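import Mathlib

set_option autoImplicit false

namespace Pool.Agent.H25.RO

open scoped commutatorElement

lemma zero_of_bdd (r C : ℝ) (h : ∀ n : ℕ, |(n : ℝ) * r| ≤ C) : r = 0 := by
  by_contra hr
  have hpos : 0 < |r| := abs_pos.2 hr
  obtain ⟨n, hn⟩ := exists_nat_gt (C / |r|)
  have := h n
  rw [abs_mul, Nat.abs_cast] at this
  rw [div_lt_iff₀ hpos] at hn
  linarith

section qm
variable {H : Type} [Group H]

lemma homog (u : H → ℝ) (D : ℝ) (hu : ∀ x y, |u (x * y) - u x - u y| ≤ D) :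
    ∃ φ : H → ℝ, (∀ x, |φ x - u x| ≤ D) ∧ (∀ x (n : ℕ), φ (x ^ n) = n * φ x) ∧
      ∀ x y, |φ (x * y) - φ x - φ y| ≤ 4 * D := by
  have hD : 0 ≤ D := le_trans (abs_nonneg _) (hu 1 1)
  have h1 : |u 1| ≤ D := by
    have := hu 1 1
    rw [mul_one, sub_self, zero_sub, abs_neg] at this
    exact this
  have hp : ∀ x (m : ℕ), |u (x ^ (m + 1)) - (m + 1) * u x| ≤ m * D := by
    intro x m
    induction m with
    | zero => simp
    | succ m ih =>
      have := hu (x ^ (m + 1)) x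
      rw [← pow_succ] at this
      rw [abs_le] at *
      push_cast
      constructor <;> nlinarith [this.1, this.2, ih.1, ih.2]
  have key : ∀ x, ∃ r : ℝ, ∀ n : ℕ, |u (x ^ n) - n * r| ≤ D := by
    intro x
    have cross : ∀ n m : ℕ, (u (x ^ (n + 1)) - D) / (n + 1) ≤ (u (x ^ (m + 1)) + D) / (m + 1) := by
      intro n m
      have a1 := hp (x ^ (n + 1)) m
      have a2 := hp (x ^ (m + 1)) n
      rw [← pow_mul] at a1 a2
      rw [mul_comm (m + 1) (n + 1)] at a2
      rw [div_le_div_iff₀ (by positivity) (by positivity)]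
      rw [abs_le] at a1 a2
      nlinarith [a1.1, a1.2, a2.1, a2.2]
    have hb : BddAbove (Set.range fun n : ℕ => (u (x ^ (n + 1)) - D) / (n + 1)) :=
      ⟨_, by rintro _ ⟨n, rfl⟩; exact cross n 0⟩
    refine ⟨⨆ n : ℕ, (u (x ^ (n + 1)) - D) / (n + 1), fun n => ?_⟩
    rcases n with _ | n
    · simpa using h1
    · have b1 := le_ciSup hb n
      have b2 : (⨆ k : ℕ, (u (x ^ (k + 1)) - D) / (k + 1)) ≤ _ := ciSup_le fun k => cross k n
      rw [div_le_iff₀ (by positivity)] at b1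
      rw [le_div_iff₀ (by positivity)] at b2
      rw [abs_le]
      push_cast
      constructor <;> linarith
  choose φ hφ using key
  have e1 : ∀ x, |φ x - u x| ≤ D := by
    intro x
    have := hφ x 1
    rw [pow_one, Nat.cast_one, one_mul, abs_sub_comm] at this
    exact this
  refine ⟨φ, e1, fun x k => ?_, fun x y => ?_⟩
  · have := zero_of_bdd (φ (x ^ k) - k * φ x) (2 * D) fun n => by
      have a1 := hφ (x ^ k) n
      have a2 := hφ x (k * n)
      rw [← pow_mul] at a1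
      push_cast at a2
      rw [abs_le] at *
      constructor <;> nlinarith [a1.1, a1.2, a2.1, a2.2]
    linarith
  · have a1 := e1 x
    have a2 := e1 y
    have a3 := e1 (x * y)
    have a4 := hu x y
    rw [abs_le] at *
    constructor <;> linarith [a1.1, a1.2, a2.1, a2.2, a3.1, a3.2, a4.1, a4.2]

lemma step (φ : H → ℝ) (D : ℝ) (hn : ∀ x (n : ℕ), φ (x ^ n) = n * φ x)
    (hq : ∀ x y, |φ (x * y) - φ x - φ y| ≤ D) (N : Subgroup H)
    (hadd : ∀ x ∈ ⁅N, N⁆, ∀ y ∈ ⁅N, N⁆, φ (x * y) = φ x + φ y) :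
    ∀ x ∈ N, ∀ y ∈ N, φ (x * y) = φ x + φ y := by
  have h1 : φ 1 = 0 := by simpa using hn 1 0
  have hinv : ∀ x, φ x⁻¹ = -φ x := by
    intro x
    have := zero_of_bdd (φ x + φ x⁻¹) D fun n => by
      have a := hq (x ^ n) (x⁻¹ ^ n)
      rw [inv_pow, mul_inv_cancel, h1, ← inv_pow, hn, hn] at a
      rw [abs_le] at *
      constructor <;> linarith [a.1, a.2]
    linarith
  have hconj : ∀ x y, φ (y * x * y⁻¹) = φ x := by
    intro x y
    have := zero_of_bdd (φ (y * x * y⁻¹) - φ x) (2 * D) fun n => by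
      have a1 := hq (y * x ^ n) y⁻¹
      have a2 := hq y (x ^ n)
      rw [← conj_pow, hn, hinv] at a1
      rw [hn] at a2
      rw [abs_le] at *
      constructor <;> linarith [a1.1, a1.2, a2.1, a2.2]
    linarith
  have hc : ∀ x ∈ N, ∀ y ∈ N, φ ⁅x, y⁆ = 0 := by
    intro x hx y hy
    have lin : ∀ n : ℕ, φ ⁅x ^ n, y⁆ = n * φ ⁅x, y⁆ := by
      intro n
      induction n with
      | zero => simp [h1]
      | succ n ih =>
        have e : ⁅x ^ (n + 1), y⁆ = (x * ⁅x ^ n, y⁆ * x⁻¹) * ⁅x, y⁆ := by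
          simp only [commutatorElement_def, pow_succ']; group
        have m1 : x * ⁅x ^ n, y⁆ * x⁻¹ ∈ ⁅N, N⁆ := by
          have : x * ⁅x ^ n, y⁆ * x⁻¹ = ⁅x ^ n, x * y * x⁻¹⁆ := by
            simp only [commutatorElement_def]; group
          rw [this]
          exact Subgroup.commutator_mem_commutator (pow_mem hx n)
            (mul_mem (mul_mem hx hy) (inv_mem hx))
        rw [e, hadd _ m1 _ (Subgroup.commutator_mem_commutator hx hy), hconj, ih]
        push_cast; ring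
    refine zero_of_bdd _ D fun n => ?_
    rw [← lin]
    have a := hq (x ^ n * y * (x ^ n)⁻¹) y⁻¹
    rw [hconj, hinv] at a
    rw [commutatorElement_def]
    simpa using a
  have hz : ∀ c ∈ ⁅N, N⁆, φ c = 0 := by
    intro c hcm
    rw [Subgroup.commutator_def] at hcm
    induction hcm using Subgroup.closure_induction with
    | mem z hz =>
      obtain ⟨x, hx, y, hy, rfl⟩ := hz
      exact hc x hx y hy
    | one => exact h1
    | mul a b ha hb h2 h3 => rw [hadd a ha b hb, h2, h3, add_zero]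
    | inv a _ h2 => rw [hinv, h2, neg_zero]
  intro x hx y hy
  have hcn : ∀ n : ℕ, (x * y) ^ n * (x ^ n * y ^ n)⁻¹ ∈ ⁅N, N⁆ := by
    intro n
    induction n with
    | zero => simp
    | succ n ih =>
      have e : (x * y) ^ (n + 1) * (x ^ (n + 1) * y ^ (n + 1))⁻¹ =
          ((x * y) ^ n * (x ^ n * y ^ n)⁻¹) * ⁅x ^ n * y ^ n * (x ^ n)⁻¹, x⁆ := by
        simp only [commutatorElement_def, pow_succ]; group
      rw [e]
      exact mul_mem ih (Subgroup.commutator_mem_commutator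
        (mul_mem (mul_mem (pow_mem hx n) (pow_mem hy n)) (inv_mem (pow_mem hx n))) hx)
  have := zero_of_bdd (φ (x * y) - φ x - φ y) (2 * D) fun n => by
    have a1 := hq ((x * y) ^ n * (x ^ n * y ^ n)⁻¹) (x ^ n * y ^ n)
    have a2 := hq (x ^ n) (y ^ n)
    rw [hz _ (hcn n), inv_mul_cancel_right, hn] at a1
    rw [hn, hn] at a2
    rw [abs_le] at *
    constructor <;> linarith [a1.1, a1.2, a2.1, a2.2]
  linarith

lemma descend (φ : H → ℝ) (D : ℝ) (hn : ∀ x (n : ℕ), φ (x ^ n) = n * φ x)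
    (hq : ∀ x y, |φ (x * y) - φ x - φ y| ≤ D) (d : ℕ)
    (h0 : ∀ x ∈ derivedSeries H d, ∀ y ∈ derivedSeries H d, φ (x * y) = φ x + φ y) :
    ∀ x y, φ (x * y) = φ x + φ y := by
  induction d with
  | zero => intro x y; exact h0 x (by simp) y (by simp)
  | succ d ih => exact ih (step φ D hn hq _ h0)

lemma propor (τ τ' : H → ℝ) (h1 : ∀ x y, τ (x * y) = τ x + τ y)
    (h2 : ∀ x y, τ' (x * y) = τ' x + τ' y) (hs : ∀ x, 0 < τ x ↔ 0 < τ' x) (a : H) (ha : τ a = 1)
    (b : H) : τ' b = τ' a * τ b := by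
  let f : H →* Multiplicative ℝ := MonoidHom.mk' (fun x => Multiplicative.ofAdd (τ x))
    (fun x y => by rw [h1]; rfl)
  let f' : H →* Multiplicative ℝ := MonoidHom.mk' (fun x => Multiplicative.ofAdd (τ' x))
    (fun x y => by rw [h2]; rfl)
  have z1 : ∀ x (n : ℤ), τ (x ^ n) = n * τ x := fun x n => by
    have := congrArg Multiplicative.toAdd (map_zpow f x n)
    simpa [f] using this
  have z2 : ∀ x (n : ℤ), τ' (x ^ n) = n * τ' x := fun x n => by
    have := congrArg Multiplicative.toAdd (map_zpow f' x n)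
    simpa [f'] using this
  have hl : 0 < τ' a := (hs a).1 (by rw [ha]; exact one_pos)
  have : τ' b / τ' a = τ b := by
    apply eq_of_forall_rat_lt_iff_lt
    intro q
    have e := hs (b ^ (q.den : ℤ) * a ^ (-q.num))
    rw [h1, h2, z1, z1, z2, z2, ha] at e
    have hd : (0 : ℝ) < q.den := by exact_mod_cast q.den_pos
    rw [Rat.cast_def, div_lt_div_iff₀ hd hl, div_lt_iff₀ hd]
    push_cast at e
    constructor
    · intro h
      have := e.2 (by linarith)
      linarith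
    · intro h
      have := e.1 (by linarith)
      linarith
  rw [← this]
  field_simp

end qm

section star
variable {G : Type} [Group G]

def DX (K X : Set G) : Subgroup G := Subgroup.closure {g | ∃ x ∈ X, ∃ k ∈ K, g = x * k * x⁻¹}

lemma DX_mono (K : Set G) {X Y : Set G} (h : X ⊆ Y) : DX K X ≤ DX K Y :=
  Subgroup.closure_mono (by rintro _ ⟨x, hx, k, hk, rfl⟩; exact ⟨x, h hx, k, hk, rfl⟩)

lemma conj_mem_of (K X : Set G) (e : G) (M : Subgroup G)
    (h : ∀ x ∈ X, ∀ k ∈ K, e * (x * k * x⁻¹) * e⁻¹ ∈ M) :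
    ∀ g ∈ DX K X, e * g * e⁻¹ ∈ M := by
  intro g hg
  have : DX K X ≤ M.comap (MulAut.conj e).toMonoidHom := by
    apply (Subgroup.closure_le _).2
    rintro _ ⟨x, hx, k, hk, rfl⟩
    exact h x hx k hk
  exact this hg

lemma exists_Y (K : Set G) (hK : Subgroup.normalClosure K = ⊤) (g : G) :
    ∃ Y : Set G, Y.Finite ∧ g ∈ DX K Y := by
  have hg : g ∈ Subgroup.normalClosure K := by rw [hK]; trivial
  unfold Subgroup.normalClosure at hg
  induction hg using Subgroup.closure_induction with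
  | mem z hz =>
    obtain ⟨k, hk, c, hc⟩ : ∃ k ∈ K, ∃ c : G, c * k * c⁻¹ = z := by
      obtain ⟨k, hk, h⟩ := Group.mem_conjugatesOfSet_iff.1 hz
      exact ⟨k, hk, isConj_iff.1 h⟩
    exact ⟨{c}, Set.finite_singleton c, Subgroup.subset_closure ⟨c, rfl, k, hk, hc.symm⟩⟩
  | one => exact ⟨∅, Set.finite_empty, one_mem _⟩
  | mul a b _ _ h2 h3 =>
    obtain ⟨Y, hY, ha⟩ := h2
    obtain ⟨Z, hZ, hb⟩ := h3
    exact ⟨Y ∪ Z, hY.union hZ, mul_mem (DX_mono K Set.subset_union_left ha)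
      (DX_mono K Set.subset_union_right hb)⟩
  | inv a _ h2 =>
    obtain ⟨Y, hY, ha⟩ := h2
    exact ⟨Y, hY, inv_mem ha⟩

lemma star (K : Set G) (hK : Subgroup.normalClosure K = ⊤) (d : ℕ) :
    ∀ K1 : Set G, K1.Finite → ∃ X : Set G, X.Finite ∧ (1 : G) ∈ X ∧
      ∀ x ∈ X, ∀ k ∈ K1, x * k * x⁻¹ ∈ derivedSeries G d ⊔ DX K X := by
  induction d with
  | zero => intro K1 _; exact ⟨{1}, Set.finite_singleton 1, rfl, fun x _ k _ => by simp⟩
  | succ d ih =>
    intro K1 hK1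
    choose Yf hYf1 hYf2 using exists_Y K hK
    have hY : (⋃ k ∈ K1, Yf k).Finite := hK1.biUnion fun k _ => hYf1 k
    set Y := ⋃ k ∈ K1, Yf k with hYd
    obtain ⟨X, hX, h1X, hXY⟩ := ih Y hY
    have hdec : ∀ x y : G, ∃ n ∈ derivedSeries G d, x ∈ X → y ∈ Y →
        ∃ δ ∈ DX K X, n * δ = x * y * x⁻¹ := by
      intro x y
      by_cases h : x ∈ X ∧ y ∈ Y
      · obtain ⟨n, hn, δ, hδ, e⟩ := Subgroup.mem_sup_of_normal_left.1 (hXY x h.1 y h.2)
        exact ⟨n, hn, fun _ _ => ⟨δ, hδ, e⟩⟩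
      · exact ⟨1, one_mem _, fun h1 h2 => absurd ⟨h1, h2⟩ h⟩
    choose nf hnf1 hnf2 using hdec
    let E : Set G := insert 1 (Set.image2 nf X Y)
    have hE : E.Finite := (hX.image2 nf hY).insert 1
    have hEN : ∀ e ∈ E, e ∈ derivedSeries G d := by
      rintro e (rfl | ⟨x, _, y, _, rfl⟩)
      · exact one_mem _
      · exact hnf1 x y
    let X' : Set G := Set.image2 (· * ·) E X
    have c0 : ∀ e ∈ E, ∀ g ∈ DX K X, e * g * e⁻¹ ∈ DX K X' := by
      intro e he
      refine conj_mem_of K X e _ fun x hx k hk => Subgroup.subset_closure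
        ⟨e * x, ⟨e, he, x, hx, rfl⟩, k, hk, by group⟩
    have c1 : ∀ x ∈ X, ∀ k ∈ K1, x * k * x⁻¹ ∈ DX K X' := by
      intro x hx k hk
      refine conj_mem_of K Y x _ (fun y hy k0 hk0 => ?_) k
        (DX_mono K (Set.subset_biUnion_of_mem (u := Yf) hk) (hYf2 k))
      obtain ⟨δ, hδ, e⟩ := hnf2 x y hx hy
      have : x * (y * k0 * y⁻¹) * x⁻¹ = nf x y * (δ * (x * k0 * x⁻¹) * δ⁻¹) * (nf x y)⁻¹ := by
        have e2 : y = x⁻¹ * (nf x y * δ) * x := by rw [e]; group
        conv_lhs => rw [e2]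
        group
      rw [this]
      exact c0 _ (Or.inr ⟨x, hx, y, hy, rfl⟩) _
        (mul_mem (mul_mem hδ (Subgroup.subset_closure ⟨x, hx, k0, hk0, rfl⟩)) (inv_mem hδ))
    have c2 : ∀ e ∈ E, ∀ g ∈ DX K X', e * g * e⁻¹ ∈ derivedSeries G (d + 1) ⊔ DX K X' := by
      intro e he
      refine conj_mem_of K X' e _ ?_
      rintro _ ⟨e', he', x, hx, rfl⟩ k hk
      have hδ : x * k * x⁻¹ ∈ DX K X := Subgroup.subset_closure ⟨x, hx, k, hk, rfl⟩
      set δ := x * k * x⁻¹ with hδd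
      have a1 := c0 e he δ hδ
      have a2 := c0 e' he' δ hδ
      have a3 := c0 1 (Or.inl rfl) δ hδ
      rw [one_mul, inv_one, mul_one] at a3
      have n1 : e' * δ * e'⁻¹ * δ⁻¹ ∈ derivedSeries G d := by
        have := mul_mem (hEN e' he') ((derivedSeries_normal G d).conj_mem _ (inv_mem (hEN e' he')) δ)
        simpa [mul_assoc] using this
      have : e * (e' * x * k * (e' * x)⁻¹) * e⁻¹ =
          ⁅e, e' * δ * e'⁻¹ * δ⁻¹⁆ * ((e' * δ * e'⁻¹) * δ⁻¹ * (e * δ * e⁻¹)) := by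
        simp only [commutatorElement_def, hδd]; group
      rw [this]
      exact mul_mem (Subgroup.mem_sup_left (Subgroup.commutator_mem_commutator (hEN e he) n1))
        (Subgroup.mem_sup_right (mul_mem (mul_mem a2 (inv_mem a3)) a1))
    refine ⟨X', hE.image2 _ hX, ⟨1, Or.inl rfl, 1, h1X, mul_one 1⟩, ?_⟩
    rintro _ ⟨e, he, x, hx, rfl⟩ k hk
    have := c2 e he _ (c1 x hx k hk)
    convert this using 1
    group

end star

end Pool.Agent.H25.RO
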