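import Pool.Agent.H25.RO1

set_option autoImplicit false

namespace Pool.Agent.H25.RO

open scoped commutatorElement
open Filter

structure Act (H Ω : Type) [Group H] [LinearOrder Ω] where
  act : H → Ω → Ω
  one : ∀ ω, act 1 ω = ω
  mul : ∀ g h ω, act (g * h) ω = act g (act h ω)
  mono : ∀ g, Monotone (act g)

variable {H Ω : Type} [Group H] [LinearOrder Ω]

lemma Act.inv_act (ρ : Act H Ω) (g : H) (ω : Ω) : ρ.act g⁻¹ (ρ.act g ω) = ω := by
  rw [← ρ.mul, inv_mul_cancel, ρ.one]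

lemma Act.act_inv (ρ : Act H Ω) (g : H) (ω : Ω) : ρ.act g (ρ.act g⁻¹ ω) = ω := by
  rw [← ρ.mul, mul_inv_cancel, ρ.one]

lemma Act.le_iff (ρ : Act H Ω) (g : H) (a b : Ω) : ρ.act g a ≤ ρ.act g b ↔ a ≤ b :=
  ⟨fun h => by simpa [ρ.inv_act] using ρ.mono g⁻¹ h, fun h => ρ.mono g h⟩

lemma Act.lt_iff (ρ : Act H Ω) (g : H) (a b : Ω) : ρ.act g a < ρ.act g b ↔ a < b := by
  rw [← not_le, ← not_le, ρ.le_iff]

def Act.lower (ρ : Act H Ω) : Act H (LowerSet Ω) where
  act g L := ⟨{ω | ρ.act g⁻¹ ω ∈ L}, fun _ _ hab h => L.lower (ρ.mono _ hab) h⟩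
  one L := by ext ω; simp [ρ.one]
  mul g h L := by
    ext ω
    show ρ.act (g * h)⁻¹ ω ∈ L ↔ ρ.act h⁻¹ (ρ.act g⁻¹ ω) ∈ L
    rw [mul_inv_rev, ρ.mul]
  mono g L L' h := fun _ hω => h hω

noncomputable def Act.germ {I : Type} (ρ : Act H Ω) (U : Ultrafilter I) :
    Act H (Germ (U : Filter I) Ω) where
  act g x := Germ.map (ρ.act g) x
  one x := Germ.inductionOn x fun f => by
    rw [Germ.map_coe]; congr 1; funext i; exact ρ.one _
  mul g h x := Germ.inductionOn x fun f => by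
    rw [Germ.map_coe, Germ.map_coe, Germ.map_coe]; congr 1; funext i; exact ρ.mul _ _ _
  mono g x y := Germ.inductionOn₂ x y fun f f' h => by
    show Germ.map (ρ.act g) (f : Germ (U : Filter I) Ω) ≤ Germ.map (ρ.act g) (f' : Germ (U : Filter I) Ω)
    rw [Germ.map_coe, Germ.map_coe, Germ.coe_le]
    exact (Germ.coe_le.1 h).mono fun i hi => ρ.mono g hi

def Act.fix (ρ : Act H Ω) (A : Subgroup H) [hA : A.Normal] :
    Act H {x : Ω // ∀ a ∈ A, ρ.act a x = x} where
  act g x := ⟨ρ.act g x, fun a ha => by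
    have := x.2 _ (hA.conj_mem a ha g⁻¹)
    rw [inv_inv, ρ.mul, ρ.mul] at this
    have h2 := congrArg (ρ.act g) this
    rwa [ρ.act_inv] at h2⟩
  one x := Subtype.ext (ρ.one _)
  mul g h x := Subtype.ext (ρ.mul _ _ _)
  mono g _ _ h := ρ.mono g h

lemma cof_fin (S : Finset H) (hS : Subgroup.closure (S : Set H) = ⊤) (A : Subgroup H) [A.Normal]
    (ih : ∀ (Ω' : Type) [LinearOrder Ω'] (ρ' : Act H Ω'), (∀ a ∈ A, ∀ ω, ρ'.act a ω = ω) →
      ∀ g ω, ρ'.act g ω = ω) (ρ : Act H Ω) (ω0 : Ω) :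
    ∃ T : Finset A, ∀ g, ∃ b ∈ Subgroup.closure ((fun a : A => (a : H)) '' T),
      ρ.act g ω0 ≤ ρ.act b ω0 := by
  classical
  let U : Ultrafilter (Finset A) := Ultrafilter.of atTop
  let L : Finset A → LowerSet Ω := fun T =>
    ⟨{ω | ∃ b ∈ Subgroup.closure ((fun a : A => (a : H)) '' T), ω ≤ ρ.act b ω0},
      fun _ _ hab ⟨b, hb, h⟩ => ⟨b, hb, le_trans hab h⟩⟩
  have hfix : ∀ T : Finset A, ∀ a ∈ Subgroup.closure ((fun a : A => (a : H)) '' T),
      ρ.lower.act a (L T) = L T := by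
    intro T a ha
    ext ω
    constructor
    · rintro ⟨b, hb, h⟩
      refine ⟨a * b, mul_mem ha hb, ?_⟩
      have := ρ.mono a h
      rwa [ρ.act_inv, ← ρ.mul] at this
    · rintro ⟨b, hb, h⟩
      refine ⟨a⁻¹ * b, mul_mem (inv_mem ha) hb, ?_⟩
      rw [ρ.mul]
      exact ρ.mono _ h
  have hx : ∀ a ∈ A, (ρ.lower.germ U).act a (L : Germ (U : Filter (Finset A)) (LowerSet Ω)) = L := by
    intro a ha
    show Germ.map (ρ.lower.act a) (L : Germ (U : Filter (Finset A)) (LowerSet Ω)) = _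
    rw [Germ.map_coe, Germ.coe_eq]
    have : ∀ᶠ T in (U : Filter (Finset A)), ({⟨a, ha⟩} : Finset A) ≤ T :=
      Ultrafilter.of_le atTop (eventually_ge_atTop _)
    refine this.mono fun T hT => hfix T a (Subgroup.subset_closure ⟨⟨a, ha⟩, ?_, rfl⟩)
    exact hT (Finset.mem_singleton_self _)
  have h1 := ih _ ((ρ.lower.germ U).fix A) (fun a ha x => Subtype.ext (x.2 a ha))
  have h2 : ∀ g, ∀ᶠ T in (U : Filter (Finset A)), ρ.lower.act g (L T) = L T := by
    intro g
    have := congrArg Subtype.val (h1 g ⟨_, hx⟩)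
    change Germ.map (ρ.lower.act g) (L : Germ (U : Filter (Finset A)) (LowerSet Ω)) =
      (L : Germ (U : Filter (Finset A)) (LowerSet Ω)) at this
    rw [Germ.map_coe, Germ.coe_eq] at this
    exact this
  obtain ⟨T, hT⟩ := ((eventually_all_finset S).2 fun s _ => h2 s).exists
  refine ⟨T, fun g => ?_⟩
  have hg : ρ.lower.act g (L T) = L T := by
    have hm : g ∈ Subgroup.closure (S : Set H) := by rw [hS]; trivial
    induction hm using Subgroup.closure_induction with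
    | mem z hz => exact hT z hz
    | one => exact ρ.lower.one _
    | mul a b _ _ h2 h3 => rw [ρ.lower.mul, h3, h2]
    | inv a _ h2 =>
      conv_lhs => rw [← h2]
      rw [ρ.lower.inv_act]
  have : ρ.act g ω0 ∈ ρ.lower.act g (L T) := by
    show ρ.act g⁻¹ (ρ.act g ω0) ∈ L T
    rw [ρ.inv_act]
    exact ⟨1, one_mem _, by rw [ρ.one]⟩
  rw [hg] at this
  exact this

lemma cof_one (A : Subgroup H) (ρ : Act H Ω) (ω0 : Ω)
    (hc : ∀ a ∈ A, ∀ b ∈ A, ∀ ω, ρ.act a (ρ.act b ω) = ρ.act b (ρ.act a ω))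
    (T : Finset A) (hT : ∀ g, ∃ b ∈ Subgroup.closure ((fun a : A => (a : H)) '' T),
      ρ.act g ω0 ≤ ρ.act b ω0) :
    ∃ a ∈ A, ∀ g, ∃ n : ℤ, ρ.act g ω0 ≤ ρ.act (a ^ n) ω0 := by
  classical
  have hsub : ∀ T : Finset A, Subgroup.closure ((fun a : A => (a : H)) '' T) ≤ A := fun T =>
    (Subgroup.closure_le _).2 (by rintro _ ⟨a, _, rfl⟩; exact a.2)
  by_contra hcon
  push Not at hcon
  have key : ∀ T' : Finset A, ∃ g, ∀ b ∈ Subgroup.closure ((fun a : A => (a : H)) '' T'),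
      ρ.act b ω0 < ρ.act g ω0 := by
    intro T'
    induction T' using Finset.induction_on with
    | empty =>
      obtain ⟨g, hg⟩ := hcon 1 (one_mem _)
      refine ⟨g, fun b hb => ?_⟩
      have : b = 1 := by simpa using hb
      rw [this]
      simpa using hg 0
    | insert a T' _ ih =>
      obtain ⟨g, hg⟩ := ih
      obtain ⟨c, hc1, hc2⟩ := hT g
      obtain ⟨ga, hga⟩ := hcon a a.2
      refine ⟨c * ga, fun e he => ?_⟩
      have : ∃ n : ℤ, ∃ b ∈ Subgroup.closure ((fun a : A => (a : H)) '' T'),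
          ∀ ω, ρ.act e ω = ρ.act ((a : H) ^ n) (ρ.act b ω) := by
        induction he using Subgroup.closure_induction with
        | mem z hz =>
          obtain ⟨z', hz', rfl⟩ := hz
          rcases Finset.mem_insert.1 hz' with rfl | h
          · exact ⟨1, 1, one_mem _, fun ω => by simp [ρ.one]⟩
          · exact ⟨0, z', Subgroup.subset_closure ⟨z', h, rfl⟩, fun ω => by simp [ρ.one]⟩
        | one => exact ⟨0, 1, one_mem _, fun ω => by simp [ρ.one]⟩
        | mul x y _ _ h2 h3 =>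
          obtain ⟨n, b, hb, e1⟩ := h2
          obtain ⟨m, b', hb', e2⟩ := h3
          refine ⟨n + m, b * b', mul_mem hb hb', fun ω => ?_⟩
          rw [ρ.mul, e1, e2, zpow_add, ρ.mul, ρ.mul,
            hc b (hsub _ hb) _ (zpow_mem a.2 m)]
        | inv x _ h2 =>
          obtain ⟨n, b, hb, e1⟩ := h2
          refine ⟨-n, b⁻¹, inv_mem hb, fun ω => ?_⟩
          have e2 := e1 (ρ.act x⁻¹ ω)
          rw [ρ.act_inv] at e2
          rw [hc _ (zpow_mem a.2 (-n)) _ (inv_mem (hsub _ hb)), zpow_neg]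
          conv_rhs => rw [e2]
          rw [ρ.inv_act, ρ.inv_act]
      obtain ⟨n, b, hb, e1⟩ := this
      rw [e1, ρ.mul]
      calc ρ.act ((a : H) ^ n) (ρ.act b ω0) < ρ.act ((a : H) ^ n) (ρ.act c ω0) :=
            (ρ.lt_iff _ _ _).2 (lt_of_lt_of_le (hg b hb) hc2)
        _ = ρ.act c (ρ.act ((a : H) ^ n) ω0) := hc _ (zpow_mem a.2 n) _ (hsub _ hc1) _
        _ < _ := (ρ.lt_iff _ _ _).2 (hga n)
  obtain ⟨g, hg⟩ := key T
  obtain ⟨b, hb, h⟩ := hT g
  exact absurd h (not_le.2 (hg b hb))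

lemma arch (hhom : ∀ f : H → ℝ, (∀ x y, f (x * y) = f x + f y) → ∀ x, f x = 0) (d : ℕ)
    (ρ : Act H Ω) (ω0 : Ω) (htriv : ∀ c ∈ derivedSeries H (d + 1), ∀ ω, ρ.act c ω = ω)
    (hc : ∀ a ∈ derivedSeries H d, ∀ b ∈ derivedSeries H d, ∀ ω,
      ρ.act a (ρ.act b ω) = ρ.act b (ρ.act a ω))
    (a : H) (ha : a ∈ derivedSeries H d) (hpos : ω0 < ρ.act a ω0)
    (hcof : ∀ g, ∃ n : ℤ, ρ.act g ω0 ≤ ρ.act (a ^ n) ω0) : False := by
  set A := derivedSeries H d with hA
  have hN : A.Normal := derivedSeries_normal H d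
  have sm : StrictMono fun n : ℤ => ρ.act (a ^ n) ω0 := by
    apply strictMono_int_of_lt_succ
    intro n
    show ρ.act (a ^ n) ω0 < ρ.act (a ^ (n + 1)) ω0
    rw [zpow_add_one, ρ.mul, ρ.lt_iff]
    exact hpos
  have hlow : ∀ g, ∃ n : ℤ, ρ.act (a ^ n) ω0 ≤ ρ.act g ω0 := by
    intro g
    obtain ⟨n, hn⟩ := hcof g⁻¹
    have hb : g * a ^ n * g⁻¹ ∈ A := hN.conj_mem _ (zpow_mem ha n) g
    obtain ⟨m, hm⟩ := hcof (g * a ^ n * g⁻¹)
    refine ⟨-m, ?_⟩
    have h1 : ω0 ≤ ρ.act (g * a ^ n * g⁻¹) (ρ.act g ω0) := by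
      rw [ρ.mul, ρ.mul, ρ.inv_act]
      have := ρ.mono g hn
      rwa [ρ.act_inv] at this
    have h2 := ρ.mono (a ^ (-m)) hm
    rw [hc _ (zpow_mem ha _) _ hb, zpow_neg, ρ.inv_act] at h2
    rw [zpow_neg]
    exact (ρ.le_iff (g * a ^ n * g⁻¹) _ _).1 (le_trans h2 h1)
  have hex : ∀ g, ∃ h : ℤ, ∀ n : ℤ, n ≤ h ↔ ρ.act (a ^ n) ω0 ≤ ρ.act g ω0 := by
    intro g
    obtain ⟨N, hN⟩ := hcof g
    obtain ⟨h, h1, h2⟩ := Int.exists_greatest_of_bdd
      (P := fun n => ρ.act (a ^ n) ω0 ≤ ρ.act g ω0)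
      ⟨N, fun z hz => sm.le_iff_le.1 (le_trans hz hN)⟩ (hlow g)
    exact ⟨h, fun n => ⟨fun hn => le_trans (sm.monotone hn) h1, h2 n⟩⟩
  choose h hh using hex
  have h_le : ∀ g, ρ.act (a ^ h g) ω0 ≤ ρ.act g ω0 := fun g => (hh g _).1 le_rfl
  have h_lt : ∀ g, ρ.act g ω0 < ρ.act (a ^ (h g + 1)) ω0 := fun g =>
    not_le.1 fun hle => by have := (hh g _).2 hle; omega
  have h_mono : ∀ g g', ρ.act g ω0 ≤ ρ.act g' ω0 → h g ≤ h g' := fun g g' hle =>
    (hh g' _).2 (le_trans (h_le g) hle)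
  have h_a : ∀ n : ℤ, h (a ^ n) = n := fun n =>
    le_antisymm (sm.le_iff_le.1 (h_le _)) ((hh _ _).2 le_rfl)
  have h_b1 : ∀ b ∈ A, ∀ g, h b + h g ≤ h (b * g) := by
    intro b hb g
    rw [hh, add_comm, zpow_add, ρ.mul, ρ.mul]
    calc ρ.act (a ^ h g) (ρ.act (a ^ h b) ω0) ≤ ρ.act (a ^ h g) (ρ.act b ω0) := ρ.mono _ (h_le b)
      _ = ρ.act b (ρ.act (a ^ h g) ω0) := hc _ (zpow_mem ha _) _ hb _
      _ ≤ _ := ρ.mono _ (h_le g)
  have h_b2 : ∀ b ∈ A, ∀ g, h (b * g) ≤ h b + h g + 1 := by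
    intro b hb g
    have : ρ.act (b * g) ω0 < ρ.act (a ^ ((h g + 1) + (h b + 1))) ω0 := by
      rw [zpow_add a (h g + 1), ρ.mul, ρ.mul]
      calc ρ.act b (ρ.act g ω0) < ρ.act b (ρ.act (a ^ (h g + 1)) ω0) := (ρ.lt_iff _ _ _).2 (h_lt g)
        _ = ρ.act (a ^ (h g + 1)) (ρ.act b ω0) := hc _ hb _ (zpow_mem ha _) _
        _ < _ := (ρ.lt_iff _ _ _).2 (h_lt b)
    have h2 := sm.lt_iff_lt.1 (lt_of_le_of_lt (h_le _) this)
    omega
  have h_triv : ∀ c ∈ derivedSeries H (d + 1), h c = 0 := by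
    intro c hcm
    have e : ρ.act c ω0 = ρ.act (a ^ (0 : ℤ)) ω0 := by rw [htriv c hcm, zpow_zero, ρ.one]
    have a1 := h_mono _ _ e.le
    have a2 := h_mono _ _ e.ge
    rw [h_a] at a1 a2
    omega
  obtain ⟨τ, t1, t2, t3⟩ := homog (H := A) (fun b => (h b : ℝ)) 1 (fun x y => by
    have a1 := h_b1 x x.2 y
    have a2 := h_b2 x x.2 y
    rw [abs_le]
    constructor
    · have : ((h x + h y : ℤ) : ℝ) ≤ h (x * y) := by exact_mod_cast a1
      push_cast at this ⊢
      linarith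
    · have : (h (x * y) : ℝ) ≤ ((h x + h y + 1 : ℤ) : ℝ) := by exact_mod_cast a2
      push_cast at this ⊢
      linarith)
  have tz : ∀ x ∈ ⁅(⊤ : Subgroup A), (⊤ : Subgroup A)⁆, τ x = 0 := by
    intro x hx
    refine zero_of_bdd _ 1 fun n => ?_
    have hm : ((x ^ n : A) : H) ∈ derivedSeries H (d + 1) := by
      have := Subgroup.mem_map_of_mem A.subtype (pow_mem hx n)
      rw [Subgroup.map_commutator, ← MonoidHom.range_eq_map, Subgroup.range_subtype] at this
      exact this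
    have := t1 (x ^ n)
    rw [h_triv _ hm, t2] at this
    simpa using this
  have tadd : ∀ x y, τ (x * y) = τ x + τ y := fun x y =>
    step τ _ t2 t3 ⊤ (fun x hx y hy => by rw [tz _ (mul_mem hx hy), tz x hx, tz y hy, add_zero])
      x trivial y trivial
  have ta : τ ⟨a, ha⟩ = 1 := by
    have := zero_of_bdd (τ ⟨a, ha⟩ - 1) 1 fun n => by
      have e := t1 (⟨a, ha⟩ ^ n)
      have e2 := h_a n
      rw [zpow_natCast] at e2
      rw [t2, SubmonoidClass.coe_pow, e2] at e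
      rw [mul_sub, mul_one]
      exact_mod_cast e
    linarith
  have sgn : ∀ b : A, 0 < τ b ↔ ∀ g, ∃ n : ℕ, ρ.act g ω0 ≤ ρ.act ((b : H) ^ n) ω0 := by
    intro b
    constructor
    · intro hb g
      obtain ⟨n, hn⟩ := exists_nat_gt (((h g : ℝ) + 2) / τ b)
      rw [div_lt_iff₀ hb] at hn
      refine ⟨n, le_trans (h_lt g).le ((hh _ _).1 ?_)⟩
      have e := t1 (b ^ n)
      rw [t2, SubmonoidClass.coe_pow, abs_le] at e
      have : ((h g + 1 : ℤ) : ℝ) ≤ h ((b : H) ^ n) := by push_cast; linarith [e.2]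
      exact_mod_cast this
    · intro hb
      by_contra hneg
      obtain ⟨n, hn⟩ := hb (a ^ (2 : ℤ))
      have a1 := h_mono _ _ hn
      rw [h_a] at a1
      have e := t1 (b ^ n)
      rw [t2, SubmonoidClass.coe_pow, abs_le] at e
      have a2 : (2 : ℝ) ≤ h ((b : H) ^ n) := by exact_mod_cast a1
      have a3 : (n : ℝ) * τ b ≤ 0 := mul_nonpos_of_nonneg_of_nonpos (Nat.cast_nonneg n) (not_lt.1 hneg)
      linarith [e.1]
  let cj : H → A → A := fun g b => ⟨g * b * g⁻¹, hN.conj_mem _ b.2 g⟩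
  have cj_mul : ∀ g x y, cj g (x * y) = cj g x * cj g y := fun g x y => Subtype.ext (by
    simp [cj, mul_assoc])
  have sgn1 : ∀ g b, 0 < τ b → 0 < τ (cj g b) := by
    intro g b hb
    rw [sgn] at hb ⊢
    intro g'
    obtain ⟨k, hk⟩ := hlow g⁻¹
    obtain ⟨n, hn⟩ := hb ((a ^ k)⁻¹ * (g⁻¹ * g'))
    refine ⟨n, ?_⟩
    show ρ.act g' ω0 ≤ ρ.act ((g * b * g⁻¹) ^ n) ω0
    rw [conj_pow, ρ.mul, ρ.mul]
    have a1 := ρ.mono (a ^ k) hn
    rw [ρ.mul, ρ.act_inv, hc _ (zpow_mem ha k) _ (pow_mem b.2 n), ρ.mul] at a1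
    have a2 := ρ.mono g (le_trans a1 (ρ.mono _ hk))
    rwa [ρ.act_inv] at a2
  have prop : ∀ g b, τ (cj g b) = τ (cj g ⟨a, ha⟩) * τ b := fun g b =>
    propor τ (fun b => τ (cj g b)) tadd (fun x y => by rw [cj_mul, tadd])
      (fun x => ⟨sgn1 g x, fun hx => by
        have := sgn1 g⁻¹ _ hx
        rwa [show cj g⁻¹ (cj g x) = x from Subtype.ext (by simp [cj, mul_assoc])] at this⟩)
      ⟨a, ha⟩ ta b
  have lpos : ∀ g, 0 < τ (cj g ⟨a, ha⟩) := fun g => sgn1 g _ (by rw [ta]; exact one_pos)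
  have lone : ∀ g, τ (cj g ⟨a, ha⟩) = 1 := by
    intro g
    have := hhom (fun g => Real.log (τ (cj g ⟨a, ha⟩))) (fun x y => by
      rw [show cj (x * y) ⟨a, ha⟩ = cj x (cj y ⟨a, ha⟩) from Subtype.ext (by simp [cj, mul_assoc]),
        prop x, Real.log_mul (lpos x).ne' (lpos y).ne']) g
    exact Real.eq_one_of_pos_of_log_eq_zero (lpos g) this |>.trans rfl
  have tzp : ∀ (x : A) (n : ℤ), τ (x ^ n) = n * τ x := by
    intro x n
    let f : A →* Multiplicative ℝ := MonoidHom.mk' (fun x => Multiplicative.ofAdd (τ x))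
      (fun x y => by rw [tadd]; rfl)
    have := congrArg Multiplicative.toAdd (map_zpow f x n)
    simpa [f] using this
  have hb : ∀ g (n : ℤ), n - 1 ≤ h (g * a ^ n * g⁻¹) ∧ h (g * a ^ n * g⁻¹) ≤ n + 1 := by
    intro g n
    have e := t1 (cj g ⟨a, ha⟩ ^ n)
    have e2 : ((cj g ⟨a, ha⟩ ^ n : A) : H) = g * a ^ n * g⁻¹ := by
      rw [SubgroupClass.coe_zpow]; exact conj_zpow
    rw [tzp, lone, e2, abs_le] at e
    constructor
    · have : ((n - 1 : ℤ) : ℝ) ≤ h (g * a ^ n * g⁻¹) := by push_cast; linarith [e.2]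
      exact_mod_cast this
    · have : (h (g * a ^ n * g⁻¹) : ℝ) ≤ ((n + 1 : ℤ) : ℝ) := by push_cast; linarith [e.1]
      exact_mod_cast this
  obtain ⟨φ, p1, p2, p3⟩ := homog (fun g => (h g : ℝ)) 3 (fun x y => by
    have a1 := h_b1 _ (hN.conj_mem _ (zpow_mem ha (h y)) x) x
    have a2 := h_b2 _ (hN.conj_mem _ (zpow_mem ha (h y + 1)) x) x
    rw [inv_mul_cancel_right] at a1 a2
    have a3 := h_mono (x * a ^ h y) (x * y) (by rw [ρ.mul, ρ.mul]; exact ρ.mono _ (h_le y))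
    have a4 := h_mono (x * y) (x * a ^ (h y + 1))
      (by rw [ρ.mul, ρ.mul]; exact ρ.mono _ (h_lt y).le)
    have a5 := (hb x (h y)).1
    have a6 := (hb x (h y + 1)).2
    have a7 : |h (x * y) - h x - h y| ≤ 3 := by rw [abs_le]; constructor <;> omega
    exact_mod_cast a7)
  have pz : ∀ x ∈ derivedSeries H (d + 1), φ x = 0 := by
    intro x hx
    refine zero_of_bdd _ 3 fun n => ?_
    have := p1 (x ^ n)
    rw [h_triv _ (pow_mem hx n), p2] at this
    simpa using this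
  have padd := descend φ _ p2 p3 (d + 1)
    (fun x hx y hy => by rw [pz _ (mul_mem hx hy), pz x hx, pz y hy, add_zero])
  have := p1 (a ^ (4 : ℤ))
  rw [hhom φ padd, h_a] at this
  norm_num at this

theorem triv (S : Finset H) (hS : Subgroup.closure (S : Set H) = ⊤)
    (hhom : ∀ f : H → ℝ, (∀ x y, f (x * y) = f x + f y) → ∀ x, f x = 0) (d : ℕ) :
    ∀ (Ω : Type) [LinearOrder Ω] (ρ : Act H Ω), (∀ a ∈ derivedSeries H d, ∀ ω, ρ.act a ω = ω) →
      ∀ g ω, ρ.act g ω = ω := by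
  induction d with
  | zero => intro Ω _ ρ h g ω; exact h g (by simp) ω
  | succ d ih =>
    intro Ω _ ρ htriv g0 ω0
    have hN := derivedSeries_normal H d
    have hc : ∀ a ∈ derivedSeries H d, ∀ b ∈ derivedSeries H d, ∀ ω,
        ρ.act a (ρ.act b ω) = ρ.act b (ρ.act a ω) := by
      intro a ha b hb ω
      have := htriv ⁅a, b⁆ (Subgroup.commutator_mem_commutator ha hb) (ρ.act b (ρ.act a ω))
      rw [← this, ← ρ.mul, ← ρ.mul, ← ρ.mul]
      congr 1
      simp [commutatorElement_def]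
    obtain ⟨T, hT⟩ := cof_fin S hS (derivedSeries H d) ih ρ ω0
    obtain ⟨a, ha, hcof⟩ := cof_one _ ρ ω0 hc T hT
    rcases lt_trichotomy ω0 (ρ.act a ω0) with h | h | h
    · exact (arch hhom d ρ ω0 htriv hc a ha h hcof).elim
    · have hz : ∀ n : ℤ, ρ.act (a ^ n) ω0 = ω0 := by
        intro n
        induction n using Int.induction_on with
        | zero => simp [ρ.one]
        | succ n ih => rw [zpow_add_one, ρ.mul, ← h, ih]
        | pred n ih =>
          rw [zpow_sub_one, ρ.mul]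
          have : ρ.act a⁻¹ ω0 = ω0 := by
            conv_lhs => rw [h]
            rw [ρ.inv_act]
          rw [this, ih]
      obtain ⟨n, hn⟩ := hcof g0
      obtain ⟨m, hm⟩ := hcof g0⁻¹
      rw [hz] at hn hm
      have := ρ.mono g0 hm
      rw [ρ.act_inv] at this
      exact le_antisymm hn this
    · refine (arch hhom d ρ ω0 htriv hc a⁻¹ (inv_mem ha) ?_ fun g => ?_).elim
      · have := (ρ.lt_iff a⁻¹ _ _).2 h
        rwa [ρ.inv_act] at this
      · obtain ⟨n, hn⟩ := hcof g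
        exact ⟨-n, by simpa using hn⟩

theorem main (G : Type) [Group G] [LinearOrder G] [Group.IsSolvable G]
    (hord : ∀ a b c : G, a ≤ b → a * c ≤ b * c) [Finite (Abelianization G)] (g0 : G) :
    g0 = 1 := by
  classical
  obtain ⟨d, hd⟩ := Group.IsSolvable.solvable (G := G)
  have hsurj : Function.Surjective (Abelianization.of : G → Abelianization G) :=
    QuotientGroup.mk_surjective
  choose sec hsec using hsurj
  let K : Set G := Set.range sec
  have hKf : K.Finite := Set.finite_range sec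
  have hK : Subgroup.normalClosure K = ⊤ := by
    by_contra hne
    have : Nontrivial (G ⧸ Subgroup.normalClosure K) :=
      QuotientGroup.nontrivial_iff.2 hne
    have h1 := IsSolvable.commutator_lt_top_of_nontrivial (G ⧸ Subgroup.normalClosure K)
    apply h1.ne
    rw [eq_top_iff]
    intro q _
    obtain ⟨g, rfl⟩ := QuotientGroup.mk_surjective q
    have h2 : g * (sec (Abelianization.of g))⁻¹ ∈ commutator G := by
      rw [← Abelianization.ker_of, MonoidHom.mem_ker, map_mul, map_inv, hsec, mul_inv_cancel]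
    have h3 := Subgroup.mem_map_of_mem (QuotientGroup.mk' (Subgroup.normalClosure K)) h2
    have h4 : (QuotientGroup.mk' (Subgroup.normalClosure K)) (sec (Abelianization.of g)) = 1 :=
      (QuotientGroup.eq_one_iff _).2 (Subgroup.subset_normalClosure ⟨_, rfl⟩)
    rw [map_mul, map_inv, h4, inv_one, mul_one, commutator_def, Subgroup.map_commutator] at h3
    exact Subgroup.commutator_mono le_top le_top h3
  have hT : ∀ g ∈ commutator G, ∃ T : Set G, T.Finite ∧
      g ∈ ⁅Subgroup.closure T, Subgroup.closure T⁆ := by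
    intro g hg
    rw [commutator_def, Subgroup.commutator_def] at hg
    induction hg using Subgroup.closure_induction with
    | mem z hz =>
      obtain ⟨x, _, y, _, rfl⟩ := hz
      exact ⟨{x, y}, Set.toFinite _, Subgroup.commutator_mem_commutator
        (Subgroup.subset_closure (by simp)) (Subgroup.subset_closure (by simp))⟩
    | one => exact ⟨∅, Set.finite_empty, one_mem _⟩
    | mul a b _ _ h2 h3 =>
      obtain ⟨Y, hY, ha⟩ := h2
      obtain ⟨Z, hZ, hb⟩ := h3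
      have m1 := Subgroup.closure_mono (Set.subset_union_left (s := Y) (t := Z))
      have m2 := Subgroup.closure_mono (Set.subset_union_right (s := Y) (t := Z))
      exact ⟨Y ∪ Z, hY.union hZ, mul_mem (Subgroup.commutator_mono m1 m1 ha)
        (Subgroup.commutator_mono m2 m2 hb)⟩
    | inv a _ h2 =>
      obtain ⟨Y, hY, ha⟩ := h2
      exact ⟨Y, hY, inv_mem ha⟩
  have hpow : ∀ g : G, g ^ Nat.card (Abelianization G) ∈ commutator G := by
    intro g
    rw [← Abelianization.ker_of, MonoidHom.mem_ker, map_pow, pow_card_eq_one']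
  choose T hT1 hT2 using fun g => hT _ (hpow g)
  obtain ⟨X, hX, h1X, hXK⟩ := star K hK d (⋃ k ∈ K, T k) (hKf.biUnion fun k _ => hT1 k)
  rw [hd, bot_sup_eq] at hXK
  set D := DX K X with hD
  let gens : Set G := {g | ∃ x ∈ X, ∃ k ∈ K, g = x * k * x⁻¹}
  have hgf : gens.Finite := by
    refine (hX.image2 (fun x k => x * k * x⁻¹) hKf).subset ?_
    rintro _ ⟨x, hx, k, hk, rfl⟩
    exact ⟨x, hx, k, hk, rfl⟩
  have hgf' : ((↑) ⁻¹' gens : Set D).Finite := hgf.preimage Subtype.val_injective.injOn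
  have hcl : Subgroup.closure ((hgf'.toFinset : Finset D) : Set D) = ⊤ := by
    rw [Set.Finite.coe_toFinset]
    exact Subgroup.closure_closure_coe_preimage
  have hhom : ∀ f : D → ℝ, (∀ x y, f (x * y) = f x + f y) → ∀ x, f x = 0 := by
    intro f hf
    let F : D →* Multiplicative ℝ := MonoidHom.mk' (fun x => Multiplicative.ofAdd (f x))
      (fun x y => by rw [hf]; rfl)
    have : (⊤ : Subgroup D) ≤ F.ker := by
      rw [← hcl, Subgroup.closure_le, Set.Finite.coe_toFinset]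
      rintro ⟨_, hm⟩ ⟨x, hx, k, hk, rfl⟩
      have a1 : x * k ^ Nat.card (Abelianization G) * x⁻¹ ∈ ⁅D, D⁆ := by
        have b1 := Subgroup.mem_map_of_mem (MulAut.conj x).toMonoidHom (hT2 k)
        rw [Subgroup.map_commutator] at b1
        have b2 : (Subgroup.closure (T k)).map (MulAut.conj x).toMonoidHom ≤ D := by
          rw [Subgroup.map_le_iff_le_comap, Subgroup.closure_le]
          intro t ht
          exact hXK x hx t (Set.mem_biUnion hk ht)
        exact Subgroup.commutator_mono b2 b2 b1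
      have a2 : (⟨x * k * x⁻¹, hm⟩ : D) ^ Nat.card (Abelianization G) ∈ commutator D := by
        have b3 : (commutator D).map D.subtype = ⁅D, D⁆ := by
          rw [commutator_def, Subgroup.map_commutator, ← MonoidHom.range_eq_map,
            Subgroup.range_subtype]
        rw [← b3, ← conj_pow] at a1
        obtain ⟨y, hy, e⟩ := a1
        have : y = (⟨x * k * x⁻¹, hm⟩ : D) ^ Nat.card (Abelianization G) := Subtype.ext e
        rwa [← this]
      have a3 := Abelianization.commutator_subset_ker F a2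
      rw [MonoidHom.mem_ker, map_pow] at a3
      have a4 := congrArg Multiplicative.toAdd a3
      have hpos : 0 < Nat.card (Abelianization G) := Nat.card_pos
      simp only [F, toAdd_pow, MonoidHom.mk'_apply, toAdd_ofAdd, toAdd_one, nsmul_eq_mul,
        mul_eq_zero, Nat.cast_eq_zero] at a4
      rcases a4 with a4 | a4
      · omega
      · show Multiplicative.ofAdd (f _) = 1
        rw [a4]; rfl
    intro x
    exact congrArg Multiplicative.toAdd (this (Subgroup.mem_top x))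
  let ρ : Act D G :=
    { act := fun g ω => ω * (g : G)⁻¹
      one := fun ω => by simp
      mul := fun g h ω => by simp [mul_assoc]
      mono := fun g a b h => hord a b _ h }
  have h5 := triv _ hcl hhom d G ρ (fun a ha ω => by
    have b1 := map_derivedSeries_le_derivedSeries D.subtype d (Subgroup.mem_map_of_mem _ ha)
    rw [hd, Subgroup.mem_bot] at b1
    show ω * (a : G)⁻¹ = ω
    have : (a : G) = 1 := b1
    rw [this]; simp)
  have h6 : Subgroup.normalClosure K ≤ ⊥ := by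
    apply Subgroup.normalClosure_le_normal
    intro k hk
    have hm : k ∈ D := Subgroup.subset_closure ⟨1, h1X, k, hk, by simp⟩
    have := h5 ⟨k, hm⟩ 1
    simpa [ρ] using this
  rw [hK] at h6
  exact h6 (Subgroup.mem_top g0)

end Pool.Agent.H25.RO
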