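import Mathlib

set_option autoImplicit false

namespace Pool.Agent.H25.Rev

open Module

section fd
variable {V V' : Type} [AddCommGroup V] [Module ℂ V] [AddCommGroup V'] [Module ℂ V']

lemma exists_calc [FiniteDimensional ℂ V] (T : End ℂ V) (χ : ℂ → ℂ) :
    ∃ s : V →ₗ[ℂ] V, ∀ μ, ∀ v ∈ T.maxGenEigenspace μ, s v = χ μ • v := by
  classical
  have hint : DirectSum.IsInternal (fun μ => T.maxGenEigenspace μ) :=
    DirectSum.isInternal_submodule_of_iSupIndep_of_iSup_eq_top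
      (End.independent_maxGenEigenspace T) (End.iSup_maxGenEigenspace_eq_top T)
  let e := LinearEquiv.ofBijective (DirectSum.coeLinearMap (fun μ => T.maxGenEigenspace μ)) hint
  refine ⟨(DirectSum.toModule ℂ ℂ V (fun μ => χ μ • (T.maxGenEigenspace μ).subtype)) ∘ₗ
    e.symm.toLinearMap, fun μ v hv => ?_⟩
  have : e.symm v = DirectSum.lof ℂ ℂ (fun μ => T.maxGenEigenspace μ) μ ⟨v, hv⟩ := by
    rw [LinearEquiv.symm_apply_eq]
    simp [e, DirectSum.lof_eq_of]
  rw [LinearMap.comp_apply, LinearEquiv.coe_coe, this, DirectSum.toModule_lof]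
  simp

lemma map_gen (T : End ℂ V) (T' : End ℂ V') (L : V →ₗ[ℂ] V') (ε : ℂ)
    (h : ∀ v, T' (L v) = ε • L (T v)) (μ : ℂ) (v : V) (hv : v ∈ T.maxGenEigenspace μ) :
    L v ∈ T'.maxGenEigenspace (ε * μ) := by
  rw [End.mem_maxGenEigenspace] at hv ⊢
  obtain ⟨k, hk⟩ := hv
  refine ⟨k, ?_⟩
  have key : ∀ k : ℕ, ∀ v, ((T' - (ε * μ) • (1 : End ℂ V')) ^ k) (L v) =
      ε ^ k • L (((T - μ • (1 : End ℂ V)) ^ k) v) := by
    intro k
    induction k with
    | zero => intro v; simp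
    | succ k ih =>
      intro v
      have h1 : (T' - (ε * μ) • (1 : End ℂ V')) (L v) = ε • L ((T - μ • (1 : End ℂ V)) v) := by
        simp [h, smul_sub, mul_smul]
      rw [pow_succ, End.mul_apply, h1, map_smul, ih, pow_succ (T - _), End.mul_apply, smul_smul,
        pow_succ']
  rw [key, hk, map_zero, smul_zero]

lemma ext_on (T : End ℂ V) (Γ : Set ℂ) (hW : ⨆ μ ∈ Γ, T.maxGenEigenspace μ = ⊤)
    (f g : V →ₗ[ℂ] V') (h : ∀ μ ∈ Γ, ∀ v ∈ T.maxGenEigenspace μ, f v = g v) : f = g := by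
  have : ⨆ μ ∈ Γ, T.maxGenEigenspace μ ≤ LinearMap.eqLocus f g :=
    iSup₂_le fun μ hμ v hv => h μ hμ v hv
  rw [hW] at this
  ext v
  exact this Submodule.mem_top

end fd

section alg
variable {V : Type} [CommRing V] [Algebra ℂ V]

lemma mul_gen (T : V →ₐ[ℂ] V) (μ ν : ℂ) (x y : V)
    (hx : x ∈ End.maxGenEigenspace T.toLinearMap μ)
    (hy : y ∈ End.maxGenEigenspace T.toLinearMap ν) :
    x * y ∈ End.maxGenEigenspace T.toLinearMap (μ * ν) := by
  rw [End.mem_maxGenEigenspace] at hx hy ⊢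
  obtain ⟨a, ha⟩ := hx
  obtain ⟨b, hb⟩ := hy
  refine ⟨a + b, ?_⟩
  set S : End ℂ V := T.toLinearMap with hS
  have key : ∀ d a b : ℕ, a + b = d → ∀ x y : V, ((S - μ • (1 : End ℂ V)) ^ a) x = 0 →
      ((S - ν • (1 : End ℂ V)) ^ b) y = 0 → ((S - (μ * ν) • (1 : End ℂ V)) ^ d) (x * y) = 0 := by
    intro d
    induction d with
    | zero =>
      intro a b hab x y hx _
      have : a = 0 := by omega
      subst this
      simp only [pow_zero, End.one_apply] at hx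
      simp [hx]
    | succ d ih =>
      intro a b hab x y hx hy
      rcases a with _ | a
      · simp only [pow_zero, End.one_apply] at hx
        simp [hx]
      rcases b with _ | b
      · simp only [pow_zero, End.one_apply] at hy
        simp [hy]
      have e : (S - (μ * ν) • (1 : End ℂ V)) (x * y) =
          (S - μ • (1 : End ℂ V)) x * S y + μ • (x * (S - ν • (1 : End ℂ V)) y) := by
        simp only [hS, LinearMap.sub_apply, LinearMap.smul_apply, End.one_apply,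
          AlgHom.toLinearMap_apply, map_mul]
        simp only [Algebra.smul_def, map_mul]
        ring
      have c : Commute ((S - ν • (1 : End ℂ V)) ^ (b + 1)) S :=
        Commute.pow_left (Commute.sub_left (Commute.refl S)
          (Commute.smul_left (Commute.one_left S) ν)) _
      rw [pow_succ, End.mul_apply, e, map_add, map_smul,
        ih a (b + 1) (by omega) _ _ (by rw [← End.mul_apply, ← pow_succ]; exact hx)
          (by rw [← End.mul_apply, c.eq, End.mul_apply, hy, map_zero]),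
        ih (a + 1) b (by omega) _ _ hx (by rw [← End.mul_apply, ← pow_succ]; exact hy)]
      simp
  exact key _ a b rfl x y ha hb

lemma one_gen (T : V →ₐ[ℂ] V) : (1 : V) ∈ End.maxGenEigenspace T.toLinearMap 1 := by
  rw [End.mem_maxGenEigenspace]
  exact ⟨1, by simp⟩

lemma exists_alg [FiniteDimensional ℂ V] (T : V →ₐ[ℂ] V) (Γ : Set ℂ) (χ : ℂ → ℂ)
    (hW : ⨆ μ ∈ Γ, End.maxGenEigenspace T.toLinearMap μ = ⊤)
    (h1 : χ 1 = 1) (hmul : ∀ μ ∈ Γ, ∀ ν ∈ Γ, χ (μ * ν) = χ μ * χ ν) :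
    ∃ s : V →ₐ[ℂ] V, ∀ μ, ∀ v ∈ End.maxGenEigenspace T.toLinearMap μ, s v = χ μ • v := by
  obtain ⟨s, hs⟩ := exists_calc T.toLinearMap χ
  have hm : ∀ x y, s (x * y) = s x * s y := by
    intro x y
    have h2 : ∀ μ ∈ Γ, ∀ x ∈ End.maxGenEigenspace T.toLinearMap μ, s (x * y) = s x * s y := by
      intro μ hμ x hx
      have := ext_on T.toLinearMap Γ hW (s ∘ₗ LinearMap.mulLeft ℂ x)
        (LinearMap.mulLeft ℂ (s x) ∘ₗ s) (fun ν hν y hy => by
          simp only [LinearMap.comp_apply, LinearMap.mulLeft_apply]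
          rw [hs _ _ (mul_gen T μ ν x y hx hy), hs _ _ hx, hs _ _ hy, hmul μ hμ ν hν]
          simp only [Algebra.smul_def, map_mul]; ring)
      exact DFunLike.congr_fun this y
    have := ext_on T.toLinearMap Γ hW (s ∘ₗ LinearMap.mulRight ℂ y)
      (LinearMap.mulRight ℂ (s y) ∘ₗ s) (fun μ hμ x hx => h2 μ hμ x hx)
    exact DFunLike.congr_fun this x
  refine ⟨AlgHom.ofLinearMap s (by rw [hs _ _ (one_gen T), h1, one_smul]) hm, hs⟩

end alg

lemma exists_char (S : Set ℂˣ) (hS : S.Finite) :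
    ∃ (Γ : Set ℂ) (χ : ℂ → ℂ) (N : ℕ), 1 ≤ N ∧ (∀ u ∈ S, (u : ℂ) ∈ Γ) ∧ (1 : ℂ) ∈ Γ ∧
      (∀ μ ∈ Γ, ∀ ν ∈ Γ, μ * ν ∈ Γ) ∧ χ 1 = 1 ∧ (∀ μ ∈ Γ, ∀ ν ∈ Γ, χ (μ * ν) = χ μ * χ ν) ∧
      (∀ μ ∈ Γ, χ (-1 * μ) = -χ μ) ∧ ∀ μ ∈ Γ, χ μ ^ N = 1 := by
  classical
  let H : Subgroup ℂˣ := Subgroup.closure (insert (-1) S)
  have hfg : H.FG := (Subgroup.fg_iff H).2 ⟨_, rfl, hS.insert _⟩
  have : Group.FG H := (Group.fg_iff_subgroup_fg H).2 hfg
  have : Module.Finite ℤ (Additive H) := Module.Finite.iff_addGroup_fg.2 inferInstance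
  let Tor := Submodule.torsion ℤ (Additive H)
  have : Module.Free ℤ (Additive H ⧸ Tor) := inferInstance
  obtain ⟨σ, hσ⟩ := Module.projective_lifting_property Tor.mkQ
    (LinearMap.id : (Additive H ⧸ Tor) →ₗ[ℤ] _) Tor.mkQ_surjective
  let p : Additive H →ₗ[ℤ] Additive H := LinearMap.id - σ ∘ₗ Tor.mkQ
  have hp1 : ∀ m, p m ∈ Tor := by
    intro m
    rw [← Submodule.ker_mkQ Tor, LinearMap.mem_ker]
    have := DFunLike.congr_fun hσ (Tor.mkQ m)
    simp only [LinearMap.comp_apply, LinearMap.id_apply] at this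
    simp only [p, LinearMap.sub_apply, LinearMap.id_apply, LinearMap.comp_apply, map_sub, this,
      sub_self]
  have hp2 : ∀ m ∈ Tor, p m = m := by
    intro m hm
    have : Tor.mkQ m = 0 := by simpa using hm
    simp only [p, LinearMap.sub_apply, LinearMap.id_apply, LinearMap.comp_apply, this, map_zero,
      sub_zero]
  have : Finite Tor := Module.finite_of_fg_torsion Tor (Submodule.torsion_isTorsion)
  let χ0 : H → ℂ := fun u => ((Additive.toMul (p (Additive.ofMul u)) : H) : ℂˣ)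
  let ι : H → ℂ := fun u => ((u : ℂˣ) : ℂ)
  have hι : Function.Injective ι := fun a b h => Subtype.ext (Units.ext h)
  have hχ : ∀ u, Function.extend ι χ0 0 (ι u) = χ0 u := fun u => hι.extend_apply _ _ u
  have hm : ∀ u v, χ0 (u * v) = χ0 u * χ0 v := by
    intro u v
    simp [χ0, ofMul_mul, map_add, toMul_add]
  let m1 : H := ⟨-1, Subgroup.subset_closure (Set.mem_insert _ _)⟩
  have hm1 : χ0 m1 = -1 := by
    have : Additive.ofMul m1 ∈ Tor := by
      refine ⟨⟨2, by simp⟩, ?_⟩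
      show (2 : ℤ) • Additive.ofMul m1 = 0
      rw [← ofMul_zpow]
      have : m1 ^ (2 : ℤ) = 1 := by
        ext; simp [m1]
      rw [this]; rfl
    simp [χ0, hp2 _ this, m1]
  refine ⟨Set.range ι, Function.extend ι χ0 0, Nat.card Tor, Nat.card_pos, ?_, ⟨1, rfl⟩, ?_, ?_,
    ?_, ?_, ?_⟩
  · intro u hu
    exact ⟨⟨u, Subgroup.subset_closure (Set.mem_insert_of_mem _ hu)⟩, rfl⟩
  · rintro _ ⟨u, rfl⟩ _ ⟨v, rfl⟩
    exact ⟨u * v, rfl⟩
  · have := hχ 1
    rw [show ι 1 = 1 from rfl] at this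
    rw [this]; simp [χ0]
  · rintro _ ⟨u, rfl⟩ _ ⟨v, rfl⟩
    rw [show ι u * ι v = ι (u * v) from rfl, hχ, hχ, hχ, hm]
  · rintro _ ⟨u, rfl⟩
    rw [show -1 * ι u = ι (m1 * u) by simp [ι, m1], hχ, hχ, hm, hm1]
    simp
  · rintro _ ⟨u, rfl⟩
    rw [hχ]
    have h1 : Nat.card Tor • (⟨_, hp1 (Additive.ofMul u)⟩ : Tor) = 0 := card_nsmul_eq_zero'
    have h2 : Nat.card Tor • p (Additive.ofMul u) = 0 := congrArg Subtype.val h1
    have h3 : (Additive.toMul (p (Additive.ofMul u))) ^ Nat.card Tor = 1 := by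
      rw [← toMul_nsmul, h2]; rfl
    simp only [χ0]
    rw [← Units.val_pow_eq_pow_val, ← Subgroup.coe_pow, h3]
    rfl

end Pool.Agent.H25.Rev
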