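import Pool.Agent.H25.Rev1

set_option autoImplicit false

namespace Pool.Agent.H25.Rev

open Module MvPowerSeries

abbrev RR (n : ℕ) : Type := MvPowerSeries (Fin n) ℂ

variable {n : ℕ}

def II (n k : ℕ) : Ideal (RR n) where
  carrier := {f | (k : ℕ∞) ≤ f.order}
  zero_mem' := by simp
  add_mem' := fun {a b} ha hb => le_trans (le_min ha hb) min_order_le_add
  smul_mem' := fun c x hx => by
    have h1 : (k : ℕ∞) ≤ x.order := hx
    show (k : ℕ∞) ≤ (c * x).order
    exact le_trans (le_trans h1 le_add_self) le_order_mul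

lemma mem_II {k : ℕ} {f : RR n} : f ∈ II n k ↔ ∀ d, Finsupp.degree d < k → coeff d f = 0 := by
  constructor
  · intro h d hd
    have h1 : (k : ℕ∞) ≤ f.order := h
    exact coeff_of_lt_order (lt_of_lt_of_le (by exact_mod_cast hd) h1)
  · intro h
    exact nat_le_order h

lemma II_mul {k l : ℕ} {f g : RR n} (hf : f ∈ II n k) (hg : g ∈ II n l) :
    f * g ∈ II n (k + l) := by
  have h1 : (k : ℕ∞) ≤ f.order := hf
  have h2 : (l : ℕ∞) ≤ g.order := hg
  show ((k + l : ℕ) : ℕ∞) ≤ (f * g).order
  rw [Nat.cast_add]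
  exact le_trans (add_le_add h1 h2) le_order_mul

lemma II_mono {k l : ℕ} (h : k ≤ l) : II n l ≤ II n k := fun _ hf =>
  mem_II.2 fun d hd => mem_II.1 hf d (lt_of_lt_of_le hd h)

lemma II_zero (f : RR n) : f ∈ II n 0 := mem_II.2 fun _ hd => absurd hd (Nat.not_lt_zero _)

lemma II_one {f : RR n} (h : f 0 = 0) : f ∈ II n 1 := mem_II.2 fun d hd => by
  have : d = 0 := (Finsupp.degree_eq_zero_iff d).1 (by omega)
  subst this
  exact h

lemma II_sep {f g : RR n} (h : ∀ k, f - g ∈ II n k) : f = g := by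
  ext d
  have := mem_II.1 (h (Finsupp.degree d + 1)) d (Nat.lt_succ_self _)
  rw [map_sub, sub_eq_zero] at this
  exact this

lemma X_mem (i : Fin n) : (X i : RR n) ∈ II n 1 :=
  II_one (by change coeff 0 (X i : RR n) = 0; simp)

lemma hs {a : Fin n → RR n} (ha : ∀ i, a i 0 = 0) : HasSubst a :=
  hasSubst_of_constantCoeff_zero ha

noncomputable def sb (a : Fin n → RR n) (ha : ∀ i, a i 0 = 0) : RR n →ₐ[ℂ] RR n :=
  substAlgHom (hs ha)

lemma sb_apply (a : Fin n → RR n) (ha : ∀ i, a i 0 = 0) (f : RR n) : sb a ha f = subst a f :=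
  substAlgHom_apply _ _

lemma sb_X (a : Fin n → RR n) (ha : ∀ i, a i 0 = 0) (i : Fin n) : sb a ha (X i) = a i :=
  substAlgHom_X _ _

lemma sb_mem (a : Fin n → RR n) (ha : ∀ i, a i 0 = 0) (k : ℕ) (f : RR n) (hf : f ∈ II n k) :
    sb a ha f ∈ II n k := by
  have h1 : (k : ℕ∞) ≤ f.order := hf
  show (k : ℕ∞) ≤ (sb a ha f).order
  rw [sb_apply]
  refine le_trans ?_ (le_order_subst (hs ha) f)
  have : (1 : ℕ∞) ≤ ⨅ i, (a i).order := le_iInf fun i => II_one (ha i)
  calc (k : ℕ∞) ≤ 1 * f.order := by rw [one_mul]; exact h1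
    _ ≤ _ := mul_le_mul_left this _

lemma trunc_mem (k : ℕ) (f : RR n) :
    f - ∑ d ∈ (Finsupp.finite_of_degree_lt (σ := Fin n) k).toFinset,
      coeff d f • (monomial d (1 : ℂ) : RR n) ∈ II n k := by
  classical
  refine mem_II.2 fun e he => ?_
  rw [map_sub, map_sum, Finset.sum_eq_single e]
  · simp
  · intro d _ hd
    simp [coeff_monomial, Ne.symm hd]
  · intro h
    exact absurd (by simpa using he) h

lemma layer_mem (k : ℕ) (f : RR n) (hf : f ∈ II n k) :
    f - ∑ d ∈ (Finsupp.finite_of_degree_lt (σ := Fin n) (k + 1)).toFinset with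
      Finsupp.degree d = k, coeff d f • (monomial d (1 : ℂ) : RR n) ∈ II n (k + 1) := by
  have := trunc_mem (k + 1) f
  rwa [← Finset.sum_filter_of_ne (p := fun d => Finsupp.degree d = k)] at this
  intro d hd hne
  by_contra h
  have h1 : Finsupp.degree d < k + 1 := by simpa using hd
  exact hne (by rw [mem_II.1 hf d (by omega), zero_smul])

lemma mono_ind (P : (Fin n →₀ ℕ) → Prop) (h0 : P 0)
    (h1 : ∀ d i, P d → P (d + Finsupp.single i 1)) (d : Fin n →₀ ℕ) : P d := by
  induction d using Finsupp.induction₂ with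
  | zero => exact h0
  | add_single a b f _ _ hf =>
    have : ∀ c : ℕ, P (f + Finsupp.single a c) := by
      intro c
      induction c with
      | zero => simpa using hf
      | succ c ih =>
        rw [Finsupp.single_add, ← add_assoc]
        exact h1 _ _ ih
    exact this b

lemma mono_succ (d : Fin n →₀ ℕ) (i : Fin n) :
    (monomial (d + Finsupp.single i 1) (1 : ℂ) : RR n) = monomial d 1 * X i := by
  rw [X, monomial_mul_monomial, mul_one]

lemma hom_ext {V : Type} [CommRing V] [Algebra ℂ V] (k : ℕ) (α β : RR n →ₐ[ℂ] V)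
    (hα : ∀ f ∈ II n k, α f = 0) (hβ : ∀ f ∈ II n k, β f = 0) (h : ∀ i, α (X i) = β (X i)) :
    α = β := by
  have hm : ∀ d, α (monomial d 1) = β (monomial d 1) := by
    refine mono_ind _ ?_ ?_
    · rw [monomial_zero_one, map_one, map_one]
    · intro d i hd
      rw [mono_succ, map_mul, map_mul, hd, h]
  ext f
  have h1 := hα _ (trunc_mem k f)
  have h2 := hβ _ (trunc_mem k f)
  rw [map_sub, sub_eq_zero, map_sum] at h1 h2
  rw [h1, h2]
  simp only [map_smul, hm]

abbrev VV (n k : ℕ) : Type := RR n ⧸ II n k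

noncomputable def pr (n k : ℕ) : RR n →ₐ[ℂ] VV n k := Ideal.Quotient.mkₐ ℂ (II n k)

lemma pr_surj (k : ℕ) : Function.Surjective (pr n k) := Ideal.Quotient.mkₐ_surjective ℂ _

lemma pr_eq_zero {k : ℕ} {f : RR n} : pr n k f = 0 ↔ f ∈ II n k := Ideal.Quotient.eq_zero_iff_mem

lemma pr_eq {k : ℕ} {f g : RR n} : pr n k f = pr n k g ↔ f - g ∈ II n k := Ideal.Quotient.eq

instance (k : ℕ) : FiniteDimensional ℂ (VV n k) := by
  classical
  refine ⟨⟨(Finsupp.finite_of_degree_lt (σ := Fin n) k).toFinset.image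
    (fun d => pr n k (monomial d 1)), ?_⟩⟩
  rw [eq_top_iff]
  intro v _
  obtain ⟨f, rfl⟩ := pr_surj k v
  rw [pr_eq.2 (trunc_mem k f), map_sum]
  refine Submodule.sum_mem _ fun d hd => ?_
  rw [map_smul]
  refine Submodule.smul_mem _ _ (Submodule.subset_span ?_)
  simp only [Finset.coe_image, Set.mem_image, Finset.mem_coe]
  exact ⟨d, hd, rfl⟩

noncomputable def sq (a : Fin n → RR n) (ha : ∀ i, a i 0 = 0) (k : ℕ) : VV n k →ₐ[ℂ] VV n k :=
  Ideal.quotientMapₐ (II n k) (sb a ha) (fun f hf => sb_mem a ha k f hf)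

lemma sq_pr (a : Fin n → RR n) (ha : ∀ i, a i 0 = 0) (k : ℕ) (f : RR n) :
    sq a ha k (pr n k f) = pr n k (sb a ha f) := rfl

noncomputable def fac (n : ℕ) {k l : ℕ} (h : k ≤ l) : VV n l →ₐ[ℂ] VV n k :=
  Ideal.Quotient.factorₐ ℂ (II_mono h)

lemma fac_pr {k l : ℕ} (h : k ≤ l) (f : RR n) : fac n h (pr n l f) = pr n k f := rfl

lemma span_top (H : Fin n → RR n) (hH : ∀ i, H i 0 = 0) (Γ : Set ℂ) (h1 : (1 : ℂ) ∈ Γ)
    (hmul : ∀ μ ∈ Γ, ∀ ν ∈ Γ, μ * ν ∈ Γ)
    (hev : ∀ μ, End.HasEigenvalue (sq H hH 2).toLinearMap μ → μ ∈ Γ) (k : ℕ) :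
    ⨆ μ ∈ Γ, End.maxGenEigenspace (sq H hH k).toLinearMap μ = ⊤ := by
  have main : ∀ k, 2 ≤ k → ⨆ μ ∈ Γ, End.maxGenEigenspace (sq H hH k).toLinearMap μ = ⊤ := by
    intro k hk
    set W := ⨆ μ ∈ Γ, End.maxGenEigenspace (sq H hH k).toLinearMap μ with hW
    have hle : ∀ μ ∈ Γ, End.maxGenEigenspace (sq H hH k).toLinearMap μ ≤ W := fun μ hμ =>
      le_iSup₂ (f := fun μ (_ : μ ∈ Γ) => End.maxGenEigenspace (sq H hH k).toLinearMap μ) μ hμ
    have Wmul : ∀ x ∈ W, ∀ y ∈ W, x * y ∈ W := by
      intro x hx y hy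
      have a1 : ∀ μ ∈ Γ, ∀ x ∈ End.maxGenEigenspace (sq H hH k).toLinearMap μ, x * y ∈ W := by
        intro μ hμ x hx
        have : W ≤ W.comap (LinearMap.mulLeft ℂ x) :=
          iSup₂_le fun ν hν y hy => hle _ (hmul μ hμ ν hν) (mul_gen _ μ ν x y hx hy)
        exact this hy
      have : W ≤ W.comap (LinearMap.mulRight ℂ y) := iSup₂_le fun μ hμ x hx => a1 μ hμ x hx
      exact this hx
    have W2 : W ⊔ LinearMap.ker (fac n hk).toLinearMap = ⊤ := by
      rw [eq_top_iff, ← End.iSup_maxGenEigenspace_eq_top (sq H hH k).toLinearMap]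
      refine iSup_le fun μ => ?_
      by_cases hμ : μ ∈ Γ
      · exact le_trans (hle μ hμ) le_sup_left
      · refine le_trans (fun v hv => ?_) le_sup_right
        have h2 := map_gen (sq H hH k).toLinearMap (sq H hH 2).toLinearMap (fac n hk).toLinearMap 1
          (fun v => by
            obtain ⟨f, rfl⟩ := pr_surj k v
            rw [one_smul]; rfl) μ v hv
        rw [one_mul] at h2
        by_contra hne
        apply hμ
        apply hev
        rw [End.mem_maxGenEigenspace] at h2
        obtain ⟨j, hj⟩ := h2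
        apply End.hasEigenvalue_of_hasGenEigenvalue (k := j)
        rw [End.HasGenEigenvalue, End.HasUnifEigenvalue, Submodule.ne_bot_iff]
        exact ⟨_, End.mem_genEigenspace_nat.2 hj, hne⟩
    have hX : ∀ i, ∃ y : RR n, pr n k y ∈ W ∧ X i - y ∈ II n 2 := by
      intro i
      have : pr n k (X i) ∈ W ⊔ LinearMap.ker (fac n hk).toLinearMap := by
        rw [W2]; exact Submodule.mem_top
      obtain ⟨w, hw, z, hz, e⟩ := Submodule.mem_sup.1 this
      obtain ⟨y, rfl⟩ := pr_surj k w
      refine ⟨y, hw, ?_⟩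
      rw [← pr_eq_zero, ← fac_pr hk, map_sub, ← e, add_sub_cancel_left]
      exact hz
    choose y hy1 hy2 using hX
    have hy3 : ∀ i, y i ∈ II n 1 := by
      intro i
      have := sub_mem (X_mem i) (II_mono (by norm_num : 1 ≤ 2) (hy2 i))
      simpa using this
    have hm : ∀ d : Fin n →₀ ℕ, ∃ w : RR n, pr n k w ∈ W ∧ w ∈ II n (Finsupp.degree d) ∧
        monomial d 1 - w ∈ II n (Finsupp.degree d + 1) := by
      refine mono_ind _ ?_ ?_
      · refine ⟨1, ?_, ?_, ?_⟩
        · rw [map_one]; exact hle 1 h1 (one_gen _)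
        · rw [map_zero]; exact II_zero _
        · rw [monomial_zero_one, sub_self]; exact zero_mem _
      · rintro d i ⟨w, w1, w2, w3⟩
        have hd : Finsupp.degree (d + Finsupp.single i 1) = Finsupp.degree d + 1 := by simp
        refine ⟨w * y i, ?_, ?_, ?_⟩
        · rw [map_mul]; exact Wmul _ w1 _ (hy1 i)
        · rw [hd]; exact II_mul w2 (hy3 i)
        · rw [hd, mono_succ]
          have t0 := II_mul w2 (hy2 i)
          have := add_mem (II_mul w3 (X_mem i)) t0
          convert this using 1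
          ring
    choose w w1 w2 w3 using hm
    have hdesc : ∀ j, j ≤ k → ∀ f ∈ II n (k - j), pr n k f ∈ W := by
      intro j
      induction j with
      | zero => intro _ f hf; rw [pr_eq_zero.2 (by simpa using hf)]; exact zero_mem _
      | succ j ih =>
        intro hj f hf
        have h3 := layer_mem _ f hf
        set D := (Finsupp.finite_of_degree_lt (σ := Fin n) (k - (j + 1) + 1)).toFinset.filter
          (fun d => Finsupp.degree d = k - (j + 1)) with hD
        have h4 : ∑ d ∈ D, coeff d f • (monomial d (1 : ℂ) - w d) ∈ II n (k - (j + 1) + 1) := by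
          refine sum_mem fun d hd => ?_
          have : Finsupp.degree d = k - (j + 1) := (Finset.mem_filter.1 hd).2
          rw [← this, Algebra.smul_def]
          exact Ideal.mul_mem_left _ _ (w3 d)
        have h5 := add_mem h3 h4
        rw [show k - (j + 1) + 1 = k - j by omega] at h5
        have h6 := ih (by omega) _ h5
        have h7 : pr n k (∑ d ∈ D, coeff d f • w d) ∈ W := by
          rw [map_sum]
          exact Submodule.sum_mem _ fun d _ => by
            rw [map_smul]; exact Submodule.smul_mem _ _ (w1 d)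
        have h8 := add_mem h6 h7
        rw [← map_add] at h8
        convert h8 using 2
        simp only [smul_sub, Finset.sum_sub_distrib]
        abel
    rw [eq_top_iff]
    intro v _
    obtain ⟨f, rfl⟩ := pr_surj k v
    exact hdesc k le_rfl f (by rw [Nat.sub_self]; exact II_zero f)
  have hk : k ≤ k + 2 := by omega
  rw [eq_top_iff]
  intro v _
  obtain ⟨f, rfl⟩ := pr_surj k v
  have : ⨆ μ ∈ Γ, End.maxGenEigenspace (sq H hH (k + 2)).toLinearMap μ ≤
      (⨆ μ ∈ Γ, End.maxGenEigenspace (sq H hH k).toLinearMap μ).comap (fac n hk).toLinearMap := by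
    refine iSup₂_le fun μ hμ v hv => ?_
    have h2 := map_gen (sq H hH (k + 2)).toLinearMap (sq H hH k).toLinearMap
      (fac n hk).toLinearMap 1 (fun v => by
        obtain ⟨f, rfl⟩ := pr_surj (k + 2) v
        rw [one_smul]; rfl) μ v hv
    rw [one_mul] at h2
    exact le_iSup₂ (f := fun μ (_ : μ ∈ Γ) => End.maxGenEigenspace (sq H hH k).toLinearMap μ)
      μ hμ h2
  rw [main (k + 2) (by omega)] at this
  exact this (Submodule.mem_top (x := pr n (k + 2) f))

lemma sb_sb (a b : Fin n → RR n) (ha : ∀ i, a i 0 = 0) (hb : ∀ i, b i 0 = 0) (f : RR n) :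
    sb a ha (sb b hb f) = subst (fun j => subst a (b j)) f := by
  rw [sb_apply, sb_apply, subst_comp_subst_apply (hs hb) (hs ha)]

lemma II_one' {f : RR n} (h : f ∈ II n 1) : f 0 = 0 := mem_II.1 h 0 (by simp)

theorem main (F H G G' : Fin n → RR n) (hF : ∀ i, F i 0 = 0) (hG : ∀ i, G i 0 = 0)
    (hGF : ∀ i, subst G (F i) = X i) (hFG : ∀ i, subst F (G i) = X i)
    (hH : ∀ i, H i 0 = 0) (hG' : ∀ i, G' i 0 = 0) (hG'H : ∀ i, subst G' (H i) = X i)
    (hrev : ∀ i, subst (fun j => subst F (H j)) (F i) = H i) :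
    ∃ K : Fin n → RR n, (∀ i, K i 0 = 0) ∧
      (∃ k : ℕ, 1 ≤ k ∧
        (fun M : Fin n → RR n => fun i => subst M (K i))^[k] (fun i => X i) = (fun i => X i)) ∧
      (∀ i, subst (fun j => subst F (K j)) (F i) = K i) := by
  have inv1 : ∀ (a b : Fin n → RR n) (ha : ∀ i, a i 0 = 0) (hb : ∀ i, b i 0 = 0),
      (∀ i, subst a (b i) = X i) → ∀ k v, sq a ha k (sq b hb k v) = v := by
    intro a b ha hb h k v
    obtain ⟨f, rfl⟩ := pr_surj k v
    rw [sq_pr, sq_pr, sb_sb]
    have : (fun j => subst a (b j)) = X := funext h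
    rw [this, subst_self]; rfl
  have rev : ∀ k v, sq F hF k (sq H hH k (sq F hF k v)) = sq H hH k v := by
    intro k v
    obtain ⟨f, rfl⟩ := pr_surj k v
    have := hom_ext k (((sq F hF k).comp ((sq H hH k).comp (sq F hF k))).comp (pr n k))
      ((sq H hH k).comp (pr n k))
      (fun f hf => by simp [pr_eq_zero.2 hf]) (fun f hf => by simp [pr_eq_zero.2 hf])
      (fun i => by
        simp only [AlgHom.comp_apply, sq_pr, sb_X]
        rw [sb_sb, hrev])
    exact DFunLike.congr_fun this f
  have r1 : ∀ k v, sq H hH k (sq F hF k v) = sq G hG k (sq H hH k v) := by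
    intro k v
    rw [← rev k v, inv1 G F hG hF hGF]
  have r2 : ∀ k v, sq H hH k (sq G hG k v) = sq F hF k (sq H hH k v) := by
    intro k v
    rw [← rev k (sq G hG k v), inv1 F G hF hG hFG]
  have hfin : {u : ℂˣ | End.HasEigenvalue (sq H hH 2).toLinearMap (u : ℂ)}.Finite :=
    Set.Finite.preimage (f := fun u : ℂˣ => (u : ℂ)) (Units.val_injective.injOn)
      (End.finite_hasEigenvalue (sq H hH 2).toLinearMap)
  obtain ⟨Γ, χ, N, hN, c1, c2, c3, c4, c5, c6, c7⟩ := exists_char _ hfin
  have hev : ∀ μ, End.HasEigenvalue (sq H hH 2).toLinearMap μ → μ ∈ Γ := by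
    intro μ hμ
    have h0 : μ ≠ 0 := by
      rintro rfl
      obtain ⟨v, hv⟩ := hμ.exists_hasEigenvector
      have h1 := hv.apply_eq_smul
      have h2 := inv1 G' H hG' hH hG'H 2 v
      rw [zero_smul, AlgHom.toLinearMap_apply] at h1
      rw [h1, map_zero] at h2
      exact hv.2 h2.symm
    exact c1 (Units.mk0 μ h0) hμ
  have hW := span_top H hH Γ c2 c3 hev
  choose s hs' using fun k => exists_alg (sq H hH k) Γ χ (hW k) c4 c5
  have compat : ∀ k l (h : k ≤ l) v, fac n h (s l v) = s k (fac n h v) := by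
    intro k l h v
    have := ext_on (sq H hH l).toLinearMap Γ (hW l)
      ((fac n h).toLinearMap ∘ₗ (s l).toLinearMap) ((s k).toLinearMap ∘ₗ (fac n h).toLinearMap)
      (fun μ _ v hv => by
        have h2 := map_gen (sq H hH l).toLinearMap (sq H hH k).toLinearMap
          (fac n h).toLinearMap 1 (fun v => by
            obtain ⟨f, rfl⟩ := pr_surj l v
            rw [one_smul]; rfl) μ v hv
        rw [one_mul] at h2
        simp only [LinearMap.comp_apply, AlgHom.toLinearMap_apply] at h2 ⊢
        rw [hs' l μ v hv, hs' k μ _ h2, map_smul])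
    exact DFunLike.congr_fun this v
  have srev : ∀ k v, sq F hF k (s k (sq F hF k v)) = s k v := by
    intro k v
    have e := ext_on (sq H hH k).toLinearMap Γ (hW k)
      ((s k).toLinearMap ∘ₗ (sq F hF k).toLinearMap) ((sq G hG k).toLinearMap ∘ₗ (s k).toLinearMap)
      (fun μ hμ v hv => by
        have h2 := map_gen (sq H hH k).toLinearMap (sq H hH k).toLinearMap
          ((sq F hF k).toLinearMap + (sq G hG k).toLinearMap) 1 (fun v => by
            simp [r1, r2, add_comm]) μ v hv
        have h3 := map_gen (sq H hH k).toLinearMap (sq H hH k).toLinearMap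
          ((sq F hF k).toLinearMap - (sq G hG k).toLinearMap) (-1) (fun v => by
            simp [r1, r2]) μ v hv
        rw [one_mul] at h2
        have h4 := hs' k _ _ h2
        have h5 := hs' k _ _ h3
        rw [c6 μ hμ] at h5
        simp only [LinearMap.comp_apply, AlgHom.toLinearMap_apply, LinearMap.add_apply,
          LinearMap.sub_apply, map_add, map_sub] at h4 h5 ⊢
        rw [hs' k μ v hv, map_smul]
        have h6 : (2 : ℂ) • s k (sq F hF k v) = (2 : ℂ) • (χ μ • sq G hG k v) := by
          linear_combination (norm := module) h4 + h5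
        exact smul_right_injective _ two_ne_zero h6)
    have e2 := DFunLike.congr_fun e v
    simp only [LinearMap.comp_apply, AlgHom.toLinearMap_apply] at e2
    rw [e2, inv1 F G hF hG hFG]
  have sord : ∀ k v, (s k)^[N] v = v := by
    intro k v
    have e := ext_on (sq H hH k).toLinearMap Γ (hW k) ((s k).toLinearMap ^ N : End ℂ _)
      LinearMap.id (fun μ hμ v hv => by
        have : ∀ j : ℕ, ((s k).toLinearMap ^ j : End ℂ _) v = χ μ ^ j • v := by
          intro j
          induction j with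
          | zero => simp
          | succ j ih =>
            rw [pow_succ', End.mul_apply, ih, map_smul, AlgHom.toLinearMap_apply, hs' k μ v hv,
              smul_smul, pow_succ]
        rw [this, c7 μ hμ, one_smul]; rfl)
    have e2 := DFunLike.congr_fun e v
    rw [End.pow_apply] at e2
    exact e2
  choose g hg using fun k i => pr_surj k (s k (pr n k (X i)))
  let K : Fin n → RR n := fun i d => coeff d (g (Finsupp.degree d + 1) i)
  have hK : ∀ k i, pr n k (K i) = s k (pr n k (X i)) := by
    intro k i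
    rw [← hg, pr_eq]
    refine mem_II.2 fun d hd => ?_
    have h1 : Finsupp.degree d + 1 ≤ k := hd
    have h2 : pr n (Finsupp.degree d + 1) (g (Finsupp.degree d + 1) i) =
        pr n (Finsupp.degree d + 1) (g k i) := by
      rw [hg, ← fac_pr h1 (g k i), hg, compat, fac_pr]
    have h3 := mem_II.1 (pr_eq.1 h2) d (Nat.lt_succ_self _)
    rw [map_sub] at h3 ⊢
    exact h3
  have hK0 : ∀ i, K i 0 = 0 := by
    intro i
    apply II_one'
    rw [← pr_eq_zero, hK, pr_eq_zero.2 (X_mem i), map_zero]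
  have hKs : ∀ k f, pr n k (sb K hK0 f) = s k (pr n k f) := by
    intro k f
    have := hom_ext k ((pr n k).comp (sb K hK0)) ((s k).comp (pr n k))
      (fun f hf => pr_eq_zero.2 (sb_mem K hK0 k f hf))
      (fun f hf => by simp [pr_eq_zero.2 hf])
      (fun i => by simp only [AlgHom.comp_apply, sb_X, hK])
    exact DFunLike.congr_fun this f
  refine ⟨K, hK0, ⟨N, hN, ?_⟩, ?_⟩
  · have key : ∀ j : ℕ, (∀ i, ((fun M : Fin n → RR n => fun i => subst M (K i))^[j]
        (fun i => X i)) i 0 = 0) ∧ ∀ k i, pr n k (((fun M : Fin n → RR n => fun i => subst M (K i))^[j]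
        (fun i => X i)) i) = (s k)^[j] (pr n k (X i)) := by
      intro j
      induction j with
      | zero => exact ⟨fun i => II_one' (X_mem i), fun k i => rfl⟩
      | succ j ih =>
        obtain ⟨i1, i2⟩ := ih
        rw [Function.iterate_succ_apply']
        generalize (fun M : Fin n → RR n => fun i => subst M (K i))^[j] (fun i => X i) = M at i1 i2
        refine ⟨fun i => II_one' ?_, fun k i => ?_⟩
        · have := sb_mem M i1 1 (K i) (II_one (hK0 i))
          rwa [sb_apply] at this
        · have e := hom_ext k ((pr n k).comp (sb M i1)) (((s k) ^ j).comp (pr n k))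
            (fun f hf => pr_eq_zero.2 (sb_mem M i1 k f hf))
            (fun f hf => by simp [pr_eq_zero.2 hf])
            (fun i => by
              simp only [AlgHom.comp_apply, sb_X, i2, AlgHom.coe_pow])
          have e2 := DFunLike.congr_fun e (K i)
          simp only [AlgHom.comp_apply, AlgHom.coe_pow, sb_apply] at e2
          show pr n k (subst M (K i)) = _
          rw [e2, hK, Function.iterate_succ_apply]
    funext i
    apply II_sep
    intro k
    rw [← pr_eq, (key N).2, sord]
  · intro i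
    apply II_sep
    intro k
    rw [← pr_eq, ← sb_sb F K hF hK0, ← sq_pr, hKs, hK, ← srev k (pr n k (X i)), sq_pr, sb_X]

end Pool.Agent.H25.Rev
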