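import Mathlib

/-! Noncommutative formal power series in two letters (`false`, `true`). -/

namespace Pool.Agent.H25.Split

open Finset Filter Topology

/-- coefficient functions on words -/
def Ser : Type := List Bool → ℂ

noncomputable instance : AddCommGroup Ser := inferInstanceAs (AddCommGroup (List Bool → ℂ))
noncomputable instance : TopologicalSpace Ser :=
  inferInstanceAs (TopologicalSpace (List Bool → ℂ))
noncomputable instance : Module ℂ Ser := inferInstanceAs (Module ℂ (List Bool → ℂ))

noncomputable def conv (f g : Ser) : Ser :=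
  fun w => ∑ i ∈ range (w.length + 1), f (w.take i) * g (w.drop i)

def der (l : Bool) (f : Ser) : Ser := fun w => f (l :: w)

noncomputable def unit : Ser := fun w => if w = [] then 1 else 0

theorem add_ap (f g : Ser) (w : List Bool) : (f + g) w = f w + g w := rfl
theorem zero_ap (w : List Bool) : (0 : Ser) w = 0 := rfl
theorem smul_ap (c : ℂ) (f : Ser) (w : List Bool) : (c • f) w = c * f w := rfl
theorem sub_ap (f g : Ser) (w : List Bool) : (f - g) w = f w - g w := rfl

theorem ext' {f g : Ser} (h : ∀ w, f w = g w) : f = g := funext h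

theorem conv_nil (f g : Ser) : conv f g [] = f [] * g [] := by simp [conv]

theorem conv_cons (f g : Ser) (l : Bool) (w : List Bool) :
    conv f g (l :: w) = f [] * g (l :: w) + conv (der l f) g w := by
  unfold conv der
  rw [List.length_cons, Finset.sum_range_succ']
  simp [add_comm]

theorem conv_add (f g h : Ser) : conv f (g + h) = conv f g + conv f h := by
  refine ext' fun w => ?_
  simp [conv, add_ap, mul_add, Finset.sum_add_distrib]

theorem add_conv (f g h : Ser) : conv (f + g) h = conv f h + conv g h := by
  refine ext' fun w => ?_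
  simp [conv, add_ap, add_mul, Finset.sum_add_distrib]

theorem smul_conv (c : ℂ) (f g : Ser) : conv (c • f) g = c • conv f g := by
  refine ext' fun w => ?_
  simp [conv, smul_ap, Finset.mul_sum, mul_assoc]

theorem zero_conv (f : Ser) : conv 0 f = 0 := by
  refine ext' fun w => ?_
  simp [conv, zero_ap]

theorem conv_zero (f : Ser) : conv f 0 = 0 := by
  refine ext' fun w => ?_
  simp [conv, zero_ap]

theorem der_conv (l : Bool) (f g : Ser) :
    der l (conv f g) = f [] • der l g + conv (der l f) g := by
  refine ext' fun w => ?_
  rw [add_ap, smul_ap]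
  exact conv_cons f g l w

theorem conv_assoc (f g h : Ser) : conv (conv f g) h = conv f (conv g h) := by
  refine ext' fun w => ?_
  induction w generalizing f with
  | nil => simp [conv_nil, mul_assoc]
  | cons l w ih =>
    rw [conv_cons, conv_cons, conv_cons, der_conv, add_conv, smul_conv, add_ap, smul_ap, ih,
      conv_nil]
    ring

theorem der_unit (l : Bool) : der l unit = 0 := by
  refine ext' fun w => ?_
  simp [der, unit, zero_ap]

theorem unit_conv (f : Ser) : conv unit f = f := by
  refine ext' fun w => ?_
  cases w with
  | nil => simp [conv_nil, unit]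
  | cons l w => rw [conv_cons, der_unit, zero_conv]; simp [unit, zero_ap]

theorem conv_unit (f : Ser) : conv f unit = f := by
  refine ext' fun w => ?_
  induction w generalizing f with
  | nil => simp [conv_nil, unit]
  | cons l w ih => rw [conv_cons, ih]; simp [unit, der]

noncomputable instance : Ring Ser where
  __ := (inferInstance : AddCommGroup Ser)
  mul := conv
  one := unit
  mul_assoc := conv_assoc
  one_mul := unit_conv
  mul_one := conv_unit
  left_distrib := conv_add
  right_distrib := add_conv
  zero_mul := zero_conv
  mul_zero := conv_zero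

theorem mul_def (f g : Ser) : f * g = conv f g := rfl
theorem one_def : (1 : Ser) = unit := rfl
theorem mul_ap (f g : Ser) (w : List Bool) :
    (f * g) w = ∑ i ∈ range (w.length + 1), f (w.take i) * g (w.drop i) := rfl
theorem one_ap (w : List Bool) : (1 : Ser) w = if w = [] then 1 else 0 := rfl
theorem mul_nil (f g : Ser) : (f * g) [] = f [] * g [] := conv_nil f g

theorem cont_ap (w : List Bool) : Continuous (fun f : Ser => f w) := continuous_apply w

theorem cont_iff {X : Type*} [TopologicalSpace X] {F : X → Ser} :
    Continuous F ↔ ∀ w, Continuous (fun x => F x w) := continuous_pi_iff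

theorem tendsto_iff {X : Type*} {l : Filter X} {F : X → Ser} {g : Ser} :
    Tendsto F l (𝓝 g) ↔ ∀ w, Tendsto (fun x => F x w) l (𝓝 (g w)) := tendsto_pi_nhds

instance : ContinuousMul Ser where
  continuous_mul := by
    refine cont_iff.2 fun w => ?_
    simp only [mul_ap]
    refine continuous_finsetSum _ fun i _ => ?_
    exact ((cont_ap _).comp continuous_fst).mul ((cont_ap _).comp continuous_snd)

/-- weight of a word -/
noncomputable def wt (c : Bool → ℂ) (w : List Bool) : ℂ := (w.map c).prod

theorem wt_nil (c : Bool → ℂ) : wt c [] = 1 := rfl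
theorem wt_cons (c : Bool → ℂ) (l : Bool) (w : List Bool) : wt c (l :: w) = c l * wt c w := by
  simp [wt]

theorem wt_split (c : Bool → ℂ) (w : List Bool) (i : ℕ) :
    wt c (w.take i) * wt c (w.drop i) = wt c w := by
  unfold wt
  rw [← List.prod_append, ← List.map_append, List.take_append_drop]

theorem wt_mul (c c' : Bool → ℂ) (w : List Bool) : wt (c * c') w = wt c w * wt c' w := by
  induction w with
  | nil => simp [wt_nil]
  | cons l w ih => simp only [wt_cons, ih, Pi.mul_apply]; ring

theorem wt_const (t : ℂ) (w : List Bool) : wt (fun _ => t) w = t ^ w.length := by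
  induction w with
  | nil => simp [wt_nil]
  | cons l w ih => simp only [wt_cons, ih, List.length_cons]; ring

/-- the pair (x, a) as a function on letters -/
def pr (x a : ℂ) : Bool → ℂ := fun l => if l then a else x

theorem wt_pr (x a : ℂ) (w : List Bool) :
    wt (pr x a) w = x ^ w.count false * a ^ w.count true := by
  induction w with
  | nil => simp [wt_nil]
  | cons l w ih =>
    cases l <;> simp [wt_cons, ih, pr, List.count_cons] <;> ring

theorem cont_wt (w : List Bool) : Continuous (fun c : Bool → ℂ => wt c w) := by
  induction w with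
  | nil => simp only [wt_nil]; exact continuous_const
  | cons l w ih => simp only [wt_cons]; exact (continuous_apply l).mul ih

/-- rescaling of the letters -/
noncomputable def sc (c : Bool → ℂ) : Ser →* Ser where
  toFun f := fun w => wt c w * f w
  map_one' := by
    refine ext' fun w => ?_
    by_cases h : w = []
    · subst h; simp [wt_nil, one_ap]
    · simp [one_ap, h]
  map_mul' f g := by
    refine ext' fun w => ?_
    simp only [mul_ap, Finset.mul_sum]
    refine Finset.sum_congr rfl fun i _ => ?_
    rw [← wt_split c w i]; ring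

theorem sc_ap (c : Bool → ℂ) (f : Ser) (w : List Bool) : sc c f w = wt c w * f w := rfl

/-- exponential of a degree one element -/
noncomputable def ex (c : Bool → ℂ) : Ser := fun w => wt c w / (w.length.factorial : ℂ)

theorem ex_ap (c : Bool → ℂ) (w : List Bool) :
    ex c w = wt c w / (w.length.factorial : ℂ) := rfl

theorem ex_nil (c : Bool → ℂ) : ex c [] = 1 := by simp [ex_ap, wt_nil]

theorem sc_ex (c c' : Bool → ℂ) : sc c (ex c') = ex (c * c') := by
  refine ext' fun w => ?_
  rw [sc_ap, ex_ap, ex_ap, wt_mul]; ring

theorem cont_ex : Continuous ex :=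
  cont_iff.2 fun w => by simp only [ex_ap]; exact (cont_wt w).div_const _

theorem cont_sc (f : Ser) : Continuous (fun c => sc c f) :=
  cont_iff.2 fun w => by simp only [sc_ap]; exact (cont_wt w).mul continuous_const

theorem pow_ap (h : Ser) (h0 : h [] = 0) (j : ℕ) :
    ∀ w : List Bool, (w.length < j → (h ^ j) w = 0) ∧
      (w.length = j → (h ^ j) w = wt (fun l => h [l]) w) := by
  induction j with
  | zero =>
    intro w
    refine ⟨fun hw => absurd hw (Nat.not_lt_zero _), fun hw => ?_⟩
    have : w = [] := List.length_eq_zero_iff.1 hw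
    subst this
    simp [one_ap, wt_nil]
  | succ j ih =>
    intro w
    rw [pow_succ']
    cases w with
    | nil => exact ⟨fun _ => by rw [mul_nil, h0, zero_mul], fun hw => by simp at hw⟩
    | cons l w =>
      have key : w.length ≤ j → (h * h ^ j) (l :: w) = h [l] * (h ^ j) w := by
        intro hw
        rw [mul_def, conv_cons, h0, zero_mul, zero_add]
        unfold conv
        rw [Finset.sum_range_succ', Finset.sum_eq_zero]
        · simp [der]
        · intro i hi
          rw [(ih _).1, mul_zero]
          simp only [List.length_drop]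
          have := Finset.mem_range.1 hi
          omega
      simp only [List.length_cons]
      constructor
      · intro hw
        rw [key (by omega), (ih w).1 (by omega), mul_zero]
      · intro hw
        rw [key (by omega), (ih w).2 (by omega), wt_cons]

theorem sum_ap {ι : Type*} (s : Finset ι) (F : ι → Ser) (w : List Bool) :
    (∑ i ∈ s, F i) w = ∑ i ∈ s, F i w := Finset.sum_apply w s F

theorem natCast_mul_ap (f : Ser) (n : ℕ) (w : List Bool) : (f * (n : Ser)) w = n * f w := by
  rw [← nsmul_eq_mul']
  change n • f w = _
  rw [nsmul_eq_mul]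

theorem choose_lim (j k : ℕ) (hj : j ≤ k) :
    Tendsto (fun n : ℕ => ((n.choose j : ℝ) / (n : ℝ) ^ k)) atTop
      (𝓝 (if j = k then 1 / (k.factorial : ℝ) else 0)) := by
  have h1 : Tendsto (fun n : ℕ => ((n.choose j : ℝ) / (n : ℝ) ^ j)) atTop
      (𝓝 (1 / (j.factorial : ℝ))) := by
    have h := (isEquivalent_choose j).div
      (Asymptotics.IsEquivalent.refl (u := fun n : ℕ => (n : ℝ) ^ j) (l := atTop))
    refine h.symm.tendsto_nhds ?_
    refine tendsto_const_nhds.congr' ?_
    filter_upwards [eventually_gt_atTop 0] with n hn
    have : (n : ℝ) ≠ 0 := by positivity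
    simp only [Pi.div_apply]
    field_simp
  split_ifs with h
  · subst h; exact h1
  · have h2 : Tendsto (fun n : ℕ => ((n : ℝ) ^ (k - j))⁻¹) atTop (𝓝 0) :=
      tendsto_inv_atTop_zero.comp
        ((tendsto_pow_atTop (by omega)).comp tendsto_natCast_atTop_atTop)
    have h3 := h1.mul h2
    rw [mul_zero] at h3
    refine h3.congr' ?_
    filter_upwards [eventually_gt_atTop 0] with n hn
    have : (n : ℝ) ≠ 0 := by positivity
    obtain ⟨m, rfl⟩ := Nat.exists_eq_add_of_le hj
    simp only [Nat.add_sub_cancel_left, pow_add]
    field_simp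

/-- Trotter type limit -/
theorem trotter (g : Ser) (hg : g [] = 1) :
    Tendsto (fun n : ℕ => (sc (fun _ => (((n : ℝ)⁻¹ : ℝ) : ℂ)) g) ^ n) atTop
      (𝓝 (ex (fun l => g [l]))) := by
  refine tendsto_iff.2 fun w => ?_
  set h : Ser := g - 1 with hh
  have h0 : h [] = 0 := by simp [hh, sub_ap, hg, one_ap]
  have hl : (fun l => h [l]) = fun l => g [l] := by
    funext l; simp [hh, sub_ap, one_ap]
  have hgh : g = h + 1 := by simp [hh]
  set k := w.length with hk
  have e1 : ∀ n : ℕ, k ≤ n → ((sc (fun _ => (((n : ℝ)⁻¹ : ℝ) : ℂ)) g) ^ n) w =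
      ∑ j ∈ range (k + 1), (((n.choose j : ℝ) / (n : ℝ) ^ k : ℝ) : ℂ) * (h ^ j) w := by
    intro n hn
    rw [← map_pow, sc_ap, wt_const, hgh, (Commute.one_right h).add_pow, sum_ap,
      ← Finset.sum_subset (s₁ := range (k + 1)), Finset.mul_sum]
    · refine Finset.sum_congr rfl fun j _ => ?_
      rw [one_pow, mul_one, natCast_mul_ap]
      push_cast
      rw [← hk, inv_pow]; ring
    · exact Finset.range_subset_range.2 (by omega)
    · intro j _ hj
      rw [one_pow, mul_one, natCast_mul_ap, (pow_ap h h0 j w).1, mul_zero]
      simp at hj; omega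
  have e2 : ex (fun l => g [l]) w =
      ∑ j ∈ range (k + 1), (((if j = k then 1 / (k.factorial : ℝ) else 0 : ℝ)) : ℂ) * (h ^ j) w := by
    rw [Finset.sum_eq_single k, if_pos rfl, (pow_ap h h0 k w).2 rfl, hl, ex_ap]
    · push_cast; rw [← hk]; ring
    · intro j _ hj; simp [hj]
    · simp
  rw [e2]
  refine Tendsto.congr' (by filter_upwards [eventually_ge_atTop k] with n hn using (e1 n hn).symm) ?_
  refine tendsto_finsetSum _ fun j hj => ?_
  refine Tendsto.mul_const _ ?_
  exact (Complex.continuous_ofReal.tendsto _).comp
    (choose_lim j k (by simpa [Nat.lt_succ_iff] using hj))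

end Pool.Agent.H25.Split
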