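import Pool.Agent.H25.Split1

/-! The cone argument: order conditions can be met with coefficients of positive real part. -/

namespace Pool.Agent.H25.Split

open Finset Filter Topology

noncomputable def dl (τ : ℝ) : Ser →* Ser := sc (fun _ => (τ : ℂ))
noncomputable def sg (μ : ℂ) : Ser →* Ser := sc (pr 1 μ)

def Good (k : ℕ) : Set Ser := {s | ∀ w, true ∈ w → w.length < k → s w = 0}

def W (k : ℕ) : Type := {w : List Bool // w.length = k ∧ true ∈ w}

instance (k : ℕ) : Finite (W k) :=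
  ((List.finite_length_eq Bool k).subset (fun _ hw => hw.1) :
    Set.Finite {w : List Bool | w.length = k ∧ true ∈ w})

noncomputable instance (k : ℕ) : Fintype (W k) := Fintype.ofFinite _

def res (k : ℕ) (s : Ser) : W k → ℂ := fun w => s w.1

theorem cont_res (k : ℕ) : Continuous (res k) := continuous_pi fun w => cont_ap w.1

theorem W_ne {k : ℕ} (w : W k) : k ≠ 0 := by
  obtain ⟨w, h1, h2⟩ := w
  rintro rfl
  rw [List.length_eq_zero_iff.1 h1] at h2
  simp at h2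

def Cn (S : Submonoid Ser) (k : ℕ) : Set (W k → ℂ) := res k '' ((S : Set Ser) ∩ Good k)

structure Nice (S : Submonoid Ser) : Prop where
  one : ∀ s ∈ S, s [] = 1
  dil : ∀ τ : ℝ, 0 < τ → ∀ s ∈ S, dl τ s ∈ S

theorem mul_good {k : ℕ} {s s' : Ser} (h1 : s [] = 1) (h1' : s' [] = 1) (hs : s ∈ Good k)
    (hs' : s' ∈ Good k) (w : List Bool) (hw : true ∈ w) (hk : w.length ≤ k) :
    (s * s') w = s w + s' w := by
  obtain ⟨m, hm⟩ : ∃ m, w.length = m + 1 :=
    ⟨w.length - 1, by have := List.length_pos_of_mem hw; omega⟩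
  rw [mul_ap, Finset.sum_range_succ, List.take_length, List.drop_length, h1', hm,
    Finset.sum_range_succ', Finset.sum_eq_zero]
  · simp [h1, add_comm]
  · intro i hi
    have hi' := Finset.mem_range.1 hi
    rw [← List.take_append_drop (i + 1) w, List.mem_append] at hw
    rcases hw with h | h
    · rw [hs _ h (by simp; omega), zero_mul]
    · rw [hs' _ h (by simp; omega), mul_zero]

theorem good_mul {k : ℕ} {s s' : Ser} (h1 : s [] = 1) (h1' : s' [] = 1) (hs : s ∈ Good k)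
    (hs' : s' ∈ Good k) : s * s' ∈ Good k ∧ res k (s * s') = res k s + res k s' := by
  refine ⟨fun w hw hk => ?_, funext fun w => mul_good h1 h1' hs hs' w.1 w.2.2 w.2.1.le⟩
  rw [mul_good h1 h1' hs hs' w hw hk.le, hs w hw hk, hs' w hw hk, add_zero]

theorem good_succ {k : ℕ} {s : Ser} : s ∈ Good (k + 1) ↔ s ∈ Good k ∧ res k s = 0 := by
  constructor
  · intro h
    exact ⟨fun w hw hk => h w hw (by omega), funext fun w => h w.1 w.2.2 (by rw [w.2.1]; omega)⟩
  · rintro ⟨h, h'⟩ w hw hk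
    rcases Nat.lt_succ_iff_lt_or_eq.1 hk with h2 | h2
    · exact h w hw h2
    · exact congrFun h' ⟨w, h2, hw⟩

theorem good_sc {k : ℕ} {s : Ser} (c : Bool → ℂ) (hs : s ∈ Good k) : sc c s ∈ Good k :=
  fun w hw hk => by rw [sc_ap, hs w hw hk, mul_zero]

theorem good_one (k : ℕ) : (1 : Ser) ∈ Good k ∧ res k 1 = 0 := by
  have : ∀ w : List Bool, true ∈ w → (1 : Ser) w = 0 := fun w hw => by
    rw [one_ap, if_neg (List.ne_nil_of_mem hw)]
  exact ⟨fun w hw _ => this w hw, funext fun w => this w.1 w.2.2⟩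

theorem dl_zero {s : Ser} (h : s [] = 1) : dl 0 s = 1 := by
  refine ext' fun w => ?_
  cases w <;> simp [dl, sc_ap, wt_const, one_ap, h]

theorem Nice.dil0 {S : Submonoid Ser} (hS : Nice S) {τ : ℝ} (hτ : 0 ≤ τ) {s : Ser} (hs : s ∈ S) :
    dl τ s ∈ S := by
  rcases hτ.eq_or_lt with h | h
  · rw [← h, dl_zero (hS.one s hs)]; exact S.one_mem
  · exact hS.dil τ h s hs

theorem res_dl (k : ℕ) (s : Ser) {c : ℝ} (hc : 0 ≤ c) :
    res k (dl (c ^ ((k : ℝ)⁻¹)) s) = c • res k s := by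
  funext w
  simp only [res, dl, sc_ap, wt_const, w.2.1, Pi.smul_apply, Complex.real_smul]
  rw [← Complex.ofReal_pow, Real.rpow_inv_natCast_pow hc (W_ne w)]

theorem Nice.add {S : Submonoid Ser} (hS : Nice S) {k : ℕ} {u v : W k → ℂ} (hu : u ∈ Cn S k)
    (hv : v ∈ Cn S k) : u + v ∈ Cn S k := by
  obtain ⟨s, ⟨h1, h2⟩, rfl⟩ := hu
  obtain ⟨s', ⟨h1', h2'⟩, rfl⟩ := hv
  have := good_mul (hS.one s h1) (hS.one s' h1') h2 h2'
  exact ⟨s * s', ⟨S.mul_mem h1 h1', this.1⟩, this.2⟩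

theorem Cn_zero (S : Submonoid Ser) (k : ℕ) : (0 : W k → ℂ) ∈ Cn S k :=
  ⟨1, ⟨S.one_mem, (good_one k).1⟩, (good_one k).2⟩

theorem Nice.smul {S : Submonoid Ser} (hS : Nice S) {k : ℕ} {v : W k → ℂ} (hv : v ∈ Cn S k)
    {c : ℝ} (hc : 0 ≤ c) : c • v ∈ Cn S k := by
  obtain ⟨s, ⟨h1, h2⟩, rfl⟩ := hv
  exact ⟨_, ⟨hS.dil0 (Real.rpow_nonneg hc _) h1, good_sc _ h2⟩, res_dl k s hc⟩

def Ng (S : Submonoid Ser) (k : ℕ) : Prop := ∀ v ∈ Cn S k, -v ∈ Cn S k

/-- the cone as a subspace -/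
def Nice.sub {S : Submonoid Ser} (hS : Nice S) {k : ℕ} (h : Ng S k) : Submodule ℝ (W k → ℂ) where
  carrier := Cn S k
  add_mem' := hS.add
  zero_mem' := Cn_zero S k
  smul_mem' c v hv := by
    rcases le_total 0 c with hc | hc
    · exact hS.smul hv hc
    · have := hS.smul (h v hv) (neg_nonneg.2 hc)
      rwa [neg_smul_neg] at this

theorem Nice.line {S : Submonoid Ser} (hS : Nice S) {k : ℕ} {v : W k → ℂ} (hv : v ∈ Cn S k)
    (hv' : -v ∈ Cn S k) : ∃ φ : ℝ → Ser, Continuous φ ∧ φ 0 = 1 ∧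
      ∀ c, φ c ∈ S ∧ φ c ∈ Good k ∧ res k (φ c) = c • v := by
  by_cases hk : k = 0
  · exact ⟨fun _ => 1, continuous_const, rfl, fun c => ⟨S.one_mem, (good_one k).1,
      funext fun w => absurd hk (W_ne w)⟩⟩
  obtain ⟨s, ⟨h1, h2⟩, e⟩ := hv
  obtain ⟨s', ⟨h1', h2'⟩, e'⟩ := hv'
  have hc : ∀ (s : Ser) (f : ℝ → ℝ), Continuous f →
      Continuous (fun c => dl ((f c) ^ ((k : ℝ)⁻¹)) s) := by
    intro s f hf
    refine (cont_sc s).comp (continuous_pi fun _ => Complex.continuous_ofReal.comp ?_)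
    exact hf.rpow_const fun _ => Or.inr (by positivity)
  refine ⟨fun c => dl ((max c 0) ^ ((k : ℝ)⁻¹)) s * dl ((max (-c) 0) ^ ((k : ℝ)⁻¹)) s',
    (hc s _ (by fun_prop)).mul (hc s' _ (by fun_prop)), ?_, fun c => ?_⟩
  · have : ((k : ℝ)⁻¹) ≠ 0 := by positivity
    simp [Real.zero_rpow this, dl_zero (hS.one s h1), dl_zero (hS.one s' h1')]
  · have m1 := hS.dil0 (Real.rpow_nonneg (le_max_right c 0) ((k : ℝ)⁻¹)) h1
    have m2 := hS.dil0 (Real.rpow_nonneg (le_max_right (-c) 0) ((k : ℝ)⁻¹)) h1'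
    have := good_mul (hS.one _ m1) (hS.one _ m2) (good_sc _ h2) (good_sc _ h2')
    refine ⟨S.mul_mem m1 m2, this.1, ?_⟩
    rw [this.2, res_dl k s (le_max_right _ _), res_dl k s' (le_max_right _ _), e, e', smul_neg,
      ← sub_eq_add_neg, ← sub_smul, max_zero_sub_max_neg_zero_eq_self]

theorem Nice.sec {S : Submonoid Ser} (hS : Nice S) {k : ℕ} (h : Ng S k) :
    ∃ Φ : (W k → ℂ) → Ser, Continuous Φ ∧ Φ 0 = 1 ∧
      ∀ v ∈ Cn S k, Φ v ∈ S ∧ Φ v ∈ Good k ∧ res k (Φ v) = v := by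
  set C := hS.sub h with hC
  let b := Module.finBasis ℝ C
  obtain ⟨g, hg⟩ := C.subtype.exists_leftInverse_of_injective C.ker_subtype
  have key : ∀ I : Finset (Fin (Module.finrank ℝ C)), ∃ Φ : (W k → ℂ) → Ser, Continuous Φ ∧
      Φ 0 = 1 ∧ ∀ v, Φ v ∈ S ∧ Φ v ∈ Good k ∧
        res k (Φ v) = ∑ i ∈ I, b.repr (g v) i • (b i : W k → ℂ) := by
    intro I
    induction I using Finset.induction_on with
    | empty => exact ⟨fun _ => 1, continuous_const, rfl, fun v => ⟨S.one_mem, (good_one k).1,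
        by simp [(good_one k).2]⟩⟩
    | insert i I hi ih =>
      obtain ⟨Φ, c1, c2, c3⟩ := ih
      obtain ⟨φ, d1, d2, d3⟩ := hS.line (b i).2 (h _ (b i).2)
      have hc : Continuous (fun v => b.repr (g v) i) :=
        ((b.coord i).comp g).continuous_of_finiteDimensional
      refine ⟨fun v => φ (b.repr (g v) i) * Φ v, (d1.comp hc).mul c1, by simp [d2, c2],
        fun v => ?_⟩
      obtain ⟨a1, a2, a3⟩ := c3 v
      obtain ⟨b1, b2, b3⟩ := d3 (b.repr (g v) i)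
      have := good_mul (hS.one _ b1) (hS.one _ a1) b2 a2
      refine ⟨S.mul_mem b1 a1, this.1, ?_⟩
      rw [this.2, a3, b3, Finset.sum_insert hi]
  obtain ⟨Φ, c1, c2, c3⟩ := key Finset.univ
  refine ⟨Φ, c1, c2, fun v hv => ⟨(c3 v).1, (c3 v).2.1, ?_⟩⟩
  rw [(c3 v).2.2]
  have e : g v = ⟨v, hv⟩ := LinearMap.congr_fun hg (⟨v, hv⟩ : C)
  have := congrArg C.subtype (b.sum_repr (g v))
  rw [map_sum] at this
  simp only [map_smul, Submodule.subtype_apply] at this
  rw [this, e]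

theorem Nice.fix {S : Submonoid Ser} (hS : Nice S) (k : ℕ) (h : ∀ j < k, Ng S j) {g : Ser}
    (hg : g ∈ closure (S : Set Ser)) (hk : g ∈ Good k) :
    g ∈ closure ((S : Set Ser) ∩ Good k) := by
  induction k with
  | zero =>
    refine closure_mono ?_ hg
    exact fun s hs => ⟨hs, fun w _ hw => absurd hw (Nat.not_lt_zero _)⟩
  | succ k ih =>
    obtain ⟨g1, g2⟩ := good_succ.1 hk
    have h1 := ih (fun j hj => h j (by omega)) g1
    obtain ⟨Φ, c1, c2, c3⟩ := hS.sec (h k (by omega))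
    have hc : Continuous (fun s => s * Φ (-res k s)) :=
      continuous_id.mul (c1.comp (cont_res k).neg)
    have := map_mem_closure (t := (S : Set Ser) ∩ Good (k + 1)) hc h1 (by
      rintro s ⟨s1, s2⟩
      obtain ⟨a1, a2, a3⟩ := c3 _ (h k (by omega) _ ⟨s, ⟨s1, s2⟩, rfl⟩)
      have := good_mul (hS.one _ s1) (hS.one _ a1) s2 a2
      exact ⟨S.mul_mem s1 a1, good_succ.2 ⟨this.1, by rw [this.2, a3, add_neg_cancel]⟩⟩)
    simpa [g2, c2] using this

theorem Nice.fix' {S : Submonoid Ser} (hS : Nice S) (k : ℕ) (h : ∀ j < k, Ng S j) {g : Ser}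
    (hg : g ∈ closure (S : Set Ser)) (hk : g ∈ Good k) : res k g ∈ closure (Cn S k) :=
  map_mem_closure (cont_res k) (hS.fix k h hg hk) fun s hs => ⟨s, hs, rfl⟩

theorem convex_dense {E : Type*} [NormedAddCommGroup E] [NormedSpace ℝ E] [FiniteDimensional ℝ E]
    (C : Set E) (U : Submodule ℝ E) (hC : Convex ℝ C) (h1 : C ⊆ U) (h2 : (U : Set E) ⊆ closure C) :
    (U : Set E) ⊆ C := by
  set D : Set U := U.subtype ⁻¹' C with hD
  have cD : Convex ℝ D := hC.linear_preimage U.subtype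
  have dD : closure D = Set.univ := by
    refine Set.eq_univ_of_forall fun x => ?_
    rw [closure_subtype]
    have : Subtype.val '' D = C := by
      ext y
      exact ⟨by rintro ⟨z, hz, rfl⟩; exact hz, fun hy => ⟨⟨y, h1 hy⟩, hy, rfl⟩⟩
    rw [this]; exact h2 x.2
  have h3 : affineSpan ℝ D = ⊤ := by
    have hcl : IsClosed (affineSpan ℝ D : Set U) := (affineSpan ℝ D).closed_of_finiteDimensional
    have := closure_minimal (subset_affineSpan ℝ D) hcl
    rw [dD] at this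
    exact eq_top_iff.2 fun x _ => this (Set.mem_univ x)
  have h4 := cD.interior_closure_eq_interior_of_nonempty_interior
    (cD.interior_nonempty_iff_affineSpan_eq_top.2 h3)
  rw [dD, interior_univ] at h4
  intro x hx
  have : (⟨x, hx⟩ : U) ∈ interior D := h4 ▸ Set.mem_univ _
  have h5 : (⟨x, hx⟩ : U) ∈ D := interior_subset this
  exact h5

/-- action of `sg` on degree `k` parts -/
noncomputable def sgV (k : ℕ) (μ : ℂ) : (W k → ℂ) →ₗ[ℝ] (W k → ℂ) where
  toFun v := fun w => μ ^ w.1.count true * v w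
  map_add' u v := by funext w; simp [mul_add]
  map_smul' c v := by funext w; simp; ring

theorem res_sg (k : ℕ) (μ : ℂ) (s : Ser) : res k (sg μ s) = sgV k μ (res k s) := by
  funext w
  simp [res, sg, sc_ap, wt_pr, sgV]

theorem sgV_mem {S S' : Submonoid Ser} {k : ℕ} {μ : ℂ} (h : ∀ s ∈ S, sg μ s ∈ S') {v : W k → ℂ}
    (hv : v ∈ Cn S k) : sgV k μ v ∈ Cn S' k := by
  obtain ⟨s, ⟨h1, h2⟩, rfl⟩ := hv
  exact ⟨_, ⟨h s h1, good_sc _ h2⟩, res_sg k μ s⟩

theorem Nice.ng {S : Submonoid Ser} (hS : Nice S)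
    (h : ∀ μ : ℂ, ‖μ‖ = 1 → ∀ s ∈ S, sg μ s ∈ S) (k : ℕ) : Ng S k := by
  intro v hv
  obtain ⟨ω, hω⟩ : ∃ ω : ℂ, IsPrimitiveRoot ω (k + 1) :=
    ⟨_, Complex.isPrimitiveRoot_exp (k + 1) (by omega)⟩
  have hn : ‖ω‖ = 1 := hω.norm'_eq_one (by omega)
  have h1 : ∀ n : ℕ, ∑ r ∈ range n, sgV k (ω ^ (r + 1)) v ∈ Cn S k := by
    intro n
    induction n with
    | zero => simpa using Cn_zero S k
    | succ n ih =>
      rw [Finset.sum_range_succ]
      exact hS.add ih (sgV_mem (h _ (by simp [hn])) hv)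
  convert h1 k using 1
  funext w
  have j1 : 0 < w.1.count true := List.count_pos_iff.2 w.2.2
  have j2 : w.1.count true < k + 1 := by
    have := List.count_le_length (a := true) (l := w.1)
    rw [w.2.1] at this; omega
  have h2 := geom_sum_eq (hω.pow_ne_one_of_pos_of_lt j1.ne' j2) (k + 1)
  rw [← pow_mul, mul_comm, pow_mul, hω.pow_eq_one, one_pow, sub_self, zero_div,
    Finset.sum_range_succ'] at h2
  simp only [Pi.neg_apply, Finset.sum_apply, sgV, LinearMap.coe_mk, AddHom.coe_mk]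
  rw [← Finset.sum_mul]
  have h3 : ∑ r ∈ range k, (ω ^ (r + 1)) ^ w.1.count true = -1 := by
    rw [← add_eq_zero_iff_eq_neg, ← h2, pow_zero]
    congr 1
    exact Finset.sum_congr rfl fun r _ => by rw [← pow_mul, ← pow_mul, mul_comm]
  rw [h3]; ring

end Pool.Agent.H25.Split
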