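import Pool.Agent.H25.Split2

/-! The three monoids and the algebraic theorem. -/

namespace Pool.Agent.H25.Split

open Finset Filter Topology

def genT : Set Ser := {s | ∃ (t : ℝ) (a : ℂ), 0 < t ∧ s = ex (pr t a)}
def genU : Set Ser := {s | ∃ (t : ℝ) (a : ℂ), 0 < t ∧ ‖a‖ ≤ t / 2 ∧ s = ex (pr t a)}
def genS : Set Ser :=
  {s | ∃ (a : ℂ) (b : ℝ), 0 < a.re ∧ 0 < b ∧ s = ex (pr 0 a) * ex (pr b (-b))}

noncomputable def mT : Submonoid Ser := Submonoid.closure genT
noncomputable def mU : Submonoid Ser := Submonoid.closure genU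
noncomputable def mS : Submonoid Ser := Submonoid.closure genS

theorem inv_of_gen {G : Set Ser} {S : Submonoid Ser} (f : Ser →* Ser) (h : ∀ s ∈ G, f s ∈ S) :
    ∀ s ∈ Submonoid.closure G, f s ∈ S := fun _ hs =>
  (Submonoid.closure_le (S := S.comap f)).2 h hs

theorem one_of_gen {G : Set Ser} (h : ∀ s ∈ G, s [] = 1) :
    ∀ s ∈ Submonoid.closure G, s [] = 1 := by
  intro s hs
  induction hs using Submonoid.closure_induction with
  | mem x hx => exact h x hx
  | one => simp [one_ap]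
  | mul x y _ _ hx hy => rw [mul_nil, hx, hy, mul_one]

theorem dl_ex (τ : ℝ) (x a : ℂ) : dl τ (ex (pr x a)) = ex (pr (τ * x) (τ * a)) := by
  rw [dl, sc_ex]; congr 1; funext l; cases l <;> simp [pr]

theorem sg_ex (μ x a : ℂ) : sg μ (ex (pr x a)) = ex (pr x (μ * a)) := by
  rw [sg, sc_ex]; congr 1; funext l; cases l <;> simp [pr]

theorem niceT : Nice mT where
  one := one_of_gen (by rintro s ⟨t, a, _, rfl⟩; exact ex_nil _)
  dil τ hτ := inv_of_gen _ (by
    rintro s ⟨t, a, ht, rfl⟩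
    exact Submonoid.subset_closure ⟨τ * t, τ * a, by positivity, by rw [dl_ex]; push_cast; rfl⟩)

theorem niceU : Nice mU where
  one := one_of_gen (by rintro s ⟨t, a, _, _, rfl⟩; exact ex_nil _)
  dil τ hτ := inv_of_gen _ (by
    rintro s ⟨t, a, ht, ha, rfl⟩
    refine Submonoid.subset_closure ⟨τ * t, τ * a, by positivity, ?_,
      by rw [dl_ex]; push_cast; rfl⟩
    rw [norm_mul, Complex.norm_real, Real.norm_of_nonneg hτ.le]
    nlinarith)

theorem niceS : Nice mS where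
  one := one_of_gen (by rintro s ⟨a, b, _, _, rfl⟩; rw [mul_nil, ex_nil, ex_nil, mul_one])
  dil τ hτ := inv_of_gen _ (by
    rintro s ⟨a, b, ha, hb, rfl⟩
    refine Submonoid.subset_closure ⟨τ * a, τ * b, by simpa using mul_pos hτ ha, by positivity, ?_⟩
    rw [map_mul, dl_ex, dl_ex]; push_cast; simp)

theorem sgT (μ : ℂ) : ∀ s ∈ mT, sg μ s ∈ mT := inv_of_gen _ (by
  rintro s ⟨t, a, ht, rfl⟩
  exact Submonoid.subset_closure ⟨t, μ * a, ht, sg_ex _ _ _⟩)

theorem sgU (μ : ℂ) (hμ : ‖μ‖ ≤ 1) : ∀ s ∈ mU, sg μ s ∈ mU := inv_of_gen _ (by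
  rintro s ⟨t, a, ht, ha, rfl⟩
  refine Submonoid.subset_closure ⟨t, μ * a, ht, ?_, sg_ex _ _ _⟩
  rw [norm_mul]
  nlinarith [norm_nonneg a, norm_nonneg μ])

theorem ngT (k : ℕ) : Ng mT k := niceT.ng (fun μ _ => sgT μ) k
theorem ngU (k : ℕ) : Ng mU k := niceU.ng (fun μ h => sgU μ h.le) k

theorem T_to_U {s : Ser} (hs : s ∈ mT) : ∀ᶠ μ in 𝓝 (0 : ℂ), sg μ s ∈ mU := by
  induction hs using Submonoid.closure_induction with
  | mem x hx =>
    obtain ⟨t, a, ht, rfl⟩ := hx
    have : Tendsto (fun μ : ℂ => ‖μ * a‖) (𝓝 0) (𝓝 0) := by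
      have : Continuous (fun μ : ℂ => ‖μ * a‖) := by fun_prop
      simpa using this.tendsto 0
    filter_upwards [this.eventually (ge_mem_nhds (half_pos ht))] with μ hμ
    exact Submonoid.subset_closure ⟨t, μ * a, ht, hμ, sg_ex _ _ _⟩
  | one => exact Eventually.of_forall fun μ => by rw [map_one]; exact mU.one_mem
  | mul x y _ _ hx hy =>
    filter_upwards [hx, hy] with μ h1 h2
    rw [map_mul]; exact mU.mul_mem h1 h2

theorem CT_sub_CU (k : ℕ) : Cn mT k ⊆ Cn mU k := by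
  rintro v ⟨s, ⟨h1, h2⟩, rfl⟩
  have e1 : ∀ᶠ μ in 𝓝[≠] (0 : ℂ), sg μ s ∈ mU ∧ ‖μ‖ ≤ 1 :=
    nhdsWithin_le_nhds ((T_to_U h1).and (by
      filter_upwards [Metric.closedBall_mem_nhds (0 : ℂ) one_pos] with μ hμ
      simpa using hμ))
  obtain ⟨μ, ⟨m1, m2⟩, m3⟩ := (e1.and self_mem_nhdsWithin).exists
  have m3' : μ ≠ 0 := m3
  set C := niceU.sub (ngU k) with hC
  have inj : Function.Injective (sgV k μ) := by
    intro u v h
    funext w
    exact mul_left_cancel₀ (pow_ne_zero _ m3') (congrFun h w)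
  have hm : ∀ v ∈ C, sgV k μ v ∈ C := fun v hv => sgV_mem (sgU μ m2) hv
  have inj' : Function.Injective ((sgV k μ).restrict hm) := fun u v h =>
    Subtype.ext (inj (congrArg Subtype.val h))
  obtain ⟨u, hu⟩ := LinearMap.injective_iff_surjective.1 inj'
    ⟨sgV k μ (res k s), ⟨_, ⟨m1, good_sc _ h2⟩, res_sg k μ s⟩⟩
  have : (u : W k → ℂ) = res k s := inj (congrArg Subtype.val hu)
  rw [← this]; exact u.2

theorem S_sub : (mS : Set Ser) ⊆ closure (mT : Set Ser) := by
  refine (Submonoid.closure_le (S := mT.topologicalClosure)).2 ?_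
  rintro s ⟨a, b, _, hb, rfl⟩
  refine mT.topologicalClosure.mul_mem ?_
    (subset_closure (Submonoid.subset_closure ⟨b, -b, hb, rfl⟩))
  have hc : Continuous (fun t : ℝ => ex (pr t a)) := by
    refine cont_ex.comp (continuous_pi fun l => ?_)
    cases l <;> simp only [pr] <;> simp <;> fun_prop
  have := (hc.tendsto 0).mono_left (nhdsWithin_le_nhds (s := Set.Ioi 0))
  refine mem_closure_of_tendsto this ?_
  filter_upwards [self_mem_nhdsWithin] with t ht
  exact Submonoid.subset_closure ⟨t, a, ht, rfl⟩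

theorem U_sub : (mU : Set Ser) ⊆ closure (mS : Set Ser) := by
  refine (Submonoid.closure_le (S := mS.topologicalClosure)).2 ?_
  rintro s ⟨t, a, ht, ha, rfl⟩
  have hg : ex (pr 0 (a + t)) * ex (pr t (-t)) ∈ mS := by
    refine Submonoid.subset_closure ⟨a + t, t, ?_, ht, rfl⟩
    have := abs_le.1 (Complex.abs_re_le_norm a)
    simp; linarith
  have h := trotter _ (niceS.one _ hg)
  have e : (fun l => (ex (pr 0 (a + t)) * ex (pr t (-t))) [l]) = pr t a := by
    funext l
    cases l <;> simp [mul_ap, Finset.sum_range_succ, ex_ap, wt, pr]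
  rw [e] at h
  refine mem_closure_of_tendsto h ?_
  filter_upwards [eventually_gt_atTop 0] with n hn
  exact mS.pow_mem (niceS.dil _ (by positivity) _ hg) n

theorem ngS (k : ℕ) : Ng mS k := by
  induction k using Nat.strong_induction_on with
  | _ k ih =>
    set U := niceT.sub (ngT k) with hU
    have h1 : Cn mS k ⊆ U := by
      rintro v ⟨s, ⟨s1, s2⟩, rfl⟩
      have := niceT.fix' k (fun j _ => ngT j) (S_sub s1) s2
      exact closure_minimal (fun _ h => h) U.closed_of_finiteDimensional this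
    have h2 : (U : Set (W k → ℂ)) ⊆ closure (Cn mS k) := by
      intro v hv
      obtain ⟨s, ⟨s1, s2⟩, rfl⟩ := CT_sub_CU k hv
      exact niceS.fix' k ih (U_sub s1) s2
    have h3 : Convex ℝ (Cn mS k) := fun u hu v hv a b ha hb _ =>
      niceS.add (niceS.smul hu ha) (niceS.smul hv hb)
    intro v hv
    exact convex_dense _ U h3 h1 h2 (U.neg_mem (h1 hv))

theorem ex_add (x y : ℂ) : ex (pr x 0) * ex (pr y 0) = ex (pr (x + y) 0) := by
  have h : ∀ (z : ℂ) (w : List Bool), wt (pr z 0) w = z ^ w.length * wt (pr 1 0) w := by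
    intro z w
    rw [← wt_const, ← wt_mul]; congr 1; funext l; cases l <;> simp [pr]
  refine ext' fun w => ?_
  rw [mul_ap, ex_ap, h, add_pow, Finset.sum_mul, Finset.sum_div]
  refine Finset.sum_congr rfl fun i hi => ?_
  have hi' : i ≤ w.length := by simpa [Nat.lt_succ_iff] using hi
  rw [ex_ap, ex_ap, h x, h y, ← wt_split (pr 1 0) w i, List.length_take, List.length_drop,
    min_eq_left hi', Nat.cast_choose ℂ hi']
  have f1 : (w.length.factorial : ℂ) ≠ 0 := by exact_mod_cast Nat.factorial_ne_zero _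
  have f2 : (i.factorial : ℂ) ≠ 0 := by exact_mod_cast Nat.factorial_ne_zero _
  have f3 : ((w.length - i).factorial : ℂ) ≠ 0 := by exact_mod_cast Nat.factorial_ne_zero _
  field_simp

theorem pure_part {s : Ser} (hs : s ∈ mS) : ∃ t : ℝ, 0 ≤ t ∧ sg 0 s = ex (pr t 0) := by
  induction hs using Submonoid.closure_induction with
  | mem x hx =>
    obtain ⟨a, b, _, hb, rfl⟩ := hx
    exact ⟨b, hb.le, by rw [map_mul, sg_ex, sg_ex, zero_mul, zero_mul, ex_add, zero_add]⟩
  | one =>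
    refine ⟨0, le_rfl, ?_⟩
    rw [map_one]
    refine ext' fun w => ?_
    rcases w with _ | ⟨l, w⟩
    · simp [one_ap, ex_nil]
    · cases l <;> simp [one_ap, ex_ap, wt_cons, pr]
  | mul x y _ _ hx hy =>
    obtain ⟨t, ht, e⟩ := hx
    obtain ⟨t', ht', e'⟩ := hy
    exact ⟨t + t', by positivity, by rw [map_mul, e, e', ex_add]; push_cast; rfl⟩

theorem ex_zero_of_mem (x : ℂ) {w : List Bool} (hw : true ∈ w) : ex (pr x 0) w = 0 := by
  rw [ex_ap, wt_pr, zero_pow (List.count_pos_iff.2 hw).ne']; simp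

theorem list_of_mem {s : Ser} (hs : s ∈ mS) : ∃ l : List (ℂ × ℝ),
    (∀ p ∈ l, 0 < p.1.re ∧ 0 < p.2) ∧
      s = (l.map fun p => ex (pr 0 p.1) * ex (pr p.2 (-p.2))).prod := by
  induction hs using Submonoid.closure_induction with
  | mem x hx =>
    obtain ⟨a, b, ha, hb, rfl⟩ := hx
    exact ⟨[(a, b)], by simp [ha, hb], by simp⟩
  | one => exact ⟨[], by simp, by simp⟩
  | mul x y _ _ hx hy =>
    obtain ⟨l, h1, rfl⟩ := hx
    obtain ⟨l', h1', rfl⟩ := hy
    refine ⟨l ++ l', fun p hp => ?_, by simp⟩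
    rcases List.mem_append.1 hp with h | h
    exacts [h1 p h, h1' p h]

/-- the algebraic order conditions can be met -/
theorem alg_main (N : ℕ) : ∃ l : List (ℂ × ℝ), l ≠ [] ∧ (∀ p ∈ l, 0 < p.1.re ∧ 0 < p.2) ∧
    ∀ w : List Bool, w.length < N →
      (l.map fun p => ex (pr 0 p.1) * ex (pr p.2 (-p.2))).prod w = ex (pr 1 0) w := by
  have h0 : ex (pr 1 0) ∈ mU :=
    Submonoid.subset_closure ⟨1, 0, one_pos, by norm_num, by simp⟩
  have h1 := niceS.fix N (fun j _ => ngS j) (U_sub h0) (fun w hw _ => ex_zero_of_mem 1 hw)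
  have ho : IsOpen {s : Ser | s [false] ≠ 0} := isOpen_ne_fun (cont_ap _) continuous_const
  obtain ⟨s, s0, s1, s2⟩ := mem_closure_iff.1 h1 _ ho (by simp [ex_ap, wt, pr])
  obtain ⟨t, ht, e⟩ := pure_part s1
  have e0 : s [false] = t := by
    have := congrFun e [false]
    simpa [sg, sc_ap, ex_ap, wt, pr] using this
  have ht' : t ≠ 0 := by
    rintro rfl
    exact s0 (by simpa using e0)
  have ht2 : 0 < t⁻¹ := by positivity
  obtain ⟨l, l1, l2⟩ := list_of_mem (niceS.dil _ ht2 s s1)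
  have tc : (t : ℂ) ≠ 0 := by exact_mod_cast ht'
  refine ⟨l, ?_, l1, fun w hw => ?_⟩
  · rintro rfl
    have := congrFun l2 [false]
    simp [dl, sc_ap, wt, one_ap, e0, tc] at this
  · rw [← l2]
    by_cases h : true ∈ w
    · rw [ex_zero_of_mem 1 h, dl, sc_ap, s2 w h hw, mul_zero]
    · have e1 : s w = ex (pr t 0) w := by
        rw [← e, sg, sc_ap, wt_pr, List.count_eq_zero.2 h]; simp
      have e2 := congrFun (dl_ex t⁻¹ t 0) w
      rw [dl, sc_ap] at e2 ⊢
      rw [e1, e2]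
      congr 2 <;> simp [tc]

end Pool.Agent.H25.Split
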