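import Pool.Agent.H25.Split3

/-! Lie series expansions of flows. -/

namespace Pool.Agent.H25.Split

open Finset Filter Topology Asymptotics
open scoped ContDiff NNReal

variable {E : Type} [NormedAddCommGroup E] [NormedSpace ℂ E]

/-- smooth maps -/
def Sm (E : Type) [NormedAddCommGroup E] [NormedSpace ℂ E] : Submodule ℂ (E → E) where
  carrier := {φ | ContDiff ℂ ∞ φ}
  add_mem' := fun {a b} (ha : ContDiff ℂ ∞ a) (hb : ContDiff ℂ ∞ b) =>
    show ContDiff ℂ ∞ (fun x => a x + b x) from ha.add hb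
  zero_mem' := show ContDiff ℂ ∞ (fun _ : E => (0 : E)) from contDiff_const
  smul_mem' := fun c a (h : ContDiff ℂ ∞ a) =>
    show ContDiff ℂ ∞ (fun x => c • a x) from h.const_smul c

theorem Sm.cd (φ : Sm E) : ContDiff ℂ ∞ φ.1 := φ.2

theorem Sm.mem {φ : E → E} (h : ContDiff ℂ ∞ φ) : φ ∈ Sm E := h

theorem Sm.diff (φ : Sm E) : Differentiable ℂ φ.1 :=
  (Sm.cd φ).differentiable (by simp)

/-- Lie derivative -/
noncomputable def Lie (f : Sm E) : Module.End ℂ (Sm E) where
  toFun φ := ⟨fun x => fderiv ℂ φ.1 x (f.1 x),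
    Sm.mem (((Sm.cd φ).fderiv_right (m := ∞) (by simp)).clm_apply (Sm.cd f))⟩
  map_add' φ ψ := by
    ext x
    simp only [Submodule.coe_add, Pi.add_apply]
    rw [fderiv_add (Sm.diff φ x) (Sm.diff ψ x)]; rfl
  map_smul' c φ := by
    ext x
    simp only [Submodule.coe_smul, Pi.smul_apply, RingHom.id_apply]
    rw [fderiv_const_smul (Sm.diff φ x)]; rfl

theorem Lie_ap (f φ : Sm E) (x : E) : (Lie f φ).1 x = fderiv ℂ φ.1 x (f.1 x) := rfl

/-- truncated Lie series -/
noncomputable def ev (L : Bool → Module.End ℂ (Sm E)) (T : ℂ) : ℕ → Ser → Sm E → Sm E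
  | 0, _, _ => 0
  | n + 1, s, φ => s [] • φ + T • (ev L T n (der false s) (L false φ) +
      ev L T n (der true s) (L true φ))

variable (L : Bool → Module.End ℂ (Sm E))

theorem ev_lin (T : ℂ) (n : ℕ) (c : ℂ) (s s' : Ser) (φ : Sm E) :
    ev L T n (c • s + s') φ = c • ev L T n s φ + ev L T n s' φ := by
  induction n generalizing s s' φ with
  | zero => simp [ev]
  | succ n ih =>
    have e : ∀ l, der l (c • s + s') = c • der l s + der l s' := fun l => rfl
    simp only [ev, e, ih, add_ap, smul_ap]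
    module

theorem ev_congr (T : ℂ) (n : ℕ) (s s' : Ser) (φ : Sm E) (h : ∀ w, w.length < n → s w = s' w) :
    ev L T n s φ = ev L T n s' φ := by
  induction n generalizing s s' φ with
  | zero => simp [ev]
  | succ n ih =>
    simp only [ev]
    rw [h [] (by simp), ih (der false s) (der false s') _ fun w hw => h _ (by simpa using hw),
      ih (der true s) (der true s') _ fun w hw => h _ (by simpa using hw)]

theorem ev_zero (T : ℂ) (n : ℕ) (φ : Sm E) : ev L T n 0 φ = 0 := by
  induction n generalizing φ with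
  | zero => simp [ev]
  | succ n ih =>
    have e : ∀ l, der l (0 : Ser) = 0 := fun l => rfl
    simp [ev, e, ih, zero_ap]

theorem ev_one (T : ℂ) (n : ℕ) (φ : Sm E) : ev L T (n + 1) 1 φ = φ := by
  simp [ev, one_def, der_unit, ev_zero, unit]

theorem ev_mul (T : ℂ) (n : ℕ) (s s' : Ser) (φ : Sm E) :
    ev L T (n + 1) (s * s') φ = s [] • ev L T (n + 1) s' φ +
      T • (ev L T n (der false s * s') (L false φ) + ev L T n (der true s * s') (L true φ)) := by
  simp only [ev, mul_def, der_conv, ev_lin, conv_nil]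
  module

noncomputable def geo (r : ℕ → ℂ) (c : Bool → ℂ) : Ser := fun w => r w.length * wt c w

theorem ev_geo (T : ℂ) (c : Bool → ℂ) (n : ℕ) (r : ℕ → ℂ) (φ : Sm E) :
    ev L T n (geo r c) φ =
      ∑ k ∈ range n, (r k * T ^ k) • ((c false • L false + c true • L true) ^ k) φ := by
  induction n generalizing r φ with
  | zero => simp [ev]
  | succ n ih =>
    have e : ∀ l, der l (geo r c) = c l • geo (fun k => r (k + 1)) c + 0 := by
      intro l
      refine ext' fun w => ?_
      simp only [der, geo, add_ap, smul_ap, zero_ap, wt_cons, List.length_cons]; ring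
    rw [ev, e, e, ev_lin, ev_lin, ev_zero, ev_zero, add_zero, add_zero, ih, ih,
      Finset.sum_range_succ', add_comm]
    refine congrArg₂ (· + ·) ?_ (by simp [wt_nil, geo])
    · rw [Finset.smul_sum, Finset.smul_sum, ← Finset.sum_add_distrib, Finset.smul_sum]
      refine Finset.sum_congr rfl fun k _ => ?_
      simp only [pow_succ, Module.End.mul_apply, LinearMap.add_apply, LinearMap.smul_apply, map_add,
        map_smul]
      module

theorem ev_ex (T : ℂ) (c : Bool → ℂ) (n : ℕ) (φ : Sm E) :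
    ev L T n (ex c) φ =
      ∑ k ∈ range n, (T ^ k / k.factorial) • ((c false • L false + c true • L true) ^ k) φ := by
  have : ex c = geo (fun k : ℕ => ((k.factorial : ℂ))⁻¹) c := by
    refine ext' fun w => ?_
    rw [ex_ap, geo]; ring
  rw [this, ev_geo]
  refine Finset.sum_congr rfl fun k _ => ?_
  congr 1; ring

/-- the relation `R` has Lie series `s` -/
def Expn (s : Ser) (R : ℝ → E → E → Prop) : Prop :=
  ∀ (ι : Type) (l : Filter ι) (T : ι → ℝ) (x y : ι → E) (x0 : E), Tendsto T l (𝓝[>] 0) →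
    Tendsto x l (𝓝 x0) → (∀ᶠ i in l, R (T i) (x i) (y i)) → ∀ (n : ℕ) (φ : Sm E),
      (fun i => φ.1 (y i) - (ev L (T i) n s φ).1 (x i)) =O[l] fun i => T i ^ n

/-- the relation `R` has solutions for small times -/
def Exst (R : ℝ → E → E → Prop) : Prop :=
  ∀ (ι : Type) (l : Filter ι) (T : ι → ℝ) (x : ι → E) (x0 : E), Tendsto T l (𝓝[>] 0) →
    Tendsto x l (𝓝 x0) → ∀ᶠ i in l, ∃ y, R (T i) (x i) y

variable {L}

theorem Expn.tendsto {s : Ser} {R : ℝ → E → E → Prop} (h : Expn L s R) (hs : s [] = 1)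
    {ι : Type} {l : Filter ι} {T : ι → ℝ} {x y : ι → E} {x0 : E} (hT : Tendsto T l (𝓝[>] 0))
    (hx : Tendsto x l (𝓝 x0)) (hR : ∀ᶠ i in l, R (T i) (x i) (y i)) : Tendsto y l (𝓝 x0) := by
  have h1 := h ι l T x y x0 hT hx hR 1 ⟨id, Sm.mem contDiff_id⟩
  simp only [ev, hs, pow_one, add_zero, smul_zero, one_smul, id_eq] at h1
  have h2 := (h1.trans_tendsto (hT.mono_right nhdsWithin_le_nhds)).add hx
  simpa using h2

omit [NormedSpace ℂ E] in
theorem ev_choice {ι : Type} {l : Filter ι} {r : ι → E → Prop} (h : ∀ᶠ i in l, ∃ y, r i y) :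
    ∃ f : ι → E, ∀ᶠ i in l, r i (f i) := by
  choose! f hf using fun x (hx : ∃ y, r x y) => hx
  exact ⟨f, h.mono hf⟩

theorem Expn.comp {s s' : Ser} {R R' : ℝ → E → E → Prop} (h : Expn L s R) (h' : Expn L s' R')
    (hs' : s' [] = 1) : Expn L (s * s') (fun T x y => ∃ z, R' T x z ∧ R T z y) := by
  intro ι l T x y x0 hT hx hR n φ
  obtain ⟨z, hz⟩ := ev_choice hR
  have z1 := hz.mono fun i hi => hi.1
  have z2 := hz.mono fun i hi => hi.2
  have tz := h'.tendsto hs' hT hx z1
  have key : ∀ (n : ℕ) (s : Ser) (φ : Sm E),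
      (fun i => (ev L (T i) n s φ).1 (z i) - (ev L (T i) n (s * s') φ).1 (x i)) =O[l]
        fun i => T i ^ n := by
    intro n
    induction n with
    | zero =>
      intro s φ
      exact (isBigO_zero _ _).congr_left fun i => by simp [ev]
    | succ n ih =>
      intro s φ
      have a1 := (h' ι l T x z x0 hT hx z1 (n + 1) φ).const_smul_left (s [])
      have a2 := (isBigO_refl T l).smul ((ih (der false s) (L false φ)).add
        (ih (der true s) (L true φ)))
      simp only [smul_eq_mul, ← pow_succ'] at a2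
      refine (a1.add a2).congr_left fun i => ?_
      rw [ev_mul]
      conv_rhs => rw [ev]
      simp only [Submodule.coe_add, Submodule.coe_smul, Pi.add_apply, Pi.smul_apply,
        ← Complex.coe_smul]
      module
  have := (h ι l T z y x0 hT tz z2 n φ).add (key n s φ)
  simpa using this

theorem Exst.comp {s' : Ser} {R R' : ℝ → E → E → Prop} (h : Exst R) (e' : Exst R')
    (h' : Expn L s' R') (hs' : s' [] = 1) : Exst (fun T x y => ∃ z, R' T x z ∧ R T z y) := by
  intro ι l T x x0 hT hx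
  obtain ⟨z, hz⟩ := ev_choice (e' ι l T x x0 hT hx)
  filter_upwards [hz, h ι l T z x0 hT (h'.tendsto hs' hT hx hz)] with i h1 h2
  obtain ⟨y, hy⟩ := h2
  exact ⟨y, z i, h1, hy⟩

theorem Expn.one : Expn L 1 (fun _ x y => y = x) := by
  intro ι l T x y x0 hT hx hR n φ
  cases n with
  | zero =>
    have : Tendsto (fun i => φ.1 (y i)) l (𝓝 (φ.1 x0)) :=
      ((Sm.diff φ).continuous.tendsto x0).comp (hx.congr' (hR.mono fun i hi => hi.symm))
    simpa [ev] using this.isBigO_one ℝ
  | succ n =>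
    refine (isBigO_zero _ _).congr' ?_ EventuallyEq.rfl
    filter_upwards [hR] with i hi
    rw [ev_one, hi, sub_self]

/-- solution of the rescaled equation on the unit interval -/
def Sol (F : E → E) (T : ℝ) (γ : ℝ → E) : Prop :=
  ∀ s ∈ Set.Icc (0 : ℝ) 1, HasDerivWithinAt γ (T • F (γ s)) (Set.Icc 0 1) s

variable [FiniteDimensional ℂ E]

theorem bdd (φ : Sm E) (x0 : E) : ∃ M, 0 ≤ M ∧ ∀ y ∈ Metric.closedBall x0 1, ‖φ.1 y‖ ≤ M := by
  have : ProperSpace E := FiniteDimensional.proper ℂ E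
  obtain ⟨M, hM⟩ := (isCompact_closedBall x0 1).exists_bound_of_continuousOn
    (Sm.diff φ).continuous.continuousOn
  exact ⟨max M 0, le_max_right _ _, fun y hy => (hM y hy).trans (le_max_left _ _)⟩

theorem stay (F : Sm E) (x0 : E) : ∃ δ > 0, ∀ T : ℝ, 0 < T → T < δ → ∀ γ : ℝ → E,
    γ 0 ∈ Metric.closedBall x0 (1 / 2) → Sol F.1 T γ →
      ∀ s ∈ Set.Icc (0 : ℝ) 1, γ s ∈ Metric.closedBall x0 1 := by
  obtain ⟨M, M0, hM⟩ := bdd F x0
  refine ⟨1 / (2 * (M + 1)), by positivity, fun T T0 T1 γ h0 hγ => ?_⟩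
  have hT : T * (M + 1) < 1 / 2 := by
    rw [lt_div_iff₀ (by positivity)] at T1; linarith
  have hin : ∀ s ∈ Set.Icc (0 : ℝ) 1, ‖γ s - γ 0‖ ≤ T * (M + 1) * s →
      γ s ∈ Metric.closedBall x0 1 := by
    intro s hs h
    rw [mem_closedBall_iff_norm] at h0 ⊢
    have := norm_sub_le_norm_sub_add_norm_sub (γ s) (γ 0) x0
    have : T * (M + 1) * s ≤ T * (M + 1) := mul_le_of_le_one_right (by positivity) hs.2
    linarith
  have key := image_norm_le_of_norm_deriv_right_lt_deriv_boundary (f := fun s => γ s - γ 0)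
    (f' := fun s => T • F.1 (γ s)) (a := 0) (b := 1) (B := fun s => T * (M + 1) * s)
    (B' := fun _ => T * (M + 1))
    (fun s hs => (hγ s hs).continuousWithinAt.sub continuousWithinAt_const)
    (fun s hs => ((hγ s (Set.Ico_subset_Icc_self hs)).mono_of_mem_nhdsWithin
      (Icc_mem_nhdsGE_of_mem hs)).sub_const _)
    (by simp) (fun s => by simpa using (hasDerivAt_id s).const_mul (T * (M + 1)))
    (fun s hs h => by
      have := hM _ (hin s (Set.Ico_subset_Icc_self hs) h.le)
      rw [norm_smul, Real.norm_of_nonneg T0.le]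
      nlinarith)
  exact fun s hs => hin s hs (key hs)

theorem taylor (F : Sm E) (x0 : E) (n : ℕ) : ∀ φ : Sm E, ∃ C, ∀ T : ℝ, 0 < T → ∀ γ : ℝ → E,
    Sol F.1 T γ → (∀ s ∈ Set.Icc (0 : ℝ) 1, γ s ∈ Metric.closedBall x0 1) →
      ∀ s ∈ Set.Icc (0 : ℝ) 1, ‖φ.1 (γ s) -
        ∑ k ∈ range n, ((s * T) ^ k / k.factorial : ℝ) • ((Lie F ^ k) φ).1 (γ 0)‖ ≤ C * T ^ n := by
  induction n with
  | zero =>
    intro φ
    obtain ⟨M, _, hM⟩ := bdd φ x0
    exact ⟨M, fun T _ γ _ h s hs => by simpa using hM _ (h s hs)⟩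
  | succ n ih =>
    intro φ
    obtain ⟨C, hC⟩ := ih (Lie F φ)
    refine ⟨C, fun T T0 γ hγ hb s hs => ?_⟩
    have hd : ∀ s ∈ Set.Icc (0 : ℝ) 1, HasDerivWithinAt (fun s => φ.1 (γ s) -
        ∑ k ∈ range n, ((s * T) ^ (k + 1) / (k + 1).factorial : ℝ) •
          ((Lie F ^ k) (Lie F φ)).1 (γ 0))
        (T • ((Lie F φ).1 (γ s) - ∑ k ∈ range n, ((s * T) ^ k / k.factorial : ℝ) •
          ((Lie F ^ k) (Lie F φ)).1 (γ 0))) (Set.Icc 0 1) s := by
      intro s hs
      have d1 := ((Sm.diff φ (γ s)).hasFDerivAt.restrictScalars ℝ).comp_hasDerivWithinAt s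
        (hγ s hs)
      have d2 : ∀ k ∈ range n, HasDerivWithinAt
          (fun s : ℝ => ((s * T) ^ (k + 1) / (k + 1).factorial : ℝ) •
            ((Lie F ^ k) (Lie F φ)).1 (γ 0))
          ((T * ((s * T) ^ k / k.factorial) : ℝ) • ((Lie F ^ k) (Lie F φ)).1 (γ 0))
          (Set.Icc 0 1) s := by
        intro k _
        refine (HasDerivAt.smul_const ?_ _).hasDerivWithinAt
        have := ((((hasDerivAt_id s).mul_const T).pow (k + 1))).div_const
          ((k + 1).factorial : ℝ)
        refine this.congr_deriv ?_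
        have f1 : (k.factorial : ℝ) ≠ 0 := by positivity
        simp only [Nat.factorial_succ, id, Nat.add_sub_cancel]
        push_cast
        field_simp
      have d3 := d1.sub (HasDerivWithinAt.fun_sum d2)
      refine d3.congr_deriv ?_
      rw [smul_sub, Finset.smul_sum, Lie_ap]
      simp only [map_smul, ContinuousLinearMap.coe_restrictScalars', mul_smul]
    have key := norm_image_sub_le_of_norm_deriv_le_segment' (C := T * (C * T ^ n)) hd
      (fun s hs => by
        rw [norm_smul, Real.norm_of_nonneg T0.le]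
        exact mul_le_mul_of_nonneg_left (hC T T0 γ hγ hb s (Set.Ico_subset_Icc_self hs)) T0.le) s hs
    have c0 : 0 ≤ C * T ^ n := (norm_nonneg _).trans (hC T T0 γ hγ hb s hs)
    have : T * (C * T ^ n) * (s - 0) ≤ C * T ^ (n + 1) := by
      rw [sub_zero]
      calc _ ≤ T * (C * T ^ n) := mul_le_of_le_one_right (by positivity) hs.2
        _ = _ := by ring
    refine le_trans (le_of_eq ?_) (key.trans this)
    congr 1
    rw [Finset.sum_range_succ']
    simp only [pow_succ (Lie F), Module.End.mul_apply]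
    simp
    abel

theorem expn_flow (c : Bool → ℂ) (F : Sm E) (hF : c false • L false + c true • L true = Lie F) :
    Expn L (ex c) (fun T x y => ∃ γ : ℝ → E, γ 0 = x ∧ γ 1 = y ∧ Sol F.1 T γ) := by
  intro ι l T x y x0 hT hx hR n φ
  obtain ⟨δ, δ0, hδ⟩ := stay F x0
  obtain ⟨C, hC⟩ := taylor F x0 n φ
  refine IsBigO.of_bound C ?_
  filter_upwards [hR, hT.eventually (Ioo_mem_nhdsGT δ0),
    hx.eventually (Metric.closedBall_mem_nhds x0 one_half_pos)] with i h1 h2 h3
  obtain ⟨γ, g0, g1, hγ⟩ := h1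
  have := hC (T i) h2.1 γ hγ (hδ _ h2.1 h2.2 γ (g0 ▸ h3) hγ) 1 ⟨zero_le_one, le_rfl⟩
  rw [Real.norm_of_nonneg (pow_nonneg h2.1.le n), ev_ex, hF, ← g0, ← g1]
  convert this using 3
  simp only [AddSubmonoidClass.coe_finsetSum, Finset.sum_apply, Submodule.coe_smul, Pi.smul_apply,
    ← Complex.coe_smul]
  refine Finset.sum_congr rfl fun k _ => ?_
  congr 1
  push_cast; ring

theorem exst_flow (F : Sm E) :
    Exst (fun T x y => ∃ γ : ℝ → E, γ 0 = x ∧ γ 1 = y ∧ Sol F.1 T γ) := by
  intro ι l T x x0 hT hx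
  have : ProperSpace E := FiniteDimensional.proper ℂ E
  obtain ⟨M, M0, hM⟩ := bdd F x0
  obtain ⟨K, hK⟩ := (((Sm.cd F).restrict_scalars ℝ).contDiffOn
    (s := Metric.closedBall x0 1)).exists_lipschitzOnWith (by simp) (convex_closedBall _ _)
    (isCompact_closedBall _ _)
  filter_upwards [hT.eventually (Ioo_mem_nhdsGT (show (0 : ℝ) < 1 / (2 * (M + 1)) by positivity)),
    hx.eventually (Metric.closedBall_mem_nhds x0 one_half_pos)] with i h2 h3
  have T0 := h2.1
  have hT : T i * (M + 1) < 1 / 2 := by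
    have := h2.2
    rw [lt_div_iff₀ (by positivity)] at this; linarith
  have hp : IsPicardLindelof (fun (_ : ℝ) (y : E) => T i • F.1 y) (tmin := 0) (tmax := 1)
      ⟨0, by simp⟩ x0 1 (1 / 2) (1 / 2) (‖T i‖₊ * K) := by
    refine IsPicardLindelof.of_time_independent (fun y hy => ?_) ?_ (by norm_num)
    · rw [norm_smul, Real.norm_of_nonneg T0.le]
      have := hM y (by simpa using hy)
      push_cast
      nlinarith
    · exact (lipschitzWith_smul (T i)).comp_lipschitzOnWith (by simpa using hK)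
  obtain ⟨γ, g0, hγ⟩ := hp.exists_eq_forall_mem_Icc_hasDerivWithinAt (x := x i) (by simpa using h3)
  exact ⟨γ 1, γ, g0, rfl, hγ⟩

end Pool.Agent.H25.Split
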