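import Mathlib

open Finset Matrix

namespace Pool.Agent.H25.Spread

variable {n : ℕ}

/-- Laplacian `D - A` (out-degrees) of the digraph with arc relation `E`. -/
def lap (R : Type) [Ring R] (E : Fin n → Fin n → Bool) : Matrix (Fin n) (Fin n) R :=
  Matrix.diagonal (fun i => ((univ.filter fun j => E i j).card : R)) -
    Matrix.of fun i j => if E i j then 1 else 0

/-- the values `xᵀ L x` for real unit vectors `x ⊥ e`. -/
def vals (E : Fin n → Fin n → Bool) : Set ℝ :=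
  {r | ∃ x : Fin n → ℝ, ∑ i, x i = 0 ∧ x ⬝ᵥ x = 1 ∧ r = x ⬝ᵥ (lap ℝ E *ᵥ x)}

/-- restricted numerical range. -/
def Wr (E : Fin n → Fin n → Bool) : Set ℂ :=
  {z | ∃ x : Fin n → ℂ, ∑ i, x i = 0 ∧ star x ⬝ᵥ x = 1 ∧ z = star x ⬝ᵥ (lap ℂ E *ᵥ x)}

/-- the columns of `Q` are an orthonormal basis of `e^⊥`. -/
def Restrictor (Q : Matrix (Fin n) (Fin (n - 1)) ℂ) : Prop :=
  Qᴴ * Q = 1 ∧ ∀ x : Fin n → ℂ, ∑ i, x i = 0 ↔ ∃ y, x = Q *ᵥ y

/-- `W_r` is the convex hull of the eigenvalues of `Q* L Q`. -/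
def Polygonal (E : Fin n → Fin n → Bool) (Q : Matrix (Fin n) (Fin (n - 1)) ℂ) : Prop :=
  Wr E = convexHull ℝ (spectrum ℂ (Qᴴ * lap ℂ E * Q))

lemma lap_map {R S : Type} [Ring R] [Ring S] (f : R →+* S) (E : Fin n → Fin n → Bool) :
    (lap R E).map f = lap S E := by
  ext i j
  simp only [lap, map_apply, Matrix.sub_apply, diagonal_apply, of_apply, map_sub]
  split_ifs <;> simp

lemma lap_one (R : Type) [Ring R] (E : Fin n → Fin n → Bool) :
    lap R E *ᵥ (fun _ => (1 : R)) = 0 := by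
  ext i
  simp [lap, sub_mulVec, mulVec_diagonal, mulVec, dotProduct, sum_sub_distrib, diagonal_apply]

lemma spec_iff {m : Type} [Fintype m] [DecidableEq m] (M : Matrix m m ℂ) (l : ℂ) :
    l ∈ spectrum ℂ M ↔ ∃ y ≠ 0, M *ᵥ y = l • y := by
  rw [spectrum.mem_iff, Matrix.isUnit_iff_isUnit_det, isUnit_iff_ne_zero, not_not,
    ← Matrix.exists_mulVec_eq_zero_iff]
  simp only [sub_mulVec, Algebra.algebraMap_eq_smul_one, smul_mulVec, one_mulVec, sub_eq_zero]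
  exact exists_congr fun y => and_congr_right fun _ => eq_comm

lemma spec_Q {Q : Matrix (Fin n) (Fin (n - 1)) ℂ} (hQ : Restrictor Q) (hn : n ≠ 0)
    (L : Matrix (Fin n) (Fin n) ℂ) (l : ℂ) :
    l ∈ spectrum ℂ (Qᴴ * L * Q) ↔
      ∃ x ≠ 0, ∑ i, x i = 0 ∧ ∃ t : ℂ, L *ᵥ x = l • x + t • fun _ => 1 := by
  have he : Qᴴ *ᵥ (fun _ => (1 : ℂ)) = 0 := by
    ext k
    have := (hQ.2 _).2 ⟨Pi.single k 1, rfl⟩
    simp only [mulVec_single_one, col_apply] at this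
    simp only [mulVec, dotProduct, conjTranspose_apply, mul_one, Pi.zero_apply]
    rw [← star_sum, this, star_zero]
  have hq : ∀ y, Qᴴ *ᵥ (Q *ᵥ y) = y := fun y => by rw [mulVec_mulVec, hQ.1, one_mulVec]
  rw [spec_iff]
  constructor
  · rintro ⟨y, hy, h⟩
    refine ⟨Q *ᵥ y, fun h0 => hy (by rw [← hq y, h0, mulVec_zero]), (hQ.2 _).2 ⟨y, rfl⟩, ?_⟩
    set v := L *ᵥ (Q *ᵥ y) - l • Q *ᵥ y with hv
    have hn' : (n : ℂ) ≠ 0 := by exact_mod_cast hn
    obtain ⟨w, hw⟩ := (hQ.2 (v - ((∑ i, v i) / n) • fun _ => 1)).1 (by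
      simp [sum_sub_distrib]; field_simp; simp)
    have h1 : Qᴴ *ᵥ v = 0 := by
      rw [hv, mulVec_sub, mulVec_smul, hq, mulVec_mulVec, mulVec_mulVec, h, sub_self]
    have h2 : w = 0 := by
      rw [← hq w, ← hw, mulVec_sub, mulVec_smul, h1, he]; simp
    rw [h2, mulVec_zero, sub_eq_zero] at hw
    exact ⟨_, by rw [← hw, hv]; simp⟩
  · rintro ⟨x, hx, h0, t, h⟩
    obtain ⟨y, rfl⟩ := (hQ.2 x).1 h0
    refine ⟨y, fun h0 => hx (by rw [h0, mulVec_zero]), ?_⟩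
    rw [← mulVec_mulVec, ← mulVec_mulVec, h, mulVec_add, mulVec_smul, mulVec_smul, hq, he]
    simp

/-- real and imaginary parts of a Hermitian-type form with a real matrix. -/
lemma form_re (L : Matrix (Fin n) (Fin n) ℝ) (x : Fin n → ℂ) :
    (star x ⬝ᵥ (L.map Complex.ofRealHom *ᵥ x)).re =
      (fun i => (x i).re) ⬝ᵥ (L *ᵥ fun i => (x i).re) +
        (fun i => (x i).im) ⬝ᵥ (L *ᵥ fun i => (x i).im) := by
  simp [dotProduct, mulVec, ← sum_add_distrib, Complex.re_sum, Complex.im_sum]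

lemma form_im (L : Matrix (Fin n) (Fin n) ℝ) (x : Fin n → ℂ) :
    (star x ⬝ᵥ (L.map Complex.ofRealHom *ᵥ x)).im =
      (fun i => (x i).re) ⬝ᵥ (L *ᵥ fun i => (x i).im) -
        (fun i => (x i).im) ⬝ᵥ (L *ᵥ fun i => (x i).re) := by
  simp [dotProduct, mulVec, Complex.re_sum, Complex.im_sum, sub_eq_add_neg, sum_add_distrib]

lemma norm_re (x : Fin n → ℂ) : star x ⬝ᵥ x =
    (((fun i => (x i).re) ⬝ᵥ (fun i => (x i).re) + (fun i => (x i).im) ⬝ᵥ fun i => (x i).im : ℝ) : ℂ) := by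
  apply Complex.ext
  · simp [dotProduct, ← sum_add_distrib, Complex.re_sum]
  · simp [dotProduct, Complex.im_sum, mul_comm]

open scoped ComplexOrder in
lemma spec_mem_W (E : Fin n → Fin n → Bool) (l t : ℂ) (x : Fin n → ℂ) (hx : x ≠ 0)
    (h0 : ∑ i, x i = 0) (h : lap ℂ E *ᵥ x = l • x + t • fun _ => 1) : l ∈ Wr E := by
  obtain ⟨r, hr0, hr⟩ : ∃ r : ℝ, 0 < r ∧ star x ⬝ᵥ x = r := by
    have := (dotProduct_star_self_pos_iff (v := x)).2 hx
    exact ⟨_, (Complex.pos_iff.1 this).1, Complex.ext rfl (by simpa using (Complex.pos_iff.1 this).2.symm)⟩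
  have hs : ((√r : ℝ) : ℂ) * √r = r := by rw [← Complex.ofReal_mul, Real.mul_self_sqrt hr0.le]
  have hs0 : ((√r : ℝ) : ℂ) ≠ 0 := by simpa using (Real.sqrt_pos.2 hr0).ne'
  have h1 : star x ⬝ᵥ (fun _ => (1 : ℂ)) = 0 := by
    simp only [dotProduct, Pi.star_apply, mul_one]; rw [← star_sum, h0, star_zero]
  refine ⟨((√r : ℝ) : ℂ)⁻¹ • x, by simp [← mul_sum, h0], ?_, ?_⟩
  · rw [star_smul, smul_dotProduct, dotProduct_smul, hr, ← hs]; simp; field_simp
  · rw [star_smul, smul_dotProduct, mulVec_smul, dotProduct_smul, h, dotProduct_add,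
      dotProduct_smul, dotProduct_smul, hr, h1, ← hs]; simp; field_simp

/-- bordered pencil. -/
def N {R : Type} [CommRing R] (S : Matrix (Fin n) (Fin n) ℤ) (z : R) :
    Matrix (Option (Fin n)) (Option (Fin n)) R :=
  Matrix.of fun i j => match i, j with
    | some i, some j => (S i j : R) - if i = j then z else 0
    | none, none => 0
    | _, _ => 1

lemma N_det {R R' : Type} [CommRing R] [CommRing R'] (f : R →+* R') (S : Matrix (Fin n) (Fin n) ℤ)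
    (z : R) : (N S (f z)).det = f (N S z).det := by
  rw [RingHom.map_det]
  congr 1
  ext i j
  rcases i with _ | i <;> rcases j with _ | j <;> simp [N]
  split_ifs <;> simp

lemma N_iff {R : Type} [Field R] (hn : n ≠ 0) (S : Matrix (Fin n) (Fin n) ℤ) (z : R) :
    (N S z).det = 0 ↔ ∃ x : Fin n → R, x ≠ 0 ∧ ∑ i, x i = 0 ∧
      ∃ t : R, S.map (Int.castRingHom R) *ᵥ x = z • x + t • fun _ => 1 := by
  rw [← Matrix.exists_mulVec_eq_zero_iff]
  constructor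
  · rintro ⟨v, hv, h⟩
    have h0 := congrFun h none
    have h1 := fun i => congrFun h (some i)
    simp [N, mulVec, dotProduct, Fintype.sum_option, sub_mul, sum_sub_distrib] at h0 h1
    refine ⟨fun i => v (some i), fun hx => hv ?_, h0, -v none, ?_⟩
    · have hx' : ∀ i, v (some i) = 0 := fun i => congrFun hx i
      have := h1 ⟨0, Nat.pos_of_ne_zero hn⟩
      ext i
      rcases i with _ | i
      · simpa [hx'] using this
      · exact hx' i
    · ext i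
      simp [mulVec, dotProduct]
      linear_combination h1 i
  · rintro ⟨x, hx, h0, t, h⟩
    refine ⟨fun i => i.elim (-t) x, fun hv => hx (funext fun i => congrFun hv (some i)), ?_⟩
    ext i
    rcases i with _ | i
    · simpa [N, mulVec, dotProduct, Fintype.sum_option] using h0
    · have := congrFun h i
      simp [mulVec, dotProduct] at this
      simp [N, mulVec, dotProduct, Fintype.sum_option, sub_mul, sum_sub_distrib]
      linear_combination this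

open IntermediateField in
lemma kron (S : Matrix (Fin n) (Fin n) ℤ) (μ a : ℝ) (hi : IsIntegral ℤ μ) (hd : (N S μ).det = 0)
    (hr : ∀ z : ℂ, (N S z).det = 0 → ∃ r : ℝ, z = r ∧ a ≤ r ∧ r ≤ a + 2) : ∃ m : ℤ, μ = m := by
  obtain ⟨m, ε, hε, hm⟩ : ∃ m ε : ℤ, ε * ε = 1 ∧
      ∀ r : ℝ, a ≤ r → r ≤ a + 2 → -1 ≤ ε * (r - m) ∧ ε * (r - m) ≤ 3 / 2 := by
    have h1 := Int.floor_le a
    have h2 := Int.lt_floor_add_one a
    by_cases h : a - ⌊a⌋ ≤ 1 / 2
    · exact ⟨⌊a⌋ + 1, 1, rfl, fun r _ _ => by push_cast; constructor <;> linarith⟩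
    · exact ⟨⌊a⌋ + 2, -1, rfl, fun r _ _ => by push_cast; constructor <;> linarith⟩
  let K := ℚ⟮μ⟯
  let : NumberField K :=
    { to_charZero := ℚ⟮μ⟯.charZero
      to_finiteDimensional := adjoin.finiteDimensional hi.tower_top }
  let y : K := ⟨μ, mem_adjoin_simple_self ℚ μ⟩
  have hy : IsIntegral ℤ y := coe_isIntegral_iff.mp hi
  have hdy : (N S y).det = 0 :=
    (algebraMap K ℝ).injective (by rw [← N_det, map_zero]; exact hd)
  set t : K := ε * (y - m) with ht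
  have hti : IsIntegral ℤ t := (isIntegral_intCast _).mul (hy.sub (isIntegral_intCast _))
  have hlt : ∀ φ : K →+* ℂ, ‖φ (t * (t + 1) * (t - 1) ^ 2)‖ < 1 := fun φ => by
    obtain ⟨r, h, h1, h2⟩ := hr (φ y) (by rw [N_det, hdy, map_zero])
    obtain ⟨h3, h4⟩ := hm r h1 h2
    set u : ℝ := ε * (r - m) with hu
    have : φ (t * (t + 1) * (t - 1) ^ 2) = ((u * (u + 1) * (u - 1) ^ 2 : ℝ) : ℂ) := by
      simp [ht, hu, h]
    rw [this, Complex.norm_real, Real.norm_eq_abs, abs_lt]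
    constructor
    · nlinarith [sq_nonneg (u ^ 2 - u / 2 - 3 / 4), sq_nonneg (u + 1 / 2), sq_nonneg u]
    · rcases le_total u 1 with h | h
      · rcases le_total u 0 with h' | h'
        · nlinarith [mul_nonneg (mul_nonneg (neg_nonneg.2 h') (by linarith : 0 ≤ u + 1))
            (sq_nonneg (u - 1))]
        · have : u * (1 - u) ≤ 1 / 4 := by nlinarith [sq_nonneg (u - 1 / 2)]
          have : (u + 1) * (1 - u) ≤ 1 := by nlinarith
          nlinarith [mul_nonneg h' (by linarith : 0 ≤ 1 - u)]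
      · have : (u - 1) ^ 2 ≤ 1 / 4 := by nlinarith
        have : u * (u + 1) ≤ 15 / 4 := by nlinarith
        nlinarith [sq_nonneg (u - 1)]
  have h0 : t * (t + 1) * (t - 1) ^ 2 = 0 := by
    by_contra h
    obtain ⟨k, hk, h1⟩ := NumberField.Embeddings.pow_eq_one_of_norm_le_one K ℂ h
      ((hti.mul (hti.add isIntegral_one)).mul ((hti.sub isIntegral_one).pow 2))
      fun φ => (hlt φ).le
    have h2 := congrArg (fun x => ‖(Complex.ofRealHom.comp (algebraMap K ℝ)) x‖) h1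
    simp only [map_pow (Complex.ofRealHom.comp (algebraMap K ℝ)) _ k, norm_pow, map_one,
      norm_one] at h2
    exact (pow_lt_one₀ (norm_nonneg _) (hlt _) hk.ne').ne h2
  have h1 : ∃ c : ℤ, t = c := by
    simp only [mul_eq_zero, pow_eq_zero_iff two_ne_zero] at h0
    rcases h0 with (h | h) | h
    · exact ⟨0, by simpa using h⟩
    · exact ⟨-1, by simpa using eq_neg_of_add_eq_zero_left h⟩
    · exact ⟨1, by simpa using sub_eq_zero.1 h⟩
  obtain ⟨c, hc⟩ := h1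
  have h2 : (ε : ℝ) * (μ - m) = c := by simpa [ht, y] using congrArg (algebraMap K ℝ) hc
  have h3 : (ε : ℝ) * ε = 1 := by exact_mod_cast hε
  exact ⟨ε * c + m, by push_cast; linear_combination ε * h2 - (μ - m) * h3⟩

/-- `α` is a lower bound of the form on `e^⊥`. -/
def Lo (L : Matrix (Fin n) (Fin n) ℝ) (α : ℝ) : Prop :=
  ∀ y : Fin n → ℝ, ∑ i, y i = 0 → α * y ⬝ᵥ y ≤ y ⬝ᵥ L *ᵥ y

lemma lo_of (L : Matrix (Fin n) (Fin n) ℝ) (α : ℝ)
    (h : ∀ x : Fin n → ℝ, ∑ i, x i = 0 → x ⬝ᵥ x = 1 → α ≤ x ⬝ᵥ L *ᵥ x) : Lo L α := by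
  intro y hy
  by_cases h0 : y = 0
  · simp [h0]
  have hr : 0 < y ⬝ᵥ y := by simpa using (dotProduct_star_self_pos_iff (v := y)).2 h0
  have hs := Real.mul_self_sqrt hr.le
  have hs0 := Real.sqrt_pos.2 hr
  have := h ((√(y ⬝ᵥ y))⁻¹ • y) (by simp [← mul_sum, hy]) (by
    rw [smul_dotProduct, dotProduct_smul, smul_eq_mul, smul_eq_mul]
    set s := √(y ⬝ᵥ y); rw [← hs]; field_simp)
  rw [smul_dotProduct, mulVec_smul, dotProduct_smul, smul_eq_mul, smul_eq_mul] at this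
  set s := √(y ⬝ᵥ y)
  rw [← hs]
  rw [← mul_assoc, ← mul_inv, inv_mul_eq_div, le_div_iff₀ (by positivity)] at this
  exact this

lemma pol {L : Matrix (Fin n) (Fin n) ℝ} {α : ℝ} (h : Lo L α) {x : Fin n → ℝ} (hx : ∑ i, x i = 0)
    (he : x ⬝ᵥ L *ᵥ x = α * x ⬝ᵥ x) (y : Fin n → ℝ) (hy : ∑ i, y i = 0) :
    x ⬝ᵥ L *ᵥ y + y ⬝ᵥ L *ᵥ x = 2 * α * x ⬝ᵥ y := by
  have := discrim_le_zero (a := y ⬝ᵥ L *ᵥ y - α * y ⬝ᵥ y)
    (b := x ⬝ᵥ L *ᵥ y + y ⬝ᵥ L *ᵥ x - 2 * α * x ⬝ᵥ y) (c := 0) fun t => by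
      have := h (x + t • y) (by simp [sum_add_distrib, ← mul_sum, hx, hy])
      simp only [mulVec_add, mulVec_smul, add_dotProduct, dotProduct_add, smul_dotProduct,
        dotProduct_smul, smul_eq_mul, dotProduct_comm y x] at this
      nlinarith
  simp only [discrim, mul_zero, sub_zero] at this
  nlinarith

lemma eig {L : Matrix (Fin n) (Fin n) ℝ} {α : ℝ} (h : Lo L α) {x : Fin n → ℝ} (hx : ∑ i, x i = 0)
    (he : x ⬝ᵥ L *ᵥ x = α * x ⬝ᵥ x) (i₀ : Fin n) :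
    ∃ t : ℝ, (L + Lᵀ) *ᵥ x = (2 * α) • x + t • fun _ => 1 := by
  refine ⟨((L + Lᵀ) *ᵥ x) i₀ - 2 * α * x i₀, funext fun i => ?_⟩
  have := pol h hx he (Pi.single i 1 - Pi.single i₀ 1) (by simp [sum_sub_distrib])
  rw [dotProduct_mulVec, ← mulVec_transpose] at this
  simp [add_mulVec] at this ⊢
  linarith

theorem core (hn : 2 ≤ n) (L : Matrix (Fin n) (Fin n) ℤ) (α β : ℝ)
    (hα : Lo (L.map (Int.castRingHom ℝ)) α) (hβ : Lo (-L.map (Int.castRingHom ℝ)) (-β))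
    (x : Fin n → ℝ) (hx : ∑ i, x i = 0) (hx1 : x ⬝ᵥ x = 1)
    (hxa : α = x ⬝ᵥ L.map (Int.castRingHom ℝ) *ᵥ x)
    (y : Fin n → ℝ) (hy : ∑ i, y i = 0) (hy1 : y ⬝ᵥ y = 1)
    (hyb : β = y ⬝ᵥ L.map (Int.castRingHom ℝ) *ᵥ y)
    (ia : IsIntegral ℤ (2 * α)) (ib : IsIntegral ℤ (2 * β)) : ¬(0 < β - α ∧ β - α < 1) := by
  rintro ⟨h0, h1⟩
  set M := L.map (Int.castRingHom ℝ) with hM
  have hn0 : n ≠ 0 := by omega
  let i₀ : Fin n := ⟨0, by omega⟩
  have hS : (L + Lᵀ).map (Int.castRingHom ℝ) = M + Mᵀ := by ext i j; simp [hM]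
  have hT : ∀ u : Fin n → ℝ, u ⬝ᵥ (M + Mᵀ) *ᵥ u = 2 * u ⬝ᵥ M *ᵥ u := fun u => by
    rw [add_mulVec, dotProduct_add, mulVec_transpose, dotProduct_comm u (u ᵥ* M),
      ← dotProduct_mulVec, two_mul]
  have hr : ∀ z : ℂ, (N (L + Lᵀ) z).det = 0 → ∃ r : ℝ, z = r ∧ 2 * α ≤ r ∧ r ≤ 2 * α + 2 := by
    intro z hz
    obtain ⟨v, hv, hv0, t, h⟩ := (N_iff hn0 _ z).1 hz
    have e1 : star v ⬝ᵥ (fun _ => (1 : ℂ)) = 0 := by
      simp only [dotProduct, Pi.star_apply, mul_one]; rw [← star_sum, hv0, star_zero]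
    have e2 : (L + Lᵀ).map (Int.castRingHom ℂ) = (M + Mᵀ).map Complex.ofRealHom := by
      ext i j; simp [hM]
    have e3 := congrArg (star v ⬝ᵥ ·) h
    simp only [dotProduct_add, dotProduct_smul, e1, mul_zero, add_zero, e2, norm_re,
      smul_eq_mul] at e3
    have a0 : ∑ i, (v i).re = 0 := by rw [← Complex.re_sum, hv0]; rfl
    have b0 : ∑ i, (v i).im = 0 := by rw [← Complex.im_sum, hv0]; rfl
    have e4 := congrArg Complex.re e3
    have e5 := congrArg Complex.im e3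
    rw [form_re, hT, hT] at e4
    rw [form_im, dotProduct_mulVec, ← mulVec_transpose, transpose_add, transpose_transpose,
      add_comm Mᵀ, dotProduct_comm, sub_self] at e5
    have l1 := hα _ a0
    have l2 := hα _ b0
    have l3 := hβ _ a0
    have l4 := hβ _ b0
    simp only [neg_mulVec, dotProduct_neg] at l3 l4
    set a := fun i => (v i).re
    set b := fun i => (v i).im
    have hp : 0 < a ⬝ᵥ a + b ⬝ᵥ b := by
      have p1 : 0 ≤ a ⬝ᵥ a := by simpa using dotProduct_star_self_nonneg a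
      have p2 : 0 ≤ b ⬝ᵥ b := by simpa using dotProduct_star_self_nonneg b
      by_contra hc
      have q1 := dotProduct_self_eq_zero.1 (by linarith : a ⬝ᵥ a = 0)
      have q2 := dotProduct_self_eq_zero.1 (by linarith : b ⬝ᵥ b = 0)
      exact hv (funext fun i => Complex.ext (congrFun q1 i) (congrFun q2 i))
    simp only [Complex.mul_re, Complex.mul_im, Complex.ofReal_re, Complex.ofReal_im, mul_zero,
      sub_zero, zero_add] at e4 e5
    refine ⟨z.re, Complex.ext rfl ((mul_eq_zero.1 e5.symm).resolve_right hp.ne'), ?_, ?_⟩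
    · exact le_of_mul_le_mul_right (by nlinarith) hp
    · exact le_of_mul_le_mul_right (by nlinarith) hp
  obtain ⟨m, hm⟩ := kron (L + Lᵀ) (2 * α) _ ia ((N_iff hn0 _ _).2 ⟨x, by rintro rfl; simp at hx1,
    hx, by rw [hS]; exact eig hα hx (by rw [hx1, mul_one, hxa]) i₀⟩) hr
  obtain ⟨k, hk⟩ := kron (L + Lᵀ) (2 * β) _ ib ((N_iff hn0 _ _).2 ⟨y, by rintro rfl; simp at hy1,
    hy, by
      obtain ⟨t, ht⟩ := eig hβ hy (by rw [hy1, mul_one, hyb, neg_mulVec, dotProduct_neg]) i₀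
      refine ⟨-t, ?_⟩
      rw [hS, ← neg_neg (M + Mᵀ), neg_mulVec, neg_add, ← transpose_neg, ht]
      ext i; simp; ring⟩) hr
  have hk' : k = m + 1 := by
    have : (m : ℝ) < k := by linarith
    have : (k : ℝ) < m + 2 := by linarith
    have : m < k := by exact_mod_cast ‹(m : ℝ) < k›
    have : k < m + 2 := by exact_mod_cast ‹(k : ℝ) < m + 2›
    omega
  let v : Fin n → Fin n → ℝ := fun i => Pi.single i 1 - Pi.single i₀ 1
  have hv : ∀ i, ∑ j, v i j = 0 := fun i => by simp [v, sum_sub_distrib]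
  have key : ∀ i, (∀ u : Fin n → ℝ, ∑ j, u j = 0 →
      v i ⬝ᵥ M *ᵥ u + u ⬝ᵥ M *ᵥ v i = 2 * α * v i ⬝ᵥ u) ∨ ∀ u : Fin n → ℝ, ∑ j, u j = 0 →
      v i ⬝ᵥ M *ᵥ u + u ⬝ᵥ M *ᵥ v i = 2 * β * v i ⬝ᵥ u := by
    intro i
    by_cases hi : i = i₀
    · left; simp [v, hi]
    have e1 : v i ⬝ᵥ v i = 2 := by simp [v, hi, Ne.symm hi]; norm_num
    obtain ⟨w, hw⟩ : ∃ w : ℤ, v i ⬝ᵥ M *ᵥ v i = w :=
      ⟨L i i - L i i₀ - (L i₀ i - L i₀ i₀), by simp [v, mulVec_sub, hM]; ring⟩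
    have l1 := hα _ (hv i)
    have l2 := hβ _ (hv i)
    rw [neg_mulVec, dotProduct_neg, e1, hw] at l2
    rw [e1, hw] at l1
    have l3 : m ≤ w := by exact_mod_cast (by linarith : (m : ℝ) ≤ w)
    have l4 : w ≤ k := by exact_mod_cast (by linarith : (w : ℝ) ≤ k)
    rcases (by omega : w = m ∨ w = k) with h | h
    · exact Or.inl (pol hα (hv i) (by rw [hw, e1, h]; linarith))
    · refine Or.inr fun u hu => ?_
      have := pol hβ (hv i) (by rw [neg_mulVec, dotProduct_neg, hw, e1, h]; linarith) u hu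
      simp only [neg_mulVec, dotProduct_neg] at this
      linarith
  have fin : ∀ γ : ℝ, (∀ i, ∀ u : Fin n → ℝ, ∑ j, u j = 0 →
      v i ⬝ᵥ M *ᵥ u + u ⬝ᵥ M *ᵥ v i = 2 * γ * v i ⬝ᵥ u) →
      ∀ u : Fin n → ℝ, ∑ j, u j = 0 → u ⬝ᵥ u = 1 → u ⬝ᵥ M *ᵥ u = γ := by
    intro γ h u hu hu1
    have e : ∑ i, u i • v i = u := by
      simp only [v, smul_sub, sum_sub_distrib, ← sum_smul, hu, zero_smul, sub_zero]
      ext j; simp [Pi.single_apply]
    have := sum_congr (rfl : univ = univ) fun i _ => congrArg (u i * ·) (h i u hu)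
    simp only [mul_add, sum_add_distrib] at this
    have f1 : ∑ i, u i * v i ⬝ᵥ M *ᵥ u = u ⬝ᵥ M *ᵥ u := by
      conv_rhs => rw [← e, sum_dotProduct, e]
      simp
    have f2 : ∑ i, u i * u ⬝ᵥ M *ᵥ v i = u ⬝ᵥ M *ᵥ u := by
      conv_rhs => enter [2]; rw [← e, mulVec_sum]
      simp [dotProduct_sum, mulVec_smul]
    have f3 : ∑ i, u i * (2 * γ * v i ⬝ᵥ u) = 2 * γ * u ⬝ᵥ u := by
      conv_rhs => enter [2, 1]; rw [← e]
      simp [sum_dotProduct, mul_sum, mul_left_comm]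
    rw [f1, f2, f3, hu1] at this
    linarith
  by_cases hA : ∀ i, ∀ u : Fin n → ℝ, ∑ j, u j = 0 →
      v i ⬝ᵥ M *ᵥ u + u ⬝ᵥ M *ᵥ v i = 2 * α * v i ⬝ᵥ u
  · have := fin α hA y hy hy1; linarith
  obtain ⟨i, hi⟩ := not_forall.1 hA
  have hB := (key i).resolve_left hi
  have := fin β (fun j => (key j).elim (fun hj => ?_) id) x hx hx1
  · linarith
  by_cases hj0 : j = i₀
  · simp [v, hj0]
  have hi0 : i ≠ i₀ := by rintro rfl; exact hi (by simp [v])
  have hij : i ≠ j := by rintro rfl; exact hi hj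
  have e1 := hj _ (hv i)
  have e2 := hB _ (hv j)
  have e3 : v i ⬝ᵥ v j = 1 := by simp [v, hi0, hj0, hij, Ne.symm hi0, Ne.symm hj0, hij.symm]
  rw [dotProduct_comm (v j) (v i), e3] at e1
  rw [e3] at e2
  linarith

lemma int_eig {R : Type} [Field R] (S : Matrix (Fin n) (Fin n) ℤ) (z : R) (x : Fin n → R)
    (hx : x ≠ 0) (h : S.map (Int.castRingHom R) *ᵥ x = z • x) : IsIntegral ℤ z := by
  refine ⟨S.charpoly, S.charpoly_monic, ?_⟩
  rw [Polynomial.eval₂_eq_eval_map, algebraMap_int_eq, ← Matrix.charpoly_map, Matrix.eval_charpoly,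
    ← Matrix.exists_mulVec_eq_zero_iff]
  exact ⟨x, hx, by rw [sub_mulVec, h]; ext i; simp [mulVec_diagonal]⟩

lemma lo_vals {E : Fin n → Fin n → Bool} {α β : ℝ} (hα : IsLeast (vals E) α)
    (hβ : IsGreatest (vals E) β) : Lo (lap ℝ E) α ∧ Lo (-lap ℝ E) (-β) :=
  ⟨lo_of _ _ fun x h0 h1 => hα.2 ⟨x, h0, h1, rfl⟩, lo_of _ _ fun x h0 h1 => by
    rw [neg_mulVec, dotProduct_neg]; exact neg_le_neg (hβ.2 ⟨x, h0, h1, rfl⟩)⟩

theorem gap (hn : 2 ≤ n) {E : Fin n → Fin n → Bool} {α β : ℝ} (hα : IsLeast (vals E) α)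
    (hβ : IsGreatest (vals E) β) (ia : IsIntegral ℤ (2 * α)) (ib : IsIntegral ℤ (2 * β)) :
    ¬(0 < β - α ∧ β - α < 1) := by
  obtain ⟨l1, l2⟩ := lo_vals hα hβ
  obtain ⟨x, x0, x1, x2⟩ := hα.1
  obtain ⟨y, y0, y1, y2⟩ := hβ.1
  rw [← lap_map (Int.castRingHom ℝ)] at l1 l2 x2 y2
  exact core hn _ α β l1 l2 x x0 x1 x2 y y0 y1 y2 ia ib

end Pool.Agent.H25.Spread
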