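import Mathlib

set_option autoImplicit false

namespace Pool.Agent.H25.Std

open AddMonoidAlgebra

/-- abstract data: a ring `R` with sign-commuting words and a commuting copy of `A`. -/
structure Data (I A R : Type) [Ring A] [Ring R] (N : ℕ) where
  e : List I → R
  j : A →+* R
  e_nil : e [] = 1
  e_append : ∀ w w', e (w ++ w') = e w * e w'
  e_comm : ∀ w w', e w * e w' = (-1) ^ (w.length * w'.length) * (e w' * e w)
  e_sq : ∀ w, w ≠ [] → e w * e w = 0
  e_long : ∀ w, N < w.length → e w = 0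
  ej : ∀ w a, j a * e w = e w * j a

section core
variable {I A R G : Type} [Ring A] [Ring R] {N : ℕ} (d : Data I A R N)

noncomputable def gen (m : G → ℕ) (w : List I) (a : A) : AddMonoidAlgebra R (G → ℕ) :=
  single m (d.e w * d.j a)

lemma gen_mul (m m' : G → ℕ) (w w' : List I) (a a' : A) :
    gen d m w a * gen d m' w' a' = gen d (m + m') (w ++ w') (a * a') := by
  unfold gen
  rw [single_mul_single, d.e_append, map_mul]
  congr 1
  rw [mul_assoc, ← mul_assoc (d.j a), d.ej, mul_assoc, mul_assoc]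

noncomputable def Gen (C : (G → ℕ) → List I → A → Prop) : AddSubgroup (AddMonoidAlgebra R (G → ℕ)) :=
  AddSubgroup.closure {x | ∃ m w a, C m w a ∧ x = gen d m w a}

lemma gen_mem {C : (G → ℕ) → List I → A → Prop} {m : G → ℕ} {w : List I} {a : A} (h : C m w a) :
    gen d m w a ∈ Gen d C := AddSubgroup.subset_closure ⟨m, w, a, h, rfl⟩

lemma Gen_mono {C C' : (G → ℕ) → List I → A → Prop} (h : ∀ m w a, C m w a → C' m w a)
    {x : AddMonoidAlgebra R (G → ℕ)} (hx : x ∈ Gen d C) : x ∈ Gen d C' := by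
  refine AddSubgroup.closure_mono ?_ hx
  rintro y ⟨m, w, a, h1, rfl⟩
  exact ⟨m, w, a, h m w a h1, rfl⟩

lemma Gen_ind {C : (G → ℕ) → List I → A → Prop} (S : AddSubgroup (AddMonoidAlgebra R (G → ℕ)))
    (h : ∀ m w a, C m w a → gen d m w a ∈ S) {x : AddMonoidAlgebra R (G → ℕ)}
    (hx : x ∈ Gen d C) : x ∈ S := by
  refine (AddSubgroup.closure_le S).2 ?_ hx
  rintro y ⟨m, w, a, h1, rfl⟩
  exact h m w a h1

lemma Gen_ind₂ {C C' : (G → ℕ) → List I → A → Prop}
    (S : AddSubgroup (AddMonoidAlgebra R (G → ℕ))) (s : ℤ)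
    (h : ∀ m w a m' w' a', C m w a → C' m' w' a' →
      gen d m w a * gen d m' w' a' - s • (gen d m' w' a' * gen d m w a) ∈ S)
    {x y : AddMonoidAlgebra R (G → ℕ)} (hx : x ∈ Gen d C) (hy : y ∈ Gen d C') :
    x * y - s • (y * x) ∈ S := by
  have h1 : ∀ m w a, C m w a → gen d m w a * y - s • (y * gen d m w a) ∈ S := by
    intro m w a hc
    exact Gen_ind d (S.comap (AddMonoidHom.mulLeft (gen d m w a) -
      s • AddMonoidHom.mulRight (gen d m w a))) (fun m' w' a' hc' => h m w a m' w' a' hc hc') hy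
  exact Gen_ind d (S.comap (AddMonoidHom.mulRight y - s • AddMonoidHom.mulLeft y))
    (fun m w a hc => h1 m w a hc) hx

lemma Gen_mul {C C' C'' : (G → ℕ) → List I → A → Prop}
    (h : ∀ m w a m' w' a', C m w a → C' m' w' a' → C'' (m + m') (w ++ w') (a * a'))
    {x y : AddMonoidAlgebra R (G → ℕ)} (hx : x ∈ Gen d C) (hy : y ∈ Gen d C') :
    x * y ∈ Gen d C'' := by
  have := Gen_ind₂ d (Gen d C'') 0 (fun m w a m' w' a' hc hc' => by
    rw [zero_smul, sub_zero, gen_mul]
    exact gen_mem d (h _ _ _ _ _ _ hc hc')) hx hy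
  simpa using this

lemma Gen_coeff {C : (G → ℕ) → List I → A → Prop} (m0 : G → ℕ) (h : ∀ w a, ¬ C m0 w a)
    {x : AddMonoidAlgebra R (G → ℕ)} (hx : x ∈ Gen d C) : x.coeff m0 = 0 := by
  let S : AddSubgroup (AddMonoidAlgebra R (G → ℕ)) :=
    { carrier := {x | x.coeff m0 = 0}
      zero_mem' := by simp
      add_mem' := fun {a b} ha hb => by
        simp only [Set.mem_ofPred_eq] at ha hb ⊢
        simp [ha, hb]
      neg_mem' := fun {a} ha => by
        simp only [Set.mem_ofPred_eq] at ha ⊢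
        simp [ha] }
  refine Gen_ind d S (fun m w a hc => ?_) hx
  show (gen d m w a).coeff m0 = 0
  have : m ≠ m0 := fun e => h w a (e ▸ hc)
  simp [gen, Finsupp.single_apply, this]

lemma Gen_long {x : AddMonoidAlgebra R (G → ℕ)}
    (hx : x ∈ Gen d (fun _ w _ => N < w.length)) : x = 0 := by
  have := Gen_ind d ⊥ (fun m w a hc => by
    simp [gen, d.e_long w hc]) hx
  simpa using this

lemma gen_comm (A0 : Set A) (hA0 : ∀ a ∈ A0, ∀ b ∈ A0, a * b = b * a)
    (m m' : G → ℕ) (w w' : List I) (a a' : A) (ha : a ∈ A0) (ha' : a' ∈ A0) :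
    gen d m w a * gen d m' w' a' =
      ((-1 : ℤ) ^ (w.length * w'.length)) • (gen d m' w' a' * gen d m w a) := by
  rw [gen_mul, gen_mul]
  unfold gen
  rw [smul_single, d.e_append, d.e_append, d.e_comm w w', hA0 a ha a' ha', add_comm m m']
  congr 1
  simp [mul_assoc]

lemma pow_p_zero (A0 : Set A) (hA0 : ∀ a ∈ A0, ∀ b ∈ A0, a * b = b * a)
    (p : ℕ) (hp : p.Prime) (hpR : (p : R) = 0) {x : AddMonoidAlgebra R (G → ℕ)}
    (hx : x ∈ Gen d (fun _ w a => w ≠ [] ∧ a ∈ A0)) : x ^ p = 0 := by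
  have hpR' : (p : AddMonoidAlgebra R (G → ℕ)) = 0 := by
    rw [natCast_def, hpR, single_zero]
  let Ev := Gen d (G := G) (fun _ w a => w ≠ [] ∧ a ∈ A0 ∧ Even w.length)
  let Od := Gen d (G := G) (fun _ w a => w ≠ [] ∧ a ∈ A0 ∧ Odd w.length)
  have sq : ∀ (m : G → ℕ) w a, w ≠ [] → gen d m w a * gen d m w a = 0 := by
    intro m w a hw
    rw [gen_mul]
    unfold gen
    rw [d.e_append, d.e_sq w hw, zero_mul, single_zero]
  have hsplit : x ∈ Ev ⊔ Od := by
    refine Gen_ind d _ (fun m w a hc => ?_) hx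
    rcases Nat.even_or_odd w.length with h | h
    · exact AddSubgroup.mem_sup_left (gen_mem d ⟨hc.1, hc.2, h⟩)
    · exact AddSubgroup.mem_sup_right (gen_mem d ⟨hc.1, hc.2, h⟩)
  have cE : ∀ {u v : AddMonoidAlgebra R (G → ℕ)}, u ∈ Ev →
      v ∈ Gen d (G := G) (fun _ _ a => a ∈ A0) → Commute u v := by
    intro u v hu hv
    have := Gen_ind₂ d ⊥ 1 (fun m w a m' w' a' hc hc' => by
      rw [gen_comm d A0 hA0 m m' w w' a a' hc.2.1 hc', (hc.2.2.mul_right _).neg_one_pow]
      simp) hu hv
    rw [AddSubgroup.mem_bot, one_smul, sub_eq_zero] at this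
    exact this
  have cO : ∀ {u v : AddMonoidAlgebra R (G → ℕ)}, u ∈ Od → v ∈ Od → u * v + v * u = 0 := by
    intro u v hu hv
    have := Gen_ind₂ d ⊥ (-1) (fun m w a m' w' a' hc hc' => by
      rw [gen_comm d A0 hA0 m m' w w' a a' hc.2.1 hc'.2.1, (hc.2.2.mul hc'.2.2).neg_one_pow]
      simp) hu hv
    simpa using this
  have pE : ∀ {u : AddMonoidAlgebra R (G → ℕ)}, u ∈ Ev → u ^ p = 0 := by
    intro u hu
    induction hu using AddSubgroup.closure_induction with
    | mem y hy =>
      obtain ⟨m, w, a, hc, rfl⟩ := hy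
      exact pow_eq_zero_of_le hp.two_le (by rw [pow_two]; exact sq m w a hc.1)
    | zero => exact zero_pow hp.ne_zero
    | add y z hy hz h1 h2 =>
      obtain ⟨r, hr⟩ := (cE hy (Gen_mono d (fun _ _ _ h => h.2.1) hz)).exists_add_pow_prime_eq hp
      rw [hr, h1, h2, hpR']; simp
    | neg y hy h1 => rw [neg_pow, h1, mul_zero]
  have pO : ∀ {u : AddMonoidAlgebra R (G → ℕ)}, u ∈ Od → u * u = 0 := by
    intro u hu
    induction hu using AddSubgroup.closure_induction with
    | mem y hy =>
      obtain ⟨m, w, a, hc, rfl⟩ := hy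
      exact sq m w a hc.1
    | zero => simp
    | add y z hy hz h1 h2 =>
      have := cO hy hz
      linear_combination (norm := noncomm_ring) h1 + h2 + this
    | neg y hy h1 => rw [neg_mul_neg, h1]
  obtain ⟨u, hu, v, hv, rfl⟩ := AddSubgroup.mem_sup.1 hsplit
  obtain ⟨r, hr⟩ := (cE hu (Gen_mono d (fun _ _ _ h => h.2.1) hv)).exists_add_pow_prime_eq hp
  rw [hr, pE hu, pow_eq_zero_of_le hp.two_le (by rw [pow_two]; exact pO hv), hpR']
  simp

variable [AddCommGroup G] [Fintype G] [DecidableEq G] [Fintype I]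

noncomputable def tt (g : G) : AddMonoidAlgebra R (G → ℕ) := gen d (Pi.single g 1) [] 1

noncomputable def DD (xx : I → G → A) (S : G → Prop) [DecidablePred S] :
    Matrix G G (AddMonoidAlgebra R (G → ℕ)) :=
  fun g g' => if S g then ∑ i, gen d (Pi.single g 1) [i] (xx i (g' - g)) else 0

lemma DD_pow_mem {σ : Type} [SetLike σ A] (𝒜 : G → σ) [SetLike.GradedMonoid 𝒜]
    (xx : I → G → A) (hxx : ∀ i h, xx i h ∈ 𝒜 h) (S : G → Prop) [DecidablePred S] (n : ℕ) :
    ∀ g g', (DD d xx S ^ n) g g' ∈ Gen d (fun m w a => w.length = n ∧ a ∈ 𝒜 (g' - g) ∧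
      ∑ v, m v = n ∧ ∀ v, ¬ S v → m v = 0) := by
  induction n with
  | zero =>
    intro g g'
    rw [pow_zero, Matrix.one_apply]
    split_ifs with h
    · subst h
      have : (1 : AddMonoidAlgebra R (G → ℕ)) = gen d 0 [] 1 := by
        simp [gen, d.e_nil, one_def]
      rw [this]
      exact gen_mem d ⟨rfl, by rw [sub_self]; exact SetLike.GradedOne.one_mem, by simp, by simp⟩
    · exact zero_mem _
  | succ n ih =>
    intro g g'
    rw [pow_succ', Matrix.mul_apply]
    refine sum_mem fun h _ => ?_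
    have h1 : DD d xx S g h ∈ Gen d (fun m w a => w.length = 1 ∧ a ∈ 𝒜 (h - g) ∧
      ∑ v, m v = 1 ∧ ∀ v, ¬ S v → m v = 0) := by
      unfold DD
      split_ifs with hS
      · refine sum_mem fun i _ => gen_mem d ⟨rfl, hxx _ _, by simp [Finset.sum_pi_single'], ?_⟩
        intro v hv
        have : v ≠ g := fun e => hv (e ▸ hS)
        simp [Pi.single_apply, this]
      · exact zero_mem _
    refine Gen_mul d ?_ h1 (ih h g')
    rintro m w a m' w' a' ⟨b1, b2, b3, b4⟩ ⟨c1, c2, c3, c4⟩
    refine ⟨by simp [b1, c1, add_comm], ?_, ?_, ?_⟩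
    · have := SetLike.GradedMul.mul_mem b2 c2
      rwa [show h - g + (g' - h) = g' - g by abel] at this
    · simp only [Pi.add_apply, Finset.sum_add_distrib, b3, c3]; omega
    · intro v hv
      simp [b4 v hv, c4 v hv]

lemma DD_nil {σ : Type} [SetLike σ A] (𝒜 : G → σ) [SetLike.GradedMonoid 𝒜]
    (xx : I → G → A) (hxx : ∀ i h, xx i h ∈ 𝒜 h) (S : G → Prop) [DecidablePred S] :
    DD d xx S ^ (N + 1) = 0 := by
  ext1 g g'
  exact Gen_long d (Gen_mono d (fun m w a h => by omega) (DD_pow_mem d 𝒜 xx hxx S (N + 1) g g'))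

lemma deg_bound {σ : Type} [SetLike σ A] (𝒜 : G → σ) [SetLike.GradedMonoid 𝒜]
    (hA0 : ∀ a ∈ 𝒜 0, ∀ b ∈ 𝒜 0, a * b = b * a)
    (p : ℕ) (hp : p.Prime) (hpR : (p : R) = 0)
    (xx : I → G → A) (hxx : ∀ i h, xx i h ∈ 𝒜 h) (v g : G) :
    (∑ k ∈ Finset.range (N + 1), DD d xx (fun _ => True) ^ k).mulVec (tt d) g ∈
      Gen d (fun m _ _ => m v ≤ p) := by
  set D := DD d xx (fun _ => True) with hD
  set D' := DD d xx (fun g => g ≠ v) with hD'
  set T := (∑ k ∈ Finset.range (N + 1), D ^ k).mulVec (tt d) with hT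
  set U := ∑ k ∈ Finset.range (N + 1), D' ^ k with hU
  have e1 : (1 - D).mulVec T = tt d := by
    rw [hT, Matrix.mulVec_mulVec, mul_neg_geom_sum, hD, DD_nil d 𝒜 xx hxx, sub_zero,
      Matrix.one_mulVec]
  have e1' : ∀ g, T g = tt d g + D.mulVec T g := by
    intro g
    have := congrFun e1 g
    rw [Matrix.sub_mulVec, Matrix.one_mulVec, Pi.sub_apply] at this
    rw [← this]; abel
  have e2 : U.mulVec ((1 - D').mulVec T) = T := by
    rw [Matrix.mulVec_mulVec, hU, geom_sum_mul_neg, hD', DD_nil d 𝒜 xx hxx, sub_zero,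
      Matrix.one_mulVec]
  have e3 : (1 - D').mulVec T = fun g => (if g = v then T v else 0) +
      (if g = v then 0 else tt d g) := by
    funext g
    rw [Matrix.sub_mulVec, Matrix.one_mulVec, Pi.sub_apply]
    by_cases h : g = v
    · subst h
      simp [hD', DD, Matrix.mulVec, dotProduct]
    · have : D'.mulVec T g = D.mulVec T g := by
        simp [hD', hD, DD, Matrix.mulVec, dotProduct, h]
      rw [this, e1' g]
      simp [h]
  let r : G → AddMonoidAlgebra R (G → ℕ) := fun g =>
    ∑ g', U g g' * (if g' = v then 0 else tt d g')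
  have e4 : ∀ g, T g = U g v * T v + r g := by
    intro g
    conv_lhs => rw [← e2, e3]
    simp [Matrix.mulVec, dotProduct, mul_add, Finset.sum_add_distrib, r]
  let Z := ∑ g, D v g * U g v
  let c := tt d v + ∑ g, D v g * r g
  have e5 : (1 - Z) * T v = c := by
    have := e1' v
    have h2 : D.mulVec T v = Z * T v + ∑ g, D v g * r g := by
      simp only [Matrix.mulVec, dotProduct, Z, Finset.sum_mul, ← Finset.sum_add_distrib]
      refine Finset.sum_congr rfl fun g _ => ?_
      conv_lhs => rw [e4 g]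
      rw [mul_add, mul_assoc]
    rw [h2] at this
    simp only [c]
    linear_combination (norm := noncomm_ring) this
  have hUm : ∀ g g', U g g' ∈ Gen d (fun m _ a => a ∈ 𝒜 (g' - g) ∧ m v ≤ 0) := by
    intro g g'
    rw [hU, Matrix.sum_apply]
    refine sum_mem fun k _ => Gen_mono d ?_ (DD_pow_mem d 𝒜 xx hxx _ k g g')
    rintro m w a ⟨_, h2, _, h4⟩
    exact ⟨h2, (h4 v (by simp)).le⟩
  have hDm : ∀ g g', D g g' ∈ Gen d (fun m w a => w ≠ [] ∧ a ∈ 𝒜 (g' - g) ∧ m v ≤ 1) := by
    intro g g'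
    have := DD_pow_mem d 𝒜 xx hxx (fun _ => True) 1 g g'
    rw [pow_one] at this
    refine Gen_mono d ?_ this
    rintro m w a ⟨h1, h2, h3, _⟩
    refine ⟨by rintro rfl; simp at h1, h2, ?_⟩
    rw [← h3]
    exact Finset.single_le_sum (f := m) (fun _ _ => Nat.zero_le _) (Finset.mem_univ v)
  have mulD : ∀ (k l : ℕ) {x y : AddMonoidAlgebra R (G → ℕ)}, x ∈ Gen d (fun m _ _ => m v ≤ k) →
      y ∈ Gen d (fun m _ _ => m v ≤ l) → x * y ∈ Gen d (fun m _ _ => m v ≤ k + l) := by
    intro k l x y hx hy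
    refine Gen_mul d ?_ hx hy
    intro m w a m' w' a' h1 h2
    simp only [Pi.add_apply]; omega
  have hU0 : ∀ g g', U g g' ∈ Gen d (fun m _ _ => m v ≤ 0) := fun g g' =>
    Gen_mono d (fun _ _ _ h => h.2) (hUm g g')
  have hD1 : ∀ g g', D g g' ∈ Gen d (fun m _ _ => m v ≤ 1) := fun g g' =>
    Gen_mono d (fun _ _ _ h => h.2.2) (hDm g g')
  have hr : ∀ g, r g ∈ Gen d (fun m _ _ => m v ≤ 0) := by
    intro g
    refine sum_mem fun g' _ => mulD 0 0 (hU0 g g') ?_
    split_ifs with h
    · exact zero_mem _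
    · exact gen_mem d (by simp [Pi.single_apply, Ne.symm h])
  have hc : c ∈ Gen d (fun m _ _ => m v ≤ 1) :=
    add_mem (gen_mem d (by simp)) (sum_mem fun g _ => mulD 1 0 (hD1 v g) (hr g))
  have hZ1 : Z ∈ Gen d (fun m _ _ => m v ≤ 1) := sum_mem fun g _ => mulD 1 0 (hD1 v g) (hU0 g v)
  have hZ0 : Z ∈ Gen d (fun _ w a => w ≠ [] ∧ a ∈ (𝒜 0 : Set A)) := by
    refine sum_mem fun g _ => Gen_mul d ?_ (hDm v g) (hUm g v)
    rintro m w a m' w' a' ⟨h1, h2, _⟩ ⟨h3, _⟩
    refine ⟨by simp [h1], ?_⟩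
    have := SetLike.GradedMul.mul_mem h2 h3
    rwa [show g - v + (v - g) = 0 by abel] at this
  have hZp : Z ^ p = 0 := pow_p_zero d (𝒜 0 : Set A) hA0 p hp hpR hZ0
  have hZk : ∀ k, Z ^ k * c ∈ Gen d (fun m _ _ => m v ≤ k + 1) := by
    intro k
    induction k with
    | zero => simpa using hc
    | succ k ih =>
      rw [pow_succ', mul_assoc]
      exact Gen_mono d (fun m _ _ h => by omega) (mulD 1 (k + 1) hZ1 ih)
  have hTv : T v ∈ Gen d (fun m _ _ => m v ≤ p) := by
    have : T v = (∑ k ∈ Finset.range p, Z ^ k) * c := by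
      rw [← e5, ← mul_assoc, geom_sum_mul_neg, hZp, sub_zero, one_mul]
    rw [this, Finset.sum_mul]
    refine sum_mem fun k hk => Gen_mono d (fun m _ _ h => ?_) (hZk k)
    have := Finset.mem_range.1 hk
    omega
  rw [e4 g]
  refine add_mem (Gen_mono d (fun m _ _ h => by omega) (mulD 0 p (hU0 g v) hTv))
    (Gen_mono d (fun m _ _ h => by omega) (hr g))

lemma core {σ : Type} [SetLike σ A] (𝒜 : G → σ) [SetLike.GradedMonoid 𝒜]
    (hA0 : ∀ a ∈ 𝒜 0, ∀ b ∈ 𝒜 0, a * b = b * a)
    (p : ℕ) (hp : p.Prime) (hpR : (p : R) = 0) (hN : N = Fintype.card G * p)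
    (xx : I → G → A) (hxx : ∀ i h, xx i h ∈ 𝒜 h) :
    (∑ i, d.e [i] * d.j (∑ h, xx i h)) ^ N = 0 := by
  set D := DD d xx (fun _ => True) with hD
  have hk : ∀ k g, (D ^ k).mulVec (tt d) g ∈ Gen d (fun m _ _ => ∑ v, m v = k + 1) := by
    intro k g
    simp only [Matrix.mulVec, dotProduct]
    refine sum_mem fun g' _ => Gen_mul d ?_ (DD_pow_mem d 𝒜 xx hxx _ k g g')
      (gen_mem d (C := fun m _ _ => ∑ v, m v = 1) (by simp [Finset.sum_pi_single']))
    rintro m w a m' w' a' ⟨_, _, h3, _⟩ h4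
    simp only [Pi.add_apply, Finset.sum_add_distrib, h3, h4]
  have h0 : (D ^ N).mulVec (tt d) 0 = 0 := by
    apply coeff_injective
    ext m
    by_cases hm : ∑ v, m v = N + 1
    · obtain ⟨v, hv⟩ : ∃ v, p < m v := by
        by_contra hcon
        push Not at hcon
        have : ∑ v, m v ≤ _ := Finset.sum_le_card_nsmul Finset.univ m p (fun v _ => hcon v)
        rw [Finset.card_univ, smul_eq_mul] at this
        omega
      have h1 := Gen_coeff d m (fun _ _ h => by omega) (deg_bound d 𝒜 hA0 p hp hpR xx hxx v 0)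
      rw [← hD, Matrix.sum_mulVec, Finset.sum_apply, coeff_sum, Finsupp.finsetSum_apply,
        Finset.sum_range_succ, Finset.sum_eq_zero, zero_add] at h1
      · simpa using h1
      · intro k hk'
        have := Finset.mem_range.1 hk'
        exact Gen_coeff d m (fun _ _ h => by omega) (hk k 0)
    · simpa using Gen_coeff d m (fun _ _ h => hm h) (hk N 0)
  let ev : AddMonoidAlgebra R (G → ℕ) →+* R :=
    liftNCRingHom (RingHom.id R) 1 (fun x y => by simp)
  have hev : ∀ m w a, ev (gen d m w a) = d.e w * d.j a := by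
    intro m w a
    simp [ev, gen, liftNCRingHom_single]
  have hall : ∀ k g, ev ((D ^ k).mulVec (tt d) g) = (∑ i, d.e [i] * d.j (∑ h, xx i h)) ^ k := by
    intro k
    induction k with
    | zero => intro g; simp [tt, hev, d.e_nil]
    | succ k ih =>
      intro g
      rw [pow_succ', ← Matrix.mulVec_mulVec, pow_succ']
      have : ∀ f : G → AddMonoidAlgebra R (G → ℕ), D.mulVec f g = ∑ g', D g g' * f g' :=
        fun f => rfl
      rw [this, map_sum]
      simp only [map_mul, ih]
      rw [← Finset.sum_mul]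
      congr 1
      simp only [hD, DD, if_true, map_sum, hev, Finset.mul_sum]
      rw [Finset.sum_comm]
      refine Finset.sum_congr rfl fun i _ => ?_
      exact Fintype.sum_equiv (Equiv.subRight g) _ _ (fun x => rfl)
  rw [← hall N 0, h0, map_zero]

end core

lemma sum_pow_expand {R ι : Type} [Ring R] [Fintype ι] (z : ι → R) (n : ℕ) :
    (∑ i, z i) ^ n = ∑ f : Fin n → ι, (List.ofFn (fun k => z (f k))).prod := by
  induction n with
  | zero => simp
  | succ n ih =>
    rw [pow_succ', ih, Finset.sum_mul_sum, ← Fintype.sum_prod_type']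
    refine Fintype.sum_equiv (Fin.consEquiv (fun _ : Fin (n + 1) => ι)) _ _ ?_
    rintro ⟨i, f⟩
    simp [List.ofFn_succ, Fin.consEquiv]

open scoped TensorProduct

section ext
variable (F : Type) [Field F] (N : ℕ) (A : Type) [Ring A] [Algebra F A]

abbrev EA : Type := ExteriorAlgebra F (Fin N → F)

noncomputable def ee (w : List (Fin N)) : EA F N :=
  (w.map (fun i => ExteriorAlgebra.ι F (Pi.single i (1 : F) : Fin N → F))).prod

lemma ee_nil : ee F N [] = 1 := rfl

lemma ee_append (w w' : List (Fin N)) : ee F N (w ++ w') = ee F N w * ee F N w' := by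
  simp [ee]

lemma ee_cons (i : Fin N) (w : List (Fin N)) : ee F N (i :: w) = ee F N [i] * ee F N w := by
  simp [ee]

lemma ee_one_comm (i : Fin N) (w : List (Fin N)) :
    ee F N [i] * ee F N w = (-1) ^ w.length * (ee F N w * ee F N [i]) := by
  induction w with
  | nil => simp [ee_nil]
  | cons j w ih =>
    have h : ee F N [i] * ee F N [j] = -(ee F N [j] * ee F N [i]) := by
      have := ExteriorAlgebra.ι_add_mul_swap (R := F) (Pi.single i (1 : F) : Fin N → F)
        (Pi.single j (1 : F))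
      simp only [ee, List.map_cons, List.map_nil, List.prod_cons, List.prod_nil, mul_one]
      exact eq_neg_of_add_eq_zero_left this
    rw [ee_cons F N j w, ← mul_assoc, h, neg_mul, mul_assoc, ih, List.length_cons]
    rcases neg_one_pow_eq_or (EA F N) w.length with h1 | h1 <;> simp [pow_succ, h1, mul_assoc]

lemma ee_comm (w w' : List (Fin N)) :
    ee F N w * ee F N w' = (-1) ^ (w.length * w'.length) * (ee F N w' * ee F N w) := by
  induction w with
  | nil => simp [ee_nil]
  | cons i w ih =>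
    rw [ee_cons F N i w, mul_assoc, ih, List.length_cons, add_mul, one_mul, pow_add]
    have h := ee_one_comm F N i w'
    rcases neg_one_pow_eq_or (EA F N) (w.length * w'.length) with h1 | h1 <;>
    rcases neg_one_pow_eq_or (EA F N) w'.length with h2 | h2 <;>
    rw [h2] at h <;> rw [h1, h2] <;> simp [← mul_assoc, h]

lemma ee_sq (w : List (Fin N)) (hw : w ≠ []) : ee F N w * ee F N w = 0 := by
  obtain ⟨i, w, rfl⟩ := List.exists_cons_of_ne_nil hw
  have h0 : ee F N [i] * ee F N [i] = 0 := by simp [ee]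
  have h := ee_comm F N w [i]
  rw [ee_cons F N i w, mul_assoc, ← mul_assoc (ee F N w), h]
  rcases neg_one_pow_eq_or (EA F N) (w.length * [i].length) with h1 | h1 <;>
    rw [h1] <;> simp [← mul_assoc, h0]

lemma ee_ofFn {n : ℕ} (f : Fin n → Fin N) :
    ee F N (List.ofFn f) =
      ExteriorAlgebra.ιMulti F n (fun k => (Pi.single (f k) (1 : F) : Fin N → F)) := by
  rw [ExteriorAlgebra.ιMulti_apply, ee, List.map_ofFn]
  rfl

lemma ee_long (w : List (Fin N)) (hw : N < w.length) : ee F N w = 0 := by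
  rw [← List.ofFn_get w, ee_ofFn]
  apply AlternatingMap.map_eq_zero_of_not_injective
  intro hinj
  have h2 : Function.Injective w.get := fun a b hab => hinj (by simp only [hab])
  have := Fintype.card_le_of_injective _ h2
  simp at this
  omega

noncomputable def dd : Data (Fin N) A (EA F N ⊗[F] A) N where
  e w := ee F N w ⊗ₜ[F] 1
  j := (Algebra.TensorProduct.includeRight : A →ₐ[F] EA F N ⊗[F] A).toRingHom
  e_nil := rfl
  e_append w w' := by simp [ee_append]
  e_comm w w' := by
    rw [Algebra.TensorProduct.tmul_mul_tmul, Algebra.TensorProduct.tmul_mul_tmul, ee_comm]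
    rcases Nat.even_or_odd (w.length * w'.length) with h | h
    · simp [h.neg_one_pow]
    · simp [h.neg_one_pow, TensorProduct.neg_tmul]
  e_sq w hw := by simp [ee_sq F N w hw]
  e_long w hw := by simp [ee_long F N w hw]
  ej w a := by simp

lemma prod_tmul (x : Fin N → A) (w : List (Fin N)) :
    (w.map (fun i => ee F N [i] ⊗ₜ[F] x i)).prod = ee F N w ⊗ₜ[F] (w.map x).prod := by
  induction w with
  | nil => rfl
  | cons i w ih =>
    rw [List.map_cons, List.prod_cons, ih, Algebra.TensorProduct.tmul_mul_tmul, ← ee_cons]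
    simp

lemma extract (x : Fin N → A) (h : (∑ i, ee F N [i] ⊗ₜ[F] x i) ^ N = 0) :
    ∑ σ : Equiv.Perm (Fin N),
      ((Equiv.Perm.sign σ : ℤˣ) : ℤ) • (List.ofFn (fun i => x (σ i))).prod = 0 := by
  classical
  let g : (Fin N → F) [⋀^Fin N]→ₗ[F] F := Matrix.detRowAlternating
  let lam : EA F N →ₗ[F] F := ExteriorAlgebra.liftAlternating
    (Function.update (fun i => (0 : (Fin N → F) [⋀^Fin i]→ₗ[F] F)) N g)
  let L : EA F N ⊗[F] A →ₗ[F] A := (TensorProduct.lid F A).toLinearMap ∘ₗ lam.rTensor A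
  have hL : ∀ f : Fin N → Fin N, L (List.ofFn (fun k => ee F N [f k] ⊗ₜ[F] x (f k))).prod =
      g (fun k => (Pi.single (f k) (1 : F) : Fin N → F)) • (List.ofFn (fun i => x (f i))).prod := by
    intro f
    have := prod_tmul F N A x (List.ofFn f)
    rw [List.map_ofFn, List.map_ofFn, ee_ofFn] at this
    erw [this]
    simp only [L, lam, LinearMap.comp_apply, LinearMap.rTensor_tmul,
      ExteriorAlgebra.liftAlternating_apply_ιMulti, Function.update_self, LinearEquiv.coe_coe,
      TensorProduct.lid_tmul]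
    rfl
  have h1 := congrArg L h
  rw [sum_pow_expand, map_sum, map_zero] at h1
  simp only [hL] at h1
  rw [← h1]
  symm
  calc ∑ f : Fin N → Fin N, g (fun k => (Pi.single (f k) (1 : F) : Fin N → F)) •
        (List.ofFn (fun i => x (f i))).prod
      = ∑ f : Fin N → Fin N with Function.Bijective f,
        g (fun k => (Pi.single (f k) (1 : F) : Fin N → F)) •
        (List.ofFn (fun i => x (f i))).prod := by
        refine (Finset.sum_subset (Finset.filter_subset _ _) fun f _ hbij => ?_).symm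
        have hb : ¬ Function.Bijective f := by simpa using hbij
        rw [AlternatingMap.map_eq_zero_of_not_injective, zero_smul]
        intro hinj
        exact hb (Finite.injective_iff_bijective.1 fun a b hab => hinj (by simp only [hab]))
    _ = ∑ σ : Equiv.Perm (Fin N), g (fun k => (Pi.single (σ k) (1 : F) : Fin N → F)) •
        (List.ofFn (fun i => x (σ i))).prod :=
        Finset.sum_bij (fun p h => Equiv.ofBijective p (Finset.mem_filter.1 h).2)
          (fun _ _ => Finset.mem_univ _) (fun _ _ _ _ h => by injection h)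
          (fun b _ => ⟨b, Finset.mem_filter.2 ⟨Finset.mem_univ _, b.bijective⟩,
            Equiv.coe_fn_injective rfl⟩) fun _ _ => rfl
    _ = _ := by
        refine Finset.sum_congr rfl fun σ _ => ?_
        have h2 := g.map_perm (fun k => (Pi.single k (1 : F) : Fin N → F)) σ
        have h3 : g (fun k => (Pi.single k (1 : F) : Fin N → F)) = 1 := by
          have : (Matrix.of fun k => (Pi.single k (1 : F) : Fin N → F)) = 1 := by
            ext a b
            simp [Matrix.one_apply, Pi.single_apply, eq_comm]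
          exact (congrArg Matrix.det this).trans Matrix.det_one
        erw [h2, h3]
        rcases Int.units_eq_one_or (Equiv.Perm.sign σ) with h4 | h4 <;> simp [h4]

end ext

end Pool.Agent.H25.Std
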