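import Mathlib

open Finset

namespace Pool.Agent.H25.Sturm

/-- the factor of length `L` of `u` starting at position `i`. -/
def factor (u : ℕ → ℕ) (i L : ℕ) : List ℕ := (List.range L).map fun j => u (i + j)

/-- an infinite binary word with exactly `n + 1` factors of each length `n`. -/
def Sturmian (u : ℕ → ℕ) : Prop :=
  (∀ i, u i ≤ 1) ∧ ∀ n, (Set.range fun i => factor u i n).ncard = n + 1

/-- mechanical word of slope `α`. -/
noncomputable def mech (α : ℝ) (i : ℕ) : ℕ := (⌊(i + 1 : ℕ) * α⌋ - ⌊i * α⌋).toNat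

lemma dense {α : ℝ} (h : Irrational α) {a b : ℝ} (h0 : 0 ≤ a) (hab : a < b) (h1 : b ≤ 1) :
    ∃ i : ℕ, a < Int.fract (i * α) ∧ Int.fract (i * α) < b := by
  obtain ⟨n, hn⟩ := exists_nat_one_div_lt (sub_pos.2 hab)
  obtain ⟨k, hk, -, e⟩ := Real.exists_nat_abs_mul_sub_round_le α n.succ_pos
  have e' : |k * α - round (k * α)| < b - a := by
    refine e.trans_lt (lt_of_le_of_lt ?_ hn)
    push_cast; gcongr; linarith
  have hδ : k * α - round (k * α) ≠ 0 :=
    sub_ne_zero.2 ((h.natCast_mul hk.ne').ne_int _)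
  set δ := k * α - round (k * α) with hd
  have key : ∀ (t : ℕ) (M : ℤ), a < t * δ + M → t * δ + M < b →
      ∃ i : ℕ, a < Int.fract (i * α) ∧ Int.fract (i * α) < b := fun t M l1 l2 => by
    have : Int.fract (((t * k : ℕ) : ℝ) * α) = t * δ + M :=
      Int.fract_eq_iff.2 ⟨by linarith, by linarith, t * round (k * α) - M, by
        rw [hd]; push_cast; ring⟩
    exact ⟨t * k, by rw [this]; exact ⟨l1, l2⟩⟩
  rw [abs_lt] at e'
  rcases hδ.lt_or_gt with hδ | hδ
  · have p : 0 < -δ := by linarith
    have q1 := Nat.floor_le (div_nonneg (sub_nonneg.2 h1) p.le)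
    have q2 := Nat.lt_floor_add_one ((1 - b) / -δ)
    rw [le_div_iff₀ p] at q1
    rw [div_lt_iff₀ p] at q2
    exact key (⌊(1 - b) / -δ⌋₊ + 1) 1 (by push_cast; linarith) (by push_cast; linarith)
  · have q1 := Nat.floor_le (div_nonneg h0 hδ.le)
    have q2 := Nat.lt_floor_add_one (a / δ)
    rw [le_div_iff₀ hδ] at q1
    rw [div_lt_iff₀ hδ] at q2
    exact key (⌊a / δ⌋₊ + 1) 0 (by push_cast; linarith) (by push_cast; linarith)

lemma gaps (C : Finset ℝ) : ∀ B : ℝ, 0 < B → (∀ c ∈ C, 0 < c ∧ c < B) → ∀ k ≤ C.card,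
    ∃ a b, 0 ≤ a ∧ a < b ∧ b ≤ B ∧ ∀ x, a < x → x < b → (C.filter (· ≤ x)).card = k := by
  induction C using Finset.induction_on_max with
  | empty => exact fun B hB _ k hk => ⟨0, B, le_rfl, hB, le_rfl, fun _ _ _ => by simpa [eq_comm] using hk⟩
  | insert m C hm ih =>
    intro B hB hC k hk
    have hn : m ∉ C := fun h => (hm m h).false
    have h1 := hC m (mem_insert_self _ _)
    rw [card_insert_of_notMem hn] at hk
    rcases hk.eq_or_lt with rfl | hk
    · refine ⟨m, B, h1.1.le, h1.2, le_rfl, fun x l _ => ?_⟩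
      rw [filter_true_of_mem, card_insert_of_notMem hn]
      intro c hc
      rcases mem_insert.1 hc with rfl | hc
      · exact l.le
      · exact ((hm c hc).trans l).le
    · obtain ⟨a, b, e1, e2, e3, e4⟩ := ih m h1.1
        (fun c hc => ⟨(hC c (mem_insert_of_mem hc)).1, hm c hc⟩) k (by omega)
      refine ⟨a, b, e1, e2, by linarith, fun x l l' => ?_⟩
      rw [filter_insert, if_neg (by linarith), e4 x l l']

lemma ncard_ker {β γ : Type} (f : ℕ → β) (g : ℕ → γ) (h : ∀ i j, f i = f j ↔ g i = g j) :
    (Set.range f).ncard = (Set.range g).ncard := by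
  have : Setoid.ker f = Setoid.ker g := Setoid.ext h
  rw [← Nat.card_coe_set_eq, ← Nat.card_coe_set_eq,
    ← Nat.card_congr (Setoid.quotientKerEquivRange f), this,
    Nat.card_congr (Setoid.quotientKerEquivRange g)]

theorem sturmian {α : ℝ} (h : Irrational α) (h0 : 0 < α) (h1 : α < 1) : Sturmian (mech α) := by
  have hb : ∀ i : ℕ, ⌊i * α⌋ ≤ ⌊(i + 1 : ℕ) * α⌋ ∧ ⌊(i + 1 : ℕ) * α⌋ ≤ ⌊i * α⌋ + 1 := fun i =>
    ⟨Int.floor_mono (by push_cast; linarith),
      by rw [← Int.floor_add_one]; exact Int.floor_mono (by push_cast; linarith)⟩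
  refine ⟨fun i => by have := hb i; unfold mech; omega, fun n => ?_⟩
  let c : ℕ → ℝ := fun j => 1 - Int.fract ((j + 1 : ℕ) * α)
  have hc : ∀ j, 0 < c j ∧ c j < 1 := fun j => by
    have := Int.fract_lt_one (((j + 1 : ℕ) : ℝ) * α)
    have := Int.fract_pos.2 ((h.natCast_mul j.succ_ne_zero).ne_int ⌊((j + 1 : ℕ) : ℝ) * α⌋)
    simp only [c]; constructor <;> linarith
  have ci : Function.Injective c := fun i j e => by
    obtain ⟨z, hz⟩ := Int.fract_eq_fract.1 (sub_right_injective e)
    by_contra hne
    have : ((i : ℤ) - j : ℤ) ≠ 0 := by omega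
    exact (h.intCast_mul this).ne_int z (by push_cast at hz ⊢; linarith)
  have fl : ∀ i j : ℕ, ⌊(i + (j + 1) : ℕ) * α⌋ = ⌊i * α⌋ + ⌊(j + 1 : ℕ) * α⌋ +
      if c j ≤ Int.fract (i * α) then 1 else 0 := fun i j => by
    have a1 := Int.floor_add_fract (i * α)
    have a2 := Int.floor_add_fract (((j + 1 : ℕ) : ℝ) * α)
    have a3 := Int.fract_lt_one (i * α)
    have a4 := Int.fract_nonneg (i * α)
    have := hc j
    rw [Int.floor_eq_iff]
    simp only [c] at *
    split_ifs with hh <;> push_cast at * <;> constructor <;> linarith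
  let D : ℕ → Finset ℕ := fun i => (range n).filter fun j => c j ≤ Int.fract (i * α)
  have k1 : ∀ i i', factor (mech α) i n = factor (mech α) i' n ↔ D i = D i' := fun i i' => by
    have e1 : factor (mech α) i n = factor (mech α) i' n ↔
        ∀ j < n, mech α (i + j) = mech α (i' + j) := by simp [factor]
    have e2 : D i = D i' ↔ ∀ j < n, ⌊(i + (j + 1) : ℕ) * α⌋ - ⌊i * α⌋ =
        ⌊(i' + (j + 1) : ℕ) * α⌋ - ⌊i' * α⌋ := by
      simp only [D, Finset.ext_iff, mem_filter, mem_range, and_congr_right_iff]
      refine forall₂_congr fun j _ => ?_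
      rw [fl i j, fl i' j]
      split_ifs with p q q
      · exact iff_of_true (iff_of_true p q) (by omega)
      · exact iff_of_false (fun e => q (e.1 p)) (by omega)
      · exact iff_of_false (fun e => p (e.2 q)) (by omega)
      · exact iff_of_true (iff_of_false p q) (by omega)
    rw [e1, e2]
    simp only [mech, ← add_assoc]
    constructor
    · intro H j
      induction j with
      | zero => intro hj; have := H 0 hj; have := hb i; have := hb i'; simp only [add_zero] at *; omega
      | succ j ih =>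
        intro hj
        have := H _ hj
        have := ih (by omega)
        have := hb (i + j + 1)
        have := hb (i' + j + 1)
        simp only [← add_assoc] at *
        omega
    · intro H j hj
      have := H j hj
      rcases j with _ | j
      · simp only [add_zero] at *; omega
      · have := H j (by omega)
        simp only [← add_assoc] at *
        omega
  have k2 : ∀ i i', D i = D i' ↔ (D i).card = (D i').card := fun i i' => by
    refine ⟨fun e => by rw [e], fun e => ?_⟩
    rcases le_total (Int.fract (i * α)) (Int.fract (i' * α)) with l | l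
    · exact eq_of_subset_of_card_le (monotone_filter_right _ fun j _ p => p.trans l) e.ge
    · exact (eq_of_subset_of_card_le (monotone_filter_right _ fun j _ p => p.trans l) e.le).symm
  rw [ncard_ker _ (fun i => (D i).card) fun i i' => (k1 i i').trans (k2 i i')]
  have : (Set.range fun i => (D i).card) = (range (n + 1) : Finset ℕ) := by
    ext k
    simp only [Set.mem_range, coe_range, Set.mem_Iio]
    constructor
    · rintro ⟨i, rfl⟩
      exact Nat.lt_succ_of_le ((card_filter_le _ _).trans (card_range n).le)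
    · intro hk
      obtain ⟨a, b, e1, e2, e3, e4⟩ := gaps ((range n).image c) 1 one_pos
        (fun x hx => by obtain ⟨j, -, rfl⟩ := mem_image.1 hx; exact hc j) k
        (by rw [card_image_of_injective _ ci, card_range]; omega)
      obtain ⟨i, l1, l2⟩ := dense h e1 e2 e3
      exact ⟨i, by rw [← e4 _ l1 l2, filter_image, card_image_of_injective _ ci]⟩
  rw [this, Set.ncard_coe_finset, card_range]

end Pool.Agent.H25.Sturm
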