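import Mathlib

namespace Pool.Agent.H25.Theta

open PowerSeries Nat

/-- Rationals with odd denominator. -/
noncomputable def R : Subring ℚ := (Rat.padicValuation 2).integer

lemma mem_R {x : ℚ} : x ∈ R ↔ Odd x.den := by
  rw [R, Valuation.mem_integer_iff, Rat.padicValuation_le_one_iff, ← Nat.not_even_iff_odd,
    even_iff_two_dvd]

lemma inv_odd (k : ℤ) (h : Odd k) : ((k : ℚ))⁻¹ ∈ R := by
  rw [mem_R, Rat.inv_intCast_den]
  split_ifs
  · exact odd_one
  · exact Int.natAbs_odd.2 h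

lemma pow_div_fact (m : ℕ) : (2 : ℚ) ^ m / (m + 1)! ∈ R := by
  obtain ⟨k, q, hq, h⟩ := Nat.exists_eq_two_pow_mul_odd (factorial_ne_zero (m + 1))
  have hk : k ≤ m := by
    have h1 := Nat.emultiplicity_two_factorial_lt (n := m + 1) (by omega)
    have h2 : (k : ℕ∞) ≤ emultiplicity 2 (m + 1)! := le_emultiplicity_of_pow_dvd ⟨q, h⟩
    have := h2.trans_lt h1
    norm_cast at this
    omega
  obtain ⟨j, rfl⟩ := Nat.exists_eq_add_of_le hk
  have : (2 : ℚ) ^ (k + j) / (k + j + 1)! = ((2 ^ j : ℕ) : ℚ) * (((q : ℤ) : ℚ))⁻¹ := by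
    have : (q : ℚ) ≠ 0 := by
      rintro h0
      norm_cast at h0
      simp [h0] at hq
    rw [h]; push_cast; field_simp; ring
  rw [this]
  exact R.mul_mem (natCast_mem R _) (inv_odd _ (by exact_mod_cast hq))

/-- Series all of whose coefficients have odd denominator. -/
def A : Subring ℚ⟦X⟧ where
  carrier := {f | ∀ n, coeff n f ∈ R}
  mul_mem' := fun {a b} ha hb n => by
    rw [coeff_mul]
    exact R.sum_mem fun p _ => R.mul_mem (ha _) (hb _)
  one_mem' := fun n => by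
    rw [coeff_one]; split_ifs
    exacts [R.one_mem, R.zero_mem]
  add_mem' := fun {a b} ha hb n => by
    rw [map_add]; exact R.add_mem (ha _) (hb _)
  zero_mem' := fun n => by simpa using R.zero_mem
  neg_mem' := fun {a} ha n => by
    rw [map_neg]; exact R.neg_mem (ha _)

lemma X_mem : (X : ℚ⟦X⟧) ∈ A := fun n => by
  rw [coeff_X]; split_ifs
  exacts [R.one_mem, R.zero_mem]

lemma C_mem {r : ℚ} (h : r ∈ R) : C r ∈ A := fun n => by
  rw [coeff_C]; split_ifs
  exacts [h, R.zero_mem]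

lemma d_mem {f : ℚ⟦X⟧} (h : f ∈ A) : d⁄dX ℚ f ∈ A := fun n => by
  rw [coeff_derivative]
  exact R.mul_mem (h _) (R.add_mem (natCast_mem R _) R.one_mem)

lemma div_mem {f g : ℚ⟦X⟧} (hf : f ∈ A) (h0 : coeff 0 f = 1) (h : g * f ∈ A) : g ∈ A := by
  intro n
  induction n using Nat.strong_induction_on with
  | _ n ih =>
    have := h n
    rw [coeff_mul, Finset.Nat.sum_antidiagonal_eq_sum_range_succ_mk, Finset.sum_range_succ,
      Nat.sub_self, h0, mul_one] at this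
    have h2 : ∑ k ∈ Finset.range n, coeff k g * coeff (n - k) f ∈ R :=
      R.sum_mem fun k hk => R.mul_mem (ih k (Finset.mem_range.1 hk)) (hf _)
    simpa using R.sub_mem this h2

/-- `₂F₁(a, b; c; 4 s)`. -/
noncomputable def F (a b c : ℚ) : ℚ⟦X⟧ := PowerSeries.mk fun n =>
  (ascPochhammer ℚ n).eval a * (ascPochhammer ℚ n).eval b /
    ((ascPochhammer ℚ n).eval c * n !) * 4 ^ n

lemma F_comm (a b c : ℚ) : F a b c = F b a c := by
  ext n; simp only [F, coeff_mk]; ring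

lemma F_zero (a b c : ℚ) : coeff 0 (F a b c) = 1 := by simp [F]

lemma F_succ (a b c : ℚ) (hc : 0 < c) (n : ℕ) :
    coeff (n + 1) (F a b c) = coeff n (F a b c) * (4 * (a + n) * (b + n) / ((c + n) * (n + 1))) := by
  have := ascPochhammer_pos n c hc
  simp only [F, coeff_mk, ascPochhammer_succ_eval, factorial_succ]
  push_cast
  field_simp
  ring

lemma poch (a : ℚ) (n : ℕ) :
    a * (ascPochhammer ℚ n).eval (a + 1) = (ascPochhammer ℚ n).eval a * (a + n) := by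
  rw [← ascPochhammer_succ_eval, ascPochhammer_succ_left]
  simp

lemma coeff_Xd (f : ℚ⟦X⟧) (n : ℕ) : coeff n (X * d⁄dX ℚ f) = coeff n f * n := by
  cases n with
  | zero => simp
  | succ n => rw [coeff_succ_X_mul, coeff_derivative]; push_cast; ring

lemma contA (a b c : ℚ) : C a * F (a + 1) b c = C a * F a b c + X * d⁄dX ℚ (F a b c) := by
  ext n
  rw [map_add, coeff_Xd, coeff_C_mul, coeff_C_mul]
  simp only [F, coeff_mk]
  have := poch a n
  linear_combination ((ascPochhammer ℚ n).eval b / ((ascPochhammer ℚ n).eval c * n !) * 4 ^ n) * this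

lemma F_c (a b c : ℚ) (hc : 0 < c) (n : ℕ) :
    coeff n (F a b (c + 1)) = coeff n (F a b c) * (c / (c + n)) := by
  have h1 := ascPochhammer_pos n c hc
  have h2 := ascPochhammer_pos n (c + 1) (by linarith)
  have h3 : (ascPochhammer ℚ n).eval (c + 1) = (ascPochhammer ℚ n).eval c * (c + n) / c := by
    rw [← poch]; field_simp
  simp only [F, coeff_mk, h3]
  field_simp

lemma contC (a b c : ℚ) (hc : 0 < c) : C (4 * (c - a) * (c - b)) * F a b (c + 1) =
    C c * d⁄dX ℚ (F a b c) - C (4 * c) * (X * d⁄dX ℚ (F a b c))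
      - C (4 * c * (a + b - c)) * F a b c := by
  ext n
  simp only [map_sub (coeff n), coeff_C_mul, coeff_Xd, coeff_derivative, F_c a b c hc,
    F_succ a b c hc]
  field_simp
  ring

local instance : Fact (Nat.Prime 2) := ⟨Nat.prime_two⟩

noncomputable abbrev D : ℚ⟦X⟧ := F (1 / 4) (1 / 4) (1 / 2)
noncomputable abbrev N : ℚ⟦X⟧ := F (3 / 4) (3 / 4) (3 / 2)
noncomputable def G : ℚ⟦X⟧ := d⁄dX ℚ D - 4 * (X * d⁄dX ℚ D)
noncomputable def H : ℚ⟦X⟧ := N + 2 * (X * d⁄dX ℚ N)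
noncomputable def K : ℚ⟦X⟧ := H - 4 * (X * H)

lemma coeff_nat (k : ℕ) [k.AtLeastTwo] (f : ℚ⟦X⟧) (n : ℕ) :
    coeff n ((ofNat(k) : ℚ⟦X⟧) * f) = (ofNat(k) : ℚ) * coeff n f := by
  rw [← coeff_C_mul, map_ofNat]

lemma d_nat (k : ℕ) [k.AtLeastTwo] : d⁄dX ℚ (ofNat(k) : ℚ⟦X⟧) = 0 := by
  rw [← map_ofNat (C (R := ℚ)) k, derivative_C]

lemma ca (f g : ℚ⟦X⟧) (n : ℕ) : coeff n (f + g) = coeff n f + coeff n g := map_add _ _ _
lemma cs (f g : ℚ⟦X⟧) (n : ℕ) : coeff n (f - g) = coeff n f - coeff n g := map_sub _ _ _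
lemma F0 (a b c : ℚ) : constantCoeff (F a b c) = 1 := by
  rw [← coeff_zero_eq_constantCoeff_apply, F_zero]

lemma odeG : 2 * G + 4 * (X * d⁄dX ℚ G) = D := by
  ext n
  simp only [ca, cs, coeff_nat, coeff_Xd, G, coeff_derivative,
    F_succ _ _ _ (by norm_num : (0 : ℚ) < 1 / 2)]
  field_simp
  ring

lemma odeK : 2 * d⁄dX ℚ K = N := by
  have : d⁄dX ℚ K = d⁄dX ℚ H - 4 * H - 4 * (X * d⁄dX ℚ H) := by
    simp only [K, map_sub, Derivation.leibniz, d_nat, derivative_X, smul_eq_mul]; ring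
  rw [this]
  ext n
  simp only [ca, cs, coeff_nat, coeff_Xd, H, coeff_derivative,
    F_succ _ _ _ (by norm_num : (0 : ℚ) < 3 / 2)]
  push_cast
  field_simp
  ring

lemma wr : K * D - 2 * X * N * G = 1 := by
  apply derivative.ext
  · have h1 := odeG
    have h2 := odeK
    have h : (2 : ℚ⟦X⟧) ≠ 0 := by
      rw [← map_ofNat (C (R := ℚ)) 2]; simp
    apply mul_left_cancel₀ h
    simp only [map_sub, Derivation.leibniz, d_nat, derivative_X, smul_eq_mul, Derivation.map_one_eq_zero]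
    have hG : G = d⁄dX ℚ D - 4 * (X * d⁄dX ℚ D) := rfl
    have hK : K = H - 4 * (X * H) := rfl
    have hH : H = N + 2 * (X * d⁄dX ℚ N) := rfl
    linear_combination D * h2 - N * h1 + 2 * d⁄dX ℚ D * hK - 2 * H * hG + 2 * G * hH
  · simp [K, H, F0]

noncomputable def W : ℚ⟦X⟧ := D * D
noncomputable def U : ℚ⟦X⟧ := 2 * (D * G)

lemma odeW : d⁄dX ℚ W - 4 * (X * d⁄dX ℚ W) = U := by
  simp only [W, U, G, Derivation.leibniz, smul_eq_mul]; ring

lemma odeU : d⁄dX ℚ (U + 2 * (X * d⁄dX ℚ U)) - 4 * (U + 2 * (X * d⁄dX ℚ U))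
    - 4 * (X * d⁄dX ℚ (U + 2 * (X * d⁄dX ℚ U))) = 2 * U - 4 * W := by
  have h1 := odeG
  have hG : G = d⁄dX ℚ D - 4 * (X * d⁄dX ℚ D) := rfl
  have h2 : U + 2 * (X * d⁄dX ℚ U) = 4 * (X * (d⁄dX ℚ D * G)) + D * D := by
    simp only [U, Derivation.leibniz, smul_eq_mul, d_nat]
    linear_combination D * h1
  have h3 : (1 - 4 * X) * (U + 2 * (X * d⁄dX ℚ U)) = 4 * (X * (G * G)) + (1 - 4 * X) * (D * D) := by
    rw [h2]; linear_combination (-4 * X * G) * hG
  have h4 := congrArg (d⁄dX ℚ) h3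
  generalize U + 2 * (X * d⁄dX ℚ U) = Y at h4 ⊢
  simp only [map_add, map_sub, Derivation.leibniz, smul_eq_mul, d_nat, derivative_X,
    Derivation.map_one_eq_zero] at h4
  simp only [U, W]
  linear_combination h4 + 2 * G * h1 - 2 * D * hG

lemma coeffWU (n : ℕ) : ∃ a b : ℤ, coeff n W = 4 ^ n * a / (2 * (2 * n)!) ∧
    coeff n U = 4 ^ n * b / (2 * n + 1)! := by
  induction n with
  | zero =>
    refine ⟨2, 1, by simp [W, F0], ?_⟩
    simp only [U, coeff_mul, Finset.HasAntidiagonal.antidiagonal_zero, Finset.sum_singleton, G, cs,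
      coeff_Xd, coeff_derivative, F_succ _ _ _ (by norm_num : (0 : ℚ) < 1 / 2), F_zero]
    norm_num [map_ofNat]
  | succ n ih =>
    obtain ⟨a, b, ha, hb⟩ := ih
    have h1 := congrArg (coeff n) odeW
    have h2 := congrArg (coeff n) odeU
    simp only [ca, cs, coeff_nat, coeff_Xd, coeff_derivative, ha, hb] at h1 h2
    have e1 : ((2 * n + 1)! : ℚ) = (2 * n + 1) * (2 * n)! := by rw [factorial_succ]; push_cast; ring
    have e2 : ((2 * (n + 1))! : ℚ) = (2 * n + 2) * (2 * n + 1) * (2 * n)! := by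
      rw [show 2 * (n + 1) = 2 * n + 1 + 1 by ring, factorial_succ, factorial_succ]; push_cast; ring
    have e3 : ((2 * (n + 1) + 1)! : ℚ) = (2 * n + 3) * (2 * n + 2) * (2 * n + 1) * (2 * n)! := by
      rw [factorial_succ, Nat.cast_mul, e2]; push_cast; ring
    have e4 : ((2 * n)! : ℚ) ≠ 0 := by positivity
    rw [e1] at h1 h2
    refine ⟨b + 2 * n * (2 * n + 1) * a, (2 * n + 2) * (2 * n + 1) * b + b - (2 * n + 1) * a, ?_, ?_⟩
    · rw [e2]
      push_cast at h1 ⊢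
      field_simp at h1 ⊢
      linear_combination 2 * h1
    · rw [e3]
      push_cast at h2 ⊢
      field_simp at h2 ⊢
      linear_combination h2

lemma W_mem : W ∈ A := fun n => by
  obtain ⟨a, -, ha, -⟩ := coeffWU n
  cases n with
  | zero =>
    have : coeff 0 W = 1 := by simp [W, F0]
    rw [this]; exact R.one_mem
  | succ n =>
    have : coeff (n + 1) W = (2 : ℚ) ^ (2 * n + 1) / (2 * n + 1 + 1)! * a := by
      rw [ha, show 2 * (n + 1) = 2 * n + 1 + 1 by ring, show (4 : ℚ) = 2 ^ 2 by norm_num, ← pow_mul]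
      field_simp
      ring
    rw [this]
    exact R.mul_mem (pow_div_fact _) (intCast_mem R _)

lemma D_ne : D ≠ 0 := fun h => by simpa [F0] using congrArg constantCoeff h

lemma T_mem {T : ℚ⟦X⟧} (h : T * D = N) : T ∈ A := by
  have h1 : (T + 2 * (X * d⁄dX ℚ T)) * ((1 - 4 * X) * W) = 1 := by
    have h2 := congrArg (d⁄dX ℚ) h
    simp only [Derivation.leibniz, smul_eq_mul] at h2
    have hG : G = d⁄dX ℚ D - 4 * (X * d⁄dX ℚ D) := rfl
    have hK : K = H - 4 * (X * H) := rfl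
    have hH : H = N + 2 * (X * d⁄dX ℚ N) := rfl
    rw [W]
    linear_combination wr - D * hK - (1 - 4 * X) * D * hH + 2 * X * N * hG
      + (1 - 4 * X) * (D - 2 * X * d⁄dX ℚ D) * h + 2 * X * (1 - 4 * X) * D * h2
  have h3 : T + 2 * (X * d⁄dX ℚ T) ∈ A := by
    refine div_mem (f := (1 - 4 * X) * W) ?_ (by simp [W, F0]) (h1 ▸ A.one_mem)
    exact A.mul_mem (A.sub_mem A.one_mem (A.mul_mem (ofNat_mem A 4) X_mem)) W_mem
  intro n
  have h4 := h3 n
  rw [ca, coeff_nat, coeff_Xd] at h4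
  have h5 := R.mul_mem h4 (inv_odd (2 * n + 1) (odd_two_mul_add_one _))
  have : (coeff n T + 2 * (coeff n T * n)) * (((2 * n + 1 : ℤ) : ℚ))⁻¹ = coeff n T := by
    push_cast; field_simp; ring
  rwa [this] at h5

/-- `f` is a multiple of `D` by a series with odd denominators. -/
def M (f : ℚ⟦X⟧) : Prop := ∃ g ∈ A, f = g * D

lemma M.add {f g : ℚ⟦X⟧} (hf : M f) (hg : M g) : M (f + g) := by
  obtain ⟨a, ha, rfl⟩ := hf
  obtain ⟨b, hb, rfl⟩ := hg
  exact ⟨a + b, A.add_mem ha hb, by ring⟩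

lemma M.mul {f g : ℚ⟦X⟧} (hf : f ∈ A) (hg : M g) : M (f * g) := by
  obtain ⟨b, hb, rfl⟩ := hg
  exact ⟨f * b, A.mul_mem hf hb, by ring⟩

lemma M.d {f : ℚ⟦X⟧} (hf : M f) : M (2 * d⁄dX ℚ f) := by
  obtain ⟨a, ha, rfl⟩ := hf
  have hW : W * W⁻¹ = 1 := PowerSeries.mul_inv_cancel _ (by simp [W, F0])
  have hi : W⁻¹ ∈ A := div_mem W_mem (by simp [W, F0]) (by rw [mul_comm, hW]; exact A.one_mem)
  refine ⟨2 * d⁄dX ℚ a + a * (d⁄dX ℚ W * W⁻¹), ?_, ?_⟩
  · exact A.add_mem (A.mul_mem (ofNat_mem A 2) (d_mem ha))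
      (A.mul_mem ha (A.mul_mem (d_mem W_mem) hi))
  · have : d⁄dX ℚ W = 2 * D * d⁄dX ℚ D := by
      simp only [W, Derivation.leibniz, smul_eq_mul]; ring
    have hW' : W = D * D := rfl
    simp only [Derivation.leibniz, smul_eq_mul, this]
    linear_combination (-2 * a * d⁄dX ℚ D) * hW + 2 * a * d⁄dX ℚ D * W⁻¹ * hW'

lemma M.cancel {f : ℚ⟦X⟧} (k : ℤ) (hk : Odd k) (h : M (C (k : ℚ) * f)) : M f := by
  have := M.mul (C_mem (inv_odd k hk)) h
  rwa [← mul_assoc, ← map_mul, inv_mul_cancel₀ (by rintro h; norm_cast at h; simp [h] at hk),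
    map_one, one_mul] at this

lemma stepA (a : ℤ) (ha : Odd a) (b c : ℚ) (h : M (F (a / 4) b c)) : M (F (a / 4 + 1) b c) := by
  refine M.cancel a ha ?_
  have h1 := contA (a / 4) b c
  have h2 : C (a : ℚ) = 4 * C ((a : ℚ) / 4) := by
    rw [← map_ofNat (C (R := ℚ)) 4, ← map_mul]; congr 1; ring
  have : C (a : ℚ) * F (a / 4 + 1) b c =
      C (a : ℚ) * F (a / 4) b c + 2 * X * (2 * d⁄dX ℚ (F (a / 4) b c)) := by
    rw [h2]; linear_combination 4 * h1
  rw [this]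
  exact (M.mul (C_mem (intCast_mem R _)) h).add (M.mul (A.mul_mem (ofNat_mem A 2) X_mem) h.d)

lemma stepC (a b c : ℤ) (ha : Odd a) (hb : Odd b) (hc : 0 < c) (h : M (F (a / 4) (b / 4) (c / 2))) :
    M (F (a / 4) (b / 4) (c / 2 + 1)) := by
  refine M.cancel ((2 * c - a) * (2 * c - b))
    (((even_two_mul c).sub_odd ha).mul ((even_two_mul c).sub_odd hb)) ?_
  have h1 := contC (a / 4) (b / 4) (c / 2) (by positivity)
  have e1 : C ((((2 * c - a) * (2 * c - b) : ℤ)) : ℚ) =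
      4 * C (4 * ((c : ℚ) / 2 - a / 4) * (c / 2 - b / 4)) := by
    rw [← map_ofNat (C (R := ℚ)) 4, ← map_mul]; congr 1; push_cast; ring
  have e2 : C (c : ℚ) = 2 * C ((c : ℚ) / 2) := by
    rw [← map_ofNat (C (R := ℚ)) 2, ← map_mul]; congr 1; ring
  have e3 : C (4 * ((c : ℚ) / 2)) = 4 * C ((c : ℚ) / 2) := by rw [map_mul, map_ofNat]
  have e4 : C (((-(2 * c * (a + b - 2 * c)) : ℤ)) : ℚ) =
      -4 * C (4 * ((c : ℚ) / 2) * (a / 4 + b / 4 - c / 2)) := by
    rw [← map_ofNat (C (R := ℚ)) 4, ← map_neg, ← map_mul]; congr 1; push_cast; ring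
  have : C ((((2 * c - a) * (2 * c - b) : ℤ)) : ℚ) * F (a / 4) (b / 4) (c / 2 + 1) =
      C (c : ℚ) * (1 - 4 * X) * (2 * d⁄dX ℚ (F (a / 4) (b / 4) (c / 2))) +
      C (((-(2 * c * (a + b - 2 * c)) : ℤ)) : ℚ) * F (a / 4) (b / 4) (c / 2) := by
    rw [e3] at h1
    rw [e1, e2, e4]; linear_combination 4 * h1
  rw [this]
  exact (M.mul (A.mul_mem (C_mem (intCast_mem R _))
    (A.sub_mem A.one_mem (A.mul_mem (ofNat_mem A 4) X_mem))) h.d).add
    (M.mul (C_mem (intCast_mem R _)) h)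

lemma all (a c : ℤ) (ha : Odd a) (hc : 0 < c) (h : M (F (a / 4) (a / 4) (c / 2))) (i j k : ℕ) :
    M (F (a / 4 + i) (a / 4 + j) (c / 2 + k)) := by
  have hk : M (F (a / 4) (a / 4) (c / 2 + k)) := by
    induction k with
    | zero => simpa using h
    | succ k ih =>
      have e : (c : ℚ) / 2 + k = ((c + 2 * k : ℤ) : ℚ) / 2 := by push_cast; ring
      rw [e] at ih
      have := stepC a a _ ha ha (by omega) ih
      rwa [← e, add_assoc, ← Nat.cast_succ] at this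
  have hi : ∀ (b c : ℚ) (i : ℕ), M (F (a / 4) b c) → M (F (a / 4 + i) b c) := by
    intro b c i h
    induction i with
    | zero => simpa using h
    | succ i ih =>
      have e : (a : ℚ) / 4 + i = ((a + 4 * i : ℤ) : ℚ) / 4 := by push_cast; ring
      rw [e] at ih
      have := stepA _ (ha.add_even ⟨2 * i, by ring⟩) _ _ ih
      rwa [← e, add_assoc, ← Nat.cast_succ] at this
  refine hi _ _ _ ?_
  rw [F_comm]
  exact hi _ _ _ hk

theorem main (a b c d e f : ℕ) :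
    F (3 / 4 + a) (3 / 4 + b) (3 / 2 + c) * (F (1 / 4 + d) (1 / 4 + e) (1 / 2 + f))⁻¹ ∈ A := by
  have hD : D⁻¹ * D = 1 := PowerSeries.inv_mul_cancel _ (by simp [F0])
  have hN : M N := ⟨N * D⁻¹, T_mem (by rw [mul_assoc, hD, mul_one]), by rw [mul_assoc, hD, mul_one]⟩
  obtain ⟨g, hg, h1⟩ := all 3 3 (by decide) (by decide) (by push_cast; exact hN) a b c
  obtain ⟨k, hk, h2⟩ := all 1 1 (by decide) (by decide)
    (by push_cast; exact ⟨1, A.one_mem, (one_mul _).symm⟩) d e f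
  push_cast at h1 h2
  have h3 : (F (1 / 4 + d) (1 / 4 + e) (1 / 2 + f))⁻¹ * F (1 / 4 + d) (1 / 4 + e) (1 / 2 + f) = 1 :=
    PowerSeries.inv_mul_cancel _ (by simp [F0])
  refine div_mem hk ?_ ?_
  · simpa [F0] using (congrArg constantCoeff h2).symm
  · have : F (3 / 4 + a) (3 / 4 + b) (3 / 2 + c) * (F (1 / 4 + d) (1 / 4 + e) (1 / 2 + f))⁻¹ * k
        = g := by
      apply mul_right_cancel₀ D_ne
      rw [mul_assoc, ← h2, mul_assoc, h3, mul_one, h1]
    rwa [this]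

end Pool.Agent.H25.Theta
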