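import Mathlib

set_option autoImplicit false

namespace Pool.Agent.H25.Tietze

open SimpleGraph

section Defs

variable {V : Type} [Fintype V] [DecidableEq V] (G : SimpleGraph V)

/-- At least four vertices, and deleting at most two vertices leaves a connected graph. -/
def ThreeConnected : Prop :=
  4 ≤ Fintype.card V ∧ ∀ S : Finset V, S.card ≤ 2 → (G.induce {v | v ∉ S}).Connected

/-- A finite family (with repetitions) of cycles of `G`. -/
def IsCycleFamily (F : List (Σ v : V, G.Walk v v)) : Prop := ∀ C ∈ F, C.2.IsCycle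

/-- Lengths of closed walks that traverse every edge. -/
def postmanLengths : Set ℕ :=
  {n | ∃ (v : V) (p : G.Walk v v), (∀ e ∈ G.edgeSet, e ∈ p.edges) ∧ p.length = n}

/-- Total lengths of cycle covers. -/
def coverLengths : Set ℕ :=
  {n | ∃ F : List (Σ v : V, G.Walk v v), IsCycleFamily G F ∧
    (∀ e ∈ G.edgeSet, ∃ C ∈ F, e ∈ C.2.edges) ∧ (F.map fun C => C.2.length).sum = n}

open Classical in
/-- Weights in `{1, 2}` with even total on every edge cut. -/
def IsEulerianWeight (w : Sym2 V → ℕ) : Prop :=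
  (∀ e ∈ G.edgeSet, w e = 1 ∨ w e = 2) ∧
    ∀ S : Finset V, Even (∑ e ∈ G.edgeFinset with (∃ a ∈ S, ∃ b ∉ S, e = s(a, b)), w e)

/-- Every edge `e` lies in exactly `w e` members of some family of cycles. -/
def HasCycleCover (w : Sym2 V → ℕ) : Prop :=
  ∃ F : List (Σ v : V, G.Walk v v), IsCycleFamily G F ∧
    ∀ e ∈ G.edgeSet, F.countP (fun C => e ∈ C.2.edges) = w e

end Defs

def A : Fin 18 → Fin 12 := ![0, 1, 2, 3, 6, 4, 5, 7, 9, 11, 8, 10, 0, 1, 2, 3, 4, 5]
def B : Fin 18 → Fin 12 := ![1, 2, 3, 6, 4, 5, 0, 9, 11, 8, 10, 7, 8, 9, 10, 11, 7, 6]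
def E (i : Fin 18) : Sym2 (Fin 12) := s(A i, B i)

def adj (a b : Fin 12) : Bool :=
  (List.finRange 18).any fun i => (A i == a && B i == b) || (A i == b && B i == a)

def T : SimpleGraph (Fin 12) where
  Adj a b := adj a b = true
  symm := ⟨by decide +kernel⟩
  loopless := ⟨by decide +kernel⟩

instance : DecidableRel T.Adj := fun a b => inferInstanceAs (Decidable (adj a b = true))

lemma E_inj : Function.Injective E := by
  intro i j; revert i j; decide +kernel

lemma mem_edge (e : Sym2 (Fin 12)) : e ∈ T.edgeSet ↔ ∃ i, E i = e := by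
  induction e using Sym2.ind with
  | _ a b =>
    rw [mem_edgeSet]
    revert a b
    decide +kernel

lemma sum_eq (l : List (Sym2 (Fin 12))) (hl : ∀ e ∈ l, e ∈ T.edgeSet) (f : Sym2 (Fin 12) → ℕ) :
    (l.map f).sum = ∑ i, l.count (E i) * f (E i) := by
  induction l with
  | nil => simp
  | cons e l ih =>
    obtain ⟨j, rfl⟩ := (mem_edge e).1 (hl e (by simp))
    rw [List.map_cons, List.sum_cons, ih fun e he => hl e (by simp [he])]
    simp only [List.count_cons, add_mul, Finset.sum_add_distrib, beq_iff_eq, E_inj.eq_iff]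
    rw [add_comm]
    simp

lemma walk_even {u w : Fin 12} (p : T.Walk u w) (x : Fin 12) :
    Even ((p.edges.map fun e => if x ∈ e then 1 else 0).sum + (if x = u then 1 else 0) +
      (if x = w then 1 else 0)) := by
  induction p with
  | nil => by_cases h : x = ‹Fin 12› <;> simp [h]
  | @cons a b c h p ih =>
    have := h.ne
    simp only [Walk.edges_cons, List.map_cons, List.sum_cons, Sym2.mem_iff]
    rw [Nat.even_iff] at ih ⊢
    by_cases h1 : x = a <;> by_cases h2 : x = b <;> simp_all <;> omega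

/-- parity constraints on the multiplicity vector of a closed walk -/
def Par (c : Fin 18 → ℕ) : Prop :=
  ∀ x : Fin 12, Even (∑ i, c i * if x ∈ E i then 1 else 0)

lemma closed_par {u : Fin 12} (p : T.Walk u u) : Par fun i => p.edges.count (E i) := by
  intro x
  have := walk_even p x
  rw [sum_eq _ (fun e he => p.edges_subset_edgeSet he), add_assoc, ← two_mul] at this
  exact (Nat.even_add.1 this).2 (even_two_mul _)

lemma len_eq {u : Fin 12} (p : T.Walk u u) : p.length = ∑ i, p.edges.count (E i) := by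
  have := sum_eq _ (fun e he => p.edges_subset_edgeSet he) (fun _ => 1)
  simpa using this

lemma par_iff (c : Fin 18 → ℕ) (h : Par c) :
    (c 0 + c 6 + c 12) % 2 = 0 ∧ (c 0 + c 1 + c 13) % 2 = 0 ∧ (c 1 + c 2 + c 14) % 2 = 0 ∧
    (c 2 + c 3 + c 15) % 2 = 0 ∧ (c 4 + c 5 + c 16) % 2 = 0 ∧ (c 5 + c 6 + c 17) % 2 = 0 ∧
    (c 3 + c 4 + c 17) % 2 = 0 ∧ (c 7 + c 11 + c 16) % 2 = 0 ∧ (c 9 + c 10 + c 12) % 2 = 0 ∧
    (c 7 + c 8 + c 13) % 2 = 0 ∧ (c 10 + c 11 + c 14) % 2 = 0 ∧ (c 8 + c 9 + c 15) % 2 = 0 := by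
  have h0 := h 0; have h1 := h 1; have h2 := h 2; have h3 := h 3; have h4 := h 4
  have h5 := h 5; have h6 := h 6; have h7 := h 7; have h8 := h 8; have h9 := h 9
  have h10 := h 10; have h11 := h 11
  simp [Fin.sum_univ_succ, E, A, B, Nat.even_iff] at h0 h1 h2 h3 h4 h5 h6 h7 h8 h9 h10 h11
  refine ⟨?_, ?_, ?_, ?_, ?_, ?_, ?_, ?_, ?_, ?_, ?_, ?_⟩ <;> omega

lemma sum18 (c : Fin 18 → ℕ) : ∑ i, c i = c 0 + c 1 + c 2 + c 3 + c 4 + c 5 + c 6 + c 7 + c 8 +
    c 9 + c 10 + c 11 + c 12 + c 13 + c 14 + c 15 + c 16 + c 17 := by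
  simp [Fin.sum_univ_succ]; omega

lemma lower (c : Fin 18 → ℕ) (h : Par c) (h1 : ∀ i, 1 ≤ c i) : 24 ≤ ∑ i, c i := by
  obtain ⟨a0, a1, a2, a3, a4, a5, a6, a7, a8, a9, a10, a11⟩ := par_iff c h
  have b0 := h1 0; have b1 := h1 1; have b2 := h1 2; have b3 := h1 3; have b4 := h1 4
  have b5 := h1 5; have b6 := h1 6; have b7 := h1 7; have b8 := h1 8; have b9 := h1 9
  have b10 := h1 10; have b11 := h1 11; have b12 := h1 12; have b13 := h1 13
  have b14 := h1 14; have b15 := h1 15; have b16 := h1 16; have b17 := h1 17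
  have d0 : 4 ≤ c 0 + c 6 + c 12 := by omega
  have d1 : 4 ≤ c 0 + c 1 + c 13 := by omega
  have d2 : 4 ≤ c 1 + c 2 + c 14 := by omega
  have d3 : 4 ≤ c 2 + c 3 + c 15 := by omega
  have d4 : 4 ≤ c 4 + c 5 + c 16 := by omega
  have d5 : 4 ≤ c 5 + c 6 + c 17 := by omega
  have d6 : 4 ≤ c 3 + c 4 + c 17 := by omega
  have d7 : 4 ≤ c 7 + c 11 + c 16 := by omega
  have d8 : 4 ≤ c 9 + c 10 + c 12 := by omega
  have d9 : 4 ≤ c 7 + c 8 + c 13 := by omega
  have d10 : 4 ≤ c 10 + c 11 + c 14 := by omega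
  have d11 : 4 ≤ c 8 + c 9 + c 15 := by omega
  rw [sum18]
  clear a0 a1 a2 a3 a4 a5 a6 a7 a8 a9 a10 a11
  omega

def light (c : Fin 18 → ℕ) : ℕ :=
  2 * (c 0 + c 1 + c 2 + c 3 + c 4 + c 5 + c 6 + c 7 + c 8 + c 9 + c 10 + c 11) + c 17
def heavy (c : Fin 18 → ℕ) : ℕ := 2 * (c 12 + c 13 + c 14 + c 15 + c 16 + c 17) + c 16
def spokes (c : Fin 18 → ℕ) : ℕ := c 12 + c 13 + c 14 + c 15 + c 16

set_option synthInstance.maxSize 100000 in
lemma key_fin : ∀ c0 ∈ List.range 2, ∀ c1 ∈ List.range 2, ∀ c13 ∈ List.range 2,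
    (c0 + c1 + c13) % 2 = 0 → ∀ c2 ∈ List.range 2, ∀ c14 ∈ List.range 2,
    (c1 + c2 + c14) % 2 = 0 → ∀ c3 ∈ List.range 2, ∀ c15 ∈ List.range 2,
    (c2 + c3 + c15) % 2 = 0 → ∀ c4 ∈ List.range 2, ∀ c17 ∈ List.range 2,
    (c3 + c4 + c17) % 2 = 0 → ∀ c5 ∈ List.range 2, ∀ c16 ∈ List.range 2,
    (c4 + c5 + c16) % 2 = 0 → ∀ c6 ∈ List.range 2,
    (c5 + c6 + c17) % 2 = 0 → ∀ c12 ∈ List.range 2,
    (c0 + c6 + c12) % 2 = 0 → ∀ c7 ∈ List.range 2, ∀ c8 ∈ List.range 2,
    (c7 + c8 + c13) % 2 = 0 → ∀ c9 ∈ List.range 2,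
    (c8 + c9 + c15) % 2 = 0 → ∀ c10 ∈ List.range 2,
    (c9 + c10 + c12) % 2 = 0 → ∀ c11 ∈ List.range 2,
    (c10 + c11 + c14) % 2 = 0 → (c7 + c11 + c16) % 2 = 0 →
    2 * (c12 + c13 + c14 + c15 + c16 + c17) + c16 ≤
      2 * (c0 + c1 + c2 + c3 + c4 + c5 + c6 + c7 + c8 + c9 + c10 + c11) + c17 ∧
    (2 * (c12 + c13 + c14 + c15 + c16 + c17) + c16 =
      2 * (c0 + c1 + c2 + c3 + c4 + c5 + c6 + c7 + c8 + c9 + c10 + c11) + c17 →
      (c12 + c13 + c14 + c15 + c16) % 4 = 0) := by decide +kernel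

lemma key (c : Fin 18 → ℕ) (h : Par c) (h1 : ∀ i, c i ≤ 1) :
    heavy c ≤ light c ∧ (heavy c = light c → spokes c % 4 = 0) := by
  obtain ⟨a0, a1, a2, a3, a4, a5, a6, a7, a8, a9, a10, a11⟩ := par_iff c h
  have h2 : ∀ i, c i ∈ List.range 2 := fun i => List.mem_range.2 (Nat.lt_succ_of_le (h1 i))
  exact key_fin _ (h2 0) _ (h2 1) _ (h2 13) a1 _ (h2 2) _ (h2 14) a2 _ (h2 3) _ (h2 15) a3
    _ (h2 4) _ (h2 17) a6 _ (h2 5) _ (h2 16) a4 _ (h2 6) a5 _ (h2 12) a0 _ (h2 7) _ (h2 8) a9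
    _ (h2 9) a11 _ (h2 10) a8 _ (h2 11) a10 a7

def cnt (F : List (Σ v : Fin 12, T.Walk v v)) (i : Fin 18) : ℕ :=
  (F.map fun C => C.2.edges.count (E i)).sum

lemma fam_key (F : List (Σ v : Fin 12, T.Walk v v)) (hF : IsCycleFamily T F) :
    heavy (cnt F) ≤ light (cnt F) ∧ (heavy (cnt F) = light (cnt F) → spokes (cnt F) % 4 = 0) := by
  induction F with
  | nil => simp [heavy, light, spokes, cnt]
  | cons C F ih =>
    have h1 := ih fun D hD => hF D (by simp [hD])
    have h2 := key _ (closed_par C.2) fun i =>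
      List.nodup_iff_count_le_one.1 (hF C (by simp)).isTrail.edges_nodup (E i)
    simp only [heavy, light, spokes, cnt, List.map_cons, List.sum_cons] at h1 h2 ⊢
    omega

lemma cnt_eq (F : List (Σ v : Fin 12, T.Walk v v)) (hF : IsCycleFamily T F) (i : Fin 18) :
    cnt F i = F.countP (fun C => E i ∈ C.2.edges) := by
  induction F with
  | nil => simp [cnt]
  | cons C F ih =>
    have h1 := ih fun D hD => hF D (by simp [hD])
    have h2 := (hF C (by simp)).isTrail.edges_nodup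
    simp only [cnt, List.map_cons, List.sum_cons, List.countP_cons] at h1 ⊢
    rw [h1, add_comm]
    by_cases h : E i ∈ C.2.edges
    · simp [h, List.count_eq_one_of_mem h2 h]
    · simp [h, List.count_eq_zero_of_not_mem h]

def wt (e : Sym2 (Fin 12)) : ℕ :=
  if e ∈ [E 12, E 13, E 14, E 15, E 16, E 17] then 2 else 1

lemma wt_E : ∀ i : Fin 18, wt (E i) = if i.1 < 12 then 1 else 2 := by decide +kernel

lemma no_cover : ¬ HasCycleCover T wt := by
  rintro ⟨F, hF, h⟩
  have h1 : ∀ i, cnt F i = if i.1 < 12 then 1 else 2 := fun i => by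
    rw [cnt_eq F hF, h _ ((mem_edge _).2 ⟨i, rfl⟩), wt_E]
  have h2 := fam_key F hF
  simp [heavy, light, spokes, h1] at h2

lemma eul : IsEulerianWeight T wt := by
  classical
  refine ⟨fun e _ => by unfold wt; split_ifs <;> simp, fun S => ?_⟩
  have h1 : ∀ inst : Fintype T.edgeSet, @edgeFinset _ T inst = Finset.univ.image E := by
    intro inst; ext e; simp [mem_edge]
  rw [h1, Finset.sum_filter, Finset.sum_image fun i _ j _ h => E_inj h]
  have h2 : ∀ i, (∃ a ∈ S, ∃ b ∉ S, E i = s(a, b)) ↔ ¬ (A i ∈ S ↔ B i ∈ S) := by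
    intro i
    simp only [E, Sym2.eq_iff]
    constructor
    · rintro ⟨a, ha, b, hb, ⟨h1, h2⟩ | ⟨h1, h2⟩⟩ <;> simp [h1, h2, ha, hb]
    · intro h
      by_cases h3 : A i ∈ S
      · exact ⟨_, h3, _, fun h4 => h (by simp [h3, h4]), Or.inl ⟨rfl, rfl⟩⟩
      · exact ⟨B i, by by_contra h4; exact h (by simp [h3, h4]), _, h3, Or.inr ⟨rfl, rfl⟩⟩
  simp only [h2, wt_E]
  have h3 : ∀ x : Fin 12 → Bool,
      Even (∑ i : Fin 18, if ¬ (x (A i) = x (B i)) then (if i.1 < 12 then 1 else 2) else 0) := by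
    intro x
    have h4 : ∀ x0 x1 x2 x3 x4 x5 x6 x7 x8 x9 x10 x11 : Bool,
        Even (∑ i : Fin 18, if ¬ (![x0, x1, x2, x3, x4, x5, x6, x7, x8, x9, x10, x11] (A i) =
          ![x0, x1, x2, x3, x4, x5, x6, x7, x8, x9, x10, x11] (B i)) then
            (if i.1 < 12 then 1 else 2) else 0) := by decide +kernel
    have h5 : x = ![x 0, x 1, x 2, x 3, x 4, x 5, x 6, x 7, x 8, x 9, x 10, x 11] := by
      funext i; fin_cases i <;> rfl
    rw [h5]
    exact h4 _ _ _ _ _ _ _ _ _ _ _ _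
  convert h3 fun v => decide (v ∈ S) using 4
  simp

def reach (ok : Fin 12 → Bool) (r : Fin 12) : ℕ → List (Fin 12)
  | 0 => [r]
  | n + 1 =>
    let R := reach ok r n
    (List.finRange 12).filter fun v => ok v && (R.contains v || R.any fun u => adj u v)

lemma reach_sound (S : Finset (Fin 12)) (r : Fin 12) (hr : r ∉ S) (n : ℕ) :
    ∀ v ∈ reach (fun v => decide (v ∉ S)) r n, ∃ hv : v ∉ S,
      (T.induce {v | v ∉ S}).Reachable ⟨r, hr⟩ ⟨v, hv⟩ := by
  induction n with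
  | zero => intro v hv; simp only [reach, List.mem_singleton] at hv; subst hv; exact ⟨hr, .refl _⟩
  | succ n ih =>
    intro v hv
    simp only [reach, List.mem_filter, Bool.and_eq_true, Bool.or_eq_true, decide_eq_true_eq,
      List.contains_iff_mem, List.any_eq_true] at hv
    obtain ⟨-, h1, h2 | ⟨u, hu, h2⟩⟩ := hv
    · exact ih v h2
    · obtain ⟨h3, h4⟩ := ih u hu
      exact ⟨h1, h4.trans (Adj.reachable (by simpa [T] using h2))⟩

lemma conn_of (S : Finset (Fin 12)) (r : Fin 12) (hr : r ∉ S)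
    (h : ∀ v, v ∉ S → v ∈ reach (fun v => decide (v ∉ S)) r 8) :
    (T.induce {v | v ∉ S}).Connected := by
  rw [connected_iff_exists_forall_reachable]
  refine ⟨⟨r, hr⟩, fun v => ?_⟩
  obtain ⟨_, h2⟩ := reach_sound S r hr 8 v.1 (h v.1 v.2)
  exact h2

lemma chk2 : ∀ a b : Fin 12, ∃ r : Fin 12, r ∉ ({a, b} : Finset (Fin 12)) ∧
    ∀ v, v ∉ ({a, b} : Finset (Fin 12)) →
      v ∈ reach (fun v => decide (v ∉ ({a, b} : Finset (Fin 12)))) r 8 := by decide +kernel

lemma three : ThreeConnected T := by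
  refine ⟨by simp, fun S hS => ?_⟩
  have h : S.card = 0 ∨ S.card = 1 ∨ S.card = 2 := by omega
  rcases h with h | h | h
  · rw [Finset.card_eq_zero] at h
    subst h
    exact conn_of _ 0 (by simp) (by decide +kernel)
  · obtain ⟨a, rfl⟩ := Finset.card_eq_one.1 h
    obtain ⟨r, h1, h2⟩ := chk2 a a
    rw [show ({a, a} : Finset (Fin 12)) = {a} by simp] at h1 h2
    exact conn_of _ r h1 h2
  · obtain ⟨a, b, -, rfl⟩ := Finset.card_eq_two.1 h
    obtain ⟨r, h1, h2⟩ := chk2 a b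
    exact conn_of _ r h1 h2

def c6 (a b c d e f : Fin 12) (h : T.Adj a b ∧ T.Adj b c ∧ T.Adj c d ∧ T.Adj d e ∧ T.Adj e f ∧
    T.Adj f a) : T.Walk a a :=
  .cons h.1 (.cons h.2.1 (.cons h.2.2.1 (.cons h.2.2.2.1 (.cons h.2.2.2.2.1
    (.cons h.2.2.2.2.2 .nil)))))

def C1 : T.Walk 0 0 := c6 0 1 9 7 4 5 (by decide +kernel)
def C2 : T.Walk 1 1 := c6 1 2 10 8 11 9 (by decide +kernel)
def C3 : T.Walk 0 0 := c6 0 5 6 3 11 8 (by decide +kernel)
def C4 : T.Walk 2 2 := c6 2 3 6 4 7 10 (by decide +kernel)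

lemma cover : IsLeast (coverLengths T) 24 := by
  refine ⟨⟨[⟨0, C1⟩, ⟨1, C2⟩, ⟨0, C3⟩, ⟨2, C4⟩], ?_, ?_, by decide +kernel⟩, ?_⟩
  · intro C hC
    simp only [List.mem_cons, List.not_mem_nil, or_false] at hC
    rcases hC with rfl | rfl | rfl | rfl <;>
    · rw [Walk.isCycle_def, Walk.isTrail_def]
      refine ⟨by decide +kernel, by simp [C1, C2, C3, C4, c6], by decide +kernel⟩
  · intro e he
    obtain ⟨i, rfl⟩ := (mem_edge e).1 he
    simp only [List.mem_cons, List.not_mem_nil, or_false, exists_eq_or_imp, exists_eq_left]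
    revert i
    decide +kernel
  · rintro n ⟨F, hF, h, rfl⟩
    have h1 : (F.map fun C => C.2.length).sum = ∑ i, cnt F i := by
      clear hF h
      induction F with
      | nil => simp [cnt]
      | cons C F ih =>
        simp only [cnt, List.map_cons, List.sum_cons, Finset.sum_add_distrib] at ih ⊢
        rw [ih, len_eq]
    rw [h1]
    refine lower _ ?_ fun i => ?_
    · clear hF h h1
      induction F with
      | nil => intro x; simp [cnt]
      | cons C F ih =>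
        intro x
        simp only [cnt, List.map_cons, List.sum_cons, add_mul, Finset.sum_add_distrib]
        exact (closed_par C.2 x).add (ih x)
    · rw [cnt_eq F hF]
      obtain ⟨C, h1, h2⟩ := h _ ((mem_edge _).2 ⟨i, rfl⟩)
      exact List.countP_pos_iff.2 ⟨C, h1, by simpa using h2⟩

def P : T.Walk 0 0 :=
  .cons (show T.Adj 0 5 by decide +kernel) <|
  .cons (show T.Adj 5 6 by decide +kernel) <|
  .cons (show T.Adj 6 4 by decide +kernel) <|
  .cons (show T.Adj 4 7 by decide +kernel) <|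
  .cons (show T.Adj 7 4 by decide +kernel) <|
  .cons (show T.Adj 4 5 by decide +kernel) <|
  .cons (show T.Adj 5 0 by decide +kernel) <|
  .cons (show T.Adj 0 8 by decide +kernel) <|
  .cons (show T.Adj 8 11 by decide +kernel) <|
  .cons (show T.Adj 11 8 by decide +kernel) <|
  .cons (show T.Adj 8 10 by decide +kernel) <|
  .cons (show T.Adj 10 2 by decide +kernel) <|
  .cons (show T.Adj 2 10 by decide +kernel) <|
  .cons (show T.Adj 10 7 by decide +kernel) <|
  .cons (show T.Adj 7 9 by decide +kernel) <|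
  .cons (show T.Adj 9 1 by decide +kernel) <|
  .cons (show T.Adj 1 9 by decide +kernel) <|
  .cons (show T.Adj 9 11 by decide +kernel) <|
  .cons (show T.Adj 11 3 by decide +kernel) <|
  .cons (show T.Adj 3 6 by decide +kernel) <|
  .cons (show T.Adj 6 3 by decide +kernel) <|
  .cons (show T.Adj 3 2 by decide +kernel) <|
  .cons (show T.Adj 2 1 by decide +kernel) <|
  .cons (show T.Adj 1 0 by decide +kernel) <|
  .nil

lemma postman : IsLeast (postmanLengths T) 24 := by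
  refine ⟨⟨0, P, fun e he => ?_, by decide +kernel⟩, ?_⟩
  · obtain ⟨i, rfl⟩ := (mem_edge e).1 he
    revert i
    decide +kernel
  · rintro n ⟨v, p, h, rfl⟩
    rw [len_eq]
    exact lower _ (closed_par p) fun i => List.count_pos_iff.2 (h _ ((mem_edge _).2 ⟨i, rfl⟩))

end Pool.Agent.H25.Tietze
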