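import Mathlib

set_option autoImplicit false

namespace Pool.Agent.H25.TwoCyc

open Function

lemma weights (E : Type) [Fintype E] (L : ℤ) : ∃ (p : ℕ) (_ : Fact p.Prime) (φ : E → ZMod p),
    ∀ c : E → ℤ, (∀ e, |c e| ≤ L) → c ≠ 0 → ∑ e, c e * φ e ≠ 0 := by
  classical
  let P : (E → ℤ) → MvPolynomial E ℤ := fun c => ∑ e, MvPolynomial.C (c e) * MvPolynomial.X e
  let S := (Fintype.piFinset fun _ : E => Finset.Icc (-L) L).erase 0
  have h : ∏ c ∈ S, P c ≠ 0 := Finset.prod_ne_zero_iff.2 fun c hc z => by
    refine Finset.ne_of_mem_erase hc (funext fun e => ?_)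
    simpa [P, Pi.single_apply] using congrArg (MvPolynomial.eval (Pi.single e 1)) z
  obtain ⟨x, hx⟩ : ∃ x, MvPolynomial.eval x (∏ c ∈ S, P c) ≠ 0 := by
    by_contra c
    push Not at c
    exact h (MvPolynomial.funext fun x => by rw [c x, map_zero])
  obtain ⟨p, h1, h2⟩ := Nat.exists_infinite_primes ((MvPolynomial.eval x (∏ c ∈ S, P c)).natAbs + 1)
  refine ⟨p, ⟨h2⟩, fun e => x e, fun c hc c0 z => ?_⟩
  have a : (p : ℤ) ∣ MvPolynomial.eval x (P c) := by
    rw [← ZMod.intCast_zmod_eq_zero_iff_dvd]; simpa [P] using z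
  have b := a.trans (map_dvd (MvPolynomial.eval x) (Finset.dvd_prod_of_mem P
    (show c ∈ S by simpa [S, c0, abs_le] using hc)))
  have := Nat.le_of_dvd (Int.natAbs_pos.2 hx) (Int.natCast_dvd.1 b)
  omega

def Stp {X : Type} (s : Bool → X → X) (x : X) (l : Bool × Bool) (y : X) : Prop :=
  if l.2 then s l.1 x = y else s l.1 y = x

def Gir {X : Type} (s : Bool → X → X) (g : ℕ) : Prop :=
  ∀ (n : ℕ) (x : ℕ → X) (l : ℕ → Bool × Bool), 0 < n → n ≤ g →
    (∀ i < n, Stp s (x i) (l i) (x (i + 1))) →
    (∀ i, i + 1 < n → (l i).1 = (l (i + 1)).1 → (l i).2 = (l (i + 1)).2) → x n ≠ x 0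

theorem exists_gir (g : ℕ) : ∃ (X : Type) (_ : Fintype X) (_ : Nonempty X) (s : Bool → X → X),
    (∀ b, Injective (s b)) ∧ (∀ b x y, ∃ n, (s b)^[n] x = y) ∧ Gir s g := by
  classical
  induction g with
  | zero => exact ⟨Unit, inferInstance, inferInstance, fun _ => id, fun _ => injective_id,
      fun _ _ _ => ⟨0, rfl⟩, fun n _ _ a b => by omega⟩
  | succ g ih =>
    obtain ⟨X, _, _, s, h1, h2, h3⟩ := ih
    obtain ⟨p, _, φ, hφ⟩ := weights (Bool × X) (g + 1)
    refine ⟨X × ZMod p, inferInstance, inferInstance, fun b z => (s b z.1, z.2 + φ (b, z.1)),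
      fun b z w h => ?_, fun b z w => ?_, fun n x l n0 hn a r h => ?_⟩
    · obtain ⟨e1, e2⟩ := Prod.ext_iff.1 h
      have := h1 b e1
      exact Prod.ext this (by simpa [this] using e2)
    · have it : ∀ n z, (fun z : X × ZMod p => (s b z.1, z.2 + φ (b, z.1)))^[n] z =
          ((s b)^[n] z.1, z.2 + ∑ i ∈ Finset.range n, φ (b, (s b)^[i] z.1)) := fun n z => by
        induction n with
        | zero => simp
        | succ n ih => simp [iterate_succ_apply', ih, Finset.sum_range_succ, add_assoc]
      have A0 := hφ (fun e => if e.1 = b then 1 else 0)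
        (fun e => by split_ifs <;> simp <;> omega) fun c => by simpa using congrFun c (b, z.1)
      have A1 : ∑ i ∈ Finset.range (minimalPeriod (s b) w.1), φ (b, (s b)^[i] w.1) =
          ∑ e : Bool × X, ((if e.1 = b then 1 else 0 : ℤ) : ZMod p) * φ e := by
        rw [Fintype.sum_prod_type, Finset.sum_eq_single b (fun c _ h => by simp [h]) (by simp)]
        refine Finset.sum_nbij (fun i => (s b)^[i] w.1) (by simp)
          (by simpa using iterate_injOn_Iio_minimalPeriod) (fun y _ => ?_) (by simp)
        obtain ⟨n, rfl⟩ := h2 b w.1 y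
        exact ⟨n % _, by simpa using Nat.mod_lt _ (minimalPeriod_pos_of_mem_periodicPts
          ((h1 b).mem_periodicPts _)), iterate_mod_minimalPeriod_eq⟩
      rw [← A1] at A0
      obtain ⟨n, hn⟩ := h2 b z.1 w.1
      have rep : ∀ k t, (fun z : X × ZMod p => (s b z.1, z.2 + φ (b, z.1)))^[minimalPeriod (s b)
          w.1 * k] (w.1, t) = (w.1, t + k * ∑ i ∈ Finset.range (minimalPeriod (s b) w.1),
            φ (b, (s b)^[i] w.1)) := fun k t => by
        induction k with
        | zero => simp
        | succ k ih =>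
          rw [mul_add, mul_one, add_comm, iterate_add_apply, ih, it]
          simp [iterate_minimalPeriod, add_mul, add_assoc]
      refine ⟨minimalPeriod (s b) w.1 * ZMod.val ((w.2 - (z.2 + ∑ i ∈ Finset.range n,
        φ (b, (s b)^[i] z.1))) / ∑ i ∈ Finset.range (minimalPeriod (s b) w.1),
          φ (b, (s b)^[i] w.1)) + n, ?_⟩
      rw [iterate_add_apply, it n, hn, rep, ZMod.natCast_zmod_val, div_mul_cancel₀ _ A0]
      simp
    · have a1 : ∀ i < n, Stp s (x i).1 (l i) (x (i + 1)).1 := fun i hi => by
        have := a i hi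
        unfold Stp at this ⊢
        split_ifs at this ⊢ <;> exact congrArg Prod.fst this
      have dist : ∀ i j, i < j → j ≤ n → j - i ≤ g → (x i).1 ≠ (x j).1 := fun i j c d e f =>
        h3 (j - i) (fun k => (x (i + k)).1) (fun k => l (i + k)) (by omega) e
          (fun k hk => a1 (i + k) (by omega)) (fun k hk => r (i + k) (by omega))
          (by simp only [add_zero]; rw [← f.symm, show i + (j - i) = j by omega])
      let ed : ℕ → Bool × X := fun i => ((l i).1, if (l i).2 then (x i).1 else (x (i + 1)).1)
      let sg : ℕ → ℤ := fun i => if (l i).2 then 1 else -1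
      have sg1 : ∀ i, |sg i| = 1 := fun i => by simp only [sg]; split_ifs <;> simp
      have vol : ∀ m ≤ n, (x m).2 = (x 0).2 + ∑ i ∈ Finset.range m, sg i * φ (ed i) := fun m hm => by
        induction m with
        | zero => simp
        | succ m ih =>
          rw [Finset.sum_range_succ, ← add_assoc, ← ih (by omega)]
          have := a m hm
          simp only [Stp, sg, ed] at this ⊢
          split_ifs at this ⊢
          · simp [← this]
          · rw [← this]; simp
      refine hφ (fun e => ∑ i ∈ Finset.range n, if ed i = e then sg i else 0) (fun e => ?_)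
        (fun c => ?_) ?_
      · refine (Finset.abs_sum_le_sum_abs _ _).trans ((Finset.sum_le_card_nsmul _ _ 1
          fun i _ => ?_).trans (by simpa using (by exact_mod_cast hn : (n : ℤ) ≤ g + 1)))
        split_ifs <;> simp [sg1]
      · have := congrFun c (ed 0)
        rw [Finset.sum_eq_single 0 (fun j hj j0 => if_neg fun e => ?_) (by simp; omega)] at this
        · simpa [show sg 0 = 0 by simpa using this] using sg1 0
        rw [Finset.mem_range] at hj
        obtain ⟨e1, e2⟩ := Prod.ext_iff.1 e
        have b0 := a1 0 n0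
        have bj := a1 j hj
        have r0 := r 0 (by omega)
        have d1 := dist 0 j (by omega) (by omega) (by omega)
        have d2 := dist 1 (j + 1) (by omega) (by omega) (by omega)
        have d3 : j ≠ 1 → (x 1).1 ≠ (x j).1 := fun k => dist 1 j (by omega) (by omega) (by omega)
        simp only [ed, Stp, zero_add] at e1 e2 b0 bj r0
        by_cases k : j = 1
        · subst k
          rw [r0 e1.symm] at e2
          split_ifs at e2 <;> simp_all
        · split_ifs at e2 b0 bj <;> simp_all
      · have := vol n le_rfl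
        rw [h, left_eq_add] at this
        simp only [Int.cast_sum, Finset.sum_mul]
        rw [Finset.sum_comm, ← this]
        exact Finset.sum_congr rfl fun i _ => by simp

end Pool.Agent.H25.TwoCyc
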