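import Mathlib

set_option autoImplicit false

namespace Pool.Agent.H25.TwoTr

lemma lin_comm {Γ K U : Type} [Group Γ] [Field K] [AddCommGroup U] [Module K U]
    [FiniteDimensional K U] (ρ : Γ →* Module.End K U) (a b t : Γ)
    (h : ∀ n : ℕ, n ≠ 0 → ∀ x ∈ ({a, b} : Set Γ), ∀ y ∈ ({a, b} : Set Γ),
      x * (t ^ n * y * (t ^ n)⁻¹) = t ^ n * y * (t ^ n)⁻¹ * x) :
    ρ (a * b) = ρ (b * a) := by
  let C : ℕ → Submodule K (Module.End K U) := fun N =>
    { carrier := {X | ∀ n < N, ∀ x ∈ ({a, b} : Set Γ),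
        ρ (t ^ n * x * (t ^ n)⁻¹) * X = X * ρ (t ^ n * x * (t ^ n)⁻¹)}
      zero_mem' := fun n _ x _ => by simp
      add_mem' := fun {X Y} hX hY n hn x hx => by rw [mul_add, add_mul, hX n hn x hx, hY n hn x hx]
      smul_mem' := fun c X hX n hn x hx => by
        rw [mul_smul_comm, smul_mul_assoc, hX n hn x hx] }
  let f : ℕ →o (Submodule K (Module.End K U))ᵒᵈ :=
    ⟨fun N => C N, fun N M hNM X hX n hn x hx => hX n (lt_of_lt_of_le hn hNM) x hx⟩
  obtain ⟨N, hN⟩ := IsArtinian.monotone_stabilizes f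
  have h1 : ρ (t ^ N * b * (t ^ N)⁻¹) ∈ C N := by
    intro n hn x hx
    obtain ⟨m, rfl⟩ := Nat.exists_eq_add_of_lt hn
    have := h (m + 1) (by omega) x hx b (by simp)
    rw [← map_mul, ← map_mul]
    congr 1
    have e : t ^ (n + m + 1) = t ^ n * t ^ (m + 1) := by rw [← pow_add, add_assoc]
    rw [e]
    calc t ^ n * x * (t ^ n)⁻¹ * (t ^ n * t ^ (m + 1) * b * (t ^ n * t ^ (m + 1))⁻¹)
        = t ^ n * (x * (t ^ (m + 1) * b * (t ^ (m + 1))⁻¹)) * (t ^ n)⁻¹ := by group
      _ = t ^ n * (t ^ (m + 1) * b * (t ^ (m + 1))⁻¹ * x) * (t ^ n)⁻¹ := by rw [this]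
      _ = _ := by group
  have h2 : C N = C (N + 1) := hN (N + 1) (Nat.le_succ N)
  rw [h2] at h1
  have h3 := h1 N (Nat.lt_succ_self N) a (by simp)
  rw [← map_mul, ← map_mul] at h3
  have h4 : ρ (a * b) = ρ (t ^ N)⁻¹ * ρ (t ^ N * a * (t ^ N)⁻¹ * (t ^ N * b * (t ^ N)⁻¹)) *
      ρ (t ^ N) := by
    rw [← map_mul, ← map_mul]; congr 1; group
  rw [h4, h3, ← map_mul, ← map_mul]
  congr 1; group

section fin
variable {Ω H : Type} [AddCommGroup Ω] [Group H] (θ : H →* AddMonoid.End Ω)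

lemma th_th (a b : H) (x : Ω) : θ a (θ b x) = θ (a * b) x := by rw [map_mul]; rfl

def GG : Subgroup (Equiv.Perm Ω) where
  carrier := {σ | ∃ v h, ∀ ω, σ ω = v + θ h ω}
  one_mem' := ⟨0, 1, fun ω => by simp⟩
  mul_mem' := by
    rintro a b ⟨v, h, ha⟩ ⟨w, k, hb⟩
    exact ⟨v + θ h w, h * k, fun ω => by simp [ha, hb, add_assoc]⟩
  inv_mem' := by
    rintro a ⟨v, h, ha⟩
    refine ⟨-θ h⁻¹ v, h⁻¹, fun ω => ?_⟩
    rw [Equiv.Perm.inv_eq_iff_eq, ha, map_add, map_neg, th_th, th_th]
    simp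

def lin : H →* GG θ where
  toFun h := ⟨⟨θ h, θ h⁻¹, fun ω => by rw [th_th]; simp,
    fun ω => by rw [th_th]; simp⟩, 0, h, fun ω => by simp⟩
  map_one' := by ext ω; simp
  map_mul' a b := by ext ω; simp

lemma lin_apply (h : H) (ω : Ω) : (lin θ h : Equiv.Perm Ω) ω = θ h ω := rfl

lemma lin_eq {a b : H} (h : θ a = θ b) : lin θ a = lin θ b := by
  ext ω; rw [lin_apply, lin_apply, h]

def tr (v : Ω) : GG θ := ⟨Equiv.addLeft v, v, 1, fun ω => by simp⟩

lemma tr_apply (v ω : Ω) : (tr θ v : Equiv.Perm Ω) ω = v + ω := rfl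

lemma tr_inv_apply (v ω : Ω) : ((tr θ v)⁻¹ : GG θ).1 ω = -v + ω := rfl

theorem final [Infinite Ω]
    (hT : ∀ x y : Ω, x ≠ 0 → y ≠ 0 → ∃ h, θ h x = y)
    (hS : ∀ S : Set H, S.Finite → ∃ d, ∀ h ∈ derivedSeries (Subgroup.closure S) d, θ h = 1)
    (hC : ∀ h, ∃ a b, θ h = θ (a * b * a⁻¹ * b⁻¹))
    (hD : ∀ a b : H, ∃ t : H, ∀ n : ℕ, n ≠ 0 → ∀ x ∈ ({a, b} : Set H), ∀ y ∈ ({a, b} : Set H),
      θ (x * (t ^ n * y * (t ^ n)⁻¹)) = θ (t ^ n * y * (t ^ n)⁻¹ * x)) :
    Infinite (GG θ) ∧ MulAction.IsMultiplyPretransitive (GG θ) Ω 2 ∧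
      (∀ x : Ω, ∀ S : Finset (GG θ), ((↑S : Set (GG θ)) ⊆ (MulAction.stabilizer (GG θ) x : Set _)) →
          Group.IsSolvable (Subgroup.closure (↑S : Set (GG θ)))) ∧
      ∀ (K : Type) [Field K] (V : Type) [AddCommGroup V] [Module K V] [FiniteDimensional K V]
        (ρ : GG θ →* Module.End K V) (g : GG θ), ρ g = 1 := by
  refine ⟨?_, ?_, ?_, ?_⟩
  · refine Infinite.of_injective (tr θ) fun a b h => ?_
    have := congrArg (fun g : GG θ => g.1 0) h
    simpa [tr_apply] using this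
  · rw [MulAction.is_two_pretransitive_iff]
    intro a b c d hab hcd
    obtain ⟨h, hh⟩ := hT (b - a) (d - c) (sub_ne_zero.2 hab.symm) (sub_ne_zero.2 hcd.symm)
    refine ⟨tr θ c * lin θ h * (tr θ a)⁻¹, ?_, ?_⟩
    · show c + θ h (-a + a) = c
      simp
    · show c + θ h (-a + b) = d
      rw [neg_add_eq_sub, hh]; simp
  · intro x S hSx
    have : ∀ s : GG θ, ∃ h, s ∈ S → s = tr θ x * lin θ h * (tr θ x)⁻¹ := by
      intro s
      obtain ⟨v, h, hs⟩ := s.2
      refine ⟨h, fun hm => ?_⟩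
      have h1 : s.1 x = x := hSx hm
      rw [hs] at h1
      ext ω
      show s.1 ω = x + θ h (-x + ω)
      rw [hs, map_add, map_neg, ← add_assoc]
      congr 1
      rw [← sub_eq_add_neg, eq_sub_iff_add_eq, h1]
    choose f hf using this
    obtain ⟨d, hd⟩ := hS (f '' S) (S.finite_toSet.image f)
    let c : Subgroup.closure (f '' S) →* GG θ :=
      ((MulAut.conj (tr θ x)).toMonoidHom.comp (lin θ)).comp (Subgroup.subtype _)
    have h1 : Group.IsSolvable c.range := by
      refine ⟨d, ?_⟩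
      rw [← map_derivedSeries_eq c.rangeRestrict_surjective, eq_bot_iff]
      rintro _ ⟨y, hy, rfl⟩
      rw [Subgroup.mem_bot]
      apply Subtype.ext
      show tr θ x * lin θ y * (tr θ x)⁻¹ = 1
      rw [lin_eq θ (b := 1) (by rw [hd y hy, map_one]), map_one]
      simp
    have h2 : Subgroup.closure (↑S : Set (GG θ)) ≤ c.range := by
      rw [Subgroup.closure_le]
      intro s hs
      exact ⟨⟨f s, Subgroup.subset_closure ⟨s, hs, rfl⟩⟩, (hf s hs).symm⟩
    exact Group.isSolvable_of_isSolvable_injective (Subgroup.inclusion_injective h2)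
  · intro K _ V _ _ _ ρ g
    have h1 : ∀ a b, ρ (lin θ a * lin θ b) = ρ (lin θ b * lin θ a) := by
      intro a b
      obtain ⟨t, ht⟩ := hD a b
      refine lin_comm ρ _ _ (lin θ t) fun n hn x hx y hy => ?_
      obtain ⟨x', hx', rfl⟩ : ∃ x' ∈ ({a, b} : Set H), lin θ x' = x := by
        rcases hx with rfl | rfl <;> simp
      obtain ⟨y', hy', rfl⟩ : ∃ y' ∈ ({a, b} : Set H), lin θ y' = y := by
        rcases hy with rfl | rfl <;> simp
      simpa using lin_eq θ (ht n hn x' hx' y' hy')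
    have h2 : ∀ h, ρ (lin θ h) = 1 := by
      intro h
      obtain ⟨a, b, e⟩ := hC h
      rw [lin_eq θ e, map_mul (lin θ), map_mul (lin θ), map_mul (lin θ), map_mul ρ, map_mul ρ, h1,
        ← map_mul ρ, ← map_mul ρ]
      simp
    have h3 : ∀ v, ρ (tr θ v) = 1 := by
      intro v
      classical
      obtain ⟨u, hu⟩ := Infinite.exists_notMem_finset ({0, -v} : Finset Ω)
      simp only [Finset.mem_insert, Finset.mem_singleton, not_or] at hu
      obtain ⟨h, hh⟩ := hT u (u + v) hu.1 (fun e => hu.2 (eq_neg_of_add_eq_zero_left e))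
      have : tr θ v = lin θ h * tr θ u * lin θ h⁻¹ * (tr θ u)⁻¹ := by
        ext ω
        show v + ω = θ h (u + θ h⁻¹ (-u + ω))
        rw [map_add, hh, th_th]
        simp only [mul_inv_cancel, map_one]
        show _ = u + v + (-u + ω)
        abel
      rw [this, map_mul, map_mul, map_mul, h2, h2, one_mul, mul_one, ← map_mul]
      simp
    obtain ⟨v, h, hg⟩ := g.2
    have : g = tr θ v * lin θ h := by
      ext ω; exact hg ω
    rw [this, map_mul, h3, h2, one_mul]

end fin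

structure St : Type 1 where
  V : Type
  [acg : AddCommGroup V]
  [md : Module ℚ V]
  H : Type
  [grp : Group H]
  ρ : H →* AddMonoid.End V
  solv : Group.IsSolvable H

attribute [instance] St.acg St.md St.grp St.solv

section step
variable (s : St)

def sh : Multiplicative ℤ →* MulAut (ℤ → s.H) where
  toFun k :=
    { toFun := fun f n => f (n - k.toAdd)
      invFun := fun f n => f (n + k.toAdd)
      left_inv := fun f => by funext n; simp
      right_inv := fun f => by funext n; simp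
      map_mul' := fun f g => rfl }
  map_one' := by ext f n; simp
  map_mul' a b := by ext f n; simp [sub_sub]

abbrev PP : Type := (ℤ → s.H) ⋊[sh s] Multiplicative ℤ

instance : Group.IsSolvable (ℤ → s.H) := by
  obtain ⟨d, hd⟩ := s.solv
  refine ⟨d, eq_bot_iff.2 fun f hf => ?_⟩
  rw [Subgroup.mem_bot]
  funext n
  have := map_derivedSeries_le_derivedSeries (Pi.evalMonoidHom (fun _ : ℤ => s.H) n) d
    (Subgroup.mem_map_of_mem _ hf)
  rw [hd] at this
  exact this

instance : Group.IsSolvable (PP s) :=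
  Group.isSolvable_of_ker_le_range SemidirectProduct.inl SemidirectProduct.rightHom
    SemidirectProduct.range_inl_eq_ker_rightHom.ge

def rP (p : PP s) : (ℤ → s.V) →ₗ[ℚ] (ℤ → s.V) :=
  AddMonoidHom.toRatLinearMap
    { toFun := fun w n => s.ρ (p.left n) (w (n - p.right.toAdd))
      map_zero' := by funext n; simp
      map_add' := fun a b => by funext n; simp }

lemma rP_apply (p : PP s) (w : ℤ → s.V) (n : ℤ) :
    rP s p w n = s.ρ (p.left n) (w (n - p.right.toAdd)) := rfl

lemma rP_one (w : ℤ → s.V) : rP s 1 w = w := by funext n; simp [rP_apply]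

lemma rP_mul (p q : PP s) (w : ℤ → s.V) : rP s (p * q) w = rP s p (rP s q w) := by
  funext n
  simp [rP_apply, sh, sub_sub]

abbrev SS : Type := SymmetricAlgebra ℚ (ℤ → s.V)

noncomputable def aP (p : PP s) : SS s →ₐ[ℚ] SS s :=
  SymmetricAlgebra.lift (SymmetricAlgebra.ι ℚ _ ∘ₗ rP s p)

lemma aP_ι (p : PP s) (w : ℤ → s.V) :
    aP s p (SymmetricAlgebra.ι ℚ _ w) = SymmetricAlgebra.ι ℚ _ (rP s p w) := by
  simp [aP]

lemma aP_one : aP s 1 = AlgHom.id ℚ _ := by
  apply SymmetricAlgebra.algHom_ext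
  ext1 w
  simp [aP_ι, rP_one]

lemma aP_mul (p q : PP s) : aP s (p * q) = (aP s p).comp (aP s q) := by
  apply SymmetricAlgebra.algHom_ext
  ext1 w
  simp [aP_ι, rP_mul]

noncomputable def eP : PP s →* (SS s ≃+* SS s) where
  toFun p := (AlgEquiv.ofAlgHom (aP s p) (aP s p⁻¹) (by rw [← aP_mul, mul_inv_cancel, aP_one])
    (by rw [← aP_mul, inv_mul_cancel, aP_one])).toRingEquiv
  map_one' := by
    ext x
    show aP s 1 x = x
    rw [aP_one]; rfl
  map_mul' p q := by
    ext x
    show aP s (p * q) x = aP s p (aP s q x)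
    rw [aP_mul]; rfl

abbrev LL : Type := FractionRing (SS s)

noncomputable def sig : PP s →* (LL s ≃+* LL s) :=
  (IsFractionRing.ringEquivOfRingEquivHom (SS s) (LL s)).comp (eP s)

lemma sig_alg (p : PP s) (x : SS s) :
    sig s p (algebraMap (SS s) (LL s) x) = algebraMap (SS s) (LL s) (aP s p x) :=
  IsFractionRing.ringEquivOfRingEquiv_algebraMap (eP s p) x

noncomputable def ph : PP s →* MulAut (LL s)ˣ where
  toFun p := Units.mapEquiv (sig s p).toMulEquiv
  map_one' := by ext u; simp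
  map_mul' p q := by ext u; simp

abbrev HH : Type := (LL s)ˣ ⋊[ph s] PP s

noncomputable def rH : HH s →* AddMonoid.End (LL s) where
  toFun g :=
    { toFun := fun x => g.left * sig s g.right x
      map_zero' := by simp
      map_add' := fun a b => by simp [mul_add] }
  map_one' := by ext x; show _ * _ = x; simp
  map_mul' a b := by
    ext x
    show ((a * b).left : LL s) * sig s (a * b).right x =
      a.left * sig s a.right (b.left * sig s b.right x)
    simp [ph, mul_assoc]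

noncomputable def step : St where
  V := LL s
  H := HH s
  ρ := rH s
  solv := Group.isSolvable_of_ker_le_range SemidirectProduct.inl SemidirectProduct.rightHom
    SemidirectProduct.range_inl_eq_ker_rightHom.ge

noncomputable def jj : s.V →+ (step s).V where
  toFun v := algebraMap (SS s) (LL s) (SymmetricAlgebra.ι ℚ _ (Pi.single 0 v))
  map_zero' := by rw [Pi.single_zero, map_zero, map_zero]; rfl
  map_add' a b := by rw [Pi.single_add, map_add, map_add]; rfl

lemma jj_inj (v : s.V) (h : jj s v = 0) : v = 0 := by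
  have h1 : SymmetricAlgebra.ι ℚ (ℤ → s.V) (Pi.single 0 v) = 0 :=
    IsFractionRing.injective (SS s) (LL s) (h.trans (map_zero _).symm)
  have h2 : (Pi.single 0 v : ℤ → s.V) = 0 := by
    rw [← Module.forall_dual_apply_eq_zero_iff ℚ]
    intro φ
    have := congrArg (SymmetricAlgebra.lift φ) h1
    simpa using this
  simpa using congrFun h2 0

noncomputable def ee : s.H →* (step s).H :=
  (SemidirectProduct.inr : PP s →* HH s).comp
    ((SemidirectProduct.inl : (ℤ → s.H) →* PP s).comp (MonoidHom.mulSingle (fun _ : ℤ => s.H) 0))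

lemma ee_jj (h : s.H) (v : s.V) : (step s).ρ (ee s h) (jj s v) = jj s (s.ρ h v) := by
  show ((1 : (LL s)ˣ) : LL s) * sig s (SemidirectProduct.inl (Pi.mulSingle 0 h))
    (algebraMap (SS s) (LL s) (SymmetricAlgebra.ι ℚ _ (Pi.single 0 v))) =
    algebraMap (SS s) (LL s) (SymmetricAlgebra.ι ℚ _ (Pi.single 0 (s.ρ h v)))
  rw [Units.val_one, one_mul, sig_alg, aP_ι]
  congr 2
  funext n
  by_cases hn : n = 0
  · subst hn; simp [rP_apply]
  · simp [rP_apply, hn]

lemma step_T (x y : (step s).V) (hx : x ≠ 0) (hy : y ≠ 0) : ∃ g, (step s).ρ g x = y := by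
  have hx' : (x : LL s) ≠ (0 : LL s) := hx
  have hy' : (y : LL s) ≠ (0 : LL s) := hy
  let x' : LL s := x
  let y' : LL s := y
  refine ⟨(SemidirectProduct.inl (Units.mk0 (y' / x') (div_ne_zero hy' hx')) : HH s), ?_⟩
  show y' / x' * sig s 1 x' = y'
  rw [map_one]
  exact div_mul_cancel₀ y' hx'

lemma step_C (h : s.H) : ∃ a b : (step s).H, ee s h = a * b * a⁻¹ * b⁻¹ := by
  let f : PP s := SemidirectProduct.inl (fun n => if 0 ≤ n then h else 1)
  let t : PP s := SemidirectProduct.inr (Multiplicative.ofAdd 1)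
  have : (SemidirectProduct.inl (Pi.mulSingle 0 h) : PP s) = f * t * f⁻¹ * t⁻¹ := by
    rw [mul_assoc f, mul_assoc f, ← map_inv, ← map_inv, ← SemidirectProduct.inl_aut, ← map_mul]
    congr 1
    funext n
    show _ = (if 0 ≤ n then h else 1) * (if 0 ≤ n - 1 then h else 1)⁻¹
    by_cases hn : n = 0
    · subst hn; simp
    · by_cases h2 : 0 ≤ n
      · have : 0 ≤ n - 1 := by omega
        rw [if_pos h2, if_pos this]; simp [hn]
      · have : ¬ 0 ≤ n - 1 := by omega
        rw [if_neg h2, if_neg this]; simp [hn]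
  refine ⟨(SemidirectProduct.inr f : HH s), (SemidirectProduct.inr t : HH s), ?_⟩
  have h2 := congrArg (SemidirectProduct.inr : PP s →* HH s) this
  simp only [map_mul, map_inv] at h2
  exact h2

lemma step_D : ∃ t : (step s).H, ∀ n : ℕ, n ≠ 0 → ∀ x y : s.H,
    ee s x * (t ^ n * ee s y * (t ^ n)⁻¹) = t ^ n * ee s y * (t ^ n)⁻¹ * ee s x := by
  let t : PP s := SemidirectProduct.inr (Multiplicative.ofAdd 1)
  refine ⟨(SemidirectProduct.inr t : HH s), fun n hn x y => ?_⟩
  have : (SemidirectProduct.inl (Pi.mulSingle 0 x) : PP s) *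
      (t ^ n * SemidirectProduct.inl (Pi.mulSingle 0 y) * (t ^ n)⁻¹) =
      t ^ n * SemidirectProduct.inl (Pi.mulSingle 0 y) * (t ^ n)⁻¹ *
        SemidirectProduct.inl (Pi.mulSingle 0 x) := by
    rw [← map_pow, ← map_inv, ← SemidirectProduct.inl_aut, ← map_mul, ← map_mul]
    congr 1
    funext m
    by_cases hm : m = 0
    · subst hm
      simp [sh, hn]
    · simp [sh, hm]
  have h2 := congrArg (SemidirectProduct.inr : PP s →* HH s) this
  simp only [map_mul, map_pow, map_inv] at h2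
  exact h2

end step

end Pool.Agent.H25.TwoTr
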