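import Pool.Agent.H25.TwoTr1

set_option autoImplicit false

namespace Pool.Agent.H25.TwoTr

def s0 : St where
  V := ℚ
  H := PUnit
  ρ := 1
  solv := inferInstance

noncomputable def sq : ℕ → St
  | 0 => s0
  | n + 1 => step (sq n)

noncomputable def fV (i j : ℕ) (h : i ≤ j) : (sq i).V →+ (sq j).V :=
  Nat.leRec (motive := fun j _ => (sq i).V →+ (sq j).V) (AddMonoidHom.id _)
    (fun {k} _ g => (jj (sq k)).comp g) h

noncomputable def fH (i j : ℕ) (h : i ≤ j) : (sq i).H →* (sq j).H :=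
  Nat.leRec (motive := fun j _ => (sq i).H →* (sq j).H) (MonoidHom.id _)
    (fun {k} _ g => (ee (sq k)).comp g) h

lemma fV_self (i : ℕ) (x : (sq i).V) : fV i i le_rfl x = x := by
  unfold fV; rw [Nat.leRec_self]; rfl

lemma fV_succ (i j : ℕ) (h : i ≤ j) (h2 : i ≤ j + 1) (x : (sq i).V) :
    fV i (j + 1) h2 x = jj (sq j) (fV i j h x) := by
  unfold fV; rw [Nat.leRec_succ _ _ h]; rfl

lemma fH_self (i : ℕ) (x : (sq i).H) : fH i i le_rfl x = x := by
  unfold fH; rw [Nat.leRec_self]; rfl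

lemma fH_succ (i j : ℕ) (h : i ≤ j) (h2 : i ≤ j + 1) (x : (sq i).H) :
    fH i (j + 1) h2 x = ee (sq j) (fH i j h x) := by
  unfold fH; rw [Nat.leRec_succ _ _ h]; rfl

instance : DirectedSystem (fun i => (sq i).V) (fV · · ·) where
  map_self := fV_self
  map_map k j i hij hjk x := by
    induction k, hjk using Nat.le_induction with
    | base => rw [fV_self]
    | succ k hk ih => rw [fV_succ _ _ hk, fV_succ _ _ (hij.trans hk), ih]

instance : DirectedSystem (fun i => (sq i).H) (fH · · ·) where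
  map_self := fH_self
  map_map k j i hij hjk x := by
    induction k, hjk using Nat.le_induction with
    | base => rw [fH_self]
    | succ k hk ih => rw [fH_succ _ _ hk, fH_succ _ _ (hij.trans hk), ih]

lemma compat (i j : ℕ) (h : i ≤ j) (g : (sq i).H) (x : (sq i).V) :
    fV i j h ((sq i).ρ g x) = (sq j).ρ (fH i j h g) (fV i j h x) := by
  induction j, h using Nat.le_induction with
  | base => rw [fV_self, fV_self, fH_self]
  | succ k hk ih =>
    rw [fV_succ _ _ hk, fV_succ _ _ hk, fH_succ _ _ hk, ih]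
    exact (ee_jj _ _ _).symm

lemma fV_inj (i j : ℕ) (h : i ≤ j) : Function.Injective (fV i j h) := by
  rw [injective_iff_map_eq_zero]
  intro x
  induction j, h using Nat.le_induction with
  | base => rw [fV_self]; exact id
  | succ k hk ih =>
    rw [fV_succ _ _ hk]
    exact fun e => ih (jj_inj _ _ e)

abbrev Om : Type := DirectLimit (fun i => (sq i).V) fV
abbrev HL : Type := DirectLimit (fun i => (sq i).H) fH

noncomputable def mV (i : ℕ) (x : (sq i).V) : Om := Quotient.mk (DirectLimit.setoid fV) ⟨i, x⟩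
noncomputable def mH (i : ℕ) (x : (sq i).H) : HL := Quotient.mk (DirectLimit.setoid fH) ⟨i, x⟩

noncomputable def act : HL → Om → Om :=
  DirectLimit.map₂ fH fV fV (fun i g x => (sq i).ρ g x) compat

lemma act_def (i : ℕ) (g : (sq i).H) (x : (sq i).V) :
    act (mH i g) (mV i x) = mV i ((sq i).ρ g x) :=
  DirectLimit.map₂_def fH fV fV (fun i g x => (sq i).ρ g x) compat i g x

lemma mV_add (i : ℕ) (x y : (sq i).V) : mV i x + mV i y = mV i (x + y) :=
  DirectLimit.add_def (G := fun i => (sq i).V) (f := fV) i x y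

lemma mH_mul (i : ℕ) (x y : (sq i).H) : mH i x * mH i y = mH i (x * y) :=
  DirectLimit.mul_def (G := fun i => (sq i).H) (f := fH) i x y

lemma mV_zero (i : ℕ) : mV i 0 = 0 := (DirectLimit.zero_def (f := fV) i).symm

lemma mH_one (i : ℕ) : mH i 1 = 1 := (DirectLimit.one_def (f := fH) i).symm

lemma upV (x : Om) : ∃ N, ∀ j, N ≤ j → ∃ y, x = mV j y := by
  obtain ⟨i, y, rfl⟩ := DirectLimit.exists_eq_mk fV x
  exact ⟨i, fun j hj => ⟨_, DirectLimit.eq_of_le (f := fV) ⟨i, y⟩ j hj⟩⟩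

lemma upH (x : HL) : ∃ N, ∀ j, N ≤ j → ∃ y, x = mH j y := by
  obtain ⟨i, y, rfl⟩ := DirectLimit.exists_eq_mk fH x
  exact ⟨i, fun j hj => ⟨_, DirectLimit.eq_of_le (f := fH) ⟨i, y⟩ j hj⟩⟩

noncomputable def thA (g : HL) : Om →+ Om := AddMonoidHom.mk' (act g) fun x y => by
  obtain ⟨a, ha⟩ := upH g
  obtain ⟨b, hb⟩ := upV x
  obtain ⟨c, hc⟩ := upV y
  obtain ⟨g, rfl⟩ := ha (a + b + c) (by omega)
  obtain ⟨x, rfl⟩ := hb (a + b + c) (by omega)
  obtain ⟨y, rfl⟩ := hc (a + b + c) (by omega)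
  rw [mV_add, act_def, act_def, act_def, mV_add, map_add]

noncomputable def th : HL →* AddMonoid.End Om where
  toFun g := thA g
  map_one' := by
    refine AddMonoidHom.ext fun x => ?_
    obtain ⟨i, hi⟩ := upV x
    obtain ⟨y, rfl⟩ := hi i le_rfl
    show act 1 (mV i y) = mV i y
    rw [← mH_one i, act_def, map_one]; rfl
  map_mul' g h := by
    refine AddMonoidHom.ext fun x => ?_
    show act (g * h) x = act g (act h x)
    obtain ⟨a, ha⟩ := upH g
    obtain ⟨b, hb⟩ := upH h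
    obtain ⟨c, hc⟩ := upV x
    obtain ⟨g, rfl⟩ := ha (a + b + c) (by omega)
    obtain ⟨h, rfl⟩ := hb (a + b + c) (by omega)
    obtain ⟨x, rfl⟩ := hc (a + b + c) (by omega)
    rw [mH_mul, act_def, act_def, act_def, th_th]

noncomputable def ofH (i : ℕ) : (sq i).H →* HL :=
  MonoidHom.mk' (mH i) fun a b => (mH_mul i a b).symm

lemma ofH_ee (i : ℕ) (g : (sq i).H) : ofH (i + 1) (ee (sq i) g) = mH i g := by
  have := DirectLimit.eq_of_le (f := fH) ⟨i, g⟩ (i + 1) (Nat.le_succ i)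
  rw [fH_succ _ _ le_rfl, fH_self] at this
  exact this.symm

instance : Infinite Om :=
  have : Infinite (sq 0).V := inferInstanceAs (Infinite ℚ)
  Infinite.of_injective _ (DirectLimit.mk_injective fV fV_inj 0)

lemma hT (x y : Om) (hx : x ≠ 0) (hy : y ≠ 0) : ∃ h, th h x = y := by
  obtain ⟨a, ha⟩ := upV x
  obtain ⟨b, hb⟩ := upV y
  obtain ⟨x, rfl⟩ := ha (a + b + 1) (by omega)
  obtain ⟨y, rfl⟩ := hb (a + b + 1) (by omega)
  obtain ⟨g, hg⟩ := step_T (sq (a + b)) x y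
    (fun e => hx (by rw [← mV_zero (a + b + 1), e]; rfl))
    (fun e => hy (by rw [← mV_zero (a + b + 1), e]; rfl))
  refine ⟨mH (a + b + 1) g, (act_def (a + b + 1) g x).trans ?_⟩
  exact congrArg (mV (a + b + 1)) hg

lemma hS (S : Set HL) (hf : S.Finite) :
    ∃ d, ∀ h ∈ derivedSeries (Subgroup.closure S) d, th h = 1 := by
  choose N hN using upH
  obtain ⟨M, hM⟩ := (hf.image N).bddAbove
  have h1 : Subgroup.closure S ≤ (ofH M).range := by
    rw [Subgroup.closure_le]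
    intro x hx
    obtain ⟨y, hy⟩ := hN x M (hM ⟨x, hx, rfl⟩)
    exact ⟨y, hy.symm⟩
  have h2 : Group.IsSolvable (ofH M).range :=
    Group.isSolvable_of_surjective (ofH M).rangeRestrict_surjective
  obtain ⟨d, hd⟩ : Group.IsSolvable (Subgroup.closure S) :=
    Group.isSolvable_of_isSolvable_injective (Subgroup.inclusion_injective h1)
  refine ⟨d, fun h hh => ?_⟩
  rw [hd, Subgroup.mem_bot] at hh
  rw [hh]; simp

lemma hC (h : HL) : ∃ a b, th h = th (a * b * a⁻¹ * b⁻¹) := by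
  obtain ⟨i, hi⟩ := upH h
  obtain ⟨y, rfl⟩ := hi i le_rfl
  obtain ⟨a, b, e⟩ := step_C (sq i) y
  refine ⟨ofH (i + 1) a, ofH (i + 1) b, ?_⟩
  rw [← ofH_ee, e, ← map_inv, ← map_inv, ← map_mul, ← map_mul, ← map_mul]
  rfl

lemma hD (a b : HL) : ∃ t : HL, ∀ n : ℕ, n ≠ 0 → ∀ x ∈ ({a, b} : Set HL), ∀ y ∈ ({a, b} : Set HL),
    th (x * (t ^ n * y * (t ^ n)⁻¹)) = th (t ^ n * y * (t ^ n)⁻¹ * x) := by
  obtain ⟨i, hi⟩ := upH a
  obtain ⟨j, hj⟩ := upH b
  obtain ⟨a, rfl⟩ := hi (i + j) (by omega)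
  obtain ⟨b, rfl⟩ := hj (i + j) (by omega)
  obtain ⟨t, ht⟩ := step_D (sq (i + j))
  refine ⟨ofH (i + j + 1) t, fun n hn x hx y hy => ?_⟩
  obtain ⟨x, rfl⟩ : ∃ x', x = ofH (i + j + 1) (ee (sq (i + j)) x') := by
    rcases hx with rfl | rfl <;> exact ⟨_, (ofH_ee _ _).symm⟩
  obtain ⟨y, rfl⟩ : ∃ x', y = ofH (i + j + 1) (ee (sq (i + j)) x') := by
    rcases hy with rfl | rfl <;> exact ⟨_, (ofH_ee _ _).symm⟩
  have := congrArg (ofH (i + j + 1)) (ht n hn x y)
  congr 1
  rw [← map_pow, ← map_inv, ← map_mul, ← map_mul, ← map_mul, ← map_mul]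
  exact this

end Pool.Agent.H25.TwoTr
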