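import Mathlib

/-! Weighted acyclic digraphs with unique directed paths and small independent sets. -/

namespace Pool.Agent.H25.Zykov

open Finset Relation

theorem rmono {V : Type} {r p : V → V → Prop} {a b : V} (h : ReflTransGen r a b)
    (hrp : ∀ x y, r x y → p x y) : ReflTransGen p a b := by
  induction h with
  | refl => exact .refl
  | tail _ h2 ih => exact ih.tail (hrp _ _ h2)

/-- weighted digraph with unique directed paths -/
structure Sys where
  V : Type
  [fin : Fintype V]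
  r : V → V → Prop
  w : V → ℕ
  lev : V → ℕ
  lev_lt : ∀ x y, r x y → lev y < lev x
  uniq : ∀ a v b, ReflTransGen r a v → ReflTransGen r v b → a ≠ v →
    ¬ ReflTransGen (fun x y => r x y ∧ y ≠ v) a b

attribute [instance] Sys.fin

def Sys.Small (S : Sys) (ρ : ℝ) : Prop :=
  0 < ∑ v, S.w v ∧ ∀ I : Finset S.V, (∀ x ∈ I, ∀ y ∈ I, ¬ S.r x y) →
    (∑ v ∈ I, (S.w v : ℝ)) ≤ ρ * ∑ v, (S.w v : ℝ)

def nr {V : Type} (m : ℕ) (r : V → V → Prop) :
    (Fin m × V) ⊕ (Fin m → V) → (Fin m × V) ⊕ (Fin m → V) → Prop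
  | .inl p, .inl q => p.1 = q.1 ∧ r p.2 q.2
  | .inr f, .inl q => f q.1 = q.2
  | _, .inr _ => False

theorem nr_inl {V : Type} {m : ℕ} {r : V → V → Prop} (Q : (Fin m × V) ⊕ (Fin m → V) → Prop)
    {j : Fin m} {x : V} {z : (Fin m × V) ⊕ (Fin m → V)}
    (h : ReflTransGen (fun a b => nr m r a b ∧ Q b) (.inl (j, x)) z) :
    ∃ y, z = .inl (j, y) ∧ ReflTransGen (fun a b => r a b ∧ Q (.inl (j, b))) x y := by
  induction h with
  | refl => exact ⟨x, rfl, .refl⟩
  | tail _ h2 ih =>
    obtain ⟨y, rfl, hy⟩ := ih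
    rename_i c _
    rcases c with ⟨j', y'⟩ | f
    · obtain ⟨⟨e, h3⟩, h4⟩ := h2
      simp only at e h3
      subst e
      exact ⟨y', rfl, hy.tail ⟨h3, h4⟩⟩
    · exact h2.1.elim

theorem nr_inl' {V : Type} {m : ℕ} {r : V → V → Prop}
    {j : Fin m} {x : V} {z : (Fin m × V) ⊕ (Fin m → V)}
    (h : ReflTransGen (nr m r) (.inl (j, x)) z) :
    ∃ y, z = .inl (j, y) ∧ ReflTransGen r x y := by
  obtain ⟨y, h1, h2⟩ := nr_inl (fun _ => True) (rmono h fun _ _ h => ⟨h, trivial⟩)
  exact ⟨y, h1, rmono h2 fun _ _ h => h.1⟩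

open Classical in
noncomputable def Sys.step (S : Sys) (m A B : ℕ) : Sys where
  V := (Fin m × S.V) ⊕ (Fin m → S.V)
  r := nr m S.r
  w := fun z => match z with
    | .inl p => A * S.w p.2
    | .inr f => B * ∏ j, S.w (f j)
  lev := fun z => match z with
    | .inl p => S.lev p.2
    | .inr f => 1 + ∑ j, S.lev (f j)
  lev_lt := by
    rintro (p | f) (q | g) h
    · exact S.lev_lt _ _ h.2
    · exact h.elim
    · have e : f q.1 = q.2 := h
      have := Finset.single_le_sum (f := fun j => S.lev (f j)) (fun _ _ => Nat.zero_le _)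
        (Finset.mem_univ q.1)
      simp only [e] at this
      simp only
      omega
    · exact h.elim
  uniq := by
    rintro (⟨j, x⟩ | f) v b h1 h2 hne h3
    · obtain ⟨y, rfl, hy⟩ := nr_inl' h1
      obtain ⟨z, rfl, hz⟩ := nr_inl' h2
      obtain ⟨z', e, hz'⟩ := nr_inl _ h3
      obtain rfl : z = z' := by simpa using e
      exact S.uniq x y z hy hz (by simpa using hne) (rmono hz' fun _ _ h => ⟨h.1, by simpa using h.2⟩)
    · rcases h1.cases_head with h | ⟨c, hc, h1⟩
      · exact hne h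
      rcases c with ⟨j, x⟩ | g
      swap
      · exact hc.elim
      obtain rfl : f j = x := hc
      obtain ⟨y, rfl, hy⟩ := nr_inl' h1
      obtain ⟨z, rfl, hz⟩ := nr_inl' h2
      rcases h3.cases_head with h | ⟨c, hc, h3⟩
      · simp at h
      rcases c with ⟨j', x⟩ | g
      swap
      · exact hc.1.elim
      obtain rfl : f j' = x := hc.1
      obtain ⟨z', e, hz'⟩ := nr_inl _ h3
      obtain ⟨rfl, rfl⟩ : j = j' ∧ z = z' := by simpa using e
      exact S.uniq _ y z hy hz (by simpa using hc.2)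
        (rmono hz' fun _ _ h => ⟨h.1, by simpa using h.2⟩)

theorem prod_le {ι : Type*} (s : Finset ι) (x : ι → ℝ) (h0 : ∀ i, 0 ≤ x i) (h1 : ∀ i, x i ≤ 1) :
    (∏ i ∈ s, (1 - x i)) * (1 + ∑ i ∈ s, x i) ≤ 1 := by
  classical
  induction s using Finset.induction_on with
  | empty => simp
  | insert i s hi ih =>
    rw [Finset.prod_insert hi, Finset.sum_insert hi]
    have p0 : 0 ≤ ∏ i ∈ s, (1 - x i) := Finset.prod_nonneg fun i _ => by linarith [h1 i]
    have s0 : 0 ≤ ∑ i ∈ s, x i := Finset.sum_nonneg fun i _ => h0 i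
    have : (1 - x i) * (1 + (x i + ∑ i ∈ s, x i)) ≤ 1 + ∑ i ∈ s, x i := by nlinarith [h0 i]
    nlinarith

theorem step_small (S : Sys) (N : ℕ) (hN : 2 ≤ N) (h : S.Small (2 / N)) :
    ∃ S' : Sys, S'.Small (2 / ((N + 1 : ℕ) : ℝ)) := by
  classical
  have N0 : 0 < N ^ 2 := by positivity
  obtain ⟨M, hM⟩ : ∃ M, N ^ 2 = M + 1 := ⟨N ^ 2 - 1, by omega⟩
  set W := ∑ v, S.w v with hW
  have W0 : (0 : ℝ) < W := by exact_mod_cast h.1
  have hWr : ∑ v, (S.w v : ℝ) = W := by rw [hW]; push_cast; rfl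
  have N2 : (2 : ℝ) ≤ N := by exact_mod_cast hN
  have hMr : (M + 1 : ℝ) = N ^ 2 := by exact_mod_cast hM.symm
  refine ⟨S.step (M + 1) (N * W ^ M) (2 * (M + 1)), ?_⟩
  have tot : ∑ v, (S.step (M + 1) (N * W ^ M) (2 * (M + 1))).w v =
      (M + 1) * (N + 2) * W ^ (M + 1) := by
    change ∑ v : (Fin (M + 1) × S.V) ⊕ (Fin (M + 1) → S.V), _ = _
    rw [Fintype.sum_sum_type, Fintype.sum_prod_type]
    simp only [Sys.step, ← Finset.mul_sum, ← hW]
    rw [← Fintype.piFinset_univ, ← Finset.prod_univ_sum]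
    simp only [← hW, Finset.sum_const, Finset.prod_const, Finset.card_univ, Fintype.card_fin,
      smul_eq_mul]
    ring
  refine ⟨by rw [tot]; have := h.1; positivity, fun I hI => ?_⟩
  have tot' : ∑ v, ((S.step (M + 1) (N * W ^ M) (2 * (M + 1))).w v : ℝ) =
      (M + 1) * (N + 2) * W ^ (M + 1) := by exact_mod_cast tot
  rw [tot']
  let J : Fin (M + 1) → Finset S.V := fun j => univ.filter fun x => Sum.inl (j, x) ∈ I
  let u : Fin (M + 1) → ℝ := fun j => (∑ v ∈ J j, (S.w v : ℝ)) / W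
  have u0 : ∀ j, 0 ≤ u j := fun j => by positivity
  have u1 : ∀ j, u j ≤ 2 / N := fun j => by
    rw [div_le_iff₀ W0, ← hWr]
    refine h.2 _ fun x hx y hy hr => ?_
    exact hI _ (Finset.mem_filter.1 hx).2 _ (Finset.mem_filter.1 hy).2 ⟨rfl, hr⟩
  have u2 : ∀ j, u j ≤ 1 := fun j => (u1 j).trans (by rw [div_le_one (by linarith)]; exact N2)
  have hc : ∀ j, ∑ v ∈ (J j)ᶜ, (S.w v : ℝ) = W * (1 - u j) := fun j => by
    have := Finset.sum_add_sum_compl (J j) (fun v => (S.w v : ℝ))
    simp only [u]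
    field_simp
    linarith
  have main : ∑ v ∈ I, ((S.step (M + 1) (N * W ^ M) (2 * (M + 1))).w v : ℝ) ≤
      N * W ^ (M + 1) * ∑ j, u j + 2 * (M + 1) * (W ^ (M + 1) * ∏ j, (1 - u j)) := by
    have gen : ∀ (I : Finset ((Fin (M + 1) × S.V) ⊕ (Fin (M + 1) → S.V))) (g : _ → ℝ),
        ∑ v ∈ I, g v = ∑ v ∈ I.toLeft, g (.inl v) + ∑ v ∈ I.toRight, g (.inr v) := by
      intro I g
      rw [← Finset.sum_disjSum, Finset.toLeft_disjSum_toRight]
    refine (gen I _).trans_le (add_le_add (le_of_eq ?_) ?_)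
    · have : I.toLeft = univ.filter fun p : Fin (M + 1) × S.V => Sum.inl p ∈ I := by
        ext p; simp; rfl
      rw [this, Finset.sum_filter, Fintype.sum_prod_type, Finset.mul_sum]
      refine Finset.sum_congr rfl fun j _ => ?_
      rw [← Finset.sum_filter]
      simp only [Sys.step, u, J]
      push_cast
      rw [← Finset.mul_sum]
      field_simp
      ring
    · calc _ ≤ ∑ f ∈ Fintype.piFinset (fun j => (J j)ᶜ),
            (2 * (M + 1) : ℝ) * ∏ j, (S.w (f j) : ℝ) := by
            simp only [Sys.step]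
            push_cast
            refine Finset.sum_le_sum_of_subset_of_nonneg (fun f hf => ?_) fun _ _ _ => by positivity
            rw [Fintype.mem_piFinset]
            intro j
            rw [Finset.mem_compl]
            intro hj
            exact hI _ (Finset.mem_toRight.1 hf) _ (Finset.mem_filter.1 hj).2 rfl
        _ = _ := by
            rw [← Finset.mul_sum, ← Finset.prod_univ_sum _ (fun _ v => (S.w v : ℝ))]
            simp only [hc, Finset.prod_mul_distrib, Finset.prod_const, Finset.card_univ,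
              Fintype.card_fin]
  refine main.trans ?_
  have p1 := prod_le univ u u0 u2
  have s0 : 0 ≤ ∑ j, u j := Finset.sum_nonneg fun j _ => u0 j
  have s1 : ∑ j, u j ≤ 2 * N := by
    calc _ ≤ ∑ _j : Fin (M + 1), (2 / N : ℝ) := Finset.sum_le_sum fun j _ => u1 j
      _ = _ := by
        simp only [Finset.sum_const, Finset.card_univ, Fintype.card_fin, nsmul_eq_mul]
        push_cast; rw [hMr]; field_simp
  set σ := ∑ j, u j
  set P := ∏ j, (1 - u j)
  have hP : P ≤ 1 / (1 + σ) := by rw [le_div_iff₀ (by linarith)]; exact p1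
  have key : σ + 2 * N * P ≤ 2 * N * (N + 2) / (N + 1) := by
    refine le_trans (b := σ + 2 * N * (1 / (1 + σ))) (by gcongr) ?_
    rw [le_div_iff₀ (by linarith)]
    have : (σ + 2 * N * (1 / (1 + σ))) * (N + 1) =
        (σ * (1 + σ) * (N + 1) + 2 * N * (N + 1)) / (1 + σ) := by field_simp
    rw [this, div_le_iff₀ (by linarith)]
    have : (N + 1) * (1 + σ) ≤ 2 * N * (N + 2) := by nlinarith
    nlinarith
  have Wp : (0 : ℝ) < W ^ (M + 1) := by positivity
  push_cast
  rw [hMr]
  calc _ = N * W ^ (M + 1) * (σ + 2 * N * P) := by ring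
    _ ≤ N * W ^ (M + 1) * (2 * N * (N + 2) / (N + 1)) := by gcongr
    _ = _ := by field_simp

theorem exists_small (N : ℕ) (hN : 2 ≤ N) : ∃ S : Sys, S.Small (2 / N) := by
  induction N, hN using Nat.le_induction with
  | base =>
    refine ⟨⟨Unit, fun _ _ => False, fun _ => 1, fun _ => 0, fun _ _ h => h.elim,
      fun _ _ _ _ _ h => absurd rfl h⟩, by simp, fun I _ => ?_⟩
    have := Finset.card_le_univ I
    simp at this ⊢
    exact_mod_cast this
  | succ N hN ih =>
    obtain ⟨S, hS⟩ := ih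
    exact step_small S N hN hS

theorem Sys.lev_le (S : Sys) {x y : S.V} (h : ReflTransGen S.r x y) : S.lev y ≤ S.lev x := by
  induction h with
  | refl => exact le_rfl
  | tail _ h2 ih => exact (S.lev_lt _ _ h2).le.trans ih

open Classical in
/-- the set of vertices between `a` and `b` -/
noncomputable def Sys.itv (S : Sys) (a b : S.V) : Finset S.V :=
  univ.filter fun v => ReflTransGen S.r a v ∧ ReflTransGen S.r v b

/-- Gallai-Roy type bound -/
theorem Sys.gallai (S : Sys) {ρ : ℝ} (h : S.Small ρ) (I : Finset S.V) (k : ℕ)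
    (hI : k * (ρ * ∑ v, (S.w v : ℝ)) < ∑ v ∈ I, (S.w v : ℝ)) :
    ∃ x ∈ I, ∃ y, ReflTransGen (fun a b => S.r a b ∧ b ∈ I) x y ∧ k + 1 ≤ (S.itv x y).card := by
  classical
  let A : ℕ → Finset S.V := fun k => I.filter fun x =>
    ∃ y, ReflTransGen (fun a b => S.r a b ∧ b ∈ I) x y ∧ k + 1 ≤ (S.itv x y).card
  have key : ∀ k : ℕ, ∑ v ∈ I, (S.w v : ℝ) ≤
      ∑ v ∈ A k, (S.w v : ℝ) + k * (ρ * ∑ v, (S.w v : ℝ)) := by
    intro k
    induction k with
    | zero =>
      have : A 0 = I := Finset.filter_true_of_mem fun x _ =>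
        ⟨x, .refl, Finset.card_pos.2 ⟨x, by simp [Sys.itv, ReflTransGen.refl]⟩⟩
      simp [this]
    | succ k ih =>
      have sub : A (k + 1) ⊆ A k := by
        intro x hx
        obtain ⟨h1, y, h2, h3⟩ := Finset.mem_filter.1 hx
        exact Finset.mem_filter.2 ⟨h1, y, h2, by omega⟩
      have := h.2 (A k \ A (k + 1)) (by
        intro x hx y hy hr
        obtain ⟨x1, x2⟩ := Finset.mem_sdiff.1 hx
        obtain ⟨y1, z, y2, y3⟩ := Finset.mem_filter.1 (Finset.mem_sdiff.1 hy).1
        refine x2 (Finset.mem_filter.2 ⟨(Finset.mem_filter.1 x1).1, z, y2.head ⟨hr, y1⟩, ?_⟩)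
        have hz : ReflTransGen S.r y z := rmono y2 fun _ _ h => h.1
        have nm : x ∉ S.itv y z := by
          intro hm
          have := S.lev_le (Finset.mem_filter.1 hm).2.1
          have := S.lev_lt _ _ hr
          omega
        have : insert x (S.itv y z) ⊆ S.itv x z := by
          intro v hv
          rcases Finset.mem_insert.1 hv with rfl | hv
          · exact Finset.mem_filter.2 ⟨Finset.mem_univ _, .refl, hz.head hr⟩
          · obtain ⟨_, v1, v2⟩ := Finset.mem_filter.1 hv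
            exact Finset.mem_filter.2 ⟨Finset.mem_univ _, v1.head hr, v2⟩
        have := Finset.card_le_card this
        rw [Finset.card_insert_of_notMem nm] at this
        omega)
      have e := Finset.sum_sdiff (f := fun v => (S.w v : ℝ)) sub
      push_cast
      linarith
  have := key k
  by_contra hc
  have e : A k = ∅ := Finset.filter_eq_empty_iff.2 fun x hx hy => hc ⟨x, hx, hy⟩
  rw [e, Finset.sum_empty] at this
  linarith

end Pool.Agent.H25.Zykov
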